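import Mathlib

/-!
# Based differential modules: definitions

`D : ι → ι → R` is a matrix (`D a b` = coefficient of `b` in the boundary of `a`), `B` a finite set of
indices.  The module is `B → R`, the differential sends `x` to `b ↦ ∑ a ∈ B, x a * D a b`.
No grading is used.  `par` is the parity of the length of the homology.
-/

namespace Cub

variable {R : Type} [CommRing R] {ι : Type} [DecidableEq ι]

/-- The differential of the based module with basis `B`. -/
def dB (D : ι → ι → R) (B : Finset ι) : (B → R) →ₗ[R] (B → R) where
  toFun x := fun b => ∑ a : B, x a * D a b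
  map_add' x y := by
    funext b
    simp [add_mul, Finset.sum_add_distrib]
  map_smul' r x := by
    funext b
    simp [Finset.mul_sum, mul_assoc]

/-- `D ∘ D = 0` on `B`. -/
def IsCx (D : ι → ι → R) (B : Finset ι) : Prop :=
  ∀ a ∈ B, ∀ c ∈ B, ∑ b ∈ B, D a b * D b c = 0

/-- The homology. -/
abbrev Hm (D : ι → ι → R) (B : Finset ι) : Type :=
  (LinearMap.ker (dB D B)) ⧸ (LinearMap.range (dB D B)).submoduleOf (LinearMap.ker (dB D B))

/-- The homology is zero. -/
def Acy (D : ι → ι → R) (B : Finset ι) : Prop :=
  ∀ x : B → R, dB D B x = 0 → ∃ y : B → R, dB D B y = x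

/-- The homology has finite length. -/
def FL (D : ι → ι → R) (B : Finset ι) : Prop := Module.length R (Hm D B) ≠ ⊤

/-- The parity of the length of the homology. -/
noncomputable def par (D : ι → ι → R) (B : Finset ι) : ZMod 2 :=
  ((Module.length R (Hm D B)).toNat : ZMod 2)

/-- The transposed matrix. -/
def tr (D : ι → ι → R) : ι → ι → R := fun a b => D b a

/-- The mapping cone of a matrix `P` from `D` to `E`. -/
def cone {κ : Type} (D : ι → ι → R) (E : κ → κ → R) (P : ι → κ → R) : (ι ⊕ κ) → (ι ⊕ κ) → R
  | .inl a, .inl b => - D a b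
  | .inl a, .inr b => P a b
  | .inr _, .inl _ => 0
  | .inr a, .inr b => E a b

/-- The index set of a mapping cone. -/
def coneSet {κ : Type} [DecidableEq κ] (A : Finset ι) (B : Finset κ) : Finset (ι ⊕ κ) :=
  A.disjSum B

end Cub
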