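import Pool.Agent.H33.CB.CxD

/-!
# Annulus and flat rectangle: definitions, and the module AnnSurf (about 250 lines)

`plane k` is the rectangle `{x₂ = x₃ = 0}` of `Box k`; `A` is the annulus, `F = A ∪ plane k`.
`A ∩ plane k = circle k` (cells of `A` in `Box k` are in `bd k`, and `A ∩ bd k = circle k`).
`ann_surf`: `IsSurface F B`.  Vertices `v` of `F`:
* `v ∈ A`, `v ∉ plane k`: the cells of `F` above `v` are those of `A` (a cell of `plane k` has all its faces in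
  `plane k`); same list.
* `v ∈ plane k`, `v ∉ circle k`: the cells above `v` in `F` are those of `plane k` (`v` is not in `A`):
  the list `e 0, e 1, -e 0, -e 1`.
* `v ∈ circle k`: `v ∈ A`, not in `B` (`B ⊆ bd N` is disjoint from `Box k`), the link in `A` is a path `l` whose ends are
  the two directions of `circle k` at `v`.  If exactly one of the first two coordinates of `v` is extremal
  (in `k`), say `v 0 = 2 k 0`: the ends are `e 1, -e 1`, and the new link is the cycle `l ++ [-e 0]` (up to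
  the order): the edge `v - e 0` and the squares `v - e 0 ± e 1` are in `plane k` and not in `A`.
  If both are extremal, say `v = (2 k 0, 2 k 1, 0, 0)`: the ends are `-e 0`, `-e 1`, the square
  `v - e 0 - e 1` is added, the new cyclic list is `l` itself (its length is at least `3`, since the
  square spanned by the two ends is not in `A`).
  Similarly for the other signs.
The condition `outer` at the vertices of `B` is inherited from `A` (there is no cell of `circle k` near).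
-/

namespace Cub

private theorem ann_zip (x : Cell) (l : List Cell) : ∀ (a : Cell) (p : Cell × Cell),
    p ∈ (a :: l).zip (l ++ [x]) ↔
      p ∈ (a :: l).zip l ∨ ((a :: l).getLast? = some p.1 ∧ p.2 = x) := by
  induction l with
  | nil => intro a p; simp [Prod.ext_iff, eq_comm]
  | cons b l ih =>
    intro a p
    rw [List.cons_append, List.zip_cons_cons, List.zip_cons_cons, List.mem_cons, List.mem_cons, ih,
      List.getLast?_cons_cons, or_assoc]

private theorem ann_zip2 (x : Cell) (l : List Cell) : ∀ (a : Cell),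
    (a :: (l ++ [x])).zip (l ++ [x]) = (a :: l).zip (l ++ [x]) := by
  induction l with
  | nil => intro a; simp
  | cons b l ih =>
    intro a
    rw [List.cons_append, List.zip_cons_cons, List.zip_cons_cons, ih]

private theorem ann_rot {l : List Cell} (hl : l ≠ []) (p : Cell × Cell) :
    p ∈ l.zip (l.rotate 1) ↔
      p ∈ l.zip l.tail ∨ (l.getLast? = some p.1 ∧ l.head? = some p.2) := by
  obtain ⟨a, l, rfl⟩ := List.exists_cons_of_ne_nil hl
  rw [List.rotate_cons_succ, List.rotate_zero, ann_zip]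
  simp [eq_comm]

private theorem ann_app {l : List Cell} (hl : l ≠ []) (x : Cell) (p : Cell × Cell) :
    p ∈ (l ++ [x]).zip (l ++ [x]).tail ↔
      p ∈ l.zip l.tail ∨ (l.getLast? = some p.1 ∧ p.2 = x) := by
  obtain ⟨a, l, rfl⟩ := List.exists_cons_of_ne_nil hl
  simp only [List.cons_append, List.tail_cons]
  rw [ann_zip2, ann_zip]

private theorem ann_D {A P : Finset Cell} {v a b x : Cell} {l : List Cell}
    (h : LinkPath A v l) (ha : l.head? = some a) (hb : l.getLast? = some b) (hx : x ∉ l)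
    (hxd : IsDir x) (hxa : a ≠ -x) (hxb : x ≠ -b)
    (hP : ∀ c, (c ∈ P ∧ Le v c) ↔ (c = v ∨ c = v + a ∨ c = v + b ∨ c = v + x ∨
      c = v + a + x ∨ c = v + b + x)) : LinkCycle (A ∪ P) v (l ++ [x]) := by
  obtain ⟨h1, h2, h3, h4, h5⟩ := h
  have hl : l ≠ [] := by rintro rfl; simp at h1
  have key : ∀ p : Cell × Cell, p ∈ (l ++ [x]).zip ((l ++ [x]).rotate 1) ↔
      p ∈ l.zip l.tail ∨ p = (b, x) ∨ p = (x, a) := by
    intro p
    rw [ann_rot (by simp), ann_app hl, or_assoc]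
    have e1 : (l ++ [x]).getLast? = some x := by simp
    have e2 : (l ++ [x]).head? = some a := by
      rw [List.head?_append, ha]; rfl
    rw [e1, e2, hb]
    simp [Prod.ext_iff, eq_comm]
  have ha' : a ∈ l := List.mem_of_mem_head? (by rw [ha]; rfl)
  have hb' : b ∈ l := List.mem_of_mem_getLast? (by rw [hb]; rfl)
  refine ⟨by simp; omega, ?_, ?_, ?_, ?_⟩
  · rw [List.nodup_append]
    refine ⟨h2, by simp, ?_⟩
    intro y hy z hz
    simp at hz
    rintro rfl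
    exact hx (hz ▸ hy)
  · intro d hd
    rcases List.mem_append.1 hd with hd | hd
    · exact h3 d hd
    · simp at hd; exact hd ▸ hxd
  · intro p hp
    rcases (key p).1 hp with hp | rfl | rfl
    · exact h4 p hp
    · exact hxb
    · exact hxa
  · intro c
    rw [Finset.mem_union, or_and_right, h5, hP]
    constructor
    · rintro ((h | ⟨d, hd, h⟩ | ⟨p, hp, h⟩) | h | h | h | h | h | h)
      · exact Or.inl h
      · exact Or.inr (Or.inl ⟨d, List.mem_append_left _ hd, h⟩)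
      · exact Or.inr (Or.inr ⟨p, (key p).2 (Or.inl hp), h⟩)
      · exact Or.inl h
      · exact Or.inr (Or.inl ⟨a, List.mem_append_left _ ha', h⟩)
      · exact Or.inr (Or.inl ⟨b, List.mem_append_left _ hb', h⟩)
      · exact Or.inr (Or.inl ⟨x, by simp, h⟩)
      · exact Or.inr (Or.inr ⟨(x, a), (key _).2 (Or.inr (Or.inr rfl)), by rw [h]; abel⟩)
      · exact Or.inr (Or.inr ⟨(b, x), (key _).2 (Or.inr (Or.inl rfl)), h⟩)
    · rintro (h | ⟨d, hd, h⟩ | ⟨p, hp, h⟩)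
      · exact Or.inl (Or.inl h)
      · rcases List.mem_append.1 hd with hd | hd
        · exact Or.inl (Or.inr (Or.inl ⟨d, hd, h⟩))
        · simp at hd; subst hd; simp [h]
      · rcases (key p).1 hp with hp | rfl | rfl
        · exact Or.inl (Or.inr (Or.inr ⟨p, hp, h⟩))
        · right; simp [h]
        · right
          right; right; right; right; left
          rw [h]; simp only []; abel

private theorem ann_E {A P : Finset Cell} {v a b : Cell} {l : List Cell}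
    (h : LinkPath A v l) (ha : l.head? = some a) (hb : l.getLast? = some b) (hl3 : 3 ≤ l.length)
    (hab : a ≠ -b)
    (hP : ∀ c, (c ∈ P ∧ Le v c) ↔ (c = v ∨ c = v + a ∨ c = v + b ∨ c = v + a + b)) :
    LinkCycle (A ∪ P) v l := by
  obtain ⟨h1, h2, h3, h4, h5⟩ := h
  have hl : l ≠ [] := by rintro rfl; simp at h1
  have key : ∀ p : Cell × Cell, p ∈ l.zip (l.rotate 1) ↔
      p ∈ l.zip l.tail ∨ p = (b, a) := by
    intro p
    rw [ann_rot hl, ha, hb]
    simp [Prod.ext_iff, eq_comm]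
  have ha' : a ∈ l := List.mem_of_mem_head? (by rw [ha]; rfl)
  have hb' : b ∈ l := List.mem_of_mem_getLast? (by rw [hb]; rfl)
  refine ⟨hl3, h2, h3, ?_, ?_⟩
  · intro p hp
    rcases (key p).1 hp with hp | rfl
    · exact h4 p hp
    · exact hab
  · intro c
    rw [Finset.mem_union, or_and_right, h5, hP]
    constructor
    · rintro ((h | ⟨d, hd, h⟩ | ⟨p, hp, h⟩) | h | h | h | h)
      · exact Or.inl h
      · exact Or.inr (Or.inl ⟨d, hd, h⟩)
      · exact Or.inr (Or.inr ⟨p, (key p).2 (Or.inl hp), h⟩)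
      · exact Or.inl h
      · exact Or.inr (Or.inl ⟨a, ha', h⟩)
      · exact Or.inr (Or.inl ⟨b, hb', h⟩)
      · exact Or.inr (Or.inr ⟨(b, a), (key _).2 (Or.inr rfl), by rw [h]; abel⟩)
    · rintro (h | ⟨d, hd, h⟩ | ⟨p, hp, h⟩)
      · exact Or.inl (Or.inl h)
      · exact Or.inl (Or.inr (Or.inl ⟨d, hd, h⟩))
      · rcases (key p).1 hp with hp | rfl
        · exact Or.inl (Or.inr (Or.inr ⟨p, hp, h⟩))
        · right; right; right; right
          rw [h]; simp only []; abel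

/-- The flat rectangle. -/
noncomputable def plane (k : Fin 4 → ℕ) : Finset Cell := (Box k).filter (fun c => c 2 = 0 ∧ c 3 = 0)

private theorem ann_all4 {p : Fin 4 → Prop} : (∀ i, p i) ↔ p 0 ∧ p 1 ∧ p 2 ∧ p 3 := by
  constructor
  · intro h; exact ⟨h 0, h 1, h 2, h 3⟩
  · rintro ⟨h0, h1, h2, h3⟩ i
    fin_cases i <;> assumption

private theorem ann_ex4 {p : Fin 4 → Prop} : (∃ i, p i) ↔ p 0 ∨ p 1 ∨ p 2 ∨ p 3 := by
  constructor
  · rintro ⟨i, h⟩
    fin_cases i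
    · exact Or.inl h
    · exact Or.inr (Or.inl h)
    · exact Or.inr (Or.inr (Or.inl h))
    · exact Or.inr (Or.inr (Or.inr h))
  · rintro (h | h | h | h)
    exacts [⟨0, h⟩, ⟨1, h⟩, ⟨2, h⟩, ⟨3, h⟩]

private theorem ann_ext {c d : Cell} :
    c = d ↔ c 0 = d 0 ∧ c 1 = d 1 ∧ c 2 = d 2 ∧ c 3 = d 3 := by
  rw [funext_iff, ann_all4]

private theorem ann_mem_plane {k : Fin 4 → ℕ} {c : Cell} : c ∈ plane k ↔
    (-(2 * (k 0 : ℤ)) ≤ c 0 ∧ c 0 ≤ 2 * (k 0 : ℤ)) ∧ (-(2 * (k 1 : ℤ)) ≤ c 1 ∧ c 1 ≤ 2 * (k 1 : ℤ)) ∧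
      c 2 = 0 ∧ c 3 = 0 := by
  unfold plane
  rw [Finset.mem_filter, mem_box, ann_all4]
  constructor
  · rintro ⟨⟨h0, h1, h2, h3⟩, h4, h5⟩
    exact ⟨h0, h1, h4, h5⟩
  · rintro ⟨h0, h1, h4, h5⟩
    rw [h4, h5]
    refine ⟨⟨h0, h1, by omega, by omega⟩, rfl, rfl⟩

private theorem ann_mem_circle {k : Fin 4 → ℕ} (hk : ∀ i, 0 < k i) {c : Cell} : c ∈ circle k ↔
    c ∈ plane k ∧ (c 0 = 2 * (k 0 : ℤ) ∨ c 0 = -(2 * (k 0 : ℤ)) ∨
      c 1 = 2 * (k 1 : ℤ) ∨ c 1 = -(2 * (k 1 : ℤ))) := by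
  unfold circle plane
  rw [Finset.mem_filter, Finset.mem_filter, mem_bd, ann_ex4]
  have h2 := hk 2
  have h3 := hk 3
  constructor
  · rintro ⟨⟨h, h'⟩, h4, h5⟩
    refine ⟨⟨h, h4, h5⟩, ?_⟩
    rw [h4, h5] at h'
    omega
  · rintro ⟨⟨h, h4, h5⟩, h'⟩
    refine ⟨⟨h, ?_⟩, h4, h5⟩
    omega

private theorem ann_dir {d : Cell} (h : IsDir d) (h2 : d 2 = 0) (h3 : d 3 = 0) :
    d = e 0 ∨ d = -e 0 ∨ d = e 1 ∨ d = -e 1 := by
  obtain ⟨i, h⟩ := h
  have : (Pi.single i (-1) : Cell) = -e i := by unfold e; rw [Pi.single_neg]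
  rw [this] at h
  fin_cases i
  · rcases h with h | h
    · exact Or.inl h
    · exact Or.inr (Or.inl h)
  · rcases h with h | h
    · exact Or.inr (Or.inr (Or.inl h))
    · exact Or.inr (Or.inr (Or.inr h))
  · exfalso; rcases h with h | h <;> · rw [h] at h2; simp [e] at h2
  · exfalso; rcases h with h | h <;> · rw [h] at h3; simp [e] at h3

private theorem ann_isDir (i : Fin 4) : IsDir (e i) ∧ IsDir (-e i) := by
  refine ⟨⟨i, Or.inl rfl⟩, ⟨i, Or.inr ?_⟩⟩
  unfold e; rw [Pi.single_neg]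

private theorem ann_even {v : Cell} (h : dim v = 0) : ∀ i, v i % 2 = 0 := by
  intro i
  unfold dim at h
  rw [Finset.card_eq_zero, Finset.filter_eq_empty_iff] at h
  have := h (Finset.mem_univ i)
  omega

private theorem ann_plane_cx (k : Fin 4 → ℕ) : IsComplex (plane k) := by
  intro b hb a hab
  unfold plane at hb ⊢
  rw [Finset.mem_filter] at hb ⊢
  refine ⟨isComplex_box k b hb.1 a hab, ?_, ?_⟩
  · have := hab 2
    rw [hb.2.1] at this
    omega
  · have := hab 3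
    rw [hb.2.2] at this
    omega

/-- The data of an invariant annulus. -/
structure AnnData (N k : Fin 4 → ℕ) (A B : Finset Cell) : Prop where
  kpos : ∀ i, 0 < k i ∧ k i < N i
  surf : IsSurface A (B ∪ circle k)
  conn : Connected A
  eul : euler A = 0
  symm : ∀ c ∈ A, -c ∈ A
  sub : A ⊆ Box N
  out : ∀ c ∈ A, c ∈ Box k → c ∈ bd k
  bdy : A ∩ bd N = B
  inr : A ∩ bd k = circle k
  bne : B.Nonempty

private theorem ann_le_dir {v d : Cell} (hv : ∀ i, v i % 2 = 0) (hd : IsDir d) : Le v (v + d) := by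
  intro i
  have hvi := hv i
  obtain ⟨j, h | h⟩ := hd
  · subst h
    by_cases hij : i = j
    · subst hij; right; simp; omega
    · left; simp [hij]
  · subst h
    by_cases hij : i = j
    · subst hij; right; simp; omega
    · left; simp [hij]

private theorem ann_e00 : (e 0 : Cell) 0 = 1 := rfl
private theorem ann_e01 : (e 0 : Cell) 1 = 0 := rfl
private theorem ann_e02 : (e 0 : Cell) 2 = 0 := rfl
private theorem ann_e03 : (e 0 : Cell) 3 = 0 := rfl
private theorem ann_e10 : (e 1 : Cell) 0 = 0 := rfl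
private theorem ann_e11 : (e 1 : Cell) 1 = 1 := rfl
private theorem ann_e12 : (e 1 : Cell) 2 = 0 := rfl
private theorem ann_e13 : (e 1 : Cell) 3 = 0 := rfl

private theorem ann_above {k : Fin 4 → ℕ} {v : Cell} (hv : ∀ i, v i % 2 = 0) (hp : v ∈ plane k)
    (c : Cell) : (c ∈ plane k ∧ Le v c) ↔ ((-(2 * (k 0 : ℤ)) ≤ c 0 ∧ c 0 ≤ 2 * (k 0 : ℤ)) ∧
      (-(2 * (k 1 : ℤ)) ≤ c 1 ∧ c 1 ≤ 2 * (k 1 : ℤ))) ∧
      (c 0 = v 0 ∨ c 0 = v 0 + 1 ∨ c 0 = v 0 + -1) ∧ (c 1 = v 1 ∨ c 1 = v 1 + 1 ∨ c 1 = v 1 + -1) ∧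
      c 2 = v 2 ∧ c 3 = v 3 := by
  have h0 := hv 0
  have h1 := hv 1
  have h2 := hv 2
  have h3 := hv 3
  rw [ann_mem_plane] at hp ⊢
  obtain ⟨-, -, p2, p3⟩ := hp
  unfold Le
  rw [ann_all4]
  constructor
  · rintro ⟨⟨a0, a1, a2, a3⟩, b0, b1, b2, b3⟩
    exact ⟨⟨a0, a1⟩, by omega, by omega, by omega, by omega⟩
  · rintro ⟨⟨a0, a1⟩, b0, b1, b2, b3⟩
    exact ⟨⟨a0, a1, by omega, by omega⟩, by omega, by omega, by omega, by omega⟩

private theorem ann_flat {k : Fin 4 → ℕ} {v : Cell} (hv : ∀ i, v i % 2 = 0) (hp : v ∈ plane k)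
    (hc : v ∉ circle k) (hk : ∀ i, 0 < k i) : LinkCycle (plane k) v [e 0, e 1, -e 0, -e 1] := by
  have h0 := hv 0
  have h1 := hv 1
  rw [ann_mem_circle hk] at hc
  have hc' : ¬ (v 0 = 2 * (k 0 : ℤ) ∨ v 0 = -(2 * (k 0 : ℤ)) ∨
      v 1 = 2 * (k 1 : ℤ) ∨ v 1 = -(2 * (k 1 : ℤ))) := fun h => hc ⟨hp, h⟩
  have hp' := ann_mem_plane.1 hp
  refine ⟨by simp, ?_, ?_, ?_, ?_⟩
  · simp [ann_ext, e]
  · intro d hd
    simp at hd
    rcases hd with h | h | h | h <;> subst h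
    exacts [(ann_isDir 0).1, (ann_isDir 1).1, (ann_isDir 0).2, (ann_isDir 1).2]
  · intro p hp
    simp at hp
    rcases hp with h | h | h | h <;> subst h <;> simp [ann_ext, e]
  · intro c
    have e1 : ([e 0, e 1, -e 0, -e 1] : List Cell).zip (([e 0, e 1, -e 0, -e 1] : List Cell).rotate 1) =
        [(e 0, e 1), (e 1, -e 0), (-e 0, -e 1), (-e 1, e 0)] := rfl
    rw [e1]
    simp only [List.mem_cons, List.not_mem_nil, or_false, exists_eq_or_imp, exists_eq_left]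
    rw [ann_above hv hp]
    simp only [ann_ext (c := c), Pi.add_apply, Pi.neg_apply, ann_e00, ann_e01, ann_e02, ann_e03,
      ann_e10, ann_e11, ann_e12, ann_e13, add_zero, neg_zero]
    constructor
    · rintro ⟨-, a | a | a, b | b | b, c2, c3⟩ <;> rw [a, b, c2, c3] <;> simp
    · rintro (h | (h | h | h | h) | h | h | h | h) <;> obtain ⟨a, b, c2, c3⟩ := h <;>
        rw [a, b, c2, c3] <;>
        refine ⟨⟨⟨by omega, by omega⟩, ⟨by omega, by omega⟩⟩, by omega, by omega, rfl, rfl⟩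

private theorem ann_side {k : Fin 4 → ℕ} {v : Cell} (hv : ∀ i, v i % 2 = 0) (hk : ∀ i, 0 < k i)
    (hc : v ∈ circle k)
    (hn : ((v 0 = 2 * (k 0 : ℤ) ∨ v 0 = -(2 * (k 0 : ℤ))) ∧ v 1 ≠ 2 * (k 1 : ℤ) ∧
      v 1 ≠ -(2 * (k 1 : ℤ))) ∨ ((v 1 = 2 * (k 1 : ℤ) ∨ v 1 = -(2 * (k 1 : ℤ))) ∧
      v 0 ≠ 2 * (k 0 : ℤ) ∧ v 0 ≠ -(2 * (k 0 : ℤ)))) :
    ∃ x y : Cell, IsDir x ∧ y ≠ -x ∧ x ≠ y ∧
      (∀ c, (c ∈ plane k ∧ Le v c) ↔ (c = v ∨ c = v + y ∨ c = v + -y ∨ c = v + x ∨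
        c = v + y + x ∨ c = v + -y + x)) ∧ v + x ∈ plane k ∧ v + x ∉ circle k ∧
      ∀ d, IsDir d → v + d ∈ circle k → d = y ∨ d = -y := by
  have h0 := hv 0
  have h1 := hv 1
  have hk0 := hk 0
  have hk1 := hk 1
  have hp := ((ann_mem_circle hk).1 hc).1
  have hp' := ann_mem_plane.1 hp
  obtain ⟨p0, p1, p2, p3⟩ := hp'
  obtain ⟨x, y, hxy⟩ : ∃ x y : Cell, (x = -e 0 ∧ y = e 1 ∧ v 0 = 2 * (k 0 : ℤ) ∧
      v 1 ≠ 2 * (k 1 : ℤ) ∧ v 1 ≠ -(2 * (k 1 : ℤ))) ∨
      (x = e 0 ∧ y = e 1 ∧ v 0 = -(2 * (k 0 : ℤ)) ∧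
      v 1 ≠ 2 * (k 1 : ℤ) ∧ v 1 ≠ -(2 * (k 1 : ℤ))) ∨
      (x = -e 1 ∧ y = e 0 ∧ v 1 = 2 * (k 1 : ℤ) ∧
      v 0 ≠ 2 * (k 0 : ℤ) ∧ v 0 ≠ -(2 * (k 0 : ℤ))) ∨
      (x = e 1 ∧ y = e 0 ∧ v 1 = -(2 * (k 1 : ℤ)) ∧
      v 0 ≠ 2 * (k 0 : ℤ) ∧ v 0 ≠ -(2 * (k 0 : ℤ))) := by
    rcases hn with ⟨h | h, a, b⟩ | ⟨h | h, a, b⟩
    · exact ⟨-e 0, e 1, Or.inl ⟨rfl, rfl, h, a, b⟩⟩
    · exact ⟨e 0, e 1, Or.inr (Or.inl ⟨rfl, rfl, h, a, b⟩)⟩
    · exact ⟨-e 1, e 0, Or.inr (Or.inr (Or.inl ⟨rfl, rfl, h, a, b⟩))⟩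
    · exact ⟨e 1, e 0, Or.inr (Or.inr (Or.inr ⟨rfl, rfl, h, a, b⟩))⟩
  refine ⟨x, y, ?_, ?_, ?_, ?_, ?_, ?_, ?_⟩
  · rcases hxy with ⟨rfl, rfl, h⟩ | ⟨rfl, rfl, h⟩ | ⟨rfl, rfl, h⟩ | ⟨rfl, rfl, h⟩
    exacts [(ann_isDir 0).2, (ann_isDir 0).1, (ann_isDir 1).2, (ann_isDir 1).1]
  · rcases hxy with ⟨rfl, rfl, h⟩ | ⟨rfl, rfl, h⟩ | ⟨rfl, rfl, h⟩ | ⟨rfl, rfl, h⟩ <;>
      simp [ann_ext, e]
  · rcases hxy with ⟨rfl, rfl, h⟩ | ⟨rfl, rfl, h⟩ | ⟨rfl, rfl, h⟩ | ⟨rfl, rfl, h⟩ <;>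
      simp [ann_ext, e]
  · intro c
    rw [ann_above hv hp]
    rcases hxy with ⟨rfl, rfl, h⟩ | ⟨rfl, rfl, h⟩ | ⟨rfl, rfl, h⟩ | ⟨rfl, rfl, h⟩
    all_goals
      obtain ⟨q1, q2, q3⟩ := h
      simp only [ann_ext (c := c), Pi.add_apply, Pi.neg_apply, ann_e00, ann_e01, ann_e02, ann_e03,
        ann_e10, ann_e11, ann_e12, ann_e13, add_zero, neg_zero]
      constructor
      · rintro ⟨⟨r0, r1⟩, a | a | a, b | b | b, c2, c3⟩ <;>
          first
          | (exfalso; omega)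
          | (rw [a, b, c2, c3]; simp)
      · rintro (h | h | h | h | h | h) <;> obtain ⟨a, b, c2, c3⟩ := h <;>
        rw [a, b, c2, c3] <;>
        refine ⟨⟨⟨by omega, by omega⟩, ⟨by omega, by omega⟩⟩, by omega, by omega, rfl, rfl⟩
  · rw [ann_mem_plane]
    rcases hxy with ⟨rfl, rfl, h⟩ | ⟨rfl, rfl, h⟩ | ⟨rfl, rfl, h⟩ | ⟨rfl, rfl, h⟩
    all_goals
      obtain ⟨q1, q2, q3⟩ := h
      simp only [Pi.add_apply, Pi.neg_apply, ann_e00, ann_e01, ann_e02, ann_e03,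
        ann_e10, ann_e11, ann_e12, ann_e13, add_zero, neg_zero]
      refine ⟨⟨by omega, by omega⟩, ⟨by omega, by omega⟩, p2, p3⟩
  · rw [ann_mem_circle hk]
    rintro ⟨-, r⟩
    rcases hxy with ⟨rfl, rfl, h⟩ | ⟨rfl, rfl, h⟩ | ⟨rfl, rfl, h⟩ | ⟨rfl, rfl, h⟩
    all_goals
      obtain ⟨q1, q2, q3⟩ := h
      simp only [Pi.add_apply, Pi.neg_apply, ann_e00, ann_e01,
        ann_e10, ann_e11, add_zero, neg_zero] at r
      omega
  · intro d hd hvd
    rw [ann_mem_circle hk, ann_mem_plane] at hvd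
    obtain ⟨⟨r0, r1, r2, r3⟩, r⟩ := hvd
    have d2 : d 2 = 0 := by rw [Pi.add_apply, p2] at r2; omega
    have d3 : d 3 = 0 := by rw [Pi.add_apply, p3] at r3; omega
    rcases ann_dir hd d2 d3 with rfl | rfl | rfl | rfl <;>
    rcases hxy with ⟨rfl, rfl, h⟩ | ⟨rfl, rfl, h⟩ | ⟨rfl, rfl, h⟩ | ⟨rfl, rfl, h⟩ <;>
    first
    | exact Or.inl rfl
    | exact Or.inr rfl
    | (exfalso
       obtain ⟨q1, q2, q3⟩ := h
       simp only [Pi.add_apply, Pi.neg_apply, ann_e00, ann_e01,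
         ann_e10, ann_e11, add_zero, neg_zero] at r r0 r1
       omega)

private theorem ann_corner {k : Fin 4 → ℕ} {v : Cell} (hv : ∀ i, v i % 2 = 0) (hk : ∀ i, 0 < k i)
    (hc : v ∈ circle k)
    (hn : (v 0 = 2 * (k 0 : ℤ) ∨ v 0 = -(2 * (k 0 : ℤ))) ∧
      (v 1 = 2 * (k 1 : ℤ) ∨ v 1 = -(2 * (k 1 : ℤ)))) :
    ∃ x y : Cell, y ≠ -x ∧ 
      (∀ c, (c ∈ plane k ∧ Le v c) ↔ (c = v ∨ c = v + x ∨ c = v + y ∨ c = v + x + y)) ∧
      v + x + y ∈ plane k ∧ v + x + y ∉ circle k ∧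
      ∀ d, IsDir d → v + d ∈ circle k → d = x ∨ d = y := by
  have h0 := hv 0
  have h1 := hv 1
  have hk0 := hk 0
  have hk1 := hk 1
  have hp := ((ann_mem_circle hk).1 hc).1
  have hp' := ann_mem_plane.1 hp
  obtain ⟨p0, p1, p2, p3⟩ := hp'
  obtain ⟨x, y, hxy⟩ : ∃ x y : Cell,
      (x = -e 0 ∧ y = -e 1 ∧ v 0 = 2 * (k 0 : ℤ) ∧ v 1 = 2 * (k 1 : ℤ)) ∨
      (x = -e 0 ∧ y = e 1 ∧ v 0 = 2 * (k 0 : ℤ) ∧ v 1 = -(2 * (k 1 : ℤ))) ∨
      (x = e 0 ∧ y = -e 1 ∧ v 0 = -(2 * (k 0 : ℤ)) ∧ v 1 = 2 * (k 1 : ℤ)) ∨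
      (x = e 0 ∧ y = e 1 ∧ v 0 = -(2 * (k 0 : ℤ)) ∧ v 1 = -(2 * (k 1 : ℤ))) := by
    obtain ⟨h | h, a | a⟩ := hn
    · exact ⟨-e 0, -e 1, Or.inl ⟨rfl, rfl, h, a⟩⟩
    · exact ⟨-e 0, e 1, Or.inr (Or.inl ⟨rfl, rfl, h, a⟩)⟩
    · exact ⟨e 0, -e 1, Or.inr (Or.inr (Or.inl ⟨rfl, rfl, h, a⟩))⟩
    · exact ⟨e 0, e 1, Or.inr (Or.inr (Or.inr ⟨rfl, rfl, h, a⟩))⟩
  refine ⟨x, y, ?_, ?_, ?_, ?_, ?_⟩
  · rcases hxy with ⟨rfl, rfl, h⟩ | ⟨rfl, rfl, h⟩ | ⟨rfl, rfl, h⟩ | ⟨rfl, rfl, h⟩ <;>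
      simp [ann_ext, e]
  · intro c
    rw [ann_above hv hp]
    rcases hxy with ⟨rfl, rfl, h⟩ | ⟨rfl, rfl, h⟩ | ⟨rfl, rfl, h⟩ | ⟨rfl, rfl, h⟩
    all_goals
      obtain ⟨q1, q2⟩ := h
      simp only [ann_ext (c := c), Pi.add_apply, Pi.neg_apply, ann_e00, ann_e01, ann_e02, ann_e03,
        ann_e10, ann_e11, ann_e12, ann_e13, add_zero, neg_zero]
      constructor
      · rintro ⟨⟨r0, r1⟩, a | a | a, b | b | b, c2, c3⟩ <;>
          first
          | (exfalso; omega)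
          | (rw [a, b, c2, c3]; simp)
      · rintro (h | h | h | h) <;> obtain ⟨a, b, c2, c3⟩ := h <;>
        rw [a, b, c2, c3] <;>
        refine ⟨⟨⟨by omega, by omega⟩, ⟨by omega, by omega⟩⟩, by omega, by omega, rfl, rfl⟩
  · rw [ann_mem_plane]
    rcases hxy with ⟨rfl, rfl, h⟩ | ⟨rfl, rfl, h⟩ | ⟨rfl, rfl, h⟩ | ⟨rfl, rfl, h⟩
    all_goals
      obtain ⟨q1, q2⟩ := h
      simp only [Pi.add_apply, Pi.neg_apply, ann_e00, ann_e01, ann_e02, ann_e03,
        ann_e10, ann_e11, ann_e12, ann_e13, add_zero, neg_zero]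
      refine ⟨⟨by omega, by omega⟩, ⟨by omega, by omega⟩, p2, p3⟩
  · rw [ann_mem_circle hk]
    rintro ⟨-, r⟩
    rcases hxy with ⟨rfl, rfl, h⟩ | ⟨rfl, rfl, h⟩ | ⟨rfl, rfl, h⟩ | ⟨rfl, rfl, h⟩
    all_goals
      obtain ⟨q1, q2⟩ := h
      simp only [Pi.add_apply, Pi.neg_apply, ann_e00, ann_e01,
        ann_e10, ann_e11, add_zero, neg_zero] at r
      omega
  · intro d hd hvd
    rw [ann_mem_circle hk, ann_mem_plane] at hvd
    obtain ⟨⟨r0, r1, r2, r3⟩, r⟩ := hvd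
    have d2 : d 2 = 0 := by rw [Pi.add_apply, p2] at r2; omega
    have d3 : d 3 = 0 := by rw [Pi.add_apply, p3] at r3; omega
    rcases ann_dir hd d2 d3 with rfl | rfl | rfl | rfl <;>
    rcases hxy with ⟨rfl, rfl, h⟩ | ⟨rfl, rfl, h⟩ | ⟨rfl, rfl, h⟩ | ⟨rfl, rfl, h⟩ <;>
    first
    | exact Or.inl rfl
    | exact Or.inr rfl
    | (exfalso
       obtain ⟨q1, q2⟩ := h
       simp only [Pi.add_apply, Pi.neg_apply, ann_e00, ann_e01,
         ann_e10, ann_e11, add_zero, neg_zero] at r r0 r1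
       omega)

private theorem ann_p1 (p q r s : Prop) : (p ∨ q ∨ r ∨ s) ↔ (p ∨ r ∨ q ∨ s) := by
  rw [or_left_comm (a := q)]

private theorem ann_p2 (p q r s t u : Prop) :
    (p ∨ q ∨ r ∨ s ∨ t ∨ u) ↔ (p ∨ r ∨ q ∨ s ∨ u ∨ t) := by
  rw [or_left_comm (a := q), or_comm (a := t)]

theorem ann_surf {N k : Fin 4 → ℕ} {A B : Finset Cell} (h : AnnData N k A B) :
    IsSurface (A ∪ plane k) B := by
  have hk : ∀ i, 0 < k i := fun i => (h.kpos i).1
  have hA := h.surf.cx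
  have hBA : B ⊆ A := by rw [← h.bdy]; exact Finset.inter_subset_left
  have hBN : B ⊆ bd N := by rw [← h.bdy]; exact Finset.inter_subset_right
  have hBcx : IsComplex B := by
    intro b hb a hab
    rw [← h.bdy] at hb ⊢
    rw [Finset.mem_inter] at hb ⊢
    exact ⟨hA b hb.1 a hab, isComplex_bd N b hb.2 a hab⟩
  have hPB : plane k ⊆ Box k := Finset.filter_subset _ _
  have hCP : circle k ⊆ plane k := fun c hc => ((ann_mem_circle hk).1 hc).1
  have hCbd : circle k ⊆ bd k := Finset.filter_subset _ _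
  have hBk : ∀ v ∈ B, v ∉ Box k := by
    intro v hv hvk
    have h1 := (mem_bd.1 (hBN hv)).2
    obtain ⟨i, hi⟩ := h1
    have h2 := mem_box.1 hvk i
    have h3 := h.kpos i
    omega
  have hAP : ∀ c ∈ A, c ∈ plane k → c ∈ circle k := by
    intro c hc hcp
    have h1 := h.out c hc (hPB hcp)
    unfold plane at hcp
    unfold circle
    rw [Finset.mem_filter] at hcp ⊢
    exact ⟨h1, hcp.2⟩
  refine ⟨?_, hBcx, fun b hb => Finset.mem_union_left _ (hBA hb), ?_, ?_, ?_⟩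
  · intro b hb a hab
    rcases Finset.mem_union.1 hb with hb | hb
    · exact Finset.mem_union_left _ (hA b hb a hab)
    · exact Finset.mem_union_right _ (ann_plane_cx k b hb a hab)
  · intro c hc
    exact h.surf.bdim c (Finset.mem_union_left _ hc)
  · intro v hv hv0 hvB
    have hev := ann_even hv0
    by_cases hvp : v ∈ plane k
    · by_cases hvc : v ∈ circle k
      · have hvBC : v ∈ B ∪ circle k := Finset.mem_union_right _ hvc
        obtain ⟨l, hl, hends⟩ := h.surf.outer v hvBC hv0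
        have hvA : v ∈ A := h.surf.sub hvBC
        have hends' : ∀ d, (l.head? = some d ∨ l.getLast? = some d) →
            IsDir d ∧ v + d ∈ circle k := by
          intro d hd
          obtain ⟨h1, h2⟩ := (hends d).2 hd
          refine ⟨h1, ?_⟩
          rcases Finset.mem_union.1 h2 with h2 | h2
          · exact absurd (hBcx _ h2 v (ann_le_dir hev h1)) hvB
          · exact h2
        have hlen := hl.1
        have hnd := hl.2.1
        obtain ⟨a, b, m, rfl⟩ : ∃ a b : Cell, ∃ m : List Cell, l = a :: (m ++ [b]) := by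
          cases l with
          | nil => simp at hlen
          | cons a l =>
            rcases List.eq_nil_or_concat l with rfl | ⟨m, b, rfl⟩
            · simp at hlen
            · exact ⟨a, b, m, by simp⟩
        have ha : (a :: (m ++ [b])).head? = some a := rfl
        have hb : (a :: (m ++ [b])).getLast? = some b := by
          rw [← List.cons_append, List.getLast?_append]; rfl
        have hab : a ≠ b := by
          rintro rfl
          simp at hnd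
        have ha1 := hends' a (Or.inl ha)
        have hb1 := hends' b (Or.inr hb)
        by_cases hcor : (v 0 = 2 * (k 0 : ℤ) ∨ v 0 = -(2 * (k 0 : ℤ))) ∧
            (v 1 = 2 * (k 1 : ℤ) ∨ v 1 = -(2 * (k 1 : ℤ)))
        · obtain ⟨x, y, hyx, hP, hxy, hxy', hd⟩ := ann_corner hev hk hvc hcor
          have hab' : (a = x ∧ b = y) ∨ (a = y ∧ b = x) := by
            rcases hd a ha1.1 ha1.2 with h1 | h1 <;> rcases hd b hb1.1 hb1.2 with h2 | h2
            · exact absurd (h1.trans h2.symm) hab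
            · exact Or.inl ⟨h1, h2⟩
            · exact Or.inr ⟨h1, h2⟩
            · exact absurd (h1.trans h2.symm) hab
          have hsum : v + a + b = v + x + y := by
            rcases hab' with ⟨h1, h2⟩ | ⟨h1, h2⟩ <;> rw [h1, h2]
            abel
          refine ⟨_, ann_E hl ha hb ?_ ?_ ?_⟩
          · by_contra hlt
            have hm : m = [] := by
              simp only [List.length_cons, List.length_append, List.length_nil] at hlt
              exact List.length_eq_zero_iff.1 (by omega)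
            subst hm
            have h1 : v + a + b ∈ A := by
              refine ((hl.2.2.2.2 (v + a + b)).2 ?_).1
              exact Or.inr (Or.inr ⟨(a, b), by simp, rfl⟩)
            rw [hsum] at h1
            exact hxy' (hAP _ h1 hxy)
          · rcases hab' with ⟨h1, h2⟩ | ⟨h1, h2⟩ <;> rw [h1, h2]
            · intro h3; apply hyx; rw [h3, neg_neg]
            · exact hyx
          · intro c
            rw [hP, hsum]
            rcases hab' with ⟨h1, h2⟩ | ⟨h1, h2⟩ <;> rw [h1, h2]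
            exact ann_p1 _ _ _ _
        · have hn : ((v 0 = 2 * (k 0 : ℤ) ∨ v 0 = -(2 * (k 0 : ℤ))) ∧ v 1 ≠ 2 * (k 1 : ℤ) ∧
              v 1 ≠ -(2 * (k 1 : ℤ))) ∨ ((v 1 = 2 * (k 1 : ℤ) ∨ v 1 = -(2 * (k 1 : ℤ))) ∧
              v 0 ≠ 2 * (k 0 : ℤ) ∧ v 0 ≠ -(2 * (k 0 : ℤ))) := by
            have h1 := ((ann_mem_circle hk).1 hvc).2
            by_cases h2 : v 0 = 2 * (k 0 : ℤ) ∨ v 0 = -(2 * (k 0 : ℤ))
            · exact Or.inl ⟨h2, fun h => hcor ⟨h2, Or.inl h⟩, fun h => hcor ⟨h2, Or.inr h⟩⟩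
            · refine Or.inr ⟨?_, fun h => h2 (Or.inl h), fun h => h2 (Or.inr h)⟩
              rcases h1 with h1 | h1 | h1
              · exact absurd (Or.inl h1) h2
              · exact absurd (Or.inr h1) h2
              · exact h1
          obtain ⟨x, y, hxd, hyx, hxy, hP, hx1, hx2, hd⟩ := ann_side hev hk hvc hn
          have hab' : (a = y ∧ b = -y) ∨ (a = -y ∧ b = y) := by
            rcases hd a ha1.1 ha1.2 with h1 | h1 <;> rcases hd b hb1.1 hb1.2 with h2 | h2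
            · exact absurd (h1.trans h2.symm) hab
            · exact Or.inl ⟨h1, h2⟩
            · exact Or.inr ⟨h1, h2⟩
            · exact absurd (h1.trans h2.symm) hab
          refine ⟨_, ann_D (P := plane k) (x := x) hl ha hb ?_ hxd ?_ ?_ ?_⟩
          · intro hxl
            have h1 : v + x ∈ A := ((hl.2.2.2.2 (v + x)).2 (Or.inr (Or.inl ⟨x, hxl, rfl⟩))).1
            exact hx2 (hAP _ h1 hx1)
          · rcases hab' with ⟨h1, h2⟩ | ⟨h1, h2⟩ <;> rw [h1]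
            · exact hyx
            · intro h3; exact hxy (neg_injective h3).symm
          · rcases hab' with ⟨h1, h2⟩ | ⟨h1, h2⟩ <;> rw [h2]
            · rw [neg_neg]; exact hxy
            · intro h3; apply hyx; rw [h3, neg_neg]
          · intro c
            rw [hP]
            rcases hab' with ⟨h1, h2⟩ | ⟨h1, h2⟩ <;> rw [h1, h2]
            exact ann_p2 _ _ _ _ _ _
      · have hvA : v ∉ A := fun h1 => hvc (hAP v h1 hvp)
        obtain ⟨l1, l2, l3, l4, l5⟩ := ann_flat hev hvp hvc hk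
        refine ⟨_, l1, l2, l3, l4, ?_⟩
        intro c
        rw [← l5 c, Finset.mem_union]
        constructor
        · rintro ⟨h1 | h1, h2⟩
          · exact absurd (hA c h1 v h2) hvA
          · exact ⟨h1, h2⟩
        · rintro ⟨h1, h2⟩
          exact ⟨Or.inr h1, h2⟩
    · have hvA : v ∈ A := (Finset.mem_union.1 hv).resolve_right hvp
      have hvBC : v ∉ B ∪ circle k := by
        intro h1
        rcases Finset.mem_union.1 h1 with h1 | h1
        · exact hvB h1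
        · exact hvp (hCP h1)
      obtain ⟨l, l1, l2, l3, l4, l5⟩ := h.surf.inner v hvA hv0 hvBC
      refine ⟨l, l1, l2, l3, l4, ?_⟩
      intro c
      rw [← l5 c, Finset.mem_union]
      constructor
      · rintro ⟨h1 | h1, h2⟩
        · exact ⟨h1, h2⟩
        · exact absurd (ann_plane_cx k c h1 v h2) hvp
      · rintro ⟨h1, h2⟩
        exact ⟨Or.inl h1, h2⟩
  · intro v hv hv0
    have hev := ann_even hv0
    have hvp : v ∉ plane k := fun h1 => hBk v hv (hPB h1)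
    obtain ⟨l, ⟨l1, l2, l3, l4, l5⟩, hends⟩ := h.surf.outer v (Finset.mem_union_left _ hv) hv0
    refine ⟨l, ⟨l1, l2, l3, l4, ?_⟩, ?_⟩
    · intro c
      rw [← l5 c, Finset.mem_union]
      constructor
      · rintro ⟨h1 | h1, h2⟩
        · exact ⟨h1, h2⟩
        · exact absurd (ann_plane_cx k c h1 v h2) hvp
      · rintro ⟨h1, h2⟩
        exact ⟨Or.inl h1, h2⟩
    · intro d
      rw [← hends d]
      constructor
      · rintro ⟨h1, h2⟩
        exact ⟨h1, Finset.mem_union_left _ h2⟩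
      · rintro ⟨h1, h2⟩
        refine ⟨h1, ?_⟩
        rcases Finset.mem_union.1 h2 with h2 | h2
        · exact h2
        · exact absurd (ann_plane_cx k _ (hCP h2) v (ann_le_dir hev h1)) hvp

end Cub
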