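import Pool.Agent.H33.CB.AnnTop

/-!
# Module AnnDisc (about 120 lines): annulus ∪ rectangle is a good disc

The remaining conditions: `2 ≤ N i` (from `0 < k i < N i`), symmetric, contained in `Box N`, its
intersection with `bd N` is `B` (`Box k` is disjoint from `bd N`), flat near the origin (the cells
`c` with `Le 0 c` have `|c i| ≤ 1 < 2 k i`, so they are in `Box k` and not in `bd k`, so not in `A`).
`ann_of_std`: from `StdSlice n K` with `N = m * n`.
-/

namespace Cub

private theorem anndisc_mem_plane {k : Fin 4 → ℕ} {c : Cell} :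
    c ∈ plane k ↔ c ∈ Box k ∧ c 2 = 0 ∧ c 3 = 0 := by
  simp [plane, Finset.mem_filter]

theorem ann_disc {N k : Fin 4 → ℕ} {A B : Finset Cell} (h : AnnData N k A B) :
    GoodDisc N (A ∪ plane k) B where
  big i := by have := h.kpos i; omega
  bne := h.bne
  surf := ann_surf h
  conn := ann_conn h
  eul := ann_euler h
  symm c hc := by
    rw [Finset.mem_union] at hc ⊢
    rcases hc with hc | hc
    · exact Or.inl (h.symm c hc)
    · right
      rw [anndisc_mem_plane, mem_box] at hc ⊢
      obtain ⟨h1, h2, h3⟩ := hc
      refine ⟨fun i => ?_, by simp [h2], by simp [h3]⟩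
      have := h1 i
      simp only [Pi.neg_apply]
      omega
  sub c hc := by
    rw [Finset.mem_union] at hc
    rcases hc with hc | hc
    · exact h.sub hc
    · rw [anndisc_mem_plane, mem_box] at hc
      rw [mem_box]
      intro i
      have h1 := hc.1 i
      have h2 := h.kpos i
      omega
  bdy := by
    rw [Finset.union_inter_distrib_right, h.bdy]
    have : plane k ∩ bd N = ∅ := by
      rw [Finset.eq_empty_iff_forall_notMem]
      intro c hc
      rw [Finset.mem_inter, anndisc_mem_plane, mem_box, mem_bd] at hc
      obtain ⟨⟨h1, -⟩, -, i, hi⟩ := hc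
      have h3 := h1 i
      have h4 := h.kpos i
      omega
    rw [this, Finset.union_empty]
  flat c hc := by
    have h1 : ∀ i, -1 ≤ c i ∧ c i ≤ 1 := by
      intro i
      have := hc i
      simp only [Pi.zero_apply] at this
      omega
    have h2 : c ∈ Box k := by
      rw [mem_box]
      intro i
      have h3 := h1 i
      have h4 := h.kpos i
      omega
    have h3 : c ∉ A := by
      intro hA
      have h4 := h.out c hA h2
      rw [mem_bd] at h4
      obtain ⟨-, i, hi⟩ := h4
      have h5 := h1 i
      have h6 := h.kpos i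
      omega
    rw [Finset.mem_union, anndisc_mem_plane]
    constructor
    · rintro (h4 | h4)
      · exact absurd h4 h3
      · exact h4.2
    · intro h4
      exact Or.inr ⟨h2, h4⟩

theorem disc_of_std {n : Fin 4 → ℕ} {K : Finset Cell} (hK : K.Nonempty) (h : StdSlice n K) :
    ∃ m : ℕ, 1 ≤ m ∧ ∃ F B : Finset Cell, (B : Set Cell) = scale m K ∧
      GoodDisc (fun i => m * n i) F B := by
  obtain ⟨m, hm, k, hk, A, B, hB, surf, conn, eul, symm, sub, out, bdy, inr⟩ := h
  refine ⟨m, hm, A ∪ plane k, B, hB, ann_disc
    { kpos := hk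
      surf := surf
      conn := conn
      eul := eul
      symm := symm
      sub := sub
      out := out
      bdy := bdy
      inr := inr
      bne := ?_ }⟩
  obtain ⟨t, ht⟩ := hK
  have h1 : (fun i => (m : ℤ) * t i) ∈ (B : Set Cell) := by
    rw [hB]
    refine ⟨t, ht, fun i => ⟨fun _ => rfl, fun _ => ?_⟩⟩
    have hm' : (1 : ℤ) ≤ m := by exact_mod_cast hm
    constructor
    · nlinarith
    · nlinarith
  exact ⟨_, Finset.mem_coe.1 h1⟩

end Cub
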