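import Pool.Agent.H33.CB.Ann

/-!
# Module AnnTop (about 250 lines): Euler characteristic and connectedness of annulus ∪ rectangle

`A ∩ plane k = circle k`.  `euler (A ∪ plane) = euler A + euler plane - euler circle = 0 + 1 - 0`.
`euler (plane k)`: the sum of `(-1)^dim` over the product of two intervals of cells `[-2k, 2k]`, each
with alternating sum `1`.  `euler (circle k) = euler (plane k) - euler (open rectangle) = 1 - (-1)(-1) = 0`.
`Connected`: `A` is connected, `plane k` is connected (every cell is joined to `0`: decrease `|c 0|`, then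
`|c 1|`, one step at a time), and `circle k` is not empty and in both.
-/

namespace Cub

private def sg (x : ℤ) : ℤ := if x % 2 = 1 then -1 else 1

private theorem pow_dim (c : Cell) : (-1 : ℤ) ^ dim c = ∏ i, sg (c i) := by
  unfold dim sg
  rw [Finset.prod_ite, Finset.prod_const, Finset.prod_const, one_pow, mul_one]

private theorem euler_pi (t : Fin 4 → Finset ℤ) :
    euler (Fintype.piFinset t) = ∏ i, ∑ x ∈ t i, sg x := by
  unfold euler
  rw [Finset.prod_univ_sum]
  exact Finset.sum_congr rfl (fun c _ => pow_dim c)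

private theorem sum_even (a : ℤ) (ha : a % 2 = 0) (m : ℕ) :
    ∑ x ∈ Finset.Icc a (a + 2 * (m : ℤ)), sg x = 1 := by
  induction m with
  | zero =>
    simp only [Nat.cast_zero, mul_zero, add_zero, Finset.Icc_self, Finset.sum_singleton]
    unfold sg
    rw [if_neg (by omega)]
  | succ m ih =>
    have h1 : Finset.Icc a (a + 2 * ((m + 1 : ℕ) : ℤ))
        = insert (a + 2 * (m : ℤ) + 1) (insert (a + 2 * (m : ℤ) + 2)
          (Finset.Icc a (a + 2 * (m : ℤ)))) := by
      ext x
      simp only [Finset.mem_Icc, Finset.mem_insert]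
      push_cast
      constructor
      · intro h
        omega
      · intro h
        omega
    rw [h1, Finset.sum_insert, Finset.sum_insert, ih]
    · unfold sg
      rw [if_pos (by omega), if_neg (by omega)]
      norm_num
    · simp only [Finset.mem_Icc]
      omega
    · simp only [Finset.mem_Icc, Finset.mem_insert]
      omega

private theorem sum_closed (k : ℕ) :
    ∑ x ∈ Finset.Icc (-(2 * (k : ℤ))) (2 * (k : ℤ)), sg x = 1 := by
  have h := sum_even (-(2 * (k : ℤ))) (by omega) (2 * k)
  have e1 : -(2 * (k : ℤ)) + 2 * ((2 * k : ℕ) : ℤ) = 2 * (k : ℤ) := by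
    push_cast
    ring
  rw [e1] at h
  exact h

private theorem sum_open (k : ℕ) (hk : 0 < k) :
    ∑ x ∈ Finset.Icc (-(2 * (k : ℤ)) + 1) (2 * (k : ℤ) - 1), sg x = -1 := by
  have h := sum_closed k
  have h1 : Finset.Icc (-(2 * (k : ℤ))) (2 * (k : ℤ))
      = insert (-(2 * (k : ℤ))) (insert (2 * (k : ℤ))
        (Finset.Icc (-(2 * (k : ℤ)) + 1) (2 * (k : ℤ) - 1))) := by
    ext x
    simp only [Finset.mem_Icc, Finset.mem_insert]
    omega
  rw [h1, Finset.sum_insert, Finset.sum_insert] at h
  · have e1 : sg (-(2 * (k : ℤ))) = 1 := by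
      unfold sg
      rw [if_neg (by omega)]
    have e2 : sg (2 * (k : ℤ)) = 1 := by
      unfold sg
      rw [if_neg (by omega)]
    rw [e1, e2] at h
    omega
  · simp only [Finset.mem_Icc]
    omega
  · simp only [Finset.mem_Icc, Finset.mem_insert]
    omega

private theorem plane_eq (k : Fin 4 → ℕ) :
    plane k = Fintype.piFinset (fun i => if i = 0 ∨ i = 1 then
      Finset.Icc (-(2 * (k i : ℤ))) (2 * (k i : ℤ)) else {0}) := by
  ext c
  unfold plane
  rw [Finset.mem_filter, mem_box, Fintype.mem_piFinset]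
  constructor
  · rintro ⟨h1, h2, h3⟩ i
    fin_cases i
    · simpa using h1 0
    · simpa using h1 1
    · simpa using h2
    · simpa using h3
  · intro h
    have h0 := h 0
    have h1 := h 1
    have h2 := h 2
    have h3 := h 3
    simp only [Fin.isValue, true_or, or_true, if_true, Finset.mem_Icc] at h0 h1
    have h2' : c 2 = 0 := by simpa using h2
    have h3' : c 3 = 0 := by simpa using h3
    refine ⟨fun i => ?_, h2', h3'⟩
    fin_cases i
    · exact h0
    · exact h1
    · change -(2 * (k 2 : ℤ)) ≤ c 2 ∧ c 2 ≤ 2 * (k 2 : ℤ)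
      rw [h2']
      omega
    · change -(2 * (k 3 : ℤ)) ≤ c 3 ∧ c 3 ≤ 2 * (k 3 : ℤ)
      rw [h3']
      omega

private theorem euler_plane (k : Fin 4 → ℕ) : euler (plane k) = 1 := by
  rw [plane_eq, euler_pi, Fin.prod_univ_four]
  simp only [Fin.isValue, true_or, or_true, if_true]
  rw [sum_closed, sum_closed]
  have e2 : ¬ ((2 : Fin 4) = 0 ∨ (2 : Fin 4) = 1) := by decide
  have e3 : ¬ ((3 : Fin 4) = 0 ∨ (3 : Fin 4) = 1) := by decide
  rw [if_neg e2, if_neg e3]
  simp [sg]

private theorem circle_sub_plane (k : Fin 4 → ℕ) : circle k ⊆ plane k := by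
  intro c hc
  unfold circle at hc
  rw [Finset.mem_filter, mem_bd] at hc
  unfold plane
  exact Finset.mem_filter.2 ⟨hc.1.1, hc.2⟩

private theorem plane_sdiff (k : Fin 4 → ℕ) (hk : ∀ i, 0 < k i) :
    plane k \ circle k = Fintype.piFinset (fun i => if i = 0 ∨ i = 1 then
      Finset.Icc (-(2 * (k i : ℤ)) + 1) (2 * (k i : ℤ) - 1) else {0}) := by
  ext c
  unfold plane circle
  simp only [Finset.mem_sdiff, Finset.mem_filter, mem_bd, Fintype.mem_piFinset]
  constructor
  · rintro ⟨⟨h1, h2, h3⟩, h4⟩ i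
    have h5 : ∀ i, ¬ (c i = 2 * (k i : ℤ) ∨ c i = -(2 * (k i : ℤ))) := by
      intro i hi
      exact h4 ⟨⟨h1, i, hi⟩, h2, h3⟩
    rw [mem_box] at h1
    fin_cases i
    · have e1 := h1 0
      have e2 := h5 0
      change c 0 ∈ if (0 : Fin 4) = 0 ∨ (0 : Fin 4) = 1 then
        Finset.Icc (-(2 * (k 0 : ℤ)) + 1) (2 * (k 0 : ℤ) - 1) else {0}
      rw [if_pos (by decide), Finset.mem_Icc]
      omega
    · have e1 := h1 1
      have e2 := h5 1
      change c 1 ∈ if (1 : Fin 4) = 0 ∨ (1 : Fin 4) = 1 then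
        Finset.Icc (-(2 * (k 1 : ℤ)) + 1) (2 * (k 1 : ℤ) - 1) else {0}
      rw [if_pos (by decide), Finset.mem_Icc]
      omega
    · simpa using h2
    · simpa using h3
  · intro h
    have h0 := h 0
    have h1 := h 1
    have h2 := h 2
    have h3 := h 3
    simp only [Fin.isValue, true_or, or_true, if_true, Finset.mem_Icc] at h0 h1
    have h2' : c 2 = 0 := by simpa using h2
    have h3' : c 3 = 0 := by simpa using h3
    refine ⟨⟨mem_box.2 fun i => ?_, h2', h3'⟩, ?_⟩
    · fin_cases i
      · change -(2 * (k 0 : ℤ)) ≤ c 0 ∧ c 0 ≤ 2 * (k 0 : ℤ)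
        omega
      · change -(2 * (k 1 : ℤ)) ≤ c 1 ∧ c 1 ≤ 2 * (k 1 : ℤ)
        omega
      · change -(2 * (k 2 : ℤ)) ≤ c 2 ∧ c 2 ≤ 2 * (k 2 : ℤ)
        rw [h2']
        omega
      · change -(2 * (k 3 : ℤ)) ≤ c 3 ∧ c 3 ≤ 2 * (k 3 : ℤ)
        rw [h3']
        omega
    · rintro ⟨⟨_, i, hi⟩, _⟩
      fin_cases i
      · change c 0 = 2 * (k 0 : ℤ) ∨ c 0 = -(2 * (k 0 : ℤ)) at hi
        omega
      · change c 1 = 2 * (k 1 : ℤ) ∨ c 1 = -(2 * (k 1 : ℤ)) at hi
        omega
      · change c 2 = 2 * (k 2 : ℤ) ∨ c 2 = -(2 * (k 2 : ℤ)) at hi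
        have := hk 2
        omega
      · change c 3 = 2 * (k 3 : ℤ) ∨ c 3 = -(2 * (k 3 : ℤ)) at hi
        have := hk 3
        omega

private theorem euler_circle (k : Fin 4 → ℕ) (hk : ∀ i, 0 < k i) : euler (circle k) = 0 := by
  have h1 : euler (plane k \ circle k) = 1 := by
    rw [plane_sdiff k hk, euler_pi, Fin.prod_univ_four]
    simp only [Fin.isValue, true_or, or_true, if_true]
    rw [sum_open _ (hk 0), sum_open _ (hk 1)]
    have e2 : ¬ ((2 : Fin 4) = 0 ∨ (2 : Fin 4) = 1) := by decide
    have e3 : ¬ ((3 : Fin 4) = 0 ∨ (3 : Fin 4) = 1) := by decide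
    rw [if_neg e2, if_neg e3]
    simp [sg]
  have h2 := euler_plane k
  have h3 : euler (plane k \ circle k) + euler (circle k) = euler (plane k) := by
    unfold euler
    exact Finset.sum_sdiff (circle_sub_plane k)
  omega

private theorem inter_plane {N k : Fin 4 → ℕ} {A B : Finset Cell} (h : AnnData N k A B) :
    A ∩ plane k = circle k := by
  ext c
  constructor
  · intro hc
    obtain ⟨hA, hp⟩ := Finset.mem_inter.1 hc
    unfold plane at hp
    have h1 := h.out c hA (Finset.mem_filter.1 hp).1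
    rw [← h.inr]
    exact Finset.mem_inter.2 ⟨hA, h1⟩
  · intro hc
    refine Finset.mem_inter.2 ⟨?_, circle_sub_plane k hc⟩
    rw [← h.inr] at hc
    exact (Finset.mem_inter.1 hc).1

theorem ann_euler {N k : Fin 4 → ℕ} {A B : Finset Cell} (h : AnnData N k A B) :
    euler (A ∪ plane k) = 1 := by
  have h1 : euler (A ∪ plane k) + euler (A ∩ plane k) = euler A + euler (plane k) := by
    unfold euler
    exact Finset.sum_union_inter
  rw [inter_plane h, euler_circle k (fun i => (h.kpos i).1), h.eul, euler_plane] at h1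
  omega

private def Rel (F : Finset Cell) (x y : Cell) : Prop := x ∈ F ∧ y ∈ F ∧ (Le x y ∨ Le y x)

private theorem rel_rev {F : Finset Cell} {a b : Cell}
    (hab : Relation.ReflTransGen (Rel F) a b) : Relation.ReflTransGen (Rel F) b a := by
  induction hab with
  | refl => exact Relation.ReflTransGen.refl
  | tail _ hs ih => exact Relation.ReflTransGen.head ⟨hs.2.1, hs.1, hs.2.2.symm⟩ ih

private theorem toward (c : Cell) (i : Fin 4) (s : ℤ) (hs : s = 1 ∨ s = -1) :
    Le c (Function.update c i (c i + s)) ∨ Le (Function.update c i (c i + s)) c := by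
  rcases Int.emod_two_eq_zero_or_one (c i) with h | h
  · left
    intro j
    by_cases hj : j = i
    · subst hj
      right
      rw [Function.update_self]
      omega
    · left
      rw [Function.update_of_ne hj]
  · right
    intro j
    by_cases hj : j = i
    · subst hj
      right
      rw [Function.update_self]
      omega
    · left
      rw [Function.update_of_ne hj]

private theorem mem_plane {k : Fin 4 → ℕ} {c : Cell} : c ∈ plane k ↔
    (-(2 * (k 0 : ℤ)) ≤ c 0 ∧ c 0 ≤ 2 * (k 0 : ℤ)) ∧
    (-(2 * (k 1 : ℤ)) ≤ c 1 ∧ c 1 ≤ 2 * (k 1 : ℤ)) ∧ c 2 = 0 ∧ c 3 = 0 := by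
  unfold plane
  rw [Finset.mem_filter, mem_box]
  constructor
  · rintro ⟨h1, h2, h3⟩
    exact ⟨h1 0, h1 1, h2, h3⟩
  · rintro ⟨h0, h1, h2, h3⟩
    refine ⟨fun i => ?_, h2, h3⟩
    fin_cases i
    · exact h0
    · exact h1
    · change -(2 * (k 2 : ℤ)) ≤ c 2 ∧ c 2 ≤ 2 * (k 2 : ℤ)
      rw [h2]
      omega
    · change -(2 * (k 3 : ℤ)) ≤ c 3 ∧ c 3 ≤ 2 * (k 3 : ℤ)
      rw [h3]
      omega

private theorem to_zero (k : Fin 4 → ℕ) : ∀ (m : ℕ) (c : Cell), c ∈ plane k →
    (c 0).natAbs + (c 1).natAbs ≤ m → Relation.ReflTransGen (Rel (plane k)) c 0 := by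
  intro m
  induction m with
  | zero =>
    intro c hc hm
    have h := mem_plane.1 hc
    have : c = 0 := by
      funext i
      fin_cases i
      · change c 0 = 0
        omega
      · change c 1 = 0
        omega
      · exact h.2.2.1
      · exact h.2.2.2
    rw [this]
  | succ m ih =>
    intro c hc hm
    have h := mem_plane.1 hc
    by_cases h0 : c 0 = 0
    · by_cases h1 : c 1 = 0
      · exact ih c hc (by omega)
      · obtain ⟨s, hs, hs1⟩ : ∃ s : ℤ, (s = 1 ∨ s = -1) ∧ (c 1 + s).natAbs + 1 = (c 1).natAbs := by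
          rcases lt_or_gt_of_ne h1 with h2 | h2
          · exact ⟨1, Or.inl rfl, by omega⟩
          · exact ⟨-1, Or.inr rfl, by omega⟩
        have e0 : (Function.update c 1 (c 1 + s)) 0 = c 0 := Function.update_of_ne (by decide) _ _
        have e1 : (Function.update c 1 (c 1 + s)) 1 = c 1 + s := Function.update_self _ _ _
        have e2 : (Function.update c 1 (c 1 + s)) 2 = c 2 := Function.update_of_ne (by decide) _ _
        have e3 : (Function.update c 1 (c 1 + s)) 3 = c 3 := Function.update_of_ne (by decide) _ _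
        have hmem : Function.update c 1 (c 1 + s) ∈ plane k := by
          rw [mem_plane, e0, e1, e2, e3]
          refine ⟨h.1, ?_, h.2.2.1, h.2.2.2⟩
          have := h.2.1
          omega
        refine Relation.ReflTransGen.head (b := Function.update c 1 (c 1 + s))
          ⟨hc, hmem, toward c 1 s hs⟩ (ih _ hmem ?_)
        rw [e0, e1]
        omega
    · obtain ⟨s, hs, hs1⟩ : ∃ s : ℤ, (s = 1 ∨ s = -1) ∧ (c 0 + s).natAbs + 1 = (c 0).natAbs := by
        rcases lt_or_gt_of_ne h0 with h2 | h2
        · exact ⟨1, Or.inl rfl, by omega⟩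
        · exact ⟨-1, Or.inr rfl, by omega⟩
      have e0 : (Function.update c 0 (c 0 + s)) 0 = c 0 + s := Function.update_self _ _ _
      have e1 : (Function.update c 0 (c 0 + s)) 1 = c 1 := Function.update_of_ne (by decide) _ _
      have e2 : (Function.update c 0 (c 0 + s)) 2 = c 2 := Function.update_of_ne (by decide) _ _
      have e3 : (Function.update c 0 (c 0 + s)) 3 = c 3 := Function.update_of_ne (by decide) _ _
      have hmem : Function.update c 0 (c 0 + s) ∈ plane k := by
        rw [mem_plane, e0, e1, e2, e3]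
        refine ⟨?_, h.2.1, h.2.2.1, h.2.2.2⟩
        have := h.1
        omega
      refine Relation.ReflTransGen.head (b := Function.update c 0 (c 0 + s))
        ⟨hc, hmem, toward c 0 s hs⟩ (ih _ hmem ?_)
      rw [e0, e1]
      omega

private theorem rel_mono {F G : Finset Cell} (h : F ⊆ G) {a b : Cell}
    (hab : Relation.ReflTransGen (Rel F) a b) : Relation.ReflTransGen (Rel G) a b := by
  induction hab with
  | refl => exact Relation.ReflTransGen.refl
  | tail _ hs ih => exact ih.tail ⟨h hs.1, h hs.2.1, hs.2.2⟩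

theorem ann_conn {N k : Fin 4 → ℕ} {A B : Finset Cell} (h : AnnData N k A B) :
    Connected (A ∪ plane k) := by
  let p : Cell := Function.update 0 0 (2 * (k 0 : ℤ))
  have p0 : p 0 = 2 * (k 0 : ℤ) := Function.update_self _ _ _
  have p1 : p 1 = 0 := Function.update_of_ne (by decide) _ _
  have p2 : p 2 = 0 := Function.update_of_ne (by decide) _ _
  have p3 : p 3 = 0 := Function.update_of_ne (by decide) _ _
  have hpp : p ∈ plane k := by
    rw [mem_plane, p0, p1, p2, p3]
    omega
  have hpc : p ∈ circle k := by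
    unfold circle
    rw [Finset.mem_filter, mem_bd]
    refine ⟨⟨?_, 0, Or.inl p0⟩, p2, p3⟩
    unfold plane at hpp
    exact (Finset.mem_filter.1 hpp).1
  have hpA : p ∈ A := by
    rw [← h.inr] at hpc
    exact (Finset.mem_inter.1 hpc).1
  have key : ∀ a ∈ A ∪ plane k, Relation.ReflTransGen (Rel (A ∪ plane k)) a p := by
    intro a ha
    rcases Finset.mem_union.1 ha with h1 | h1
    · exact rel_mono Finset.subset_union_left (h.conn.2 a h1 p hpA)
    · apply rel_mono (F := plane k) Finset.subset_union_right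
      have h2 := to_zero k _ a h1 (le_refl _)
      have h3 := to_zero k _ p hpp (le_refl _)
      exact h2.trans (rel_rev h3)
  refine ⟨⟨p, Finset.mem_union_left _ hpA⟩, fun a ha b hb => ?_⟩
  exact (key a ha).trans (rel_rev (key b hb))

end Cub
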