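import Pool.Agent.H33.CB.Kap

/-!
# Module BdCyc (about 200 lines): two-cycles of the boundary of the box are boundaries

`k = ZMod 3`.  `y` is a cycle on the squares of `bd n`.  Step 1: extend `y` by zero to `Box n \ {0}`; it is a
cycle there (`0 ∉ bd n`, `bd n` is closed under facets), so by `acy_box` `y = d V`; only the part of
`V` on cells of dimension 3 matters (replace `V` by it: `d` lowers `dim` by one).
Step 2: the restriction of `V` to `inn n` is a cycle of `inn n` without the top cell
(`d V = y` vanishes on `inn n`, and cofaces of cells of `inn n` are in `inn n`), so by `acy_inn`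
(dimension 3 part, the top cell does not matter) `V = d U` on `inn n`, `U` on top cells.
Step 3: `h = V - d U` (on `Box n`) vanishes on `inn n`, is supported on `bd n`, and `d h = y`.
Symmetry: if `y (-q) = y q`, replace `h` by `-(h c + h (-c))` (`= (h c + h(-c))/2` modulo 3).
-/

namespace Cub

/-- acyclicity in terms of functions on all cells, homogeneous version -/
private theorem BdCyc_acy {B : Finset Cell} (hB : Acy (dinc (ZMod 3)) B) (k : ℕ)
    (X : Cell → ZMod 3) (hX : ∀ b ∈ B, ∑ a ∈ B, X a * (inc a b : ZMod 3) = 0)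
    (hk : ∀ c ∈ B, X c ≠ 0 → dim c = k) :
    ∃ Y : Cell → ZMod 3, (∀ c, Y c ≠ 0 → c ∈ B ∧ dim c = k + 1) ∧
      ∀ b ∈ B, ∑ a ∈ B, Y a * (inc a b : ZMod 3) = X b := by
  classical
  have h1 : dB (dinc (ZMod 3)) B (fun b => X b) = 0 := by
    funext b
    change ∑ a : B, X a * (inc (a : Cell) (b : Cell) : ZMod 3) = 0
    rw [Finset.sum_coe_sort B (fun a => X a * (inc a (b : Cell) : ZMod 3))]
    exact hX b b.2
  obtain ⟨V, hV⟩ := hB _ h1
  let W : Cell → ZMod 3 := fun c => if h : c ∈ B then V ⟨c, h⟩ else 0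
  have hW : ∀ b ∈ B, ∑ a ∈ B, W a * (inc a b : ZMod 3) = X b := by
    intro b hb
    have h2 := congrFun hV ⟨b, hb⟩
    change ∑ a : B, V a * (inc (a : Cell) b : ZMod 3) = X b at h2
    rw [← h2, ← Finset.sum_coe_sort B (fun a => W a * (inc a b : ZMod 3))]
    refine Finset.sum_congr rfl fun a _ => ?_
    simp only [W, dif_pos a.2]
  refine ⟨fun c => if c ∈ B ∧ dim c = k + 1 then W c else 0, ?_, ?_⟩
  · intro c hc
    by_contra h
    exact hc (if_neg h)
  · intro b hb
    by_cases hbk : dim b = k
    · rw [← hW b hb]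
      refine Finset.sum_congr rfl fun a ha => ?_
      by_cases hinc : inc a b = 0
      · rw [hinc]
        simp
      · have h3 := (le_of_inc hinc).2
        beta_reduce
        rw [if_pos (And.intro ha (by omega))]
    · have h4 : X b = 0 := by
        by_contra h
        exact hbk (hk b hb h)
      rw [h4]
      refine Finset.sum_eq_zero fun a _ => ?_
      by_cases hinc : inc a b = 0
      · rw [hinc]
        simp
      · have h3 := (le_of_inc hinc).2
        have h5 : ¬ (a ∈ B ∧ dim a = k + 1) := by
          rintro ⟨-, h5⟩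
          omega
        beta_reduce
        rw [if_neg h5, zero_mul]

private theorem BdCyc_dim_neg (c : Cell) : dim (-c) = dim c := by
  unfold dim
  congr 1
  apply Finset.filter_congr
  intro i _
  rw [Pi.neg_apply]
  omega

private theorem BdCyc_dim_zero : dim (0 : Cell) = 0 := by
  unfold dim
  rw [Finset.card_eq_zero, Finset.filter_eq_empty_iff]
  intro i _
  simp

private theorem BdCyc_bd_neg {n : Fin 4 → ℕ} {c : Cell} (h : c ∈ bd n) : -c ∈ bd n := by
  rw [mem_bd, mem_box] at h ⊢
  obtain ⟨h1, i, h2⟩ := h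
  refine ⟨fun j => ?_, i, ?_⟩
  · have := h1 j
    rw [Pi.neg_apply]
    omega
  · rw [Pi.neg_apply]
    omega

private theorem BdCyc_dim_top {n : Fin 4 → ℕ} : dim (fun i => 2 * (n i : ℤ) - 1) = 4 := by
  unfold dim
  have : (Finset.univ.filter (fun i : Fin 4 => (2 * (n i : ℤ) - 1) % 2 = 1)) = Finset.univ := by
    apply Finset.filter_true_of_mem
    intro i _
    omega
  rw [this]
  rfl

theorem bd_cyc {n : Fin 4 → ℕ} (hn : ∀ i, 1 ≤ n i) (y : Cell → ZMod 3)
    (hy : ∀ c ∈ bd n, dim c = 1 →
      ∑ q ∈ (bd n).filter (fun q => dim q = 2), y q * (inc q c : ZMod 3) = 0)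
    (hs : ∀ q, y (-q) = y q) :
    ∃ h : Cell → ZMod 3, (∀ q, h (-q) = h q) ∧ ∀ q ∈ bd n, dim q = 2 →
      y q = ∑ T ∈ (bd n).filter (fun T => dim T = 3), h T * (inc T q : ZMod 3) := by
  classical
  have hbox : ∀ {c}, c ∈ bd n → c ∈ Box n := fun h => (mem_bd.1 h).1
  have hface : ∀ {a b}, a ∈ bd n → inc a b ≠ 0 → b ∈ bd n := fun ha h =>
    isComplex_bd n _ ha _ (le_of_inc h).1
  set B : Finset Cell := Box n \ {0} with hB
  let X : Cell → ZMod 3 := fun c => if c ∈ bd n ∧ dim c = 2 then y c else 0
  have hbdB : ∀ c, c ∈ bd n → dim c = 2 → c ∈ B := by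
    intro c h1 h2
    rw [hB, Finset.mem_sdiff, Finset.mem_singleton]
    refine ⟨hbox h1, ?_⟩
    rintro rfl
    rw [BdCyc_dim_zero] at h2
    omega
  have hXsum : ∀ b, ∑ a ∈ B, X a * (inc a b : ZMod 3) =
      ∑ q ∈ (bd n).filter (fun q => dim q = 2), y q * (inc q b : ZMod 3) := by
    intro b
    symm
    rw [← Finset.sum_subset (s₁ := (bd n).filter (fun q => dim q = 2)) (s₂ := B)
      (f := fun a => X a * (inc a b : ZMod 3))]
    · refine Finset.sum_congr rfl fun a ha => ?_
      rw [Finset.mem_filter] at ha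
      simp only [X, if_pos ha]
    · intro a ha
      rw [Finset.mem_filter] at ha
      exact hbdB a ha.1 ha.2
    · intro a _ ha
      rw [Finset.mem_filter] at ha
      simp only [X, if_neg ha, zero_mul]
  obtain ⟨V, hV1, hV2⟩ := BdCyc_acy (acy_box n) 2 X (by
    intro b _
    rw [hXsum]
    by_cases hb : b ∈ bd n ∧ dim b = 1
    · exact hy b hb.1 hb.2
    · refine Finset.sum_eq_zero fun a ha => ?_
      rw [Finset.mem_filter] at ha
      by_cases hinc : inc a b = 0
      · rw [hinc]
        simp
      · exfalso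
        apply hb
        have h3 := (le_of_inc hinc).2
        exact ⟨hface ha.1 hinc, by omega⟩) (by
    intro c _ hc
    by_contra h
    exact hc (if_neg fun h' => h h'.2))
  have hVbox : ∀ b, b ∈ Box n → b ≠ 0 → ∑ a ∈ Box n, V a * (inc a b : ZMod 3) = X b := by
    intro b hb hb0
    have hbB : b ∈ B := by
      rw [hB, Finset.mem_sdiff, Finset.mem_singleton]
      exact ⟨hb, hb0⟩
    rw [← hV2 b hbB]
    symm
    apply Finset.sum_subset
    · exact Finset.sdiff_subset
    · intro a _ ha
      have : V a = 0 := by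
        by_contra h
        exact ha (hV1 a h).1
      rw [this, zero_mul]
  set T0 : Cell := fun i => 2 * (n i : ℤ) - 1 with hT0
  set B' : Finset Cell := inn n \ {T0} with hB'
  have hinn : ∀ {c}, c ∈ inn n ↔ c ∈ Box n ∧ c ∉ bd n := by
    intro c
    unfold inn
    rw [Finset.mem_sdiff]
  have hB'box : B' ⊆ Box n := by
    intro c hc
    rw [hB', Finset.mem_sdiff] at hc
    exact (hinn.1 hc.1).1
  have hVB' : ∀ b, b ∈ inn n → ∑ a ∈ B', V a * (inc a b : ZMod 3) =
      ∑ a ∈ Box n, V a * (inc a b : ZMod 3) := by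
    intro b hb
    apply Finset.sum_subset hB'box
    intro a ha ha'
    by_cases hinc : inc a b = 0
    · rw [hinc]
      simp
    · have h1 : V a = 0 := by
        by_contra h
        have h2 := hV1 a h
        apply ha'
        rw [hB', Finset.mem_sdiff, Finset.mem_singleton, hinn]
        refine ⟨⟨ha, fun h3 => (hinn.1 hb).2 (hface h3 hinc)⟩, ?_⟩
        rintro rfl
        have h4 := h2.2
        rw [hT0, BdCyc_dim_top] at h4
        omega
      rw [h1, zero_mul]
  obtain ⟨U, hU1, hU2⟩ := BdCyc_acy (acy_inn n hn) 3 V (by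
    intro b hb
    have hb' : b ∈ inn n := by
      rw [Finset.mem_sdiff] at hb
      exact hb.1
    by_cases hb0 : b = 0
    · refine Finset.sum_eq_zero fun a _ => ?_
      by_cases hinc : inc a b = 0
      · rw [hinc]
        simp
      · have h3 := (le_of_inc hinc).2
        rw [hb0, BdCyc_dim_zero] at h3
        have h1 : V a = 0 := by
          by_contra h
          have := (hV1 a h).2
          omega
        rw [h1, zero_mul]
    · have h1 := hVB' b hb'
      rw [hVbox b (hinn.1 hb').1 hb0] at h1
      have h2 : X b = 0 := if_neg fun h => (hinn.1 hb').2 h.1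
      rw [h2] at h1
      exact h1) (by
    intro c _ hc
    exact (hV1 c hc).2)
  let h0 : Cell → ZMod 3 := fun T => V T - ∑ Q ∈ Box n, U Q * (inc Q T : ZMod 3)
  have hzero : ∀ T ∈ Box n, ¬ (T ∈ bd n ∧ dim T = 3) → h0 T = 0 := by
    intro T hT hno
    by_cases hdim : dim T = 3
    · have hTi : T ∈ inn n := hinn.2 ⟨hT, fun h => hno ⟨h, hdim⟩⟩
      have hTB : T ∈ inn n \ {fun i => 2 * (n i : ℤ) - 1} := by
        rw [Finset.mem_sdiff, Finset.mem_singleton]
        refine ⟨hTi, ?_⟩
        intro h
        rw [h, BdCyc_dim_top] at hdim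
        omega
      have h1 := hU2 T hTB
      have h2 : ∑ Q ∈ Box n, U Q * (inc Q T : ZMod 3) = V T := by
        rw [← h1]
        symm
        apply Finset.sum_subset hB'box
        intro a _ ha
        have : U a = 0 := by
          by_contra h
          exact ha (hU1 a h).1
        rw [this, zero_mul]
      simp only [h0, h2, sub_self]
    · have h1 : V T = 0 := by
        by_contra h
        exact hdim (hV1 T h).2
      have h2 : ∑ Q ∈ Box n, U Q * (inc Q T : ZMod 3) = 0 := by
        refine Finset.sum_eq_zero fun a _ => ?_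
        by_cases hinc : inc a T = 0
        · rw [hinc]
          simp
        · have h3 := (le_of_inc hinc).2
          have h4 : U a = 0 := by
            by_contra h
            have := (hU1 a h).2
            omega
          rw [h4, zero_mul]
      simp only [h0, h1, h2, sub_self]
  have hconv : Conv (Box n) := fun a _ c hc b _ hbc => isComplex_box n c hc b hbc
  have hcx := isCx_dinc (R := ZMod 3) hconv
  have hmain : ∀ q ∈ bd n, dim q = 2 →
      ∑ T ∈ (bd n).filter (fun T => dim T = 3), h0 T * (inc T q : ZMod 3) = y q := by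
    intro q hq hdq
    have hq0 : q ≠ 0 := by
      rintro rfl
      rw [BdCyc_dim_zero] at hdq
      omega
    have h1 : ∑ T ∈ (bd n).filter (fun T => dim T = 3), h0 T * (inc T q : ZMod 3) =
        ∑ T ∈ Box n, h0 T * (inc T q : ZMod 3) := by
      apply Finset.sum_subset
      · intro T hT
        rw [Finset.mem_filter] at hT
        exact hbox hT.1
      · intro T hT hT'
        rw [Finset.mem_filter] at hT'
        rw [hzero T hT hT', zero_mul]
    have h2 : ∑ T ∈ Box n, h0 T * (inc T q : ZMod 3) =
        ∑ T ∈ Box n, V T * (inc T q : ZMod 3) -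
          ∑ T ∈ Box n, (∑ Q ∈ Box n, U Q * (inc Q T : ZMod 3)) * (inc T q : ZMod 3) := by
      rw [← Finset.sum_sub_distrib]
      refine Finset.sum_congr rfl fun T _ => ?_
      simp only [h0]
      ring
    have h3 : ∑ T ∈ Box n, (∑ Q ∈ Box n, U Q * (inc Q T : ZMod 3)) * (inc T q : ZMod 3) = 0 := by
      simp_rw [Finset.sum_mul]
      rw [Finset.sum_comm]
      refine Finset.sum_eq_zero fun Q hQ => ?_
      have h4 := hcx Q hQ q (hbox hq)
      have h5 : ∑ T ∈ Box n, U Q * (inc Q T : ZMod 3) * (inc T q : ZMod 3) =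
          U Q * ∑ T ∈ Box n, dinc (ZMod 3) Q T * dinc (ZMod 3) T q := by
        rw [Finset.mul_sum]
        refine Finset.sum_congr rfl fun T _ => ?_
        unfold dinc
        ring
      rw [h5, h4, mul_zero]
    rw [h1, h2, h3, sub_zero, hVbox q (hbox hq) hq0]
    exact if_pos ⟨hq, hdq⟩
  refine ⟨fun T => -(h0 T + h0 (-T)), ?_, ?_⟩
  · intro q
    simp only [neg_neg]
    ring
  · intro q hq hdq
    have hqn : -q ∈ bd n := BdCyc_bd_neg hq
    have hdqn : dim (-q) = 2 := (BdCyc_dim_neg q).trans hdq
    have h1 := hmain q hq hdq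
    have h2 := hmain (-q) hqn hdqn
    have h3 : ∑ T ∈ (bd n).filter (fun T => dim T = 3), h0 (-T) * (inc T q : ZMod 3) = y q := by
      rw [← hs q, ← h2]
      apply Finset.sum_nbij' (fun T => -T) (fun T => -T)
      · intro T hT
        rw [Finset.mem_filter] at hT ⊢
        exact ⟨BdCyc_bd_neg hT.1, (BdCyc_dim_neg T).trans hT.2⟩
      · intro T hT
        rw [Finset.mem_filter] at hT ⊢
        exact ⟨BdCyc_bd_neg hT.1, (BdCyc_dim_neg T).trans hT.2⟩
      · intro T _
        exact neg_neg T
      · intro T _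
        exact neg_neg T
      · intro T _
        rw [inc_neg]
    have h4 : ∑ T ∈ (bd n).filter (fun T => dim T = 3),
        -(h0 T + h0 (-T)) * (inc T q : ZMod 3) = -(y q + y q) := by
      have h5 : ∑ T ∈ (bd n).filter (fun T => dim T = 3),
          -(h0 T + h0 (-T)) * (inc T q : ZMod 3) =
          -(∑ T ∈ (bd n).filter (fun T => dim T = 3), h0 T * (inc T q : ZMod 3) +
            ∑ T ∈ (bd n).filter (fun T => dim T = 3), h0 (-T) * (inc T q : ZMod 3)) := by
        rw [← Finset.sum_add_distrib, ← Finset.sum_neg_distrib]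
        refine Finset.sum_congr rfl fun T _ => ?_
        ring
      rw [h5, h1, h3]
    rw [h4]
    have h6 : ∀ z : ZMod 3, z = -(z + z) := by decide
    exact h6 _

end Cub
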