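import Pool.Agent.H33.CB.CxD

/-!
# Module BoxAcy (about 200 lines): the box without its center, the open box without a top cell

`acy_box`: filtration (`acy_fil`) of `Box n \ {0}` by `k c = (i, sign of c i)`, where `i` is the first
coordinate with `c i ≠ 0`, height `- i`: a facet of `c` with the same `i` has the same sign (`c i`
goes from `± 1` to `0` or keeps its sign), otherwise its `i` is larger.  The piece with given `i` and
sign `s` is matched in the direction `i` (`acy_tog`): odd `c i` with `c i + s`.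
`acy_inn`: the cells of the open box, without the top cell `2 n - 1`: `i` = first coordinate with
`c i ≠ 2 n i - 1`, height `i` (a facet of `c` has the same or a smaller `i`), matched in the direction `i`
with `s = 1`.
-/

namespace Cub

variable {R : Type} [CommRing R]

/-- The untwisted matrix. -/
def dinc (R : Type) [CommRing R] (c c' : Cell) : R := (inc c c' : R)

private theorem dinc_eq : dinc R = dcoef (1 : R) (fun _ _ => 0) := by
  funext c c'
  simp [dinc, dcoef, zp]

theorem isCx_dinc {A : Finset Cell} (hc : Conv A) : IsCx (dinc R) A := by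
  rw [dinc_eq]
  refine isCx_dcoef (by ring) hc ?_
  intro c _ i j _ _ _ s t _ _ _
  rfl

private theorem unitD_dinc (A : Finset Cell) : UnitD (dinc R) A := by
  rw [dinc_eq]
  exact unitD_dcoef isUnit_one _ A

private theorem le_between {a b c : Cell} (h1 : Le a b) (h2 : Le b c) (j : Fin 4) :
    b j = a j ∨ b j = c j := by
  rcases h2 j with h | ⟨h, h'⟩
  · exact Or.inr h
  · rcases h1 j with h3 | ⟨h3, _⟩
    · exact Or.inl h3.symm
    · omega

/-- the first coordinate where `c` differs from `t` -/
private def fi (t c : Cell) : Fin 4 :=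
  if c 0 ≠ t 0 then 0 else if c 1 ≠ t 1 then 1 else if c 2 ≠ t 2 then 2 else 3

private theorem fi_spec {t c : Cell} (h : c ≠ t) :
    c (fi t c) ≠ t (fi t c) ∧ ∀ j < fi t c, c j = t j := by
  unfold fi
  split_ifs with h0 h1 h2
  · exact ⟨h0, fun j hj => absurd hj (Fin.not_lt_zero j)⟩
  · refine ⟨h1, fun j hj => ?_⟩
    have : j = 0 := by omega
    subst this
    exact not_not.1 h0
  · refine ⟨h2, fun j hj => ?_⟩
    have : j = 0 ∨ j = 1 := by omega
    rcases this with rfl | rfl
    · exact not_not.1 h0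
    · exact not_not.1 h1
  · have hall : ∀ j < (3 : Fin 4), c j = t j := by
      intro j hj
      have : j = 0 ∨ j = 1 ∨ j = 2 := by omega
      rcases this with rfl | rfl | rfl
      · exact not_not.1 h0
      · exact not_not.1 h1
      · exact not_not.1 h2
    refine ⟨fun h3 => h ?_, hall⟩
    funext j
    by_cases hj : j < 3
    · exact hall j hj
    · have : j = 3 := by omega
      rw [this]; exact h3

private theorem fi_eq {t c : Cell} {i : Fin 4} (h : c i ≠ t i) (h' : ∀ j < i, c j = t j) :
    fi t c = i := by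
  have hne : c ≠ t := fun e => h (by rw [e])
  obtain ⟨h1, h2⟩ := fi_spec hne
  rcases lt_trichotomy (fi t c) i with h3 | h3 | h3
  · exact absurd (h' _ h3) h1
  · exact h3
  · exact absurd (h2 _ h3) h

private theorem facet_of {a b : Cell} (h : dinc R a b ≠ 0) :
    ∃ m, a m % 2 = 1 ∧ (b m = a m + 1 ∨ b m = a m - 1) ∧ ∀ j, j ≠ m → b j = a j := by
  have h1 : inc a b ≠ 0 := by
    intro h2
    apply h
    simp [dinc, h2]
  obtain ⟨m, hm, hb⟩ := inc_ne.1 h1
  refine ⟨m, hm, ?_, ?_⟩
  · rcases hb with rfl | rfl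
    · left; simp [e]
    · right; simp [e]
  · intro j hj
    rcases hb with rfl | rfl
    · simp [e, hj]
    · simp [e, hj]

private theorem add_se_same (c : Cell) (s : ℤ) (i : Fin 4) : (c + s • e i) i = c i + s := by
  simp [e]

private theorem add_se_ne (c : Cell) (s : ℤ) {i j : Fin 4} (h : j ≠ i) :
    (c + s • e i) j = c j := by
  simp [e, h]

private theorem sub_se_same (c : Cell) (s : ℤ) (i : Fin 4) : (c - s • e i) i = c i - s := by
  simp [e]

private theorem sub_se_ne (c : Cell) (s : ℤ) {i j : Fin 4} (h : j ≠ i) :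
    (c - s • e i) j = c j := by
  simp [e, h]

private theorem acy_piece (n : Fin 4 → ℕ) (i : Fin 4) (s : ℤ) (hs : s = 1 ∨ s = -1)
    (A : Finset Cell)
    (hA : ∀ c, c ∈ A ↔ c ∈ Box n ∧ (∀ j < i, c j = 0) ∧ 0 < s * c i) : Acy (dinc R) A := by
  refine acy_tog (isCx_dinc ?_) (unitD_dinc A) i s hs ?_ ?_
  · intro a ha c hc b hab hbc
    have hb := le_between hab hbc
    rw [hA] at ha hc ⊢
    obtain ⟨ha1, ha2, ha3⟩ := ha
    obtain ⟨hc1, hc2, hc3⟩ := hc
    rw [mem_box] at ha1 hc1 ⊢
    refine ⟨fun j => ?_, fun j hj => ?_, ?_⟩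
    · rcases hb j with h | h <;> rw [h]
      · exact ha1 j
      · exact hc1 j
    · rcases hb j with h | h <;> rw [h]
      · exact ha2 j hj
      · exact hc2 j hj
    · rcases hb i with h | h <;> rw [h]
      · exact ha3
      · exact hc3
  · intro c hc hodd
    rw [hA] at hc ⊢
    obtain ⟨h1, h2, h3⟩ := hc
    rw [mem_box] at h1 ⊢
    refine ⟨fun j => ?_, fun j hj => ?_, ?_⟩
    · by_cases hj : j = i
      · subst hj
        rw [add_se_same]
        have := h1 j
        rcases hs with rfl | rfl <;> constructor <;> omega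
      · rw [add_se_ne _ _ hj]; exact h1 j
    · rw [add_se_ne _ _ (ne_of_lt hj)]; exact h2 j hj
    · rw [add_se_same]
      rcases hs with rfl | rfl <;> omega
  · intro c hc heven
    rw [hA] at hc ⊢
    obtain ⟨h1, h2, h3⟩ := hc
    rw [mem_box] at h1 ⊢
    refine ⟨fun j => ?_, fun j hj => ?_, ?_⟩
    · by_cases hj : j = i
      · subst hj
        rw [sub_se_same]
        have := h1 j
        rcases hs with rfl | rfl <;> constructor <;> omega
      · rw [sub_se_ne _ _ hj]; exact h1 j
    · rw [sub_se_ne _ _ (ne_of_lt hj)]; exact h2 j hj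
    · rw [sub_se_same]
      rcases hs with rfl | rfl <;> omega

theorem acy_box (n : Fin 4 → ℕ) : Acy (dinc R) (Box n \ {0}) := by
  have hmem : ∀ c, c ∈ Box n \ {0} ↔ c ∈ Box n ∧ c ≠ 0 := by
    intro c; rw [Finset.mem_sdiff, Finset.mem_singleton]
  have hconv : Conv (Box n \ {0}) := by
    refine conv_sdiff (isComplex_box n) ?_
    intro b hb a hab
    rw [Finset.mem_singleton] at hb ⊢
    subst hb
    funext j
    rcases hab j with h | ⟨h, _⟩
    · exact h
    · simp at h
  refine acy_fil (isCx_dinc hconv) (fun c => (fi 0 c, decide (0 < c (fi 0 c))))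
    (fun p : Fin 4 × Bool => -(p.1.val : ℤ)) ?_ ?_
  · intro a ha b hb hab
    rw [hmem] at ha hb
    obtain ⟨h1, h2⟩ := fi_spec ha.2
    obtain ⟨m, hm, hbm, hbj⟩ := facet_of hab
    set i := fi 0 a with hi
    have hmi : ¬ m < i := by
      intro h
      rw [h2 m h] at hm
      simp at hm
    by_cases hb0 : b i = 0
    · right
      have h3 : i < fi 0 b := by
        obtain ⟨h4, h5⟩ := fi_spec hb.2
        rcases lt_trichotomy i (fi 0 b) with h | h | h
        · exact h
        · rw [← h] at h4
          exact absurd hb0 h4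
        · exfalso
          apply h4
          rw [hbj _ (ne_of_lt (lt_of_lt_of_le h (not_lt.1 hmi)))]
          exact h2 _ h
      show -((fi 0 b).val : ℤ) < -(i.val : ℤ)
      have : i.val < (fi 0 b).val := h3
      omega
    · left
      have h3 : fi 0 b = i := by
        refine fi_eq hb0 fun j hj => ?_
        rw [hbj _ (ne_of_lt (lt_of_lt_of_le hj (not_lt.1 hmi)))]
        exact h2 j hj
      show ((fi 0 b, decide (0 < b (fi 0 b))) : Fin 4 × Bool) = (i, decide (0 < a i))
      rw [h3]
      congr 1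
      rw [decide_eq_decide]
      have h1' : a i ≠ 0 := h1
      by_cases him : i = m
      · rw [← him] at hm hbm
        rcases hbm with h | h <;> rw [h] at hb0 ⊢ <;> omega
      · rw [hbj i him]
  · rintro ⟨i, σ⟩
    refine acy_piece n i (if σ then 1 else -1) (by cases σ <;> simp) _ ?_
    intro c
    rw [Finset.mem_filter, hmem, Prod.mk.injEq]
    constructor
    · rintro ⟨⟨h1, h2⟩, h3, h4⟩
      obtain ⟨h5, h6⟩ := fi_spec h2
      rw [h3] at h4 h5 h6
      have h5' : c i ≠ 0 := h5
      refine ⟨h1, h6, ?_⟩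
      cases σ
      · have : ¬ 0 < c i := of_decide_eq_false h4
        simp only [Bool.false_eq_true, if_false]
        omega
      · have : 0 < c i := of_decide_eq_true h4
        simp only [if_true]
        omega
    · rintro ⟨h1, h2, h3⟩
      have h5 : c i ≠ 0 := by
        rintro h
        rw [h, mul_zero] at h3
        exact lt_irrefl _ h3
      have h6 : fi 0 c = i := fi_eq h5 h2
      refine ⟨⟨h1, fun h => h5 (by rw [h]; rfl)⟩, h6, ?_⟩
      rw [h6]
      cases σ
      · simp only [Bool.false_eq_true, if_false] at h3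
        exact decide_eq_false (by omega)
      · simp only [if_true] at h3
        exact decide_eq_true (by omega)

private theorem mem_inn {n : Fin 4 → ℕ} {c : Cell} :
    c ∈ inn n ↔ ∀ i, -(2 * (n i : ℤ)) < c i ∧ c i < 2 * (n i : ℤ) := by
  unfold inn
  rw [Finset.mem_sdiff, mem_bd, mem_box]
  constructor
  · rintro ⟨h1, h2⟩ i
    have h3 := h1 i
    have h4 : ¬ (c i = 2 * (n i : ℤ) ∨ c i = -(2 * (n i : ℤ))) := fun h => h2 ⟨h1, i, h⟩
    omega
  · intro h
    refine ⟨fun i => ⟨(h i).1.le, (h i).2.le⟩, ?_⟩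
    rintro ⟨_, i, h2⟩
    have := h i
    omega

private theorem acy_piece2 (n : Fin 4 → ℕ) (i : Fin 4)
    (A : Finset Cell)
    (hA : ∀ c, c ∈ A ↔ c ∈ inn n ∧ (∀ j < i, c j = 2 * (n j : ℤ) - 1) ∧
      c i ≠ 2 * (n i : ℤ) - 1) : Acy (dinc R) A := by
  refine acy_tog (isCx_dinc ?_) (unitD_dinc A) i 1 (Or.inl rfl) ?_ ?_
  · intro a ha c hc b hab hbc
    have hb := le_between hab hbc
    rw [hA] at ha hc ⊢
    obtain ⟨ha1, ha2, ha3⟩ := ha
    obtain ⟨hc1, hc2, hc3⟩ := hc
    rw [mem_inn] at ha1 hc1 ⊢
    refine ⟨fun j => ?_, fun j hj => ?_, ?_⟩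
    · rcases hb j with h | h <;> rw [h]
      · exact ha1 j
      · exact hc1 j
    · rcases hb j with h | h <;> rw [h]
      · exact ha2 j hj
      · exact hc2 j hj
    · rcases hb i with h | h <;> rw [h]
      · exact ha3
      · exact hc3
  · intro c hc hodd
    rw [hA] at hc ⊢
    obtain ⟨h1, h2, h3⟩ := hc
    rw [mem_inn] at h1 ⊢
    refine ⟨fun j => ?_, fun j hj => ?_, ?_⟩
    · by_cases hj : j = i
      · subst hj
        rw [add_se_same]
        have := h1 j
        constructor <;> omega
      · rw [add_se_ne _ _ hj]; exact h1 j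
    · rw [add_se_ne _ _ (ne_of_lt hj)]; exact h2 j hj
    · rw [add_se_same]
      omega
  · intro c hc heven
    rw [hA] at hc ⊢
    obtain ⟨h1, h2, h3⟩ := hc
    rw [mem_inn] at h1 ⊢
    refine ⟨fun j => ?_, fun j hj => ?_, ?_⟩
    · by_cases hj : j = i
      · subst hj
        rw [sub_se_same]
        have := h1 j
        constructor <;> omega
      · rw [sub_se_ne _ _ hj]; exact h1 j
    · rw [sub_se_ne _ _ (ne_of_lt hj)]; exact h2 j hj
    · rw [sub_se_same]
      have := h1 i
      omega

theorem acy_inn (n : Fin 4 → ℕ) (hn : ∀ i, 1 ≤ n i) :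
    Acy (dinc R) (inn n \ {fun i => 2 * (n i : ℤ) - 1}) := by
  set t : Cell := fun i => 2 * (n i : ℤ) - 1 with ht
  have hmem : ∀ c, c ∈ inn n \ {t} ↔ c ∈ inn n ∧ c ≠ t := by
    intro c; rw [Finset.mem_sdiff, Finset.mem_singleton]
  have hconv : Conv (inn n \ {t}) := by
    intro a ha c hc b hab hbc
    have hb := le_between hab hbc
    rw [hmem] at ha hc ⊢
    obtain ⟨ha1, ha2⟩ := ha
    obtain ⟨hc1, hc2⟩ := hc
    rw [mem_inn] at ha1 hc1 ⊢
    refine ⟨fun j => ?_, ?_⟩
    · rcases hb j with h | h <;> rw [h]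
      · exact ha1 j
      · exact hc1 j
    · intro hbt
      apply hc2
      funext j
      have h1 := hbc j
      rw [hbt] at h1
      have h2 : t j = 2 * (n j : ℤ) - 1 := rfl
      rcases h1 with h | ⟨h, h'⟩
      · exact h.symm
      · omega
  refine acy_fil (isCx_dinc hconv) (fun c => fi t c)
    (fun p : Fin 4 => (p.val : ℤ)) ?_ ?_
  · intro a ha b hb hab
    rw [hmem] at ha hb
    obtain ⟨h1, h2⟩ := fi_spec ha.2
    obtain ⟨m, hm, hbm, hbj⟩ := facet_of hab
    set i := fi t a with hi
    rcases lt_or_ge m i with hmi | hmi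
    · right
      have h3 : fi t b = m := by
        refine fi_eq ?_ fun j hj => ?_
        · have := h2 m hmi
          omega
        · rw [hbj j (ne_of_lt hj)]
          exact h2 j (hj.trans hmi)
      show ((fi t b).val : ℤ) < (i.val : ℤ)
      rw [h3]
      exact_mod_cast hmi
    · left
      show fi t b = i
      refine fi_eq ?_ fun j hj => ?_
      · by_cases him : i = m
        · rw [← him] at hm hbm
          have : t i = 2 * (n i : ℤ) - 1 := rfl
          omega
        · rw [hbj i him]; exact h1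
      · rw [hbj j (ne_of_lt (lt_of_lt_of_le hj hmi))]
        exact h2 j hj
  · intro i
    refine acy_piece2 n i _ ?_
    intro c
    rw [Finset.mem_filter, hmem]
    constructor
    · rintro ⟨⟨h1, h2⟩, h3⟩
      obtain ⟨h5, h6⟩ := fi_spec h2
      rw [h3] at h5 h6
      exact ⟨h1, h6, h5⟩
    · rintro ⟨h1, h2, h3⟩
      exact ⟨⟨h1, fun h => h3 (by rw [h])⟩, fi_eq h3 h2⟩

end Cub
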