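import Pool.Agent.H33.CB.CzEdge

/-!
# M3, step 8: the fibre over the origin, modulo the antipode

Near the origin `F` is the plane `x₂ = x₃ = 0` (`GoodDisc.flat`); the fibre over `0` consists of `t ∈ {-1, 0, 1}⁴` with `(t 2, t 3) ≠ (0, 0)`
(`low y = 0` means `y = t`, `car 2 y = y`).  `pos` selects one of each pair `± t`.

`mono_zero`: `mono a 0 2 3 ≠ 0`, and also at the cells `(x, y, 0, 0)`, `x, y ∈ {-1, 0, 1}`: at the squares (`x y ≠ 0`) by `LocSys.mono`, at the others by `mono_step`
in the direction `0` or `1` (the rings around them are disjoint from `F`, in the box since `2 ≤ n i`).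

`zero_acy` PROOF.  `P = pos {t | (t 2, t 3) ≠ 0}`.  `P₁ = {t ∈ P | t 0 = t 1 = 0}` is a subcomplex, `P₂ = {t ∈ P | (t 0, t 1) ≠ 0}`; `acy_split` for `dq`.
`P₂`: it is a section of the symmetric set `{t | (t 0, t 1) ≠ 0, (t 2, t 3) ≠ 0}`; `acy_filq` with `k t = (t 0, t 1, 0, 0)`, `h = dim`; the fibre over `q = (x, y, 0, 0)` is `ringT q 2 3`,
acyclic by `ring_lacy` with `v = 0` and `mono_zero` (for `v = 0` the local system `sh 0 a` is `a`, and `suba 2 a = a` on facets in this fibre: `acy_of_lacy`).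
`P₁`: the four cells `(0,0,1,1)`, `(0,0,1,-1)`, `(0,0,1,0)`, `(0,0,0,1)`.  With `α₁ = a (1,1) (1,0)`, `α₂ = a (1,1) (0,1)`, `α₃ = a (1,-1) (1,0)`, `α₄ = a (1,-1) (0,-1)` (last two
coordinates) the matrix from the tops to the bottoms is `[[- ζ^α₁, ζ^α₂], [- ζ^α₃, ζ^α₄]]` (in `dq` the facet `(0,0,0,-1)` counts as `(0,0,0,1)`), with determinant
`ζ^{α₂+α₃} (1 - ζ^{α₁+α₄-α₂-α₃})`; by the symmetry of `a`: `mono a 0 2 3 = 2 (α₁ - α₃ + α₄ - α₂)`, so `α₁+α₄-α₂-α₃ = - mono a 0 2 3 ≠ 0` and the determinant is a unit.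
-/

namespace Cub

variable {R : Type} [CommRing R]

private lemma cz_e_self (i : Fin 4) : e i i = 1 := by simp [e]

private lemma cz_e_ne {i j : Fin 4} (h : j ≠ i) : e i j = 0 := by simp [e, h]

private lemma cz_le {t : Cell} : Le 0 t ↔ ∀ i, t i = 0 ∨ t i = 1 ∨ t i = -1 := by
  unfold Le
  constructor
  · intro h i
    have := h i
    simp only [Pi.zero_apply] at this
    omega
  · intro h i
    have := h i
    simp only [Pi.zero_apply]
    omega

private lemma cz_not_mem {n : Fin 4 → ℕ} {F B : Finset Cell} (h : GoodDisc n F B) {t : Cell}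
    (h0 : Le 0 t) (h1 : ¬ (t 2 = 0 ∧ t 3 = 0)) : t ∈ Box n \ F := by
  rw [Finset.mem_sdiff, h.flat t h0]
  refine ⟨?_, h1⟩
  rw [mem_box]
  intro i
  have h2 := h.big i
  have h3 := cz_le.1 h0 i
  omega

private lemma cz_ring {n : Fin 4 → ℕ} {F B : Finset Cell} (h : GoodDisc n F B) {q : Cell}
    (h2 : q 2 = 0) (h3 : q 3 = 0) (hq : Le 0 q) : ringT q 2 3 ⊆ Box n \ F := by
  intro t ht
  have hq' := cz_le.1 hq
  have key : ∀ x y : ℤ, (x = 0 ∨ x = 1 ∨ x = -1) → (y = 0 ∨ y = 1 ∨ y = -1) →
      ¬ (x = 0 ∧ y = 0) → t = q + x • e 2 + y • e 3 → t ∈ Box n \ F := by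
    intro x y hx hy hxy htt
    have e0 : t 0 = q 0 := by rw [htt]; simp [e]
    have e1 : t 1 = q 1 := by rw [htt]; simp [e]
    have e2 : t 2 = x := by rw [htt]; simp [e, h2]
    have e3 : t 3 = y := by rw [htt]; simp [e, h3]
    refine cz_not_mem h (cz_le.2 ?_) ?_
    · intro i
      fin_cases i
      · show t 0 = 0 ∨ t 0 = 1 ∨ t 0 = -1
        rw [e0]; exact hq' 0
      · show t 1 = 0 ∨ t 1 = 1 ∨ t 1 = -1
        rw [e1]; exact hq' 1
      · show t 2 = 0 ∨ t 2 = 1 ∨ t 2 = -1
        rw [e2]; exact hx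
      · show t 3 = 0 ∨ t 3 = 1 ∨ t 3 = -1
        rw [e3]; exact hy
    · rw [e2, e3]; exact hxy
  unfold ringT at ht
  simp only [Finset.mem_insert, Finset.mem_singleton] at ht
  rcases ht with ht | ht | ht | ht | ht | ht | ht | ht
  · exact key 1 0 (by omega) (by omega) (by omega) (by rw [ht]; module)
  · exact key (-1) 0 (by omega) (by omega) (by omega) (by rw [ht]; module)
  · exact key 0 1 (by omega) (by omega) (by omega) (by rw [ht]; module)
  · exact key 0 (-1) (by omega) (by omega) (by omega) (by rw [ht]; module)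
  · exact key 1 1 (by omega) (by omega) (by omega) (by rw [ht]; module)
  · exact key 1 (-1) (by omega) (by omega) (by omega) (by rw [ht]; module)
  · exact key (-1) 1 (by omega) (by omega) (by omega) (by rw [ht]; module)
  · exact key (-1) (-1) (by omega) (by omega) (by omega) (by rw [ht]; module)

lemma mono_zero {n : Fin 4 → ℕ} {F B : Finset Cell} (h : GoodDisc n F B)
    {a : Cell → Cell → ZMod 3} (ha : LocSys n F a) {q : Cell} (h2 : q 2 = 0) (h3 : q 3 = 0)
    (hq : Le 0 q) : mono a q 2 3 ≠ 0 := by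
  -- both coordinates odd
  have s2 : ∀ q : Cell, q 2 = 0 → q 3 = 0 → Le 0 q → q 0 ≠ 0 → q 1 ≠ 0 → mono a q 2 3 ≠ 0 := by
    intro q h2 h3 hq h0 h1
    have hq' := cz_le.1 hq
    refine ha.mono q ((h.flat q hq).2 ⟨h2, h3⟩) 2 3 (by decide) (by omega) (by omega) ?_
    unfold dim
    have : Finset.univ.filter (fun i => q i % 2 = 1) = {0, 1} := by
      ext i
      simp only [Finset.mem_filter, Finset.mem_univ, true_and, Finset.mem_insert,
        Finset.mem_singleton]
      have a0 := hq' 0
      have a1 := hq' 1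
      fin_cases i
      · show q 0 % 2 = 1 ↔ _
        constructor
        · intro _; left; rfl
        · intro _; omega
      · show q 1 % 2 = 1 ↔ _
        constructor
        · intro _; right; rfl
        · intro _; omega
      · show q 2 % 2 = 1 ↔ _
        rw [h2]
        simp
      · show q 3 % 2 = 1 ↔ _
        rw [h3]
        simp
    rw [this]
    rfl
  have hle : ∀ q : Cell, Le 0 q → ∀ k : Fin 4, q k = 0 → Le 0 (q + (1 : ℤ) • e k) := by
    intro q hq k hk
    rw [cz_le] at hq ⊢
    intro i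
    by_cases hik : i = k
    · subst hik
      right; left
      simp [hk, cz_e_self]
    · have : (q + (1 : ℤ) • e k) i = q i := by simp [cz_e_ne hik]
      rw [this]; exact hq i
  have s1 : ∀ q : Cell, q 2 = 0 → q 3 = 0 → Le 0 q → q 1 ≠ 0 → mono a q 2 3 ≠ 0 := by
    intro q h2 h3 hq h1
    by_cases h0 : q 0 = 0
    · have hq1 := hle q hq 0 h0
      have e0 : (q + (1 : ℤ) • e 0) 0 = 1 := by simp [h0, cz_e_self]
      have e1 : (q + (1 : ℤ) • e 0) 1 = q 1 := by simp [e]
      have e2 : (q + (1 : ℤ) • e 0) 2 = 0 := by simp [e, h2]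
      have e3 : (q + (1 : ℤ) • e 0) 3 = 0 := by simp [e, h3]
      rw [← mono_step ha.flat (i := 2) (j := 3) (k := 0) (by decide) (by decide) (by decide)
        (by omega) (by omega) (by omega) 1 (Or.inl rfl) (cz_ring h h2 h3 hq)
        (cz_ring h e2 e3 hq1)]
      exact s2 _ e2 e3 hq1 (by omega) (by omega)
    · exact s2 q h2 h3 hq h0 h1
  by_cases h1 : q 1 = 0
  · have hq1 := hle q hq 1 h1
    have e1 : (q + (1 : ℤ) • e 1) 1 = 1 := by simp [h1, cz_e_self]
    have e2 : (q + (1 : ℤ) • e 1) 2 = 0 := by simp [e, h2]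
    have e3 : (q + (1 : ℤ) • e 1) 3 = 0 := by simp [e, h3]
    rw [← mono_step ha.flat (i := 2) (j := 3) (k := 1) (by decide) (by decide) (by decide)
      (by omega) (by omega) (by omega) 1 (Or.inl rfl) (cz_ring h h2 h3 hq)
      (cz_ring h e2 e3 hq1)]
    exact s1 _ e2 e3 hq1 (by omega)
  · exact s1 q h2 h3 hq h1

private lemma cz_empty (D : Cell → Cell → R) : Acy D (∅ : Finset Cell) := by
  intro x _
  refine ⟨x, ?_⟩
  funext b
  exact absurd b.2 (Finset.notMem_empty _)

private lemma cz_congr {D E : Cell → Cell → R} {A : Finset Cell}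
    (h : ∀ x ∈ A, ∀ y ∈ A, D x y = E x y) (hE : Acy E A) : Acy D A := by
  have : dB D A = dB E A := by
    refine LinearMap.ext fun x => funext fun b => ?_
    show ∑ a : A, x a * D a b = ∑ a : A, x a * E a b
    exact Finset.sum_congr rfl fun a _ => by rw [h a a.2 b b.2]
  intro x hx
  rw [this] at hx
  obtain ⟨y, hy⟩ := hE x hx
  exact ⟨y, by rw [this]; exact hy⟩

/-- four cells, two of them tops and two of them bottoms -/
private lemma cz_four {D : Cell → Cell → R} {A : Finset Cell} {p q r s : Cell}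
    (hA : A = {p, q, r, s}) (hpq : p ≠ q) (hpr : p ≠ r) (hps : p ≠ s) (hqr : q ≠ r) (hqs : q ≠ s)
    (hrs : r ≠ s) (hpp : ∀ x ∈ A, D x p = 0) (hqq : ∀ x ∈ A, D x q = 0)
    (hr : ∀ x ∈ A, D r x = 0) (hs : ∀ x ∈ A, D s x = 0)
    (hu : IsUnit (D p r * D q s - D p s * D q r)) : Acy D A := by
  have hsum : ∀ f : Cell → R, ∑ x ∈ A, f x = f p + f q + f r + f s := by
    intro f
    rw [hA, Finset.sum_insert, Finset.sum_insert, Finset.sum_insert, Finset.sum_singleton]
    · ring
    · simp [hrs]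
    · simp [hqr, hqs]
    · simp [hpq, hpr, hps]
  have hp' : p ∈ A := by rw [hA]; simp
  have hq' : q ∈ A := by rw [hA]; simp
  have hr' : r ∈ A := by rw [hA]; simp
  have hs' : s ∈ A := by rw [hA]; simp
  have hev : ∀ (f : Cell → R) (b : A), dB D A (fun x => f x) b = ∑ x ∈ A, f x * D x b := by
    intro f b
    show ∑ x : A, f x * D x b = _
    rw [Finset.sum_coe_sort A (fun x => f x * D x b)]
  intro x hx
  have hX : ∃ X : Cell → R, (fun y : A => X y) = x := by
    refine ⟨fun y => if h : y ∈ A then x ⟨y, h⟩ else 0, ?_⟩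
    funext y
    simp only [Finset.coe_mem, dif_pos]
  obtain ⟨X, rfl⟩ := hX
  have e1 : X p * D p r + X q * D q r = 0 := by
    have := congrFun hx ⟨r, hr'⟩
    rw [hev, hsum] at this
    simp only [hr r hr', hs r hr', mul_zero, add_zero, Pi.zero_apply] at this
    exact this
  have e2 : X p * D p s + X q * D q s = 0 := by
    have := congrFun hx ⟨s, hs'⟩
    rw [hev, hsum] at this
    simp only [hr s hs', hs s hs', mul_zero, add_zero, Pi.zero_apply] at this
    exact this
  obtain ⟨c, hc⟩ := hu.exists_right_inv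
  have hXp : X p = 0 := by
    have : X p * (D p r * D q s - D p s * D q r) = 0 := by
      linear_combination e1 * D q s - e2 * D q r
    calc X p = X p * ((D p r * D q s - D p s * D q r) * c) := by rw [hc, mul_one]
      _ = (X p * (D p r * D q s - D p s * D q r)) * c := by ring
      _ = 0 := by rw [this, zero_mul]
  have hXq : X q = 0 := by
    have : X q * (D p r * D q s - D p s * D q r) = 0 := by
      linear_combination e2 * D p r - e1 * D p s
    calc X q = X q * ((D p r * D q s - D p s * D q r) * c) := by rw [hc, mul_one]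
      _ = (X q * (D p r * D q s - D p s * D q r)) * c := by ring
      _ = 0 := by rw [this, zero_mul]
  refine ⟨fun y => if (y : Cell) = p then c * (X r * D q s - X s * D q r) else
    if (y : Cell) = q then c * (X s * D p r - X r * D p s) else 0, ?_⟩
  funext b
  rw [hev (fun y => if y = p then c * (X r * D q s - X s * D q r) else
    if y = q then c * (X s * D p r - X r * D p s) else 0) b, hsum]
  simp only [if_true, if_neg hpq.symm, if_neg hpr.symm, if_neg hqr.symm, if_neg hps.symm,
    if_neg hqs.symm, zero_mul, add_zero]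
  have hb : (b : Cell) ∈ ({p, q, r, s} : Finset Cell) := hA ▸ b.2
  simp only [Finset.mem_insert, Finset.mem_singleton] at hb
  rcases hb with hb | hb | hb | hb
  · rw [hb, hpp p hp', hpp q hq', hXp]; ring
  · rw [hb, hqq p hp', hqq q hq', hXq]; ring
  · rw [hb]; linear_combination X r * hc
  · rw [hb]; linear_combination X s * hc

private lemma cz_up (T : Finset Cell) : up 0 T = T := by
  unfold up
  ext t
  simp

private lemma cz_sh (a : Cell → Cell → ZMod 3) : sh 0 a = a := by
  funext y y'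
  simp [sh]

private lemma cz_unit {ζ : R} (hζ : ζ ^ 2 + ζ + 1 = 0) (hu : IsUnit (1 - ζ)) {d : ZMod 3}
    (hd : d ≠ 0) : IsUnit (1 - zp ζ d) := by
  have hd' : d = 1 ∨ d = 2 := by
    revert hd; revert d; decide
  rcases hd' with rfl | rfl
  · have : (1 : ZMod 3).val = 1 := rfl
    simp only [zp, this, pow_one]
    exact hu
  · have h2 : (2 : ZMod 3).val = 2 := rfl
    simp only [zp, h2]
    have hz : IsUnit (-ζ ^ 2) := by
      refine IsUnit.of_mul_eq_one (-ζ) ?_
      linear_combination (ζ - 1) * hζ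
    have : (1 - ζ ^ 2) = (1 - ζ) * (-ζ ^ 2) := by linear_combination (1 - ζ) * hζ
    rw [this]
    exact hu.mul hz

/-- the two-by-two system over the origin -/
private lemma cz_P1 {n : Fin 4 → ℕ} {F B : Finset Cell} (h : GoodDisc n F B) {ζ : R}
    (hζ : ζ ^ 2 + ζ + 1 = 0) (hu : IsUnit (1 - ζ)) {a : Cell → Cell → ZMod 3}
    (ha : LocSys n F a) {A : Finset Cell}
    (hA : ∀ t, t ∈ A ↔ t 0 = 0 ∧ t 1 = 0 ∧ (t 2 = 1 ∧ (t 3 = 0 ∨ t 3 = 1 ∨ t 3 = -1) ∨
      t 2 = 0 ∧ t 3 = 1)) : Acy (dq (dcoef ζ a)) A := by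
  have h3 : ζ ^ 3 = 1 := by linear_combination (ζ - 1) * hζ
  have hext : ∀ t u : Cell, t = u ↔ t 0 = u 0 ∧ t 1 = u 1 ∧ t 2 = u 2 ∧ t 3 = u 3 := by
    intro t u
    constructor
    · rintro rfl; exact ⟨rfl, rfl, rfl, rfl⟩
    · rintro ⟨h0, h1, h2, h3⟩
      funext i
      fin_cases i
      · exact h0
      · exact h1
      · exact h2
      · exact h3
  have v0 : ∀ x y : ℤ, (x • e 2 + y • e 3) 0 = 0 := by intro x y; simp [e]
  have v1 : ∀ x y : ℤ, (x • e 2 + y • e 3) 1 = 0 := by intro x y; simp [e]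
  have v2 : ∀ x y : ℤ, (x • e 2 + y • e 3) 2 = x := by intro x y; simp [e]
  have v3 : ∀ x y : ℤ, (x • e 2 + y • e 3) 3 = y := by intro x y; simp [e]
  have hval : ∀ t ∈ A, ∃ x y : ℤ, t = x • e 2 + y • e 3 ∧
      (x = 1 ∧ (y = 0 ∨ y = 1 ∨ y = -1) ∨ x = 0 ∧ y = 1) := by
    intro t ht
    obtain ⟨h0, h1, h2⟩ := (hA t).1 ht
    refine ⟨t 2, t 3, ?_, h2⟩
    rw [hext, v0, v1, v2, v3]
    exact ⟨h0, h1, rfl, rfl⟩
  have hmem : ∀ x y : ℤ, (x = 1 ∧ (y = 0 ∨ y = 1 ∨ y = -1) ∨ x = 0 ∧ y = 1) →
      x • e 2 + y • e 3 ∈ A := by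
    intro x y hxy
    rw [hA, v0, v1, v2, v3]
    exact ⟨rfl, rfl, hxy⟩
  have hneg : ∀ x y : ℤ, -(x • e 2 + y • e 3) = (-x) • e 2 + (-y) • e 3 := by
    intro x y; module
  -- incidence numbers
  have hinc0 : ∀ x y x' y' : ℤ,
      ¬ (x % 2 = 1 ∧ (x' = x + 1 ∨ x' = x - 1) ∧ y' = y ∨
        y % 2 = 1 ∧ (y' = y + 1 ∨ y' = y - 1) ∧ x' = x) →
      dcoef ζ a (x • e 2 + y • e 3) (x' • e 2 + y' • e 3) = 0 := by
    intro x y x' y' hn
    have : inc (x • e 2 + y • e 3) (x' • e 2 + y' • e 3) = 0 := by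
      by_contra hne
      obtain ⟨i, hi, hi'⟩ := inc_ne.1 hne
      apply hn
      have w0 := v0 x y
      have w1 := v1 x y
      have w2 := v2 x y
      have w3 := v3 x y
      have z2 := v2 x' y'
      have z3 := v3 x' y'
      rcases hi' with hi' | hi'
      · have c2 := congrFun hi' 2
        have c3 := congrFun hi' 3
        rw [z2, Pi.add_apply, w2] at c2
        rw [z3, Pi.add_apply, w3] at c3
        fin_cases i
        · exfalso; have : (x • e 2 + y • e 3) 0 % 2 = 1 := hi
          omega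
        · exfalso; have : (x • e 2 + y • e 3) 1 % 2 = 1 := hi
          omega
        · left
          have h5 : (x • e 2 + y • e 3) 2 % 2 = 1 := hi
          have h6 : e (2 : Fin 4) 2 = 1 := cz_e_self 2
          have h7 : e (2 : Fin 4) 3 = 0 := cz_e_ne (by decide)
          have c2' : x' = x + e (2 : Fin 4) 2 := c2
          have c3' : y' = y + e (2 : Fin 4) 3 := c3
          omega
        · right
          have h5 : (x • e 2 + y • e 3) 3 % 2 = 1 := hi
          have h6 : e (3 : Fin 4) 3 = 1 := cz_e_self 3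
          have h7 : e (3 : Fin 4) 2 = 0 := cz_e_ne (by decide)
          have c2' : x' = x + e (3 : Fin 4) 2 := c2
          have c3' : y' = y + e (3 : Fin 4) 3 := c3
          omega
      · have c2 := congrFun hi' 2
        have c3 := congrFun hi' 3
        rw [z2, Pi.sub_apply, w2] at c2
        rw [z3, Pi.sub_apply, w3] at c3
        fin_cases i
        · exfalso; have : (x • e 2 + y • e 3) 0 % 2 = 1 := hi
          omega
        · exfalso; have : (x • e 2 + y • e 3) 1 % 2 = 1 := hi
          omega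
        · left
          have h5 : (x • e 2 + y • e 3) 2 % 2 = 1 := hi
          have h6 : e (2 : Fin 4) 2 = 1 := cz_e_self 2
          have h7 : e (2 : Fin 4) 3 = 0 := cz_e_ne (by decide)
          have c2' : x' = x - e (2 : Fin 4) 2 := c2
          have c3' : y' = y - e (2 : Fin 4) 3 := c3
          omega
        · right
          have h5 : (x • e 2 + y • e 3) 3 % 2 = 1 := hi
          have h6 : e (3 : Fin 4) 3 = 1 := cz_e_self 3
          have h7 : e (3 : Fin 4) 2 = 0 := cz_e_ne (by decide)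
          have c2' : x' = x - e (3 : Fin 4) 2 := c2
          have c3' : y' = y - e (3 : Fin 4) 3 := c3
          omega
    unfold dcoef
    rw [this, Int.cast_zero, zero_mul]
  have sg2 : ∀ y : ℤ, sgn 2 ((1 : ℤ) • e 2 + y • e 3) = 1 := by
    intro y
    unfold sgn
    have : Finset.univ.filter (fun j : Fin 4 => j < 2 ∧ ((1 : ℤ) • e 2 + y • e 3) j % 2 = 1) =
        ∅ := by
      rw [Finset.filter_eq_empty_iff]
      intro j _
      fin_cases j
      · rintro ⟨_, h5⟩
        have : ((1 : ℤ) • e 2 + y • e 3) 0 % 2 = 1 := h5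
        rw [v0] at this; omega
      · rintro ⟨_, h5⟩
        have : ((1 : ℤ) • e 2 + y • e 3) 1 % 2 = 1 := h5
        rw [v1] at this; omega
      · rintro ⟨h5, _⟩
        exact absurd h5 (by decide)
      · rintro ⟨h5, _⟩
        exact absurd h5 (by decide)
    rw [this]; rfl
  have sg3 : ∀ y : ℤ, sgn 3 ((1 : ℤ) • e 2 + y • e 3) = -1 := by
    intro y
    unfold sgn
    have : Finset.univ.filter (fun j : Fin 4 => j < 3 ∧ ((1 : ℤ) • e 2 + y • e 3) j % 2 = 1) =
        {2} := by
      ext j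
      simp only [Finset.mem_filter, Finset.mem_univ, true_and, Finset.mem_singleton]
      fin_cases j
      · constructor
        · rintro ⟨_, h5⟩
          have : ((1 : ℤ) • e 2 + y • e 3) 0 % 2 = 1 := h5
          rw [v0] at this; omega
        · intro h5; exact absurd h5 (by decide)
      · constructor
        · rintro ⟨_, h5⟩
          have : ((1 : ℤ) • e 2 + y • e 3) 1 % 2 = 1 := h5
          rw [v1] at this; omega
        · intro h5; exact absurd h5 (by decide)
      · constructor
        · intro _; rfl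
        · intro _
          refine ⟨by decide, ?_⟩
          show ((1 : ℤ) • e 2 + y • e 3) 2 % 2 = 1
          rw [v2]; rfl
      · constructor
        · rintro ⟨h5, _⟩; exact absurd h5 (by decide)
        · intro h5; exact absurd h5 (by decide)
    rw [this]; rfl
  have hinc3 : ∀ y : ℤ, (y = 1 ∨ y = -1) →
      inc ((1 : ℤ) • e 2 + y • e 3) ((1 : ℤ) • e 2 + (0 : ℤ) • e 3) = -1 := by
    intro y hy
    rcases hy with rfl | rfl
    · have : (1 : ℤ) • e 2 + (0 : ℤ) • e 3 = ((1 : ℤ) • e 2 + (1 : ℤ) • e 3) - e 3 := by module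
      rw [this, inc_sub (by rw [v3]; rfl), sg3]
    · have : (1 : ℤ) • e 2 + (0 : ℤ) • e 3 = ((1 : ℤ) • e 2 + (-1 : ℤ) • e 3) + e 3 := by module
      rw [this, inc_add (by rw [v3]; rfl), sg3]
  have hinc2 : ∀ y : ℤ, inc ((1 : ℤ) • e 2 + y • e 3) ((0 : ℤ) • e 2 + y • e 3) = 1 := by
    intro y
    have : (0 : ℤ) • e 2 + y • e 3 = ((1 : ℤ) • e 2 + y • e 3) - e 2 := by module
    rw [this, inc_sub (by rw [v2]; rfl), sg2]
  have hset : A = {(1 : ℤ) • e 2 + (1 : ℤ) • e 3, (1 : ℤ) • e 2 + (-1 : ℤ) • e 3,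
      (1 : ℤ) • e 2 + (0 : ℤ) • e 3, (0 : ℤ) • e 2 + (1 : ℤ) • e 3} := by
    ext t
    simp only [Finset.mem_insert, Finset.mem_singleton]
    constructor
    · intro ht
      obtain ⟨x, y, rfl, h5⟩ := hval t ht
      rcases h5 with ⟨rfl, rfl | rfl | rfl⟩ | ⟨rfl, rfl⟩
      · right; right; left; rfl
      · left; rfl
      · right; left; rfl
      · right; right; right; rfl
    · rintro (rfl | rfl | rfl | rfl)
      · exact hmem _ _ (by omega)
      · exact hmem _ _ (by omega)
      · exact hmem _ _ (by omega)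
      · exact hmem _ _ (by omega)
  have hne : ∀ x y x' y' : ℤ, ¬ (x = x' ∧ y = y') →
      x • e 2 + y • e 3 ≠ x' • e 2 + y' • e 3 := by
    intro x y x' y' hn heq
    apply hn
    have c2 := congrFun heq 2
    have c3 := congrFun heq 3
    rw [v2, v2] at c2
    rw [v3, v3] at c3
    exact ⟨c2, c3⟩
  refine cz_four hset (hne _ _ _ _ (by omega)) (hne _ _ _ _ (by omega)) (hne _ _ _ _ (by omega))
    (hne _ _ _ _ (by omega)) (hne _ _ _ _ (by omega)) (hne _ _ _ _ (by omega)) ?_ ?_ ?_ ?_ ?_
  · intro t ht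
    obtain ⟨x, y, rfl, h5⟩ := hval t ht
    unfold dq
    rw [hneg, hinc0 _ _ _ _ (by omega), hinc0 _ _ _ _ (by omega), add_zero]
  · intro t ht
    obtain ⟨x, y, rfl, h5⟩ := hval t ht
    unfold dq
    rw [hneg, hinc0 _ _ _ _ (by omega), hinc0 _ _ _ _ (by omega), add_zero]
  · intro t ht
    obtain ⟨x, y, rfl, h5⟩ := hval t ht
    unfold dq
    rw [hneg, hinc0 _ _ _ _ (by omega), hinc0 _ _ _ _ (by omega), add_zero]
  · intro t ht
    obtain ⟨x, y, rfl, h5⟩ := hval t ht
    unfold dq
    rw [hneg, hinc0 _ _ _ _ (by omega), hinc0 _ _ _ _ (by omega), add_zero]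
  · set α₁ := a ((1 : ℤ) • e 2 + (1 : ℤ) • e 3) ((1 : ℤ) • e 2 + (0 : ℤ) • e 3) with hα₁
    set α₂ := a ((1 : ℤ) • e 2 + (1 : ℤ) • e 3) ((0 : ℤ) • e 2 + (1 : ℤ) • e 3) with hα₂
    set α₃ := a ((1 : ℤ) • e 2 + (-1 : ℤ) • e 3) ((1 : ℤ) • e 2 + (0 : ℤ) • e 3) with hα₃
    set α₄ := a ((1 : ℤ) • e 2 + (-1 : ℤ) • e 3) ((0 : ℤ) • e 2 + (-1 : ℤ) • e 3) with hα₄
    have d1 : dq (dcoef ζ a) ((1 : ℤ) • e 2 + (1 : ℤ) • e 3) ((1 : ℤ) • e 2 + (0 : ℤ) • e 3) =
        - zp ζ α₁ := by
      unfold dq
      rw [hneg, hinc0 1 1 (-1) (-0) (by omega), add_zero]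
      unfold dcoef
      rw [hinc3 1 (Or.inl rfl)]
      push_cast; ring
    have d2 : dq (dcoef ζ a) ((1 : ℤ) • e 2 + (1 : ℤ) • e 3) ((0 : ℤ) • e 2 + (1 : ℤ) • e 3) =
        zp ζ α₂ := by
      unfold dq
      rw [hneg, hinc0 1 1 (-0) (-1) (by omega), add_zero]
      unfold dcoef
      rw [hinc2 1]
      push_cast; ring
    have d3 : dq (dcoef ζ a) ((1 : ℤ) • e 2 + (-1 : ℤ) • e 3) ((1 : ℤ) • e 2 + (0 : ℤ) • e 3) =
        - zp ζ α₃ := by
      unfold dq
      rw [hneg, hinc0 1 (-1) (-1) (-0) (by omega), add_zero]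
      unfold dcoef
      rw [hinc3 (-1) (Or.inr rfl)]
      push_cast; ring
    have d4 : dq (dcoef ζ a) ((1 : ℤ) • e 2 + (-1 : ℤ) • e 3) ((0 : ℤ) • e 2 + (1 : ℤ) • e 3) =
        zp ζ α₄ := by
      unfold dq
      rw [hneg, hinc0 1 (-1) 0 1 (by omega), zero_add, neg_zero]
      unfold dcoef
      rw [hinc2 (-1)]
      push_cast; ring
    have hm : mono a 0 2 3 ≠ 0 := mono_zero h ha rfl rfl (cz_le.2 fun i => Or.inl rfl)
    have s1 : a (-((1 : ℤ) • e 2 + (1 : ℤ) • e 3)) (-((1 : ℤ) • e 2 + (0 : ℤ) • e 3)) = α₁ :=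
      ha.symm _ _
    have s2 : a (-((1 : ℤ) • e 2 + (1 : ℤ) • e 3)) (-((0 : ℤ) • e 2 + (1 : ℤ) • e 3)) = α₂ :=
      ha.symm _ _
    have s3 : a (-((1 : ℤ) • e 2 + (-1 : ℤ) • e 3)) (-((1 : ℤ) • e 2 + (0 : ℤ) • e 3)) = α₃ :=
      ha.symm _ _
    have s4 : a (-((1 : ℤ) • e 2 + (-1 : ℤ) • e 3)) (-((0 : ℤ) • e 2 + (-1 : ℤ) • e 3)) = α₄ :=
      ha.symm _ _
    have hmono : mono a 0 2 3 = (α₁ + α₄ - α₂ - α₃) * 2 := by
      have p1 : (0 : Cell) + e 2 + e 3 = (1 : ℤ) • e 2 + (1 : ℤ) • e 3 := by module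
      have p2 : (0 : Cell) + e 2 = (1 : ℤ) • e 2 + (0 : ℤ) • e 3 := by module
      have p3 : (0 : Cell) + e 2 - e 3 = (1 : ℤ) • e 2 + (-1 : ℤ) • e 3 := by module
      have p4 : (0 : Cell) - e 3 = (0 : ℤ) • e 2 + (-1 : ℤ) • e 3 := by module
      have p4' : (0 : Cell) - e 3 = -((0 : ℤ) • e 2 + (1 : ℤ) • e 3) := by module
      have p5 : (0 : Cell) - e 2 - e 3 = -((1 : ℤ) • e 2 + (1 : ℤ) • e 3) := by module
      have p6 : (0 : Cell) - e 2 = -((1 : ℤ) • e 2 + (0 : ℤ) • e 3) := by module
      have p7 : (0 : Cell) - e 2 + e 3 = -((1 : ℤ) • e 2 + (-1 : ℤ) • e 3) := by module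
      have p8 : (0 : Cell) + e 3 = (0 : ℤ) • e 2 + (1 : ℤ) • e 3 := by module
      have p8' : (0 : Cell) + e 3 = -((0 : ℤ) • e 2 + (-1 : ℤ) • e 3) := by module
      have q1 : a (0 + e 2 + e 3) (0 + e 2) = α₁ := by rw [p1, p2]
      have q2 : a (0 + e 2 - e 3) (0 + e 2) = α₃ := by rw [p3, p2]
      have q3 : a (0 + e 2 - e 3) (0 - e 3) = α₄ := by rw [p3, p4]
      have q4 : a (0 - e 2 - e 3) (0 - e 3) = α₂ := by rw [p5, p4', s2]
      have q5 : a (0 - e 2 - e 3) (0 - e 2) = α₁ := by rw [p5, p6, s1]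
      have q6 : a (0 - e 2 + e 3) (0 - e 2) = α₃ := by rw [p7, p6, s3]
      have q7 : a (0 - e 2 + e 3) (0 + e 3) = α₄ := by rw [p7, p8', s4]
      have q8 : a (0 + e 2 + e 3) (0 + e 3) = α₂ := by rw [p1, p8]
      unfold mono
      rw [q1, q2, q3, q4, q5, q6, q7, q8]
      ring
    have hδ : α₁ + α₄ - α₂ - α₃ ≠ 0 := by
      intro h0
      apply hm
      rw [hmono, h0, zero_mul]
    rw [d1, d2, d3, d4]
    have hfac : - zp ζ α₁ * zp ζ α₄ - zp ζ α₂ * - zp ζ α₃ =
        (zp ζ α₂ * zp ζ α₃) * (1 - zp ζ (α₁ + α₄ - α₂ - α₃)) := by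
      have e1 : zp ζ α₁ * zp ζ α₄ = zp ζ (α₁ + α₄ - α₂ - α₃) * (zp ζ α₂ * zp ζ α₃) := by
        rw [← zp_add h3, ← zp_add h3, ← zp_add h3]
        congr 1
        ring
      linear_combination -e1
    rw [hfac]
    exact ((isUnit_zp h3 _).mul (isUnit_zp h3 _)).mul (cz_unit hζ hu hδ)

theorem zero_acy {n : Fin 4 → ℕ} {F B : Finset Cell} (h : GoodDisc n F B) {ζ : R}
    (hζ : ζ ^ 2 + ζ + 1 = 0) (hu : IsUnit (1 - ζ)) {a : Cell → Cell → ZMod 3} (ha : LocSys n F a) :
    Acy (dq (dcoef ζ (suba 2 a)))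
      (pos ((Box (fun i => 2 * n i)).filter (fun y => car 2 y ∉ F ∧ low y = 0))) := by
  have h3 : ζ ^ 3 = 1 := by linear_combination (ζ - 1) * hζ
  set T : Finset Cell := upF n F 0 with hT
  have hmT : ∀ t, t ∈ T ↔ Le 0 t ∧ ¬ (t 2 = 0 ∧ t 3 = 0) := by
    intro t
    rw [hT, mem_upF]
    constructor
    · rintro ⟨_, h1, h2⟩
      exact ⟨h1, fun h4 => h2 ((h.flat t h1).2 h4)⟩
    · rintro ⟨h1, h2⟩
      obtain ⟨h4, h5⟩ := Finset.mem_sdiff.1 (cz_not_mem h h1 h2)
      exact ⟨h4, h1, h5⟩
  have hset : (Box (fun i => 2 * n i)).filter (fun y => car 2 y ∉ F ∧ low y = 0) = T := by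
    ext y
    rw [Finset.mem_filter]
    constructor
    · rintro ⟨_, h1, h2⟩
      have e1 := low_add_car y
      rw [h2, zero_add] at e1
      have e2 := low_le_car y
      rw [h2, e1] at e2
      rw [e1] at h1
      rw [hmT]
      exact ⟨e2, fun h4 => h1 ((h.flat y e2).2 h4)⟩
    · intro hy
      have hy' := hy
      rw [hT, mem_upF] at hy'
      obtain ⟨h1, h2, h4⟩ := hy'
      have e1 : low y = 0 := by
        have := low_of_le h2
        rwa [zero_add] at this
      have e2 : car 2 y = y := by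
        have := car_of_le h2
        rwa [zero_add] at this
      refine ⟨?_, ?_, e1⟩
      · rw [mem_box] at h1 ⊢
        intro i
        have := h1 i
        push_cast
        omega
      · rw [e2]; exact h4
  rw [hset]
  have hcar : ∀ y, Le 0 y → car 2 y = y := by
    intro y hy
    have := car_of_le hy
    rwa [zero_add] at this
  have hsymT : Sym T := by
    intro t ht
    rw [hmT] at ht ⊢
    refine ⟨cz_le.2 fun i => ?_, ?_⟩
    · have := cz_le.1 ht.1 i
      simp only [Pi.neg_apply]
      omega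
    · simp only [Pi.neg_apply]
      have := ht.2
      omega
  have h0T : (0 : Cell) ∉ T := by
    rw [hmT]
    rintro ⟨_, h1⟩
    exact h1 ⟨rfl, rfl⟩
  -- replace the local system
  have hD : ∀ y y', Le 0 y → Le 0 y' → dcoef ζ (suba 2 a) y y' = dcoef ζ a y y' := by
    intro y y' hy hy'
    unfold dcoef
    by_cases hi : inc y y' = 0
    · simp [hi]
    · have hne : y ≠ y' := by
        rintro rfl
        have := (le_of_inc hi).2
        omega
      unfold suba
      rw [hcar y hy, hcar y' hy', if_neg hne]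
  refine cz_congr (E := dq (dcoef ζ a)) ?_ ?_
  · intro x hx y hy
    have hx' := ((hmT x).1 (Finset.mem_filter.1 hx).1).1
    have hyT := (Finset.mem_filter.1 hy).1
    have hy' := ((hmT y).1 hyT).1
    have hy'' := ((hmT (-y)).1 (hsymT y hyT)).1
    unfold dq
    rw [hD x y hx' hy', hD x (-y) hx' hy'']
  have hFcx : IsComplex F := h.surf.cx
  have hTsub : T ⊆ Box n \ F := by
    intro t ht
    have := (hmT t).1 ht
    exact cz_not_mem h this.1 this.2
  have hcxT : IsCx (dcoef ζ a) T := isCx_dcoef h3 (conv_upF hFcx 0) (flat_mono hTsub ha.flat)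
  have hDsym : SymM (dcoef ζ a) := symM_dcoef ha.symm
  have hcxq : IsCx (dq (dcoef ζ a)) (pos T) := isCx_dq hsymT (sec_pos hsymT h0T) hDsym hcxT
  set P₁ := (pos T).filter (fun t => t 0 = 0 ∧ t 1 = 0) with hP₁
  set P₂ := (pos T).filter (fun t => ¬ (t 0 = 0 ∧ t 1 = 0)) with hP₂
  have hun : P₁ ∪ P₂ = pos T := Finset.filter_union_filter_not_eq _ _
  have hdis : Disjoint P₁ P₂ := Finset.disjoint_filter_filter_not _ _ _
  have harrow : ∀ x y : Cell, x 0 = 0 → x 1 = 0 → ¬ (y 0 = 0 ∧ y 1 = 0) →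
      dcoef ζ a x y = 0 := by
    intro x y h0 h1 hy
    have : inc x y = 0 := by
      by_contra hne
      apply hy
      obtain ⟨i, hi, hi'⟩ := inc_ne.1 hne
      have i0 : i ≠ 0 := by rintro rfl; omega
      have i1 : i ≠ 1 := by rintro rfl; omega
      rcases hi' with rfl | rfl
      · constructor
        · simp [h0, cz_e_ne i0.symm]
        · simp [h1, cz_e_ne i1.symm]
      · constructor
        · simp [h0, cz_e_ne i0.symm]
        · simp [h1, cz_e_ne i1.symm]
    simp [dcoef, this]
  rw [← hun] at hcxq ⊢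
  refine (acy_split hcxq ?_ hdis).1 ?_ ?_
  · intro x hx y hy
    rw [hP₁, Finset.mem_filter] at hx
    rw [hP₂, Finset.mem_filter] at hy
    unfold dq
    rw [harrow x y hx.2.1 hx.2.2 hy.2, harrow x (-y) hx.2.1 hx.2.2 ?_, add_zero]
    simp only [Pi.neg_apply]
    have := hy.2
    omega
  · -- the four cells
    refine cz_P1 h hζ hu ha fun t => ?_
    rw [hP₁, Finset.mem_filter]
    unfold pos
    rw [Finset.mem_filter, hmT, cz_le]
    unfold Pos
    constructor
    · rintro ⟨⟨⟨h1, h2⟩, ⟨i, hi, hj⟩⟩, h4, h5⟩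
      refine ⟨h4, h5, ?_⟩
      have a2 := h1 2
      have a3 := h1 3
      fin_cases i
      · exfalso
        have : 0 < t 0 := hi
        omega
      · exfalso
        have : 0 < t 1 := hi
        omega
      · have : 0 < t 2 := hi
        omega
      · have : 0 < t 3 := hi
        have h6 := hj 2 (by decide)
        omega
    · rintro ⟨h4, h5, h6⟩
      refine ⟨⟨⟨?_, by omega⟩, ?_⟩, h4, h5⟩
      · intro i
        fin_cases i
        · exact Or.inl h4
        · exact Or.inl h5
        · show t 2 = 0 ∨ t 2 = 1 ∨ t 2 = -1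
          omega
        · show t 3 = 0 ∨ t 3 = 1 ∨ t 3 = -1
          omega
      · by_cases h7 : t 2 = 1
        · refine ⟨2, by omega, ?_⟩
          intro j hj
          fin_cases j
          · exact h4
          · exact h5
          · exact absurd hj (by decide)
          · exact absurd hj (by decide)
        · refine ⟨3, by omega, ?_⟩
          intro j hj
          fin_cases j
          · exact h4
          · exact h5
          · show t 2 = 0
            omega
          · exact absurd hj (by decide)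
  · -- the rings
    set T₂ := T.filter (fun t => ¬ (t 0 = 0 ∧ t 1 = 0)) with hT₂
    have hT₂T : T₂ ⊆ T := Finset.filter_subset _ _
    have hsym2 : Sym T₂ := by
      intro t ht
      rw [hT₂, Finset.mem_filter] at ht ⊢
      refine ⟨hsymT t ht.1, ?_⟩
      have := ht.2
      simp only [Pi.neg_apply]
      omega
    have h02 : (0 : Cell) ∉ T₂ := fun h4 => h0T (hT₂T h4)
    have hP : P₂ = pos T₂ := by
      rw [hP₂, hT₂]
      unfold pos
      ext t
      simp only [Finset.mem_filter]
      tauto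
    rw [hP]
    have hconv2 : Conv T₂ := by
      intro x hx z hz y hxy hyz
      rw [hT₂, Finset.mem_filter] at hx hz ⊢
      have hyT := conv_upF hFcx 0 x hx.1 z hz.1 y hxy hyz
      refine ⟨hyT, ?_⟩
      have h1 := cz_le.1 ((hmT x).1 hx.1).1
      have h2 := cz_le.1 ((hmT y).1 hyT).1
      have h4 := hxy 0
      have h5 := hxy 1
      have h6 := hx.2
      have a0 := h1 0
      have a1 := h1 1
      have b0 := h2 0
      have b1 := h2 1
      omega
    have hcx2 : IsCx (dcoef ζ a) T₂ :=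
      isCx_dcoef h3 hconv2 (flat_mono (hT₂T.trans hTsub) ha.flat)
    refine acy_filq hsym2 (sec_pos hsym2 h02) hDsym hcx2
      (fun t i => if i = 0 ∨ i = 1 then t i else 0) (fun p => (dim p : ℤ)) ?_ ?_ ?_ ?_ ?_
    · intro t
      funext i
      by_cases hi : i = 0 ∨ i = 1
      · simp [hi]
      · simp [hi]
    · intro p
      show (dim (-p) : ℤ) = dim p
      rw [dim_neg]
    · intro t ht heq
      have h1 := (Finset.mem_filter.1 ht).2
      have e0 := congrFun heq 0
      have e1 := congrFun heq 1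
      simp only [true_or, if_true, or_true, Pi.neg_apply] at e0 e1
      apply h1
      constructor
      · omega
      · omega
    · intro x hx y hy hxy
      have hi0 : inc x y ≠ 0 := by
        intro h0
        exact hxy (by simp [dcoef, h0])
      obtain ⟨i, hi, hi'⟩ := inc_ne.1 hi0
      have hoff : ∀ j, j ≠ i → y j = x j := by
        intro j hj
        rcases hi' with rfl | rfl <;> simp [cz_e_ne hj]
      have hon : y i % 2 = 0 := by
        rcases hi' with rfl | rfl
        · have : (x + e i) i = x i + 1 := by simp [cz_e_self]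
          omega
        · have : (x - e i) i = x i - 1 := by simp [cz_e_self]
          omega
      by_cases hi01 : i = 0 ∨ i = 1
      · right
        unfold dim
        have hss : Finset.univ.filter (fun j : Fin 4 => (if j = 0 ∨ j = 1 then y j else 0) % 2 = 1) ⊂
            Finset.univ.filter (fun j : Fin 4 => (if j = 0 ∨ j = 1 then x j else 0) % 2 = 1) := by
          rw [Finset.ssubset_iff_of_subset]
          · refine ⟨i, ?_, ?_⟩
            · simp [hi01, hi]
            · simp only [Finset.mem_filter, Finset.mem_univ, true_and, hi01, if_true]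
              omega
          · intro j hj
            simp only [Finset.mem_filter, Finset.mem_univ, true_and] at hj ⊢
            have hji : j ≠ i := by
              rintro rfl
              rw [if_pos hi01] at hj
              omega
            rw [← hoff j hji]
            exact hj
        exact_mod_cast Finset.card_lt_card hss
      · left
        funext j
        by_cases hj : j = 0 ∨ j = 1
        · have hji : j ≠ i := by
            rintro rfl
            exact hi01 hj
          simp only [hj, if_true]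
          exact hoff j hji
        · simp only [hj, if_false]
    · intro p
      by_cases hne : (T₂.filter (fun t => (fun i : Fin 4 => if i = 0 ∨ i = 1 then t i else 0) = p)) = ∅
      · rw [hne]; exact cz_empty _
      · obtain ⟨t0, ht0⟩ := Finset.nonempty_iff_ne_empty.2 hne
        rw [Finset.mem_filter] at ht0
        obtain ⟨ht0, ht0p⟩ := ht0
        have q0 : p 0 = t0 0 := by rw [← ht0p]; simp
        have q1 : p 1 = t0 1 := by rw [← ht0p]; simp
        have q2 : p 2 = 0 := by rw [← ht0p]; simp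
        have q3 : p 3 = 0 := by rw [← ht0p]; simp
        have hle0 := cz_le.1 ((hmT t0).1 (hT₂T ht0)).1
        have hp : Le 0 p := by
          rw [cz_le]
          intro i
          fin_cases i
          · show p 0 = 0 ∨ p 0 = 1 ∨ p 0 = -1
            rw [q0]; exact hle0 0
          · show p 1 = 0 ∨ p 1 = 1 ∨ p 1 = -1
            rw [q1]; exact hle0 1
          · exact Or.inl q2
          · exact Or.inl q3
        have hpne : ¬ (p 0 = 0 ∧ p 1 = 0) := by
          rw [q0, q1]
          exact (Finset.mem_filter.1 ht0).2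
        have hm := mono_zero h ha q2 q3 hp
        have hring := ring_lacy hζ hu (a := a) hp (i := 2) (j := 3) (by decide)
          (by rw [q2]; rfl) (by rw [q3]; rfl) hm
        unfold LAcy at hring
        rw [cz_up, cz_sh] at hring
        have hseteq : T₂.filter (fun t => (fun i : Fin 4 => if i = 0 ∨ i = 1 then t i else 0) = p) =
            ringT p 2 3 := by
          have hmem : ∀ t : Cell, t ∈ T₂.filter
              (fun t => (fun i : Fin 4 => if i = 0 ∨ i = 1 then t i else 0) = p) ↔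
              t 0 = p 0 ∧ t 1 = p 1 ∧ (t 2 = 0 ∨ t 2 = 1 ∨ t 2 = -1) ∧
              (t 3 = 0 ∨ t 3 = 1 ∨ t 3 = -1) ∧ ¬ (t 2 = 0 ∧ t 3 = 0) := by
            intro t
            rw [Finset.mem_filter, hT₂, Finset.mem_filter, hmT, cz_le]
            constructor
            · rintro ⟨⟨⟨h4, h5⟩, h6⟩, h7⟩
              refine ⟨?_, ?_, h4 2, h4 3, h5⟩
              · rw [← h7]; simp
              · rw [← h7]; simp
            · rintro ⟨h4, h5, h6, h7, h8⟩
              refine ⟨⟨⟨?_, h8⟩, ?_⟩, ?_⟩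
              · intro i
                fin_cases i
                · show t 0 = 0 ∨ t 0 = 1 ∨ t 0 = -1
                  rw [h4]; exact cz_le.1 hp 0
                · show t 1 = 0 ∨ t 1 = 1 ∨ t 1 = -1
                  rw [h5]; exact cz_le.1 hp 1
                · exact h6
                · exact h7
              · rw [h4, h5]; exact hpne
              · funext i
                fin_cases i
                · simpa using h4
                · simpa using h5
                · simpa using q2.symm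
                · simpa using q3.symm
          have hcoord : ∀ t u : Cell, t = u ↔ t 0 = u 0 ∧ t 1 = u 1 ∧ t 2 = u 2 ∧ t 3 = u 3 := by
            intro t u
            constructor
            · rintro rfl; exact ⟨rfl, rfl, rfl, rfl⟩
            · rintro ⟨h0, h1, h2, h3⟩
              funext i
              fin_cases i
              · exact h0
              · exact h1
              · exact h2
              · exact h3
          ext t
          rw [hmem]
          unfold ringT
          simp only [Finset.mem_insert, Finset.mem_singleton, hcoord t]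
          simp only [Pi.add_apply, Pi.sub_apply, e, Pi.single_apply, q2, q3]
          simp only [Fin.isValue, Fin.reduceEq, if_false, if_true, add_zero, sub_zero, zero_add,
            zero_sub]
          generalize t 0 = t0
          generalize t 1 = t1
          generalize t 2 = t2
          generalize t 3 = t3
          constructor
          · rintro ⟨h4, h5, h6 | h6 | h6, h7 | h7 | h7, h8⟩
            · exact absurd ⟨h6, h7⟩ h8
            all_goals simp [h4, h5, h6, h7]
          · rintro (⟨h4, h5, h6, h7⟩ | ⟨h4, h5, h6, h7⟩ | ⟨h4, h5, h6, h7⟩ | ⟨h4, h5, h6, h7⟩ |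
              ⟨h4, h5, h6, h7⟩ | ⟨h4, h5, h6, h7⟩ | ⟨h4, h5, h6, h7⟩ | ⟨h4, h5, h6, h7⟩)
            all_goals simp [h4, h5, h6, h7]
        rw [hseteq]
        exact hring

end Cub
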