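import Pool.Agent.H33.CB.CzFib
import Pool.Agent.H33.CB.CzZero

/-!
# M3: cleanness

PROOF.  `A = {y ∈ Box 2n | car 2 y ∉ F, low y ∈ F}`, `D = dcoef ζ (suba 2 a)`.  `A₀ = {y ∈ A | low y = 0}`, `A₁ = {y ∈ A | low y ≠ 0}`; `A₁` is a subcomplex
(an arrow can only enlarge `low`).  `acy_split` for `dq D` on `pos A = pos A₁ ∪ pos A₀`: `pos A₀` is `zero_acy`.  `pos A₁`: `acy_filq` with `k = low`, `h p = - dim p`
(`low_neg`, `fct_cases`), `k a ≠ - k a` because `low a ≠ 0`; fibres: `fib_eq_up`, `acy_of_lacy`, `fib_lacy`.  `IsCx` by `conv_low'` and `flat_suba`.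
-/

namespace Cub

variable {R : Type} [CommRing R]

theorem thmM3 {n : Fin 4 → ℕ} {F B : Finset Cell} (h : GoodDisc n F B) {ζ : R}
    (hζ : ζ ^ 2 + ζ + 1 = 0) (hu : IsUnit (1 - ζ)) {a : Cell → Cell → ZMod 3} (ha : LocSys n F a) :
    Acy (dq (dcoef ζ (suba 2 a)))
      (pos ((Box (fun i => 2 * n i)).filter (fun y => car 2 y ∉ F ∧ low y ∈ F))) := by
  have h3 : ζ ^ 3 = 1 := by linear_combination (ζ - 1) * hζ
  have hF : IsComplex F := h.surf.cx
  have h0F : (0 : Cell) ∈ F := (h.flat 0 (fun i => Or.inl rfl)).2 ⟨rfl, rfl⟩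
  have hFn : ∀ {y : Cell}, y ∈ F ↔ -y ∈ F := by
    intro y
    exact ⟨fun hy => h.symm y hy, fun hy => by have := h.symm _ hy; rwa [neg_neg] at this⟩
  have hbn : ∀ {y : Cell}, y ∈ Box (fun i => 2 * n i) ↔ -y ∈ Box (fun i => 2 * n i) := by
    intro y
    rw [mem_box, mem_box]
    refine forall_congr' fun i => ?_
    rw [Pi.neg_apply]
    omega
  have hlow0 : low 0 = 0 := by
    have h1 := low_neg 0
    rw [neg_zero] at h1
    funext i
    have h2 := congrFun h1 i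
    rw [Pi.neg_apply] at h2
    rw [Pi.zero_apply]
    omega
  have hself : ∀ {p : Cell}, p = -p → p = 0 := by
    intro p hp
    funext i
    have h2 := congrFun hp i
    rw [Pi.neg_apply] at h2
    rw [Pi.zero_apply]
    omega
  -- the three index sets
  obtain ⟨A, hA⟩ : ∃ A : Finset Cell, A = (Box (fun i => 2 * n i)).filter
    (fun y => car 2 y ∉ F ∧ low y ∈ F) := ⟨_, rfl⟩
  obtain ⟨A₀, hA₀⟩ : ∃ A₀ : Finset Cell, A₀ = (Box (fun i => 2 * n i)).filter
    (fun y => car 2 y ∉ F ∧ low y = 0) := ⟨_, rfl⟩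
  obtain ⟨A₁, hA₁⟩ : ∃ A₁ : Finset Cell, A₁ = A.filter (fun y => low y ≠ 0) := ⟨_, rfl⟩
  have mA : ∀ {y : Cell}, y ∈ A ↔ y ∈ Box (fun i => 2 * n i) ∧ car 2 y ∉ F ∧ low y ∈ F := by
    intro y; rw [hA, Finset.mem_filter]
  have mA₀ : ∀ {y : Cell}, y ∈ A₀ ↔ y ∈ Box (fun i => 2 * n i) ∧ car 2 y ∉ F ∧ low y = 0 := by
    intro y; rw [hA₀, Finset.mem_filter]
  have mA₁ : ∀ {y : Cell}, y ∈ A₁ ↔ y ∈ A ∧ low y ≠ 0 := by
    intro y; rw [hA₁, Finset.mem_filter]
  have hun : A₁ ∪ A₀ = A := by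
    ext y
    rw [Finset.mem_union, mA₁, mA₀, mA]
    constructor
    · rintro (h1 | ⟨h1, h2, h4⟩)
      · exact h1.1
      · exact ⟨h1, h2, by rw [h4]; exact h0F⟩
    · intro h1
      by_cases h2 : low y = 0
      · exact Or.inr ⟨h1.1, h1.2.1, h2⟩
      · exact Or.inl ⟨h1, h2⟩
  have hdj : Disjoint A₁ A₀ := by
    rw [Finset.disjoint_left]
    intro y h1 h2
    exact (mA₁.1 h1).2 (mA₀.1 h2).2.2
  have hnA : ∀ {y : Cell}, y ∈ A → -y ∈ A := by
    intro y hy
    rw [mA] at hy ⊢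
    rw [car_neg (by norm_num), low_neg]
    exact ⟨hbn.1 hy.1, fun h1 => hy.2.1 (hFn.2 h1), hFn.1 hy.2.2⟩
  have hsA : Sym A := fun y hy => hnA hy
  have hsA₁ : Sym A₁ := by
    intro y hy
    rw [mA₁] at hy ⊢
    refine ⟨hnA hy.1, fun h1 => hy.2 ?_⟩
    rw [low_neg] at h1
    exact neg_eq_zero.1 h1
  have h0A : (0 : Cell) ∉ A := by
    intro h1
    apply (mA.1 h1).2.1
    have h2 : car 2 (0 : Cell) = 0 := by
      funext i
      simp [car]
    rw [h2]
    exact h0F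
  have h0A₁ : (0 : Cell) ∉ A₁ := fun h1 => h0A (mA₁.1 h1).1
  -- the complex
  have hconv : Conv A := by rw [hA]; exact conv_low' hF
  have hflat : Flat (suba 2 a) A := by
    refine flat_mono ?_ (flat_suba (n := n) (m := 2) (by norm_num)
      (conv_sdiff (isComplex_box n) hF) ha.flat)
    intro y hy
    rw [mem_fine (by norm_num) Finset.sdiff_subset, Finset.mem_sdiff]
    exact ⟨(car_box (by norm_num)).1 (mA.1 hy).1, (mA.1 hy).2.1⟩
  have hcx : IsCx (dcoef ζ (suba 2 a)) A := isCx_dcoef h3 hconv hflat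
  have hsym : SymM (dcoef ζ (suba 2 a)) := symM_dcoef (symA_suba (by norm_num) ha.symm)
  -- no arrows from `A₁` to cells with `low = 0`
  have harr : ∀ y ∈ A₁, ∀ z, low z = 0 → dcoef ζ (suba 2 a) y z = 0 := by
    intro y hy z hz
    by_contra hne
    obtain ⟨i, hi⟩ := fct_of_dcoef hne
    rcases fct_cases hi with ⟨-, h1⟩ | ⟨h1, -⟩
    · rw [hz] at h1
      have h2 := h1.1
      rw [Pi.zero_apply] at h2
      omega
    · exact (mA₁.1 hy).2 (by rw [← h1, hz])
  have harr' : ∀ y ∈ A₁, ∀ z ∈ A₀, dcoef ζ (suba 2 a) y z = 0 := fun y hy z hz =>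
    harr y hy z (mA₀.1 hz).2.2
  have hcx₁ : IsCx (dcoef ζ (suba 2 a)) A₁ :=
    isCx_left (B₂ := A₀) (by rw [hun]; exact hcx) harr' hdj
  -- the part with `low ≠ 0`
  have hacy₁ : Acy (dq (dcoef ζ (suba 2 a))) (pos A₁) := by
    refine acy_filq hsA₁ (sec_pos hsA₁ h0A₁) hsym hcx₁ low (fun p => -(dim p : ℤ)) low_neg
      (fun p => by rw [dim_neg]) (fun y hy hy' => (mA₁.1 hy).2 (hself hy')) ?_ ?_
    · intro y _ z _ hne
      obtain ⟨i, hi⟩ := fct_of_dcoef hne
      rcases fct_cases hi with ⟨-, h1⟩ | ⟨h1, -⟩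
      · right
        have h2 := dim_of_fct h1
        show -(dim (low z) : ℤ) < -(dim (low y) : ℤ)
        omega
      · exact Or.inl h1
    · intro p
      by_cases hp : p ∈ F ∧ p ≠ 0
      · have e1 : A₁.filter (fun y => low y = p) = up p (upF n F p) := by
          rw [← fib_eq_up hp.1 (h.sub hp.1), ← hA]
          ext y
          rw [Finset.mem_filter, Finset.mem_filter, mA₁]
          constructor
          · rintro ⟨⟨h1, -⟩, h2⟩
            exact ⟨h1, h2⟩
          · rintro ⟨h1, h2⟩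
            exact ⟨⟨h1, by rw [h2]; exact hp.2⟩, h2⟩
        rw [e1]
        exact acy_of_lacy (fun t ht => (mem_upF.1 ht).2.1) (fib_lacy h hζ hu ha hp.1)
      · have e1 : A₁.filter (fun y => low y = p) = ∅ := by
          rw [Finset.eq_empty_iff_forall_notMem]
          intro y hy
          rw [Finset.mem_filter, mA₁, mA] at hy
          exact hp ⟨by rw [← hy.2]; exact hy.1.1.2.2, by rw [← hy.2]; exact hy.1.2⟩
        rw [e1]
        intro x _
        refine ⟨x, ?_⟩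
        funext b
        exact absurd b.2 (Finset.notMem_empty _)
  -- the part with `low = 0`
  have hacy₀ : Acy (dq (dcoef ζ (suba 2 a))) (pos A₀) := by
    rw [hA₀]
    exact zero_acy h hζ hu ha
  have hpu : pos A₁ ∪ pos A₀ = pos A := by
    rw [← hun]
    unfold pos
    rw [Finset.filter_union]
  have hpd : Disjoint (pos A₁) (pos A₀) := by
    rw [Finset.disjoint_left]
    intro y h1 h2
    exact (Finset.disjoint_left.1 hdj) (Finset.mem_filter.1 h1).1 (Finset.mem_filter.1 h2).1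
  rw [← hA, ← hpu]
  refine (acy_split (B₁ := pos A₁) (B₂ := pos A₀) ?_ ?_ hpd).1 hacy₁ hacy₀
  · rw [hpu]
    exact isCx_dq hsA (sec_pos hsA h0A) hsym hcx
  · intro y hy z hz
    have hy' := (Finset.mem_filter.1 hy).1
    have hz' := (mA₀.1 (Finset.mem_filter.1 hz).1).2.2
    unfold dq
    rw [harr y hy' z hz', harr y hy' (-z) (by rw [low_neg, hz', neg_zero]), add_zero]

end Cub
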