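import Pool.Agent.H33.CB.Defs

/-!
# T5, step 2: the symmetric averaging of a lattice potential

`V i n` is a cochain on the edges `n → n + e i` of `ℤ⁴` (the points `n` are the top dimensional cells
`2 n + 1` of the cubulation).  `uu V i x` is the transport from the cell `x` to `x + e i`: the sum of `V i` over the
eight lattice edges `n → n + e i`, `n j = ⌊(x j - s j) / 2⌋`, `s i = 1`, `s j ∈ {0, 1}` (it is a quarter or half of an average, and
`4 = 16 = 1` modulo 3; every edge is counted with the right multiplicity).

`uu_curl` PROOF: in `uu V j (x + e i) - uu V j x` split the sum over `s` according to `s i ∈ {0, 1}`.  Since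
`⌊(x i + 1 - 1)/2⌋ = ⌊(x i - 0)/2⌋` the terms `s i = 1` of the first sum cancel against the terms `s i = 0` of the second,
what remains is (for `s i = s j = 1`) `V j (n + e i) - V j n`, because `⌊(x i + 1)/2⌋ = ⌊(x i - 1)/2⌋ + 1`.
-/

namespace Cub

/-- The lattice point next to the cell `x` on the side `s`. -/
def npt (x : Cell) (s : Fin 4 → Fin 2) : Cell := fun j => (x j - (s j).val) / 2

/-- The transport from `x` to `x + e i`. -/
def uu (V : Fin 4 → Cell → ZMod 3) (i : Fin 4) (x : Cell) : ZMod 3 :=
  ∑ s ∈ Finset.univ.filter (fun s : Fin 4 → Fin 2 => s i = 1), V i (npt x s)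

private lemma gc_split (i j : Fin 4) (hij : i ≠ j) (F : (Fin 4 → Fin 2) → ZMod 3) :
    ∑ s ∈ Finset.univ.filter (fun s : Fin 4 → Fin 2 => s j = 1), F s =
      ∑ s ∈ Finset.univ.filter (fun s : Fin 4 → Fin 2 => s i = 1 ∧ s j = 1),
        (F s + F (Function.update s i 0)) := by
  rw [Finset.sum_add_distrib, ← Finset.sum_filter_add_sum_filter_not
    (Finset.univ.filter (fun s : Fin 4 → Fin 2 => s j = 1)) (fun s => s i = 1)]
  congr 1
  · rw [Finset.filter_filter]
    refine Finset.sum_congr ?_ (fun _ _ => rfl)
    ext s
    simp [and_comm]
  · refine Finset.sum_nbij' (fun s => Function.update s i 1) (fun s => Function.update s i 0)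
      ?_ ?_ ?_ ?_ ?_
    · intro s hs
      simp only [Finset.mem_filter, Finset.mem_univ, true_and] at hs ⊢
      refine ⟨by simp, ?_⟩
      rw [Function.update_of_ne hij.symm]; exact hs.1
    · intro s hs
      simp only [Finset.mem_filter, Finset.mem_univ, true_and] at hs ⊢
      refine ⟨?_, by simp⟩
      rw [Function.update_of_ne hij.symm]; exact hs.2
    · intro s hs
      simp only [Finset.mem_filter, Finset.mem_univ, true_and] at hs
      have h0 : s i = 0 := by
        have := hs.2
        omega
      simp only [Function.update_idem]
      rw [← h0, Function.update_eq_self]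
    · intro s hs
      simp only [Finset.mem_filter, Finset.mem_univ, true_and] at hs
      simp only [Function.update_idem]
      rw [← hs.1, Function.update_eq_self]
    · intro s hs
      simp only [Finset.mem_filter, Finset.mem_univ, true_and] at hs
      have h0 : s i = 0 := by
        have := hs.2
        omega
      simp only [Function.update_idem]
      rw [← h0, Function.update_eq_self]

private lemma gc_npt1 (x : Cell) (i : Fin 4) (s : Fin 4 → Fin 2) (hs : s i = 1) :
    npt (x + e i) s = npt x (Function.update s i 0) := by
  funext l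
  by_cases hl : l = i
  · subst hl
    simp [npt, e, hs]
  · simp [npt, e, hl]

private lemma gc_npt2 (x : Cell) (i : Fin 4) (s : Fin 4 → Fin 2) (hs : s i = 1) :
    npt (x + e i) (Function.update s i 0) = npt x s + e i := by
  funext l
  by_cases hl : l = i
  · subst hl
    simp [npt, e, hs]
    omega
  · simp [npt, e, hl]

private lemma gc_diff (V : Fin 4 → Cell → ZMod 3) (i j : Fin 4) (hij : i ≠ j) (x : Cell) :
    uu V j (x + e i) - uu V j x =
      ∑ s ∈ Finset.univ.filter (fun s : Fin 4 → Fin 2 => s i = 1 ∧ s j = 1),
        (V j (npt x s + e i) - V j (npt x s)) := by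
  unfold uu
  rw [gc_split i j hij, gc_split i j hij, ← Finset.sum_sub_distrib]
  refine Finset.sum_congr rfl ?_
  intro s hs
  simp only [Finset.mem_filter, Finset.mem_univ, true_and] at hs
  rw [gc_npt1 x i s hs.1, gc_npt2 x i s hs.1]
  ring

/-- The curvature of `uu V` is the average of the curvature of `V`. -/
theorem uu_curl (V : Fin 4 → Cell → ZMod 3) (i j : Fin 4) (hij : i ≠ j) (x : Cell) :
    uu V i x + uu V j (x + e i) - uu V j x - uu V i (x + e j) =
      ∑ s ∈ Finset.univ.filter (fun s : Fin 4 → Fin 2 => s i = 1 ∧ s j = 1),
        ((V j (npt x s + e i) - V j (npt x s)) - (V i (npt x s + e j) - V i (npt x s))) := by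
  rw [Finset.sum_sub_distrib, ← gc_diff V i j hij x]
  have h := gc_diff V j i hij.symm x
  have h2 : Finset.univ.filter (fun s : Fin 4 → Fin 2 => s i = 1 ∧ s j = 1)
      = Finset.univ.filter (fun s : Fin 4 → Fin 2 => s j = 1 ∧ s i = 1) := by
    ext s; simp [and_comm]
  rw [h2, ← h]
  ring

/-- The local system of a transport `u` (`u i x` is the transport from `x` to `x + e i`). -/
def conn (u : Fin 4 → Cell → ZMod 3) (c c' : Cell) : ZMod 3 :=
  ∑ i, if c' = c + e i then u i c else if c' = c - e i then - u i c' else 0

private lemma gc_e_inj {i l : Fin 4} (h : e i = e l) : l = i := by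
  have h1 := congrFun h i
  by_contra hne
  have hne' : i ≠ l := fun h' => hne h'.symm
  simp [e, hne'] at h1

private lemma gc_e_neg {i l : Fin 4} (h : e i = - e l) : False := by
  have h1 := congrFun h i
  simp only [e, Pi.single_apply, Pi.neg_apply] at h1
  split_ifs at h1 <;> simp at h1

lemma conn_add (u : Fin 4 → Cell → ZMod 3) (c : Cell) (i : Fin 4) :
    conn u c (c + e i) = u i c := by
  unfold conn
  rw [Finset.sum_eq_single i]
  · simp
  · intro l _ hl
    rw [if_neg, if_neg]
    · intro h
      refine gc_e_neg (i := i) (l := l) ?_
      have : c + e i = c + (- e l) := by rw [h]; abel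
      exact add_left_cancel this
    · intro h
      exact hl (gc_e_inj (add_left_cancel h))
  · intro h; exact absurd (Finset.mem_univ i) h

lemma conn_sub (u : Fin 4 → Cell → ZMod 3) (c : Cell) (i : Fin 4) :
    conn u c (c - e i) = - u i (c - e i) := by
  unfold conn
  have hne : ∀ l : Fin 4, ¬ (c - e i = c + e l) := by
    intro l h
    refine gc_e_neg (i := l) (l := i) ?_
    have : c + e l = c + (- e i) := by rw [← h]; abel
    exact add_left_cancel this
  rw [Finset.sum_eq_single i]
  · rw [if_neg (hne i), if_pos rfl]
  · intro l _ hl
    rw [if_neg (hne l), if_neg]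
    intro h
    exact hl (gc_e_inj (sub_right_injective h))
  · intro h; exact absurd (Finset.mem_univ i) h

private lemma gc_add (u : Fin 4 → Cell → ZMod 3) (c c' : Cell) (i : Fin 4) (h : c' = c + e i) :
    conn u c c' = u i c := by
  rw [h, conn_add]

private lemma gc_sub (u : Fin 4 → Cell → ZMod 3) (c c' : Cell) (i : Fin 4) (h : c' = c - e i) :
    conn u c c' = - u i c' := by
  rw [h, conn_sub]

/-- Flatness of `conn u` on a square of cells follows from the vanishing of the curvature at its lowest
corner (four cases `s, t = ± 1`, use `conn_add`, `conn_sub`; for `s = -1` the corner is `c - e i` and so on). -/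
theorem conn_flat (u : Fin 4 → Cell → ZMod 3) (c : Cell) (i j : Fin 4) (hij : i ≠ j) (s t : ℤ)
    (hs : s = 1 ∨ s = -1) (ht : t = 1 ∨ t = -1)
    (h : ∀ x : Cell, x = (fun l => min (c l) ((c + s • e i + t • e j) l)) →
      u i x + u j (x + e i) - u j x - u i (x + e j) = 0) :
    conn u c (c + s • e i) + conn u (c + s • e i) (c + s • e i + t • e j) =
      conn u c (c + t • e j) + conn u (c + t • e j) (c + s • e i + t • e j) := by
  have hi : ∀ l : Fin 4, e i l = if l = i then 1 else 0 := fun l => by simp [e, Pi.single_apply]
  have hj : ∀ l : Fin 4, e j l = if l = j then 1 else 0 := fun l => by simp [e, Pi.single_apply]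
  rcases hs with rfl | rfl <;> rcases ht with rfl | rfl
  · have h1 := h c (by
      funext l
      simp only [Pi.add_apply, Pi.smul_apply, hi, hj, smul_eq_mul]
      split_ifs <;> omega)
    simp only [one_smul]
    rw [conn_add, conn_add, conn_add, gc_add u (c + e j) (c + e i + e j) i (by abel)]
    linear_combination h1
  · have h1 := h (c - e j) (by
      funext l
      simp only [Pi.add_apply, Pi.sub_apply, Pi.smul_apply, hi, hj, smul_eq_mul]
      split_ifs <;> first | omega | (exfalso; apply hij; simp_all))
    simp only [one_smul, neg_smul]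
    rw [conn_add, gc_sub u (c + e i) (c + e i + - e j) j (by abel),
      gc_sub u c (c + - e j) j (by abel), gc_add u (c + - e j) (c + e i + - e j) i (by abel)]
    have e1 : c - e j + e i = c + e i + - e j := by abel
    have e2 : c - e j + e j = c := by abel
    have e3 : c - e j = c + - e j := by abel
    rw [e1, e2, e3] at h1
    linear_combination -h1
  · have h1 := h (c - e i) (by
      funext l
      simp only [Pi.add_apply, Pi.sub_apply, Pi.smul_apply, hi, hj, smul_eq_mul]
      split_ifs <;> first | omega | (exfalso; apply hij; simp_all))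
    simp only [one_smul, neg_smul]
    rw [gc_sub u c (c + - e i) i (by abel), conn_add, conn_add,
      gc_sub u (c + e j) (c + - e i + e j) i (by abel)]
    have e1 : c - e i + e i = c := by abel
    have e2 : c - e i = c + - e i := by abel
    rw [e1, e2] at h1
    linear_combination -h1
  · have h1 := h (c - e i - e j) (by
      funext l
      simp only [Pi.add_apply, Pi.sub_apply, Pi.smul_apply, hi, hj, smul_eq_mul]
      split_ifs <;> first | omega | (exfalso; apply hij; simp_all))
    simp only [neg_smul, one_smul]
    rw [gc_sub u c (c + - e i) i (by abel), gc_sub u (c + - e i) (c + - e i + - e j) j (by abel),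
      gc_sub u c (c + - e j) j (by abel), gc_sub u (c + - e j) (c + - e i + - e j) i (by abel)]
    have e1 : c - e i - e j + e i = c + - e j := by abel
    have e2 : c - e i - e j + e j = c + - e i := by abel
    have e3 : c - e i - e j = c + - e i + - e j := by abel
    rw [e1, e2, e3] at h1
    linear_combination h1

/-- The monodromy is minus the sum of the curvatures of the four squares around `q`. -/
theorem conn_mono (u : Fin 4 → Cell → ZMod 3) (q : Cell) (i j : Fin 4) (hij : i ≠ j) :
    mono (conn u) q i j =
      - ((u i q + u j (q + e i) - u j q - u i (q + e j)) +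
        (u i (q - e i) + u j (q - e i + e i) - u j (q - e i) - u i (q - e i + e j)) +
        (u i (q - e j) + u j (q - e j + e i) - u j (q - e j) - u i (q - e j + e j)) +
        (u i (q - e i - e j) + u j (q - e i - e j + e i) - u j (q - e i - e j) -
          u i (q - e i - e j + e j))) := by
  unfold mono
  rw [gc_sub u (q + e i + e j) (q + e i) j (by abel),
    gc_add u (q + e i - e j) (q + e i) j (by abel),
    gc_sub u (q + e i - e j) (q - e j) i (by abel),
    gc_add u (q - e i - e j) (q - e j) i (by abel),
    gc_add u (q - e i - e j) (q - e i) j (by abel),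
    gc_sub u (q - e i + e j) (q - e i) j (by abel),
    gc_add u (q - e i + e j) (q + e j) i (by abel),
    gc_sub u (q + e i + e j) (q + e j) i (by abel)]
  have e1 : q - e i + e i = q := by abel
  have e2 : q - e j + e j = q := by abel
  have e3 : q - e j + e i = q + e i - e j := by abel
  have e4 : q - e i - e j + e i = q - e j := by abel
  have e5 : q - e i - e j + e j = q - e i := by abel
  rw [e1, e2, e3, e4, e5]
  ring

end Cub
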