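import Pool.Agent.H33.CB.MzBasic

/-!
# T5, step 3: extension of the orientation cochain to the whole lattice

`w` is a function on the squares of `Box n` with the cycle condition at the interior edges (in the convention
with plus signs).  `oddclamp n p` clamps the ODD coordinates of `p` to `[-(2 n j - 1), 2 n j - 1]`.  `wstd n w p` is zero if an even
coordinate of `p` is extremal (`2 n j ≤ |p j|`), otherwise `lam p' * w p'`, `p' = oddclamp n p` (usual sign convention).  `omg n w i j m` is, up
to the sign `(-1)^(i + j + 1)`, the value of `wstd` at the square with even coordinates `i`, `j` which is dual to the lattice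
square at the point `m` in the directions `i`, `j`.

`omg_closed` PROOF.  `i < j < k`, `l` the fourth direction; `c` = the edge with `c x = 2 m x + 2` for `x ≠ l`, `c l = 2 m l + 1`.  The
six squares are `c ± e i`, `c ± e j`, `c ± e k`.
* If two of the even coordinates of `c` are extremal (`2 n x ≤ |c x|`) then all six terms vanish.
* If exactly one, say `x`, is extremal then only `c ± e x` count and `oddclamp` is the same for both, the difference is zero.
* If none is extremal: `c' = oddclamp n c` is an edge in `inn n`, `oddclamp (c ± e x) = c' ± e x`, and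
  `lam (c' + e x) = - lam c'`, `lam (c' - e x) = lam c'` for `c' x` even (`lam_add`, `lam_sub` applied to `c' ± e x`), so
  the difference for `x` is `- lam c' * (w (c' + e x) + w (c' - e x))`; the condition `hwc` at `c'` is
  `∑ x ≠ l, sgn x c' * (w (c' + e x) + w (c' - e x)) = 0` (all squares around `c'` are in the box), `sgn x c' = -1` if `l < x` and `1`
  otherwise.  For `l = 0, 1, 2, 3` compare with the signs `(-1)^(j+k+1), -(-1)^(i+k+1), (-1)^(i+j+1)`: they are proportional.
-/

namespace Cub

/-- Clamp the odd coordinates. -/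
def oddclamp (n : Fin 4 → ℕ) (p : Cell) : Cell := fun j =>
  if p j % 2 = 1 then max (-(2 * (n j : ℤ) - 1)) (min (2 * (n j : ℤ) - 1) (p j)) else p j

open Classical in
/-- The extended cochain in the usual sign convention. -/
noncomputable def wstd (n : Fin 4 → ℕ) (w : Cell → ZMod 3) (p : Cell) : ZMod 3 :=
  if ∃ j, p j % 2 = 0 ∧ 2 * (n j : ℤ) ≤ |p j| then 0
  else (lam (oddclamp n p) : ZMod 3) * w (oddclamp n p)

/-- The square dual to the lattice square at `m` in the directions `i`, `j`. -/
def dsq (i j : Fin 4) (m : Cell) : Cell := fun l => 2 * m l + 1 + (if l = i ∨ l = j then 1 else 0)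

/-- The closed two-cochain on the lattice. -/
noncomputable def omg (n : Fin 4 → ℕ) (w : Cell → ZMod 3) (i j : Fin 4) (m : Cell) : ZMod 3 :=
  (-1) ^ (i.val + j.val + 1) * wstd n w (dsq i j m)

private theorem GzExt_e_self (i : Fin 4) : e i i = 1 := by simp [e]

private theorem GzExt_e_ne {i j : Fin 4} (h : j ≠ i) : e i j = 0 := by simp [e, h]

/-- Two extremal even coordinates. -/
private theorem GzExt_wstd_ext {n : Fin 4 → ℕ} {w : Cell → ZMod 3} {p : Cell} {j : Fin 4}
    (h : p j % 2 = 0) (h' : 2 * (n j : ℤ) ≤ |p j|) : wstd n w p = 0 := by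
  unfold wstd
  exact if_pos ⟨j, h, h'⟩

private theorem GzExt_wstd_int {n : Fin 4 → ℕ} {w : Cell → ZMod 3} {p : Cell}
    (h : ∀ j, p j % 2 = 0 → |p j| < 2 * (n j : ℤ)) :
    wstd n w p = (lam (oddclamp n p) : ZMod 3) * w (oddclamp n p) := by
  unfold wstd
  refine if_neg ?_
  rintro ⟨j, hj, hj'⟩
  exact absurd (h j hj) (not_lt.2 hj')

private theorem GzExt_edge {n : Fin 4 → ℕ} (hn : ∀ i, 1 ≤ n i) {w : Cell → ZMod 3}
    (hwc : ∀ c ∈ inn n, dim c = 1 → ∑ q ∈ Box n, w q * (inc q c : ZMod 3) = 0)
    (c : Cell) (l : Fin 4) (hl : c l % 2 = 1) (hc : ∀ x, x ≠ l → c x % 2 = 0) :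
    ∑ x, (if x = l then 0 else ((sgn x c : ℤ) : ZMod 3) *
      (wstd n w (c + e x) - wstd n w (c - e x))) = 0 := by
  by_cases hex : ∃ x, x ≠ l ∧ 2 * (n x : ℤ) ≤ |c x|
  · -- every term vanishes
    obtain ⟨x, hxl, hx⟩ := hex
    refine Finset.sum_eq_zero fun z _ => ?_
    split_ifs with hzl
    · rfl
    by_cases hzx : z = x
    · subst hzx
      -- is there another extremal coordinate?
      have hn' := hn z
      have hcz := hc z hzl
      have e1 : (c + e z) z = c z + 1 := by simp [GzExt_e_self]
      have e2 : (c - e z) z = c z - 1 := by simp [GzExt_e_self]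
      have e3 : ∀ y, y ≠ z → (c + e z) y = c y := fun y hy => by simp [GzExt_e_ne hy]
      have e4 : ∀ y, y ≠ z → (c - e z) y = c y := fun y hy => by simp [GzExt_e_ne hy]
      have hclamp : oddclamp n (c + e z) = oddclamp n (c - e z) := by
        funext y
        unfold oddclamp
        by_cases hy : y = z
        · subst hy
          rw [e1, e2]
          rw [if_pos (by omega), if_pos (by omega)]
          rcases abs_cases (c y) with h | h <;> omega
        · rw [e3 y hy, e4 y hy]
      have hcond : (∃ j, (c + e z) j % 2 = 0 ∧ 2 * (n j : ℤ) ≤ |(c + e z) j|) ↔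
          (∃ j, (c - e z) j % 2 = 0 ∧ 2 * (n j : ℤ) ≤ |(c - e z) j|) := by
        constructor
        · rintro ⟨j, h1, h2⟩
          have hj : j ≠ z := by
            rintro rfl
            rw [e1] at h1
            omega
          refine ⟨j, ?_, ?_⟩
          · rw [e4 j hj]; rw [e3 j hj] at h1; exact h1
          · rw [e4 j hj]; rw [e3 j hj] at h2; exact h2
        · rintro ⟨j, h1, h2⟩
          have hj : j ≠ z := by
            rintro rfl
            rw [e2] at h1
            omega
          refine ⟨j, ?_, ?_⟩
          · rw [e3 j hj]; rw [e4 j hj] at h1; exact h1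
          · rw [e3 j hj]; rw [e4 j hj] at h2; exact h2
      have : wstd n w (c + e z) = wstd n w (c - e z) := by
        unfold wstd
        rw [hclamp]
        by_cases h : ∃ j, (c + e z) j % 2 = 0 ∧ 2 * (n j : ℤ) ≤ |(c + e z) j|
        · rw [if_pos h, if_pos (hcond.1 h)]
        · rw [if_neg h, if_neg (fun h' => h (hcond.2 h'))]
      rw [this, sub_self, mul_zero]
    · have hxz : x ≠ z := fun h => hzx h.symm
      have e1 : (c + e z) x = c x := by simp [GzExt_e_ne hxz]
      have e2 : (c - e z) x = c x := by simp [GzExt_e_ne hxz]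
      rw [GzExt_wstd_ext (j := x) (by rw [e1]; exact hc x hxl) (by rw [e1]; exact hx),
        GzExt_wstd_ext (j := x) (by rw [e2]; exact hc x hxl) (by rw [e2]; exact hx)]
      simp
  · -- no extremal coordinate
    have hint : ∀ x, x ≠ l → |c x| < 2 * (n x : ℤ) := by
      intro x hx
      by_contra h
      exact hex ⟨x, hx, not_lt.1 h⟩
    have hb : ∀ x, x ≠ l → -(2 * (n x : ℤ)) + 2 ≤ c x ∧ c x ≤ 2 * (n x : ℤ) - 2 := by
      intro x hx
      have h1 := abs_lt.1 (hint x hx)
      have h2 := hc x hx
      omega
    set c' := oddclamp n c with hc'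
    have hcl : c' l % 2 = 1 ∧ -(2 * (n l : ℤ)) + 1 ≤ c' l ∧ c' l ≤ 2 * (n l : ℤ) - 1 := by
      have h1 := hn l
      rw [hc']
      unfold oddclamp
      rw [if_pos hl]
      omega
    have hcx : ∀ x, x ≠ l → c' x = c x := by
      intro x hx
      rw [hc']
      unfold oddclamp
      rw [if_neg (by have := hc x hx; omega)]
    have hbox : ∀ p : Cell, (∀ x, -(2 * (n x : ℤ)) ≤ p x ∧ p x ≤ 2 * (n x : ℤ)) → p ∈ Box n := by
      intro p hp
      unfold Box
      rw [Fintype.mem_piFinset]
      intro x
      rw [Finset.mem_Icc]
      exact hp x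
    have hinn : c' ∈ inn n := by
      unfold inn
      rw [Finset.mem_sdiff]
      refine ⟨hbox _ fun x => ?_, ?_⟩
      · by_cases hx : x = l
        · subst hx; omega
        · have := hb x hx; rw [hcx x hx]; omega
      · unfold bd
        rw [Finset.mem_filter]
        rintro ⟨_, x, hx⟩
        by_cases hxl : x = l
        · subst hxl; omega
        · have := hb x hxl; rw [hcx x hxl] at hx; omega
    have hdim : dim c' = 1 := by
      unfold dim
      rw [Finset.card_eq_one]
      refine ⟨l, ?_⟩
      ext x
      simp only [Finset.mem_filter, Finset.mem_univ, true_and, Finset.mem_singleton]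
      constructor
      · intro h
        by_contra hx
        rw [hcx x hx] at h
        have := hc x hx
        omega
      · rintro rfl
        exact hcl.1
    have hk := hwc c' hinn hdim
    have hk2 := sum_mul_dcoef (R := ZMod 3) 1 (fun _ _ => 0) (Box n) c' w
    have hk3 : ∑ b ∈ Box n, w b * dcoef (1 : ZMod 3) (fun _ _ => 0) b c' = 0 := by
      refine Eq.trans (Finset.sum_congr rfl fun b _ => ?_) hk
      unfold dcoef
      rw [zp_zero, mul_one]
    rw [hk3] at hk2
    have hterm : ∀ x, (if x = l then (0 : ZMod 3) else ((sgn x c : ℤ) : ZMod 3) *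
        (wstd n w (c + e x) - wstd n w (c - e x))) =
        - (lam c' : ZMod 3) * (if c' x % 2 = 0 then ((sgn x c' : ℤ) : ZMod 3) *
        ((if c' + e x ∈ Box n then w (c' + e x) * zp (1 : ZMod 3) 0 else 0) +
         (if c' - e x ∈ Box n then w (c' - e x) * zp (1 : ZMod 3) 0 else 0)) else 0) := by
      intro x
      by_cases hx : x = l
      · subst hx
        rw [if_pos rfl, if_neg (by omega), mul_zero]
      · have hcx0 : c' x % 2 = 0 := by rw [hcx x hx]; exact hc x hx
        rw [if_neg hx, if_pos hcx0]
        have hbx := hb x hx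
        have hnl := hn l
        have e1 : (c + e x) x = c x + 1 := by simp [GzExt_e_self]
        have e2 : (c - e x) x = c x - 1 := by simp [GzExt_e_self]
        have e3 : ∀ y, y ≠ x → (c + e x) y = c y := fun y hy => by simp [GzExt_e_ne hy]
        have e4 : ∀ y, y ≠ x → (c - e x) y = c y := fun y hy => by simp [GzExt_e_ne hy]
        have e1' : (c' + e x) x = c' x + 1 := by simp [GzExt_e_self]
        have e2' : (c' - e x) x = c' x - 1 := by simp [GzExt_e_self]
        have e3' : ∀ y, y ≠ x → (c' + e x) y = c' y := fun y hy => by simp [GzExt_e_ne hy]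
        have e4' : ∀ y, y ≠ x → (c' - e x) y = c' y := fun y hy => by simp [GzExt_e_ne hy]
        have b1 : c' + e x ∈ Box n := by
          refine hbox _ fun y => ?_
          by_cases hy : y = x
          · subst hy; rw [e1', hcx y hx]; omega
          · rw [e3' y hy]
            by_cases hyl : y = l
            · subst hyl; omega
            · have := hb y hyl; rw [hcx y hyl]; omega
        have b2 : c' - e x ∈ Box n := by
          refine hbox _ fun y => ?_
          by_cases hy : y = x
          · subst hy; rw [e2', hcx y hx]; omega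
          · rw [e4' y hy]
            by_cases hyl : y = l
            · subst hyl; omega
            · have := hb y hyl; rw [hcx y hyl]; omega
        have o1 : oddclamp n (c + e x) = c' + e x := by
          funext y
          by_cases hy : y = x
          · subst hy
            rw [e1', hcx y hx]
            unfold oddclamp
            have h1 := hc y hx
            rw [e1, if_pos (by omega)]
            omega
          · rw [e3' y hy, hc']
            unfold oddclamp
            rw [e3 y hy]
        have o2 : oddclamp n (c - e x) = c' - e x := by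
          funext y
          by_cases hy : y = x
          · subst hy
            rw [e2', hcx y hx]
            unfold oddclamp
            have h1 := hc y hx
            rw [e2, if_pos (by omega)]
            omega
          · rw [e4' y hy, hc']
            unfold oddclamp
            rw [e4 y hy]
        have w1 : wstd n w (c + e x) = (lam (c' + e x) : ZMod 3) * w (c' + e x) := by
          rw [GzExt_wstd_int, o1]
          intro y hy
          by_cases hyx : y = x
          · subst hyx
            rw [e1] at hy
            have := hc y hx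
            omega
          · rw [e3 y hyx] at hy ⊢
            by_cases hyl : y = l
            · subst hyl; omega
            · exact hint y hyl
        have w2 : wstd n w (c - e x) = (lam (c' - e x) : ZMod 3) * w (c' - e x) := by
          rw [GzExt_wstd_int, o2]
          intro y hy
          by_cases hyx : y = x
          · subst hyx
            rw [e2] at hy
            have := hc y hx
            omega
          · rw [e4 y hyx] at hy ⊢
            by_cases hyl : y = l
            · subst hyl; omega
            · exact hint y hyl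
        have l1 : lam (c' + e x) = - lam c' := by
          have h := lam_sub (c' + e x) x (by rw [e1']; omega)
          rw [add_sub_cancel_right] at h
          rw [h]; ring
        have l2 : lam (c' - e x) = lam c' := by
          have h := lam_add (c' - e x) x (by rw [e2']; omega)
          rw [sub_add_cancel] at h
          exact h.symm
        have hs : sgn x c = sgn x c' := by
          refine sgn_congr x c c' fun j hj => ?_
          by_cases hjl : j = l
          · subst hjl; rw [hl, hcl.1]
          · rw [hcx j hjl]
        rw [w1, w2, l1, l2, if_pos b1, if_pos b2, zp_zero, hs]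
        push_cast
        ring
    rw [Finset.sum_congr rfl fun x _ => hterm x, ← Finset.mul_sum]
    have : ∑ x, (if c' x % 2 = 0 then ((sgn x c' : ℤ) : ZMod 3) *
        ((if c' + e x ∈ Box n then w (c' + e x) * zp (1 : ZMod 3) 0 else 0) +
         (if c' - e x ∈ Box n then w (c' - e x) * zp (1 : ZMod 3) 0 else 0)) else 0) = 0 := by
      exact hk2.symm
    rw [this, mul_zero]

/-- The edge dual to the lattice cube at `m`, orthogonal to `l`. -/
private def GzExt_dedge (l : Fin 4) (m : Cell) : Cell :=
  fun x => 2 * m x + 1 + (if x = l then 0 else 1)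

private theorem GzExt_dsq_add (a b x l : Fin 4) (m : Cell) (hxa : x ≠ a) (hxb : x ≠ b)
    (h : ∀ y, y ≠ x → (y = a ∨ y = b ↔ y ≠ l)) (hxl : x ≠ l) :
    dsq a b (m + e x) = GzExt_dedge l m + e x := by
  funext y
  unfold dsq GzExt_dedge
  by_cases hy : y = x
  · subst hy
    simp [GzExt_e_self, hxa, hxb, hxl]
    ring
  · have h1 := h y hy
    simp only [Pi.add_apply, GzExt_e_ne hy]
    by_cases hyl : y = l
    · rw [if_neg (by rw [h1]; exact fun h => h hyl), if_pos hyl]; ring
    · rw [if_pos (h1.2 hyl), if_neg hyl]; ring

private theorem GzExt_dsq_sub (a b x l : Fin 4) (m : Cell) (hxa : x ≠ a) (hxb : x ≠ b)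
    (h : ∀ y, y ≠ x → (y = a ∨ y = b ↔ y ≠ l)) (hxl : x ≠ l) :
    dsq a b m = GzExt_dedge l m - e x := by
  funext y
  unfold dsq GzExt_dedge
  by_cases hy : y = x
  · subst hy
    simp [GzExt_e_self, hxa, hxb, hxl]
  · have h1 := h y hy
    simp only [Pi.sub_apply, GzExt_e_ne hy]
    by_cases hyl : y = l
    · rw [if_neg (by rw [h1]; exact fun h => h hyl), if_pos hyl]; ring
    · rw [if_pos (h1.2 hyl), if_neg hyl]; ring

private theorem GzExt_sgn (l x : Fin 4) (m : Cell) (hx : x ≠ l) :
    sgn x (GzExt_dedge l m) = if l < x then -1 else 1 := by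
  unfold sgn
  have h1 : Finset.univ.filter (fun j => j < x ∧ GzExt_dedge l m j % 2 = 1) =
      if l < x then {l} else ∅ := by
    ext y
    have h2 : GzExt_dedge l m y % 2 = 1 ↔ y = l := by
      unfold GzExt_dedge
      split_ifs with h
      · exact ⟨fun _ => h, fun _ => by omega⟩
      · exact ⟨fun h' => by omega, fun h' => absurd h' h⟩
    simp only [Finset.mem_filter, Finset.mem_univ, true_and, h2]
    split_ifs with h
    · rw [Finset.mem_singleton]
      exact ⟨fun h' => h'.2, fun h' => ⟨by rw [h']; exact h, h'⟩⟩
    · simp only [Finset.notMem_empty, iff_false]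
      rintro ⟨h3, rfl⟩
      exact h h3
  rw [h1]
  split_ifs <;> simp

private theorem GzExt_omg {n : Fin 4 → ℕ} {w : Cell → ZMod 3} (a b x l : Fin 4) (m : Cell)
    (hxa : x ≠ a) (hxb : x ≠ b) (h : ∀ y, y ≠ x → (y = a ∨ y = b ↔ y ≠ l)) (hxl : x ≠ l) :
    omg n w a b (m + e x) - omg n w a b m = (-1) ^ (a.val + b.val + 1) *
      (wstd n w (GzExt_dedge l m + e x) - wstd n w (GzExt_dedge l m - e x)) := by
  unfold omg
  rw [GzExt_dsq_add a b x l m hxa hxb h hxl, GzExt_dsq_sub a b x l m hxa hxb h hxl]
  ring

theorem omg_closed {n : Fin 4 → ℕ} (hn : ∀ i, 1 ≤ n i) {w : Cell → ZMod 3}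
    (hwc : ∀ c ∈ inn n, dim c = 1 → ∑ q ∈ Box n, w q * (inc q c : ZMod 3) = 0)
    (i j k : Fin 4) (hij : i < j) (hjk : j < k) (m : Cell) :
    (omg n w j k (m + e i) - omg n w j k m) - (omg n w i k (m + e j) - omg n w i k m) +
      (omg n w i j (m + e k) - omg n w i j m) = 0 := by
  have hcase : (i = 0 ∧ j = 1 ∧ k = 2) ∨ (i = 0 ∧ j = 1 ∧ k = 3) ∨ (i = 0 ∧ j = 2 ∧ k = 3) ∨
      (i = 1 ∧ j = 2 ∧ k = 3) := by
    clear hwc
    revert i j k
    decide
  have hE : ∀ l : Fin 4, ∑ x, (if x = l then 0 else ((sgn x (GzExt_dedge l m) : ℤ) : ZMod 3) *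
      (wstd n w (GzExt_dedge l m + e x) - wstd n w (GzExt_dedge l m - e x))) = 0 := fun l =>
    GzExt_edge hn hwc (GzExt_dedge l m) l
      (by unfold GzExt_dedge; rw [if_pos rfl]; omega)
      (by intro x hx; unfold GzExt_dedge; rw [if_neg hx]; omega)
  rcases hcase with ⟨rfl, rfl, rfl⟩ | ⟨rfl, rfl, rfl⟩ | ⟨rfl, rfl, rfl⟩ | ⟨rfl, rfl, rfl⟩
  · have h := hE 3
    rw [Fin.sum_univ_four, if_neg (by decide), if_neg (by decide), if_neg (by decide), if_pos rfl,
      GzExt_sgn 3 0 m (by decide), GzExt_sgn 3 1 m (by decide), GzExt_sgn 3 2 m (by decide),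
      if_neg (by decide), if_neg (by decide), if_neg (by decide)] at h
    rw [GzExt_omg 1 2 0 3 m (by decide) (by decide) (by decide) (by decide),
      GzExt_omg 0 2 1 3 m (by decide) (by decide) (by decide) (by decide),
      GzExt_omg 0 1 2 3 m (by decide) (by decide) (by decide) (by decide)]
    push_cast at h
    simp only [Fin.val_zero, Fin.val_one, Fin.val_two]
    linear_combination h
  · have h := hE 2
    rw [Fin.sum_univ_four, if_neg (by decide), if_neg (by decide), if_pos rfl, if_neg (by decide),
      GzExt_sgn 2 0 m (by decide), GzExt_sgn 2 1 m (by decide), GzExt_sgn 2 3 m (by decide),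
      if_neg (by decide), if_neg (by decide), if_pos (by decide)] at h
    rw [GzExt_omg 1 3 0 2 m (by decide) (by decide) (by decide) (by decide),
      GzExt_omg 0 3 1 2 m (by decide) (by decide) (by decide) (by decide),
      GzExt_omg 0 1 3 2 m (by decide) (by decide) (by decide) (by decide)]
    push_cast at h
    simp only [Fin.val_zero, Fin.val_one, Fin.val_two, show (3 : Fin 4).val = 3 from rfl]
    linear_combination -h
  · have h := hE 1
    rw [Fin.sum_univ_four, if_neg (by decide), if_pos rfl, if_neg (by decide), if_neg (by decide),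
      GzExt_sgn 1 0 m (by decide), GzExt_sgn 1 2 m (by decide), GzExt_sgn 1 3 m (by decide),
      if_neg (by decide), if_pos (by decide), if_pos (by decide)] at h
    rw [GzExt_omg 2 3 0 1 m (by decide) (by decide) (by decide) (by decide),
      GzExt_omg 0 3 2 1 m (by decide) (by decide) (by decide) (by decide),
      GzExt_omg 0 2 3 1 m (by decide) (by decide) (by decide) (by decide)]
    push_cast at h
    simp only [Fin.val_zero, Fin.val_one, Fin.val_two, show (3 : Fin 4).val = 3 from rfl]
    linear_combination h
  · have h := hE 0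
    rw [Fin.sum_univ_four, if_pos rfl, if_neg (by decide), if_neg (by decide), if_neg (by decide),
      GzExt_sgn 0 1 m (by decide), GzExt_sgn 0 2 m (by decide), GzExt_sgn 0 3 m (by decide),
      if_pos (by decide), if_pos (by decide), if_pos (by decide)] at h
    rw [GzExt_omg 2 3 1 0 m (by decide) (by decide) (by decide) (by decide),
      GzExt_omg 1 3 2 0 m (by decide) (by decide) (by decide) (by decide),
      GzExt_omg 1 2 3 0 m (by decide) (by decide) (by decide) (by decide)]
    push_cast at h
    simp only [Fin.val_zero, Fin.val_one, Fin.val_two, show (3 : Fin 4).val = 3 from rfl]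
    linear_combination -h

/-- The cochain vanishes at all the squares which contain a cell `q` of the box outside `F`: the clamped square still
contains `q` (a coordinate is only clamped if it is `q j ± 1` with `|q j| = 2 n j`, then it becomes `q j ∓ 1`), so it is not in `F`. -/
theorem wstd_zero {n : Fin 4 → ℕ} (hn : ∀ i, 1 ≤ n i) {F : Finset Cell} (hF : IsComplex F)
    {w : Cell → ZMod 3} (hw : ∀ q, w q ≠ 0 → q ∈ F) {q p : Cell} (hq : q ∈ Box n) (hqF : q ∉ F)
    (hle : Le q p) : wstd n w p = 0 := by
  unfold wstd
  split_ifs with hex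
  · rfl
  · have hq' : ∀ j, -(2 * (n j : ℤ)) ≤ q j ∧ q j ≤ 2 * (n j : ℤ) := by
      unfold Box at hq
      rw [Fintype.mem_piFinset] at hq
      intro j
      exact Finset.mem_Icc.1 (hq j)
    have hle' : Le q (oddclamp n p) := by
      intro j
      have h1 := hq' j
      have h2 := hn j
      unfold oddclamp
      rcases hle j with h | ⟨h, h'⟩
      · left
        split_ifs with hodd
        · omega
        · exact h
      · right
        rw [if_pos h]
        omega
    have : w (oddclamp n p) = 0 := by
      by_contra hne
      exact hqF (hF _ (hw _ hne) q hle')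
    rw [this, mul_zero]

end Cub
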