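import Pool.Agent.H33.CB.GzPoin
import Pool.Agent.H33.CB.GzConn
import Pool.Agent.H33.CB.GzExt

/-!
# T5, step 4: the local system of the complement of a disc

`V` = filling of `omg n w` (`poincare2`, `omg_closed`), `u = uu V`, `a₀ = conn u`.
* Flat on `Box n \ F`: for a square `c, q = c + s e i + t e j` with `q ∈ Box n \ F`, `c i`, `c j` odd (so `q i`, `q j` even), `i ≠ j`:
  `conn_flat`; the lowest corner `x` has `x l = q l` for `l ≠ i, j` and `x i ∈ {q i - 1, q i}`, `x j ∈ {q j - 1, q j}`; by `uu_curl` the curvature is
  a sum of `± omg n w _ _ (npt x s)` with `s i = s j = 1` and the square `dsq i j (npt x s)` contains `q`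
  (its coordinates `i`, `j` are those of `q`, `2 ((q i - 1)/2) + 2 = q i = 2 ((q i - 2)/2) + 2`, and for `l ≠ i, j` it is `q l` if `q l` is odd
  and `q l ± 1` if it is even), so `wstd_zero` applies.  For `j < i` exchange the roles.
* Monodromy at a square `q ∈ F` (`dim q = 2`, `q i`, `q j` even, `i < j`; `q ∉ bd n` because `F ∩ bd n = B` has dimension one, so the
  even coordinates are not extremal and `oddclamp n q = q`): in `conn_mono` all four curvatures are equal to
  `4 * omg n w i j m = omg n w i j m` with `dsq i j m = q`, so `mono a₀ q i j = - omg n w i j m = ± w q ≠ 0`.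
* Symmetrise: `a c c' = -(a₀ c c' + a₀ (-c) (-c'))`.  It is symmetric, flat (the negative of a flat square is a flat square, `Box n \ F` is
  symmetric), and `mono a q i j = -(mono a₀ q i j + mono a₀ (-q) i j)` (cyclic permutation of the four brackets)
  `= -2 mono a₀ q i j = mono a₀ q i j`, because `lam (-q) = lam q` for squares and `w (-q) = w q`.
-/

namespace Cub

private lemma e_apply (i l : Fin 4) : (e i) l = if l = i then 1 else 0 := by
  unfold e; rw [Pi.single_apply]

/-- The square dual to the lattice points next to the lowest corner contains `q`. -/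
private lemma le_dsq (i j : Fin 4) (x q : Cell) (s : Fin 4 → Fin 2) (hi : s i = 1) (hj : s j = 1)
    (hqi : q i % 2 = 0) (hqj : q j % 2 = 0) (hxi : x i = q i ∨ x i = q i - 1)
    (hxj : x j = q j ∨ x j = q j - 1) (hx : ∀ l, l ≠ i → l ≠ j → x l = q l) :
    Le q (dsq i j (npt x s)) := by
  intro l
  by_cases hli : l = i
  · subst hli
    left
    simp only [dsq, npt, hi, true_or, if_true, Fin.val_one, Nat.cast_one]
    rcases hxi with h | h <;> rw [h] <;> omega
  by_cases hlj : l = j
  · subst hlj
    left
    simp only [dsq, npt, hj, or_true, if_true, Fin.val_one, Nat.cast_one]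
    rcases hxj with h | h <;> rw [h] <;> omega
  have h1 := hx l hli hlj
  simp only [dsq, npt, hli, hlj, or_self, if_false, h1]
  have h2 : (s l).val = 0 ∨ (s l).val = 1 := by
    have := (s l).isLt
    omega
  rcases h2 with h2 | h2 <;> rw [h2] <;> push_cast <;> rcases Int.emod_two_eq_zero_or_one (q l) with h3 | h3
  · right; omega
  · left; omega
  · right; omega
  · left; omega

/-- A square is the dual square. -/
private lemma dsq_eq (i j : Fin 4) (x q : Cell) (s : Fin 4 → Fin 2) (hi : s i = 1) (hj : s j = 1)
    (hqi : q i % 2 = 0) (hqj : q j % 2 = 0) (hxi : x i = q i ∨ x i = q i - 1)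
    (hxj : x j = q j ∨ x j = q j - 1) (hx : ∀ l, l ≠ i → l ≠ j → x l = q l)
    (ho : ∀ l, l ≠ i → l ≠ j → q l % 2 = 1) :
    dsq i j (npt x s) = q := by
  funext l
  by_cases hli : l = i
  · subst hli
    simp only [dsq, npt, hi, true_or, if_true, Fin.val_one, Nat.cast_one]
    rcases hxi with h | h <;> rw [h] <;> omega
  by_cases hlj : l = j
  · subst hlj
    simp only [dsq, npt, hj, or_true, if_true, Fin.val_one, Nat.cast_one]
    rcases hxj with h | h <;> rw [h] <;> omega
  have h1 := hx l hli hlj
  have h3 := ho l hli hlj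
  simp only [dsq, npt, hli, hlj, or_self, if_false, h1]
  have h2 : (s l).val = 0 ∨ (s l).val = 1 := by
    have := (s l).isLt
    omega
  rcases h2 with h2 | h2 <;> rw [h2] <;> push_cast <;> omega

private lemma card_sel (i j : Fin 4) (hij : i ≠ j) :
    (Finset.univ.filter (fun s : Fin 4 → Fin 2 => s i = 1 ∧ s j = 1)).card = 4 := by
  revert i j
  decide

/-- For a square all coordinates apart from the two even ones are odd. -/
private lemma odd_other (q : Cell) (i j : Fin 4) (hij : i ≠ j) (hqi : q i % 2 = 0)
    (hqj : q j % 2 = 0) (hd : dim q = 2) (l : Fin 4) (hli : l ≠ i) (hlj : l ≠ j) :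
    q l % 2 = 1 := by
  by_contra hl
  have hsub : (Finset.univ.filter (fun k => q k % 2 = 1)) ⊆ Finset.univ \ {i, j, l} := by
    intro k hk
    simp only [Finset.mem_filter, Finset.mem_univ, true_and] at hk
    simp only [Finset.mem_sdiff, Finset.mem_univ, true_and, Finset.mem_insert,
      Finset.mem_singleton]
    rintro (h | h | h)
    · subst h; omega
    · subst h; omega
    · subst h; exact hl hk
  have hc := Finset.card_le_card hsub
  rw [Finset.card_sdiff_of_subset (Finset.subset_univ _)] at hc
  have h3 : ({i, j, l} : Finset (Fin 4)).card = 3 := by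
    rw [Finset.card_insert_of_notMem, Finset.card_insert_of_notMem, Finset.card_singleton]
    · simp only [Finset.mem_singleton]; exact fun h => hlj h.symm
    · simp only [Finset.mem_insert, Finset.mem_singleton]
      rintro (h | h)
      · exact hij h
      · exact hli h.symm
  rw [h3] at hc
  unfold dim at hd
  rw [hd] at hc
  simp at hc

/-- The local system before symmetrisation. -/
theorem exists_pre_locsys {n : Fin 4 → ℕ} {F B : Finset Cell} (h : GoodDisc n F B)
    (w : Cell → ZMod 3) (hw : ∀ q, w q ≠ 0 ↔ q ∈ F ∧ dim q = 2)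
    (hws : ∀ q, w (-q) = w q)
    (hwc : ∀ c ∈ inn n, dim c = 1 → ∑ q ∈ Box n, w q * (inc q c : ZMod 3) = 0) :
    ∃ a : Cell → Cell → ZMod 3, Flat a (Box n \ F) ∧
      ∀ q ∈ F, ∀ i j : Fin 4, i < j → q i % 2 = 0 → q j % 2 = 0 → dim q = 2 →
        mono a q i j ≠ 0 ∧ mono a (-q) i j = mono a q i j := by
  have hn : ∀ i, 1 ≤ n i := fun i => le_trans (by norm_num) (h.big i)
  obtain ⟨V, hV⟩ := poincare2 (omg n w) (fun i j k hij hjk m => omg_closed hn hwc i j k hij hjk m)
  have hVij : ∀ i j : Fin 4, i ≠ j → ∀ m : Cell,
      (V j (m + e i) - V j m) - (V i (m + e j) - V i m) =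
        if i < j then omg n w i j m else - omg n w j i m := by
    intro i j hij m
    split_ifs with hlt
    · exact hV i j hlt m
    · have hlt' : j < i := lt_of_le_of_ne (not_lt.mp hlt) (Ne.symm hij)
      have := hV j i hlt' m
      rw [← this]; ring
  have hwF : ∀ q, w q ≠ 0 → q ∈ F := fun q hq => ((hw q).1 hq).1
  have dsq_comm : ∀ i j : Fin 4, ∀ m, dsq i j m = dsq j i m := by
    intro i j m
    funext l
    simp only [dsq, or_comm]
  refine ⟨conn (uu V), ?_, ?_⟩
  · intro c hc i j hij hci hcj s t hs ht hq
    apply conn_flat _ _ _ _ hij _ _ hs ht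
    intro x hx
    rw [uu_curl V i j hij x]
    apply Finset.sum_eq_zero
    intro s' hs'
    simp only [Finset.mem_filter, Finset.mem_univ, true_and] at hs'
    set q : Cell := c + s • e i + t • e j with hqdef
    have hqi : q i = c i + s := by
      simp [hqdef, e_apply, hij]
    have hqj : q j = c j + t := by
      simp [hqdef, e_apply, Ne.symm hij]
    have hql : ∀ l, l ≠ i → l ≠ j → q l = c l := by
      intro l h1 h2
      simp [hqdef, e_apply, h1, h2]
    have hle : Le q (dsq i j (npt x s')) := by
      apply le_dsq i j x q s' hs'.1 hs'.2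
      · rw [hqi]; rcases hs with h | h <;> rw [h] <;> omega
      · rw [hqj]; rcases ht with h | h <;> rw [h] <;> omega
      · rw [hx]; simp only [hqi]
        rcases hs with h | h <;> rw [h]
        · right; rw [min_eq_left (by omega)]; ring
        · left; rw [min_eq_right (by omega)]
      · rw [hx]; simp only [hqj]
        rcases ht with h | h <;> rw [h]
        · right; rw [min_eq_left (by omega)]; ring
        · left; rw [min_eq_right (by omega)]
      · intro l h1 h2
        rw [hx]; simp only [hql l h1 h2, min_self]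
    have hz : wstd n w (dsq i j (npt x s')) = 0 :=
      wstd_zero hn h.surf.cx hwF (Finset.mem_sdiff.1 hq).1 (Finset.mem_sdiff.1 hq).2 hle
    rw [hVij i j hij]
    split_ifs with hlt
    · simp only [omg, hz, mul_zero]
    · simp only [omg, dsq_comm j i, hz, mul_zero, neg_zero]
  · -- the value of the monodromy
    have key : ∀ q ∈ F, ∀ i j : Fin 4, i < j → q i % 2 = 0 → q j % 2 = 0 → dim q = 2 →
        mono (conn (uu V)) q i j = - ((-1) ^ (i.val + j.val + 1) * ((lam q : ZMod 3) * w q)) := by
      intro q hqF i j hij hqi hqj hd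
      have hne : i ≠ j := ne_of_lt hij
      have ho := odd_other q i j hne hqi hqj hd
      have hbox : q ∈ Box n := h.sub hqF
      have hnbd : q ∉ bd n := by
        intro hb
        have : q ∈ B := by rw [← h.bdy]; exact Finset.mem_inter.2 ⟨hqF, hb⟩
        have := h.surf.bdim q this
        omega
      have hb' : ∀ k, -(2 * (n k : ℤ)) ≤ q k ∧ q k ≤ 2 * (n k : ℤ) := by
        intro k
        have := Fintype.mem_piFinset.1 hbox k
        exact Finset.mem_Icc.1 this
      have hnb' : ∀ k, q k ≠ 2 * (n k : ℤ) ∧ q k ≠ -(2 * (n k : ℤ)) := by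
        intro k
        constructor
        · intro hk; exact hnbd (Finset.mem_filter.2 ⟨hbox, k, Or.inl hk⟩)
        · intro hk; exact hnbd (Finset.mem_filter.2 ⟨hbox, k, Or.inr hk⟩)
      have hclamp : oddclamp n q = q := by
        funext k
        simp only [oddclamp]
        split_ifs with hk
        · have h1 := hb' k
          have h2 := hnb' k
          rw [min_eq_right (by omega), max_eq_right (by omega)]
        · rfl
      have hwst : wstd n w q = (lam q : ZMod 3) * w q := by
        unfold wstd
        rw [if_neg, hclamp]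
        rintro ⟨k, _, hk⟩
        have h1 := hb' k
        have h2 := hnb' k
        rcases le_or_gt 0 (q k) with h0 | h0
        · rw [abs_of_nonneg h0] at hk; omega
        · rw [abs_of_neg h0] at hk; omega
      have hcurv : ∀ x : Cell, (x i = q i ∨ x i = q i - 1) → (x j = q j ∨ x j = q j - 1) →
          (∀ l, l ≠ i → l ≠ j → x l = q l) →
          uu V i x + uu V j (x + e i) - uu V j x - uu V i (x + e j) =
            4 * ((-1) ^ (i.val + j.val + 1) * ((lam q : ZMod 3) * w q)) := by
        intro x hxi hxj hx
        rw [uu_curl V i j hne x]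
        have : ∀ s ∈ Finset.univ.filter (fun s : Fin 4 → Fin 2 => s i = 1 ∧ s j = 1),
            ((V j (npt x s + e i) - V j (npt x s)) - (V i (npt x s + e j) - V i (npt x s))) =
              (-1) ^ (i.val + j.val + 1) * ((lam q : ZMod 3) * w q) := by
          intro s hs
          simp only [Finset.mem_filter, Finset.mem_univ, true_and] at hs
          rw [hV i j hij]
          unfold omg
          rw [dsq_eq i j x q s hs.1 hs.2 hqi hqj hxi hxj hx ho, hwst]
        rw [Finset.sum_congr rfl this, Finset.sum_const, card_sel i j hne]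
        rw [nsmul_eq_mul]; norm_num
      rw [conn_mono _ q i j hne]
      rw [hcurv q (Or.inl rfl) (Or.inl rfl) (fun _ _ _ => rfl)]
      rw [hcurv (q - e i) (Or.inr (by simp [e_apply])) (Or.inl (by simp [e_apply, Ne.symm hne]))
        (fun l h1 h2 => by simp [e_apply, h1])]
      rw [hcurv (q - e j) (Or.inl (by simp [e_apply, hne])) (Or.inr (by simp [e_apply]))
        (fun l h1 h2 => by simp [e_apply, h2])]
      rw [hcurv (q - e i - e j) (Or.inr (by simp [e_apply, hne]))
        (Or.inr (by simp [e_apply, Ne.symm hne])) (fun l h1 h2 => by simp [e_apply, h1, h2])]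
      generalize (-1 : ZMod 3) ^ (i.val + j.val + 1) * ((lam q : ZMod 3) * w q) = K
      have h16 : (16 : ZMod 3) = 1 := by decide
      calc -(4 * K + 4 * K + 4 * K + 4 * K) = -(16 * K) := by ring
        _ = -K := by rw [h16, one_mul]
    intro q hqF i j hij hqi hqj hd
    refine ⟨?_, ?_⟩
    · rw [key q hqF i j hij hqi hqj hd]
      have hwq : w q ≠ 0 := (hw q).2 ⟨hqF, hd⟩
      have hlq : (lam q : ZMod 3) ≠ 0 := by
        intro h0
        have := congrArg (Int.cast : ℤ → ZMod 3) (lam_sq q)
        push_cast at this
        rw [h0, mul_zero] at this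
        exact absurd this (by decide)
      have : Fact (Nat.Prime 3) := ⟨Nat.prime_three⟩
      have h0 : (-1 : ZMod 3) ≠ 0 := neg_ne_zero.2 one_ne_zero
      have h1 : ((-1 : ZMod 3)) ^ (i.val + j.val + 1) ≠ 0 := pow_ne_zero _ h0
      exact neg_ne_zero.2 (mul_ne_zero h1 (mul_ne_zero hlq hwq))
    · have hqF' : -q ∈ F := h.symm q hqF
      have hi' : (-q) i % 2 = 0 := by simp only [Pi.neg_apply]; omega
      have hj' : (-q) j % 2 = 0 := by simp only [Pi.neg_apply]; omega
      rw [key q hqF i j hij hqi hqj hd,
        key (-q) hqF' i j hij hi' hj' (by rw [dim_neg]; exact hd)]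
      rw [lam_neg, hd, hws]
      norm_num

theorem exists_locsys {n : Fin 4 → ℕ} {F B : Finset Cell} (h : GoodDisc n F B)
    (w : Cell → ZMod 3) (hw : ∀ q, w q ≠ 0 ↔ q ∈ F ∧ dim q = 2)
    (hws : ∀ q, w (-q) = w q)
    (hwc : ∀ c ∈ inn n, dim c = 1 → ∑ q ∈ Box n, w q * (inc q c : ZMod 3) = 0) :
    ∃ a : Cell → Cell → ZMod 3, LocSys n F a := by
  obtain ⟨a, hf, hm⟩ := exists_pre_locsys h w hw hws hwc
  have hneg : ∀ c, c ∈ Box n \ F → -c ∈ Box n \ F := by
    intro c hc
    rw [Finset.mem_sdiff] at hc ⊢
    refine ⟨?_, fun hF => hc.2 ?_⟩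
    · rw [Box, Fintype.mem_piFinset] at hc ⊢
      intro k
      have := Finset.mem_Icc.1 (hc.1 k)
      rw [Finset.mem_Icc, Pi.neg_apply]
      constructor <;> linarith [this.1, this.2]
    · have := h.symm _ hF
      rwa [neg_neg] at this
  refine ⟨fun c c' => -(a c c' + a (-c) (-c')), ?_, ?_, ?_⟩
  · intro c c'
    simp only [neg_neg]
    ring
  · intro c hc i j hij hci hcj s t hs ht hq
    have h1 := hf c hc i j hij hci hcj s t hs ht hq
    have h2 := hf (-c) (hneg c hc) i j hij (by simp only [Pi.neg_apply]; omega)
      (by simp only [Pi.neg_apply]; omega) (-s) (-t)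
      (by rcases hs with h | h <;> simp [h]) (by rcases ht with h | h <;> simp [h])
      (by
        have := hneg _ hq
        convert this using 1
        simp only [neg_add, neg_smul])
    have e1 : -(c + s • e i) = -c + (-s) • e i := by simp only [neg_add, neg_smul]
    have e2 : -(c + s • e i + t • e j) = -c + (-s) • e i + (-t) • e j := by
      simp only [neg_add, neg_smul]
    have e3 : -(c + t • e j) = -c + (-t) • e j := by simp only [neg_add, neg_smul]
    simp only [e1, e2, e3]
    linear_combination -h1 - h2
  · intro q hqF i j hij hqi hqj hd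
    obtain ⟨h1, h2⟩ := hm q hqF i j hij hqi hqj hd
    have : mono (fun c c' => -(a c c' + a (-c) (-c'))) q i j = -(mono a q i j + mono a (-q) i j) := by
      simp only [mono]
      have t1 : -(q + e i + e j) = -q - e i - e j := by abel
      have t2 : -(q + e i) = -q - e i := by abel
      have t3 : -(q + e i - e j) = -q - e i + e j := by abel
      have t4 : -(q - e j) = -q + e j := by abel
      have t5 : -(q - e i - e j) = -q + e i + e j := by abel
      have t6 : -(q - e i) = -q + e i := by abel
      have t7 : -(q - e i + e j) = -q + e i - e j := by abel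
      have t8 : -(q + e j) = -q - e j := by abel
      rw [t1, t2, t3, t4, t5, t6, t7, t8]
      ring
    rw [this, h2]
    have h3 : -(mono a q i j + mono a q i j) = mono a q i j := by
      have h30 : (3 : ZMod 3) = 0 := by decide
      linear_combination (- mono a q i j) * h30
    rw [h3]
    exact h1

end Cub
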