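import Pool.Agent.H33.CB.Filq

/-!
# Equivariant comparison by a filtered cone

PROOF of `coneq`.  `cone_par` for `dq D` on `A'`, `dq E` on `B'`, `dq P` (`isCx_dq`; the chain map passes to `dq`: for `a ∈ A'`, `b ∈ B'`
`∑_{a' ∈ A'} dq D a a' * dq P a' b = ∑_{x ∈ A} D a x * dq P x b` because `A` is the disjoint union of `A'` and `- A'` and `dq P (-x) b = dq P x b`;
`= ∑_{x ∈ A} D a x * P x b + ∑_{x ∈ A} D a x * P x (-b)`, and the same on the other side, so it follows from `hP` at `b` and `-b`).
The cone: `cone (dq D) (dq E) (dq P) = dq (cone D E P)` as functions (check the four cases); `coneSet A' B'` is a section of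
`coneSet A B`; `acy_filq` for `cone D E P` on `coneSet A B` (`isCx_cone`), with `k = Sum.elim kA kB`; the fibre over `p` of
`coneSet A B` is `coneSet (A.filter (kA · = p)) (B.filter (kB · = p))`.
-/

namespace Cub

variable {R : Type} [CommRing R] {ι κ : Type} [DecidableEq ι] [DecidableEq κ]

instance instInvolutiveNegSum [InvolutiveNeg ι] [InvolutiveNeg κ] : InvolutiveNeg (ι ⊕ κ) where
  neg_neg x := by
    cases x with
    | inl a => exact congrArg Sum.inl (neg_neg a)
    | inr b => exact congrArg Sum.inr (neg_neg b)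

/-- A cone on an empty domain. -/
theorem acy_cone_empty {D : ι → ι → R} {E : κ → κ → R} {P : ι → κ → R} {B : Finset κ} :
    Acy (cone D E P) (coneSet ∅ B) ↔ Acy E B := by
  symm
  refine (reidx (D := E) (E := cone D E P) (A := B) (B := coneSet ∅ B) Sum.inr (fun _ => 1)
    (fun _ _ => isUnit_one) (fun a _ b _ h => Sum.inr_injective h) ?_ ?_).1
  · ext x
    unfold coneSet
    rcases x with a | b
    · simp
    · simp
  · intro a _ b _
    simp [cone]

/-- a sum over `A` is a sum over the pairs -/
private theorem MzCone_sum [InvolutiveNeg ι] {A B : Finset ι} (hA : Sym A) (hs : Sec A B)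
    (f : ι → R) : ∑ a ∈ A, f a = ∑ b ∈ B, (f b + f (-b)) := by
  have h1 : A = B ∪ B.image (fun b => -b) := by
    ext a
    rw [Finset.mem_union, Finset.mem_image]
    constructor
    · intro ha
      rcases hs.all a ha with h | h
      · exact Or.inl h
      · exact Or.inr ⟨-a, h, neg_neg a⟩
    · rintro (h | ⟨b, hb, rfl⟩)
      · exact hs.sub h
      · exact hA b (hs.sub hb)
  have h2 : Disjoint B (B.image (fun b => -b)) := by
    rw [Finset.disjoint_left]
    intro a ha h
    obtain ⟨b, hb, rfl⟩ := Finset.mem_image.1 h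
    exact hs.one b hb ha
  rw [h1, Finset.sum_union h2, Finset.sum_image (fun a _ b _ h => neg_injective h),
    Finset.sum_add_distrib]

theorem coneq [InvolutiveNeg ι] [InvolutiveNeg κ] {Q : Type} [DecidableEq Q] [InvolutiveNeg Q]
    {D : ι → ι → R} {E : κ → κ → R} {P : ι → κ → R} {A A' : Finset ι} {B B' : Finset κ}
    (hA : Sym A) (hB : Sym B) (hA' : Sec A A') (hB' : Sec B B') (hDs : SymM D) (hEs : SymM E)
    (hPs : SymM P) (hD : IsCx D A) (hE : IsCx E B)
    (hP : ∀ a ∈ A, ∀ b ∈ B, ∑ a' ∈ A, D a a' * P a' b = ∑ b' ∈ B, P a b' * E b' b)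
    (kA : ι → Q) (kB : κ → Q) (h : Q → ℤ) (hkA : ∀ a, kA (-a) = - kA a) (hkB : ∀ b, kB (-b) = - kB b)
    (hh : ∀ p, h (-p) = h p) (hnA : ∀ a ∈ A, kA a ≠ - kA a) (hnB : ∀ b ∈ B, kB b ≠ - kB b)
    (hD' : ∀ a ∈ A, ∀ b ∈ A, D a b ≠ 0 → kA b = kA a ∨ h (kA b) < h (kA a))
    (hE' : ∀ a ∈ B, ∀ b ∈ B, E a b ≠ 0 → kB b = kB a ∨ h (kB b) < h (kB a))
    (hP' : ∀ a ∈ A, ∀ b ∈ B, P a b ≠ 0 → kB b = kA a ∨ h (kB b) < h (kA a))
    (hfib : ∀ p, Acy (cone D E P)
      (coneSet (A.filter (fun a => kA a = p)) (B.filter (fun b => kB b = p)))) :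
    (FL (dq D) A' ↔ FL (dq E) B') ∧ par (dq D) A' = par (dq E) B' := by
  have hcx := isCx_cone hD hE hP
  have hC : Sym (coneSet A B) := by
    intro x hx
    unfold coneSet at hx ⊢
    rcases x with a | b
    · exact Finset.inl_mem_disjSum.2 (hA a (Finset.inl_mem_disjSum.1 hx))
    · exact Finset.inr_mem_disjSum.2 (hB b (Finset.inr_mem_disjSum.1 hx))
  have hS : Sec (coneSet A B) (coneSet A' B') := by
    unfold coneSet
    refine ⟨Finset.disjSum_mono hA'.sub hB'.sub, ?_, ?_⟩
    · intro x hx hx'
      rcases x with a | b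
      · exact hA'.one a (Finset.inl_mem_disjSum.1 hx) (Finset.inl_mem_disjSum.1 hx')
      · exact hB'.one b (Finset.inr_mem_disjSum.1 hx) (Finset.inr_mem_disjSum.1 hx')
    · intro x hx
      rcases x with a | b
      · rcases hA'.all a (Finset.inl_mem_disjSum.1 hx) with h1 | h1
        · exact Or.inl (Finset.inl_mem_disjSum.2 h1)
        · exact Or.inr (Finset.inl_mem_disjSum.2 h1)
      · rcases hB'.all b (Finset.inr_mem_disjSum.1 hx) with h1 | h1
        · exact Or.inl (Finset.inr_mem_disjSum.2 h1)
        · exact Or.inr (Finset.inr_mem_disjSum.2 h1)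
  have hT : SymM (cone D E P) := by
    intro x y
    rcases x with a | a <;> rcases y with b | b
    · change - D (-a) (-b) = - D a b
      rw [hDs]
    · change P (-a) (-b) = P a b
      rw [hPs]
    · rfl
    · change E (-a) (-b) = E a b
      rw [hEs]
  have hdq : dq (cone D E P) = cone (dq D) (dq E) (dq P) := by
    funext x y
    rcases x with a | a <;> rcases y with b | b
    · change - D a b + - D a (-b) = - (D a b + D a (-b))
      ring
    · rfl
    · change (0 : R) + 0 = 0
      ring
    · rfl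
  have hacy : Acy (dq (cone D E P)) (coneSet A' B') := by
    refine acy_filq hC hS hT hcx (Sum.elim kA kB) h ?_ hh ?_ ?_ ?_
    · intro x
      rcases x with a | b
      · exact hkA a
      · exact hkB b
    · intro x hx
      unfold coneSet at hx
      rcases x with a | b
      · exact hnA a (Finset.inl_mem_disjSum.1 hx)
      · exact hnB b (Finset.inr_mem_disjSum.1 hx)
    · intro x hx y hy hxy
      unfold coneSet at hx hy
      rcases x with a | a <;> rcases y with b | b
      · refine hD' a (Finset.inl_mem_disjSum.1 hx) b (Finset.inl_mem_disjSum.1 hy) ?_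
        intro h0
        apply hxy
        change - D a b = 0
        rw [h0, neg_zero]
      · exact hP' a (Finset.inl_mem_disjSum.1 hx) b (Finset.inr_mem_disjSum.1 hy) hxy
      · exact absurd rfl hxy
      · exact hE' a (Finset.inr_mem_disjSum.1 hx) b (Finset.inr_mem_disjSum.1 hy) hxy
    · intro p
      have h1 : (coneSet A B).filter (fun a => Sum.elim kA kB a = p) =
          coneSet (A.filter (fun a => kA a = p)) (B.filter (fun b => kB b = p)) := by
        ext x
        unfold coneSet
        rw [Finset.mem_filter]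
        rcases x with a | b
        · rw [Finset.inl_mem_disjSum, Finset.inl_mem_disjSum, Finset.mem_filter]
          rfl
        · rw [Finset.inr_mem_disjSum, Finset.inr_mem_disjSum, Finset.mem_filter]
          rfl
      rw [h1]
      exact hfib p
  rw [hdq] at hacy
  refine cone_par (isCx_dq hA hA' hDs hD) (isCx_dq hB hB' hEs hE) ?_ hacy
  intro a ha b hb
  have e1 : ∑ a' ∈ A', dq D a a' * dq P a' b = ∑ x ∈ A, D a x * dq P x b := by
    rw [MzCone_sum hA hA']
    refine Finset.sum_congr rfl fun x _ => ?_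
    have h2 : dq P (-x) b = dq P x b := by
      have h3 := hPs x (-b)
      rw [neg_neg] at h3
      change P (-x) b + P (-x) (-b) = P x b + P x (-b)
      rw [hPs, h3, add_comm]
    rw [h2]
    change (D a x + D a (-x)) * dq P x b = _
    ring
  have e2 : ∑ b' ∈ B', dq P a b' * dq E b' b = ∑ y ∈ B, P a y * dq E y b := by
    rw [MzCone_sum hB hB']
    refine Finset.sum_congr rfl fun x _ => ?_
    rw [dq_neg_left hEs]
    change (P a x + P a (-x)) * dq E x b = _
    ring
  rw [e1, e2]
  have h4 := hP a (hA'.sub ha) b (hB'.sub hb)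
  have h5 := hP a (hA'.sub ha) (-b) (hB b (hB'.sub hb))
  have e3 : ∑ x ∈ A, D a x * dq P x b = ∑ x ∈ A, D a x * P x b + ∑ x ∈ A, D a x * P x (-b) := by
    rw [← Finset.sum_add_distrib]
    refine Finset.sum_congr rfl fun x _ => ?_
    change D a x * (P x b + P x (-b)) = _
    ring
  have e4 : ∑ y ∈ B, P a y * dq E y b = ∑ y ∈ B, P a y * E y b + ∑ y ∈ B, P a y * E y (-b) := by
    rw [← Finset.sum_add_distrib]
    refine Finset.sum_congr rfl fun x _ => ?_
    change P a x * (E x b + E x (-b)) = _
    ring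
  rw [e3, e4, h4, h5]

end Cub
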