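import Pool.Agent.H33.CB.MzFib
import Pool.Agent.H33.CB.MzCone

/-!
# M1: the homology does not change under subdivision

PROOF.  `coneq` with `A`, `fine m n A`, sections `pos` (`sec_pos`, `zero_fine`), `D = dcoef ζ a`, `E = dcoef ζ (suba m a)`, `P = phi m`, `Q = Cell`, `kA = id`,
`kB = car m`, `h = dim`.  Complexes: `isCx_dcoef`, `conv_fine`, `flat_suba`.  Symmetry: `symM_dcoef`, `symA_suba`, `phi_neg`, `sym_fine`.  Chain map: `phi_chain`.  Arrows:
`fct_of_dcoef`, `dim_of_fct`, `car_of_fct`, `car_of_phi`.  `k a ≠ - k a` since `0 ∉ A` (a cell with `c = -c` is `0`).  Fibre over `p ∈ A`: `{p}` and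
`carFib m n p`, `fib_cone`; over `p ∉ A`: both are empty (`acy_cone_empty`).
-/

namespace Cub

variable {R : Type} [CommRing R]

private theorem MzM1_ne_neg {A : Finset Cell} (h0 : (0 : Cell) ∉ A) {c : Cell} (hc : c ∈ A) :
    c ≠ -c := by
  intro h
  apply h0
  have h1 : c = 0 := by
    funext i
    have h2 : c i = -(c i) := congrFun h i
    change c i = 0
    omega
  rwa [h1] at hc

theorem thmM1 {m : ℕ} (hm : 1 ≤ m) {n : Fin 4 → ℕ} {ζ : R} (hζ : ζ ^ 3 = 1)
    {a : Cell → Cell → ZMod 3} {A : Finset Cell} (hA : A ⊆ Box n) (hc : Conv A) (hs : Sym A)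
    (h0 : (0 : Cell) ∉ A) (hf : Flat a A) (ha : SymA a) :
    (FL (dq (dcoef ζ a)) (pos A) ↔ FL (dq (dcoef ζ (suba m a))) (pos (fine m n A))) ∧
      par (dq (dcoef ζ a)) (pos A) = par (dq (dcoef ζ (suba m a))) (pos (fine m n A)) := by
  have hcx := isCx_dcoef hζ hc hf
  have hcx2 := isCx_dcoef hζ (conv_fine hm hc (n := n)) (flat_suba hm hc hf)
  have hmf : ∀ {y : Cell}, y ∈ fine m n A ↔ car m y ∈ A := mem_fine hm hA
  refine coneq (A := A) (B := fine m n A) (P := fun x y => (phi m x y : R)) hs (sym_fine hm hs)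
    (sec_pos hs h0) (sec_pos (sym_fine hm hs) (zero_fine h0)) (symM_dcoef ha)
    (symM_dcoef (symA_suba hm ha)) ?_ hcx hcx2 ?_ (fun c => c) (car m) (fun c => (dim c : ℤ))
    (fun _ => rfl) (car_neg hm) ?_ ?_ ?_ ?_ ?_ ?_ ?_
  · intro t y
    change ((phi m (-t) (-y) : ℤ) : R) = (phi m t y : R)
    rw [phi_neg hm]
  · intro t ht y hy
    exact phi_chain hm hA ζ a t ht y hy
  · intro p
    change ((dim (-p) : ℕ) : ℤ) = (dim p : ℤ)
    rw [dim_neg]
  · intro c hcA
    exact MzM1_ne_neg h0 hcA
  · intro y hy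
    exact MzM1_ne_neg h0 (hmf.mp hy)
  · intro c _ c' _ hne
    right
    obtain ⟨i, hi⟩ := fct_of_dcoef hne
    have h1 := dim_of_fct hi
    change (dim c' : ℤ) < (dim c : ℤ)
    omega
  · intro y _ y' _ hne
    obtain ⟨i, hi⟩ := fct_of_dcoef hne
    rcases car_of_fct hm hi with h | h
    · exact Or.inl h
    · right
      have h1 := dim_of_fct h
      change (dim (car m y') : ℤ) < (dim (car m y) : ℤ)
      omega
  · intro t _ y _ hne
    left
    apply car_of_phi
    intro h
    apply hne
    rw [h, Int.cast_zero]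
  · intro p
    by_cases hp : p ∈ A
    · have h1 : A.filter (fun c => c = p) = {p} := by
        ext c
        rw [Finset.mem_filter, Finset.mem_singleton]
        constructor
        · exact fun h => h.2
        · rintro rfl
          exact ⟨hp, rfl⟩
      have h2 : (fine m n A).filter (fun y => car m y = p) = carFib m n p := by
        ext y
        unfold carFib
        rw [Finset.mem_filter, Finset.mem_filter, hmf, car_box hm]
        constructor
        · rintro ⟨h3, h4⟩
          exact ⟨hA h3, h4⟩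
        · rintro ⟨_, h4⟩
          refine ⟨?_, h4⟩
          rw [h4]
          exact hp
      rw [h1, h2]
      exact fib_cone hm hζ (hA hp)
    · have h1 : A.filter (fun c => c = p) = ∅ := by
        rw [Finset.filter_eq_empty_iff]
        rintro c hcA rfl
        exact hp hcA
      have h2 : (fine m n A).filter (fun y => car m y = p) = ∅ := by
        rw [Finset.filter_eq_empty_iff]
        rintro y hy rfl
        exact hp (hmf.mp hy)
      rw [h1, h2, acy_cone_empty]
      intro x _
      refine ⟨0, ?_⟩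
      funext b
      exact absurd b.2 (Finset.notMem_empty _)

end Cub
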