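import Pool.Agent.H33.CB.MzFibL
import Pool.Agent.H33.CB.MzCone

/-!
# M2: duality

PROOF.  `coneq` with `inn n \ F`, `offF n F`, sections `pos`, `D = dual ζ a`, `E = dcoef ζ (suba 2 a)`, `P = psi ζ a`, `Q = Cell`, `kA = id`, `kB = low`,
`h p = - dim p`.  Complexes: `offF n F` is convex (`conv_low`), `suba 2 a` is flat on it (`flat_suba` for `Box n \ F`, `flat_mono`: `low y ∉ F` implies
`car 2 y ∉ F`); `dual` is minus the transpose of a complex on the convex set `inn n \ F`.  Chain map `psi_chain`, symmetry `psi_neg`.  Arrows: `dual s b ≠ 0`: `s` is a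
facet of `b`; `low_of_psi`; `fct_cases`.  `0 ∈ F`.  Fibre over `p ∈ inn n \ F`: `lowfib_cone`; over `p ∈ bd n \ F`: `lowfib_bd`; otherwise empty.
Finally `dual = - tr (dcoef ζ (-a))` and `neg_par` (same kernel and same range).
-/

namespace Cub

variable {R : Type} [CommRing R] {ι : Type} [DecidableEq ι]

private theorem MzM2_len {M : Type} [AddCommGroup M] [Module R M] {K K' L L' : Submodule R M}
    (hK : K = K') (hL : L = L') : Module.length R (K ⧸ L.submoduleOf K) =
      Module.length R (K' ⧸ L'.submoduleOf K') := by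
  subst hK hL
  rfl

lemma neg_par (D : ι → ι → R) (B : Finset ι) :
    (FL (fun a b => - D a b) B ↔ FL D B) ∧ par (fun a b => - D a b) B = par D B := by
  have h1 : dB (fun a b => - D a b) B = - dB D B := by
    apply LinearMap.ext
    intro x
    funext b
    show ∑ a : B, x a * - D a b = - ∑ a : B, x a * D a b
    rw [← Finset.sum_neg_distrib]
    exact Finset.sum_congr rfl fun a _ => by ring
  have h2 : Module.length R (Hm (fun a b => - D a b) B) = Module.length R (Hm D B) := by
    refine MzM2_len ?_ ?_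
    · rw [h1, LinearMap.ker_neg]
    · rw [h1, LinearMap.range_neg]
  unfold FL par
  rw [h2]
  exact ⟨Iff.rfl, rfl⟩

private theorem MzM2_flat {a : Cell → Cell → ZMod 3} {A : Finset Cell} (hf : Flat a A) :
    Flat (fun c c' => - a c c') A := by
  intro c hc i j hij hi hj s t hs ht hz
  have h := hf c hc i j hij hi hj s t hs ht hz
  show - _ + - _ = - _ + - _
  rw [← neg_add, ← neg_add, h]

private theorem MzM2_ne_neg {p : Cell} (hp : p ≠ 0) : p ≠ -p := by
  intro h
  apply hp
  funext i
  have := congrFun h i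
  rw [Pi.neg_apply] at this
  rw [Pi.zero_apply]
  omega

private theorem MzM2_low_zero : low 0 = 0 := by
  have h := low_neg 0
  rw [neg_zero] at h
  by_contra hc
  exact MzM2_ne_neg hc h

private theorem MzM2_box_neg {n : Fin 4 → ℕ} {c : Cell} (h : c ∈ Box n) : -c ∈ Box n := by
  rw [mem_box] at h ⊢
  intro i
  have := h i
  rw [Pi.neg_apply]
  omega

private theorem MzM2_bd_neg {n : Fin 4 → ℕ} {c : Cell} (h : c ∈ bd n) : -c ∈ bd n := by
  rw [mem_bd] at h ⊢
  obtain ⟨h1, i, hi⟩ := h
  refine ⟨MzM2_box_neg h1, i, ?_⟩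
  rw [Pi.neg_apply]
  omega

theorem thmM2 {n : Fin 4 → ℕ} (hn : ∀ i, 1 ≤ n i) {F : Finset Cell} (hF : IsComplex F)
    (hFb : F ⊆ Box n) (hs : Sym F) (h0 : (0 : Cell) ∈ F) {ζ : R} (hζ : ζ ^ 3 = 1)
    {a : Cell → Cell → ZMod 3} (hf : Flat a (Box n \ F)) (ha : SymA a) :
    (FL (dq (dcoef ζ (suba 2 a))) (pos (offF n F)) ↔
        FL (dq (tr (dcoef ζ (fun c c' => - a c c')))) (pos (inn n \ F))) ∧
      par (dq (dcoef ζ (suba 2 a))) (pos (offF n F)) =
        par (dq (tr (dcoef ζ (fun c c' => - a c c')))) (pos (inn n \ F)) := by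
  have _ := hFb
  have hA : Sym (inn n \ F) := by
    intro c hc
    rw [inn, Finset.mem_sdiff, Finset.mem_sdiff] at hc ⊢
    refine ⟨⟨MzM2_box_neg hc.1.1, fun h => hc.1.2 ?_⟩, fun h => hc.2 ?_⟩
    · have := MzM2_bd_neg h
      rwa [neg_neg] at this
    · have := hs _ h
      rwa [neg_neg] at this
  have hB : Sym (offF n F) := by
    intro y hy
    rw [offF, Finset.mem_filter] at hy ⊢
    refine ⟨MzM2_box_neg hy.1, fun h => hy.2 ?_⟩
    rw [low_neg] at h
    have := hs _ h
    rwa [neg_neg] at this
  have hA0 : (0 : Cell) ∉ inn n \ F := fun h => (Finset.mem_sdiff.1 h).2 h0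
  have hB0 : (0 : Cell) ∉ offF n F := fun h => by
    have := (Finset.mem_filter.1 h).2
    rw [MzM2_low_zero] at this
    exact this h0
  have hna : SymA (fun c c' => - a c c') := fun c c' => by
    show - a (-c) (-c') = - a c c'
    rw [ha]
  have hDs : SymM (dual ζ a) := fun s b => by
    unfold dual
    rw [symM_dcoef hna b s]
  have hcA : Conv (inn n \ F) := conv_sdiff2 (isComplex_box n) (isComplex_bd n) hF
  have hfA : Flat a (inn n \ F) := flat_mono (by
    intro c hc
    rw [Finset.mem_sdiff] at hc ⊢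
    exact ⟨(Finset.mem_sdiff.1 hc.1).1, hc.2⟩) hf
  have hD : IsCx (dual ζ a) (inn n \ F) := by
    intro x hx y hy
    have h1 := isCx_dcoef hζ hcA (MzM2_flat hfA) y hy x hx
    rw [← h1]
    refine Finset.sum_congr rfl fun b _ => ?_
    unfold dual
    ring
  have hlow : ∀ y ∈ offF n F, car 2 y ∈ Box n \ F := by
    intro y hy
    rw [offF, Finset.mem_filter] at hy
    rw [Finset.mem_sdiff]
    exact ⟨(car_box (by norm_num)).1 hy.1, fun h => hy.2 (hF _ h _ (low_le_car y))⟩
  have hE : IsCx (dcoef ζ (suba 2 a)) (offF n F) := by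
    refine isCx_dcoef hζ (conv_low hF) (flat_mono ?_ (flat_suba (m := 2) (n := n) (by norm_num)
      (conv_sdiff (isComplex_box n) hF) hf))
    intro y hy
    rw [mem_fine (by norm_num) Finset.sdiff_subset]
    exact hlow y hy
  have key := coneq (κ := Cell) (Q := Cell) (D := dual ζ a) (E := dcoef ζ (suba 2 a))
    (P := psi ζ a) hA hB (sec_pos hA hA0) (sec_pos hB hB0) hDs
    (symM_dcoef (symA_suba (by norm_num) ha)) (psi_neg ζ ha) hD hE
    (fun s hs' y hy => psi_chain hF hζ hf s hs' y hy) (fun c => c) low (fun c => -(dim c : ℤ))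
    (fun _ => rfl) low_neg (fun p => by rw [dim_neg])
    (fun c hc => MzM2_ne_neg fun h => hA0 (h ▸ hc))
    (fun y hy => MzM2_ne_neg fun h => (Finset.mem_filter.1 hy).2 (h ▸ h0))
    (fun c _ b _ h => by
      right
      have h1 : dcoef ζ (fun c c' => - a c c') b c ≠ 0 := fun h2 => h (by
        unfold dual
        rw [h2, neg_zero])
      obtain ⟨i, hi⟩ := fct_of_dcoef h1
      have := dim_of_fct hi
      show -(dim b : ℤ) < -(dim c : ℤ)
      omega)
    (fun y _ y' _ h => by
      obtain ⟨i, hi⟩ := fct_of_dcoef h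
      rcases fct_cases hi with ⟨-, h1⟩ | ⟨h1, -⟩
      · right
        have := dim_of_fct h1
        show -(dim (low y') : ℤ) < -(dim (low y) : ℤ)
        omega
      · exact Or.inl h1)
    (fun s _ y _ h => Or.inl (low_of_psi h))
    (fun p => by
      by_cases hpA : p ∈ inn n \ F
      · have h1 : (inn n \ F).filter (fun c => c = p) = {p} := by
          ext c
          rw [Finset.mem_filter, Finset.mem_singleton]
          exact ⟨fun h => h.2, fun h => ⟨h ▸ hpA, h⟩⟩
        have h2 : (offF n F).filter (fun y => low y = p) = lowFib n p := by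
          ext y
          rw [offF, lowFib, Finset.mem_filter, Finset.mem_filter, Finset.mem_filter]
          exact ⟨fun h => ⟨h.1.1, h.2⟩,
            fun h => ⟨⟨h.1, h.2 ▸ (Finset.mem_sdiff.1 hpA).2⟩, h.2⟩⟩
        rw [h1, h2]
        exact lowfib_cone hF hζ hf hpA
      · have h1 : (inn n \ F).filter (fun c => c = p) = ∅ := by
          rw [Finset.filter_eq_empty_iff]
          intro c hc h
          exact hpA (h ▸ hc)
        rw [h1]
        by_cases hpB : p ∈ bd n ∧ p ∉ F
        · have h2 : (offF n F).filter (fun y => low y = p) = lowFib n p := by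
            ext y
            rw [offF, lowFib, Finset.mem_filter, Finset.mem_filter, Finset.mem_filter]
            exact ⟨fun h => ⟨h.1.1, h.2⟩, fun h => ⟨⟨h.1, h.2 ▸ hpB.2⟩, h.2⟩⟩
          rw [h2]
          exact lowfib_bd hF hζ hf hpB.1 hpB.2 hn
        · have h2 : (offF n F).filter (fun y => low y = p) = ∅ := by
            rw [Finset.filter_eq_empty_iff]
            intro y hy h
            have hyF : low y ∉ F := (Finset.mem_filter.1 hy).2
            have hyB : low y ∈ Box n :=
              box_of_le (low_le_car y) (Finset.mem_sdiff.1 (hlow y hy)).1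
            rw [h] at hyF hyB
            refine hpA (Finset.mem_sdiff.2 ⟨Finset.mem_sdiff.2 ⟨hyB, fun h3 => ?_⟩, hyF⟩)
            exact hpB ⟨h3, hyF⟩
          rw [h2, acy_cone_empty]
          intro x _
          exact ⟨x, funext fun b => absurd b.2 (Finset.notMem_empty _)⟩)
  have hdq : dq (dual ζ a) = fun s b => - dq (tr (dcoef ζ (fun c c' => - a c c'))) s b := by
    funext s b
    unfold dq dual tr
    ring
  rw [hdq] at key
  obtain ⟨h1, h2⟩ := neg_par (dq (tr (dcoef ζ (fun c c' => - a c c')))) (pos (inn n \ F))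
  exact ⟨key.1.symm.trans h1, key.2.symm.trans h2⟩

end Cub
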