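import Pool.Agent.H33.CB.Iface
import Pool.Agent.H33.CB.MzM1
import Pool.Agent.H33.CB.MzM2
import Pool.Agent.H33.CB.CzM3
import Pool.Agent.H33.CB.GzT5

/-!
# The four geometric comparisons, collected
-/

namespace Cub

theorem stM1 : StM1 := by
  intro R _ ζ hζ m hm n A a hA hc hs h0 ha hf
  exact thmM1 hm hζ hA hc hs h0 hf ha

theorem stM2 : StM2 := by
  intro R _ ζ hζ n F B a hF ha
  exact thmM2 (fun i => le_trans (by norm_num) (hF.big i)) hF.surf.cx hF.sub hF.symm
    ((hF.flat 0 (le_refl' 0)).2 ⟨rfl, rfl⟩) hζ ha.flat ha.symm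

theorem stM3 : StM3 := by
  intro R _ ζ hζ hu n F B a hF ha
  have h1 : ζ ^ 2 + ζ + 1 = 0 := by
    have : (1 - ζ) * (ζ ^ 2 + ζ + 1) = 0 := by linear_combination -hζ
    exact (hu.mul_right_eq_zero).1 this
  exact thmM3 hF h1 hu ha

theorem stT5 : StT5 := by
  intro n F B hF w hw hws hwc
  exact exists_locsys hF w hw hws hwc

end Cub
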