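import Pool.Agent.H33.CB.FProp

/-!
# Module Collar (about 200 lines): the disc near the boundary of the box

`collar`: let `c` be an edge of `B` and `v` a vertex of `c`, `c = v + d`, `d` an end of the path at `v`, `d₂` its
neighbour in the path: the square `c + d₂` is in `F` and not in `bd n` (as `F ∩ bd n = B` has
dimension at most one), while `c ∈ bd n`.  So `c` has exactly one extremal coordinate `k`, and `d₂`
points inwards in the direction `k`.
`bd_mono`: flatness of `a` at the two-dimensional faces `w` (walls `c ± e i`, `c ± e j` of `bd n`) of the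
four-dimensional cells `c - s e_k ± e_i ± e_j`:
`a Q T + a T w = a Q w' + a w' w`, where `T = Q + s e_k`, `w' = w - s e_k`.  Sum around the loop: the terms
`a Q T` and `a w' w` cancel, and `mono a c i j = mono a (c - s e_k) i j ≠ 0`, since `c - s e_k` is a
square of `F`.
-/

namespace Cub

private theorem Collar_zip (l : List Cell) (x y : Cell) :
    (x, y) ∈ (l ++ [x, y]).zip (l ++ [x, y]).tail := by
  induction l with
  | nil => simp
  | cons a l ih =>
    rcases hl : l ++ [x, y] with _ | ⟨b, L'⟩
    · simp at hl
    · rw [List.cons_append, hl, List.tail_cons, List.zip_cons_cons]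
      rw [hl, List.tail_cons] at ih
      exact List.mem_cons_of_mem _ ih

/-- the end of a path has a neighbour -/
private theorem Collar_nb {F : Finset Cell} {v d : Cell} {l : List Cell} (hl : LinkPath F v l)
    (hd : l.head? = some d ∨ l.getLast? = some d) :
    ∃ d₂, IsDir d₂ ∧ d₂ ≠ d ∧ d₂ ≠ -d ∧ v + d + d₂ ∈ F := by
  obtain ⟨hlen, hnd, hdir, hopp, hmem⟩ := hl
  rcases hd with hd | hd
  · rcases l with _ | ⟨a, _ | ⟨b, t⟩⟩
    · simp at hlen
    · simp at hlen
    · simp only [List.head?_cons, Option.some.injEq] at hd
      subst hd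
      have hz : (a, b) ∈ (a :: b :: t).zip (a :: b :: t).tail := by simp
      refine ⟨b, hdir b (by simp), ?_, hopp _ hz, ?_⟩
      · intro h
        rw [h] at hnd
        simp at hnd
      · exact ((hmem _).2 (Or.inr (Or.inr ⟨_, hz, rfl⟩))).1
  · obtain ⟨l', hl'⟩ := List.getLast?_eq_some_iff.1 hd
    rcases List.eq_nil_or_concat l' with h0 | ⟨l'', b, h0⟩
    · rw [h0] at hl'
      rw [hl'] at hlen
      simp at hlen
    · have e1 : l = l'' ++ [b, d] := by
        rw [hl', h0]
        simp
      have hz : (b, d) ∈ l.zip l.tail := by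
        rw [e1]
        exact Collar_zip l'' b d
      have hb : b ∈ l := by
        rw [e1]
        simp
      refine ⟨b, hdir b hb, ?_, ?_, ?_⟩
      · intro h
        rw [e1, h] at hnd
        have := (List.nodup_append.1 hnd).2.1
        simp at this
      · intro h
        have := hopp _ hz
        apply this
        simp [h]
      · have := ((hmem _).2 (Or.inr (Or.inr ⟨_, hz, rfl⟩))).1
        have e2 : v + b + d = v + d + b := by abel
        rw [← e2]
        exact this

private theorem Collar_e (i j : Fin 4) : e i j = if j = i then 1 else 0 := by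
  simp [e, Pi.single_apply]

theorem collar {n : Fin 4 → ℕ} {F B : Finset Cell} (hF : GoodDisc n F B) {c : Cell} (hc : c ∈ B)
    (hd : dim c = 1) : ∃ k : Fin 4, ∃ s : ℤ, (s = 1 ∨ s = -1) ∧ c k = s * (2 * (n k : ℤ)) ∧
      c - s • e k ∈ F ∧ ∀ i, i ≠ k → -(2 * (n i : ℤ)) < c i ∧ c i < 2 * (n i : ℤ) := by
  classical
  obtain ⟨j, hj⟩ := Finset.card_eq_one.1 hd
  have hodd : c j % 2 = 1 := by
    have : j ∈ Finset.univ.filter (fun i => c i % 2 = 1) := by rw [hj]; simp
    simpa using this
  have heven : ∀ i, i ≠ j → c i % 2 ≠ 1 := by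
    intro i hi h
    have : i ∈ Finset.univ.filter (fun i => c i % 2 = 1) := by simpa using h
    rw [hj, Finset.mem_singleton] at this
    exact hi this
  -- the vertex
  have hvle : Le (c - e j) c := by
    intro i
    by_cases hi : i = j
    · subst hi
      right
      refine ⟨hodd, Or.inl ?_⟩
      rw [Pi.sub_apply, Collar_e, if_pos rfl]
    · left
      rw [Pi.sub_apply, Collar_e, if_neg hi, sub_zero]
  have hvB : c - e j ∈ B := hF.surf.bcx c hc _ hvle
  have hv0 : dim (c - e j) = 0 := by
    rw [dim, Finset.card_eq_zero, Finset.filter_eq_empty_iff]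
    intro i _
    rw [Pi.sub_apply, Collar_e]
    by_cases hi : i = j
    · subst hi
      rw [if_pos rfl]
      omega
    · rw [if_neg hi, sub_zero]
      exact heven i hi
  obtain ⟨l, hl, hends⟩ := hF.surf.outer _ hvB hv0
  have hdj : IsDir (e j) := ⟨j, Or.inl rfl⟩
  have hvc : c - e j + e j = c := sub_add_cancel c (e j)
  obtain ⟨d₂, hd2, hne, hne', hq⟩ := Collar_nb hl ((hends (e j)).1 ⟨hdj, by rw [hvc]; exact hc⟩)
  rw [hvc] at hq
  -- the direction of d₂
  obtain ⟨m, hm⟩ := hd2
  obtain ⟨t, ht, hd2t⟩ : ∃ t : ℤ, (t = 1 ∨ t = -1) ∧ d₂ = t • e m := by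
    rcases hm with hm | hm
    · exact ⟨1, Or.inl rfl, by rw [hm]; simp [e]⟩
    · refine ⟨-1, Or.inr rfl, ?_⟩
      rw [hm]
      funext i
      simp [e, Pi.single_apply]
  have hmj : m ≠ j := by
    rintro rfl
    rcases ht with rfl | rfl
    · exact hne (by rw [hd2t, one_smul])
    · exact hne' (by rw [hd2t]; simp)
  subst hd2t
  have hqi : ∀ i, (c + t • e m) i = c i + if i = m then t else 0 := by
    intro i
    rw [Pi.add_apply, Pi.smul_apply, Collar_e]
    split_ifs <;> simp
  have hmodd : (c + t • e m) m % 2 = 1 := by
    rw [hqi, if_pos rfl]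
    have := heven m hmj
    rcases ht with rfl | rfl <;> omega
  have hdimq : 2 ≤ dim (c + t • e m) := by
    have h1 : ({j, m} : Finset (Fin 4)) ⊆
        Finset.univ.filter (fun i => (c + t • e m) i % 2 = 1) := by
      intro i hi
      rw [Finset.mem_insert, Finset.mem_singleton] at hi
      rw [Finset.mem_filter]
      refine ⟨Finset.mem_univ _, ?_⟩
      rcases hi with rfl | rfl
      · rw [hqi, if_neg (Ne.symm hmj), add_zero]
        exact hodd
      · exact hmodd
    have h2 := Finset.card_le_card h1
    rw [Finset.card_pair (Ne.symm hmj)] at h2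
    exact h2
  have hnb : c + t • e m ∉ bd n := by
    intro h
    have h1 : c + t • e m ∈ B := by
      rw [← hF.bdy]
      exact Finset.mem_inter.2 ⟨hq, h⟩
    have := hF.surf.bdim _ h1
    omega
  have hbox := mem_box.1 (hF.sub hq)
  have hstr : ∀ i, -(2 * (n i : ℤ)) < (c + t • e m) i ∧ (c + t • e m) i < 2 * (n i : ℤ) := by
    intro i
    have h1 : ¬ ((c + t • e m) i = 2 * (n i : ℤ) ∨ (c + t • e m) i = -(2 * (n i : ℤ))) := by
      intro h
      exact hnb (mem_bd.2 ⟨hF.sub hq, i, h⟩)
    have h2 := hbox i
    constructor
    · rcases lt_or_eq_of_le h2.1 with h | h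
      · exact h
      · exact absurd (Or.inr h.symm) h1
    · rcases lt_or_eq_of_le h2.2 with h | h
      · exact h
      · exact absurd (Or.inl h) h1
  have hcb : c ∈ bd n := by
    have : c ∈ F ∩ bd n := by rw [hF.bdy]; exact hc
    exact (Finset.mem_inter.1 this).2
  obtain ⟨k, hk⟩ := (mem_bd.1 hcb).2
  have hkm : k = m := by
    by_contra hkm
    have h1 := hstr k
    rw [hqi, if_neg hkm, add_zero] at h1
    rcases hk with hk | hk <;> omega
  subst hkm
  have hk' := hstr k
  rw [hqi, if_pos rfl] at hk'
  have hoth : ∀ i, i ≠ k → -(2 * (n i : ℤ)) < c i ∧ c i < 2 * (n i : ℤ) := by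
    intro i hi
    have h1 := hstr i
    rwa [hqi, if_neg hi, add_zero] at h1
  rcases hk with hk | hk
  · have ht1 : t = -1 := by
      rcases ht with rfl | rfl
      · omega
      · rfl
    subst ht1
    refine ⟨k, 1, Or.inl rfl, by rw [hk, one_mul], ?_, hoth⟩
    have e1 : c - (1 : ℤ) • e k = c + (-1 : ℤ) • e k := by
      rw [neg_smul, sub_eq_add_neg]
    rw [e1]
    exact hq
  · have ht1 : t = 1 := by
      rcases ht with rfl | rfl
      · rfl
      · omega
    subst ht1
    refine ⟨k, -1, Or.inr rfl, by rw [hk]; ring, ?_, hoth⟩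
    have e1 : c - (-1 : ℤ) • e k = c + (1 : ℤ) • e k := by
      rw [neg_smul, sub_neg_eq_add]
    rw [e1]
    exact hq

theorem bd_mono {n : Fin 4 → ℕ} {F B : Finset Cell} (hF : GoodDisc n F B)
    {a : Cell → Cell → ZMod 3} (ha : LocSys n F a) {c : Cell} (hc : c ∈ B) (hd : dim c = 1)
    (i j : Fin 4) (hij : i < j) (hi : c i % 2 = 0) (hj : c j % 2 = 0)
    (hi' : -(2 * (n i : ℤ)) < c i ∧ c i < 2 * (n i : ℤ))
    (hj' : -(2 * (n j : ℤ)) < c j ∧ c j < 2 * (n j : ℤ)) : mono a c i j ≠ 0 := by
  classical
  obtain ⟨k, s, hs, hck, hQ, hoth⟩ := collar hF hc hd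
  have hki : k ≠ i := by
    rintro rfl
    rcases hs with rfl | rfl <;> omega
  have hkj : k ≠ j := by
    rintro rfl
    rcases hs with rfl | rfl <;> omega
  have hij' : i ≠ j := ne_of_lt hij
  obtain ⟨o, ho⟩ := Finset.card_eq_one.1 hd
  have hodd : c o % 2 = 1 := by
    have : o ∈ Finset.univ.filter (fun i => c i % 2 = 1) := by rw [ho]; simp
    simpa using this
  have heven : ∀ i, i ≠ o → c i % 2 ≠ 1 := by
    intro i hi h
    have : i ∈ Finset.univ.filter (fun i => c i % 2 = 1) := by simpa using h
    rw [ho, Finset.mem_singleton] at this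
    exact hi this
  have hck2 : c k % 2 = 0 := by rw [hck]; rcases hs with rfl | rfl <;> omega
  have hoi : o ≠ i := by rintro rfl; omega
  have hoj : o ≠ j := by rintro rfl; omega
  have hok : o ≠ k := by rintro rfl; omega
  have hbox := mem_box.1 ((mem_bd.1 (Finset.mem_inter.1 (by rw [hF.bdy]; exact hc : c ∈ F ∩ bd n)).2).1)
  have hnk := hF.big k
  -- coordinates
  have hco : ∀ (α β γ : ℤ) (x : Fin 4), (c + α • e i + β • e j - γ • e k) x =
      c x + (if x = i then α else 0) + (if x = j then β else 0) - (if x = k then γ else 0) := by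
    intro α β γ x
    simp only [Pi.sub_apply, Pi.add_apply, Pi.smul_apply, Collar_e, smul_eq_mul]
    split_ifs <;> simp
  -- walls on the boundary are not in F
  have hwall : ∀ α β : ℤ, (α = 1 ∨ α = -1 ∨ α = 0) → (β = 1 ∨ β = -1 ∨ β = 0) →
      (α ≠ 0 ∨ β ≠ 0) → c + α • e i + β • e j - (0 : ℤ) • e k ∈ Box n \ F := by
    intro α β hα hβ hne
    have hb : c + α • e i + β • e j - (0 : ℤ) • e k ∈ Box n := by
      rw [mem_box]
      intro x
      rw [hco]
      have h1 := hbox x
      by_cases hxi : x = i
      · subst hxi
        simp only [if_true, if_neg hij', if_neg hki.symm]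
        omega
      · by_cases hxj : x = j
        · subst hxj
          simp only [if_true, if_neg hxi, if_neg hkj.symm]
          omega
        · simp only [if_neg hxi, if_neg hxj]
          by_cases hxk : x = k
          · simp only [if_pos hxk]; omega
          · simp only [if_neg hxk]; omega
    refine Finset.mem_sdiff.2 ⟨hb, fun hFm => ?_⟩
    have hbd : c + α • e i + β • e j - (0 : ℤ) • e k ∈ bd n := by
      refine mem_bd.2 ⟨hb, k, ?_⟩
      rw [hco, if_neg hki, if_neg hkj]
      simp only [ite_self, add_zero, sub_zero]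
      rcases hs with rfl | rfl
      · left; rw [hck]; ring
      · right; rw [hck]; ring
    have hB : c + α • e i + β • e j - (0 : ℤ) • e k ∈ B := by
      rw [← hF.bdy]
      exact Finset.mem_inter.2 ⟨hFm, hbd⟩
    have hdim := hF.surf.bdim _ hB
    have key : ∀ x, x ≠ o → (c + α • e i + β • e j - (0 : ℤ) • e k) x % 2 = 1 → False := by
      intro x hx hx1
      have h1 : ({o, x} : Finset (Fin 4)) ⊆ Finset.univ.filter
          (fun y => (c + α • e i + β • e j - (0 : ℤ) • e k) y % 2 = 1) := by
        intro y hy
        rw [Finset.mem_insert, Finset.mem_singleton] at hy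
        rw [Finset.mem_filter]
        refine ⟨Finset.mem_univ _, ?_⟩
        rcases hy with rfl | rfl
        · rw [hco, if_neg hoi, if_neg hoj, if_neg hok]
          simpa using hodd
        · exact hx1
      have h2 := Finset.card_le_card h1
      rw [Finset.card_pair (Ne.symm hx)] at h2
      rw [dim] at hdim
      omega
    rcases hne with h | h
    · apply key i hoi.symm
      rw [hco]
      simp only [if_true, if_neg hij', if_neg hki.symm]
      omega
    · apply key j hoj.symm
      rw [hco]
      simp only [if_true, if_neg hij'.symm, if_neg hkj.symm]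
      omega
  -- the four dimensional cells are not in F
  have hbig : ∀ α β : ℤ, (α = 1 ∨ α = -1) → (β = 1 ∨ β = -1) →
      c + α • e i + β • e j - s • e k ∈ Box n \ F := by
    intro α β hα hβ
    have hw := hwall α β (hα.elim Or.inl fun h => Or.inr (Or.inl h))
      (hβ.elim Or.inl fun h => Or.inr (Or.inl h))
      (Or.inl (by rcases hα with rfl | rfl <;> norm_num))
    have hwb := mem_box.1 (Finset.mem_sdiff.1 hw).1
    refine Finset.mem_sdiff.2 ⟨?_, fun hFm => (Finset.mem_sdiff.1 hw).2 ?_⟩
    · rw [mem_box]
      intro x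
      have h1 := hwb x
      rw [hco] at h1 ⊢
      by_cases hxk : x = k
      · subst hxk
        rw [if_neg hki, if_neg hkj, if_pos rfl]
        rcases hs with rfl | rfl <;> omega
      · simp only [if_neg hxk] at h1 ⊢
        exact h1
    · refine hF.surf.cx _ hFm _ ?_
      intro x
      rw [hco, hco]
      by_cases hxk : x = k
      · subst hxk
        rw [if_neg hki, if_neg hkj]
        right
        simp only [if_true]
        constructor
        · rcases hs with rfl | rfl <;> omega
        · rcases hs with rfl | rfl
          · right; ring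
          · left; ring
      · left
        simp only [if_neg hxk]
  -- flatness
  have hfl := ha.flat
  have flj : ∀ α β : ℤ, (α = 1 ∨ α = -1) → (β = 1 ∨ β = -1) →
      a (c + α • e i + β • e j - s • e k) (c + α • e i + β • e j) +
        a (c + α • e i + β • e j) (c + α • e i) =
      a (c + α • e i + β • e j - s • e k) (c + α • e i - s • e k) +
        a (c + α • e i - s • e k) (c + α • e i) := by
    intro α β hα hβ
    have h1 := hfl _ (hbig α β hα hβ) k j hkj
      (by
        rw [hco, if_neg hki, if_neg hkj, if_pos rfl]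
        rcases hs with rfl | rfl <;> omega)
      (by
        rw [hco, if_neg hij'.symm, if_pos rfl, if_neg hkj.symm]
        rcases hβ with rfl | rfl <;> omega)
      s (-β) hs (by rcases hβ with rfl | rfl <;> simp)
    have e1 : c + α • e i + β • e j - s • e k + s • e k = c + α • e i + β • e j := by abel
    have e2 : c + α • e i + β • e j + (-β) • e j = c + α • e i := by
      rw [neg_smul]; abel
    have e3 : c + α • e i + β • e j - s • e k + (-β) • e j = c + α • e i - s • e k := by
      rw [neg_smul]; abel
    rw [e1, e2, e3] at h1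
    refine h1 ?_
    have h2 := hwall α 0 (hα.elim Or.inl fun h => Or.inr (Or.inl h)) (Or.inr (Or.inr rfl))
      (Or.inl (by rcases hα with rfl | rfl <;> norm_num))
    simpa using h2
  have fli : ∀ α β : ℤ, (α = 1 ∨ α = -1) → (β = 1 ∨ β = -1) →
      a (c + α • e i + β • e j - s • e k) (c + α • e i + β • e j) +
        a (c + α • e i + β • e j) (c + β • e j) =
      a (c + α • e i + β • e j - s • e k) (c + β • e j - s • e k) +
        a (c + β • e j - s • e k) (c + β • e j) := by
    intro α β hα hβ
    have h1 := hfl _ (hbig α β hα hβ) k i hki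
      (by
        rw [hco, if_neg hki, if_neg hkj, if_pos rfl]
        rcases hs with rfl | rfl <;> omega)
      (by
        rw [hco, if_pos rfl, if_neg hij', if_neg hki.symm]
        rcases hα with rfl | rfl <;> omega)
      s (-α) hs (by rcases hα with rfl | rfl <;> simp)
    have e1 : c + α • e i + β • e j - s • e k + s • e k = c + α • e i + β • e j := by abel
    have e2 : c + α • e i + β • e j + (-α) • e i = c + β • e j := by
      rw [neg_smul]; abel
    have e3 : c + α • e i + β • e j - s • e k + (-α) • e i = c + β • e j - s • e k := by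
      rw [neg_smul]; abel
    rw [e1, e2, e3] at h1
    refine h1 ?_
    have h2 := hwall 0 β (Or.inr (Or.inr rfl)) (hβ.elim Or.inl fun h => Or.inr (Or.inl h))
      (Or.inr (by rcases hβ with rfl | rfl <;> norm_num))
    simpa using h2
  -- the square of F
  have hQdim : dim (c - s • e k) = 2 := by
    have h1 : Finset.univ.filter (fun x => (c - s • e k) x % 2 = 1) = {o, k} := by
      ext x
      rw [Finset.mem_filter, Finset.mem_insert, Finset.mem_singleton]
      have hx : (c - s • e k) x = c x - if x = k then s else 0 := by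
        rw [Pi.sub_apply, Pi.smul_apply, Collar_e]
        split_ifs <;> simp
      rw [hx]
      by_cases hxk : x = k
      · subst hxk
        simp only [if_true, or_true, iff_true]
        refine ⟨Finset.mem_univ _, ?_⟩
        rcases hs with rfl | rfl <;> omega
      · simp only [if_neg hxk, sub_zero]
        constructor
        · rintro ⟨-, h⟩
          by_contra hxo
          exact heven x (fun h' => hxo (Or.inl h')) h
        · rintro (rfl | h)
          · exact ⟨Finset.mem_univ _, hodd⟩
          · exact absurd h hxk
    rw [dim, h1, Finset.card_pair hok]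
  have hQm := ha.mono _ hQ i j hij
    (by
      rw [Pi.sub_apply, Pi.smul_apply, Collar_e, if_neg hki.symm]
      simpa using hi)
    (by
      rw [Pi.sub_apply, Pi.smul_apply, Collar_e, if_neg hkj.symm]
      simpa using hj) hQdim
  have hmain : mono a c i j = mono a (c - s • e k) i j := by
    have p1 : c - s • e k + e i + e j = c + e i + e j - s • e k := by abel
    have p2 : c - s • e k + e i - e j = c + e i - e j - s • e k := by abel
    have p3 : c - s • e k - e i + e j = c - e i + e j - s • e k := by abel
    have p4 : c - s • e k - e i - e j = c - e i - e j - s • e k := by abel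
    have p5 : c - s • e k + e i = c + e i - s • e k := by abel
    have p6 : c - s • e k - e i = c - e i - s • e k := by abel
    have p7 : c - s • e k + e j = c + e j - s • e k := by abel
    have p8 : c - s • e k - e j = c - e j - s • e k := by abel
    unfold mono
    rw [p1, p2, p3, p4, p5, p6, p7, p8]
    have j1 := flj 1 1 (by simp) (by simp)
    have j2 := flj 1 (-1) (by simp) (by simp)
    have j3 := flj (-1) 1 (by simp) (by simp)
    have j4 := flj (-1) (-1) (by simp) (by simp)
    have i1 := fli 1 1 (by simp) (by simp)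
    have i2 := fli 1 (-1) (by simp) (by simp)
    have i3 := fli (-1) 1 (by simp) (by simp)
    have i4 := fli (-1) (-1) (by simp) (by simp)
    simp only [one_smul, neg_smul, ← sub_eq_add_neg] at j1 j2 j3 j4 i1 i2 i3 i4
    linear_combination j1 - j2 + i2 - i4 + j4 - j3 + i3 - i1
  rw [hmain]
  exact hQm

end Cub
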