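import Pool.Agent.H33.CB.CxD

/-!
# Module CurveCyc (about 150 lines): one-cycles on a curve

`B` is a simple closed curve.  A one-cycle `x` (values in `ZMod 3`) which vanishes at one edge vanishes at
all edges: at a vertex `v` with the two edges `v + d`, `v + d'` the cycle condition is
`x (v+d) * inc (v+d) v + x (v+d') * inc (v+d') v = 0`, with incidence numbers `± 1`; connectedness.
Then apply this to `x - σ x'` with `σ = x c₀ / x' c₀`.
`curve_bd`: the form for chains on `bd n` which vanish outside `B`.
-/

namespace Cub

private theorem le_dim_eq {a b : Cell} (h : Le a b) (hd : dim a = dim b) : a = b := by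
  by_contra hne
  obtain ⟨i, hi⟩ := Function.ne_iff.1 hne
  have hsub : Finset.univ.filter (fun j => a j % 2 = 1) ⊂ Finset.univ.filter (fun j => b j % 2 = 1) := by
    rw [Finset.ssubset_iff_of_subset]
    · refine ⟨i, ?_, ?_⟩
      · rcases h i with h1 | h1
        · exact absurd h1 hi
        · simp [h1.1]
      · rcases h i with h1 | h1
        · exact absurd h1 hi
        · simp only [Finset.mem_filter, Finset.mem_univ, true_and]
          omega
    · intro j hj
      simp only [Finset.mem_filter, Finset.mem_univ, true_and] at hj ⊢
      rcases h j with h1 | h1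
      · omega
      · omega
  have := Finset.card_lt_card hsub
  unfold dim at hd
  omega

private theorem dim_add_dir {v d : Cell} (hv : dim v = 0) (hd : IsDir d) :
    1 ≤ dim (v + d) ∧ inc (v + d) v ≠ 0 := by
  have hev : ∀ i, v i % 2 ≠ 1 := by
    intro i hi
    have : i ∈ Finset.univ.filter (fun j => v j % 2 = 1) := by simp [hi]
    unfold dim at hv
    rw [Finset.card_eq_zero] at hv
    rw [hv] at this
    simp at this
  obtain ⟨i, hi⟩ := hd
  have hodd : (v + d) i % 2 = 1 := by
    have h1 := hev i
    rcases hi with h2 | h2
    · rw [h2]
      simp only [Pi.add_apply, Pi.single_eq_same]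
      omega
    · rw [h2]
      simp only [Pi.add_apply, Pi.single_eq_same]
      omega
  refine ⟨?_, ?_⟩
  · unfold dim
    have : i ∈ Finset.univ.filter (fun j => (v + d) j % 2 = 1) := by
      simp only [Finset.mem_filter, Finset.mem_univ, true_and]
      exact hodd
    exact Finset.card_pos.2 ⟨i, this⟩
  · rw [inc_ne]
    refine ⟨i, hodd, ?_⟩
    rcases hi with h2 | h2
    · right
      rw [h2]
      unfold e
      simp
    · left
      rw [h2]
      unfold e
      funext j
      simp only [Pi.add_apply]
      by_cases hj : j = i
      · subst hj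
        simp
      · simp [Pi.single_eq_of_ne hj]

private theorem inc_cast_ne {c v : Cell} (h : inc c v ≠ 0) : (inc c v : ZMod 3) ≠ 0 := by
  rcases inc_val c v with h1 | h1 | h1
  · exact absurd h1 h
  · rw [h1]
    decide
  · rw [h1]
    decide

private theorem vertex_rel {B : Finset Cell} (hB : IsCurve B) (y : Cell → ZMod 3) {v d d' : Cell}
    (hv : dim v = 0) (hd : IsDir d) (hd' : IsDir d') (hdd : d ≠ d')
    (htwo : ∀ c, (c ∈ B ∧ Le v c) ↔ (c = v ∨ c = v + d ∨ c = v + d'))
    (hy : ∑ c ∈ B.filter (fun c => dim c = 1), y c * (inc c v : ZMod 3) = 0) :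
    y (v + d) = 0 ↔ y (v + d') = 0 := by
  have h1 := dim_add_dir hv hd
  have h2 := dim_add_dir hv hd'
  have hm1 : v + d ∈ B := ((htwo (v + d)).2 (Or.inr (Or.inl rfl))).1
  have hm2 : v + d' ∈ B := ((htwo (v + d')).2 (Or.inr (Or.inr rfl))).1
  have hne : v + d ≠ v + d' := fun h => hdd (add_left_cancel h)
  have hsum : ∑ c ∈ B.filter (fun c => dim c = 1), y c * (inc c v : ZMod 3)
      = y (v + d) * (inc (v + d) v : ZMod 3) + y (v + d') * (inc (v + d') v : ZMod 3) := by
    apply Finset.sum_eq_add (v + d) (v + d') hne
    · intro c hc hcc
      have hcB : c ∈ B := (Finset.mem_filter.1 hc).1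
      have hcd : dim c = 1 := (Finset.mem_filter.1 hc).2
      by_cases h0 : inc c v = 0
      · rw [h0]
        simp
      · exfalso
        rcases (htwo c).1 ⟨hcB, (le_of_inc h0).1⟩ with h3 | h3 | h3
        · rw [h3, hv] at hcd
          exact absurd hcd (by norm_num)
        · exact hcc.1 h3
        · exact hcc.2 h3
    · intro h3
      exfalso
      apply h3
      have := hB.dim_le _ hm1
      exact Finset.mem_filter.2 ⟨hm1, by omega⟩
    · intro h3
      exfalso
      apply h3
      have := hB.dim_le _ hm2
      exact Finset.mem_filter.2 ⟨hm2, by omega⟩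
  rw [hsum] at hy
  have n1 := inc_cast_ne h1.2
  have n2 := inc_cast_ne h2.2
  have : Fact (Nat.Prime 3) := ⟨Nat.prime_three⟩
  constructor
  · intro h
    rw [h, zero_mul, zero_add] at hy
    exact (mul_eq_zero.1 hy).resolve_right n2
  · intro h
    rw [h, zero_mul, add_zero] at hy
    exact (mul_eq_zero.1 hy).resolve_right n1

private theorem vanish {B : Finset Cell} (hB : IsCurve B) (y : Cell → ZMod 3)
    (hy : ∀ v ∈ B, dim v = 0 →
      ∑ c ∈ B.filter (fun c => dim c = 1), y c * (inc c v : ZMod 3) = 0)
    {c₀ : Cell} (hc₀ : c₀ ∈ B) (hd₀ : dim c₀ = 1) (hz : y c₀ = 0) :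
    ∀ c ∈ B, dim c = 1 → y c = 0 := by
  have key : ∀ c, c ∈ B → (dim c = 1 → y c = 0) ∧
      (dim c = 0 → ∀ c' ∈ B, dim c' = 1 → Le c c' → y c' = 0) := by
    intro c hc
    have hpath := hB.conn.2 c₀ hc₀ c hc
    clear hc
    induction hpath with
    | refl =>
      refine ⟨fun _ => hz, fun h => ?_⟩
      rw [h] at hd₀
      exact absurd hd₀ (by norm_num)
    | @tail a b _ hstep ih =>
      obtain ⟨haB, hbB, hle⟩ := hstep
      have hda := hB.dim_le a haB
      have hdb := hB.dim_le b hbB
      rcases Nat.lt_or_ge (dim a) 1 with ha0 | ha1
      · -- a is a vertex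
        have ha : dim a = 0 := by omega
        rcases Nat.lt_or_ge (dim b) 1 with hb0 | hb1
        · have hb : dim b = 0 := by omega
          have hab : a = b := by
            rcases hle with h | h
            · exact le_dim_eq h (by omega)
            · exact (le_dim_eq h (by omega)).symm
          rw [← hab]
          exact ih
        · have hb : dim b = 1 := by omega
          refine ⟨fun _ => ?_, fun h => by omega⟩
          have hab : Le a b := by
            rcases hle with h | h
            · exact h
            · exfalso
              have hsub : Finset.univ.filter (fun j => b j % 2 = 1)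
                  ⊆ Finset.univ.filter (fun j => a j % 2 = 1) := by
                intro j hj
                simp only [Finset.mem_filter, Finset.mem_univ, true_and] at hj ⊢
                rcases h j with h1 | h1
                · omega
                · omega
              have := Finset.card_le_card hsub
              unfold dim at ha hb
              omega
          exact ih.2 ha b hbB hb hab
      · have ha : dim a = 1 := by omega
        rcases Nat.lt_or_ge (dim b) 1 with hb0 | hb1
        · have hb : dim b = 0 := by omega
          refine ⟨fun h => by omega, fun _ c' hc' hd' hle' => ?_⟩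
          have hba : Le b a := by
            rcases hle with h | h
            · exfalso
              have hsub : Finset.univ.filter (fun j => a j % 2 = 1)
                  ⊆ Finset.univ.filter (fun j => b j % 2 = 1) := by
                intro j hj
                simp only [Finset.mem_filter, Finset.mem_univ, true_and] at hj ⊢
                rcases h j with h1 | h1
                · omega
                · omega
              have := Finset.card_le_card hsub
              unfold dim at ha hb
              omega
            · exact h
          obtain ⟨d, d', hd, hd'', hdd, htwo⟩ := hB.two b hbB hb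
          have hrel := vertex_rel hB y hb hd hd'' hdd htwo (hy b hbB hb)
          have hya : y a = 0 := ih.1 ha
          have hbne : b ≠ a := by
            intro h
            rw [h] at hb
            omega
          have hboth : y (b + d) = 0 ∧ y (b + d') = 0 := by
            rcases (htwo a).1 ⟨haB, hba⟩ with h | h | h
            · exact absurd h.symm hbne
            · rw [h] at hya
              exact ⟨hya, hrel.1 hya⟩
            · rw [h] at hya
              exact ⟨hrel.2 hya, hya⟩
          rcases (htwo c').1 ⟨hc', hle'⟩ with h | h | h
          · rw [h] at hd'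
            omega
          · rw [h]
            exact hboth.1
          · rw [h]
            exact hboth.2
        · have hb : dim b = 1 := by omega
          have hab : a = b := by
            rcases hle with h | h
            · exact le_dim_eq h (by omega)
            · exact (le_dim_eq h (by omega)).symm
          rw [← hab]
          exact ih
  exact fun c hc hd => (key c hc).1 hd

theorem curve_cyc {B : Finset Cell} (hB : IsCurve B) (x x' : Cell → ZMod 3)
    (hx : ∀ v ∈ B, dim v = 0 →
      ∑ c ∈ B.filter (fun c => dim c = 1), x c * (inc c v : ZMod 3) = 0)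
    (hx' : ∀ v ∈ B, dim v = 0 →
      ∑ c ∈ B.filter (fun c => dim c = 1), x' c * (inc c v : ZMod 3) = 0)
    (h1 : ∃ c ∈ B, dim c = 1 ∧ x c ≠ 0) (h2 : ∃ c ∈ B, dim c = 1 ∧ x' c ≠ 0) :
    ∃ σ : ZMod 3, σ ≠ 0 ∧ ∀ c ∈ B, dim c = 1 → x c = σ * x' c := by
  have : Fact (Nat.Prime 3) := ⟨Nat.prime_three⟩
  obtain ⟨c₀, hc₀, hd₀, hx₀⟩ := h2
  have key : ∀ c ∈ B, dim c = 1 → x c = (x c₀ / x' c₀) * x' c := by
    have hv := vanish hB (fun c => x c - (x c₀ / x' c₀) * x' c)
      (by
        intro v hv hdv
        have e1 := hx v hv hdv
        have e2 := hx' v hv hdv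
        simp only [sub_mul, mul_assoc, Finset.sum_sub_distrib, ← Finset.mul_sum]
        rw [e1, e2]
        simp)
      hc₀ hd₀ (by
        rw [div_mul_cancel₀ _ hx₀, sub_self])
    intro c hc hd
    exact sub_eq_zero.1 (hv c hc hd)
  refine ⟨x c₀ / x' c₀, ?_, key⟩
  intro h0
  obtain ⟨c, hc, hd, hne⟩ := h1
  apply hne
  rw [key c hc hd, h0, zero_mul]

end Cub
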