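import Pool.Agent.H33.CB.Match

/-!
# Module CxD (about 200 lines): incidence numbers, `∂ ∂ = 0`, convex sets of cells

`isCx_dcoef`: the sum over `b` has at most two nonzero terms (`y = c + s e_i + t e_j`, `b = c + s e_i` or
`c + t e_j`), both `b` are in `A` by convexity; the signs are opposite (`sgn j (c + s e_i) = - sgn j c`
for `i < j`, `sgn i (c + t e_j) = sgn i c`), and the exponents agree by flatness.
If `c i` is odd then `c ± e i` has an even coordinate `i`, so a coordinate is used only once.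
-/

namespace Cub

variable {R : Type} [CommRing R]

private theorem cxd_e_self (i : Fin 4) : e i i = 1 := by simp [e]

private theorem cxd_e_ne {i j : Fin 4} (h : j ≠ i) : e i j = 0 := by simp [e, h]

private theorem cxd_add_inj {c : Cell} {i j : Fin 4} {s t : ℤ} (hs : s = 1 ∨ s = -1)
    (h : c + s • e i = c + t • e j) : i = j ∧ s = t := by
  by_cases hij : i = j
  · subst hij
    refine ⟨rfl, ?_⟩
    have := congrFun h i
    simpa [cxd_e_self] using this
  · exfalso
    have := congrFun h i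
    simp [cxd_e_self, cxd_e_ne hij] at this
    omega

private theorem cxd_or {c c' : Cell} {i : Fin 4} :
    (c' = c + e i ∨ c' = c - e i) ↔ ∃ s : ℤ, (s = 1 ∨ s = -1) ∧ c' = c + s • e i := by
  constructor
  · rintro (h | h)
    · exact ⟨1, Or.inl rfl, by simpa using h⟩
    · exact ⟨-1, Or.inr rfl, by rw [h]; simp [sub_eq_add_neg]⟩
  · rintro ⟨s, hs | hs, h⟩
    · left; rw [h, hs]; simp
    · right; rw [h, hs]; simp [sub_eq_add_neg]

private theorem cxd_inc {c : Cell} {i : Fin 4} {s : ℤ} (hs : s = 1 ∨ s = -1) (h : c i % 2 = 1) :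
    inc c (c + s • e i) = sgn i c := by
  unfold inc
  rw [Finset.sum_eq_single i]
  · rw [if_pos]
    exact ⟨h, cxd_or.2 ⟨s, hs, rfl⟩⟩
  · intro j _ hji
    rw [if_neg]
    rintro ⟨_, h2⟩
    obtain ⟨t, ht, h3⟩ := cxd_or.1 h2
    exact hji (cxd_add_inj hs h3).1.symm
  · intro h; exact absurd (Finset.mem_univ i) h

theorem inc_add {c : Cell} {i : Fin 4} (h : c i % 2 = 1) : inc c (c + e i) = sgn i c := by
  have := cxd_inc (s := 1) (Or.inl rfl) h
  simpa using this

theorem inc_sub {c : Cell} {i : Fin 4} (h : c i % 2 = 1) : inc c (c - e i) = sgn i c := by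
  have := cxd_inc (s := -1) (Or.inr rfl) h
  simpa [sub_eq_add_neg] using this

private theorem cxd_sgn_val (i : Fin 4) (c : Cell) : sgn i c = 1 ∨ sgn i c = -1 :=
  neg_one_pow_eq_or ℤ _

private theorem cxd_sgn_ne (i : Fin 4) (c : Cell) : sgn i c ≠ 0 := by
  rcases cxd_sgn_val i c with h | h <;> rw [h] <;> decide

theorem inc_ne {c c' : Cell} :
    inc c c' ≠ 0 ↔ ∃ i, c i % 2 = 1 ∧ (c' = c + e i ∨ c' = c - e i) := by
  constructor
  · intro h
    obtain ⟨i, _, hi⟩ := Finset.exists_ne_zero_of_sum_ne_zero h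
    refine ⟨i, ?_⟩
    by_contra hc
    exact hi (if_neg hc)
  · rintro ⟨i, hi, h | h⟩
    · rw [h, inc_add hi]; exact cxd_sgn_ne i c
    · rw [h, inc_sub hi]; exact cxd_sgn_ne i c

theorem inc_val (c c' : Cell) : inc c c' = 0 ∨ inc c c' = 1 ∨ inc c c' = -1 := by
  by_cases h : inc c c' = 0
  · exact Or.inl h
  · right
    obtain ⟨i, hi, h | h⟩ := inc_ne.1 h
    · rw [h, inc_add hi]; exact cxd_sgn_val i c
    · rw [h, inc_sub hi]; exact cxd_sgn_val i c

theorem inc_neg (c c' : Cell) : inc (-c) (-c') = inc c c' := by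
  unfold inc
  refine Finset.sum_congr rfl fun i _ => ?_
  have h1 : sgn i (-c) = sgn i c := by
    unfold sgn
    congr 2
    ext j
    simp only [Finset.mem_filter, Finset.mem_univ, true_and, Pi.neg_apply]
    constructor <;> rintro ⟨h, h'⟩ <;> exact ⟨h, by omega⟩
  have h2 : ((-c) i % 2 = 1) ↔ (c i % 2 = 1) := by
    simp only [Pi.neg_apply]; omega
  have h3 : (-c' = -c + e i) ↔ (c' = c - e i) := by
    constructor
    · intro h
      have := congrArg (fun x => -x) h
      simpa [sub_eq_add_neg, add_comm] using this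
    · intro h; rw [h]; abel
  have h4 : (-c' = -c - e i) ↔ (c' = c + e i) := by
    constructor
    · intro h
      have := congrArg (fun x => -x) h
      simpa [sub_eq_add_neg, add_comm] using this
    · intro h; rw [h]; abel
  rw [h1]
  by_cases h : c i % 2 = 1 ∧ (c' = c + e i ∨ c' = c - e i)
  · rw [if_pos h, if_pos]
    exact ⟨h2.2 h.1, h.2.elim (fun x => Or.inr (h4.2 x)) (fun x => Or.inl (h3.2 x))⟩
  · rw [if_neg h, if_neg]
    rintro ⟨x, y⟩
    exact h ⟨h2.1 x, y.elim (fun x => Or.inr (h3.1 x)) (fun x => Or.inl (h4.1 x))⟩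

theorem le_of_inc {c c' : Cell} (h : inc c c' ≠ 0) : Le c' c ∧ dim c = dim c' + 1 := by
  obtain ⟨i, hi, h⟩ := inc_ne.1 h
  obtain ⟨s, hs, rfl⟩ := cxd_or.1 h
  have key : ∀ j, j ≠ i → (c + s • e i) j = c j := by
    intro j hj
    simp [cxd_e_ne hj]
  have key2 : (c + s • e i) i = c i + s := by simp [cxd_e_self]
  constructor
  · intro j
    by_cases hj : j = i
    · subst hj
      right
      refine ⟨hi, ?_⟩
      rw [key2]
      omega
    · exact Or.inl (key j hj)
  · unfold dim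
    have : Finset.univ.filter (fun j => c j % 2 = 1) =
        insert i (Finset.univ.filter (fun j => (c + s • e i) j % 2 = 1)) := by
      ext j
      simp only [Finset.mem_filter, Finset.mem_univ, true_and, Finset.mem_insert]
      by_cases hj : j = i
      · subst hj; simp [hi]
      · rw [key j hj]; simp [hj]
    rw [this, Finset.card_insert_of_notMem]
    simp only [Finset.mem_filter, Finset.mem_univ, true_and]
    rw [key2]
    omega

theorem zp_add {ζ : R} (h3 : ζ ^ 3 = 1) (k l : ZMod 3) : zp ζ (k + l) = zp ζ k * zp ζ l := by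
  unfold zp
  rw [ZMod.val_add, ← pow_add]
  conv_rhs => rw [← Nat.div_add_mod (k.val + l.val) 3, pow_add, pow_mul, h3, one_pow, one_mul]

private theorem cxd_sgn_add {i j : Fin 4} (hij : i < j) {c : Cell} {s : ℤ} (hs : s = 1 ∨ s = -1)
    (hi : c i % 2 = 1) : sgn j (c + s • e i) = - sgn j c := by
  unfold sgn
  have : Finset.univ.filter (fun k => k < j ∧ c k % 2 = 1) =
      insert i (Finset.univ.filter (fun k => k < j ∧ (c + s • e i) k % 2 = 1)) := by
    ext k
    simp only [Finset.mem_filter, Finset.mem_univ, true_and, Finset.mem_insert]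
    by_cases hk : k = i
    · subst hk; simp [hi, hij]
    · have : (c + s • e i) k = c k := by simp [cxd_e_ne hk]
      rw [this]; simp [hk]
  rw [this, Finset.card_insert_of_notMem, pow_succ]
  · ring
  · simp only [Finset.mem_filter, Finset.mem_univ, true_and]
    have : (c + s • e i) i = c i + s := by simp [cxd_e_self]
    rw [this]
    omega

private theorem cxd_sgn_add' {i j : Fin 4} (hij : i < j) {c : Cell} {t : ℤ} :
    sgn i (c + t • e j) = sgn i c := by
  unfold sgn
  congr 2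
  ext k
  simp only [Finset.mem_filter, Finset.mem_univ, true_and]
  have : k < i → (c + t • e j) k = c k := by
    intro h
    have : k ≠ j := by
      rintro rfl
      exact absurd h (not_lt.2 hij.le)
    simp [cxd_e_ne this]
  constructor
  · rintro ⟨h, h'⟩; rw [this h] at h'; exact ⟨h, h'⟩
  · rintro ⟨h, h'⟩; refine ⟨h, ?_⟩; rw [this h]; exact h'

private theorem cxd_step {c b d : Cell} (h1 : inc c b ≠ 0) (h2 : inc b d ≠ 0) :
    ∃ i j : Fin 4, ∃ s t : ℤ, i ≠ j ∧ (s = 1 ∨ s = -1) ∧ (t = 1 ∨ t = -1) ∧ c i % 2 = 1 ∧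
      c j % 2 = 1 ∧ b = c + s • e i ∧ d = c + s • e i + t • e j := by
  obtain ⟨i, hi, h⟩ := inc_ne.1 h1
  obtain ⟨s, hs, rfl⟩ := cxd_or.1 h
  obtain ⟨j, hj, h'⟩ := inc_ne.1 h2
  obtain ⟨t, ht, rfl⟩ := cxd_or.1 h'
  have hij : i ≠ j := by
    rintro rfl
    have : (c + s • e i) i = c i + s := by simp [cxd_e_self]
    rw [this] at hj
    omega
  refine ⟨i, j, s, t, hij, hs, ht, hi, ?_, rfl, rfl⟩
  have : (c + s • e i) j = c j := by simp [cxd_e_ne hij.symm]
  rwa [this] at hj

private theorem cxd_det {c : Cell} {i j i' j' : Fin 4} {s t s' t' : ℤ} (hij : i ≠ j)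
    (hij' : i' ≠ j') (hs : s = 1 ∨ s = -1) (ht : t = 1 ∨ t = -1) (hs' : s' = 1 ∨ s' = -1)
    (h : c + s • e i + t • e j = c + s' • e i' + t' • e j') :
    (i' = i ∧ s' = s) ∨ (i' = j ∧ s' = t) := by
  have hi := congrFun h i'
  have h1 : e i' i' = 1 := cxd_e_self i'
  have h2 : e j' i' = 0 := cxd_e_ne hij'
  by_cases ha : i' = i
  · left
    refine ⟨ha, ?_⟩
    subst ha
    have h3 : e j i' = 0 := cxd_e_ne hij
    simp [h1, h2, h3] at hi
    exact hi.symm
  · by_cases hb : i' = j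
    · right
      refine ⟨hb, ?_⟩
      subst hb
      have h3 : e i i' = 0 := cxd_e_ne ha
      simp [h1, h2, h3] at hi
      exact hi.symm
    · exfalso
      have h3 : e i i' = 0 := cxd_e_ne ha
      have h4 : e j i' = 0 := cxd_e_ne hb
      simp [h1, h2, h3, h4] at hi
      omega

private theorem cxd_le_add {c : Cell} {i : Fin 4} {s : ℤ} (hs : s = 1 ∨ s = -1)
    (hi : c i % 2 = 1) : Le (c + s • e i) c :=
  (le_of_inc (inc_ne.2 ⟨i, hi, cxd_or.2 ⟨s, hs, rfl⟩⟩)).1

private theorem cxd_main {ζ : R} (h3 : ζ ^ 3 = 1) {a : Cell → Cell → ZMod 3} {A : Finset Cell}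
    (hc : Conv A) (hf : Flat a A) {c : Cell} (hcA : c ∈ A) {i j : Fin 4} {s t : ℤ} (hij : i < j)
    (hs : s = 1 ∨ s = -1) (ht : t = 1 ∨ t = -1) (hi : c i % 2 = 1) (hj : c j % 2 = 1)
    (hd : c + s • e i + t • e j ∈ A) :
    ∑ b ∈ A, dcoef ζ a c b * dcoef ζ a b (c + s • e i + t • e j) = 0 := by
  have hne : i ≠ j := hij.ne
  set d := c + s • e i + t • e j with hdd
  have hd' : d = c + t • e j + s • e i := by rw [hdd]; abel
  have hoj : (c + s • e i) j % 2 = 1 := by
    have : (c + s • e i) j = c j := by simp [cxd_e_ne hne.symm]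
    rw [this]; exact hj
  have hoi : (c + t • e j) i % 2 = 1 := by
    have : (c + t • e j) i = c i := by simp [cxd_e_ne hne]
    rw [this]; exact hi
  have hb1 : c + s • e i ∈ A := hc d hd c hcA _ (cxd_le_add ht hoj) (cxd_le_add hs hi)
  have hb2 : c + t • e j ∈ A := by
    refine hc d hd c hcA _ ?_ (cxd_le_add ht hj)
    rw [hd']
    exact cxd_le_add hs hoi
  have hbn : c + s • e i ≠ c + t • e j := fun h => hne (cxd_add_inj hs h).1
  rw [Finset.sum_eq_add_of_mem _ _ hb1 hb2 hbn]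
  · have e1 : inc c (c + s • e i) = sgn i c := cxd_inc hs hi
    have e2 : inc (c + s • e i) d = - sgn j c := by
      rw [hdd, cxd_inc ht hoj, cxd_sgn_add hij hs hi]
    have e3 : inc c (c + t • e j) = sgn j c := cxd_inc ht hj
    have e4 : inc (c + t • e j) d = sgn i c := by
      rw [hd', cxd_inc hs hoi, cxd_sgn_add' hij]
    have e5 := hf c hcA i j hne hi hj s t hs ht hd
    unfold dcoef
    rw [e1, e2, e3, e4]
    have e6 : zp ζ (a c (c + s • e i)) * zp ζ (a (c + s • e i) d) =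
        zp ζ (a c (c + t • e j)) * zp ζ (a (c + t • e j) d) := by
      rw [← zp_add h3, ← zp_add h3]
      exact congrArg _ e5
    push_cast
    linear_combination (-((sgn i c : ℤ) : R) * ((sgn j c : ℤ) : R)) * e6
  · rintro b _ ⟨hb1, hb2⟩
    by_contra hb
    have hn1 : inc c b ≠ 0 := by
      intro h; apply hb; simp [dcoef, h]
    have hn2 : inc b d ≠ 0 := by
      intro h; apply hb; simp [dcoef, h]
    obtain ⟨i', j', s', t', hij', hs', ht', hi', hj', hb', hd2⟩ := cxd_step hn1 hn2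
    have := cxd_det hne hij' hs ht hs' (hdd.symm.trans hd2)
    rcases this with ⟨h1, h2⟩ | ⟨h1, h2⟩
    · apply hb1; rw [hb', h1, h2]
    · apply hb2; rw [hb', h1, h2]

theorem isCx_dcoef {ζ : R} (h3 : ζ ^ 3 = 1) {a : Cell → Cell → ZMod 3} {A : Finset Cell}
    (hc : Conv A) (hf : Flat a A) : IsCx (dcoef ζ a) A := by
  intro c hcA d hdA
  by_contra hne
  obtain ⟨b, hb, hbn⟩ := Finset.exists_ne_zero_of_sum_ne_zero hne
  have hn1 : inc c b ≠ 0 := by
    intro h; apply hbn; simp [dcoef, h]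
  have hn2 : inc b d ≠ 0 := by
    intro h; apply hbn; simp [dcoef, h]
  obtain ⟨i, j, s, t, hij, hs, ht, hi, hj, _, hd⟩ := cxd_step hn1 hn2
  rcases lt_or_gt_of_ne hij with h | h
  · subst hd
    exact hne (cxd_main h3 hc hf hcA h hs ht hi hj hdA)
  · have hd' : d = c + t • e j + s • e i := by rw [hd]; abel
    subst hd'
    exact hne (cxd_main h3 hc hf hcA h ht hs hj hi hdA)

theorem symM_dcoef {ζ : R} {a : Cell → Cell → ZMod 3} (hs : SymA a) : SymM (dcoef ζ a) := by
  intro c c'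
  unfold dcoef
  rw [inc_neg, hs c c']

theorem unitD_dcoef {ζ : R} (hζ : IsUnit ζ) (a : Cell → Cell → ZMod 3) (A : Finset Cell) :
    UnitD (dcoef ζ a) A := by
  intro c _ c' _
  refine ⟨fun h => by simp [dcoef, h], fun h => ?_⟩
  unfold dcoef zp
  refine IsUnit.mul ?_ (hζ.pow _)
  rcases inc_val c c' with h' | h' | h'
  · exact absurd h' h
  · rw [h']; simp
  · rw [h']; simp

theorem mem_box {n : Fin 4 → ℕ} {c : Cell} :
    c ∈ Box n ↔ ∀ i, -(2 * (n i : ℤ)) ≤ c i ∧ c i ≤ 2 * (n i : ℤ) := by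
  simp [Box, Fintype.mem_piFinset, Finset.mem_Icc]

theorem mem_bd {n : Fin 4 → ℕ} {c : Cell} :
    c ∈ bd n ↔ c ∈ Box n ∧ ∃ i, c i = 2 * (n i : ℤ) ∨ c i = -(2 * (n i : ℤ)) := by
  simp [bd, Finset.mem_filter]

theorem isComplex_box (n : Fin 4 → ℕ) : IsComplex (Box n) := by
  intro b hb a hab
  rw [mem_box] at hb ⊢
  intro i
  have h1 := hb i
  have h2 := hab i
  omega

theorem isComplex_bd (n : Fin 4 → ℕ) : IsComplex (bd n) := by
  intro b hb a hab
  rw [mem_bd] at hb ⊢
  refine ⟨isComplex_box n b hb.1 a hab, ?_⟩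
  obtain ⟨i, hi⟩ := hb.2
  refine ⟨i, ?_⟩
  have h2 := hab i
  omega

theorem conv_sdiff {A F : Finset Cell} (hA : IsComplex A) (hF : IsComplex F) : Conv (A \ F) := by
  intro a ha c hc b hab hbc
  rw [Finset.mem_sdiff] at ha hc ⊢
  exact ⟨hA c hc.1 b hbc, fun h => ha.2 (hF b h a hab)⟩

/-- Remove closed subcomplexes from a complex. -/
theorem conv_sdiff2 {A F G : Finset Cell} (hA : IsComplex A) (hF : IsComplex F)
    (hG : IsComplex G) : Conv ((A \ F) \ G) := by
  intro a ha c hc b hab hbc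
  rw [Finset.mem_sdiff] at ha hc ⊢
  exact ⟨conv_sdiff hA hF a ha.1 c hc.1 b hab hbc, fun h => ha.2 (hG b h a hab)⟩

theorem flat_mono {a : Cell → Cell → ZMod 3} {A A' : Finset Cell} (h : A' ⊆ A) (hf : Flat a A) :
    Flat a A' := by
  intro c hc i j hij hi hj s t hs ht hd
  exact hf c (h hc) i j hij hi hj s t hs ht (h hd)

end Cub
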