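import Pool.Agent.H33.CB.CzLoc

/-!
# M3, step 5: arcs

`c` is the edge `v + d` at the vertex `v`.  `p` is a list of directions different from `± d`, without repetition, successive
elements not antipodal (successive and different, so `c + x + y` is a 3-dimensional cell for `x`, `y` successive).

`arcL c p` = `{c} ∪ {c + x | x ∈ p} ∪ {c + x + y | x, y successive in p}`.  Acyclic for `p ≠ []`, by induction: for `p = [x]` it is the pair `{c, c + x}`
(`lacy_tog` in the direction of `x`); for `p = x :: y :: r`: `arcL c (y :: r)` is a subcomplex (faces of `c + y + z` are `c + y`, `c + z` and `v + y + z`, which is not above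
... only faces in the set count), the rest is the pair `{c + x, c + x + y}` (`lacy_tog` in the direction of `y`).
`arcH c p w` = `{c + x | x ∈ p} ∪ {c + x + y | x, y successive in p ++ [w]}` (the end point `c + w` is missing).  Acyclic: empty for `p = []`; for
`p = x :: r` the pair `{c + x, c + x + y}`, `y` the next element of `p ++ [w]`, on top of `arcH c r w`.
-/

namespace Cub

variable {R : Type} [CommRing R]

/-- The cells of the closed arc. -/
def arcL (c : Cell) (p : List Cell) : Finset Cell :=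
  {c} ∪ (p.map (fun x => c + x)).toFinset ∪
    ((p.zip p.tail).map (fun x => c + x.1 + x.2)).toFinset

/-- The cells of the half open arc. -/
def arcH (c : Cell) (p : List Cell) (w : Cell) : Finset Cell :=
  (p.map (fun x => c + x)).toFinset ∪
    (((p ++ [w]).zip (p ++ [w]).tail).map (fun x => c + x.1 + x.2)).toFinset

/-- `x` is the direction `s` times the axis `i`. -/
private def Ax (x : Cell) (i : Fin 4) (s : ℤ) : Prop :=
  (s = 1 ∨ s = -1) ∧ ∀ k, x k = if k = i then s else 0

private lemma ax_of {x : Cell} (h : IsDir x) : ∃ i s, Ax x i s := by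
  obtain ⟨i, h | h⟩ := h
  · refine ⟨i, 1, Or.inl rfl, fun k => ?_⟩
    rw [h]
    by_cases hk : k = i
    · subst hk; simp
    · simp [hk]
  · refine ⟨i, -1, Or.inr rfl, fun k => ?_⟩
    rw [h]
    by_cases hk : k = i
    · subst hk; simp
    · simp [hk]

private lemma ax_eq {x : Cell} {i : Fin 4} {s : ℤ} (h : Ax x i s) : x = s • e i := by
  funext k
  rw [h.2 k]
  by_cases hk : k = i
  · subst hk; simp [e]
  · simp [e, hk]

private lemma ax_ne {x y : Cell} {i j : Fin 4} {s t : ℤ} (hx : Ax x i s) (hy : Ax y j t)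
    (h1 : x ≠ y) (h2 : x ≠ -y) : i ≠ j := by
  rintro rfl
  rcases hx.1 with hs | hs <;> rcases hy.1 with ht | ht
  · apply h1; funext k; rw [hx.2, hy.2, hs, ht]
  · apply h2; funext k; rw [Pi.neg_apply, hx.2, hy.2, hs, ht]; split_ifs <;> rfl
  · apply h2; funext k; rw [Pi.neg_apply, hx.2, hy.2, hs, ht]; split_ifs <;> rfl
  · apply h1; funext k; rw [hx.2, hy.2, hs, ht]

private lemma even_of_dim {v : Cell} (hv : dim v = 0) (k : Fin 4) : v k % 2 = 0 := by
  unfold dim at hv
  rw [Finset.card_eq_zero, Finset.filter_eq_empty_iff] at hv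
  have := hv (Finset.mem_univ k)
  omega

private lemma le_add_dir {b x : Cell} {i : Fin 4} {s : ℤ} (h : Ax x i s) (hb : b i % 2 = 0) :
    Le b (b + x) := by
  intro k
  have := h.2 k
  have hs := h.1
  rw [Pi.add_apply, this]
  by_cases hk : k = i
  · subst hk
    rw [if_pos rfl]
    omega
  · rw [if_neg hk]
    left; ring

private lemma between1 {b x b' : Cell} {i : Fin 4} {s : ℤ} (h : Ax x i s) (hb : b i % 2 = 0)
    (h1 : Le b b') (h2 : Le b' (b + x)) : b' = b ∨ b' = b + x := by
  have hs := h.1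
  have hne : ∀ k, k ≠ i → b' k = b k := by
    intro k hk
    have a1 := h1 k
    have a2 := h2 k
    rw [Pi.add_apply, h.2 k, if_neg hk] at a2
    omega
  have a1 := h1 i
  have a2 := h2 i
  rw [Pi.add_apply, h.2 i, if_pos rfl] at a2
  have : b' i = b i ∨ b' i = b i + s := by omega
  rcases this with h' | h'
  · left
    funext k
    by_cases hk : k = i
    · subst hk; exact h'
    · exact hne k hk
  · right
    funext k
    rw [Pi.add_apply, h.2 k]
    by_cases hk : k = i
    · subst hk; rw [if_pos rfl]; exact h'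
    · rw [if_neg hk, add_zero]; exact hne k hk

private lemma between2 {c x y b : Cell} {i j : Fin 4} {s t : ℤ} (hx : Ax x i s) (hy : Ax y j t)
    (hij : i ≠ j) (hi : c i % 2 = 0) (hj : c j % 2 = 0)
    (h1 : Le c b) (h2 : Le b (c + x + y)) : b = c ∨ b = c + x ∨ b = c + y ∨ b = c + x + y := by
  have hs := hx.1
  have ht := hy.1
  have hne : ∀ k, k ≠ i → k ≠ j → b k = c k := by
    intro k hk hk'
    have a1 := h1 k
    have a2 := h2 k
    rw [Pi.add_apply, Pi.add_apply, hx.2 k, hy.2 k, if_neg hk, if_neg hk'] at a2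
    omega
  have a1 := h1 i
  have a2 := h2 i
  rw [Pi.add_apply, Pi.add_apply, hx.2 i, hy.2 i, if_pos rfl, if_neg hij] at a2
  have ai : b i = c i ∨ b i = c i + s := by omega
  have b1 := h1 j
  have b2 := h2 j
  rw [Pi.add_apply, Pi.add_apply, hx.2 j, hy.2 j, if_pos rfl, if_neg hij.symm] at b2
  have aj : b j = c j ∨ b j = c j + t := by omega
  have key : ∀ z : Cell, (∀ k, k ≠ i → k ≠ j → z k = c k) → z i = b i → z j = b j → b = z := by
    intro z h1 h2 h3
    funext k
    by_cases hk : k = i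
    · subst hk; exact h2.symm
    · by_cases hk' : k = j
      · subst hk'; exact h3.symm
      · rw [h1 k hk hk', hne k hk hk']
  rcases ai with ai | ai <;> rcases aj with aj | aj
  · left
    exact key c (fun _ _ _ => rfl) ai.symm aj.symm
  · right; right; left
    refine key (c + y) (fun k _ hk => ?_) ?_ ?_
    · rw [Pi.add_apply, hy.2 k, if_neg hk, add_zero]
    · rw [Pi.add_apply, hy.2 i, if_neg hij, add_zero]; exact ai.symm
    · rw [Pi.add_apply, hy.2 j, if_pos rfl]; exact aj.symm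
  · right; left
    refine key (c + x) (fun k hk _ => ?_) ?_ ?_
    · rw [Pi.add_apply, hx.2 k, if_neg hk, add_zero]
    · rw [Pi.add_apply, hx.2 i, if_pos rfl]; exact ai.symm
    · rw [Pi.add_apply, hx.2 j, if_neg hij.symm, add_zero]; exact aj.symm
  · right; right; right
    refine key (c + x + y) (fun k hk hk' => ?_) ?_ ?_
    · rw [Pi.add_apply, Pi.add_apply, hx.2 k, hy.2 k, if_neg hk, if_neg hk', add_zero, add_zero]
    · rw [Pi.add_apply, Pi.add_apply, hx.2 i, hy.2 i, if_pos rfl, if_neg hij, add_zero]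
      exact ai.symm
    · rw [Pi.add_apply, Pi.add_apply, hx.2 j, hy.2 j, if_pos rfl, if_neg hij.symm, add_zero]
      exact aj.symm

private lemma notle {c x t : Cell} {i : Fin 4} {s : ℤ} (hx : Ax x i s) (hi : c i % 2 = 0)
    (h : t i ≠ c i + s) : ¬ Le (c + x) t := by
  intro hle
  have a1 := hle i
  have hs := hx.1
  rw [Pi.add_apply, hx.2 i, if_pos rfl] at a1
  omega

/-- The pair `{b, b + x}`. -/
private lemma pair_lacy {ζ : R} (hζ : ζ ^ 3 = 1) {a : Cell → Cell → ZMod 3} {v b x : Cell}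
    {i : Fin 4} {s : ℤ} (hx : Ax x i s) (hi : v i % 2 = 0) (hb : b i = v i) (hvb : Le v b)
    (hf : Flat a {b, b + x}) : LAcy ζ a v {b, b + x} := by
  have hs := hx.1
  have hbe : b i % 2 = 0 := by rw [hb]; exact hi
  have hle : Le b (b + x) := le_add_dir hx hbe
  have hall : ∀ t ∈ ({b, b + x} : Finset Cell), Le v t := by
    intro t ht
    rw [Finset.mem_insert, Finset.mem_singleton] at ht
    rcases ht with rfl | rfl
    · exact hvb
    · exact le_trans' hvb hle
  have hconv : Conv ({b, b + x} : Finset Cell) := by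
    intro a1 h1 c1 h2 b1 h3 h4
    have hb1 : Le b b1 := by
      rw [Finset.mem_insert, Finset.mem_singleton] at h1
      rcases h1 with rfl | rfl
      · exact h3
      · exact le_trans' hle h3
    have hb2 : Le b1 (b + x) := by
      rw [Finset.mem_insert, Finset.mem_singleton] at h2
      rcases h2 with rfl | rfl
      · exact le_trans' h4 hle
      · exact h4
    rw [Finset.mem_insert, Finset.mem_singleton]
    exact between1 hx hbe hb1 hb2
  refine lacy_tog hζ hall (lcx_of hζ hconv hall hf) i hi s hs ?_ ?_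
  · intro t ht hti
    rw [Finset.mem_insert, Finset.mem_singleton] at ht
    rcases ht with rfl | rfl
    · rw [← ax_eq hx]
      exact Finset.mem_insert_of_mem (Finset.mem_singleton_self _)
    · rw [Pi.add_apply, hx.2 i, if_pos rfl] at hti
      omega
  · intro t ht hti
    rw [Finset.mem_insert, Finset.mem_singleton] at ht
    rcases ht with rfl | rfl
    · exact absurd hb hti
    · refine ⟨?_, ?_⟩
      · rw [Pi.add_apply, hx.2 i, if_pos rfl, hb]
      · rw [← ax_eq hx, add_sub_cancel_right]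
        exact Finset.mem_insert_self _ _

private lemma mem_arcL {c : Cell} {p : List Cell} {t : Cell} :
    t ∈ arcL c p ↔ t = c ∨ (∃ x ∈ p, t = c + x) ∨ ∃ q ∈ p.zip p.tail, t = c + q.1 + q.2 := by
  unfold arcL
  simp only [Finset.mem_union, Finset.mem_singleton, List.mem_toFinset, List.mem_map]
  constructor
  · rintro ((h | ⟨x, hx, rfl⟩) | ⟨q, hq, rfl⟩)
    · exact Or.inl h
    · exact Or.inr (Or.inl ⟨x, hx, rfl⟩)
    · exact Or.inr (Or.inr ⟨q, hq, rfl⟩)
  · rintro (h | ⟨x, hx, rfl⟩ | ⟨q, hq, rfl⟩)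
    · exact Or.inl (Or.inl h)
    · exact Or.inl (Or.inr ⟨x, hx, rfl⟩)
    · exact Or.inr ⟨q, hq, rfl⟩

private lemma mem_arcH {c : Cell} {p : List Cell} {w t : Cell} :
    t ∈ arcH c p w ↔ (∃ x ∈ p, t = c + x) ∨
      ∃ q ∈ (p ++ [w]).zip (p ++ [w]).tail, t = c + q.1 + q.2 := by
  unfold arcH
  simp only [Finset.mem_union, List.mem_toFinset, List.mem_map]
  constructor
  · rintro (⟨x, hx, rfl⟩ | ⟨q, hq, rfl⟩)
    · exact Or.inl ⟨x, hx, rfl⟩
    · exact Or.inr ⟨q, hq, rfl⟩
  · rintro (⟨x, hx, rfl⟩ | ⟨q, hq, rfl⟩)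
    · exact Or.inl ⟨x, hx, rfl⟩
    · exact Or.inr ⟨q, hq, rfl⟩

private lemma zip_mem {p : List Cell} {q : Cell × Cell} (h : q ∈ p.zip p.tail) :
    q.1 ∈ p ∧ q.2 ∈ p := by
  have h' : (q.1, q.2) ∈ p.zip p.tail := h
  exact ⟨(List.of_mem_zip h').1, List.mem_of_mem_tail (List.of_mem_zip h').2⟩

private lemma zip_ne {p : List Cell} (hn : p.Nodup) {q : Cell × Cell} (h : q ∈ p.zip p.tail) :
    q.1 ≠ q.2 := by
  induction p with
  | nil => simp at h
  | cons x r ih =>
    cases r with
    | nil => simp at h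
    | cons y r =>
      rw [List.tail_cons, List.zip_cons_cons, List.mem_cons] at h
      rcases h with rfl | h
      · intro hxy
        have := (List.nodup_cons.1 hn).1
        apply this
        show x ∈ y :: r
        have hxy' : x = y := hxy
        rw [hxy']
        exact List.mem_cons_self
      · exact ih (List.nodup_cons.1 hn).2 h

/-- Coordinates of the directions of the list. -/
private lemma ev {v d x : Cell} {i : Fin 4} {s : ℤ} (hv : dim v = 0) (hd : IsDir d)
    (hx : Ax x i s) (h1 : x ≠ d) (h2 : x ≠ -d) : (v + d) i = v i := by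
  obtain ⟨j, t, hj⟩ := ax_of hd
  have := ax_ne hx hj h1 h2
  rw [Pi.add_apply, hj.2 i, if_neg this, add_zero]

private lemma le_vd {v d : Cell} (hv : dim v = 0) (hd : IsDir d) : Le v (v + d) := by
  obtain ⟨j, t, hj⟩ := ax_of hd
  exact le_add_dir hj (even_of_dim hv j)

private lemma le_c1 {v d x : Cell} (hv : dim v = 0) (hd : IsDir d)
    (hx : IsDir x ∧ x ≠ d ∧ x ≠ -d) : Le (v + d) (v + d + x) := by
  obtain ⟨i, s, hi⟩ := ax_of hx.1
  refine le_add_dir hi ?_
  rw [ev hv hd hi hx.2.1 hx.2.2]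
  exact even_of_dim hv i

private lemma le_c2 {v d x y : Cell} (hv : dim v = 0) (hd : IsDir d)
    (hx : IsDir x ∧ x ≠ d ∧ x ≠ -d) (hy : IsDir y ∧ y ≠ d ∧ y ≠ -d) (h1 : x ≠ y) (h2 : y ≠ -x) :
    Le (v + d + x) (v + d + x + y) := by
  obtain ⟨i, s, hi⟩ := ax_of hx.1
  obtain ⟨j, t, hj⟩ := ax_of hy.1
  have hji := ax_ne hj hi h1.symm h2
  refine le_add_dir hj ?_
  rw [Pi.add_apply, hi.2 j, if_neg hji, add_zero, ev hv hd hj hy.2.1 hy.2.2]
  exact even_of_dim hv j

/-- `c + x` is not a face of `c + z + z'`. -/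
private lemma not_above {v d x z z' : Cell} (hv : dim v = 0) (hd : IsDir d)
    (hx : IsDir x ∧ x ≠ d ∧ x ≠ -d) (hz : IsDir z ∧ z ≠ d ∧ z ≠ -d)
    (hz' : IsDir z' ∧ z' ≠ d ∧ z' ≠ -d) (h1 : z ≠ z') (h2 : z' ≠ -z) (h3 : x ≠ z) (h4 : x ≠ z') :
    ¬ Le (v + d + x) (v + d + z + z') := by
  obtain ⟨i, s, hi⟩ := ax_of hx.1
  obtain ⟨j, t, hj⟩ := ax_of hz.1
  obtain ⟨k, u, hk⟩ := ax_of hz'.1
  have hkj := ax_ne hk hj h1.symm h2
  have hc : (v + d) i % 2 = 0 := by
    rw [ev hv hd hi hx.2.1 hx.2.2]; exact even_of_dim hv i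
  refine notle hi hc ?_
  rw [Pi.add_apply, Pi.add_apply (v + d), hj.2 i, hk.2 i]
  intro h
  by_cases hij : i = j
  · subst hij
    rw [if_pos rfl, if_neg hkj.symm] at h
    apply h3
    have hst : s = t := by linarith
    funext l
    rw [hi.2, hj.2, hst]
  · rw [if_neg hij] at h
    by_cases hik : i = k
    · subst hik
      rw [if_pos rfl] at h
      apply h4
      have hst : s = u := by linarith
      funext l
      rw [hi.2, hk.2, hst]
    · rw [if_neg hik] at h
      have := hi.1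
      omega

private lemma not_above1 {v d x z : Cell} (hv : dim v = 0) (hd : IsDir d)
    (hx : IsDir x ∧ x ≠ d ∧ x ≠ -d) (hz : IsDir z ∧ z ≠ d ∧ z ≠ -d) (h3 : x ≠ z) :
    ¬ Le (v + d + x) (v + d + z) := by
  obtain ⟨i, s, hi⟩ := ax_of hx.1
  obtain ⟨j, t, hj⟩ := ax_of hz.1
  have hc : (v + d) i % 2 = 0 := by
    rw [ev hv hd hi hx.2.1 hx.2.2]; exact even_of_dim hv i
  refine notle hi hc ?_
  rw [Pi.add_apply, hj.2 i]
  intro h
  by_cases hij : i = j
  · subst hij
    rw [if_pos rfl] at h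
    apply h3
    have hst : s = t := by linarith
    funext l
    rw [hi.2, hj.2, hst]
  · rw [if_neg hij] at h
    have := hi.1
    omega

private lemma not_above0 {v d x : Cell} (hv : dim v = 0) (hd : IsDir d)
    (hx : IsDir x ∧ x ≠ d ∧ x ≠ -d) : ¬ Le (v + d + x) (v + d) := by
  obtain ⟨i, s, hi⟩ := ax_of hx.1
  have hc : (v + d) i % 2 = 0 := by
    rw [ev hv hd hi hx.2.1 hx.2.2]; exact even_of_dim hv i
  refine notle hi hc ?_
  have := hi.1
  omega

private lemma adj2 {p : List Cell} {v d b : Cell} (hv : dim v = 0) (hd : IsDir d) (hnd : p.Nodup)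
    (hdir : ∀ x ∈ p, IsDir x ∧ x ≠ d ∧ x ≠ -d) (hadj : ∀ x ∈ p.zip p.tail, x.2 ≠ -x.1)
    {q : Cell × Cell} (hq : q ∈ p.zip p.tail) (h1 : Le (v + d) b)
    (h2 : Le b (v + d + q.1 + q.2)) :
    b = v + d ∨ b = v + d + q.1 ∨ b = v + d + q.2 ∨ b = v + d + q.1 + q.2 := by
  have hm := zip_mem hq
  have d1 := hdir _ hm.1
  have d2 := hdir _ hm.2
  obtain ⟨i, s, hi⟩ := ax_of d1.1
  obtain ⟨j, t, hj⟩ := ax_of d2.1
  have hji := ax_ne hj hi (zip_ne hnd hq).symm (hadj q hq)
  refine between2 hi hj hji.symm ?_ ?_ h1 h2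
  · rw [ev hv hd hi d1.2.1 d1.2.2]; exact even_of_dim hv i
  · rw [ev hv hd hj d2.2.1 d2.2.2]; exact even_of_dim hv j

private lemma le_mem {p : List Cell} {v d : Cell} (hv : dim v = 0) (hd : IsDir d) (hnd : p.Nodup)
    (hdir : ∀ x ∈ p, IsDir x ∧ x ≠ d ∧ x ≠ -d) (hadj : ∀ x ∈ p.zip p.tail, x.2 ≠ -x.1)
    {q : Cell × Cell} (hq : q ∈ p.zip p.tail) : Le (v + d) (v + d + q.1 + q.2) := by
  have hm := zip_mem hq
  exact le_trans' (le_c1 hv hd (hdir _ hm.1))
    (le_c2 hv hd (hdir _ hm.1) (hdir _ hm.2) (zip_ne hnd hq) (hadj q hq))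

private lemma le_arcL {p : List Cell} {v d : Cell} (hv : dim v = 0) (hd : IsDir d) (hnd : p.Nodup)
    (hdir : ∀ x ∈ p, IsDir x ∧ x ≠ d ∧ x ≠ -d) (hadj : ∀ x ∈ p.zip p.tail, x.2 ≠ -x.1)
    {t : Cell} (ht : t ∈ arcL (v + d) p) : Le (v + d) t := by
  rw [mem_arcL] at ht
  rcases ht with rfl | ⟨x, hx, rfl⟩ | ⟨q, hq, rfl⟩
  · exact le_refl' _
  · exact le_c1 hv hd (hdir x hx)
  · exact le_mem hv hd hnd hdir hadj hq

private lemma le_arcH {p : List Cell} {v d w : Cell} (hv : dim v = 0) (hd : IsDir d)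
    (hnd : (p ++ [w]).Nodup) (hdir : ∀ x ∈ p ++ [w], IsDir x ∧ x ≠ d ∧ x ≠ -d)
    (hadj : ∀ x ∈ (p ++ [w]).zip (p ++ [w]).tail, x.2 ≠ -x.1)
    {t : Cell} (ht : t ∈ arcH (v + d) p w) : Le (v + d) t := by
  rw [mem_arcH] at ht
  rcases ht with ⟨x, hx, rfl⟩ | ⟨q, hq, rfl⟩
  · exact le_c1 hv hd (hdir x (List.mem_append_left _ hx))
  · exact le_mem hv hd hnd hdir hadj hq

private lemma conv_arcL {p : List Cell} {v d : Cell} (hv : dim v = 0) (hd : IsDir d)
    (hnd : p.Nodup) (hdir : ∀ x ∈ p, IsDir x ∧ x ≠ d ∧ x ≠ -d)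
    (hadj : ∀ x ∈ p.zip p.tail, x.2 ≠ -x.1) : Conv (arcL (v + d) p) := by
  intro a ha t ht b hab hbt
  have h1 : Le (v + d) b := le_trans' (le_arcL hv hd hnd hdir hadj ha) hab
  rw [mem_arcL] at ht ⊢
  rcases ht with rfl | ⟨x, hx, rfl⟩ | ⟨q, hq, rfl⟩
  · exact Or.inl (le_antisymm' hbt h1)
  · obtain ⟨i, s, hi⟩ := ax_of (hdir x hx).1
    have hc : (v + d) i % 2 = 0 := by
      rw [ev hv hd hi (hdir x hx).2.1 (hdir x hx).2.2]; exact even_of_dim hv i
    rcases between1 hi hc h1 hbt with h | h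
    · exact Or.inl h
    · exact Or.inr (Or.inl ⟨x, hx, h⟩)
  · have hm := zip_mem hq
    rcases adj2 hv hd hnd hdir hadj hq h1 hbt with h | h | h | h
    · exact Or.inl h
    · exact Or.inr (Or.inl ⟨_, hm.1, h⟩)
    · exact Or.inr (Or.inl ⟨_, hm.2, h⟩)
    · exact Or.inr (Or.inr ⟨q, hq, h⟩)

private lemma last_ne {p : List Cell} {w : Cell} (hnd : (p ++ [w]).Nodup) {x : Cell} (hx : x ∈ p) :
    x ≠ w := by
  rintro rfl
  have := List.disjoint_of_nodup_append hnd
  exact this hx (List.mem_singleton_self _)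

private lemma zip_last {p : List Cell} {w : Cell} {q : Cell × Cell}
    (h : q ∈ (p ++ [w]).zip (p ++ [w]).tail) : q.1 ∈ p := by
  induction p with
  | nil => simp at h
  | cons x r ih =>
    obtain ⟨y, r', hr⟩ : ∃ y r', r ++ [w] = y :: r' := by
      cases r with
      | nil => exact ⟨w, [], rfl⟩
      | cons y r => exact ⟨y, r ++ [w], rfl⟩
    rw [List.cons_append, List.tail_cons, hr, List.zip_cons_cons, List.mem_cons] at h
    rcases h with rfl | h
    · exact List.mem_cons_self
    · refine List.mem_cons_of_mem _ (ih ?_)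
      rw [hr]
      exact h

private lemma conv_arcH {p : List Cell} {v d w : Cell} (hv : dim v = 0) (hd : IsDir d)
    (hnd : (p ++ [w]).Nodup) (hdir : ∀ x ∈ p ++ [w], IsDir x ∧ x ≠ d ∧ x ≠ -d)
    (hadj : ∀ x ∈ (p ++ [w]).zip (p ++ [w]).tail, x.2 ≠ -x.1) : Conv (arcH (v + d) p w) := by
  intro a ha t ht b hab hbt
  have h1 : Le (v + d) b := le_trans' (le_arcH hv hd hnd hdir hadj ha) hab
  -- `b` is not `c`, and not `c + w`
  have hb0 : b ≠ v + d := by
    rintro rfl
    rw [mem_arcH] at ha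
    rcases ha with ⟨x, hx, rfl⟩ | ⟨q, hq, rfl⟩
    · exact not_above0 hv hd (hdir x (List.mem_append_left _ hx)) hab
    · have hm := zip_mem hq
      exact not_above0 hv hd (hdir _ hm.1)
        (le_trans' (le_c2 hv hd (hdir _ hm.1) (hdir _ hm.2) (zip_ne hnd hq) (hadj q hq)) hab)
  have hw : w ∈ p ++ [w] := List.mem_append_right _ (List.mem_singleton_self _)
  have hb1 : b ≠ v + d + w := by
    rintro rfl
    rw [mem_arcH] at ha
    rcases ha with ⟨x, hx, rfl⟩ | ⟨q, hq, rfl⟩
    · exact not_above1 hv hd (hdir x (List.mem_append_left _ hx)) (hdir w hw)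
        (last_ne hnd hx) hab
    · have hm := zip_mem hq
      exact not_above1 hv hd (hdir _ hm.1) (hdir w hw) (last_ne hnd (zip_last hq))
        (le_trans' (le_c2 hv hd (hdir _ hm.1) (hdir _ hm.2) (zip_ne hnd hq) (hadj q hq)) hab)
  rw [mem_arcH] at ht ⊢
  rcases ht with ⟨x, hx, rfl⟩ | ⟨q, hq, rfl⟩
  · have hx' := hdir x (List.mem_append_left _ hx)
    obtain ⟨i, s, hi⟩ := ax_of hx'.1
    have hc : (v + d) i % 2 = 0 := by
      rw [ev hv hd hi hx'.2.1 hx'.2.2]; exact even_of_dim hv i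
    rcases between1 hi hc h1 hbt with h | h
    · exact absurd h hb0
    · exact Or.inl ⟨x, hx, h⟩
  · have hm := zip_mem hq
    rcases adj2 hv hd hnd hdir hadj hq h1 hbt with h | h | h | h
    · exact absurd h hb0
    · exact Or.inl ⟨_, zip_last hq, h⟩
    · rcases List.mem_append.1 hm.2 with h' | h'
      · exact Or.inl ⟨_, h', h⟩
      · rw [List.mem_singleton] at h'
        rw [h'] at h
        exact absurd h hb1
    · exact Or.inr ⟨q, hq, h⟩

theorem arcL_lacy {ζ : R} (hζ : ζ ^ 3 = 1) {a : Cell → Cell → ZMod 3} {v d : Cell}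
    (hv : dim v = 0) (hd : IsDir d) {p : List Cell} (hp : p ≠ []) (hnd : p.Nodup)
    (hdir : ∀ x ∈ p, IsDir x ∧ x ≠ d ∧ x ≠ -d) (hadj : ∀ x ∈ p.zip p.tail, x.2 ≠ -x.1)
    (hf : Flat a (arcL (v + d) p)) : LAcy ζ a v (arcL (v + d) p) := by
  induction p with
  | nil => exact absurd rfl hp
  | cons x r ih =>
    have hx := hdir x List.mem_cons_self
    obtain ⟨i, s, hi⟩ := ax_of hx.1
    cases r with
    | nil =>
      have hT : arcL (v + d) [x] = {v + d, v + d + x} := by
        ext t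
        rw [mem_arcL, Finset.mem_insert, Finset.mem_singleton]
        simp
      rw [hT] at hf ⊢
      exact pair_lacy hζ hi (even_of_dim hv i) (ev hv hd hi hx.2.1 hx.2.2) (le_vd hv hd) hf
    | cons y r =>
      have hy := hdir y (List.mem_cons_of_mem _ List.mem_cons_self)
      have hmem : (x, y) ∈ (x :: y :: r).zip (x :: y :: r).tail := by
        rw [List.tail_cons, List.zip_cons_cons]
        exact List.mem_cons_self
      have hxy : x ≠ y := zip_ne hnd hmem
      have hyx : y ≠ -x := hadj _ hmem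
      have hnd' := (List.nodup_cons.1 hnd).2
      have hxn := (List.nodup_cons.1 hnd).1
      have hdir' : ∀ z ∈ y :: r, IsDir z ∧ z ≠ d ∧ z ≠ -d :=
        fun z hz => hdir z (List.mem_cons_of_mem _ hz)
      have hadj' : ∀ z ∈ (y :: r).zip (y :: r).tail, z.2 ≠ -z.1 := by
        intro z hz
        apply hadj
        rw [List.tail_cons, List.zip_cons_cons]
        exact List.mem_cons_of_mem _ hz
      have hT : arcL (v + d) (y :: r) ∪ {v + d + x, v + d + x + y} =
          arcL (v + d) (x :: y :: r) := by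
        ext t
        rw [Finset.mem_union, mem_arcL, mem_arcL, Finset.mem_insert, Finset.mem_singleton,
          List.tail_cons (a := x), List.zip_cons_cons]
        constructor
        · rintro ((h | ⟨z, hz, h⟩ | ⟨q, hq, h⟩) | h | h)
          · exact Or.inl h
          · exact Or.inr (Or.inl ⟨z, List.mem_cons_of_mem _ hz, h⟩)
          · exact Or.inr (Or.inr ⟨q, List.mem_cons_of_mem _ hq, h⟩)
          · exact Or.inr (Or.inl ⟨x, List.mem_cons_self, h⟩)
          · exact Or.inr (Or.inr ⟨(x, y), List.mem_cons_self, h⟩)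
        · rintro (h | ⟨z, hz, h⟩ | ⟨q, hq, h⟩)
          · exact Or.inl (Or.inl h)
          · rcases List.mem_cons.1 hz with rfl | hz
            · exact Or.inr (Or.inl h)
            · exact Or.inl (Or.inr (Or.inl ⟨z, hz, h⟩))
          · rcases List.mem_cons.1 hq with rfl | hq
            · exact Or.inr (Or.inr h)
            · exact Or.inl (Or.inr (Or.inr ⟨q, hq, h⟩))
      have hab : ∀ t ∈ ({v + d + x, v + d + x + y} : Finset Cell), Le (v + d + x) t := by
        intro t ht
        rw [Finset.mem_insert, Finset.mem_singleton] at ht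
        rcases ht with rfl | rfl
        · exact le_refl' _
        · exact le_c2 hv hd hx hy hxy hyx
      have hnab : ∀ t ∈ arcL (v + d) (y :: r), ¬ Le (v + d + x) t := by
        intro t ht
        rw [mem_arcL] at ht
        rcases ht with rfl | ⟨z, hz, rfl⟩ | ⟨q, hq, rfl⟩
        · exact not_above0 hv hd hx
        · exact not_above1 hv hd hx (hdir' z hz) (fun h => hxn (h ▸ hz))
        · have hm := zip_mem hq
          exact not_above hv hd hx (hdir' _ hm.1) (hdir' _ hm.2) (zip_ne hnd' hq) (hadj' q hq)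
            (fun h => hxn (h ▸ hm.1)) (fun h => hxn (h ▸ hm.2))
      have hsub1 : arcL (v + d) (y :: r) ⊆ arcL (v + d) (x :: y :: r) := by
        rw [← hT]; exact Finset.subset_union_left
      have hsub2 : ({v + d + x, v + d + x + y} : Finset Cell) ⊆ arcL (v + d) (x :: y :: r) := by
        rw [← hT]; exact Finset.subset_union_right
      have hall : ∀ t ∈ arcL (v + d) (x :: y :: r), Le v t := fun t ht =>
        le_trans' (le_vd hv hd) (le_arcL hv hd hnd hdir hadj ht)
      obtain ⟨j, u, hj⟩ := ax_of hy.1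
      have hji := ax_ne hj hi hxy.symm hyx
      refine lacy_split (T₁ := arcL (v + d) (y :: r)) (T₂ := {v + d + x, v + d + x + y}) ?_ hT hall
        (lcx_of hζ (conv_arcL hv hd hnd hdir hadj) hall hf) ?_ ?_ ?_
      · rw [Finset.disjoint_left]
        intro t h1 h2
        exact hnab t h1 (hab t h2)
      · intro t h1 t' h2 k hk
        exact hnab t h1 (le_trans' (hab t' h2) (le_of_fct hk))
      · exact ih (by simp) hnd' hdir' hadj' (flat_mono hsub1 hf)
      · refine pair_lacy hζ hj (even_of_dim hv j) ?_ ?_ (flat_mono hsub2 hf)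
        · rw [Pi.add_apply, hi.2 j, if_neg hji, add_zero, ev hv hd hj hy.2.1 hy.2.2]
        · exact le_trans' (le_vd hv hd) (le_c1 hv hd hx)

theorem arcH_lacy {ζ : R} (hζ : ζ ^ 3 = 1) {a : Cell → Cell → ZMod 3} {v d : Cell}
    (hv : dim v = 0) (hd : IsDir d) {p : List Cell} {w : Cell} (hnd : (p ++ [w]).Nodup)
    (hdir : ∀ x ∈ p ++ [w], IsDir x ∧ x ≠ d ∧ x ≠ -d)
    (hadj : ∀ x ∈ (p ++ [w]).zip (p ++ [w]).tail, x.2 ≠ -x.1)
    (hf : Flat a (arcH (v + d) p w)) : LAcy ζ a v (arcH (v + d) p w) := by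
  induction p with
  | nil =>
    have hT : arcH (v + d) [] w = ∅ := by
      ext t
      rw [mem_arcH]
      simp
    rw [hT]
    exact lacy_empty
  | cons x r ih =>
    have hx := hdir x List.mem_cons_self
    obtain ⟨i, s, hi⟩ := ax_of hx.1
    obtain ⟨y, r', hr⟩ : ∃ y r', r ++ [w] = y :: r' := by
      cases r with
      | nil => exact ⟨w, [], rfl⟩
      | cons y r => exact ⟨y, r ++ [w], rfl⟩
    have hzip : ((x :: r) ++ [w]).zip ((x :: r) ++ [w]).tail =
        (x, y) :: (r ++ [w]).zip (r ++ [w]).tail := by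
      rw [List.cons_append, List.tail_cons, hr, List.zip_cons_cons, List.tail_cons]
    have hy0 : y ∈ r ++ [w] := by rw [hr]; exact List.mem_cons_self
    have hy := hdir y (List.mem_cons_of_mem _ hy0)
    have hmem : (x, y) ∈ ((x :: r) ++ [w]).zip ((x :: r) ++ [w]).tail := by
      rw [hzip]
      exact List.mem_cons_self
    have hxy : x ≠ y := zip_ne hnd hmem
    have hyx : y ≠ -x := hadj _ hmem
    have hnd' : (r ++ [w]).Nodup := (List.nodup_cons.1 hnd).2
    have hxn : x ∉ r ++ [w] := (List.nodup_cons.1 hnd).1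
    have hdir' : ∀ z ∈ r ++ [w], IsDir z ∧ z ≠ d ∧ z ≠ -d :=
      fun z hz => hdir z (List.mem_cons_of_mem _ hz)
    have hadj' : ∀ z ∈ (r ++ [w]).zip (r ++ [w]).tail, z.2 ≠ -z.1 := by
      intro z hz
      apply hadj
      rw [hzip]
      exact List.mem_cons_of_mem _ hz
    have hT : arcH (v + d) r w ∪ {v + d + x, v + d + x + y} =
        arcH (v + d) (x :: r) w := by
      ext t
      rw [Finset.mem_union, mem_arcH, mem_arcH, Finset.mem_insert, Finset.mem_singleton, hzip]
      constructor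
      · rintro ((⟨z, hz, h⟩ | ⟨q, hq, h⟩) | h | h)
        · exact Or.inl ⟨z, List.mem_cons_of_mem _ hz, h⟩
        · exact Or.inr ⟨q, List.mem_cons_of_mem _ hq, h⟩
        · exact Or.inl ⟨x, List.mem_cons_self, h⟩
        · exact Or.inr ⟨(x, y), List.mem_cons_self, h⟩
      · rintro (⟨z, hz, h⟩ | ⟨q, hq, h⟩)
        · rcases List.mem_cons.1 hz with rfl | hz
          · exact Or.inr (Or.inl h)
          · exact Or.inl (Or.inl ⟨z, hz, h⟩)
        · rcases List.mem_cons.1 hq with rfl | hq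
          · exact Or.inr (Or.inr h)
          · exact Or.inl (Or.inr ⟨q, hq, h⟩)
    have hab : ∀ t ∈ ({v + d + x, v + d + x + y} : Finset Cell), Le (v + d + x) t := by
      intro t ht
      rw [Finset.mem_insert, Finset.mem_singleton] at ht
      rcases ht with rfl | rfl
      · exact le_refl' _
      · exact le_c2 hv hd hx hy hxy hyx
    have hnab : ∀ t ∈ arcH (v + d) r w, ¬ Le (v + d + x) t := by
      intro t ht
      rw [mem_arcH] at ht
      rcases ht with ⟨z, hz, rfl⟩ | ⟨q, hq, rfl⟩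
      · have hz' : z ∈ r ++ [w] := List.mem_append_left _ hz
        exact not_above1 hv hd hx (hdir' z hz') (fun h => hxn (h ▸ hz'))
      · have hm := zip_mem hq
        exact not_above hv hd hx (hdir' _ hm.1) (hdir' _ hm.2) (zip_ne hnd' hq) (hadj' q hq)
          (fun h => hxn (h ▸ hm.1)) (fun h => hxn (h ▸ hm.2))
    have hsub1 : arcH (v + d) r w ⊆ arcH (v + d) (x :: r) w := by
      rw [← hT]; exact Finset.subset_union_left
    have hsub2 : ({v + d + x, v + d + x + y} : Finset Cell) ⊆ arcH (v + d) (x :: r) w := by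
      rw [← hT]; exact Finset.subset_union_right
    have hall : ∀ t ∈ arcH (v + d) (x :: r) w, Le v t := fun t ht =>
      le_trans' (le_vd hv hd) (le_arcH hv hd hnd hdir hadj ht)
    obtain ⟨j, u, hj⟩ := ax_of hy.1
    have hji := ax_ne hj hi hxy.symm hyx
    refine lacy_split (T₁ := arcH (v + d) r w) (T₂ := {v + d + x, v + d + x + y}) ?_ hT hall
      (lcx_of hζ (conv_arcH hv hd hnd hdir hadj) hall hf) ?_ ?_ ?_
    · rw [Finset.disjoint_left]
      intro t h1 h2
      exact hnab t h1 (hab t h2)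
    · intro t h1 t' h2 k hk
      exact hnab t h1 (le_trans' (hab t' h2) (le_of_fct hk))
    · exact ih hnd' hdir' hadj' (flat_mono hsub1 hf)
    · refine pair_lacy hζ hj (even_of_dim hv j) ?_ ?_ (flat_mono hsub2 hf)
      · rw [Pi.add_apply, hi.2 j, if_neg hji, add_zero, ev hv hd hj hy.2.1 hy.2.2]
      · exact le_trans' (le_vd hv hd) (le_c1 hv hd hx)

end Cub
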