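import Pool.Agent.H33.CB.MzBasic

/-!
# M3, step 3: the local structure of a surface, from the links of its vertices

Every cell `c ∈ F` has a vertex `v` (`v i = c i` for `c i` even, `v i = c i + 1` for `c i` odd), which is in `F`; the link of `v` is a cycle (`v ∉ B`) or a path
(`v ∈ B`); so the cells of `F` above `v` are `v`, `v + d` (`d ∈ l`), `v + d + d'` (`d, d'` successive in `l`).

`two_squares`: let `s = v + d`, `d ∈ l`.  If `v ∉ B`: `l` is cyclic, the squares of `F` above `s` are `s + d'`, `s + d''` for the two neighbours of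
`d` in the cycle `l` (length at least three, `l` without repetition, so `d' ≠ d''`).  If `v ∈ B`: `d` is neither the first nor the last element of `l`
(otherwise `s = v + d ∈ B`), so again `d` has exactly two neighbours.  A cell `t ∈ F` with `Le s t` is `s` or `v + p.1 + p.2` with `d ∈ {p.1, p.2}`
(compare coordinates: `v + d` is a face of `v + p.1 + p.2` iff `d = p.1` or `d = p.2`, because the elements of `l` are distinct directions).
-/

namespace Cub

private lemma cl_e_self (i : Fin 4) : e i i = 1 := by simp [e]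

private lemma cl_e_ne {i j : Fin 4} (h : j ≠ i) : e i j = 0 := by simp [e, h]

lemma dir_cases {d : Cell} (h : IsDir d) : ∃ i : Fin 4, ∃ x : ℤ, (x = 1 ∨ x = -1) ∧ d = x • e i := by
  obtain ⟨i, h | h⟩ := h
  · exact ⟨i, 1, Or.inl rfl, by rw [h]; simp [e]⟩
  · refine ⟨i, -1, Or.inr rfl, ?_⟩
    rw [h]
    ext j
    by_cases hj : j = i
    · subst hj; simp [e]
    · simp [e, hj]

private lemma cl_isDir {i : Fin 4} {x : ℤ} (hx : x = 1 ∨ x = -1) : IsDir (x • e i) := by
  rcases hx with rfl | rfl
  · exact ⟨i, Or.inl (by simp [e])⟩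
  · refine ⟨i, Or.inr ?_⟩
    ext j
    by_cases hj : j = i
    · subst hj; simp [e]
    · simp [e, hj]

lemma exists_vertex (c : Cell) : ∃ v, Le v c ∧ dim v = 0 := by
  refine ⟨fun i => if c i % 2 = 0 then c i else c i + 1, ?_, ?_⟩
  · intro i
    by_cases h : c i % 2 = 0
    · left; simp [h]
    · right
      refine ⟨by omega, Or.inr ?_⟩
      simp [h]
  · unfold dim
    rw [Finset.card_eq_zero, Finset.filter_eq_empty_iff]
    intro i _
    by_cases h : c i % 2 = 0
    · simp [h]
    · simp only [h, if_false]; omega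

private lemma cl_even {v : Cell} (hv : dim v = 0) (i : Fin 4) : v i % 2 = 0 := by
  unfold dim at hv
  rw [Finset.card_eq_zero, Finset.filter_eq_empty_iff] at hv
  have := hv (Finset.mem_univ i)
  omega

private lemma cl_le_add {c d : Cell} (hd : IsDir d) (hc : ∀ i, d i ≠ 0 → c i % 2 = 0) :
    Le c (c + d) := by
  obtain ⟨i, x, hx, rfl⟩ := dir_cases hd
  have h0 : c i % 2 = 0 := hc i (by simp [cl_e_self]; omega)
  intro k
  by_cases hk : k = i
  · subst hk
    right
    have : (c + x • e k) k = c k + x := by simp [cl_e_self]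
    rw [this]
    omega
  · left
    simp [cl_e_ne hk]

private lemma cl_le_v {v d : Cell} (hv : dim v = 0) (hd : IsDir d) : Le v (v + d) :=
  cl_le_add hd (fun i _ => cl_even hv i)

/-- two directions on different axes -/
private lemma cl_two {d d' : Cell} (hd : IsDir d) (hd' : IsDir d') (h1 : d ≠ d') (h2 : d' ≠ -d) :
    ∀ i, d i ≠ 0 → d' i = 0 := by
  obtain ⟨i, x, hx, rfl⟩ := dir_cases hd
  obtain ⟨j, y, hy, rfl⟩ := dir_cases hd'
  intro k hk
  have hki : k = i := by
    by_contra hne
    exact hk (by simp [cl_e_ne hne])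
  subst hki
  by_cases hkj : k = j
  · exfalso
    subst hkj
    rcases hx with rfl | rfl <;> rcases hy with rfl | rfl
    · exact h1 rfl
    · exact h2 (by simp)
    · exact h2 (by simp)
    · exact h1 rfl
  · simp [cl_e_ne hkj]

private lemma cl_le_v2 {v d d' : Cell} (hv : dim v = 0) (hd : IsDir d) (hd' : IsDir d')
    (h1 : d ≠ d') (h2 : d' ≠ -d) : Le (v + d) (v + d + d') := by
  refine cl_le_add hd' fun i hi => ?_
  have h0 : d i = 0 := by
    by_contra hne
    exact hi (cl_two hd hd' h1 h2 i hne)
  have := cl_even hv i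
  simp [h0, this]

private lemma cl_ne {d : Cell} (hd : IsDir d) : ∃ i, d i ≠ 0 := by
  obtain ⟨i, x, hx, rfl⟩ := dir_cases hd
  exact ⟨i, by simp [cl_e_self]; omega⟩

private lemma cl_odd {v d : Cell} (hv : dim v = 0) (hd : IsDir d) {i : Fin 4} (hi : d i ≠ 0) :
    (v + d) i % 2 = 1 := by
  obtain ⟨j, x, hx, rfl⟩ := dir_cases hd
  have hij : i = j := by
    by_contra hne
    exact hi (by simp [cl_e_ne hne])
  subst hij
  have := cl_even hv i
  have h2 : (v + x • e i) i = v i + x := by simp [cl_e_self]
  rw [h2]; omega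

/-- `v + d` is a face of `v + p + q` only if `d = p` or `d = q`. -/
private lemma cl_face {v d p q : Cell} (hv : dim v = 0) (hd : IsDir d) (hp : IsDir p)
    (hq : IsDir q) (h1 : p ≠ q) (h2 : q ≠ -p) (h : Le (v + d) (v + p + q)) : d = p ∨ d = q := by
  obtain ⟨i, x, hx, hdx⟩ := dir_cases hd
  have hdi : d i = x := by rw [hdx]; simp [cl_e_self]
  have hod := cl_odd hv hd (i := i) (by rw [hdi]; omega)
  have hle := h i
  have e1 : (v + d) i = v i + d i := rfl
  have e2 : (v + p + q) i = v i + p i + q i := rfl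
  have heq : p i + q i = x := by
    rw [e1, e2] at hle
    rw [e1] at hod
    omega
  by_cases hpi : p i = 0
  · right
    obtain ⟨j, y, hy, hqy⟩ := dir_cases hq
    have hij : i = j := by
      by_contra hne
      have : q i = 0 := by rw [hqy]; simp [cl_e_ne hne]
      omega
    subst hij
    have : q i = y := by rw [hqy]; simp [cl_e_self]
    have hxy : x = y := by omega
    rw [hdx, hqy, hxy]
  · left
    have hqi := cl_two hp hq h1 h2 i hpi
    obtain ⟨j, y, hy, hpy⟩ := dir_cases hp
    have hij : i = j := by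
      by_contra hne
      have : p i = 0 := by rw [hpy]; simp [cl_e_ne hne]
      omega
    subst hij
    have : p i = y := by rw [hpy]; simp [cl_e_self]
    have hxy : x = y := by omega
    rw [hdx, hpy, hxy]

/-- the two kinds of links at once: `L` is the list of pairs of neighbours -/
private structure ClLink (F : Finset Cell) (v : Cell) (l : List Cell) (L : List (Cell × Cell)) :
    Prop where
  dir : ∀ d ∈ l, IsDir d
  mem : ∀ p ∈ L, p.1 ∈ l ∧ p.2 ∈ l
  ne : ∀ p ∈ L, p.1 ≠ p.2
  neg : ∀ p ∈ L, p.2 ≠ -p.1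
  iff : ∀ c, (c ∈ F ∧ Le v c) ↔ (c = v ∨ (∃ d ∈ l, c = v + d) ∨ ∃ p ∈ L, c = v + p.1 + p.2)

private lemma cl_zip_tail {l : List Cell} {p : Cell × Cell} :
    p ∈ l.zip l.tail ↔ ∃ k, ∃ h : k + 1 < l.length, p = (l[k], l[k + 1]) := by
  rw [List.mem_iff_getElem]
  constructor
  · rintro ⟨k, hk, rfl⟩
    have : k + 1 < l.length := by
      rw [List.length_zip, List.length_tail] at hk
      omega
    refine ⟨k, this, ?_⟩
    rw [List.getElem_zip, List.getElem_tail]
  · rintro ⟨k, hk, rfl⟩
    refine ⟨k, ?_, ?_⟩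
    · rw [List.length_zip, List.length_tail]; omega
    · rw [List.getElem_zip, List.getElem_tail]

private lemma cl_zip_rot {l : List Cell} {p : Cell × Cell} :
    p ∈ l.zip (l.rotate 1) ↔ ∃ k, ∃ h : k < l.length,
      p = (l[k], l[(k + 1) % l.length]'(Nat.mod_lt _ (by omega))) := by
  rw [List.mem_iff_getElem]
  constructor
  · rintro ⟨k, hk, rfl⟩
    have : k < l.length := by
      rw [List.length_zip, List.length_rotate] at hk
      omega
    refine ⟨k, this, ?_⟩
    rw [List.getElem_zip, List.getElem_rotate]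
  · rintro ⟨k, hk, rfl⟩
    refine ⟨k, ?_, ?_⟩
    · rw [List.length_zip, List.length_rotate]; omega
    · rw [List.getElem_zip, List.getElem_rotate]

private lemma cl_path {F : Finset Cell} {v : Cell} {l : List Cell} (h : LinkPath F v l) :
    ClLink F v l (l.zip l.tail) := by
  obtain ⟨h2, hnd, hdir, hneg, hiff⟩ := h
  refine ⟨hdir, ?_, ?_, hneg, hiff⟩
  · intro p hp
    obtain ⟨k, hk, rfl⟩ := cl_zip_tail.1 hp
    exact ⟨List.getElem_mem _, List.getElem_mem _⟩
  · intro p hp
    obtain ⟨k, hk, rfl⟩ := cl_zip_tail.1 hp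
    intro heq
    have := hnd.getElem_inj_iff.1 heq
    omega

private lemma cl_cycle {F : Finset Cell} {v : Cell} {l : List Cell} (h : LinkCycle F v l) :
    ClLink F v l (l.zip (l.rotate 1)) := by
  obtain ⟨h2, hnd, hdir, hneg, hiff⟩ := h
  refine ⟨hdir, ?_, ?_, hneg, hiff⟩
  · intro p hp
    obtain ⟨k, hk, rfl⟩ := cl_zip_rot.1 hp
    exact ⟨List.getElem_mem _, List.getElem_mem _⟩
  · intro p hp
    obtain ⟨k, hk, rfl⟩ := cl_zip_rot.1 hp
    intro heq
    have := hnd.getElem_inj_iff.1 heq
    by_cases hk1 : k + 1 = l.length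
    · rw [hk1, Nat.mod_self] at this; omega
    · rw [Nat.mod_eq_of_lt (by omega)] at this; omega

private lemma cl_link {F B : Finset Cell} (h : IsSurface F B) {v : Cell} (hv : v ∈ F)
    (hd : dim v = 0) : ∃ l L, ClLink F v l L := by
  by_cases hB : v ∈ B
  · obtain ⟨l, hl, _⟩ := h.outer v hB hd
    exact ⟨l, _, cl_path hl⟩
  · obtain ⟨l, hl⟩ := h.inner v hv hd hB
    exact ⟨l, _, cl_cycle hl⟩

lemma dim_le_two {F B : Finset Cell} (h : IsSurface F B) {c : Cell} (hc : c ∈ F) : dim c ≤ 2 := by
  obtain ⟨v, hvc, hv⟩ := exists_vertex c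
  have hvF := h.cx c hc v hvc
  obtain ⟨l, L, hL⟩ := cl_link h hvF hv
  have key : ∀ p q : Cell, IsDir p → IsDir q → dim (v + p + q) ≤ 2 := by
    intro p q hp hq
    obtain ⟨i, x, hx, rfl⟩ := dir_cases hp
    obtain ⟨j, y, hy, rfl⟩ := dir_cases hq
    have hsub : Finset.univ.filter (fun k => (v + x • e i + y • e j) k % 2 = 1) ⊆ {i, j} := by
      intro k hk
      simp only [Finset.mem_filter, Finset.mem_univ, true_and] at hk
      simp only [Finset.mem_insert, Finset.mem_singleton]
      by_contra hne
      push Not at hne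
      have : (v + x • e i + y • e j) k = v k := by simp [cl_e_ne hne.1, cl_e_ne hne.2]
      rw [this] at hk
      have := cl_even hv k
      omega
    exact (Finset.card_le_card hsub).trans Finset.card_le_two
  rcases (hL.iff c).1 ⟨hc, hvc⟩ with rfl | ⟨d, hd, rfl⟩ | ⟨p, hp, rfl⟩
  · omega
  · have h1 := key d (-d) (hL.dir d hd) (by
      obtain ⟨i, x, hx, rfl⟩ := dir_cases (hL.dir d hd)
      have : -(x • e i) = (-x) • e i := by module
      rw [this]
      exact cl_isDir (by omega))
    obtain ⟨i, x, hx, hdx⟩ := dir_cases (hL.dir d hd)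
    have hsub : Finset.univ.filter (fun k => (v + d) k % 2 = 1) ⊆ {i} := by
      intro k hk
      simp only [Finset.mem_filter, Finset.mem_univ, true_and] at hk
      simp only [Finset.mem_singleton]
      by_contra hne
      have : (v + d) k = v k := by rw [hdx]; simp [cl_e_ne hne]
      rw [this] at hk
      have := cl_even hv k
      omega
    have h3 := Finset.card_le_card hsub
    rw [Finset.card_singleton] at h3
    unfold dim
    omega
  · exact key _ _ (hL.dir _ (hL.mem p hp).1) (hL.dir _ (hL.mem p hp).2)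

lemma square_top {F B : Finset Cell} (h : IsSurface F B) {s t : Cell} (hs : dim s = 2)
    (ht : t ∈ F) (hle : Le s t) : t = s := by
  by_contra hne
  have h1 := dim_lt_of_le hle (fun h => hne h.symm)
  have h2 := dim_le_two h ht
  omega

/-- cells of `F` above `v + d` -/
private lemma cl_above {F : Finset Cell} {v : Cell} {l : List Cell} {L : List (Cell × Cell)}
    (hL : ClLink F v l L) (hv : dim v = 0) {d : Cell} (hd : d ∈ l) {t : Cell} (ht : t ∈ F)
    (hle : Le (v + d) t) : t = v + d ∨ ∃ p ∈ L, t = v + p.1 + p.2 ∧ (d = p.1 ∨ d = p.2) := by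
  have hdd := hL.dir d hd
  have hvd := cl_le_v hv hdd
  have hne : v ≠ v + d := by
    intro h
    obtain ⟨i, hi⟩ := cl_ne hdd
    have := congrFun h i
    simp at this
    exact hi this
  have hlt := dim_lt_of_le hvd hne
  rcases (hL.iff t).1 ⟨ht, le_trans' hvd hle⟩ with rfl | ⟨d', hd', rfl⟩ | ⟨p, hp, rfl⟩
  · exfalso
    exact hne (le_antisymm' hvd hle)
  · left
    -- compare the coordinate of d
    have hdd' := hL.dir d' hd'
    obtain ⟨i, x, hx, hdx⟩ := dir_cases hdd
    have hdi : d i = x := by rw [hdx]; simp [cl_e_self]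
    have hod := cl_odd hv hdd (i := i) (by rw [hdi]; omega)
    have hle := hle i
    have e1 : (v + d) i = v i + d i := rfl
    have e2 : (v + d') i = v i + d' i := rfl
    obtain ⟨j, y, hy, hdy⟩ := dir_cases hdd'
    have hdi' : d' i = x := by
      rw [e1, e2] at hle
      rw [e1] at hod
      omega
    have hij : i = j := by
      by_contra hne
      have : d' i = 0 := by rw [hdy]; simp [cl_e_ne hne]
      omega
    subst hij
    have : d' i = y := by rw [hdy]; simp [cl_e_self]
    have hxy : x = y := by omega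
    rw [hdx, hdy, hxy]
  · right
    refine ⟨p, hp, rfl, ?_⟩
    exact cl_face hv hdd (hL.dir _ (hL.mem p hp).1) (hL.dir _ (hL.mem p hp).2) (hL.ne p hp)
      (hL.neg p hp) hle

/-- an edge of `F` above the vertex `v` -/
private lemma cl_edge {F : Finset Cell} {v : Cell} {l : List Cell} {L : List (Cell × Cell)}
    (hL : ClLink F v l L) (hv : dim v = 0) {s : Cell} (hs : s ∈ F) (hle : Le v s)
    (hd : dim s ≤ 1) : s = v ∨ ∃ d ∈ l, s = v + d := by
  rcases (hL.iff s).1 ⟨hs, hle⟩ with rfl | h | ⟨p, hp, rfl⟩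
  · exact Or.inl rfl
  · exact Or.inr h
  · exfalso
    have hp1 := hL.dir _ (hL.mem p hp).1
    have hp2 := hL.dir _ (hL.mem p hp).2
    have h1 := dim_lt_of_le (cl_le_v hv hp1) (by
      intro h
      obtain ⟨i, hi⟩ := cl_ne hp1
      have := congrFun h i
      simp at this
      exact hi this)
    have h2 := dim_lt_of_le (cl_le_v2 hv hp1 hp2 (hL.ne p hp) (hL.neg p hp)) (by
      intro h
      obtain ⟨i, hi⟩ := cl_ne hp2
      have := congrFun h i
      simp at this
      exact hi this)
    omega

/-- conclusion of `two_squares` from the two neighbours of `d` -/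
private lemma cl_squares {F : Finset Cell} {v : Cell} {l : List Cell} {L : List (Cell × Cell)}
    (hL : ClLink F v l L) (hv : dim v = 0) {d b c : Cell} (hd : d ∈ l) (hb : (d, b) ∈ L)
    (hc : (c, d) ∈ L) (hbc : b ≠ c) (hu1 : ∀ p ∈ L, d = p.1 → p = (d, b))
    (hu2 : ∀ p ∈ L, d = p.2 → p = (c, d)) :
    ∃ b c : Cell, IsDir b ∧ IsDir c ∧ b ≠ c ∧ (∀ i, (v + d) i % 2 = 1 → b i = 0 ∧ c i = 0) ∧
      ∀ t, Le (v + d) t → (t ∈ F ↔ t = v + d ∨ t = v + d + b ∨ t = v + d + c) := by
  have hdd := hL.dir d hd
  have hbd : IsDir b := hL.dir _ (hL.mem _ hb).2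
  have hcd : IsDir c := hL.dir _ (hL.mem _ hc).1
  refine ⟨b, c, hbd, hcd, hbc, ?_, ?_⟩
  · intro i hi
    have hdi : d i ≠ 0 := by
      intro h0
      have : (v + d) i = v i := by simp [h0]
      rw [this] at hi
      have := cl_even hv i
      omega
    refine ⟨cl_two hdd hbd (hL.ne _ hb) (hL.neg _ hb) i hdi, ?_⟩
    refine cl_two hdd hcd (hL.ne _ hc).symm ?_ i hdi
    intro h
    have := hL.neg _ hc
    apply this
    rw [h]
    simp
  · intro t hle
    constructor
    · intro ht
      rcases cl_above hL hv hd ht hle with h | ⟨p, hp, h, h1 | h1⟩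
      · exact Or.inl h
      · right; left
        rw [hu1 p hp h1] at h
        exact h
      · right; right
        rw [hu2 p hp h1] at h
        rw [h]
        show v + c + d = v + d + c
        abel
    · rintro (h | h | h)
      · rw [h]
        exact ((hL.iff _).2 (Or.inr (Or.inl ⟨d, hd, rfl⟩))).1
      · rw [h]
        exact ((hL.iff _).2 (Or.inr (Or.inr ⟨_, hb, rfl⟩))).1
      · rw [h]
        refine ((hL.iff _).2 (Or.inr (Or.inr ⟨_, hc, ?_⟩))).1
        show v + d + c = v + c + d
        abel

theorem two_squares {F B : Finset Cell} (h : IsSurface F B) {s : Cell} (hs : s ∈ F)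
    (hd : dim s = 1) (hB : s ∉ B) :
    ∃ b c : Cell, IsDir b ∧ IsDir c ∧ b ≠ c ∧ (∀ i, s i % 2 = 1 → b i = 0 ∧ c i = 0) ∧
      ∀ t, Le s t → (t ∈ F ↔ t = s ∨ t = s + b ∨ t = s + c) := by
  obtain ⟨v, hvs, hv⟩ := exists_vertex s
  have hvF := h.cx s hs v hvs
  by_cases hvB : v ∈ B
  · obtain ⟨l, hl, hout⟩ := h.outer v hvB hv
    have hL := cl_path hl
    rcases cl_edge hL hv hs hvs (by omega) with rfl | ⟨d, hdl, rfl⟩
    · omega
    obtain ⟨k, hk, hkd⟩ := List.mem_iff_getElem.1 hdl
    have hnot : ¬ (l.head? = some d ∨ l.getLast? = some d) := fun h' =>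
      hB ((hout d).2 h').2
    rw [List.head?_eq_getElem?, List.getLast?_eq_getElem?] at hnot
    push Not at hnot
    have hk0 : k ≠ 0 := by
      rintro rfl
      exact hnot.1 (List.getElem?_eq_some_iff.2 ⟨hk, hkd⟩)
    have hk1 : k + 1 < l.length := by
      by_contra hcon
      have : k = l.length - 1 := by omega
      subst this
      exact hnot.2 (List.getElem?_eq_some_iff.2 ⟨hk, hkd⟩)
    have hnd := hl.2.1
    subst hkd
    refine cl_squares hL hv hdl (b := l[k + 1]) (c := l[k - 1]) ?_ ?_ ?_ ?_ ?_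
    · exact cl_zip_tail.2 ⟨k, hk1, rfl⟩
    · refine cl_zip_tail.2 ⟨k - 1, by omega, ?_⟩
      congr 1
      have : k - 1 + 1 = k := by omega
      simp only [this]
    · intro heq
      have := hnd.getElem_inj_iff.1 heq
      omega
    · intro p hp h1
      obtain ⟨j, hj, rfl⟩ := cl_zip_tail.1 hp
      have := hnd.getElem_inj_iff.1 h1
      subst this
      rfl
    · intro p hp h1
      obtain ⟨j, hj, rfl⟩ := cl_zip_tail.1 hp
      have := hnd.getElem_inj_iff.1 h1
      subst this
      simp
  · obtain ⟨l, hl⟩ := h.inner v hvF hv hvB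
    have hL := cl_cycle hl
    rcases cl_edge hL hv hs hvs (by omega) with rfl | ⟨d, hdl, rfl⟩
    · omega
    obtain ⟨k, hk, hkd⟩ := List.mem_iff_getElem.1 hdl
    have hnd := hl.2.1
    have hlen := hl.1
    subst hkd
    -- index of the predecessor
    have hpred : ∃ j, ∃ hj : j < l.length, (j + 1) % l.length = k ∧
        ∀ j' < l.length, (j' + 1) % l.length = k → j' = j := by
      by_cases hk0 : k = 0
      · refine ⟨l.length - 1, by omega, ?_, ?_⟩
        · rw [Nat.sub_add_cancel (by omega), Nat.mod_self, hk0]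
        · intro j' hj' hjk
          by_cases hx : j' + 1 = l.length
          · omega
          · rw [Nat.mod_eq_of_lt (by omega)] at hjk; omega
      · refine ⟨k - 1, by omega, ?_, ?_⟩
        · rw [Nat.sub_add_cancel (by omega), Nat.mod_eq_of_lt hk]
        · intro j' hj' hjk
          by_cases hx : j' + 1 = l.length
          · rw [hx, Nat.mod_self] at hjk; omega
          · rw [Nat.mod_eq_of_lt (by omega)] at hjk; omega
    obtain ⟨j, hj, hjk, hju⟩ := hpred
    refine cl_squares hL hv hdl (b := l[(k + 1) % l.length]'(Nat.mod_lt _ (by omega)))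
      (c := l[j]) ?_ ?_ ?_ ?_ ?_
    · exact cl_zip_rot.2 ⟨k, hk, rfl⟩
    · refine cl_zip_rot.2 ⟨j, hj, ?_⟩
      congr 1
      simp only [hjk]
    · intro heq
      have := hnd.getElem_inj_iff.1 heq
      by_cases hx : k + 1 = l.length
      · rw [hx, Nat.mod_self] at this
        subst this
        rw [Nat.mod_eq_of_lt (by omega)] at hjk
        omega
      · rw [Nat.mod_eq_of_lt (by omega)] at this
        subst this
        by_cases hy : k + 1 + 1 = l.length
        · rw [hy, Nat.mod_self] at hjk; omega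
        · rw [Nat.mod_eq_of_lt (by omega)] at hjk; omega
    · intro p hp h1
      obtain ⟨j', hj', rfl⟩ := cl_zip_rot.1 hp
      have := hnd.getElem_inj_iff.1 h1
      subst this
      rfl
    · intro p hp h1
      obtain ⟨j', hj', rfl⟩ := cl_zip_rot.1 hp
      have := hnd.getElem_inj_iff.1 h1
      have h3 := hju j' hj' this.symm
      subst h3
      simp only [← this]

/-- a direction which leads out of the boundary is the inward direction of the only extremal
coordinate -/
private lemma cl_inward {n : Fin 4 → ℕ} {v d : Cell} (hd : IsDir d)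
    (hvb : v ∈ bd n) (hvd : v + d ∈ Box n) (hvd' : v + d ∉ bd n) :
    ∃ i : Fin 4, ∃ x : ℤ, (x = 1 ∨ x = -1) ∧ d = x • e i ∧ v i = - x * (2 * (n i : ℤ)) ∧
      ∀ k, (v k = 2 * (n k : ℤ) ∨ v k = -(2 * (n k : ℤ))) → k = i := by
  obtain ⟨i, x, hx, hdx⟩ := dir_cases hd
  have huniq : ∀ k, (v k = 2 * (n k : ℤ) ∨ v k = -(2 * (n k : ℤ))) → k = i := by
    intro k hk
    by_contra hne
    apply hvd'
    rw [mem_bd]
    refine ⟨hvd, k, ?_⟩
    have : (v + d) k = v k := by rw [hdx]; simp [cl_e_ne hne]
    rw [this]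
    exact hk
  obtain ⟨k, hk⟩ := (mem_bd.1 hvb).2
  have hki := huniq k hk
  subst hki
  refine ⟨k, x, hx, hdx, ?_, huniq⟩
  have h1 := mem_box.1 hvd k
  have h2 : (v + d) k = v k + x := by rw [hdx]; simp [cl_e_self]
  rw [h2] at h1
  rcases hx with rfl | rfl
  · omega
  · omega

private lemma cl_getElem_tail_ne {l : List Cell} (hnd : l.Nodup) {i j : ℕ} (hi : i < l.length)
    (hj : j < l.length) (h : i ≠ j) : l[i] ≠ l[j] := fun heq =>
  h (hnd.getElem_inj_iff.1 heq)

/-- Near a boundary cell the surface is a collar: some coordinate `i` of `s` is extremal and the surface is invariant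
above `s` under the inward toggle.
PROOF.  `v` a vertex of `s`, `v ∈ B`, `l` the path with first element `d₁` and last element `d₂`, `v + d ∈ B` iff `d = d₁` or `d = d₂`.
For an inner element `d` of `l`: `v + d ∉ B = F ∩ bd n`, so `v + d ∉ bd n`; since `v ∈ bd n`, `v` has exactly one extremal coordinate `i` and
`d` is the inward direction in this coordinate; so `l` has at most one inner element.
Length 3, `l = [d₁, d, d₂]`: `d₁ i = d₂ i = 0` (they stay in `bd n`, or: they are not `± d`... `d₁ = -d` leaves the box).  For `s = v`, `v + d₁`, `v + d₂`, and `t ∈ F`, `Le s t`,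
`t i = s i`: `t ∈ {v, v + d₁, v + d₂}` and `t + d ∈ F`.
Length 2, `l = [d₁, d₂]`: `v + d₁ + d₂` is a square of `F`, not in `B` (`bdim`), so it has no extremal coordinate, while `v + d₁`, `v + d₂ ∈ bd n`: the extremal
coordinates of `v` are exactly the axes of `d₁` and `d₂` and both point inward.  `s = v`: take the axis of `d₁`; `t ∈ {v, v + d₂}`, `t + d₁ ∈ F`.
`s = v + d₁`: the axis of `d₂` (still extremal), `t = s`, `t + d₂ ∈ F`.  `s = v + d₂`: the axis of `d₁`. -/
theorem collar_tog {n : Fin 4 → ℕ} {F B : Finset Cell} (h : IsSurface F B) (hsub : F ⊆ Box n)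
    (hn : ∀ i, 1 ≤ n i) (hbd : F ∩ bd n = B) {s : Cell} (hs : s ∈ B) :
    ∃ i : Fin 4, ∃ d : ℤ, (d = 1 ∨ d = -1) ∧ s i = - d * (2 * (n i : ℤ)) ∧
      ∀ t, Le s t → t i = s i → t ∈ F → t + d • e i ∈ F := by
  obtain ⟨v, hvs, hv⟩ := exists_vertex s
  have hvB : v ∈ B := h.bcx s hs v hvs
  have hvF : v ∈ F := h.sub hvB
  have hsF : s ∈ F := h.sub hs
  have hBbd : ∀ c, c ∈ B ↔ c ∈ F ∧ c ∈ bd n := fun c => by rw [← hbd, Finset.mem_inter]
  have hvb : v ∈ bd n := ((hBbd v).1 hvB).2
  obtain ⟨l, hl, hout⟩ := h.outer v hvB hv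
  have hL := cl_path hl
  have hnd := hl.2.1
  have hlen := hl.1
  have hF1 : ∀ d ∈ l, v + d ∈ F := fun d hd =>
    ((hL.iff _).2 (Or.inr (Or.inl ⟨d, hd, rfl⟩))).1
  have hF2 : ∀ p ∈ l.zip l.tail, v + p.1 + p.2 ∈ F := fun p hp =>
    ((hL.iff _).2 (Or.inr (Or.inr ⟨p, hp, rfl⟩))).1
  rw [List.head?_eq_getElem?, List.getLast?_eq_getElem?] at hout
  have hBd : ∀ k, ∀ hk : k < l.length, (v + l[k] ∈ B ↔ k = 0 ∨ k = l.length - 1) := by
    intro k hk
    constructor
    · intro hB
      rcases (hout l[k]).1 ⟨hL.dir _ (List.getElem_mem _), hB⟩ with h1 | h1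
      · obtain ⟨h2, h3⟩ := List.getElem?_eq_some_iff.1 h1
        left
        exact (hnd.getElem_inj_iff.1 h3).symm
      · obtain ⟨h2, h3⟩ := List.getElem?_eq_some_iff.1 h1
        right
        exact (hnd.getElem_inj_iff.1 h3).symm
    · rintro (h1 | h1)
      · subst h1
        exact ((hout _).2 (Or.inl (List.getElem?_eq_some_iff.2 ⟨hk, rfl⟩))).2
      · refine ((hout _).2 (Or.inr (List.getElem?_eq_some_iff.2 ⟨by omega, ?_⟩))).2
        simp only [h1]
  -- inner elements
  have hinner : ∀ k, ∀ hk : k < l.length, k ≠ 0 → k ≠ l.length - 1 →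
      ∃ i : Fin 4, ∃ x : ℤ, (x = 1 ∨ x = -1) ∧ l[k] = x • e i ∧ v i = - x * (2 * (n i : ℤ)) ∧
      ∀ j, (v j = 2 * (n j : ℤ) ∨ v j = -(2 * (n j : ℤ))) → j = i := by
    intro k hk h0 h1
    refine cl_inward (hL.dir _ (List.getElem_mem _)) hvb
      (hsub (hF1 _ (List.getElem_mem _))) ?_
    intro hcon
    have := (hBbd _).2 ⟨hF1 _ (List.getElem_mem _), hcon⟩
    rcases (hBd k hk).1 this with h2 | h2
    · exact h0 h2
    · exact h1 h2
  have hlen3 : l.length ≤ 3 := by
    by_contra hcon
    obtain ⟨i, x, hx, h1, h2, h3⟩ := hinner 1 (by omega) (by omega) (by omega)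
    obtain ⟨i', x', hx', h1', h2', h3'⟩ := hinner 2 (by omega) (by omega) (by omega)
    have hii : i' = i := h3 i' (by rcases hx' with rfl | rfl <;> omega)
    subst hii
    have hxx : x = x' := by
      have := hn i'
      rcases hx with rfl | rfl <;> rcases hx' with rfl | rfl <;> omega
    subst hxx
    exact cl_getElem_tail_ne hnd (by omega) (by omega) (by omega) (h1.trans h1'.symm)
  have hs1 := cl_edge hL hv hsF hvs (h.bdim s hs)
  by_cases h3 : l.length = 3
  · -- one inner element
    obtain ⟨i, x, hx, h1, h2, h4⟩ := hinner 1 (by omega) (by omega) (by omega)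
    have hli : l[1] i ≠ 0 := by rw [h1]; simp [cl_e_self]; omega
    have hp01 : (l[0], l[1]) ∈ l.zip l.tail := cl_zip_tail.2 ⟨0, by omega, rfl⟩
    have hp12 : (l[1], l[2]) ∈ l.zip l.tail := cl_zip_tail.2 ⟨1, by omega, rfl⟩
    have h0i : l[0] i = 0 := by
      refine cl_two (hL.dir _ (List.getElem_mem _)) (hL.dir _ (List.getElem_mem _))
        (hL.ne _ hp01).symm ?_ i hli
      intro hcon
      apply hL.neg _ hp01
      show l[1] = -l[0]
      rw [hcon, neg_neg]
    have h2i : l[2] i = 0 :=
      cl_two (hL.dir _ (List.getElem_mem _)) (hL.dir _ (List.getElem_mem _))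
        (hL.ne _ hp12) (hL.neg _ hp12) i hli
    have hsi : s i = v i := by
      rcases hs1 with rfl | ⟨d, hd, rfl⟩
      · rfl
      · obtain ⟨k, hk, rfl⟩ := List.mem_iff_getElem.1 hd
        rcases (hBd k hk).1 hs with h5 | h5
        · subst h5; simp [h0i]
        · have h6 : k = 2 := by omega
          subst h6; simp [h2i]
    refine ⟨i, x, hx, by rw [hsi]; exact h2, ?_⟩
    intro t hle hti htF
    rw [hsi] at hti
    rcases (hL.iff t).1 ⟨htF, le_trans' hvs hle⟩ with rfl | ⟨d, hd, rfl⟩ | ⟨p, hp, rfl⟩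
    · rw [← h1]; exact hF1 _ (List.getElem_mem _)
    · obtain ⟨k, hk, rfl⟩ := List.mem_iff_getElem.1 hd
      have hk' : k = 0 ∨ k = 1 ∨ k = 2 := by omega
      rcases hk' with rfl | rfl | rfl
      · rw [← h1]; exact hF2 _ hp01
      · exfalso
        apply hli
        simpa using hti
      · rw [← h1]
        have := hF2 _ hp12
        have h7 : v + l[2] + l[1] = v + l[1] + l[2] := by abel
        rw [h7]
        exact this
    · exfalso
      obtain ⟨k, hk, rfl⟩ := cl_zip_tail.1 hp
      have hk' : k = 0 ∨ k = 1 := by omega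
      rcases hk' with rfl | rfl
      · apply hli
        simpa [h0i] using hti
      · apply hli
        simpa [h2i] using hti
  · -- no inner element
    have h2 : l.length = 2 := by omega
    have hp : (l[0], l[1]) ∈ l.zip l.tail := cl_zip_tail.2 ⟨0, by omega, rfl⟩
    have hd0 := hL.dir _ (List.getElem_mem (l := l) (n := 0) (by omega))
    have hd1 := hL.dir _ (List.getElem_mem (l := l) (n := 1) (by omega))
    have hne := hL.ne _ hp
    have hneg := hL.neg _ hp
    have hsq : v + l[0] + l[1] ∈ F := hF2 _ hp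
    have hsqb : v + l[0] + l[1] ∉ bd n := by
      intro hcon
      have hB := (hBbd _).2 ⟨hsq, hcon⟩
      have h5 := h.bdim _ hB
      have h6 := dim_lt_of_le (cl_le_v hv hd0) (by
        intro h
        obtain ⟨i, hi⟩ := cl_ne hd0
        have := congrFun h i
        simp at this
        exact hi this)
      have h7 := dim_lt_of_le (cl_le_v2 hv hd0 hd1 hne hneg) (by
        intro h
        obtain ⟨i, hi⟩ := cl_ne hd1
        have := congrFun h i
        simp at this
        exact hi this)
      omega
    have hb0 := ((hBbd _).1 ((hBd 0 (by omega)).2 (Or.inl rfl))).2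
    have hb1 := ((hBbd _).1 ((hBd 1 (by omega)).2 (Or.inr (by omega)))).2
    have hbox := hsub hsq
    -- statement for one of the two elements
    have key : ∀ p q : Cell, IsDir p → IsDir q → (∀ i, p i ≠ 0 → q i = 0) → v + p ∈ bd n →
        v + p + q ∈ Box n → v + p + q ∉ bd n → ∃ i : Fin 4, ∃ x : ℤ, (x = 1 ∨ x = -1) ∧
          q = x • e i ∧ p i = 0 ∧ v i = - x * (2 * (n i : ℤ)) := by
      intro p q hp hq hpq hb hbo hnb
      obtain ⟨i, x, hx, hqx⟩ := dir_cases hq
      have hqi : q i = x := by rw [hqx]; simp [cl_e_self]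
      have hpi : p i = 0 := by
        by_contra hcon
        have := hpq i hcon
        omega
      obtain ⟨k, hk⟩ := (mem_bd.1 hb).2
      have hki : k = i := by
        by_contra hne
        apply hnb
        rw [mem_bd]
        refine ⟨hbo, k, ?_⟩
        have : (v + p + q) k = (v + p) k := by rw [hqx]; simp [cl_e_ne hne]
        rw [this]; exact hk
      subst hki
      refine ⟨k, x, hx, hqx, hpi, ?_⟩
      have h1 : (v + p) k = v k := by simp [hpi]
      rw [h1] at hk
      have h2 := mem_box.1 hbo k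
      have h3 : (v + p + q) k = v k + x := by
        show v k + p k + q k = v k + x
        rw [hpi, hqi, add_zero]
      rw [h3] at h2
      rcases hx with rfl | rfl <;> omega
    have h01 : ∀ i, l[0] i ≠ 0 → l[1] i = 0 := cl_two hd0 hd1 hne hneg
    have h10 : ∀ i, l[1] i ≠ 0 → l[0] i = 0 := by
      intro i hi
      by_contra hcon
      exact hi (h01 i hcon)
    obtain ⟨i1, x1, hx1, he1, hz1, hv1⟩ := key _ _ hd0 hd1 h01 hb0 hbox hsqb
    have hcomm : v + l[0] + l[1] = v + l[1] + l[0] := by abel
    obtain ⟨i0, x0, hx0, he0, hz0, hv0⟩ := key _ _ hd1 hd0 h10 hb1 (hcomm ▸ hbox)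
      (hcomm ▸ hsqb)
    have h1i : l[1] i1 = x1 := by rw [he1]; simp [cl_e_self]
    have h0i : l[0] i0 = x0 := by rw [he0]; simp [cl_e_self]
    have hcell : ∀ t, Le v t → t ∈ F → t = v ∨ t = v + l[0] ∨ t = v + l[1] ∨
        t = v + l[0] + l[1] := by
      intro t hle htF
      rcases (hL.iff t).1 ⟨htF, hle⟩ with h | ⟨d, hd, h⟩ | ⟨p, hp, h⟩
      · exact Or.inl h
      · obtain ⟨k, hk, rfl⟩ := List.mem_iff_getElem.1 hd
        have hk' : k = 0 ∨ k = 1 := by omega
        rcases hk' with rfl | rfl
        · exact Or.inr (Or.inl h)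
        · exact Or.inr (Or.inr (Or.inl h))
      · obtain ⟨k, hk, rfl⟩ := cl_zip_tail.1 hp
        have hk' : k = 0 := by omega
        subst hk'
        exact Or.inr (Or.inr (Or.inr h))
    rcases hs1 with hsv | ⟨d, hd, rfl⟩
    · refine ⟨i0, x0, hx0, by rw [hsv]; exact hv0, ?_⟩
      intro t hle hti htF
      rw [hsv] at hle hti
      rcases hcell t hle htF with rfl | rfl | rfl | rfl
      · rw [← he0]; exact hF1 _ (List.getElem_mem _)
      · exfalso
        have : (v + l[0]) i0 = v i0 + x0 := by
          show v i0 + l[0] i0 = _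
          rw [h0i]
        omega
      · rw [← he0, ← hcomm]
        exact hsq
      · exfalso
        have : (v + l[0] + l[1]) i0 = v i0 + x0 := by
          show v i0 + l[0] i0 + l[1] i0 = _
          rw [h0i, hz0, add_zero]
        omega
    · obtain ⟨k, hk, rfl⟩ := List.mem_iff_getElem.1 hd
      have hk' : k = 0 ∨ k = 1 := by omega
      rcases hk' with rfl | rfl
      · refine ⟨i1, x1, hx1, ?_, ?_⟩
        · show v i1 + l[0] i1 = _
          rw [hz1, add_zero]; exact hv1
        · intro t hle hti htF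
          have e1 : (v + l[0]) i1 = v i1 := by
            show v i1 + l[0] i1 = _
            rw [hz1, add_zero]
          rw [e1] at hti
          rcases hcell t (le_trans' hvs hle) htF with rfl | rfl | rfl | rfl
          · exfalso
            have := le_antisymm' hvs hle
            obtain ⟨i, hi⟩ := cl_ne hd0
            have := congrFun this i
            simp at this
            exact hi this
          · rw [← he1]; exact hsq
          · exfalso
            have : (v + l[1]) i1 = v i1 + x1 := by
              show v i1 + l[1] i1 = _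
              rw [h1i]
            omega
          · exfalso
            have : (v + l[0] + l[1]) i1 = v i1 + x1 := by
              show v i1 + l[0] i1 + l[1] i1 = _
              rw [h1i, hz1, add_zero]
            omega
      · refine ⟨i0, x0, hx0, ?_, ?_⟩
        · show v i0 + l[1] i0 = _
          rw [hz0, add_zero]; exact hv0
        · intro t hle hti htF
          have e1 : (v + l[1]) i0 = v i0 := by
            show v i0 + l[1] i0 = _
            rw [hz0, add_zero]
          rw [e1] at hti
          rcases hcell t (le_trans' hvs hle) htF with rfl | rfl | rfl | rfl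
          · exfalso
            have := le_antisymm' hvs hle
            obtain ⟨i, hi⟩ := cl_ne hd1
            have := congrFun this i
            simp at this
            exact hi this
          · exfalso
            have : (v + l[0]) i0 = v i0 + x0 := by
              show v i0 + l[0] i0 = _
              rw [h0i]
            omega
          · rw [← he0, ← hcomm]; exact hsq
          · exfalso
            have : (v + l[0] + l[1]) i0 = v i0 + x0 := by
              show v i0 + l[0] i0 + l[1] i0 = _
              rw [h0i, hz0, add_zero]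
            omega

end Cub
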