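import Pool.Agent.H33.CB.CzRing
import Pool.Agent.H33.CB.CzLink

/-!
# M3, step 4: squares and edges

`sq_lacy`: for a square `q ∈ F` with even coordinates `i < j` the cells of the box above `q` outside `F` are exactly `ringT q i j` (the square is not in `bd n`
because `F ∩ bd n = B` has dimension at most one, so all cells above `q` are in the box (`inn_of_le`); none of the eight is in `F` by `square_top`).
`ring_lacy` with `v ≤ q`.

`edge_lacy`: `s ∈ F` an edge, `s ∉ B`, `v ≤ s`; `b`, `c` from `two_squares`.  `T = upF n F s`.  `T₂ = {t ∈ T | Le (s + b) t} = upF n F (s + b)` is acyclic by `sq_lacy`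
(`v ≤ s ≤ s + b`).  `T₁ = {t ∈ T | ¬ Le (s + b) t}`; arrows never go from `T₁` to `T₂`.  Let `i` be the axis of `b`, `b = x • e i`: the cells of `T₁` have
`t i = s i` or `t i = s i - x`.  If `c = -b`: `T₁` is invariant under the toggle in direction `i`, `d = -x` (the cells of `F` above `s` not above `s + b` are
`s`, `s - b`): `lacy_tog`.  If `c ≠ -b`: `L = {s - b, s - b + c}` is a subcomplex of `T₁` (not in `F`), acyclic by `lacy_tog` in the direction of `c`; `T₁ \ L`
is invariant under the toggle in direction `i` (the cells excluded above `s`, not above `s + b`, are `s, s + c, s - b, s - b + c`); `lacy_split`.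
All these sets are convex subsets of `Box n \ F`, so `lcx_of` applies.
-/

namespace Cub

variable {R : Type} [CommRing R]

private lemma cze_self (i : Fin 4) : e i i = 1 := by simp [e]

private lemma cze_ne {i j : Fin 4} (h : j ≠ i) : e i j = 0 := by simp [e, h]

private lemma cze_at (t : Cell) (i : Fin 4) (x : ℤ) : (t + x • e i) i = t i + x := by
  simp [cze_self]

private lemma cze_off (t : Cell) {i k : Fin 4} (h : k ≠ i) (x : ℤ) : (t + x • e i) k = t k := by
  simp [cze_ne h]

private lemma cze_out {s t : Cell} (h : Le s t) {i : Fin 4} (hi : s i % 2 = 0) (ht : t i = s i)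
    {x : ℤ} (hx : x = 1 ∨ x = -1) : Le s (t + x • e i) := by
  intro k
  by_cases hk : k = i
  · subst hk
    rw [cze_at, ht]
    right
    omega
  · rw [cze_off _ hk]
    exact h k

private lemma cze_in {s t : Cell} (h : Le s t) {i : Fin 4} {x : ℤ} (ht : t i + x = s i) :
    Le s (t + x • e i) := by
  intro k
  by_cases hk : k = i
  · subst hk
    rw [cze_at, ht]
    left
    rfl
  · rw [cze_off _ hk]
    exact h k

private lemma cze_neg {t u : Cell} {i : Fin 4} {x : ℤ} (h : t + (-x) • e i = u) :
    t = u + x • e i := by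
  rw [← h, neg_smul, neg_add_cancel_right]

private lemma cze_pos {t u : Cell} {i : Fin 4} {x : ℤ} (h : t + x • e i = u) :
    t = u + (-x) • e i := by
  rw [← h, neg_smul, add_neg_cancel_right]

private lemma cze_ext {t q : Cell} {i j : Fin 4} (hij : i ≠ j)
    (h : ∀ k, k ≠ i → k ≠ j → t k = q k) :
    t = q + (t i - q i) • e i + (t j - q j) • e j := by
  funext k
  by_cases hk : k = i
  · subst hk
    rw [cze_off _ hij, cze_at]
    omega
  · by_cases hk' : k = j
    · subst hk'
      rw [cze_at, cze_off _ hk]
      omega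
    · rw [cze_off _ hk', cze_off _ hk, h k hk hk']

private lemma cze_two {q : Cell} (hd : dim q = 2) :
    ∃ i j : Fin 4, i < j ∧ q i % 2 = 0 ∧ q j % 2 = 0 ∧ ∀ k, k ≠ i → k ≠ j → q k % 2 = 1 := by
  unfold dim at hd
  have h1 := Finset.card_filter_add_card_filter_not (s := (Finset.univ : Finset (Fin 4)))
    (fun i => q i % 2 = 1)
  rw [hd, Finset.card_univ, Fintype.card_fin] at h1
  have h2 : (Finset.univ.filter (fun i => ¬ q i % 2 = 1)).card = 2 := by omega
  obtain ⟨a, b, hab, h⟩ := Finset.card_eq_two.1 h2
  have hm : ∀ k, ¬ q k % 2 = 1 ↔ k = a ∨ k = b := by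
    intro k
    have h3 : k ∈ (Finset.univ.filter (fun i => ¬ q i % 2 = 1)) ↔ k ∈ ({a, b} : Finset (Fin 4)) := by
      rw [h]
    rw [Finset.mem_filter, Finset.mem_insert, Finset.mem_singleton] at h3
    exact ⟨fun h4 => h3.1 ⟨Finset.mem_univ k, h4⟩, fun h4 => (h3.2 h4).2⟩
  have ha := (hm a).2 (Or.inl rfl)
  have hb := (hm b).2 (Or.inr rfl)
  have hr : ∀ k, k ≠ a → k ≠ b → q k % 2 = 1 := by
    intro k h3 h4
    by_contra h5
    rcases (hm k).1 h5 with h6 | h6
    · exact h3 h6
    · exact h4 h6
  rcases lt_or_gt_of_ne hab with hlt | hlt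
  · exact ⟨a, b, hlt, by omega, by omega, hr⟩
  · exact ⟨b, a, hlt, by omega, by omega, fun k h3 h4 => hr k h4 h3⟩

private lemma cze_box {n : Fin 4 → ℕ} {s t : Cell} (hs : s ∈ Box n) (hb : s ∉ bd n) (h : Le s t) :
    t ∈ Box n := by
  have h1 : s ∈ inn n := Finset.mem_sdiff.2 ⟨hs, hb⟩
  exact (Finset.mem_sdiff.1 (inn_of_le h h1)).1

private lemma cze_ring {q t : Cell} {i j : Fin 4} (hij : i ≠ j) (hi : q i % 2 = 0)
    (hj : q j % 2 = 0) (ho : ∀ k, k ≠ i → k ≠ j → q k % 2 = 1) :
    (Le q t ∧ t ≠ q) ↔ t ∈ ringT q i j := by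
  unfold ringT
  simp only [Finset.mem_insert, Finset.mem_singleton]
  have hs : ∀ (x y : ℤ), (x = 1 ∨ x = -1 ∨ x = 0) → (y = 1 ∨ y = -1 ∨ y = 0) →
      Le q (q + x • e i + y • e j) := by
    intro x y hx hy k
    by_cases hk : k = i
    · subst hk
      rw [cze_off _ hij, cze_at]
      omega
    · by_cases hk' : k = j
      · subst hk'
        rw [cze_at, cze_off _ hk]
        omega
      · rw [cze_off _ hk', cze_off _ hk]
        left
        rfl
  have hne : ∀ (x y : ℤ), (x ≠ 0 ∨ y ≠ 0) → q + x • e i + y • e j ≠ q := by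
    intro x y hxy h
    have h1 := congrFun h i
    have h2 := congrFun h j
    rw [cze_off _ hij, cze_at] at h1
    rw [cze_at, cze_off _ hij.symm] at h2
    omega
  constructor
  · rintro ⟨hle, hne⟩
    have hoff : ∀ k, k ≠ i → k ≠ j → t k = q k := by
      intro k h1 h2
      have h3 := hle k
      have h4 := ho k h1 h2
      omega
    have h1 := cze_ext hij hoff
    have h2 : t i - q i = 0 ∨ t i - q i = 1 ∨ t i - q i = -1 := by
      have := hle i
      omega
    have h3 : t j - q j = 0 ∨ t j - q j = 1 ∨ t j - q j = -1 := by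
      have := hle j
      omega
    rcases h2 with h2 | h2 | h2 <;> rcases h3 with h3 | h3 | h3 <;> rw [h2, h3] at h1
    · exact absurd (by rw [h1]; simp) hne
    · simp only [zero_smul, add_zero, one_smul] at h1; simp [h1]
    · have : t = q - e j := by rw [h1]; simp [sub_eq_add_neg]
      simp [this]
    · simp only [zero_smul, add_zero, one_smul] at h1; simp [h1]
    · simp only [one_smul] at h1; simp [h1]
    · have : t = q + e i - e j := by rw [h1]; simp [sub_eq_add_neg]
      simp [this]
    · have : t = q - e i := by rw [h1]; simp [sub_eq_add_neg]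
      simp [this]
    · have : t = q - e i + e j := by rw [h1]; simp [sub_eq_add_neg]
      simp [this]
    · have : t = q - e i - e j := by rw [h1]; simp [sub_eq_add_neg]
      simp [this]
  · intro h
    have key : ∃ x y : ℤ, (x = 1 ∨ x = -1 ∨ x = 0) ∧ (y = 1 ∨ y = -1 ∨ y = 0) ∧
        (x ≠ 0 ∨ y ≠ 0) ∧ t = q + x • e i + y • e j := by
      rcases h with h | h | h | h | h | h | h | h
      · exact ⟨1, 0, by simp, by simp, by simp, by rw [h]; simp⟩
      · exact ⟨-1, 0, by simp, by simp, by simp, by rw [h]; simp [sub_eq_add_neg]⟩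
      · exact ⟨0, 1, by simp, by simp, by simp, by rw [h]; simp⟩
      · exact ⟨0, -1, by simp, by simp, by simp, by rw [h]; simp [sub_eq_add_neg]⟩
      · exact ⟨1, 1, by simp, by simp, by simp, by rw [h]; simp⟩
      · exact ⟨1, -1, by simp, by simp, by simp, by rw [h]; simp [sub_eq_add_neg]⟩
      · exact ⟨-1, 1, by simp, by simp, by simp, by rw [h]; simp [sub_eq_add_neg]⟩
      · exact ⟨-1, -1, by simp, by simp, by simp, by rw [h]; simp [sub_eq_add_neg]⟩
    obtain ⟨x, y, hx, hy, hxy, rfl⟩ := key
    exact ⟨hs x y hx hy, hne x y hxy⟩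

theorem sq_lacy {n : Fin 4 → ℕ} {F B : Finset Cell} (h : GoodDisc n F B) {ζ : R}
    (hζ : ζ ^ 2 + ζ + 1 = 0) (hu : IsUnit (1 - ζ)) {a : Cell → Cell → ZMod 3} (ha : LocSys n F a)
    {v q : Cell} (hvq : Le v q) (hq : q ∈ F) (hd : dim q = 2) : LAcy ζ a v (upF n F q) := by
  obtain ⟨i, j, hlt, hi, hj, ho⟩ := cze_two hd
  have hij : i ≠ j := ne_of_lt hlt
  have hqb : q ∉ bd n := by
    intro hcon
    have h1 : q ∈ B := by
      rw [← h.bdy]
      exact Finset.mem_inter.2 ⟨hq, hcon⟩
    have h2 := h.surf.bdim q h1
    omega
  have hT : upF n F q = ringT q i j := by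
    ext t
    rw [mem_upF, ← cze_ring hij hi hj ho]
    constructor
    · rintro ⟨-, h1, h2⟩
      refine ⟨h1, ?_⟩
      rintro rfl
      exact h2 hq
    · rintro ⟨h1, h2⟩
      exact ⟨cze_box (h.sub hq) hqb h1, h1, fun h3 => h2 (square_top h.surf hd h3 h1)⟩
  rw [hT]
  exact ring_lacy hζ hu hvq hij hi hj (ha.mono q hq i j hlt hi hj hd)

theorem edge_lacy {n : Fin 4 → ℕ} {F B : Finset Cell} (h : GoodDisc n F B) {ζ : R}
    (hζ : ζ ^ 2 + ζ + 1 = 0) (hu : IsUnit (1 - ζ)) {a : Cell → Cell → ZMod 3} (ha : LocSys n F a)
    {v s : Cell} (hvs : Le v s) (hs : s ∈ F) (hd : dim s = 1) (hB : s ∉ B) :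
    LAcy ζ a v (upF n F s) := by
  classical
  have hζ3 : ζ ^ 3 = 1 := by
    have h1 : ζ ^ 3 - 1 = (ζ - 1) * (ζ ^ 2 + ζ + 1) := by ring
    rw [hζ, mul_zero] at h1
    exact sub_eq_zero.1 h1
  obtain ⟨b, c, hb, hc, hbc, hodd, hF⟩ := two_squares h.surf hs hd hB
  have hsb : s ∉ bd n := by
    intro hcon
    apply hB
    rw [← h.bdy]
    exact Finset.mem_inter.2 ⟨hs, hcon⟩
  have hbox : ∀ t, Le s t → t ∈ Box n := fun t ht => cze_box (h.sub hs) hsb ht
  obtain ⟨i, x, hx, rfl⟩ := dir_cases hb
  obtain ⟨j, y, hy, rfl⟩ := dir_cases hc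
  have hsi : s i % 2 = 0 := by
    by_contra hcon
    have h1 := (hodd i (by omega)).1
    simp [cze_self] at h1
    omega
  have hsj : s j % 2 = 0 := by
    by_contra hcon
    have h1 := (hodd j (by omega)).2
    simp [cze_self] at h1
    omega
  have hvi : v i = s i := by
    have := hvs i
    omega
  have hvj : v j = s j := by
    have := hvs j
    omega
  have hT : ∀ t, t ∈ upF n F s ↔ Le s t ∧ t ≠ s ∧ t ≠ s + x • e i ∧ t ≠ s + y • e j := by
    intro t
    rw [mem_upF]
    constructor
    · rintro ⟨-, h1, h2⟩
      rw [hF t h1] at h2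
      push Not at h2
      exact ⟨h1, h2⟩
    · rintro ⟨h1, h2, h3, h4⟩
      refine ⟨hbox t h1, h1, ?_⟩
      rw [hF t h1]
      rintro (h5 | h5 | h5)
      · exact h2 h5
      · exact h3 h5
      · exact h4 h5
  have hsq : Le s (s + x • e i) := cze_out (le_refl' s) hsi rfl hx
  -- cells above `s + b`
  have hup : ∀ t, Le s t → (Le (s + x • e i) t ↔ t i = s i + x) := by
    intro t ht
    constructor
    · intro h1
      have h2 := h1 i
      rw [cze_at] at h2
      omega
    · intro h1 k
      by_cases hk : k = i
      · subst hk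
        rw [cze_at, h1]
        left
        rfl
      · rw [cze_off _ hk]
        exact ht k
  have hvT : ∀ t ∈ upF n F s, Le v t := fun t ht => le_trans' hvs ((hT t).1 ht).1
  have hsubB : ∀ t ∈ upF n F s, t ∈ Box n \ F := by
    intro t ht
    rw [mem_upF] at ht
    exact Finset.mem_sdiff.2 ⟨ht.1, ht.2.2⟩
  have hflat : ∀ A : Finset Cell, (∀ t ∈ A, t ∈ upF n F s) → Flat a A := by
    intro A hA p hp i' j' hij' hi' hj' s' t' hs' ht' hd'
    exact ha.flat p (hsubB _ (hA _ hp)) i' j' hij' hi' hj' s' t' hs' ht' (hsubB _ (hA _ hd'))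
  have hcT : Conv (upF n F s) := conv_upF h.surf.cx s
  -- the two parts
  let T₁ : Finset Cell := (upF n F s).filter (fun t => ¬ Le (s + x • e i) t)
  let T₂ : Finset Cell := (upF n F s).filter (fun t => Le (s + x • e i) t)
  have hm1 : ∀ t, t ∈ T₁ ↔ t ∈ upF n F s ∧ ¬ Le (s + x • e i) t := fun t => Finset.mem_filter
  have hm2 : ∀ t, t ∈ T₂ ↔ t ∈ upF n F s ∧ Le (s + x • e i) t := fun t => Finset.mem_filter
  have hm1' : ∀ t, t ∈ T₁ ↔ Le s t ∧ t ≠ s ∧ t ≠ s + y • e j ∧ t i ≠ s i + x := by
    intro t
    rw [hm1, hT]
    constructor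
    · rintro ⟨⟨h1, h2, h3, h4⟩, h5⟩
      exact ⟨h1, h2, h4, fun h6 => h5 ((hup t h1).2 h6)⟩
    · rintro ⟨h1, h2, h4, h5⟩
      refine ⟨⟨h1, h2, ?_, h4⟩, fun h6 => h5 ((hup t h1).1 h6)⟩
      rintro rfl
      exact h5 (cze_at _ _ _)
  have hdown : ∀ t ∈ T₁, ∀ t' ∈ T₂, ¬ Le t' t := by
    intro t ht t' ht' hle
    exact ((hm1 t).1 ht).2 (le_trans' ((hm2 t').1 ht').2 hle)
  have hc1 : Conv T₁ := by
    intro p hp r hr q' hpq hqr
    rw [hm1] at hp hr ⊢
    exact ⟨hcT p hp.1 r hr.1 q' hpq hqr, fun h6 => hr.2 (le_trans' h6 hqr)⟩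
  have hA2 : LAcy ζ a v T₂ := by
    have h1 : T₂ = upF n F (s + x • e i) := by
      ext t
      rw [hm2, mem_upF, mem_upF]
      constructor
      · rintro ⟨⟨h1, h2, h3⟩, h4⟩
        exact ⟨h1, h4, h3⟩
      · rintro ⟨h1, h2, h3⟩
        exact ⟨⟨h1, le_trans' hsq h2, h3⟩, h2⟩
    rw [h1]
    have h2 : s + x • e i ∈ F := (hF _ hsq).2 (Or.inr (Or.inl rfl))
    have h3 : Fct i (s + x • e i) s := by
      refine ⟨?_, ?_⟩
      · rw [cze_at]; omega
      · rcases hx with rfl | rfl
        · right; simp
        · left; simp
    have h4 := dim_of_fct h3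
    exact sq_lacy h hζ hu ha (le_trans' hvs hsq) h2 (by omega)
  have hA1 : LAcy ζ a v T₁ := by
    by_cases hji : j = i
    · -- opposite squares
      subst hji
      have hyx : y = -x := by
        have h1 : x ≠ y := by
          rintro rfl
          exact hbc rfl
        omega
      subst hyx
      refine lacy_tog hζ3 (fun t ht => hvT t ((hm1 t).1 ht).1)
        (lcx_of hζ3 hc1 (fun t ht => hvT t ((hm1 t).1 ht).1)
          (hflat T₁ (fun t ht => ((hm1 t).1 ht).1))) j (by omega) (-x) (by omega) ?_ ?_
      · intro t ht hti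
        rw [hm1'] at ht ⊢
        obtain ⟨h1, h2, h3, h4⟩ := ht
        refine ⟨cze_out h1 hsi (by omega) (by omega), ?_, ?_, ?_⟩
        · intro h5
          have := congrFun h5 j
          rw [cze_at] at this
          omega
        · intro h5
          exact h2 (add_right_cancel h5)
        · rw [cze_at]
          omega
      · intro t ht hti
        rw [hm1'] at ht
        obtain ⟨h1, h2, h3, h4⟩ := ht
        have h5 : t j = v j + -x := by
          have := h1 j
          omega
        refine ⟨h5, ?_⟩
        have h6 : t - -x • e j = t + x • e j := by rw [neg_smul, sub_neg_eq_add]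
        rw [h6, hm1']
        refine ⟨cze_in h1 (by omega), ?_, ?_, ?_⟩
        · intro h7
          exact h3 (cze_pos h7)
        · intro h7
          have := congrFun h7 j
          rw [cze_at, cze_at] at this
          omega
        · rw [cze_at]
          omega
    · -- the general case
      have hij : i ≠ j := fun h => hji h.symm
      let p : Cell := s + (-x) • e i
      have hpi : p i = s i + -x := cze_at _ _ _
      have hpk : ∀ k, k ≠ i → p k = s k := fun k hk => cze_off _ hk _
      let q : Cell := p + y • e j
      have hqi : q i = s i + -x := by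
        show (p + y • e j) i = _
        rw [cze_off _ hij, hpi]
      have hqj : q j = s j + y := by
        show (p + y • e j) j = _
        rw [cze_at, hpk j hji]
      have hqk : ∀ k, k ≠ i → k ≠ j → q k = s k := by
        intro k h1 h2
        show (p + y • e j) k = _
        rw [cze_off _ h2, hpk k h1]
      have hsp : Le s p := cze_out (le_refl' s) hsi rfl (by omega)
      have hsq' : Le s q := cze_out hsp hsj (hpk j hji) hy
      have hpne : p ≠ s := by
        intro h1
        have := congrFun h1 i
        omega
      have hp1 : p ∈ T₁ := by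
        rw [hm1']
        refine ⟨hsp, hpne, ?_, by omega⟩
        intro h1
        have := congrFun h1 i
        rw [cze_off _ hij, hpi] at this
        omega
      have hq1 : q ∈ T₁ := by
        rw [hm1']
        refine ⟨hsq', ?_, ?_, by omega⟩
        · intro h1
          have := congrFun h1 i
          omega
        · intro h1
          have := congrFun h1 i
          rw [cze_off _ hij, hqi] at this
          omega
      have hL : ∀ t, t ∈ ({p, q} : Finset Cell) ↔ t = p ∨ t = q := by
        intro t
        rw [Finset.mem_insert, Finset.mem_singleton]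
      have hLsub : ∀ t ∈ ({p, q} : Finset Cell), t ∈ T₁ := by
        intro t ht
        rcases (hL t).1 ht with rfl | rfl
        · exact hp1
        · exact hq1
      -- `L` is closed downwards in `T₁`
      have hLd : ∀ t ∈ ({p, q} : Finset Cell), ∀ t' ∈ T₁, Le t' t → t' ∈ ({p, q} : Finset Cell) := by
        intro t ht t' ht' hle
        rw [hm1'] at ht'
        obtain ⟨h1, h2, h3, h4⟩ := ht'
        have hleq : Le t' q := by
          rcases (hL t).1 ht with rfl | rfl
          · exact le_trans' hle (cze_out (le_refl' _) (by rw [hpk j hji]; exact hsj) rfl hy)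
          · exact hle
        have hk : ∀ k, k ≠ i → k ≠ j → t' k = s k := by
          intro k h5 h6
          have h7 := h1 k
          have h8 := hleq k
          rw [hqk k h5 h6] at h8
          omega
        have hti : t' i = s i ∨ t' i = s i + -x := by
          have h7 := h1 i
          have h8 := hleq i
          rw [hqi] at h8
          omega
        have htj : t' j = s j ∨ t' j = s j + y := by
          have h7 := h1 j
          have h8 := hleq j
          rw [hqj] at h8
          omega
        rw [hL]
        rcases hti with hti | hti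
        · exfalso
          rcases htj with htj | htj
          · apply h2
            funext k
            by_cases h5 : k = i
            · rw [h5, hti]
            · by_cases h6 : k = j
              · rw [h6, htj]
              · exact hk k h5 h6
          · apply h3
            funext k
            by_cases h5 : k = i
            · rw [h5, cze_off _ hij, hti]
            · by_cases h6 : k = j
              · rw [h6, cze_at, htj]
              · rw [cze_off _ h6]
                exact hk k h5 h6
        · rcases htj with htj | htj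
          · left
            funext k
            by_cases h5 : k = i
            · rw [h5, hti, hpi]
            · rw [hpk k h5]
              by_cases h6 : k = j
              · rw [h6, htj]
              · exact hk k h5 h6
          · right
            funext k
            by_cases h5 : k = i
            · rw [h5, hti, hqi]
            · by_cases h6 : k = j
              · rw [h6, htj, hqj]
              · rw [hqk k h5 h6]
                exact hk k h5 h6
      have hcL : Conv ({p, q} : Finset Cell) := by
        intro w hw r hr z hwz hzr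
        exact hLd r hr z (hc1 w (hLsub w hw) r (hLsub r hr) z hwz hzr) hzr
      have hvL : ∀ t ∈ ({p, q} : Finset Cell), Le v t := fun t ht =>
        hvT t ((hm1 t).1 (hLsub t ht)).1
      have hAL : LAcy ζ a v ({p, q} : Finset Cell) := by
        refine lacy_tog hζ3 hvL (lcx_of hζ3 hcL hvL
          (hflat _ (fun t ht => ((hm1 t).1 (hLsub t ht)).1))) j (by omega) y hy ?_ ?_
        · intro t ht htj
          rcases (hL t).1 ht with rfl | rfl
          · exact (hL _).2 (Or.inr rfl)
          · omega
        · intro t ht htj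
          rcases (hL t).1 ht with rfl | rfl
          · exfalso
            apply htj
            rw [hpk j hji, hvj]
          · refine ⟨by omega, ?_⟩
            rw [hL]
            left
            show p + y • e j - y • e j = p
            exact add_sub_cancel_right _ _
      let U : Finset Cell := T₁.filter (fun t => t ∉ ({p, q} : Finset Cell))
      have hmU : ∀ t, t ∈ U ↔ t ∈ T₁ ∧ t ∉ ({p, q} : Finset Cell) := fun t => Finset.mem_filter
      have hmU' : ∀ t, t ∈ U ↔ Le s t ∧ t ≠ s ∧ t ≠ s + y • e j ∧ t i ≠ s i + x ∧ t ≠ p ∧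
          t ≠ q := by
        intro t
        rw [hmU, hm1', hL]
        push Not
        constructor
        · rintro ⟨⟨h1, h2, h3, h4⟩, h5, h6⟩
          exact ⟨h1, h2, h3, h4, h5, h6⟩
        · rintro ⟨h1, h2, h3, h4, h5, h6⟩
          exact ⟨⟨h1, h2, h3, h4⟩, h5, h6⟩
      have hcU : Conv U := by
        intro w hw r hr z hwz hzr
        rw [hmU] at hw hr ⊢
        exact ⟨hc1 w hw.1 r hr.1 z hwz hzr, fun h5 => hw.2 (hLd z h5 w hw.1 hwz)⟩
      have hvU : ∀ t ∈ U, Le v t := fun t ht => hvT t ((hm1 t).1 ((hmU t).1 ht).1).1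
      have hqs : q = s + y • e j + (-x) • e i := by
        show s + (-x) • e i + y • e j = _
        abel
      have hAU : LAcy ζ a v U := by
        refine lacy_tog hζ3 hvU (lcx_of hζ3 hcU hvU
          (hflat _ (fun t ht => ((hm1 t).1 ((hmU t).1 ht).1).1))) i (by omega) (-x) (by omega) ?_ ?_
        · intro t ht hti
          rw [hmU'] at ht ⊢
          obtain ⟨h1, h2, h3, h4, h5, h6⟩ := ht
          refine ⟨cze_out h1 hsi (by omega) (by omega), ?_, ?_, ?_, ?_, ?_⟩
          · intro h7
            have := congrFun h7 i
            rw [cze_at] at this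
            omega
          · intro h7
            have := congrFun h7 i
            rw [cze_at, cze_off _ hij] at this
            omega
          · rw [cze_at]
            omega
          · intro h7
            exact h2 (add_right_cancel h7)
          · intro h7
            rw [hqs] at h7
            exact h3 (add_right_cancel h7)
        · intro t ht hti
          rw [hmU'] at ht
          obtain ⟨h1, h2, h3, h4, h5, h6⟩ := ht
          have h8 : t i = v i + -x := by
            have := h1 i
            omega
          refine ⟨h8, ?_⟩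
          have h9 : t - -x • e i = t + x • e i := by rw [neg_smul, sub_neg_eq_add]
          rw [h9, hmU']
          refine ⟨cze_in h1 (by omega), ?_, ?_, ?_, ?_, ?_⟩
          · intro h7
            exact h5 (cze_pos h7)
          · intro h7
            apply h6
            rw [hqs]
            exact cze_pos h7
          · rw [cze_at]
            omega
          · intro h7
            have := congrFun h7 i
            rw [cze_at, hpi] at this
            omega
          · intro h7
            have := congrFun h7 i
            rw [cze_at, hqi] at this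
            omega
      refine lacy_split (T₁ := {p, q}) (T₂ := U) ?_ ?_ (fun t ht => hvT t ((hm1 t).1 ht).1)
        (lcx_of hζ3 hc1 (fun t ht => hvT t ((hm1 t).1 ht).1)
          (hflat T₁ (fun t ht => ((hm1 t).1 ht).1))) ?_ hAL hAU
      · rw [Finset.disjoint_left]
        intro t ht ht'
        exact ((hmU t).1 ht').2 ht
      · ext t
        rw [Finset.mem_union, hmU]
        constructor
        · rintro (h1 | h1)
          · exact hLsub t h1
          · exact h1.1
        · intro h1
          by_cases h2 : t ∈ ({p, q} : Finset Cell)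
          · exact Or.inl h2
          · exact Or.inr ⟨h1, h2⟩
      · intro t ht t' ht' k hk
        exact ((hmU t').1 ht').2 (hLd t ht t' ((hmU t').1 ht').1 (le_of_fct hk))
  refine lacy_split (T₁ := T₁) (T₂ := T₂) ?_ ?_ hvT (lcx_of hζ3 hcT hvT
    (hflat _ (fun t ht => ht))) ?_ hA1 hA2
  · rw [Finset.disjoint_left]
    intro t ht ht'
    exact ((hm1 t).1 ht).2 ((hm2 t).1 ht').2
  · ext t
    rw [Finset.mem_union, hm1, hm2]
    constructor
    · rintro (h1 | h1)
      · exact h1.1
      · exact h1.1
    · intro h1
      by_cases h2 : Le (s + x • e i) t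
      · exact Or.inr ⟨h1, h2⟩
      · exact Or.inl ⟨h1, h2⟩
  · intro t ht t' ht' k hk
    exact hdown t ht t' ht' (le_of_fct hk)

end Cub
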