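import Pool.Agent.H33.CB.CzVert

/-!
# M3, step 7: all fibres

`bdy_lacy`: `s ∈ B`.  Take `i`, `d` from `collar_tog`.  `T = upF n F s` is invariant under the toggle in direction `i`: a cell of the box above `s` has
`t i = s i` or `t i = s i + d` (`s i = - d * 2 n i` is extremal); if `t i = s i` and `t ∉ F` then `t + d • e i ∉ F` (`F` is a complex and `t` is a face of `t + d • e i`);
if `t i = s i + d` and `t ∉ F` then `t - d • e i ∉ F` by `collar_tog`.
`fib_lacy`: `dim s ≤ 2` (`dim_le_two`): `bdy_lacy`, `vert_lacy`, `edge_lacy`, `sq_lacy` (a square is never in `B`).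
-/

namespace Cub

variable {R : Type} [CommRing R]

private theorem CzFib_same (t : Cell) (i : Fin 4) (d : ℤ) : (t + d • e i) i = t i + d := by
  simp [e]

private theorem CzFib_other (t : Cell) {i j : Fin 4} (h : j ≠ i) (d : ℤ) :
    (t + d • e i) j = t j := by
  simp [e, Pi.single_apply, h]

private theorem CzFib_same' (t : Cell) (i : Fin 4) (d : ℤ) : (t - d • e i) i = t i - d := by
  simp [e]

private theorem CzFib_other' (t : Cell) {i j : Fin 4} (h : j ≠ i) (d : ℤ) :
    (t - d • e i) j = t j := by
  simp [e, Pi.single_apply, h]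

theorem bdy_lacy {n : Fin 4 → ℕ} {F B : Finset Cell} (h : GoodDisc n F B) {ζ : R}
    (hζ : ζ ^ 2 + ζ + 1 = 0) {a : Cell → Cell → ZMod 3} (ha : LocSys n F a)
    {s : Cell} (hs : s ∈ B) : LAcy ζ a s (upF n F s) := by
  have h3 : ζ ^ 3 = 1 := by linear_combination (ζ - 1) * hζ
  have hn : ∀ i, 1 ≤ n i := fun i => by
    have := h.big i
    omega
  obtain ⟨i, d, hd, hsi, hcol⟩ := collar_tog h.surf h.sub hn h.bdy hs
  have hv : ∀ t ∈ upF n F s, Le s t := fun t ht => (mem_upF.1 ht).2.1
  have hsub : upF n F s ⊆ Box n \ F := by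
    intro t ht
    have h1 := mem_upF.1 ht
    exact Finset.mem_sdiff.2 ⟨h1.1, h1.2.2⟩
  have hcx := lcx_of h3 (conv_upF (n := n) h.surf.cx s) hv (flat_mono hsub ha.flat)
  have hev : s i % 2 = 0 := by
    rcases hd with rfl | rfl <;> omega
  have hni := hn i
  refine lacy_tog h3 hv hcx i hev d hd ?_ ?_
  · intro t ht hti
    rw [mem_upF] at ht ⊢
    obtain ⟨hbox, hle, hF⟩ := ht
    refine ⟨?_, ?_, ?_⟩
    · rw [mem_box] at hbox ⊢
      intro j
      by_cases hj : j = i
      · subst hj
        rw [CzFib_same, hti]
        rcases hd with rfl | rfl <;> omega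
      · rw [CzFib_other t hj]
        exact hbox j
    · intro j
      by_cases hj : j = i
      · subst hj
        rw [CzFib_same, hti]
        right
        rcases hd with rfl | rfl <;> omega
      · rw [CzFib_other t hj]
        exact hle j
    · intro hmem
      apply hF
      apply h.surf.cx _ hmem
      intro j
      by_cases hj : j = i
      · subst hj
        rw [CzFib_same, hti]
        right
        rcases hd with rfl | rfl <;> omega
      · rw [CzFib_other t hj]
        exact Or.inl rfl
  · intro t ht hti
    rw [mem_upF] at ht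
    obtain ⟨hbox, hle, hF⟩ := ht
    have hbi := (mem_box.1 hbox) i
    have hlei := hle i
    have hti' : t i = s i + d := by
      rcases hlei with h1 | ⟨h1, h2⟩
      · exact absurd h1.symm hti
      · rcases hd with rfl | rfl <;> omega
    refine ⟨hti', ?_⟩
    rw [mem_upF]
    have hle' : Le s (t - d • e i) := by
      intro j
      by_cases hj : j = i
      · subst hj
        rw [CzFib_same', hti']
        left
        ring
      · rw [CzFib_other' t hj]
        exact hle j
    refine ⟨?_, hle', ?_⟩
    · rw [mem_box] at hbox ⊢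
      intro j
      by_cases hj : j = i
      · subst hj
        rw [CzFib_same', hti']
        rcases hd with rfl | rfl <;> omega
      · rw [CzFib_other' t hj]
        exact hbox j
    · intro hmem
      apply hF
      have h1 := hcol (t - d • e i) hle' (by rw [CzFib_same', hti']; ring) hmem
      rwa [sub_add_cancel] at h1

theorem fib_lacy {n : Fin 4 → ℕ} {F B : Finset Cell} (h : GoodDisc n F B) {ζ : R}
    (hζ : ζ ^ 2 + ζ + 1 = 0) (hu : IsUnit (1 - ζ)) {a : Cell → Cell → ZMod 3} (ha : LocSys n F a)
    {s : Cell} (hs : s ∈ F) : LAcy ζ a s (upF n F s) := by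
  by_cases hB : s ∈ B
  · exact bdy_lacy h hζ ha hB
  · have hd := dim_le_two h.surf hs
    rcases Nat.lt_or_ge (dim s) 1 with h0 | h1
    · exact vert_lacy h hζ hu ha hs (by omega) hB
    · rcases Nat.lt_or_ge (dim s) 2 with h2 | h2
      · exact edge_lacy h hζ hu ha (le_refl' s) hs (by omega) hB
      · exact sq_lacy h hζ hu ha (le_refl' s) hs (by omega)

end Cub
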