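import Pool.Agent.H33.CB.Alg

/-!
# Module Reidx (about 120 lines): change of basis by units and reindexing; ring automorphisms

`reidx`: the map `(A → R) → (B → R)` which sends the basis vector `a` to `u a` times the basis
vector `g a` is an isomorphism of differential modules.
`conj_len`: `x ↦ f ∘ x` is an additive bijection which commutes with the differentials and
is semilinear; it induces an order isomorphism of submodule lattices
(`Module.length` depends only on the lattice of submodules).
-/

namespace Cub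

variable {R : Type} [CommRing R] {ι κ : Type} [DecidableEq ι] [DecidableEq κ]

theorem Reidx_length_semi {M N : Type} [AddCommGroup M] [Module R M] [AddCommGroup N] [Module R N]
    {σ σ' : R →+* R} [RingHomInvPair σ σ'] [RingHomInvPair σ' σ] (e : M ≃ₛₗ[σ] N) :
    Module.length R M = Module.length R N := by
  unfold Module.length
  congr 1
  exact Order.krullDim_eq_of_orderIso (Submodule.orderIsoMapComap e)

theorem Reidx_hm_len {D : ι → ι → R} {E : κ → κ → R} {A : Finset ι} {B : Finset κ}
    {σ σ' : R →+* R} [RingHomInvPair σ σ'] [RingHomInvPair σ' σ]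
    (φ : (A → R) →ₛₗ[σ] (B → R)) (ψ : (B → R) →ₛₗ[σ'] (A → R))
    (h1 : ∀ x, ψ (φ x) = x) (h2 : ∀ y, φ (ψ y) = y)
    (h : ∀ x, φ (dB D A x) = dB E B (φ x)) :
    (Acy D A ↔ Acy E B) ∧ Module.length R (Hm D A) = Module.length R (Hm E B) := by
  have h' : ∀ y, ψ (dB E B y) = dB D A (ψ y) := by
    intro y
    have := h (ψ y)
    rw [h2] at this
    rw [← this, h1]
  refine ⟨⟨fun H x hx => ?_, fun H x hx => ?_⟩, ?_⟩
  · obtain ⟨y, hy⟩ := H (ψ x) (by rw [← h', hx, map_zero])
    exact ⟨φ y, by rw [← h, hy, h2]⟩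
  · obtain ⟨y, hy⟩ := H (φ x) (by rw [← h, hx, map_zero])
    exact ⟨ψ y, by rw [← h', hy, h1]⟩
  · let φ1 : LinearMap.ker (dB D A) →ₛₗ[σ] LinearMap.ker (dB E B) :=
      (φ.domRestrict _).codRestrict _ (fun x => by
        rw [LinearMap.mem_ker, LinearMap.domRestrict_apply, ← h, LinearMap.mem_ker.1 x.2, map_zero])
    let ψ1 : LinearMap.ker (dB E B) →ₛₗ[σ'] LinearMap.ker (dB D A) :=
      (ψ.domRestrict _).codRestrict _ (fun x => by
        rw [LinearMap.mem_ker, LinearMap.domRestrict_apply, ← h', LinearMap.mem_ker.1 x.2,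
          map_zero])
    have hφ : (LinearMap.range (dB D A)).submoduleOf (LinearMap.ker (dB D A)) ≤
        ((LinearMap.range (dB E B)).submoduleOf (LinearMap.ker (dB E B))).comap φ1 := by
      rintro x ⟨y, hy⟩
      refine ⟨φ y, ?_⟩
      rw [← h, hy]
      rfl
    have hψ : (LinearMap.range (dB E B)).submoduleOf (LinearMap.ker (dB E B)) ≤
        ((LinearMap.range (dB D A)).submoduleOf (LinearMap.ker (dB D A))).comap ψ1 := by
      rintro x ⟨y, hy⟩
      refine ⟨ψ y, ?_⟩
      rw [← h', hy]
      rfl
    refine Reidx_length_semi (σ := σ) (σ' := σ') (LinearEquiv.ofLinearMap (Submodule.mapQ _ _ φ1 hφ)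
      (Submodule.mapQ _ _ ψ1 hψ) ?_ ?_)
    · refine LinearMap.ext fun x => ?_
      obtain ⟨x, rfl⟩ := Submodule.mkQ_surjective _ x
      simp only [LinearMap.comp_apply, Submodule.mkQ_apply, Submodule.mapQ_apply, LinearMap.id_apply]
      congr 1
      exact Subtype.ext (h2 x)
    · refine LinearMap.ext fun x => ?_
      obtain ⟨x, rfl⟩ := Submodule.mkQ_surjective _ x
      simp only [LinearMap.comp_apply, Submodule.mkQ_apply, Submodule.mapQ_apply, LinearMap.id_apply]
      congr 1
      exact Subtype.ext (h1 x)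

theorem reidx {D : ι → ι → R} {E : κ → κ → R} {A : Finset ι} {B : Finset κ} (g : ι → κ) (u : ι → R)
    (hu : ∀ a ∈ A, IsUnit (u a)) (inj : ∀ a ∈ A, ∀ b ∈ A, g a = g b → a = b) (img : A.image g = B)
    (h : ∀ a ∈ A, ∀ b ∈ A, u a * E (g a) (g b) = D a b * u b) :
    (Acy D A ↔ Acy E B) ∧ Module.length R (Hm D A) = Module.length R (Hm E B) := by
  have hmem : ∀ a : A, g a ∈ B := fun a => by
    rw [← img]; exact Finset.mem_image_of_mem g a.2
  have hbij : Function.Bijective (fun a : A => (⟨g a, hmem a⟩ : B)) := by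
    constructor
    · intro a b hab
      exact Subtype.ext (inj a a.2 b b.2 (congrArg Subtype.val hab))
    · rintro ⟨b, hb⟩
      rw [← img] at hb
      obtain ⟨a, ha, rfl⟩ := Finset.mem_image.1 hb
      exact ⟨⟨a, ha⟩, rfl⟩
  let e : A ≃ B := Equiv.ofBijective _ hbij
  have he : ∀ a : A, (e a : κ) = g a := fun a => rfl
  let v : A → Rˣ := fun a => (hu a a.2).unit
  have hv : ∀ a : A, (v a : R) = u a := fun a => rfl
  let φ : (A → R) →ₗ[R] (B → R) :=
    { toFun := fun x b => x (e.symm b) * v (e.symm b)
      map_add' := fun x y => by funext b; simp [add_mul]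
      map_smul' := fun r x => by funext b; simp [mul_assoc] }
  let ψ : (B → R) →ₗ[R] (A → R) :=
    { toFun := fun y a => y (e a) * ((v a)⁻¹ : Rˣ)
      map_add' := fun x y => by funext b; simp [add_mul]
      map_smul' := fun r x => by funext b; simp [mul_assoc] }
  refine Reidx_hm_len (σ := RingHom.id R) (σ' := RingHom.id R) φ ψ (fun x => ?_) (fun y => ?_)
    (fun x => ?_)
  · funext a
    change x (e.symm (e a)) * v (e.symm (e a)) * ((v a)⁻¹ : Rˣ) = x a
    rw [e.symm_apply_apply, mul_assoc, Units.mul_inv, mul_one]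
  · funext b
    change y (e (e.symm b)) * ((v (e.symm b))⁻¹ : Rˣ) * v (e.symm b) = y b
    rw [e.apply_symm_apply, mul_assoc, Units.inv_mul, mul_one]
  · funext b
    change (∑ a : A, x a * D a (e.symm b)) * v (e.symm b) =
      ∑ b' : B, (x (e.symm b') * v (e.symm b')) * E b' b
    rw [← e.sum_comp (fun b' : B => (x (e.symm b') * v (e.symm b')) * E b' b), Finset.sum_mul]
    refine Finset.sum_congr rfl fun a _ => ?_
    have hb : (b : κ) = g (e.symm b) := by rw [← he, e.apply_symm_apply]
    rw [e.symm_apply_apply, he, mul_assoc, mul_assoc, hv, hv]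
    congr 1
    rw [← h a a.2 (e.symm b) (e.symm b).2, ← hb]

theorem conj_len (f : R ≃+* R) (D : ι → ι → R) (B : Finset ι) :
    Module.length R (Hm (fun a b => f (D a b)) B) = Module.length R (Hm D B) := by
  have : RingHomInvPair (f : R →+* R) (f.symm : R →+* R) := RingHomInvPair.of_ringEquiv f
  have : RingHomInvPair (f.symm : R →+* R) (f : R →+* R) := RingHomInvPair.symm _ _
  let φ : (B → R) →ₛₗ[(f : R →+* R)] (B → R) :=
    { toFun := fun x b => f (x b)
      map_add' := fun x y => by funext b; simp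
      map_smul' := fun r x => by funext b; simp }
  let ψ : (B → R) →ₛₗ[(f.symm : R →+* R)] (B → R) :=
    { toFun := fun x b => f.symm (x b)
      map_add' := fun x y => by funext b; simp
      map_smul' := fun r x => by funext b; simp }
  refine (Reidx_hm_len (D := D) (E := fun a b => f (D a b)) φ ψ (fun x => ?_) (fun y => ?_)
    (fun x => ?_)).2.symm
  · funext b; exact f.symm_apply_apply _
  · funext b; exact f.apply_symm_apply _
  · funext b
    change f (∑ a : B, x a * D a b) = ∑ a : B, f (x a) * f (D a b)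
    rw [map_sum]
    simp only [map_mul]

/-- Only the entries of the matrix on `B` matter. -/
theorem len_congr {D E : ι → ι → R} {B : Finset ι} (h : ∀ a ∈ B, ∀ b ∈ B, D a b = E a b) :
    (Acy D B ↔ Acy E B) ∧ Module.length R (Hm D B) = Module.length R (Hm E B) := by
  refine reidx id (fun _ => 1) (fun _ _ => isUnit_one) (fun a _ b _ hab => hab) (by simp) ?_
  intro a ha b hb
  simp [h a ha b hb]

end Cub
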