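import Pool.Agent.H33.CB.Split
import Pool.Agent.H33.CB.Reidx

/-!
# Module Filt (about 120 lines): filtration lemma, disjoint pieces, mapping cone

`acy_filt`: strong induction on the number of elements of `B` (or on the image `B.image f`): if `B` is not
empty let `k` be the largest value, `B₁ = {f < k}`, `B₂ = {f = k}`; `B₁` is closed; `acy_split`.

`acy_classes`: a complex which is the direct sum of complexes (arrows only inside the classes of an
equivalence relation given by a function `g`).  It is the special case of a filtration: choose an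
injection of the finite set of values `B.image g` into `ℤ` (`Fintype.equivFin`), or induct directly.

`cone_par`: `par_split` for `coneSet A B = A.disjSum B`: the closed part is `B` (`Sum.inr`), the open
part `A` (`Sum.inl`) with the matrix `-D`; the homology of `-D` is the one of `D`
(same kernel, same range).
-/

namespace Cub

variable {R : Type} [CommRing R] {ι κ : Type} [DecidableEq ι] [DecidableEq κ]

private theorem Filt_empty (D : ι → ι → R) : Acy D (∅ : Finset ι) := by
  intro x _
  refine ⟨x, ?_⟩
  funext b
  exact absurd b.2 (Finset.notMem_empty _)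

private theorem Filt_main {P : Type} [DecidableEq P] {D : ι → ι → R} (k : ι → P) (h : P → ℤ) :
    ∀ (n : ℕ) (B : Finset ι), B.card ≤ n → IsCx D B →
      (∀ a ∈ B, ∀ b ∈ B, D a b ≠ 0 → k b = k a ∨ h (k b) < h (k a)) →
      (∀ p, Acy D (B.filter (fun a => k a = p))) → Acy D B := by
  intro n
  induction n with
  | zero =>
    intro B hB _ _ _
    have : B = ∅ := Finset.card_eq_zero.1 (by omega)
    subst this
    exact Filt_empty D
  | succ n ih =>
    intro B hB hcx hk hp
    rcases B.eq_empty_or_nonempty with rfl | hne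
    · exact Filt_empty D
    obtain ⟨a0, ha0, hmax⟩ := B.exists_max_image (fun a => h (k a)) hne
    have hun : B.filter (fun a => k a ≠ k a0) ∪ B.filter (fun a => k a = k a0) = B := by
      ext a
      simp only [Finset.mem_union, Finset.mem_filter]
      tauto
    have hd : Disjoint (B.filter (fun a => k a ≠ k a0)) (B.filter (fun a => k a = k a0)) := by
      rw [Finset.disjoint_left]
      intro a h1 h2
      exact (Finset.mem_filter.1 h1).2 (Finset.mem_filter.1 h2).2
    have hz : ∀ a ∈ B.filter (fun a => k a ≠ k a0), ∀ b ∈ B.filter (fun a => k a = k a0),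
        D a b = 0 := by
      intro a ha b hb
      rw [Finset.mem_filter] at ha hb
      by_contra hab
      rcases hk a ha.1 b hb.1 hab with h1 | h1
      · exact ha.2 (h1.symm.trans hb.2)
      · rw [hb.2] at h1
        have h2 := hmax a ha.1
        have h3 : h (k a) ≤ h (k a0) := h2
        omega
    have hcx' : IsCx D (B.filter (fun a => k a ≠ k a0) ∪ B.filter (fun a => k a = k a0)) := by
      rw [hun]
      exact hcx
    have h1 : Acy D (B.filter (fun a => k a ≠ k a0)) := by
      apply ih
      · have h2 : B.filter (fun a => k a ≠ k a0) ⊂ B := by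
          rw [Finset.filter_ssubset]
          exact ⟨a0, ha0, by simp⟩
        have := Finset.card_lt_card h2
        omega
      · exact isCx_left hcx' hz hd
      · intro a ha b hb
        exact hk a (Finset.mem_filter.1 ha).1 b (Finset.mem_filter.1 hb).1
      · intro p
        by_cases hpk : p = k a0
        · have : (B.filter (fun a => k a ≠ k a0)).filter (fun a => k a = p) = ∅ := by
            rw [Finset.filter_filter, Finset.filter_eq_empty_iff]
            rintro a _ ⟨h2, h3⟩
            exact h2 (h3.trans hpk)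
          rw [this]
          exact Filt_empty D
        · have : (B.filter (fun a => k a ≠ k a0)).filter (fun a => k a = p) =
              B.filter (fun a => k a = p) := by
            rw [Finset.filter_filter]
            apply Finset.filter_congr
            intro a _
            constructor
            · exact fun h2 => h2.2
            · intro h2
              exact ⟨fun h3 => hpk (h2.symm.trans h3), h2⟩
          rw [this]
          exact hp p
    have h2 := (acy_split hcx' hz hd).1 h1 (hp (k a0))
    rwa [hun] at h2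

theorem acy_filt {D : ι → ι → R} {B : Finset ι} (hcx : IsCx D B) (f : ι → ℤ)
    (hf : ∀ a ∈ B, ∀ b ∈ B, D a b ≠ 0 → f b ≤ f a)
    (h : ∀ k, Acy D (B.filter (fun a => f a = k))) : Acy D B := by
  refine Filt_main f (fun z => z) B.card B le_rfl hcx ?_ h
  intro a ha b hb hab
  exact (hf a ha b hb hab).eq_or_lt

theorem acy_classes {τ : Type} [DecidableEq τ] {D : ι → ι → R} {B : Finset ι} (hcx : IsCx D B)
    (g : ι → τ) (hg : ∀ a ∈ B, ∀ b ∈ B, D a b ≠ 0 → g b = g a)
    (h : ∀ k, Acy D (B.filter (fun a => g a = k))) : Acy D B :=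
  Filt_main g (fun _ => 0) B.card B le_rfl hcx (fun a ha b hb hab => Or.inl (hg a ha b hb hab)) h

/-- Filtration by a map to a set `P` with a height function. -/
theorem acy_fil {P : Type} [DecidableEq P] {D : ι → ι → R} {B : Finset ι} (hcx : IsCx D B)
    (k : ι → P) (h : P → ℤ)
    (hk : ∀ a ∈ B, ∀ b ∈ B, D a b ≠ 0 → k b = k a ∨ h (k b) < h (k a))
    (hp : ∀ p, Acy D (B.filter (fun a => k a = p))) : Acy D B :=
  Filt_main k h B.card B le_rfl hcx hk hp

theorem isCx_cone {D : ι → ι → R} {E : κ → κ → R} {P : ι → κ → R} {A : Finset ι} {B : Finset κ}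
    (hD : IsCx D A) (hE : IsCx E B)
    (hP : ∀ a ∈ A, ∀ b ∈ B, ∑ a' ∈ A, D a a' * P a' b = ∑ b' ∈ B, P a b' * E b' b) :
    IsCx (cone D E P) (coneSet A B) := by
  intro x hx y hy
  unfold coneSet at hx hy ⊢
  rw [Finset.sum_disjSum]
  rcases x with a | a <;> rcases y with c | c
  · have ha := Finset.inl_mem_disjSum.1 hx
    have hc := Finset.inl_mem_disjSum.1 hy
    have h1 : ∑ b ∈ A, cone D E P (Sum.inl a) (Sum.inl b) * cone D E P (Sum.inl b) (Sum.inl c) =
        ∑ b ∈ A, D a b * D b c := by
      refine Finset.sum_congr rfl fun b _ => ?_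
      simp only [cone]
      ring
    have h2 : ∑ b ∈ B, cone D E P (Sum.inl a) (Sum.inr b) * cone D E P (Sum.inr b) (Sum.inl c) =
        0 := by
      refine Finset.sum_eq_zero fun b _ => ?_
      simp only [cone, mul_zero]
    rw [h1, h2, hD a ha c hc, add_zero]
  · have ha := Finset.inl_mem_disjSum.1 hx
    have hc := Finset.inr_mem_disjSum.1 hy
    have h1 : ∑ b ∈ A, cone D E P (Sum.inl a) (Sum.inl b) * cone D E P (Sum.inl b) (Sum.inr c) =
        - ∑ b ∈ A, D a b * P b c := by
      rw [← Finset.sum_neg_distrib]
      refine Finset.sum_congr rfl fun b _ => ?_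
      simp only [cone]
      ring
    have h2 : ∑ b ∈ B, cone D E P (Sum.inl a) (Sum.inr b) * cone D E P (Sum.inr b) (Sum.inr c) =
        ∑ b ∈ B, P a b * E b c := by
      refine Finset.sum_congr rfl fun b _ => ?_
      simp only [cone]
    rw [h1, h2, hP a ha c hc, neg_add_cancel]
  · have h1 : ∑ b ∈ A, cone D E P (Sum.inr a) (Sum.inl b) * cone D E P (Sum.inl b) (Sum.inl c) =
        0 := by
      refine Finset.sum_eq_zero fun b _ => ?_
      simp only [cone, zero_mul]
    have h2 : ∑ b ∈ B, cone D E P (Sum.inr a) (Sum.inr b) * cone D E P (Sum.inr b) (Sum.inl c) =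
        0 := by
      refine Finset.sum_eq_zero fun b _ => ?_
      simp only [cone, mul_zero]
    rw [h1, h2, add_zero]
  · have ha := Finset.inr_mem_disjSum.1 hx
    have hc := Finset.inr_mem_disjSum.1 hy
    have h1 : ∑ b ∈ A, cone D E P (Sum.inr a) (Sum.inl b) * cone D E P (Sum.inl b) (Sum.inr c) =
        0 := by
      refine Finset.sum_eq_zero fun b _ => ?_
      simp only [cone, zero_mul]
    have h2 : ∑ b ∈ B, cone D E P (Sum.inr a) (Sum.inr b) * cone D E P (Sum.inr b) (Sum.inr c) =
        ∑ b ∈ B, E a b * E b c := by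
      refine Finset.sum_congr rfl fun b _ => ?_
      simp only [cone]
    rw [h1, h2, hE a ha c hc, add_zero]

private theorem Filt_len_eq {M : Type} [AddCommGroup M] [Module R M] (K K' I I' : Submodule R M)
    (hK : K = K') (hI : I = I') : Module.length R (K ⧸ I.submoduleOf K) =
      Module.length R (K' ⧸ I'.submoduleOf K') := by
  subst hK
  subst hI
  rfl

private theorem Filt_neg (D : ι → ι → R) (A : Finset ι) :
    Module.length R (Hm (fun a b => - D a b) A) = Module.length R (Hm D A) := by
  have h : dB (fun a b => - D a b) A = - dB D A := by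
    refine LinearMap.ext fun x => funext fun b => ?_
    change ∑ a : A, x a * - D a b = - ∑ a : A, x a * D a b
    rw [← Finset.sum_neg_distrib]
    exact Finset.sum_congr rfl fun a _ => mul_neg _ _
  apply Filt_len_eq
  · rw [h]
    ext x
    rw [LinearMap.mem_ker, LinearMap.mem_ker, LinearMap.neg_apply, neg_eq_zero]
  · rw [h]
    exact LinearMap.range_neg _

theorem cone_par {D : ι → ι → R} {E : κ → κ → R} {P : ι → κ → R} {A : Finset ι} {B : Finset κ}
    (hD : IsCx D A) (hE : IsCx E B)
    (hP : ∀ a ∈ A, ∀ b ∈ B, ∑ a' ∈ A, D a a' * P a' b = ∑ b' ∈ B, P a b' * E b' b)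
    (hac : Acy (cone D E P) (coneSet A B)) : (FL D A ↔ FL E B) ∧ par D A = par E B := by
  have hcx := isCx_cone hD hE hP
  set B₁ : Finset (ι ⊕ κ) := B.image Sum.inr with hB₁
  set B₂ : Finset (ι ⊕ κ) := A.image Sum.inl with hB₂
  have hun : B₁ ∪ B₂ = coneSet A B := by
    ext x
    unfold coneSet
    rcases x with a | b
    · simp [hB₁, hB₂]
    · simp [hB₁, hB₂]
  have hd : Disjoint B₁ B₂ := by
    rw [Finset.disjoint_left]
    intro x h1 h2
    obtain ⟨b, -, rfl⟩ := Finset.mem_image.1 h1
    obtain ⟨a, -, h3⟩ := Finset.mem_image.1 h2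
    exact absurd h3 (by simp)
  have hz : ∀ x ∈ B₁, ∀ y ∈ B₂, cone D E P x y = 0 := by
    intro x h1 y h2
    obtain ⟨b, -, rfl⟩ := Finset.mem_image.1 h1
    obtain ⟨a, -, rfl⟩ := Finset.mem_image.1 h2
    rfl
  rw [← hun] at hcx hac
  have hs := par_split hcx hz hd
  have h1 : Module.length R (Hm E B) = Module.length R (Hm (cone D E P) B₁) :=
    (reidx (D := E) (E := cone D E P) (A := B) (B := B₁) Sum.inr (fun _ => 1)
      (fun _ _ => isUnit_one) (fun a _ b _ h => Sum.inr_injective h) rfl
      (fun a _ b _ => by simp only [cone, one_mul, mul_one])).2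
  have h2 : Module.length R (Hm (fun a b => - D a b) A) =
      Module.length R (Hm (cone D E P) B₂) :=
    (reidx (D := fun a b => - D a b) (E := cone D E P) (A := A) (B := B₂) Sum.inl (fun _ => 1)
      (fun _ _ => isUnit_one) (fun a _ b _ h => Sum.inl_injective h) rfl
      (fun a _ b _ => by simp only [cone, one_mul, mul_one])).2
  rw [Filt_neg] at h2
  have e1 : FL (cone D E P) B₁ ↔ FL E B := by
    unfold FL
    rw [h1]
  have e2 : FL (cone D E P) B₂ ↔ FL D A := by
    unfold FL
    rw [h2]
  have p1 : par (cone D E P) B₁ = par E B := by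
    unfold par
    rw [h1]
  have p2 : par (cone D E P) B₂ = par D A := by
    unfold par
    rw [h2]
  have hfl := fl_of_acy hac
  have hiff : FL D A ↔ FL E B := by
    rw [← e1, ← e2]
    exact ⟨fun h => hs.2.2.1 hfl h, fun h => hs.2.1 hfl h⟩
  refine ⟨hiff, ?_⟩
  by_cases hf : FL D A
  · have h3 := hs.2.2.2 (e1.2 (hiff.1 hf)) (e2.2 hf)
    rw [par_of_acy hac, p1, p2] at h3
    have h4 : ∀ x y : ZMod 2, 0 = x + y → y = x := by decide
    exact h4 _ _ h3
  · have hf' : ¬ FL E B := fun h => hf (hiff.2 h)
    unfold FL at hf hf'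
    rw [not_not] at hf hf'
    unfold par
    rw [hf, hf']

end Cub
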