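import Pool.Agent.H33.CB.Quot
import Pool.Agent.H33.CB.Filt

/-!
# Module Filq (about 150 lines): filtration lemma for antipodal pairs

Since `k a ≠ - k a` for `a ∈ A`, one can choose a section `B'` of `A` on which `k` picks one of
each pair `p, -p` of values: choose a function `ch : P → Bool`-like selector (`P` has decidable
equality; for the finitely many values in `A.image k` choose one of `p`, `-p`), `B' = {a ∈ A : k a` selected`}`.
By `sec_change` it suffices to treat `B'`.  `acy_fil` for `dq D` on `B'` with the same `k`, `h`: arrows of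
`dq D` from `a` to `b` are arrows of `D` from `a` to `b` or to `-b`; if `D a (-b) ≠ 0` then `k (-b) = k a`
is impossible (`k b`, `k a` are both selected, `k (-b) = - k b`), so `h (k b) = h (k (-b)) < h (k a)`.
The piece of `B'` with `k = p` (selected) is the piece of `A` with `k = p`; on it `dq D = D` (`D a (-b) = 0`
for `a`, `b` in it: otherwise `k (-b) = -p` equals `p` or has smaller height, but `h (-p) = h p`).
-/

namespace Cub

variable {R : Type} [CommRing R] {ι : Type} [DecidableEq ι] [InvolutiveNeg ι]

omit [DecidableEq ι] [InvolutiveNeg ι] in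
private theorem acy_congr_fq {D E : ι → ι → R} {C : Finset ι} (h : ∀ a ∈ C, ∀ b ∈ C, D a b = E a b)
    (hE : Acy E C) : Acy D C := by
  have hd : dB D C = dB E C := by
    apply LinearMap.ext
    intro x
    funext b
    change ∑ a : C, x a * D a b = ∑ a : C, x a * E a b
    exact Finset.sum_congr rfl (fun a _ => by rw [h a.1 a.2 b.1 b.2])
  intro x hx
  rw [hd] at hx ⊢
  exact hE x hx

theorem acy_filq {P : Type} [DecidableEq P] [InvolutiveNeg P] {D : ι → ι → R} {A B : Finset ι}
    (hA : Sym A) (hs : Sec A B) (hD : SymM D) (hcx : IsCx D A) (k : ι → P) (h : P → ℤ)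
    (hkn : ∀ a, k (-a) = - k a) (hhn : ∀ p, h (-p) = h p) (hne : ∀ a ∈ A, k a ≠ - k a)
    (hk : ∀ a ∈ A, ∀ b ∈ A, D a b ≠ 0 → k b = k a ∨ h (k b) < h (k a))
    (hp : ∀ p, Acy D (A.filter (fun a => k a = p))) : Acy (dq D) B := by
  classical
  let s : P → Prop := fun p => WellOrderingRel p (-p)
  have hs1 : ∀ p, s p → ¬ s (-p) := by
    intro p h1 h2
    have h3 : WellOrderingRel (-p) p := by
      have : WellOrderingRel (-p) (- -p) := h2
      rwa [neg_neg] at this
    exact asymm_of WellOrderingRel h1 h3
  have hs2 : ∀ p, p ≠ -p → s p ∨ s (-p) := by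
    intro p hne
    rcases trichotomous_of WellOrderingRel p (-p) with h1 | h1 | h1
    · exact Or.inl h1
    · exact absurd h1 hne
    · right
      change WellOrderingRel (-p) (- -p)
      rwa [neg_neg]
  let B' : Finset ι := A.filter (fun a => s (k a))
  have hB' : ∀ a, a ∈ B' ↔ a ∈ A ∧ s (k a) := fun a => Finset.mem_filter
  have hsec : Sec A B' :=
    { sub := Finset.filter_subset _ _
      one := by
        intro b hb hb2
        rw [hB'] at hb hb2
        rw [hkn] at hb2
        exact hs1 _ hb.2 hb2.2
      all := by
        intro a ha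
        rcases hs2 _ (hne a ha) with h1 | h1
        · exact Or.inl ((hB' a).mpr ⟨ha, h1⟩)
        · right
          rw [hB', hkn]
          exact ⟨hA a ha, h1⟩ }
  rw [(sec_change hA hs hsec hD).1]
  refine acy_fil (isCx_dq hA hsec hD hcx) k h ?_ ?_
  · intro a ha b hb hab
    rw [hB'] at ha hb
    by_cases h1 : D a b = 0
    · have h2 : D a (-b) ≠ 0 := by
        intro h2
        apply hab
        change D a b + D a (-b) = 0
        rw [h1, h2, add_zero]
      rcases hk a ha.1 (-b) (hA b hb.1) h2 with h3 | h3
      · exfalso
        rw [hkn] at h3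
        apply hs1 _ hb.2
        rw [h3]
        exact ha.2
      · right
        rwa [hkn, hhn] at h3
    · exact hk a ha.1 b hb.1 h1
  · intro p
    by_cases hsp : s p
    · have h1 : B'.filter (fun a => k a = p) = A.filter (fun a => k a = p) := by
        ext a
        simp only [Finset.mem_filter, hB']
        constructor
        · rintro ⟨⟨h1, -⟩, h2⟩
          exact ⟨h1, h2⟩
        · rintro ⟨h1, h2⟩
          exact ⟨⟨h1, by rw [h2]; exact hsp⟩, h2⟩
      rw [h1]
      refine acy_congr_fq ?_ (hp p)
      intro a ha b hb
      rw [Finset.mem_filter] at ha hb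
      have h2 : D a (-b) = 0 := by
        by_contra h2
        rcases hk a ha.1 (-b) (hA b hb.1) h2 with h3 | h3
        · rw [hkn, ha.2, hb.2] at h3
          apply hne a ha.1
          rw [ha.2, h3]
        · rw [hkn, hhn, ha.2, hb.2] at h3
          exact lt_irrefl _ h3
      change D a b + D a (-b) = D a b
      rw [h2, add_zero]
    · have h1 : B'.filter (fun a => k a = p) = ∅ := by
        apply Finset.filter_eq_empty_iff.mpr
        intro a ha h2
        rw [hB'] at ha
        exact hsp (h2 ▸ ha.2)
      rw [h1]
      intro x _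
      refine ⟨0, ?_⟩
      funext b
      exact absurd b.2 (Finset.notMem_empty _)

end Cub
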