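import Pool.Agent.H33.CB.MzCar
import Pool.Agent.H33.CB.Filq

/-!
# M3, step 1: local complexes

For a cell `v` and a set `T` of cells containing `v` in their closure (`Le v t` for `t ∈ T`), `up v T` is the set of half lattice cells
`v + t`, `t ∈ T` (their lower cell is `v`).  `LAcy ζ a v T`: the complex on `up v T` with the local system `a` (`sh v a`) is acyclic.
All statements below translate statements on `dcoef ζ (sh v a)` on `up v T`: `v + t` is odd in coordinate `i` iff `v i` is even and `t i ≠ v i`, and for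
`Le v t`, `Le v t'`: `v + t'` is a facet of `v + t` in direction `i` iff `t'` is a facet of `t` in direction `i`.

`lcx_of`: `∂ ∂ = 0`.  If `v + t → y → v + t''` are facets in directions `i ≠ j` then `y = v + t'` with `t'` between (a `y` with
`y i = 2 v i + 2 d` cannot have a face in `up v T`), `t' ∈ T` by convexity, and flatness of `a` on `T` applies.
-/

namespace Cub

variable {R : Type} [CommRing R]

/-- Shifted local system. -/
def sh (v : Cell) (a : Cell → Cell → ZMod 3) (y y' : Cell) : ZMod 3 := a (y - v) (y' - v)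

/-- The half lattice cells `v + t`. -/
def up (v : Cell) (T : Finset Cell) : Finset Cell := T.image (fun t => v + t)

/-- `∂ ∂ = 0` on the local complex. -/
def LCx (ζ : R) (a : Cell → Cell → ZMod 3) (v : Cell) (T : Finset Cell) : Prop :=
  IsCx (dcoef ζ (sh v a)) (up v T)

/-- The local complex is acyclic. -/
def LAcy (ζ : R) (a : Cell → Cell → ZMod 3) (v : Cell) (T : Finset Cell) : Prop :=
  Acy (dcoef ζ (sh v a)) (up v T)

variable {ζ : R} {a : Cell → Cell → ZMod 3} {v : Cell}

lemma mem_up {T : Finset Cell} {y : Cell} : y ∈ up v T ↔ y - v ∈ T := by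
  unfold up
  rw [Finset.mem_image]
  constructor
  · rintro ⟨t, ht, rfl⟩
    rwa [add_sub_cancel_left]
  · intro h
    exact ⟨y - v, h, by abel⟩

private lemma czLoc_e_self (i : Fin 4) : e i i = 1 := by simp [e]

private lemma czLoc_e_ne {i j : Fin 4} (h : j ≠ i) : e i j = 0 := by simp [e, h]

/-- Facets in the local complex are facets. -/
lemma fct_up {t t' : Cell} (ht : Le v t) (ht' : Le v t') {i : Fin 4} (h : Fct i (v + t) (v + t')) :
    v i % 2 = 0 ∧ Fct i t t' := by
  obtain ⟨h1, h2⟩ := h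
  have h3 : (v + t) i = v i + t i := rfl
  rw [h3] at h1
  have h4 := ht i
  refine ⟨by omega, by omega, ?_⟩
  rcases h2 with h2 | h2
  · left
    have : v + t' = v + (t + e i) := by rw [h2]; abel
    exact add_left_cancel this
  · right
    have : v + t' = v + (t - e i) := by rw [h2]; abel
    exact add_left_cancel this

private lemma czLoc_conv {T : Finset Cell} (hc : Conv T) (hv : ∀ t ∈ T, Le v t) :
    Conv (up v T) := by
  intro x hx z hz y hxy hyz
  rw [mem_up] at hx hz ⊢
  have hx' := hv _ hx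
  have hz' := hv _ hz
  refine hc _ hx _ hz _ ?_ ?_
  · intro i
    have h1 := hx' i
    have h2 := hz' i
    have h3 := hxy i
    have h4 := hyz i
    simp only [Pi.sub_apply] at h1 h2 ⊢
    omega
  · intro i
    have h1 := hx' i
    have h2 := hz' i
    have h3 := hxy i
    have h4 := hyz i
    simp only [Pi.sub_apply] at h1 h2 ⊢
    omega

private lemma czLoc_flat {T : Finset Cell} (hv : ∀ t ∈ T, Le v t)
    (hf : Flat a T) : Flat (sh v a) (up v T) := by
  intro c hc i j hij hi hj s t hs ht hd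
  rw [mem_up] at hc hd
  have h1 := hv _ hc i
  have h2 := hv _ hc j
  simp only [Pi.sub_apply] at h1 h2
  have e1 : c + s • e i - v = (c - v) + s • e i := by abel
  have e2 : c + t • e j - v = (c - v) + t • e j := by abel
  have e3 : c + s • e i + t • e j - v = (c - v) + s • e i + t • e j := by abel
  unfold sh
  rw [e1, e2, e3]
  rw [e3] at hd
  refine hf _ hc i j hij ?_ ?_ s t hs ht hd
  · simp only [Pi.sub_apply]; omega
  · simp only [Pi.sub_apply]; omega

theorem lcx_of (hζ : ζ ^ 3 = 1) {T : Finset Cell} (hc : Conv T) (hv : ∀ t ∈ T, Le v t)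
    (hf : Flat a T) : LCx ζ a v T :=
  isCx_dcoef hζ (czLoc_conv hc hv) (czLoc_flat hv hf)

lemma lacy_empty : LAcy ζ a v ∅ := by
  unfold LAcy
  have h : up v ∅ = ∅ := by simp [up]
  rw [h]
  intro x _
  exact ⟨x, funext fun b => absurd b.2 (Finset.notMem_empty _)⟩

private lemma czLoc_zero {t t' : Cell} (ht : Le v t) (ht' : Le v t')
    (h : ∀ i, ¬ Fct i t t') (b : Cell → Cell → ZMod 3) : dcoef ζ b (v + t) (v + t') = 0 := by
  by_contra hne
  obtain ⟨i, hi⟩ := fct_of_dcoef hne
  exact h i (fct_up ht ht' hi).2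

/-- From `acy_split`: `T₁` is a subcomplex, `T₂` the quotient. -/
theorem lacy_split {T T₁ T₂ : Finset Cell} (hd : Disjoint T₁ T₂) (hT : T₁ ∪ T₂ = T)
    (hv : ∀ t ∈ T, Le v t) (hcx : LCx ζ a v T)
    (h0 : ∀ t ∈ T₁, ∀ t' ∈ T₂, ∀ i, ¬ Fct i t t') (h1 : LAcy ζ a v T₁) (h2 : LAcy ζ a v T₂) :
    LAcy ζ a v T := by
  have hun : up v T₁ ∪ up v T₂ = up v T := by
    rw [← hT]
    unfold up
    rw [Finset.image_union]
  have hdis : Disjoint (up v T₁) (up v T₂) := by
    rw [Finset.disjoint_left]
    intro y hy1 hy2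
    rw [mem_up] at hy1 hy2
    exact Finset.disjoint_left.1 hd hy1 hy2
  unfold LCx at hcx
  unfold LAcy at h1 h2 ⊢
  rw [← hun] at hcx ⊢
  refine (acy_split hcx ?_ hdis).1 h1 h2
  intro y hy z hz
  rw [mem_up] at hy hz
  have hyT : y - v ∈ T := by rw [← hT]; exact Finset.mem_union_left _ hy
  have hzT : z - v ∈ T := by rw [← hT]; exact Finset.mem_union_right _ hz
  have e1 : y = v + (y - v) := by abel
  have e2 : z = v + (z - v) := by abel
  rw [e1, e2]
  exact czLoc_zero (hv _ hyT) (hv _ hzT) (h0 _ hy _ hz) _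

/-- From `acy_tog` (constant `-d`): `T` is invariant under the toggle `t i = v i ↔ t i = v i + d`. -/
theorem lacy_tog (hζ : ζ ^ 3 = 1) {T : Finset Cell} (hv : ∀ t ∈ T, Le v t) (hcx : LCx ζ a v T)
    (i : Fin 4) (hi : v i % 2 = 0) (d : ℤ) (hd : d = 1 ∨ d = -1)
    (h0 : ∀ t ∈ T, t i = v i → t + d • e i ∈ T)
    (h1 : ∀ t ∈ T, t i ≠ v i → t i = v i + d ∧ t - d • e i ∈ T) : LAcy ζ a v T := by
  have hu : IsUnit ζ := IsUnit.of_pow_eq_one hζ (by norm_num)
  refine acy_tog hcx (unitD_dcoef hu _ _) i (-d) (by omega) ?_ ?_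
  · intro c hc hodd
    rw [mem_up] at hc ⊢
    have h2 := hv _ hc i
    have h3 : (c - v) i = c i - v i := rfl
    rw [h3] at h2
    have h4 := (h1 _ hc (by rw [h3]; omega)).2
    have e1 : c + -d • e i - v = c - v - d • e i := by
      rw [neg_smul]; abel
    rw [e1]
    exact h4
  · intro c hc heven
    rw [mem_up] at hc ⊢
    have h2 := hv _ hc i
    have h3 : (c - v) i = c i - v i := rfl
    rw [h3] at h2
    have h4 := h0 _ hc (by rw [h3]; omega)
    have e1 : c - -d • e i - v = c - v + d • e i := by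
      rw [neg_smul]; abel
    rw [e1]
    exact h4

/-- Back to the complexes of the half lattice: on `up v T` the local systems `suba 2 a` and `sh v a` agree
(for a facet, `car 2 (v + t) = t ≠ t'`). -/
theorem acy_of_lacy {T : Finset Cell} (hv : ∀ t ∈ T, Le v t) (h : LAcy ζ a v T) :
    Acy (dcoef ζ (suba 2 a)) (up v T) := by
  refine (len_congr ?_).1.1 h
  intro y hy z hz
  rw [mem_up] at hy hz
  obtain ⟨t, rfl⟩ : ∃ t, y = v + t := ⟨y - v, by abel⟩
  obtain ⟨t', rfl⟩ : ∃ t', z = v + t' := ⟨z - v, by abel⟩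
  rw [add_sub_cancel_left] at hy hz
  by_cases hf : ∃ i, Fct i t t'
  · obtain ⟨i, hi⟩ := hf
    unfold dcoef suba sh
    rw [car_of_le (hv _ hy), car_of_le (hv _ hz), add_sub_cancel_left, add_sub_cancel_left,
      if_neg]
    rintro rfl
    obtain ⟨-, h3 | h3⟩ := hi
    · have := congrFun h3 i
      rw [Pi.add_apply, czLoc_e_self] at this
      omega
    · have := congrFun h3 i
      rw [Pi.sub_apply, czLoc_e_self] at this
      omega
  · rw [czLoc_zero (hv _ hy) (hv _ hz) (fun i hi => hf ⟨i, hi⟩),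
      czLoc_zero (hv _ hy) (hv _ hz) (fun i hi => hf ⟨i, hi⟩)]

/-- The cells of the box above `s` which are not in `F`. -/
noncomputable def upF (n : Fin 4 → ℕ) (F : Finset Cell) (s : Cell) : Finset Cell := by
  classical exact (Box n).filter (fun t => Le s t ∧ t ∉ F)

lemma mem_upF {n : Fin 4 → ℕ} {F : Finset Cell} {s t : Cell} :
    t ∈ upF n F s ↔ t ∈ Box n ∧ Le s t ∧ t ∉ F := by
  unfold upF
  simp only [Finset.mem_filter]

lemma conv_upF {n : Fin 4 → ℕ} {F : Finset Cell} (hF : IsComplex F) (s : Cell) :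
    Conv (upF n F s) := by
  intro x hx z hz y hxy hyz
  rw [mem_upF] at hx hz ⊢
  exact ⟨isComplex_box n z hz.1 y hyz, le_trans' hx.2.1 hxy, fun h => hx.2.2 (hF y h x hxy)⟩

/-- The fibre over `s` of the complex of M3. -/
lemma fib_eq_up {n : Fin 4 → ℕ} {F : Finset Cell} {s : Cell} (hs : s ∈ F) (hb : s ∈ Box n) :
    ((Box (fun i => 2 * n i)).filter (fun y => car 2 y ∉ F ∧ low y ∈ F)).filter
      (fun y => low y = s) = up s (upF n F s) := by
  ext y
  rw [mem_up, mem_upF, Finset.mem_filter, Finset.mem_filter, car_box (m := 2) (by norm_num)]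
  constructor
  · rintro ⟨⟨h1, h2, h3⟩, h4⟩
    have h5 : y - s = car 2 y := by
      rw [← h4]
      conv_lhs => rw [← low_add_car y]
      rw [low_add_car y]
      have := low_add_car y
      exact sub_eq_of_eq_add' this.symm
    rw [h5]
    refine ⟨h1, ?_, h2⟩
    rw [← h4]
    exact low_le_car y
  · rintro ⟨h1, h2, h3⟩
    have h4 : y = s + (y - s) := by abel
    have h5 : car 2 y = y - s := by
      rw [h4, car_of_le h2]
      abel
    have h6 : low y = s := by
      rw [h4, low_of_le h2]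
    rw [h5, h6]
    exact ⟨⟨h1, h3, hs⟩, rfl⟩

end Cub
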