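import Pool.Agent.H33.CB.CzLoc

/-!
# M3, step 2: the ring of eight cells around a cell `q`

The only place where `1 - ζ` is used.  `ringT q i j` = the cells `q + x e i + y e j`, `(x, y) ≠ (0, 0)`, `x, y ∈ {-1, 0, 1}`.

`ring_lacy` PROOF.  The four tops `c₊₊ c₊₋ c₋₋ c₋₊` (`c_xy = q + x e i + y e j`) and the four bottoms `q + x e i`, `q + y e j`.  In the local complex at `v` all arrows
which remove `e i` have the same sign `α = ± 1` and all arrows which remove `e j` have the same sign `β = ± 1`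
(`sgn` only depends on parities).  So a chain `x = (x_xy)` of tops has boundary zero iff for the bottom `q + e i`:
`β (x₊₊ ζ^{a(c₊₊, q + e i)} + x₊₋ ζ^{a(c₊₋, q + e i)}) = 0` and so on around the ring (four equations); hence
`x₊₋ = - ζ^{..} x₊₊`, ..., and after one turn `x₊₊ = ζ^{± mono a q i j} x₊₊` (four minus signs cancel), `(1 - ζ^{± mono}) x₊₊ = 0`, and
`1 - ζ`, `1 - ζ ^ 2 = (1 - ζ)(1 + ζ) = - (1 - ζ) ζ ^ 2` are units: `x = 0`.  In the same way every chain of bottoms is a boundary of a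
chain of tops (the same linear system with a right hand side: solve `x₊₋`, `x₋₋`, `x₋₊` in terms of `x₊₊` and then for `x₊₊`, or: a square matrix over a
commutative ring with determinant `± ζ^k (1 - ζ^{± mono})`).  A cycle of the whole complex: its top part is a cycle (zero), its bottom part is
a boundary.
-/

namespace Cub

variable {R : Type} [CommRing R]

private theorem czr_e_self (i : Fin 4) : e i i = 1 := by simp [e]

private theorem czr_e_ne {i j : Fin 4} (h : j ≠ i) : e i j = 0 := by simp [e, h]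

/-- The cell `q + x e i + y e j`. -/
private def czrC (q : Cell) (i j : Fin 4) (x y : ℤ) : Cell := q + x • e i + y • e j

private theorem czr_i {q : Cell} {i j : Fin 4} (hij : i ≠ j) (x y : ℤ) :
    czrC q i j x y i = q i + x := by
  simp [czrC, czr_e_self, czr_e_ne hij]

private theorem czr_j {q : Cell} {i j : Fin 4} (hij : i ≠ j) (x y : ℤ) :
    czrC q i j x y j = q j + y := by
  simp [czrC, czr_e_self, czr_e_ne hij.symm]

private theorem czr_k {q : Cell} {i j k : Fin 4} (hki : k ≠ i) (hkj : k ≠ j) (x y : ℤ) :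
    czrC q i j x y k = q k := by
  simp [czrC, czr_e_ne hki, czr_e_ne hkj]

private theorem czr_inj {q : Cell} {i j : Fin 4} (hij : i ≠ j) {x y x' y' : ℤ}
    (h : czrC q i j x y = czrC q i j x' y') : x = x' ∧ y = y' := by
  have h1 := congrFun h i
  have h2 := congrFun h j
  rw [czr_i hij, czr_i hij] at h1
  rw [czr_j hij, czr_j hij] at h2
  omega

private theorem czr_acy {ι : Type} [DecidableEq ι] {D : ι → ι → R} {B : Finset ι}
    (τ σ : Fin 4 → ι) (hτ : Function.Injective τ) (hσ : Function.Injective σ)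
    (hd : ∀ k l, τ k ≠ σ l) (hτB : ∀ k, τ k ∈ B) (hσB : ∀ k, σ k ∈ B)
    (hB : ∀ b ∈ B, (∃ k, b = τ k) ∨ ∃ k, b = σ k)
    (h1 : ∀ k, ∀ b ∈ B, D b (τ k) = 0) (h2 : ∀ k l, D (σ k) (σ l) = 0)
    (hdet : IsUnit (Matrix.of fun k l => D (τ k) (σ l)).det) : Acy D B := by
  classical
  let g : Fin 4 ⊕ Fin 4 → B := Sum.elim (fun k => ⟨τ k, hτB k⟩) (fun k => ⟨σ k, hσB k⟩)
  have hg : Function.Bijective g := by
    constructor
    · rintro (k | k) (l | l) h
      · exact congrArg Sum.inl (hτ (congrArg Subtype.val h))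
      · exact absurd (congrArg Subtype.val h) (hd k l)
      · exact absurd (congrArg Subtype.val h).symm (hd l k)
      · exact congrArg Sum.inr (hσ (congrArg Subtype.val h))
    · rintro ⟨b, hb⟩
      rcases hB b hb with ⟨k, rfl⟩ | ⟨k, rfl⟩
      · exact ⟨Sum.inl k, rfl⟩
      · exact ⟨Sum.inr k, rfl⟩
  let M : Matrix (Fin 4) (Fin 4) R := Matrix.of fun k l => D (τ k) (σ l)
  have hMu : IsUnit M.det := hdet
  have key : ∀ (z : B → R) (l : Fin 4),
      dB D B z ⟨σ l, hσB l⟩ = Matrix.vecMul (fun k => z ⟨τ k, hτB k⟩) M l := by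
    intro z l
    show ∑ a : B, z a * D a (σ l) = ∑ k, z ⟨τ k, hτB k⟩ * D (τ k) (σ l)
    rw [← (Equiv.ofBijective g hg).sum_comp, Fintype.sum_sum_type]
    simp [g, h2]
  have key0 : ∀ (z : B → R) (k : Fin 4), dB D B z ⟨τ k, hτB k⟩ = 0 := by
    intro z k
    show ∑ a : B, z a * D a (τ k) = 0
    exact Finset.sum_eq_zero fun a _ => by rw [h1 k a a.2, mul_zero]
  intro x hx
  have hxt : ∀ k, x ⟨τ k, hτB k⟩ = 0 := by
    have h3 : Matrix.vecMul (fun k => x ⟨τ k, hτB k⟩) M = 0 := by
      funext l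
      have := congrFun hx ⟨σ l, hσB l⟩
      rw [key] at this
      exact this
    have h4 : Matrix.vecMul (Matrix.vecMul (fun k => x ⟨τ k, hτB k⟩) M) M⁻¹ = 0 := by
      rw [h3, Matrix.zero_vecMul]
    rw [Matrix.vecMul_vecMul, Matrix.mul_nonsing_inv _ hMu, Matrix.vecMul_one] at h4
    intro k
    exact congrFun h4 k
  let w : Fin 4 → R := Matrix.vecMul (fun l => x ⟨σ l, hσB l⟩) M⁻¹
  let y : B → R := fun b => Sum.elim w (fun _ => 0) ((Equiv.ofBijective g hg).symm b)
  have hy : ∀ k, y ⟨τ k, hτB k⟩ = w k := by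
    intro k
    have : (Equiv.ofBijective g hg).symm ⟨τ k, hτB k⟩ = Sum.inl k := by
      rw [Equiv.symm_apply_eq]
      rfl
    show Sum.elim w (fun _ => 0) ((Equiv.ofBijective g hg).symm ⟨τ k, hτB k⟩) = w k
    rw [this]
    rfl
  refine ⟨y, ?_⟩
  funext ⟨b, hb⟩
  rcases hB b hb with ⟨k, rfl⟩ | ⟨l, rfl⟩
  · rw [key0, hxt]
  · rw [key]
    have h5 : (fun k => y ⟨τ k, hτB k⟩) = w := funext hy
    rw [h5]
    show Matrix.vecMul (Matrix.vecMul (fun l => x ⟨σ l, hσB l⟩) M⁻¹) M l = _
    rw [Matrix.vecMul_vecMul, Matrix.nonsing_inv_mul _ hMu, Matrix.vecMul_one]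

/-- A nonzero incidence number between two cells of the plane. -/
private theorem czr_ne {v q : Cell} {i j : Fin 4} (hij : i ≠ j) (hvi : v i = q i)
    (hvj : v j = q j) {x y x' y' : ℤ} (_hx : -1 ≤ x ∧ x ≤ 1)
    (hx' : -1 ≤ x' ∧ x' ≤ 1) (_hy : -1 ≤ y ∧ y ≤ 1) (hy' : -1 ≤ y' ∧ y' ≤ 1)
    (h : inc (v + czrC q i j x y) (v + czrC q i j x' y') ≠ 0) :
    (x ≠ 0 ∧ x' = 0 ∧ y' = y) ∨ (y ≠ 0 ∧ y' = 0 ∧ x' = x) := by
  obtain ⟨k, hk, hc⟩ := inc_ne.1 h
  have hci : ∀ w : Cell, v + czrC q i j x' y' = w →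
      v i + (q i + x') = w i ∧ v j + (q j + y') = w j := by
    rintro w rfl
    simp only [Pi.add_apply, czr_i hij, czr_j hij, and_self]
  by_cases hki : k = i
  · subst hki
    left
    simp only [Pi.add_apply, czr_i hij] at hk
    rcases hc with hc | hc
    · have := hci _ hc
      simp only [Pi.add_apply, czr_i hij, czr_j hij, czr_e_self, czr_e_ne hij.symm] at this
      omega
    · have := hci _ hc
      simp only [Pi.add_apply, Pi.sub_apply, czr_i hij, czr_j hij, czr_e_self,
        czr_e_ne hij.symm] at this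
      omega
  · by_cases hkj : k = j
    · subst hkj
      right
      simp only [Pi.add_apply, czr_j hij] at hk
      rcases hc with hc | hc
      · have := hci _ hc
        simp only [Pi.add_apply, czr_i hij, czr_j hij, czr_e_self, czr_e_ne hij] at this
        omega
      · have := hci _ hc
        simp only [Pi.add_apply, Pi.sub_apply, czr_i hij, czr_j hij, czr_e_self,
          czr_e_ne hij] at this
        omega
    · exfalso
      rcases hc with hc | hc
      · have := congrFun hc k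
        simp only [Pi.add_apply, czr_k hki hkj, czr_e_self] at this
        omega
      · have := congrFun hc k
        simp only [Pi.add_apply, Pi.sub_apply, czr_k hki hkj, czr_e_self] at this
        omega

private theorem czr_sgn_congr {l : Fin 4} {c c' : Cell}
    (h : ∀ k, k ≠ l → (c k % 2 = 1 ↔ c' k % 2 = 1)) : sgn l c = sgn l c' := by
  unfold sgn
  congr 2
  ext k
  simp only [Finset.mem_filter, Finset.mem_univ, true_and]
  constructor
  · rintro ⟨h1, h2⟩; exact ⟨h1, (h k h1.ne).1 h2⟩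
  · rintro ⟨h1, h2⟩; exact ⟨h1, (h k h1.ne).2 h2⟩

private theorem czr_odd {x : ℤ} (hx : x = 1 ∨ x = -1) (m : ℤ) : (m + (m + x)) % 2 = 1 := by
  omega

private theorem czr_sgn_i {v q : Cell} {i j : Fin 4} (hij : i ≠ j)
    (hvj : v j = q j) {x y : ℤ} (hy : y = 1 ∨ y = -1) :
    sgn i (v + czrC q i j x y) = sgn i (v + czrC q i j 1 1) := by
  refine czr_sgn_congr fun k hk => ?_
  by_cases hkj : k = j
  · subst hkj
    simp only [Pi.add_apply, czr_j hij, hvj]
    have h1 := czr_odd hy (q k)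
    have h2 := czr_odd (Or.inl rfl) (q k)
    simp [h1, h2]
  · simp only [Pi.add_apply, czr_k hk hkj]

private theorem czr_sgn_j {v q : Cell} {i j : Fin 4} (hij : i ≠ j)
    (hvi : v i = q i) {x y : ℤ} (hx : x = 1 ∨ x = -1) :
    sgn j (v + czrC q i j x y) = sgn j (v + czrC q i j 1 1) := by
  refine czr_sgn_congr fun k hk => ?_
  by_cases hki : k = i
  · subst hki
    simp only [Pi.add_apply, czr_i hij, hvi]
    have h1 := czr_odd hx (q k)
    have h2 := czr_odd (Or.inl rfl) (q k)
    simp [h1, h2]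
  · simp only [Pi.add_apply, czr_k hki hk]

/-- Removing `e i`. -/
private theorem czr_inc_i {v q : Cell} {i j : Fin 4} (hij : i ≠ j) (hvi : v i = q i)
    (hvj : v j = q j) {x y : ℤ} (hx : x = 1 ∨ x = -1) (hy : y = 1 ∨ y = -1) :
    inc (v + czrC q i j x y) (v + czrC q i j 0 y) = sgn i (v + czrC q i j 1 1) := by
  have h1 : (v + czrC q i j x y) i % 2 = 1 := by
    simp only [Pi.add_apply, czr_i hij, hvi]
    exact czr_odd hx _
  rw [← czr_sgn_i hij hvj (x := x) hy]
  rcases hx with rfl | rfl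
  · have : v + czrC q i j 0 y = v + czrC q i j 1 y - e i := by
      simp only [czrC, zero_smul, one_smul]; abel
    rw [this, inc_sub h1]
  · have : v + czrC q i j 0 y = v + czrC q i j (-1) y + e i := by
      simp only [czrC, zero_smul, neg_smul, one_smul]; abel
    rw [this, inc_add h1]

/-- Removing `e j`. -/
private theorem czr_inc_j {v q : Cell} {i j : Fin 4} (hij : i ≠ j) (hvi : v i = q i)
    (hvj : v j = q j) {x y : ℤ} (hx : x = 1 ∨ x = -1) (hy : y = 1 ∨ y = -1) :
    inc (v + czrC q i j x y) (v + czrC q i j x 0) = sgn j (v + czrC q i j 1 1) := by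
  have h1 : (v + czrC q i j x y) j % 2 = 1 := by
    simp only [Pi.add_apply, czr_j hij, hvj]
    exact czr_odd hy _
  rw [← czr_sgn_j hij hvi (y := y) hx]
  rcases hy with rfl | rfl
  · have : v + czrC q i j x 0 = v + czrC q i j x 1 - e j := by
      simp only [czrC, zero_smul, one_smul]; abel
    rw [this, inc_sub h1]
  · have : v + czrC q i j x 0 = v + czrC q i j x (-1) + e j := by
      simp only [czrC, zero_smul, neg_smul, one_smul]; abel
    rw [this, inc_add h1]

/-- The ring of eight cells around `q` in the plane of the coordinates `i`, `j`. -/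
def ringT (q : Cell) (i j : Fin 4) : Finset Cell :=
  {q + e i, q - e i, q + e j, q - e j, q + e i + e j, q + e i - e j, q - e i + e j, q - e i - e j}

private theorem czr_mem_ring {q : Cell} {i j : Fin 4} {t : Cell} : t ∈ ringT q i j ↔
    ∃ x y : ℤ, (-1 ≤ x ∧ x ≤ 1) ∧ (-1 ≤ y ∧ y ≤ 1) ∧ (x ≠ 0 ∨ y ≠ 0) ∧ t = czrC q i j x y := by
  constructor
  · intro h
    simp only [ringT, Finset.mem_insert, Finset.mem_singleton] at h
    rcases h with h | h | h | h | h | h | h | h
    · exact ⟨1, 0, by norm_num, by norm_num, by norm_num, by rw [h]; simp [czrC]⟩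
    · exact ⟨-1, 0, by norm_num, by norm_num, by norm_num, by rw [h]; simp [czrC, sub_eq_add_neg]⟩
    · exact ⟨0, 1, by norm_num, by norm_num, by norm_num, by rw [h]; simp [czrC]⟩
    · exact ⟨0, -1, by norm_num, by norm_num, by norm_num, by rw [h]; simp [czrC, sub_eq_add_neg]⟩
    · exact ⟨1, 1, by norm_num, by norm_num, by norm_num, by rw [h]; simp [czrC]⟩
    · exact ⟨1, -1, by norm_num, by norm_num, by norm_num, by rw [h]; simp [czrC, sub_eq_add_neg]⟩
    · exact ⟨-1, 1, by norm_num, by norm_num, by norm_num, by rw [h]; simp [czrC, sub_eq_add_neg]⟩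
    · exact ⟨-1, -1, by norm_num, by norm_num, by norm_num,
        by rw [h]; simp [czrC, sub_eq_add_neg]⟩
  · rintro ⟨x, y, hx, hy, hxy, rfl⟩
    have h1 : x = -1 ∨ x = 0 ∨ x = 1 := by omega
    have h2 : y = -1 ∨ y = 0 ∨ y = 1 := by omega
    rcases h1 with rfl | rfl | rfl <;> rcases h2 with rfl | rfl | rfl <;>
      simp [czrC, ringT, sub_eq_add_neg] at hxy ⊢

private theorem czr_sgn_sq (l : Fin 4) (c : Cell) : ((sgn l c : ℤ) : R) * ((sgn l c : ℤ) : R) = 1 := by
  rcases neg_one_pow_eq_or ℤ (Finset.univ.filter (fun j => j < l ∧ c j % 2 = 1)).card with h | h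
  · unfold sgn; rw [h]; simp
  · unfold sgn; rw [h]; simp

theorem ring_lacy {ζ : R} (hζ : ζ ^ 2 + ζ + 1 = 0) (hu : IsUnit (1 - ζ))
    {a : Cell → Cell → ZMod 3} {v q : Cell} (hvq : Le v q) {i j : Fin 4} (hij : i ≠ j)
    (hi : q i % 2 = 0) (hj : q j % 2 = 0) (hm : mono a q i j ≠ 0) : LAcy ζ a v (ringT q i j) := by
  have hvi : v i = q i := by
    have := hvq i
    omega
  have hvj : v j = q j := by
    have := hvq j
    omega
  have h3 : ζ ^ 3 = 1 := by linear_combination (ζ - 1) * hζ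
  let xt : Fin 4 → ℤ := ![1, 1, -1, -1]
  let yt : Fin 4 → ℤ := ![1, -1, -1, 1]
  let xb : Fin 4 → ℤ := ![1, 0, -1, 0]
  let yb : Fin 4 → ℤ := ![0, -1, 0, 1]
  have hxt : ∀ k, xt k = 1 ∨ xt k = -1 := by
    intro k; fin_cases k <;> simp [xt]
  have hyt : ∀ k, yt k = 1 ∨ yt k = -1 := by
    intro k; fin_cases k <;> simp [yt]
  have hxb : ∀ k, -1 ≤ xb k ∧ xb k ≤ 1 := by
    intro k; fin_cases k <;> simp [xb]
  have hyb : ∀ k, -1 ≤ yb k ∧ yb k ≤ 1 := by
    intro k; fin_cases k <;> simp [yb]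
  have hb0 : ∀ k, xb k = 0 ∨ yb k = 0 := by
    intro k; fin_cases k <;> simp [xb, yb]
  have hb1 : ∀ k, xb k ≠ 0 ∨ yb k ≠ 0 := by
    intro k; fin_cases k <;> simp [xb, yb]
  have hti : ∀ k l, xt k = xt l → yt k = yt l → k = l := by decide
  have hbi : ∀ k l, xb k = xb l → yb k = yb l → k = l := by decide
  have hmem : ∀ x y : ℤ, v + czrC q i j x y ∈ up v (ringT q i j) ↔
      czrC q i j x y ∈ ringT q i j := by
    intro x y
    rw [mem_up, add_sub_cancel_left]
  refine czr_acy (fun k => v + czrC q i j (xt k) (yt k)) (fun k => v + czrC q i j (xb k) (yb k))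
    ?_ ?_ ?_ ?_ ?_ ?_ ?_ ?_ ?_
  · intro k l h
    have := czr_inj hij (add_left_cancel h)
    exact hti k l this.1 this.2
  · intro k l h
    have := czr_inj hij (add_left_cancel h)
    exact hbi k l this.1 this.2
  · intro k l h
    have := czr_inj hij (add_left_cancel h)
    have h1 := hxt k
    have h2 := hyt k
    have h4 := hb0 l
    omega
  · intro k
    rw [hmem, czr_mem_ring]
    have h1 := hxt k
    have h2 := hyt k
    exact ⟨xt k, yt k, by omega, by omega, by omega, rfl⟩
  · intro k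
    rw [hmem, czr_mem_ring]
    exact ⟨xb k, yb k, hxb k, hyb k, hb1 k, rfl⟩
  · intro b hb
    rw [mem_up, czr_mem_ring] at hb
    obtain ⟨x, y, hx, hy, hxy, hb⟩ := hb
    have hb' : b = v + czrC q i j x y := by rw [← hb]; abel
    subst hb'
    have h1 : x = -1 ∨ x = 0 ∨ x = 1 := by omega
    have h2 : y = -1 ∨ y = 0 ∨ y = 1 := by omega
    rcases h1 with rfl | rfl | rfl <;> rcases h2 with rfl | rfl | rfl
    · exact Or.inl ⟨2, rfl⟩
    · exact Or.inr ⟨2, rfl⟩
    · exact Or.inl ⟨3, rfl⟩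
    · exact Or.inr ⟨1, rfl⟩
    · omega
    · exact Or.inr ⟨3, rfl⟩
    · exact Or.inl ⟨1, rfl⟩
    · exact Or.inr ⟨0, rfl⟩
    · exact Or.inl ⟨0, rfl⟩
  · intro k b hb
    rw [mem_up, czr_mem_ring] at hb
    obtain ⟨x, y, hx, hy, hxy, hb⟩ := hb
    have hb' : b = v + czrC q i j x y := by rw [← hb]; abel
    subst hb'
    have h1 := hxt k
    have h2 := hyt k
    by_contra hne
    have hne' : inc (v + czrC q i j x y) (v + czrC q i j (xt k) (yt k)) ≠ 0 := by
      intro h; apply hne; simp [dcoef, h]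
    have := czr_ne hij hvi hvj hx (by omega) hy (by omega) hne'
    omega
  · intro k l
    by_contra hne
    have hne' : inc (v + czrC q i j (xb k) (yb k)) (v + czrC q i j (xb l) (yb l)) ≠ 0 := by
      intro h; apply hne; simp [dcoef, h]
    have := czr_ne hij hvi hvj (hxb k) (hxb l) (hyb k) (hyb l) hne'
    have h4 := hb0 k
    have h5 := hb1 l
    omega
  · -- the determinant
    have hsh : ∀ t t' : Cell, sh v a (v + t) (v + t') = a t t' := by
      intro t t'
      simp [sh]
    have hzero : ∀ x y x' y' : ℤ, (-1 ≤ x ∧ x ≤ 1) → (-1 ≤ x' ∧ x' ≤ 1) → (-1 ≤ y ∧ y ≤ 1) →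
        (-1 ≤ y' ∧ y' ≤ 1) → ¬ ((x ≠ 0 ∧ x' = 0 ∧ y' = y) ∨ (y ≠ 0 ∧ y' = 0 ∧ x' = x)) →
        dcoef ζ (sh v a) (v + czrC q i j x y) (v + czrC q i j x' y') = 0 := by
      intro x y x' y' h1 h2 h4 h5 h6
      by_contra hne
      exact h6 (czr_ne hij hvi hvj h1 h2 h4 h5 (by
        intro h; apply hne; simp [dcoef, h]))
    have hI : ∀ x y : ℤ, (x = 1 ∨ x = -1) → (y = 1 ∨ y = -1) →
        dcoef ζ (sh v a) (v + czrC q i j x y) (v + czrC q i j 0 y) =
          ((sgn i (v + czrC q i j 1 1) : ℤ) : R) * zp ζ (a (czrC q i j x y) (czrC q i j 0 y)) := by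
      intro x y hx hy
      unfold dcoef
      rw [czr_inc_i hij hvi hvj hx hy, hsh]
    have hJ : ∀ x y : ℤ, (x = 1 ∨ x = -1) → (y = 1 ∨ y = -1) →
        dcoef ζ (sh v a) (v + czrC q i j x y) (v + czrC q i j x 0) =
          ((sgn j (v + czrC q i j 1 1) : ℤ) : R) * zp ζ (a (czrC q i j x y) (czrC q i j x 0)) := by
      intro x y hx hy
      unfold dcoef
      rw [czr_inc_j hij hvi hvj hx hy, hsh]
    have hα := czr_sgn_sq (R := R) i (v + czrC q i j 1 1)
    have hβ := czr_sgn_sq (R := R) j (v + czrC q i j 1 1)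
    generalize ((sgn i (v + czrC q i j 1 1) : ℤ) : R) = α at hI hα
    generalize ((sgn j (v + czrC q i j 1 1) : ℤ) : R) = β at hJ hβ
    have hM : (Matrix.of fun k l => dcoef ζ (sh v a) (v + czrC q i j (xt k) (yt k))
        (v + czrC q i j (xb l) (yb l))) =
        !![β * zp ζ (a (czrC q i j 1 1) (czrC q i j 1 0)), 0, 0,
            α * zp ζ (a (czrC q i j 1 1) (czrC q i j 0 1));
          β * zp ζ (a (czrC q i j 1 (-1)) (czrC q i j 1 0)),
            α * zp ζ (a (czrC q i j 1 (-1)) (czrC q i j 0 (-1))), 0, 0;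
          0, α * zp ζ (a (czrC q i j (-1) (-1)) (czrC q i j 0 (-1))),
            β * zp ζ (a (czrC q i j (-1) (-1)) (czrC q i j (-1) 0)), 0;
          0, 0, β * zp ζ (a (czrC q i j (-1) 1) (czrC q i j (-1) 0)),
            α * zp ζ (a (czrC q i j (-1) 1) (czrC q i j 0 1))] := by
      ext k l
      fin_cases k <;> fin_cases l
      · exact hJ 1 1 (by norm_num) (by norm_num)
      · exact hzero 1 1 0 (-1) (by norm_num) (by norm_num) (by norm_num) (by norm_num) (by norm_num)
      · exact hzero 1 1 (-1) 0 (by norm_num) (by norm_num) (by norm_num) (by norm_num) (by norm_num)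
      · exact hI 1 1 (by norm_num) (by norm_num)
      · exact hJ 1 (-1) (by norm_num) (by norm_num)
      · exact hI 1 (-1) (by norm_num) (by norm_num)
      · exact hzero 1 (-1) (-1) 0 (by norm_num) (by norm_num) (by norm_num) (by norm_num)
          (by norm_num)
      · exact hzero 1 (-1) 0 1 (by norm_num) (by norm_num) (by norm_num) (by norm_num)
          (by norm_num)
      · exact hzero (-1) (-1) 1 0 (by norm_num) (by norm_num) (by norm_num) (by norm_num)
          (by norm_num)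
      · exact hI (-1) (-1) (by norm_num) (by norm_num)
      · exact hJ (-1) (-1) (by norm_num) (by norm_num)
      · exact hzero (-1) (-1) 0 1 (by norm_num) (by norm_num) (by norm_num) (by norm_num)
          (by norm_num)
      · exact hzero (-1) 1 1 0 (by norm_num) (by norm_num) (by norm_num) (by norm_num)
          (by norm_num)
      · exact hzero (-1) 1 0 (-1) (by norm_num) (by norm_num) (by norm_num) (by norm_num)
          (by norm_num)
      · exact hJ (-1) 1 (by norm_num) (by norm_num)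
      · exact hI (-1) 1 (by norm_num) (by norm_num)
    rw [hM]
    have c1 : q + e i + e j = czrC q i j 1 1 := by simp [czrC]
    have c2 : q + e i - e j = czrC q i j 1 (-1) := by simp [czrC, sub_eq_add_neg]
    have c3 : q - e i - e j = czrC q i j (-1) (-1) := by simp [czrC, sub_eq_add_neg]
    have c4 : q - e i + e j = czrC q i j (-1) 1 := by simp [czrC, sub_eq_add_neg]
    have d1 : q + e i = czrC q i j 1 0 := by simp [czrC]
    have d2 : q - e j = czrC q i j 0 (-1) := by simp [czrC, sub_eq_add_neg]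
    have d3 : q - e i = czrC q i j (-1) 0 := by simp [czrC, sub_eq_add_neg]
    have d4 : q + e j = czrC q i j 0 1 := by simp [czrC]
    unfold mono at hm
    rw [c1, c2, c3, c4, d1, d2, d3, d4] at hm
    clear hM hI hJ hzero hsh hmem c1 c2 c3 c4 d1 d2 d3 d4
    generalize a (czrC q i j 1 1) (czrC q i j 1 0) = a1 at hm ⊢
    generalize a (czrC q i j 1 1) (czrC q i j 0 1) = a2 at hm ⊢
    generalize a (czrC q i j 1 (-1)) (czrC q i j 1 0) = a3 at hm ⊢
    generalize a (czrC q i j 1 (-1)) (czrC q i j 0 (-1)) = a4 at hm ⊢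
    generalize a (czrC q i j (-1) (-1)) (czrC q i j 0 (-1)) = a5 at hm ⊢
    generalize a (czrC q i j (-1) (-1)) (czrC q i j (-1) 0) = a6 at hm ⊢
    generalize a (czrC q i j (-1) 1) (czrC q i j (-1) 0) = a7 at hm ⊢
    generalize a (czrC q i j (-1) 1) (czrC q i j 0 1) = a8 at hm ⊢
    have hdet : (!![β * zp ζ a1, 0, 0, α * zp ζ a2; β * zp ζ a3, α * zp ζ a4, 0, 0;
        0, α * zp ζ a5, β * zp ζ a6, 0; 0, 0, β * zp ζ a7, α * zp ζ a8] :
        Matrix (Fin 4) (Fin 4) R).det =
        zp ζ a1 * zp ζ a4 * zp ζ a6 * zp ζ a8 - zp ζ a2 * zp ζ a3 * zp ζ a5 * zp ζ a7 := by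
      rw [Matrix.det_succ_row_zero]
      simp [Fin.sum_univ_succ, Matrix.det_fin_three, Matrix.submatrix, Fin.succAbove]
      linear_combination (zp ζ a1 * zp ζ a4 * zp ζ a6 * zp ζ a8
        - zp ζ a2 * zp ζ a3 * zp ζ a5 * zp ζ a7) * (α * α * hβ + hα)
    rw [hdet]
    have hz : ∀ k l : ZMod 3, zp ζ k * zp ζ l = zp ζ (k + l) := fun k l => (zp_add h3 k l).symm
    rw [hz, hz, hz, hz, hz, hz]
    have hS : a1 + a4 + a6 + a8 = (a2 + a3 + a5 + a7) +
        (a1 - a3 + (a4 - a5) + (a6 - a7) + (a8 - a2)) := by ring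
    rw [hS, ← hz]
    generalize a1 - a3 + (a4 - a5) + (a6 - a7) + (a8 - a2) = m at hm
    generalize a2 + a3 + a5 + a7 = b
    have hb : IsUnit (zp ζ b) := by
      unfold zp
      exact (IsUnit.of_mul_eq_one (ζ ^ 2) (by linear_combination h3)).pow _
    have e1 : zp ζ b * zp ζ m - zp ζ b = zp ζ b * (zp ζ m - 1) := by ring
    rw [e1]
    refine hb.mul ?_
    have hm2 : ∀ m' : ZMod 3, m' ≠ 0 → m' = 1 ∨ m' = 2 := by decide
    rcases hm2 m hm with rfl | rfl
    · have : zp ζ (1 : ZMod 3) - 1 = - (1 - ζ) := by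
        unfold zp
        have : (1 : ZMod 3).val = 1 := rfl
        rw [this]; ring
      rw [this]
      exact hu.neg
    · have : zp ζ (2 : ZMod 3) - 1 = (1 - ζ) * ζ ^ 2 := by
        unfold zp
        have : (2 : ZMod 3).val = 2 := rfl
        rw [this]
        linear_combination h3
      rw [this]
      refine hu.mul ?_
      exact (IsUnit.of_mul_eq_one ζ (by linear_combination h3))

/-- The monodromy does not change along a path of cells around which the local system is flat: `q k` even, `q' = q + s e k`.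
PROOF: for every top `t` of the ring around `q'` and bottom `b` below it the flat square with corners
`t, b, t - s e k, b - s e k` gives `a t b - a (t - s e k) (b - s e k) = a t (t - s e k) - a b (b - s e k)`; in the alternating sum of `mono` every top and every
bottom occurs once with each sign. -/
theorem mono_step {a : Cell → Cell → ZMod 3} {A : Finset Cell} (hf : Flat a A) {q : Cell}
    {i j k : Fin 4} (hij : i ≠ j) (hik : i ≠ k) (hjk : j ≠ k) (hi : q i % 2 = 0) (hj : q j % 2 = 0)
    (hk : q k % 2 = 0) (s : ℤ) (hs : s = 1 ∨ s = -1) (h : ringT q i j ⊆ A)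
    (h' : ringT (q + s • e k) i j ⊆ A) : mono a (q + s • e k) i j = mono a q i j := by
  have hodd_j : ∀ x y : ℤ, (y = 1 ∨ y = -1) → czrC (q + s • e k) i j x y j % 2 = 1 := by
    intro x y hy
    rw [czr_j hij]
    simp only [Pi.add_apply, Pi.smul_apply, czr_e_ne hjk, smul_zero]
    omega
  have hodd_i : ∀ x y : ℤ, (x = 1 ∨ x = -1) → czrC (q + s • e k) i j x y i % 2 = 1 := by
    intro x y hx
    rw [czr_i hij]
    simp only [Pi.add_apply, Pi.smul_apply, czr_e_ne hik, smul_zero]
    omega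
  have hodd_k : ∀ x y : ℤ, czrC (q + s • e k) i j x y k % 2 = 1 := by
    intro x y
    rw [czr_k hik.symm hjk.symm]
    simp only [Pi.add_apply, Pi.smul_apply, czr_e_self, smul_eq_mul, mul_one]
    omega
  have hs' : -s = 1 ∨ -s = -1 := by omega
  have EJ : ∀ x y : ℤ, (x = 1 ∨ x = -1) → (y = 1 ∨ y = -1) →
      a (czrC (q + s • e k) i j x y) (czrC (q + s • e k) i j x 0) +
        a (czrC (q + s • e k) i j x 0) (czrC q i j x 0) =
      a (czrC (q + s • e k) i j x y) (czrC q i j x y) +
        a (czrC q i j x y) (czrC q i j x 0) := by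
    intro x y hx hy
    have m1 : czrC (q + s • e k) i j x y + (-y) • e j = czrC (q + s • e k) i j x 0 := by
      simp only [czrC]; module
    have m2 : czrC (q + s • e k) i j x 0 + (-s) • e k = czrC q i j x 0 := by
      simp only [czrC]; module
    have m3 : czrC (q + s • e k) i j x y + (-s) • e k = czrC q i j x y := by
      simp only [czrC]; module
    have hA1 : czrC (q + s • e k) i j x y ∈ A :=
      h' (czr_mem_ring.2 ⟨x, y, by omega, by omega, by omega, rfl⟩)
    have hA2 : czrC q i j x 0 ∈ A :=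
      h (czr_mem_ring.2 ⟨x, 0, by omega, by omega, by omega, rfl⟩)
    have := hf _ hA1 j k hjk (hodd_j x y hy) (hodd_k x y) (-y) (-s) (by omega) hs'
      (by rw [m1, m2]; exact hA2)
    rw [m1, m2, m3] at this
    exact this
  have EI : ∀ x y : ℤ, (x = 1 ∨ x = -1) → (y = 1 ∨ y = -1) →
      a (czrC (q + s • e k) i j x y) (czrC (q + s • e k) i j 0 y) +
        a (czrC (q + s • e k) i j 0 y) (czrC q i j 0 y) =
      a (czrC (q + s • e k) i j x y) (czrC q i j x y) +
        a (czrC q i j x y) (czrC q i j 0 y) := by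
    intro x y hx hy
    have m1 : czrC (q + s • e k) i j x y + (-x) • e i = czrC (q + s • e k) i j 0 y := by
      simp only [czrC]; module
    have m2 : czrC (q + s • e k) i j 0 y + (-s) • e k = czrC q i j 0 y := by
      simp only [czrC]; module
    have m3 : czrC (q + s • e k) i j x y + (-s) • e k = czrC q i j x y := by
      simp only [czrC]; module
    have hA1 : czrC (q + s • e k) i j x y ∈ A :=
      h' (czr_mem_ring.2 ⟨x, y, by omega, by omega, by omega, rfl⟩)
    have hA2 : czrC q i j 0 y ∈ A :=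
      h (czr_mem_ring.2 ⟨0, y, by omega, by omega, by omega, rfl⟩)
    have := hf _ hA1 i k hik (hodd_i x y hx) (hodd_k x y) (-x) (-s) (by omega) hs'
      (by rw [m1, m2]; exact hA2)
    rw [m1, m2, m3] at this
    exact this
  have key : ∀ r : Cell, mono a r i j =
      (a (czrC r i j 1 1) (czrC r i j 1 0) - a (czrC r i j 1 (-1)) (czrC r i j 1 0)) +
      (a (czrC r i j 1 (-1)) (czrC r i j 0 (-1)) - a (czrC r i j (-1) (-1)) (czrC r i j 0 (-1))) +
      (a (czrC r i j (-1) (-1)) (czrC r i j (-1) 0) - a (czrC r i j (-1) 1) (czrC r i j (-1) 0)) +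
      (a (czrC r i j (-1) 1) (czrC r i j 0 1) - a (czrC r i j 1 1) (czrC r i j 0 1)) := by
    intro r
    have c1 : r + e i + e j = czrC r i j 1 1 := by simp [czrC]
    have c2 : r + e i - e j = czrC r i j 1 (-1) := by simp [czrC, sub_eq_add_neg]
    have c3 : r - e i - e j = czrC r i j (-1) (-1) := by simp [czrC, sub_eq_add_neg]
    have c4 : r - e i + e j = czrC r i j (-1) 1 := by simp [czrC, sub_eq_add_neg]
    have d1 : r + e i = czrC r i j 1 0 := by simp [czrC]
    have d2 : r - e j = czrC r i j 0 (-1) := by simp [czrC, sub_eq_add_neg]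
    have d3 : r - e i = czrC r i j (-1) 0 := by simp [czrC, sub_eq_add_neg]
    have d4 : r + e j = czrC r i j 0 1 := by simp [czrC]
    unfold mono
    rw [c1, c2, c3, c4, d1, d2, d3, d4]
  rw [key, key]
  have p1 : (1 : ℤ) = 1 ∨ (1 : ℤ) = -1 := Or.inl rfl
  have p2 : (-1 : ℤ) = 1 ∨ (-1 : ℤ) = -1 := Or.inr rfl
  linear_combination EJ 1 1 p1 p1 - EJ 1 (-1) p1 p2 + EI 1 (-1) p1 p2 - EI (-1) (-1) p2 p2
    + EJ (-1) (-1) p2 p2 - EJ (-1) 1 p2 p1 + EI (-1) 1 p2 p1 - EI 1 1 p1 p1

end Cub
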