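import Pool.Agent.H33.CB.CzEdge
import Pool.Agent.H33.CB.CzArc

/-!
# M3, step 6: interior vertices

`v ∈ F` a vertex not in `B`, its link is the cycle `l = a₀ :: l'`, `l' = [a₁, ..., a_{m-1}]`, `m ≥ 3`.  `T = upF n F v` (all 81 cells above `v` are in the box).
(1) `T₂ = {t ∈ T | Le (v + a₀) t} = upF n F (v + a₀)` is acyclic (`edge_lacy`; the edge `v + a₀` is in `F`, not in `bd n` since `v ∉ bd n`).  `T₁ = T \ T₂` is a subcomplex.
The cells of `F` above `v` and not above `v + a₀` are `v`, `v + x` (`x ∈ l'`), `v + x + y` (`x, y` successive in the LIST `l'`).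
(2) `d = -a₀`, `i` its axis: cells of `T₁` have `t i = v i` or `t i = v i + d i`.  `L = {t ∈ T₁ | t i ≠ v i ∧ t - d ∈ F}` (the cone of direction `d` over these cells
of `F`, minus `F`).  `L` is a subcomplex of `T₁` and `T₁ \ L` is invariant under the toggle in direction `i` (`lacy_tog`).
(3) `L` is acyclic.  If `d ∉ l'`: `L = arcL (v + d) l'`.  If `d ∈ l'`: `l' = l₁ ++ [x, d, y] ++ l₂` (`d` is not the first or the last element of `l'`, because these are neighbours
of `a₀` in the cycle), and `L` is the disjoint union of `arcH (v + d) l₁ x` and `arcH (v + d) l₂.reverse y`, without arrows between the two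
(`v + d + x`, `v + d + y`, `v + d` are in `F`; the 3-cell `v + d + u + w` (`u`, `w` successive in `l₁ ++ [x]`) has the faces `v + d + u`, `v + d + w`).
-/

namespace Cub

variable {R : Type} [CommRing R]


/-! ### lists -/

private def adjp (l : List Cell) : List (Cell × Cell) := l.zip l.tail

private lemma adjp_cons (a b : Cell) (l : List Cell) : adjp (a :: b :: l) = (a, b) :: adjp (b :: l) := rfl

private lemma adjp_append (A : List Cell) (d : Cell) (C : List Cell) (p : Cell × Cell) :
    p ∈ adjp (A ++ d :: C) ↔ p ∈ adjp (A ++ [d]) ∨ p ∈ adjp (d :: C) := by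
  induction A with
  | nil => simp [adjp]
  | cons a A ih =>
    cases A with
    | nil =>
      simp only [List.cons_append, List.nil_append, adjp_cons, List.mem_cons]
      simp [adjp]
    | cons b A =>
      simp only [List.cons_append, adjp_cons, List.mem_cons] at ih ⊢
      rw [ih, or_assoc]

private lemma adjp_reverse (l : List Cell) (u w : Cell) :
    (u, w) ∈ adjp l.reverse ↔ (w, u) ∈ adjp l := by
  induction l with
  | nil => simp [adjp]
  | cons a l ih =>
    cases l with
    | nil => simp [adjp]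
    | cons b l =>
      have h1 : (a :: b :: l).reverse = l.reverse ++ b :: [a] := by simp
      have h2 : (b :: l).reverse = l.reverse ++ [b] := by simp
      rw [h1, adjp_append, ← h2, ih, adjp_cons]
      simp only [adjp, List.tail_cons, List.zip_cons_cons, List.zip_nil_right, List.mem_cons,
        List.not_mem_nil, or_false, Prod.mk.injEq]
      constructor
      · rintro (h | ⟨rfl, rfl⟩)
        · exact Or.inr h
        · exact Or.inl ⟨rfl, rfl⟩
      · rintro (⟨rfl, rfl⟩ | h)
        · exact Or.inr ⟨rfl, rfl⟩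
        · exact Or.inl h

private lemma adjp_mem {l : List Cell} {p : Cell × Cell} (h : p ∈ adjp l) : p.1 ∈ l ∧ p.2 ∈ l := by
  have := List.of_mem_zip (show (p.1, p.2) ∈ l.zip l.tail from h)
  exact ⟨this.1, List.mem_of_mem_tail this.2⟩

/-- cyclic pairs -/
private def cyc (l : List Cell) : List (Cell × Cell) := l.zip (l.rotate 1)

private lemma cyc_cons (a : Cell) (l : List Cell) : cyc (a :: l) = adjp (a :: l ++ [a]) := by
  unfold cyc adjp
  have h1 : (a :: l).rotate 1 = l ++ [a] := by simp [List.rotate_cons_succ]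
  have h2 : (a :: l ++ [a]).tail = l ++ [a] := rfl
  rw [h1, h2]
  have h3 := List.zip_append (l₁ := a :: l) (r₁ := [a]) (l₂ := l ++ [a]) (r₂ := []) (by simp)
  rw [List.append_nil] at h3
  rw [h3]
  simp

private lemma cyc_iff (a b z : Cell) (l : List Cell) (M : List Cell) (hM : b :: l = M ++ [z])
    (p : Cell × Cell) :
    p ∈ cyc (a :: b :: l) ↔ p = (a, b) ∨ p ∈ adjp (b :: l) ∨ p = (z, a) := by
  rw [cyc_cons, List.cons_append, List.cons_append, adjp_cons, List.mem_cons]
  have : b :: (l ++ [a]) = M ++ z :: [a] := by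
    rw [← List.cons_append, hM]; simp
  rw [this, adjp_append, ← hM]
  simp [adjp]

private lemma nodup_rot {l : List Cell} (h : l.Nodup) {x u w : Cell} (h1 : (x, u) ∈ cyc l)
    (h2 : (x, w) ∈ cyc l) : u = w := by
  obtain ⟨i, hi, hi'⟩ := List.mem_iff_getElem.1 h1
  obtain ⟨j, hj, hj'⟩ := List.mem_iff_getElem.1 h2
  unfold cyc at hi hj hi' hj'
  rw [List.getElem_zip] at hi' hj'
  simp only [Prod.mk.injEq] at hi' hj'
  rw [List.length_zip] at hi hj
  have : i = j := by
    have := (h.getElem_inj_iff (hi := by omega) (hj := by omega)).1 (hi'.1.trans hj'.1.symm)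
    exact this
  subst this
  rw [← hi'.2, ← hj'.2]

private lemma nodup_rot' {l : List Cell} (h : l.Nodup) {x u w : Cell} (h1 : (u, x) ∈ cyc l)
    (h2 : (w, x) ∈ cyc l) : u = w := by
  obtain ⟨i, hi, hi'⟩ := List.mem_iff_getElem.1 h1
  obtain ⟨j, hj, hj'⟩ := List.mem_iff_getElem.1 h2
  unfold cyc at hi hj hi' hj'
  rw [List.getElem_zip] at hi' hj'
  simp only [Prod.mk.injEq] at hi' hj'
  rw [List.length_zip] at hi hj
  have h' : (l.rotate 1).Nodup := List.nodup_rotate.2 h
  have : i = j := by
    have := (h'.getElem_inj_iff (hi := by omega) (hj := by omega)).1 (hi'.2.trans hj'.2.symm)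
    exact this
  subst this
  rw [← hi'.1, ← hj'.1]

private lemma cyc_ne {l : List Cell} (h : l.Nodup) (hl : 2 ≤ l.length) {p : Cell × Cell}
    (hp : p ∈ cyc l) : p.1 ≠ p.2 := by
  obtain ⟨i, hi, rfl⟩ := List.mem_iff_getElem.1 hp
  unfold cyc at hi ⊢
  rw [List.length_zip, List.length_rotate] at hi
  rw [List.getElem_zip]
  simp only
  rw [List.getElem_rotate]
  intro he
  have := (h.getElem_inj_iff (hi := by omega) (hj := by
    exact Nat.mod_lt _ (by omega))).1 he
  have hi2 : i < l.length := by omega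
  by_cases h1 : i + 1 < l.length
  · rw [Nat.mod_eq_of_lt h1] at this; omega
  · have : i + 1 = l.length := by omega
    simp [this] at *
    omega

private lemma cyc_mem {l : List Cell} {p : Cell × Cell} (hp : p ∈ cyc l) : p.1 ∈ l ∧ p.2 ∈ l := by
  have := List.of_mem_zip (show (p.1, p.2) ∈ l.zip (l.rotate 1) from hp)
  exact ⟨this.1, List.mem_rotate.1 this.2⟩


/-! ### directions -/

private lemma e_ap (i j : Fin 4) : e i j = if j = i then 1 else 0 := by
  unfold e
  by_cases h : j = i
  · subst h; simp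
  · rw [Pi.single_eq_of_ne h, if_neg h]

private lemma dir_ap {z : Cell} (h : IsDir z) (i : Fin 4) :
    z i = 0 ∨ ((z i = 1 ∨ z i = -1) ∧ ∀ j, j ≠ i → z j = 0) := by
  obtain ⟨k, x, hx, rfl⟩ := dir_cases h
  by_cases hk : i = k
  · subst hk
    right
    refine ⟨?_, fun j hj => ?_⟩
    · simp only [Pi.smul_apply, e_ap, if_true, smul_eq_mul, mul_one]; exact hx
    · simp [e_ap, hj]
  · left; simp [e_ap, hk]

private lemma dir_val {z : Cell} (h : IsDir z) (i : Fin 4) : z i = 0 ∨ z i = 1 ∨ z i = -1 := by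
  rcases dir_ap h i with h | h
  · exact Or.inl h
  · exact Or.inr h.1

private lemma dir_axis {z : Cell} (h : IsDir z) : ∃ i, (z i = 1 ∨ z i = -1) ∧ ∀ j, j ≠ i → z j = 0 := by
  obtain ⟨k, x, hx, rfl⟩ := dir_cases h
  refine ⟨k, ?_, fun j hj => ?_⟩
  · simp only [Pi.smul_apply, e_ap, if_true, smul_eq_mul, mul_one]; exact hx
  · simp [e_ap, hj]

private lemma dir_neg {z : Cell} (h : IsDir z) : IsDir (-z) := by
  obtain ⟨i, h | h⟩ := h
  · refine ⟨i, Or.inr ?_⟩; rw [h, ← Pi.single_neg]
  · refine ⟨i, Or.inl ?_⟩; rw [h, ← Pi.single_neg]; simp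

/-- two directions which agree at a nonzero coordinate are equal -/
private lemma dir_eq {z w : Cell} (hz : IsDir z) (hw : IsDir w) {i : Fin 4} (h0 : z i ≠ 0)
    (h : z i = w i) : z = w := by
  rcases dir_ap hz i with h1 | h1
  · exact absurd h1 h0
  rcases dir_ap hw i with h2 | h2
  · rw [h2] at h; exact absurd h h0
  funext j
  by_cases hj : j = i
  · subst hj; exact h
  · rw [h1.2 j hj, h2.2 j hj]

private def Perp (x y : Cell) : Prop := ∀ i, x i = 0 ∨ y i = 0

private lemma perp_of {x y : Cell} (hx : IsDir x) (hy : IsDir y) (h1 : x ≠ y) (h2 : y ≠ -x) :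
    Perp x y := by
  intro i
  by_contra hc
  push Not at hc
  rcases dir_val hx i with a | a | a <;> rcases dir_val hy i with b | b | b
  all_goals first
    | exact hc.1 a
    | exact hc.2 b
    | exact h1 (dir_eq hx hy hc.1 (a.trans b.symm))
    | (apply h2; exact dir_eq hy (dir_neg hx) hc.2 (by rw [Pi.neg_apply, a, b]; try rfl))

private lemma perp_symm {x y : Cell} (h : Perp x y) : Perp y x := fun i => (h i).symm

private lemma perp_neg {x y : Cell} (h : Perp x y) : Perp (-x) y := fun i => by
  rcases h i with h | h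
  · left; simp [h]
  · exact Or.inr h

private lemma perp_ne {x y : Cell} (hx : IsDir x) (h : Perp x y) : x ≠ y ∧ y ≠ -x := by
  obtain ⟨i, hi, _⟩ := dir_axis hx
  constructor
  · rintro rfl
    rcases h i with h | h <;> omega
  · intro he
    rcases h i with h | h
    · omega
    · rw [he, Pi.neg_apply] at h; omega

/-- uniqueness of sums of two perpendicular directions -/
private lemma sum_eq {x y z w : Cell} (hx : IsDir x) (hz : IsDir z) (hw : IsDir w)
    (hxy : Perp x y) (hzw : Perp z w) (h : x + y = z + w) :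
    (x = z ∧ y = w) ∨ (x = w ∧ y = z) := by
  obtain ⟨i, hi, _⟩ := dir_axis hx
  have hi' := congrFun h i
  simp only [Pi.add_apply] at hi'
  have hyi : y i = 0 := by rcases hxy i with h | h
                           · omega
                           · exact h
  rcases hzw i with h1 | h1
  · right
    have : x = w := dir_eq hx hw (i := i) (by omega) (by omega)
    refine ⟨this, ?_⟩
    subst this
    have := add_right_cancel (h.symm.trans (add_comm x y))
    exact this.symm
  · left
    have : x = z := dir_eq hx hz (i := i) (by omega) (by omega)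
    refine ⟨this, ?_⟩
    subst this
    exact add_left_cancel h

private lemma even_of_dim {v : Cell} (hv : dim v = 0) (i : Fin 4) : v i % 2 = 0 := by
  by_contra h
  unfold dim at hv
  rw [Finset.card_eq_zero, Finset.filter_eq_empty_iff] at hv
  have := hv (Finset.mem_univ i)
  omega

private lemma le_iff {v t : Cell} (hv : dim v = 0) :
    Le v t ↔ ∀ i, t i = v i ∨ t i = v i + 1 ∨ t i = v i - 1 := by
  constructor
  · intro h i
    rcases h i with h | h <;> omega
  · intro h i
    have := even_of_dim hv i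
    rcases h i with h | h | h
    · left; exact h.symm
    · right; constructor <;> omega
    · right; constructor <;> omega

private lemma le_dir {v x : Cell} (hv : dim v = 0) (hx : IsDir x) : Le v (v + x) := by
  rw [le_iff hv]
  intro i
  rcases dir_val hx i with h | h | h <;> simp only [Pi.add_apply] <;> omega

private lemma le_dir2 {v x y : Cell} (hv : dim v = 0) (hx : IsDir x) (hy : IsDir y)
    (hxy : Perp x y) : Le v (v + x + y) := by
  rw [le_iff hv]
  intro i
  rcases hxy i with h0 | h0
  · rcases dir_val hy i with h | h | h <;> simp only [Pi.add_apply] <;> omega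
  · rcases dir_val hx i with h | h | h <;> simp only [Pi.add_apply] <;> omega

/-- `v + x ≤ t` for `v ≤ t` in terms of one coordinate -/
private lemma le_add_dir {v t x : Cell} (hv : dim v = 0) (hx : IsDir x) {i : Fin 4}
    (hi : x i = 1 ∨ x i = -1) (hle : Le v t) : Le (v + x) t ↔ t i = v i + x i := by
  have hv' := fun j => even_of_dim hv j
  constructor
  · intro h
    have h1 := h i
    have h2 := hv' i
    simp only [Pi.add_apply] at h1
    omega
  · intro h j
    by_cases hj : j = i
    · subst hj; left; simp only [Pi.add_apply]; omega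
    · have : x j = 0 := by
        rcases dir_ap hx i with h1 | h1
        · omega
        · exact h1.2 j hj
      simp only [Pi.add_apply, this, add_zero]
      exact hle j

private lemma dim_add {v x : Cell} (hv : dim v = 0) (hx : IsDir x) : dim (v + x) = 1 := by
  obtain ⟨i, hi, hi'⟩ := dir_axis hx
  unfold dim
  rw [Finset.card_eq_one]
  refine ⟨i, ?_⟩
  ext j
  simp only [Finset.mem_filter, Finset.mem_univ, true_and, Finset.mem_singleton, Pi.add_apply]
  have := even_of_dim hv j
  constructor
  · intro h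
    by_contra hj
    rw [hi' j hj] at h; omega
  · rintro rfl; omega


/-! ### the link -/

private lemma link1 {F : Finset Cell} {v : Cell} {l : List Cell} (hv : dim v = 0)
    (hl : LinkCycle F v l) {x : Cell} (hx : IsDir x) : v + x ∈ F ↔ x ∈ l := by
  obtain ⟨hlen, hnd, hdir, hadj, hF⟩ := hl
  have hpp : ∀ p ∈ l.zip (l.rotate 1), Perp p.1 p.2 ∧ IsDir p.1 ∧ IsDir p.2 := by
    intro p hp
    have hm := cyc_mem hp
    exact ⟨perp_of (hdir _ hm.1) (hdir _ hm.2) (cyc_ne hnd (by omega) hp) (hadj p hp),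
      hdir _ hm.1, hdir _ hm.2⟩
  constructor
  · intro h
    rcases (hF (v + x)).1 ⟨h, le_dir hv hx⟩ with h1 | ⟨d, hd, h1⟩ | ⟨p, hp, h1⟩
    · exfalso
      obtain ⟨i, hi, _⟩ := dir_axis hx
      have := congrFun h1 i
      simp only [Pi.add_apply] at this
      omega
    · have : x = d := add_left_cancel h1
      rw [this]; exact hd
    · exfalso
      obtain ⟨hq, hq1, hq2⟩ := hpp p hp
      rw [add_assoc] at h1
      have h2 : x = p.1 + p.2 := add_left_cancel h1
      obtain ⟨i, hi, _⟩ := dir_axis hq1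
      have h3 := congrFun h2 i
      simp only [Pi.add_apply] at h3
      have h4 : p.2 i = 0 := by
        rcases hq i with h | h
        · omega
        · exact h
      have h5 : x = p.1 := dir_eq hx hq1 (i := i) (by omega) (by omega)
      obtain ⟨j, hj, _⟩ := dir_axis hq2
      have h6 := congrFun h2 j
      rw [h5] at h6
      simp only [Pi.add_apply] at h6
      omega
  · intro h
    exact ((hF (v + x)).2 (Or.inr (Or.inl ⟨x, h, rfl⟩))).1

private lemma link2 {F : Finset Cell} {v : Cell} {l : List Cell} (hv : dim v = 0)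
    (hl : LinkCycle F v l) {x y : Cell} (hx : IsDir x) (hy : IsDir y) (hxy : Perp x y) :
    v + x + y ∈ F ↔ (x, y) ∈ cyc l ∨ (y, x) ∈ cyc l := by
  obtain ⟨hlen, hnd, hdir, hadj, hF⟩ := hl
  have hpp : ∀ p ∈ l.zip (l.rotate 1), Perp p.1 p.2 ∧ IsDir p.1 ∧ IsDir p.2 := by
    intro p hp
    have hm := cyc_mem hp
    exact ⟨perp_of (hdir _ hm.1) (hdir _ hm.2) (cyc_ne hnd (by omega) hp) (hadj p hp),
      hdir _ hm.1, hdir _ hm.2⟩
  constructor
  · intro h
    rcases (hF (v + x + y)).1 ⟨h, le_dir2 hv hx hy hxy⟩ with h1 | ⟨d, hd, h1⟩ | ⟨p, hp, h1⟩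
    · exfalso
      obtain ⟨i, hi, _⟩ := dir_axis hx
      have := congrFun h1 i
      simp only [Pi.add_apply] at this
      rcases hxy i with h | h <;> omega
    · exfalso
      rw [add_assoc] at h1
      have h2 : x + y = d := add_left_cancel h1
      obtain ⟨i, hi, _⟩ := dir_axis hx
      obtain ⟨j, hj, _⟩ := dir_axis hy
      have h3 := congrFun h2 i
      have h4 := congrFun h2 j
      simp only [Pi.add_apply] at h3 h4
      have h5 : y i = 0 := by
        rcases hxy i with h | h
        · omega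
        · exact h
      have h6 : x j = 0 := by
        rcases hxy j with h | h
        · exact h
        · omega
      have hij : j ≠ i := by rintro rfl; omega
      rcases dir_ap (hdir d hd) i with h7 | h7
      · omega
      · have := h7.2 j hij; omega
    · obtain ⟨hq, hq1, hq2⟩ := hpp p hp
      rw [add_assoc, add_assoc] at h1
      have h2 : x + y = p.1 + p.2 := add_left_cancel h1
      rcases sum_eq hx hq1 hq2 hxy hq h2 with ⟨h3, h4⟩ | ⟨h3, h4⟩
      · left
        rw [h3, h4]; exact hp
      · right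
        rw [h3, h4]; exact hp
  · intro h
    rcases h with h | h
    · exact ((hF (v + x + y)).2 (Or.inr (Or.inr ⟨(x, y), h, rfl⟩))).1
    · exact ((hF (v + x + y)).2 (Or.inr (Or.inr ⟨(y, x), h, by
        simp only; rw [add_assoc, add_comm x y, add_assoc]⟩))).1

private lemma three_F {F B : Finset Cell} (h : IsSurface F B) {v x y z : Cell} (hv : dim v = 0)
    (hx : IsDir x) (hy : IsDir y) (hz : IsDir z) (hxy : Perp x y) (hxz : Perp x z)
    (hyz : Perp y z) : v + x + y + z ∉ F := by
  intro hF
  have h2 := dim_le_two h hF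
  obtain ⟨i, hi, _⟩ := dir_axis hx
  obtain ⟨j, hj, _⟩ := dir_axis hy
  obtain ⟨k, hk, _⟩ := dir_axis hz
  have hyi : y i = 0 := by rcases hxy i with h | h <;> omega
  have hzi : z i = 0 := by rcases hxz i with h | h <;> omega
  have hxj : x j = 0 := by rcases hxy j with h | h <;> omega
  have hzj : z j = 0 := by rcases hyz j with h | h <;> omega
  have hxk : x k = 0 := by rcases hxz k with h | h <;> omega
  have hyk : y k = 0 := by rcases hyz k with h | h <;> omega
  have hij : i ≠ j := by rintro rfl; omega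
  have hik : i ≠ k := by rintro rfl; omega
  have hjk : j ≠ k := by rintro rfl; omega
  have hsub : ({i, j, k} : Finset (Fin 4)) ⊆
      Finset.univ.filter (fun l => (v + x + y + z) l % 2 = 1) := by
    intro l hl
    simp only [Finset.mem_insert, Finset.mem_singleton] at hl
    simp only [Finset.mem_filter, Finset.mem_univ, true_and, Pi.add_apply]
    have := even_of_dim hv l
    rcases hl with rfl | rfl | rfl <;> omega
  have := Finset.card_le_card hsub
  rw [Finset.card_eq_three.2 ⟨i, j, k, hij, hik, hjk, rfl⟩] at this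
  unfold dim at h2
  omega

/-- description of the cone over the part of `F` away from `a₀` -/
private lemma T_char {n : Fin 4 → ℕ} {F B : Finset Cell} (h : GoodDisc n F B)
    {v a₀ b z : Cell} {l'' M : List Cell} (hv : v ∈ inn n) (hd : dim v = 0)
    (hl : LinkCycle F v (a₀ :: b :: l'')) (hM : b :: l'' = M ++ [z]) (T : Finset Cell)
    (hT : ∀ t, t ∈ T ↔ t ∈ upF n F v ∧ Le (v - a₀) t ∧ t + a₀ ∈ F) (t : Cell) :
    t ∈ T ↔ t ∉ F ∧ (t = v + -a₀ ∨ (∃ x ∈ b :: l'', x ≠ -a₀ ∧ t = v + -a₀ + x) ∨
      ∃ p ∈ adjp (b :: l''), p.1 ≠ -a₀ ∧ p.2 ≠ -a₀ ∧ t = v + -a₀ + p.1 + p.2) := by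
  have hl' := hl
  obtain ⟨hlen, hnd, hdir, hadj, hF⟩ := hl'
  have ha0 : IsDir a₀ := hdir a₀ (by simp)
  have hna0 := dir_neg ha0
  obtain ⟨i, hi, hi'⟩ := dir_axis ha0
  have hpp : ∀ p ∈ cyc (a₀ :: b :: l''), Perp p.1 p.2 ∧ IsDir p.1 ∧ IsDir p.2 := by
    intro p hp
    have hm := cyc_mem hp
    exact ⟨perp_of (hdir _ hm.1) (hdir _ hm.2) (cyc_ne hnd (by omega) hp) (hadj p hp),
      hdir _ hm.1, hdir _ hm.2⟩
  have hvF : v ∈ F := ((hF v).2 (Or.inl rfl)).1
  have hnm : a₀ ∉ b :: l'' := (List.nodup_cons.1 hnd).1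
  have hperp : ∀ x ∈ b :: l'', x ≠ -a₀ → Perp (-a₀) x := by
    intro x hx hx'
    refine perp_neg (perp_of ha0 (hdir x (List.mem_cons_of_mem _ hx)) ?_ hx')
    rintro rfl; exact hnm hx
  have hev := even_of_dim hd
  rw [hT t, mem_upF]
  constructor
  · rintro ⟨⟨hbox, hle, htF⟩, hle', hcF⟩
    refine ⟨htF, ?_⟩
    have hti : t i = v i - a₀ i := by
      have := hle' i
      simp only [Pi.sub_apply] at this
      have := hev i
      omega
    have hlec : Le v (t + a₀) := by
      rw [le_iff hd]
      intro j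
      by_cases hj : j = i
      · subst hj; left; simp only [Pi.add_apply]; omega
      · have := hi' j hj
        simp only [Pi.add_apply, this, add_zero]
        exact (le_iff hd).1 hle j
    rcases (hF (t + a₀)).1 ⟨hcF, hlec⟩ with h1 | ⟨x, hx, h1⟩ | ⟨p, hp, h1⟩
    · left
      rw [← h1]; simp
    · right; left
      have hxi : x i = 0 := by
        have := congrFun h1 i
        simp only [Pi.add_apply] at this
        omega
      have hx1 : x ≠ a₀ := by rintro rfl; omega
      have hx2 : x ≠ -a₀ := by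
        rintro rfl
        simp only [Pi.neg_apply] at hxi; omega
      refine ⟨x, ?_, hx2, ?_⟩
      · rcases List.mem_cons.1 hx with h2 | h2
        · exact absurd h2 hx1
        · exact h2
      · have : t = v + x - a₀ := by rw [← h1]; simp
        rw [this]; abel
    · right; right
      obtain ⟨hq, hq1, hq2⟩ := hpp p hp
      have hs : p.1 i + p.2 i = 0 := by
        have := congrFun h1 i
        simp only [Pi.add_apply] at this
        omega
      have hp1 : p.1 i = 0 := by rcases hq i with h | h <;> omega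
      have hp2 : p.2 i = 0 := by omega
      have ne1 : p.1 ≠ a₀ := by intro he; rw [he] at hp1; omega
      have ne2 : p.2 ≠ a₀ := by intro he; rw [he] at hp2; omega
      have ne3 : p.1 ≠ -a₀ := by intro he; rw [he, Pi.neg_apply] at hp1; omega
      have ne4 : p.2 ≠ -a₀ := by intro he; rw [he, Pi.neg_apply] at hp2; omega
      refine ⟨p, ?_, ne3, ne4, ?_⟩
      · rcases (cyc_iff a₀ b z l'' M hM p).1 hp with h2 | h2 | h2
        · exact absurd (congrArg Prod.fst h2) ne1
        · exact h2
        · exact absurd (congrArg Prod.snd h2) ne2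
      · have : t = v + p.1 + p.2 - a₀ := by rw [← h1]; simp
        rw [this]; abel
  · rintro ⟨htF, hcase⟩
    have key : Le v t ∧ Le (v - a₀) t ∧ t + a₀ ∈ F := by
      rcases hcase with rfl | ⟨x, hx, hx', rfl⟩ | ⟨p, hp, hp1, hp2, rfl⟩
      · refine ⟨le_dir hd hna0, ?_, ?_⟩
        · rw [sub_eq_add_neg]; exact le_refl' _
        · simpa using hvF
      · have hpx := hperp x hx hx'
        have hdx := hdir x (List.mem_cons_of_mem _ hx)
        refine ⟨le_dir2 hd hna0 hdx hpx, ?_, ?_⟩
        · rw [sub_eq_add_neg]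
          rw [le_add_dir hd hna0 (i := i) (by simp only [Pi.neg_apply]; omega)
            (le_dir2 hd hna0 hdx hpx)]
          have : x i = 0 := by
            rcases hpx i with h | h
            · simp only [Pi.neg_apply] at h; omega
            · exact h
          simp only [Pi.add_apply, this, add_zero]
        · have : v + -a₀ + x + a₀ = v + x := by abel
          rw [this]
          exact (link1 hd hl hdx).2 (List.mem_cons_of_mem _ hx)
      · have hm := adjp_mem hp
        have hpc : p ∈ cyc (a₀ :: b :: l'') := (cyc_iff a₀ b z l'' M hM p).2 (Or.inr (Or.inl hp))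
        obtain ⟨hq, hq1, hq2⟩ := hpp p hpc
        have hpx := hperp _ hm.1 hp1
        have hpy := hperp _ hm.2 hp2
        have hle : Le v (v + -a₀ + p.1 + p.2) := by
          rw [le_iff hd]
          intro j
          simp only [Pi.add_apply]
          rcases hpx j with h | h <;> rcases hpy j with h' | h' <;> rcases hq j with h'' | h'' <;>
            rcases dir_val hna0 j with a1 | a1 | a1 <;> rcases dir_val hq1 j with a2 | a2 | a2 <;>
            rcases dir_val hq2 j with a3 | a3 | a3 <;> omega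
        refine ⟨hle, ?_, ?_⟩
        · rw [sub_eq_add_neg]
          rw [le_add_dir hd hna0 (i := i) (by simp only [Pi.neg_apply]; omega) hle]
          have : p.1 i = 0 := by
            rcases hpx i with h | h
            · simp only [Pi.neg_apply] at h; omega
            · exact h
          have : p.2 i = 0 := by
            rcases hpy i with h | h
            · simp only [Pi.neg_apply] at h; omega
            · exact h
          simp only [Pi.add_apply, *, add_zero]
        · have : v + -a₀ + p.1 + p.2 + a₀ = v + p.1 + p.2 := by abel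
          rw [this]
          exact (link2 hd hl hq1 hq2 hq).2 (Or.inl hpc)
    refine ⟨⟨?_, key.1, htF⟩, key.2⟩
    have := inn_of_le key.1 hv
    unfold inn at this
    exact (Finset.mem_sdiff.1 this).1

private lemma mem_arcL {c : Cell} {p : List Cell} {t : Cell} :
    t ∈ arcL c p ↔ t = c ∨ (∃ x ∈ p, t = c + x) ∨ ∃ q ∈ adjp p, t = c + q.1 + q.2 := by
  unfold arcL adjp
  simp only [Finset.mem_union, Finset.mem_singleton, List.mem_toFinset, List.mem_map]
  constructor
  · rintro ((h | ⟨x, hx, h⟩) | ⟨q, hq, h⟩)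
    · exact Or.inl h
    · exact Or.inr (Or.inl ⟨x, hx, h.symm⟩)
    · exact Or.inr (Or.inr ⟨q, hq, h.symm⟩)
  · rintro (h | ⟨x, hx, h⟩ | ⟨q, hq, h⟩)
    · exact Or.inl (Or.inl h)
    · exact Or.inl (Or.inr ⟨x, hx, h.symm⟩)
    · exact Or.inr ⟨q, hq, h.symm⟩

private lemma mem_arcH {c : Cell} {p : List Cell} {w t : Cell} :
    t ∈ arcH c p w ↔ (∃ x ∈ p, t = c + x) ∨ ∃ q ∈ adjp (p ++ [w]), t = c + q.1 + q.2 := by
  unfold arcH adjp
  simp only [Finset.mem_union, List.mem_toFinset, List.mem_map]
  constructor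
  · rintro (⟨x, hx, h⟩ | ⟨q, hq, h⟩)
    · exact Or.inl ⟨x, hx, h.symm⟩
    · exact Or.inr ⟨q, hq, h.symm⟩
  · rintro (⟨x, hx, h⟩ | ⟨q, hq, h⟩)
    · exact Or.inl ⟨x, hx, h.symm⟩
    · exact Or.inr ⟨q, hq, h.symm⟩

private lemma dim3 {v x y z : Cell} (hv : dim v = 0)
    (hx : IsDir x) (hy : IsDir y) (hz : IsDir z) (hxy : Perp x y) (hxz : Perp x z)
    (hyz : Perp y z) : dim (v + x + y + z) = 3 := by
  obtain ⟨i, hi, hi'⟩ := dir_axis hx
  obtain ⟨j, hj, hj'⟩ := dir_axis hy
  obtain ⟨k, hk, hk'⟩ := dir_axis hz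
  have hyi : y i = 0 := by rcases hxy i with h | h <;> omega
  have hzi : z i = 0 := by rcases hxz i with h | h <;> omega
  have hxj : x j = 0 := by rcases hxy j with h | h <;> omega
  have hzj : z j = 0 := by rcases hyz j with h | h <;> omega
  have hxk : x k = 0 := by rcases hxz k with h | h <;> omega
  have hyk : y k = 0 := by rcases hyz k with h | h <;> omega
  have hij : i ≠ j := by rintro rfl; omega
  have hik : i ≠ k := by rintro rfl; omega
  have hjk : j ≠ k := by rintro rfl; omega
  unfold dim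
  rw [Finset.card_eq_three]
  refine ⟨i, j, k, hij, hik, hjk, ?_⟩
  ext l
  simp only [Finset.mem_filter, Finset.mem_univ, true_and, Pi.add_apply, Finset.mem_insert,
    Finset.mem_singleton]
  have := even_of_dim hv l
  constructor
  · intro hl
    by_contra hc
    push Not at hc
    rw [hi' l hc.1, hj' l hc.2.1, hk' l hc.2.2] at hl
    omega
  · rintro (rfl | rfl | rfl) <;> omega

private lemma dim2 {v x y : Cell} (hv : dim v = 0)
    (hx : IsDir x) (hy : IsDir y) (hxy : Perp x y) : dim (v + x + y) = 2 := by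
  obtain ⟨i, hi, hi'⟩ := dir_axis hx
  obtain ⟨j, hj, hj'⟩ := dir_axis hy
  have hyi : y i = 0 := by rcases hxy i with h | h <;> omega
  have hxj : x j = 0 := by rcases hxy j with h | h <;> omega
  have hij : i ≠ j := by rintro rfl; omega
  unfold dim
  rw [Finset.card_eq_two]
  refine ⟨i, j, hij, ?_⟩
  ext l
  simp only [Finset.mem_filter, Finset.mem_univ, true_and, Pi.add_apply, Finset.mem_insert,
    Finset.mem_singleton]
  have := even_of_dim hv l
  constructor
  · intro hl
    by_contra hc
    push Not at hc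
    rw [hi' l hc.1, hj' l hc.2] at hl
    omega
  · rintro (rfl | rfl) <;> omega

/-- face of a three-dimensional cell -/
private lemma face3 {v d x y u : Cell} (hv : dim v = 0) (hx : IsDir x) (hy : IsDir y)
    (hu : IsDir u) (hdu : Perp d u)
    (h : Le (v + d + u) (v + d + x + y)) : u = x ∨ u = y := by
  obtain ⟨i, hi, _⟩ := dir_axis hu
  have h1 := h i
  simp only [Pi.add_apply] at h1
  have hdi : d i = 0 := by rcases hdu i with h | h <;> omega
  have := even_of_dim hv i
  rcases dir_val hx i with a | a | a <;> rcases dir_val hy i with b | b | b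
  all_goals first
    | (left; exact dir_eq hu hx (i := i) (by omega) (by omega))
    | (right; exact dir_eq hu hy (i := i) (by omega) (by omega))

/-- The leftover set `L` is acyclic. -/
theorem left_lacy {n : Fin 4 → ℕ} {F B : Finset Cell} (h : GoodDisc n F B) {ζ : R}
    (hζ : ζ ^ 2 + ζ + 1 = 0) {a : Cell → Cell → ZMod 3} (ha : LocSys n F a)
    {v a₀ : Cell} {l' : List Cell} (hv : v ∈ F) (hd : dim v = 0) (hB : v ∉ B)
    (hl : LinkCycle F v (a₀ :: l')) (T : Finset Cell)
    (hT : ∀ t, t ∈ T ↔ t ∈ upF n F v ∧ Le (v - a₀) t ∧ t + a₀ ∈ F) :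
    LAcy ζ a v T := by
  have hζ3 : ζ ^ 3 = 1 := by linear_combination (ζ - 1) * hζ
  have hl' := hl
  obtain ⟨hlen, hnd, hdir, hadj, hF⟩ := hl'
  have hvi : v ∈ inn n := by
    unfold inn
    refine Finset.mem_sdiff.2 ⟨h.sub hv, fun hb => hB ?_⟩
    rw [← h.bdy]; exact Finset.mem_inter.2 ⟨hv, hb⟩
  obtain ⟨b, l'', rfl⟩ : ∃ b l'', l' = b :: l'' := by
    cases l' with
    | nil => simp at hlen
    | cons b l'' => exact ⟨b, l'', rfl⟩
  obtain ⟨M, z, hM⟩ : ∃ M z, b :: l'' = M ++ [z] :=
    ⟨(b :: l'').dropLast, (b :: l'').getLast (by simp), (List.dropLast_append_getLast _).symm⟩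
  have hchar := T_char h hvi hd hl hM T hT
  have ha0 : IsDir a₀ := hdir a₀ (by simp)
  have hna0 := dir_neg ha0
  have hpp : ∀ p ∈ cyc (a₀ :: b :: l''), Perp p.1 p.2 ∧ IsDir p.1 ∧ IsDir p.2 := by
    intro p hp
    have hm := cyc_mem hp
    exact ⟨perp_of (hdir _ hm.1) (hdir _ hm.2) (cyc_ne hnd (by omega) hp) (hadj p hp),
      hdir _ hm.1, hdir _ hm.2⟩
  have hnm : a₀ ∉ b :: l'' := (List.nodup_cons.1 hnd).1
  have hnd' : (b :: l'').Nodup := (List.nodup_cons.1 hnd).2
  have hperp : ∀ x ∈ b :: l'', x ≠ -a₀ → Perp (-a₀) x := by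
    intro x hx hx'
    refine perp_neg (perp_of ha0 (hdir x (List.mem_cons_of_mem _ hx)) ?_ hx')
    rintro rfl; exact hnm hx
  have hdir' : ∀ x ∈ b :: l'', IsDir x := fun x hx => hdir x (List.mem_cons_of_mem _ hx)
  have hna : ∀ x ∈ b :: l'', x ≠ a₀ := by
    rintro x hx rfl; exact hnm hx
  have hnn : -(-a₀) = a₀ := neg_neg a₀
  have hcyc : ∀ p, p ∈ cyc (a₀ :: b :: l'') ↔ p = (a₀, b) ∨ p ∈ adjp (b :: l'') ∨ p = (z, a₀) :=
    cyc_iff a₀ b z l'' M hM
  have hsubF : ∀ t ∈ T, t ∈ Box n \ F := by
    intro t ht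
    have := mem_upF.1 ((hT t).1 ht).1
    exact Finset.mem_sdiff.2 ⟨this.1, this.2.2⟩
  have hT3 : ∀ p ∈ adjp (b :: l''), p.1 ≠ -a₀ → p.2 ≠ -a₀ → v + -a₀ + p.1 + p.2 ∉ F := by
    intro p hp h1 h2
    have hm := adjp_mem hp
    obtain ⟨hq, hq1, hq2⟩ := hpp p ((hcyc p).2 (Or.inr (Or.inl hp)))
    exact three_F h.surf hd hna0 hq1 hq2 (hperp _ hm.1 h1) (hperp _ hm.2 h2) hq
  by_cases hmem : -a₀ ∈ b :: l''
  · -- the antipode of a₀ is in the link
    obtain ⟨A, C, hAC⟩ := List.append_of_mem hmem
    have hb : b ≠ -a₀ := by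
      have := hadj (a₀, b) ((hcyc _).2 (Or.inl rfl))
      exact this
    have hz : z ≠ -a₀ := by
      have := hadj (z, a₀) ((hcyc _).2 (Or.inr (Or.inr rfl)))
      intro he
      apply this
      simp only
      rw [he, hnn]
    obtain ⟨l₁, x, rfl⟩ : ∃ l₁ x, A = l₁ ++ [x] := by
      cases A with
      | nil =>
        exfalso
        simp only [List.nil_append, List.cons.injEq] at hAC
        exact hb hAC.1
      | cons c A' =>
        exact ⟨(c :: A').dropLast, (c :: A').getLast (by simp),
          (List.dropLast_append_getLast _).symm⟩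
    obtain ⟨y, l₂, rfl⟩ : ∃ y l₂, C = y :: l₂ := by
      cases C with
      | nil =>
        exfalso
        rw [hM] at hAC
        have := List.append_inj_right' hAC (by simp)
        simp only [List.cons.injEq, and_true] at this
        exact hz this
      | cons y l₂ => exact ⟨y, l₂, rfl⟩
    -- adjacency in the list
    have hadjl : ∀ p, p ∈ adjp (b :: l'') ↔ p ∈ adjp (l₁ ++ [x]) ∨ p = (x, -a₀) ∨
        p = (-a₀, y) ∨ p ∈ adjp (y :: l₂) := by
      intro p
      rw [hAC, adjp_append, adjp_cons, List.mem_cons]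
      have : l₁ ++ [x] ++ [-a₀] = l₁ ++ x :: [-a₀] := by simp
      rw [this, adjp_append]
      have h3 : p ∈ adjp (x :: [-a₀]) ↔ p = (x, -a₀) := by
        rw [adjp_cons]; simp [adjp]
      rw [h3, or_assoc]
    have hnd2 : (l₁ ++ [x] ++ -a₀ :: y :: l₂).Nodup := by rw [← hAC]; exact hnd'
    have hsub1 : ∀ u ∈ l₁ ++ [x], u ∈ b :: l'' ∧ u ≠ -a₀ := by
      intro u hu
      refine ⟨by rw [hAC]; exact List.mem_append_left _ hu, ?_⟩
      rintro rfl
      exact (List.disjoint_of_nodup_append hnd2) hu (by simp)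
    have hsub2 : ∀ u ∈ y :: l₂, u ∈ b :: l'' ∧ u ≠ -a₀ := by
      intro u hu
      refine ⟨by rw [hAC]; exact List.mem_append_right _ (List.mem_cons_of_mem _ hu), ?_⟩
      rintro rfl
      have := (List.nodup_append.1 hnd2).2.1
      exact (List.nodup_cons.1 this).1 hu
    have hdisj : ∀ u ∈ l₁ ++ [x], u ∉ y :: l₂ := by
      intro u hu hu'
      exact (List.disjoint_of_nodup_append hnd2) hu (List.mem_cons_of_mem _ hu')
    have hrev : ∀ p : Cell × Cell, p ∈ adjp (l₂.reverse ++ [y]) ↔ (p.2, p.1) ∈ adjp (y :: l₂) := by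
      intro p
      have := adjp_reverse (y :: l₂) p.1 p.2
      rw [List.reverse_cons] at this
      exact this
    have hx1 := hsub1 x (by simp)
    have hy1 := hsub2 y (by simp)
    have hxF : v + -a₀ + x ∈ F := (link2 hd hl hna0 (hdir' x hx1.1) (hperp x hx1.1 hx1.2)).2
      (Or.inr ((hcyc _).2 (Or.inr (Or.inl ((hadjl _).2 (Or.inr (Or.inl rfl)))))))
    have hyF : v + -a₀ + y ∈ F := (link2 hd hl hna0 (hdir' y hy1.1) (hperp y hy1.1 hy1.2)).2
      (Or.inl ((hcyc _).2 (Or.inr (Or.inl ((hadjl _).2 (Or.inr (Or.inr (Or.inl rfl))))))))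
    have hdF : v + -a₀ ∈ F := (link1 hd hl hna0).2 (List.mem_cons_of_mem _ hmem)
    -- a vertex not adjacent
    have huF : ∀ u ∈ b :: l'', u ≠ -a₀ → u ≠ x → u ≠ y → v + -a₀ + u ∉ F := by
      intro u hu hu1 hu2 hu3 hc
      rcases (link2 hd hl hna0 (hdir' u hu) (hperp u hu hu1)).1 hc with h1 | h1
      · have h2 : (-a₀, y) ∈ cyc (a₀ :: b :: l'') :=
          (hcyc _).2 (Or.inr (Or.inl ((hadjl _).2 (Or.inr (Or.inr (Or.inl rfl))))))
        exact hu3 (nodup_rot hnd h1 h2)
      · have h2 : (x, -a₀) ∈ cyc (a₀ :: b :: l'') :=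
          (hcyc _).2 (Or.inr (Or.inl ((hadjl _).2 (Or.inr (Or.inl rfl)))))
        exact hu2 (nodup_rot' hnd h1 h2)
    have hxl1 : x ∉ l₁ := by
      have := (List.nodup_append.1 hnd2).1
      intro hx
      exact (List.disjoint_of_nodup_append this) hx (by simp)
    have hyl2 : y ∉ l₂ := by
      have := (List.nodup_append.1 hnd2).2.1
      exact (List.nodup_cons.1 (List.nodup_cons.1 this).2).1
    have hTeq : ∀ t, t ∈ T ↔ t ∈ arcH (v + -a₀) l₁ x ∨ t ∈ arcH (v + -a₀) l₂.reverse y := by
      intro t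
      rw [hchar t, mem_arcH, mem_arcH]
      constructor
      · rintro ⟨htF, rfl | ⟨u, hu, hu', rfl⟩ | ⟨p, hp, hp1, hp2, rfl⟩⟩
        · exact absurd hdF htF
        · have hux : u ≠ x := by rintro rfl; exact htF hxF
          have huy : u ≠ y := by rintro rfl; exact htF hyF
          rw [hAC] at hu
          simp only [List.mem_append, List.mem_cons, List.not_mem_nil, or_false] at hu
          rcases hu with (hu | hu) | hu | hu | hu
          · exact Or.inl (Or.inl ⟨u, hu, rfl⟩)
          · exact absurd hu hux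
          · exact absurd hu hu'
          · exact absurd hu huy
          · exact Or.inr (Or.inl ⟨u, List.mem_reverse.2 hu, rfl⟩)
        · rcases (hadjl p).1 hp with h1 | h1 | h1 | h1
          · exact Or.inl (Or.inr ⟨p, h1, rfl⟩)
          · exact absurd (congrArg Prod.snd h1) hp2
          · exact absurd (congrArg Prod.fst h1) hp1
          · refine Or.inr (Or.inr ⟨(p.2, p.1), (hrev _).2 h1, ?_⟩)
            exact add_right_comm _ _ _
      · rintro ((⟨u, hu, rfl⟩ | ⟨p, hp, rfl⟩) | (⟨u, hu, rfl⟩ | ⟨p, hp, rfl⟩))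
        · have hs := hsub1 u (List.mem_append_left _ hu)
          refine ⟨huF u hs.1 hs.2 ?_ ?_, Or.inr (Or.inl ⟨u, hs.1, hs.2, rfl⟩)⟩
          · rintro rfl; exact hxl1 hu
          · rintro rfl; exact hdisj _ (List.mem_append_left _ hu) (by simp)
        · have hm := adjp_mem hp
          have h1 := hsub1 _ hm.1
          have h2 := hsub1 _ hm.2
          have hp' := (hadjl p).2 (Or.inl hp)
          exact ⟨hT3 p hp' h1.2 h2.2, Or.inr (Or.inr ⟨p, hp', h1.2, h2.2, rfl⟩)⟩
        · have hu := List.mem_reverse.1 hu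
          have hs := hsub2 u (List.mem_cons_of_mem _ hu)
          refine ⟨huF u hs.1 hs.2 ?_ ?_, Or.inr (Or.inl ⟨u, hs.1, hs.2, rfl⟩)⟩
          · rintro rfl; exact hdisj _ (by simp) (List.mem_cons_of_mem _ hu)
          · rintro rfl; exact hyl2 hu
        · have hp := (hrev p).1 hp
          have hm := adjp_mem hp
          have h1 := hsub2 _ hm.1
          have h2 := hsub2 _ hm.2
          have hp' := (hadjl (p.2, p.1)).2 (Or.inr (Or.inr (Or.inr hp)))
          have he : v + -a₀ + p.1 + p.2 = v + -a₀ + (p.2, p.1).1 + (p.2, p.1).2 :=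
            add_right_comm _ _ _
          rw [he]
          exact ⟨hT3 (p.2, p.1) hp' h1.2 h2.2, Or.inr (Or.inr ⟨(p.2, p.1), hp', h1.2, h2.2, rfl⟩)⟩
    have hsubT1 : arcH (v + -a₀) l₁ x ⊆ Box n \ F := fun t ht => hsubF t ((hTeq t).2 (Or.inl ht))
    have hsubT2 : arcH (v + -a₀) l₂.reverse y ⊆ Box n \ F :=
      fun t ht => hsubF t ((hTeq t).2 (Or.inr ht))
    have hvT : ∀ t ∈ T, Le v t := fun t ht => (mem_upF.1 ((hT t).1 ht).1).2.1
    have hadj' : ∀ p ∈ adjp (b :: l''), p.2 ≠ -p.1 :=
      fun p hp => hadj p ((hcyc p).2 (Or.inr (Or.inl hp)))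
    have hpp' : ∀ p ∈ adjp (b :: l''), Perp p.1 p.2 ∧ IsDir p.1 ∧ IsDir p.2 :=
      fun p hp => hpp p ((hcyc p).2 (Or.inr (Or.inl hp)))
    refine lacy_split (T₁ := arcH (v + -a₀) l₁ x) (T₂ := arcH (v + -a₀) l₂.reverse y) ?_ ?_ hvT ?_
      ?_ ?_ ?_
    · -- disjoint
      rw [Finset.disjoint_left]
      intro t h1 h2
      rw [mem_arcH] at h1 h2
      rcases h1 with ⟨u, hu, rfl⟩ | ⟨p, hp, rfl⟩
      · have hs := hsub1 u (List.mem_append_left _ hu)
        rcases h2 with ⟨w, hw, h2⟩ | ⟨q, hq, h2⟩
        · have := add_left_cancel h2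
          rw [this] at hu
          exact hdisj _ (List.mem_append_left _ hu)
            (List.mem_cons_of_mem _ (List.mem_reverse.1 hw))
        · have hq := (hrev q).1 hq
          have hm := adjp_mem hq
          have h3 := hsub2 _ hm.1
          have h4 := hsub2 _ hm.2
          have hq' := hpp' (q.2, q.1) ((hadjl _).2 (Or.inr (Or.inr (Or.inr hq))))
          have e1 := dim2 hd hna0 (hdir' u hs.1) (hperp u hs.1 hs.2)
          have e2 := dim3 hd hna0 hq'.2.2 hq'.2.1 (hperp _ h4.1 h4.2) (hperp _ h3.1 h3.2)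
            (perp_symm hq'.1)
          simp only at e2
          rw [h2, e2] at e1
          omega
      · have hm := adjp_mem hp
        have h3 := hsub1 _ hm.1
        have h4 := hsub1 _ hm.2
        have hp' := hpp' p ((hadjl _).2 (Or.inl hp))
        have e2 := dim3 hd hna0 hp'.2.1 hp'.2.2 (hperp _ h3.1 h3.2) (hperp _ h4.1 h4.2) hp'.1
        rcases h2 with ⟨w, hw, h2⟩ | ⟨q, hq, h2⟩
        · have hs := hsub2 w (List.mem_cons_of_mem _ (List.mem_reverse.1 hw))
          have e1 := dim2 hd hna0 (hdir' w hs.1) (hperp w hs.1 hs.2)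
          rw [← h2, e2] at e1
          omega
        · have hq := (hrev q).1 hq
          have hmq := adjp_mem hq
          have hq' := hpp' (q.2, q.1) ((hadjl _).2 (Or.inr (Or.inr (Or.inr hq))))
          rw [add_assoc, add_assoc (v + -a₀) q.1 q.2] at h2
          have h5 := add_left_cancel h2
          rcases sum_eq hp'.2.1 hq'.2.2 hq'.2.1 hp'.1 (perp_symm hq'.1) h5 with ⟨h6, _⟩ | ⟨h6, _⟩
          · rw [h6] at hm
            exact hdisj _ hm.1 hmq.2
          · rw [h6] at hm
            exact hdisj _ hm.1 hmq.1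
    · ext t
      rw [Finset.mem_union, hTeq t]
    · -- complex
      refine lcx_of hζ3 ?_ hvT (flat_mono hsubF ha.flat)
      intro s hs t ht c hsc hct
      rw [hT] at hs ht ⊢
      refine ⟨conv_upF h.surf.cx v s hs.1 t ht.1 c hsc hct, le_trans' hs.2.1 hsc, ?_⟩
      obtain ⟨i, hi, hi'⟩ := dir_axis ha0
      have hle1 := hs.2.1 i
      have hle3 := ht.2.1 i
      simp only [Pi.sub_apply] at hle1 hle3
      have hev := even_of_dim hd i
      have hci : c i = t i := by
        have h1 := hct i
        have h2 := hsc i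
        omega
      refine h.surf.cx _ ht.2.2 _ ?_
      intro j
      by_cases hj : j = i
      · subst hj
        left; simp only [Pi.add_apply, hci]
      · simp only [Pi.add_apply, hi' j hj, add_zero]
        exact hct j
    · -- no arrows
      intro t h1 t' h2 i hf
      have hdim := dim_of_fct hf
      have hle := le_of_fct hf
      rw [mem_arcH] at h1 h2
      rcases h1 with ⟨u, hu, rfl⟩ | ⟨p, hp, rfl⟩
      · have hs := hsub1 u (List.mem_append_left _ hu)
        have e1 := dim2 hd hna0 (hdir' u hs.1) (hperp u hs.1 hs.2)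
        rcases h2 with ⟨w, hw, rfl⟩ | ⟨q, hq, rfl⟩
        · have hs' := hsub2 w (List.mem_cons_of_mem _ (List.mem_reverse.1 hw))
          have e2 := dim2 hd hna0 (hdir' w hs'.1) (hperp w hs'.1 hs'.2)
          omega
        · have hq := (hrev q).1 hq
          have hm := adjp_mem hq
          have h3 := hsub2 _ hm.1
          have h4 := hsub2 _ hm.2
          have hq' := hpp' (q.2, q.1) ((hadjl _).2 (Or.inr (Or.inr (Or.inr hq))))
          have e2 := dim3 hd hna0 hq'.2.2 hq'.2.1 (hperp _ h4.1 h4.2) (hperp _ h3.1 h3.2)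
            (perp_symm hq'.1)
          simp only at e2
          omega
      · have hm := adjp_mem hp
        have h3 := hsub1 _ hm.1
        have h4 := hsub1 _ hm.2
        have hp' := hpp' p ((hadjl _).2 (Or.inl hp))
        have e2 := dim3 hd hna0 hp'.2.1 hp'.2.2 (hperp _ h3.1 h3.2) (hperp _ h4.1 h4.2) hp'.1
        rcases h2 with ⟨w, hw, rfl⟩ | ⟨q, hq, rfl⟩
        · have hw := List.mem_reverse.1 hw
          have hs' := hsub2 w (List.mem_cons_of_mem _ hw)
          rcases face3 hd hp'.2.1 hp'.2.2 (hdir' w hs'.1) (hperp w hs'.1 hs'.2) hle with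
            h5 | h5
          · rw [← h5] at hm; exact hdisj _ hm.1 (List.mem_cons_of_mem _ hw)
          · rw [← h5] at hm; exact hdisj _ hm.2 (List.mem_cons_of_mem _ hw)
        · have hq := (hrev q).1 hq
          have hmq := adjp_mem hq
          have h3 := hsub2 _ hmq.1
          have h4 := hsub2 _ hmq.2
          have hq' := hpp' (q.2, q.1) ((hadjl _).2 (Or.inr (Or.inr (Or.inr hq))))
          have e3 := dim3 hd hna0 hq'.2.2 hq'.2.1 (hperp _ h4.1 h4.2) (hperp _ h3.1 h3.2)
            (perp_symm hq'.1)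
          simp only at e3
          omega
    · -- first arc
      refine arcH_lacy hζ3 hd hna0 ?_ ?_ ?_ (flat_mono hsubT1 ha.flat)
      · exact (List.nodup_append.1 hnd2).1
      · intro u hu
        have hs := hsub1 u hu
        exact ⟨hdir' u hs.1, hs.2, by rw [hnn]; exact hna u hs.1⟩
      · intro p hp
        exact hadj' p ((hadjl p).2 (Or.inl hp))
    · -- second arc
      refine arcH_lacy hζ3 hd hna0 ?_ ?_ ?_ (flat_mono hsubT2 ha.flat)
      · have : (y :: l₂).reverse.Nodup := List.nodup_reverse.2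
          (List.nodup_cons.1 (List.nodup_append.1 hnd2).2.1).2
        rw [List.reverse_cons] at this
        exact this
      · intro u hu
        have hu : u ∈ y :: l₂ := by
          simp only [List.mem_append, List.mem_reverse, List.mem_cons, List.not_mem_nil,
            or_false] at hu ⊢
          tauto
        have hs := hsub2 u hu
        exact ⟨hdir' u hs.1, hs.2, by rw [hnn]; exact hna u hs.1⟩
      · intro p hp
        have hp' := (hrev p).1 hp
        have := hadj' (p.2, p.1) ((hadjl _).2 (Or.inr (Or.inr (Or.inr hp'))))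
        simp only at this
        intro he
        apply this
        rw [he, neg_neg]
  · -- the antipode of a₀ is not in the link
    have hne : ∀ x ∈ b :: l'', x ≠ -a₀ := by
      rintro x hx rfl; exact hmem hx
    have hTeq : T = arcL (v + -a₀) (b :: l'') := by
      ext t
      rw [hchar t, mem_arcL]
      constructor
      · rintro ⟨htF, h1 | ⟨u, hu, hu', h1⟩ | ⟨p, hp, hp1, hp2, h1⟩⟩
        · exact Or.inl h1
        · exact Or.inr (Or.inl ⟨u, hu, h1⟩)
        · exact Or.inr (Or.inr ⟨p, hp, h1⟩)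
      · rintro (rfl | ⟨u, hu, rfl⟩ | ⟨p, hp, rfl⟩)
        · refine ⟨?_, Or.inl rfl⟩
          intro hc
          rcases List.mem_cons.1 ((link1 hd hl hna0).1 hc) with h1 | h1
          · obtain ⟨i, hi, _⟩ := dir_axis ha0
            have := congrFun h1 i
            simp only [Pi.neg_apply] at this
            omega
          · exact hmem h1
        · refine ⟨?_, Or.inr (Or.inl ⟨u, hu, hne u hu, rfl⟩)⟩
          intro hc
          rcases (link2 hd hl hna0 (hdir' u hu) (hperp u hu (hne u hu))).1 hc with h1 | h1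
          · rcases List.mem_cons.1 (cyc_mem h1).1 with h2 | h2
            · obtain ⟨i, hi, _⟩ := dir_axis ha0
              have := congrFun h2 i
              simp only [Pi.neg_apply] at this
              omega
            · exact hmem h2
          · rcases List.mem_cons.1 (cyc_mem h1).2 with h2 | h2
            · obtain ⟨i, hi, _⟩ := dir_axis ha0
              have := congrFun h2 i
              simp only [Pi.neg_apply] at this
              omega
            · exact hmem h2
        · have hm := adjp_mem hp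
          exact ⟨hT3 p hp (hne _ hm.1) (hne _ hm.2), Or.inr (Or.inr ⟨p, hp, hne _ hm.1, hne _ hm.2,
            rfl⟩)⟩
    rw [hTeq]
    refine arcL_lacy hζ3 hd hna0 (by simp) hnd' ?_ ?_ (flat_mono ?_ ha.flat)
    · intro u hu
      exact ⟨hdir' u hu, hne u hu, by rw [hnn]; exact hna u hu⟩
    · intro p hp
      exact hadj p ((hcyc p).2 (Or.inr (Or.inl hp)))
    · rw [← hTeq]; exact hsubF

theorem vert_lacy {n : Fin 4 → ℕ} {F B : Finset Cell} (h : GoodDisc n F B) {ζ : R}
    (hζ : ζ ^ 2 + ζ + 1 = 0) (hu : IsUnit (1 - ζ)) {a : Cell → Cell → ZMod 3} (ha : LocSys n F a)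
    {v : Cell} (hv : v ∈ F) (hd : dim v = 0) (hB : v ∉ B) : LAcy ζ a v (upF n F v) := by
  classical
  have hζ3 : ζ ^ 3 = 1 := by linear_combination (ζ - 1) * hζ
  obtain ⟨l, hl⟩ := h.surf.inner v hv hd hB
  have hl' := hl
  obtain ⟨hlen, hnd, hdir, hadj, hF⟩ := hl'
  have hvi : v ∈ inn n := by
    unfold inn
    refine Finset.mem_sdiff.2 ⟨h.sub hv, fun hb => hB ?_⟩
    rw [← h.bdy]; exact Finset.mem_inter.2 ⟨hv, hb⟩
  obtain ⟨a₀, l', rfl⟩ : ∃ a₀ l', l = a₀ :: l' := by
    cases l with
    | nil => simp at hlen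
    | cons b l'' => exact ⟨b, l'', rfl⟩
  have ha0 : IsDir a₀ := hdir a₀ (by simp)
  have hna0 := dir_neg ha0
  obtain ⟨i, hi, hi'⟩ := dir_axis ha0
  have hev := even_of_dim hd
  have heF : v + a₀ ∈ F := (link1 hd hl ha0).2 (by simp)
  have hei : v + a₀ ∈ inn n := inn_of_le (le_dir hd ha0) hvi
  have heB : v + a₀ ∉ B := by
    intro hb
    rw [← h.bdy] at hb
    exact (Finset.mem_sdiff.1 hei).2 (Finset.mem_inter.1 hb).2
  have hbox : ∀ t, Le v t → t ∈ Box n := fun t ht => (Finset.mem_sdiff.1 (inn_of_le ht hvi)).1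
  have hvT : ∀ t ∈ upF n F v, Le v t := fun t ht => (mem_upF.1 ht).2.1
  have hconv := conv_upF (n := n) h.surf.cx v
  have hsubF : upF n F v ⊆ Box n \ F := by
    intro t ht
    have := mem_upF.1 ht
    exact Finset.mem_sdiff.2 ⟨this.1, this.2.2⟩
  -- coordinates of the elements
  have hco : ∀ t, Le v t → (t i = v i ∨ t i = v i + a₀ i ∨ t i = v i - a₀ i) := by
    intro t ht
    have := (le_iff hd).1 ht i
    omega
  have hplus : ∀ t, Le v t → (Le (v + a₀) t ↔ t i = v i + a₀ i) := fun t ht => le_add_dir hd ha0 hi ht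
  have hminus : ∀ t, Le v t → (Le (v - a₀) t ↔ t i = v i - a₀ i) := by
    intro t ht
    have := le_add_dir hd hna0 (i := i) (by simp only [Pi.neg_apply]; omega) ht
    rw [← sub_eq_add_neg] at this
    rw [this]
    simp only [Pi.neg_apply, sub_eq_add_neg]
  have hsmul : a₀ = (a₀ i) • e i := by
    funext j
    by_cases hj : j = i
    · subst hj; simp [e_ap]
    · simp [e_ap, hj, hi' j hj]
  -- adding a₀
  have haddc : ∀ t j, (t + a₀) j = if j = i then t i + a₀ i else t j := by
    intro t j
    by_cases hj : j = i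
    · subst hj; simp
    · simp [hj, hi' j hj]
  have hsubc : ∀ t j, (t - a₀) j = if j = i then t i - a₀ i else t j := by
    intro t j
    by_cases hj : j = i
    · subst hj; simp
    · simp [hj, hi' j hj]
  set T := upF n F v with hTdef
  set T₁ := T.filter (fun t => ¬ Le (v + a₀) t) with hT1
  have hT2 : upF n F (v + a₀) = T.filter (fun t => Le (v + a₀) t) := by
    ext t
    rw [Finset.mem_filter, hTdef, mem_upF, mem_upF]
    constructor
    · rintro ⟨h1, h2, h3⟩
      exact ⟨⟨h1, le_trans' (le_dir hd ha0) h2, h3⟩, h2⟩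
    · rintro ⟨⟨h1, h2, h3⟩, h4⟩
      exact ⟨h1, h4, h3⟩
  set L := T.filter (fun t => Le (v - a₀) t ∧ t + a₀ ∈ F) with hL
  have hLT1 : L ⊆ T₁ := by
    intro t ht
    rw [hL, Finset.mem_filter] at ht
    rw [hT1, Finset.mem_filter]
    refine ⟨ht.1, ?_⟩
    rw [hplus t (hvT t ht.1)]
    have := (hminus t (hvT t ht.1)).1 ht.2.1
    omega
  have hc1 : Conv T₁ := by
    intro x hx y hy z hxz hzy
    rw [hT1, Finset.mem_filter] at hx hy ⊢
    exact ⟨hconv x hx.1 y hy.1 z hxz hzy, fun hc => hy.2 (le_trans' hc hzy)⟩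
  have hc2 : Conv (T₁ \ L) := by
    intro x hx y hy z hxz hzy
    rw [Finset.mem_sdiff] at hx hy ⊢
    have hz1 := hc1 x hx.1 y hy.1 z hxz hzy
    refine ⟨hz1, fun hzL => hx.2 ?_⟩
    have hx1 := (Finset.mem_filter.1 hx.1).1
    have hzT := (Finset.mem_filter.1 hz1).1
    rw [hL, Finset.mem_filter] at hzL ⊢
    have hzi := (hminus z (hvT z hzT)).1 hzL.2.1
    -- the coordinate i of x
    have hxi : x i = v i - a₀ i ∨ x i = v i := by
      have h1 := hxz i
      have h2 := hco x (hvT x hx1)
      have h3 := hev i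
      omega
    rcases hxi with hxi | hxi
    · refine ⟨hx1, (hminus x (hvT x hx1)).2 hxi, ?_⟩
      refine h.surf.cx _ hzL.2.2 _ ?_
      intro j
      rw [haddc, haddc]
      by_cases hj : j = i
      · rw [if_pos hj, if_pos hj]; left; omega
      · rw [if_neg hj, if_neg hj]; exact hxz j
    · exfalso
      have : x ∈ F := by
        refine h.surf.cx _ hzL.2.2 _ ?_
        intro j
        rw [haddc]
        by_cases hj : j = i
        · rw [if_pos hj, hj]; left; omega
        · rw [if_neg hj]; exact hxz j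
      exact (Finset.mem_sdiff.1 (hsubF hx1)).2 this
  have hs1 : T₁ ⊆ Box n \ F := fun t ht => hsubF (Finset.mem_filter.1 ht).1
  have hs2 : T₁ \ L ⊆ Box n \ F := fun t ht => hs1 (Finset.mem_sdiff.1 ht).1
  have hv1 : ∀ t ∈ T₁, Le v t := fun t ht => hvT t (Finset.mem_filter.1 ht).1
  have hv2 : ∀ t ∈ T₁ \ L, Le v t := fun t ht => hv1 t (Finset.mem_sdiff.1 ht).1
  have hL1 : LAcy ζ a v L := by
    refine left_lacy h hζ ha hv hd hB hl L ?_
    intro t
    rw [hL, Finset.mem_filter]
  have hTL : LAcy ζ a v (T₁ \ L) := by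
    have hneg : ∀ t : Cell, t + (-(a₀ i)) • e i = t - a₀ := by
      intro t
      rw [neg_smul, ← hsmul, sub_eq_add_neg]
    have hneg' : ∀ t : Cell, t - (-(a₀ i)) • e i = t + a₀ := by
      intro t
      rw [neg_smul, ← hsmul, sub_neg_eq_add]
    refine lacy_tog hζ3 hv2 (lcx_of hζ3 hc2 hv2 (flat_mono hs2 ha.flat)) i (hev i) (-(a₀ i))
      (by omega) ?_ ?_
    · intro t ht hti
      rw [hneg]
      have ht1 := Finset.mem_sdiff.1 ht
      have ht2 := Finset.mem_filter.1 ht1.1
      have ht3 := mem_upF.1 ht2.1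
      have hlev : Le v (t - a₀) := by
        rw [le_iff hd]
        intro j
        rw [hsubc]
        by_cases hj : j = i
        · rw [if_pos hj, hj]; omega
        · rw [if_neg hj]; exact (le_iff hd).1 ht3.2.1 j
      have hle : Le t (t - a₀) := by
        intro j
        rw [hsubc]
        by_cases hj : j = i
        · rw [if_pos hj, hj]
          have := hev i
          right
          constructor <;> omega
        · rw [if_neg hj]; left; rfl
      rw [Finset.mem_sdiff, hT1, Finset.mem_filter, hTdef, mem_upF, hL, Finset.mem_filter]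
      refine ⟨⟨⟨hbox _ hlev, hlev, fun hc => ht3.2.2 (h.surf.cx _ hc _ hle)⟩, ?_⟩, ?_⟩
      · rw [hplus _ hlev, hsubc, if_pos rfl]; omega
      · rintro ⟨_, _, hc⟩
        rw [sub_add_cancel] at hc
        exact ht3.2.2 hc
    · intro t ht hti
      have ht1 := Finset.mem_sdiff.1 ht
      have ht2 := Finset.mem_filter.1 ht1.1
      have ht3 := mem_upF.1 ht2.1
      have h5 := hco t ht3.2.1
      have h6 := ht2.2
      rw [hplus t ht3.2.1] at h6
      have h7 : t i = v i - a₀ i := by omega
      refine ⟨by omega, ?_⟩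
      rw [hneg']
      have hlev : Le v (t + a₀) := by
        rw [le_iff hd]
        intro j
        rw [haddc]
        by_cases hj : j = i
        · rw [if_pos hj, hj]; omega
        · rw [if_neg hj]; exact (le_iff hd).1 ht3.2.1 j
      rw [Finset.mem_sdiff, hT1, Finset.mem_filter, hTdef, mem_upF, hL, Finset.mem_filter]
      have hnF : t + a₀ ∉ F := by
        intro hc
        apply ht1.2
        rw [hL, Finset.mem_filter]
        exact ⟨ht2.1, (hminus t ht3.2.1).2 h7, hc⟩
      refine ⟨⟨⟨hbox _ hlev, hlev, hnF⟩, ?_⟩, ?_⟩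
      · rw [hplus _ hlev, haddc, if_pos rfl]; omega
      · rintro ⟨_, hc, _⟩
        rw [hminus _ hlev, haddc, if_pos rfl] at hc
        omega
  have hT1a : LAcy ζ a v T₁ := by
    refine lacy_split (T₁ := L) (T₂ := T₁ \ L) Finset.disjoint_sdiff
      (Finset.union_sdiff_of_subset hLT1) hv1 (lcx_of hζ3 hc1 hv1 (flat_mono hs1 ha.flat))
      ?_ hL1 hTL
    intro t ht t' ht' j hf
    have hle := le_of_fct hf
    have ht1 := Finset.mem_filter.1 ht
    have ht1' := Finset.mem_sdiff.1 ht'
    have ht2' := Finset.mem_filter.1 ht1'.1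
    have ht3' := mem_upF.1 ht2'.1
    have hti := (hminus t (hvT t ht1.1)).1 ht1.2.1
    have h4 := hle i
    have h5 := hco t' ht3'.2.1
    have h6 := hev i
    have hxi : t' i = v i - a₀ i ∨ t' i = v i := by omega
    rcases hxi with hxi | hxi
    · apply ht1'.2
      rw [hL, Finset.mem_filter]
      refine ⟨ht2'.1, (hminus t' ht3'.2.1).2 hxi, ?_⟩
      refine h.surf.cx _ ht1.2.2 _ ?_
      intro k
      rw [haddc, haddc]
      by_cases hk : k = i
      · rw [if_pos hk, if_pos hk]; left; omega
      · rw [if_neg hk, if_neg hk]; exact hle k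
    · apply ht3'.2.2
      refine h.surf.cx _ ht1.2.2 _ ?_
      intro k
      rw [haddc]
      by_cases hk : k = i
      · rw [if_pos hk, hk]; left; omega
      · rw [if_neg hk]; exact hle k
  refine lacy_split (T₁ := T₁) (T₂ := upF n F (v + a₀)) ?_ ?_ hvT
    (lcx_of hζ3 hconv hvT (flat_mono hsubF ha.flat)) ?_ hT1a
    (edge_lacy h hζ hu ha (le_dir hd ha0) heF (dim_add hd ha0) heB)
  · rw [hT2, hT1, Finset.disjoint_left]
    intro t h1 h2
    exact (Finset.mem_filter.1 h1).2 (Finset.mem_filter.1 h2).2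
  · rw [hT2, hT1]
    ext t
    simp only [Finset.mem_union, Finset.mem_filter]
    constructor
    · rintro (h1 | h1) <;> exact h1.1
    · intro h1
      by_cases h2 : Le (v + a₀) t
      · exact Or.inr ⟨h1, h2⟩
      · exact Or.inl ⟨h1, h2⟩
  · intro t ht t' ht' j hf
    rw [hT2] at ht'
    exact (Finset.mem_filter.1 ht).2 (le_trans' (Finset.mem_filter.1 ht').2 (le_of_fct hf))

end Cub
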