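import Pool.Agent.H33.CB.Stmt
import Pool.Agent.H33.CB.Alg

/-!
# The twisted cellular matrices

A local system (of rank one, with values in the cube roots of unity) on a set `A` of cells is a
function `a : Cell → Cell → ZMod 3`: `a c c'` is the exponent of the transport from the cell `c` to
its facet `c'`.  All complexes of the proof are `dq (dcoef ζ a)` restricted to a finite set of
cells which contains at most one cell of each antipodal pair.

SIGNS.  We use the convention `∂ interval = right end + left end` (plus signs everywhere), which is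
isomorphic to the usual one and has the advantage that `c ↦ -c` commutes with the boundary.
-/

namespace Cub

variable {R : Type} [CommRing R]

/-- The unit vectors. -/
def e (i : Fin 4) : Cell := Pi.single i 1

/-- Sign: `(-1)` to the number of odd coordinates of `c` before `i`. -/
def sgn (i : Fin 4) (c : Cell) : ℤ :=
  (-1) ^ (Finset.univ.filter (fun j => j < i ∧ c j % 2 = 1)).card

/-- Incidence number of the cell `c` and its facet `c'` (zero if `c'` is not a facet). -/
def inc (c c' : Cell) : ℤ :=
  ∑ i, if c i % 2 = 1 ∧ (c' = c + e i ∨ c' = c - e i) then sgn i c else 0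

/-- Power of a cube root of unity. -/
def zp (ζ : R) (k : ZMod 3) : R := ζ ^ k.val

/-- The twisted boundary matrix. -/
def dcoef (ζ : R) (a : Cell → Cell → ZMod 3) (c c' : Cell) : R := (inc c c' : R) * zp ζ (a c c')

/-- The matrix induced on pairs of opposite indices. -/
def dq {ι κ : Type} [Neg κ] (P : ι → κ → R) (a : ι) (b : κ) : R := P a b + P a (-b)

/-- The antipode of a direct sum. -/
instance {ι κ : Type} [InvolutiveNeg ι] [InvolutiveNeg κ] : InvolutiveNeg (ι ⊕ κ) where
  neg := Sum.map (fun a => -a) (fun b => -b)
  neg_neg := by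
    rintro (a | b)
    · exact congrArg Sum.inl (neg_neg a)
    · exact congrArg Sum.inr (neg_neg b)

/-- Symmetric set of indices. -/
def Sym {ι : Type} [Neg ι] (A : Finset ι) : Prop := ∀ a ∈ A, -a ∈ A

/-- `B` contains exactly one index of each antipodal pair of `A`. -/
structure Sec {ι : Type} [Neg ι] (A B : Finset ι) : Prop where
  sub : B ⊆ A
  one : ∀ b ∈ B, -b ∉ B
  all : ∀ a ∈ A, a ∈ B ∨ -a ∈ B

/-- Symmetric matrix (with respect to the antipode). -/
def SymM {ι κ : Type} [Neg ι] [Neg κ] (P : ι → κ → R) : Prop := ∀ a b, P (-a) (-b) = P a b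

/-- The first nonzero coordinate is positive. -/
def Pos (c : Cell) : Prop := ∃ i, 0 < c i ∧ ∀ j < i, c j = 0

instance : DecidablePred Pos := fun c => by unfold Pos; infer_instance

/-- The standard choice of representatives. -/
def pos (A : Finset Cell) : Finset Cell := A.filter Pos

/-- Convex (locally closed) set of cells. -/
def Conv (A : Finset Cell) : Prop := ∀ a ∈ A, ∀ c ∈ A, ∀ b, Le a b → Le b c → b ∈ A

/-- The local system `a` is flat on `A`: the two paths from a cell of `A` to a face of codimension
two in `A` give the same transport. -/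
def Flat (a : Cell → Cell → ZMod 3) (A : Finset Cell) : Prop :=
  ∀ c ∈ A, ∀ i j : Fin 4, i ≠ j → c i % 2 = 1 → c j % 2 = 1 → ∀ s t : ℤ, (s = 1 ∨ s = -1) →
    (t = 1 ∨ t = -1) → c + s • e i + t • e j ∈ A →
    a c (c + s • e i) + a (c + s • e i) (c + s • e i + t • e j) =
      a c (c + t • e j) + a (c + t • e j) (c + s • e i + t • e j)

/-- Symmetric local system. -/
def SymA (a : Cell → Cell → ZMod 3) : Prop := ∀ c c', a (-c) (-c') = a c c'

/-- Monodromy around the cell `q` in the plane of the (even) coordinates `i`, `j`. -/
def mono (a : Cell → Cell → ZMod 3) (q : Cell) (i j : Fin 4) : ZMod 3 :=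
  (a (q + e i + e j) (q + e i) - a (q + e i - e j) (q + e i)) +
  (a (q + e i - e j) (q - e j) - a (q - e i - e j) (q - e j)) +
  (a (q - e i - e j) (q - e i) - a (q - e i + e j) (q - e i)) +
  (a (q - e i + e j) (q + e j) - a (q + e i + e j) (q + e j))

/-- The open coarse cell `car m y` which contains the open fine cell `y`, if the coarse cells are
the `m`-fold dilations of the cells. -/
def car (m : ℕ) (y : Cell) : Cell := fun i =>
  if (2 * m : ℤ) ∣ y i then y i / m else 2 * (y i / (2 * m)) + 1

/-- The cells of the `m`-fold dilation of the set `A` of cells of `Box n`. -/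
noncomputable def fine (m : ℕ) (n : Fin 4 → ℕ) (A : Finset Cell) : Finset Cell :=
  (Box (fun i => m * n i)).filter (fun y => car m y ∈ A)

/-- The local system on the fine cells induced by the one on the coarse cells. -/
def suba (m : ℕ) (a : Cell → Cell → ZMod 3) (y y' : Cell) : ZMod 3 :=
  if car m y = car m y' then 0 else a (car m y) (car m y')

/-- For `m = 2`, the fine cells correspond to the pairs `s ≤ t` of coarse cells: `y = s + t`,
`t = car 2 y`, `s = low y`. -/
def low (y : Cell) : Cell := fun i =>
  if y i % 2 = 0 then y i / 2 else if ((y i - 1) / 2) % 2 = 0 then (y i - 1) / 2 else (y i + 1) / 2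

/-- The cells of the box which are not in the boundary. -/
noncomputable def inn (n : Fin 4 → ℕ) : Finset Cell := Box n \ bd n

/-- An invariant properly embedded disc in the box, flat near the origin. -/
structure GoodDisc (n : Fin 4 → ℕ) (F B : Finset Cell) : Prop where
  big : ∀ i, 2 ≤ n i
  bne : B.Nonempty
  surf : IsSurface F B
  conn : Connected F
  eul : euler F = 1
  symm : Sym F
  sub : F ⊆ Box n
  bdy : F ∩ bd n = B
  flat : ∀ c, Le 0 c → (c ∈ F ↔ c 2 = 0 ∧ c 3 = 0)

/-- A local system on the complement of `F` in the box, invariant under the antipode, with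
nontrivial monodromy around every square of `F`. -/
structure LocSys (n : Fin 4 → ℕ) (F : Finset Cell) (a : Cell → Cell → ZMod 3) : Prop where
  symm : SymA a
  flat : Flat a (Box n \ F)
  mono : ∀ q ∈ F, ∀ i j : Fin 4, i < j → q i % 2 = 0 → q j % 2 = 0 → dim q = 2 →
    mono a q i j ≠ 0

/-- The coefficient ring: a discrete valuation ring with a primitive cube root of unity `ζ`,
an automorphism which inverts `ζ`, and with the property that the residue field is `F₄`. -/
structure Ring3 (R : Type) [CommRing R] (ζ : R) : Prop where
  dom : IsDomain R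
  pid : IsPrincipalIdealRing R
  root : ζ ^ 2 + ζ + 1 = 0
  unit : IsUnit (1 - ζ)
  conj : ∃ f : R ≃+* R, f ζ = ζ ^ 2
  len2 : ∀ u : R, IsUnit u → Module.length R (R ⧸ Ideal.span {2 * u}) = 1
  two : (2 : R) ≠ 0
  odd : ∀ x : R, IsUnit (1 + 2 * x)
  /-- torsion criterion: a complex with coefficients in `ℤ[ζ]` which becomes acyclic over `F₃`
  when `ζ` is replaced by `1` has torsion homology over `R` -/
  tors : ∀ (ι : Type) (_ : DecidableEq ι) (P : ι → ι → Polynomial ℤ) (B : Finset ι),
    IsCx (fun b b' => Polynomial.aeval ζ (P b b')) B →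
    Acy (fun b b' => (Polynomial.aeval (1 : ZMod 3) (P b b'))) B →
    FL (fun b b' => Polynomial.aeval ζ (P b b')) B

end Cub
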