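import Pool.Agent.H33.CB.Reidx
import Pool.Agent.H33.CB.Defs

/-!
# Module Quot (about 200 lines): antipodal pairs

`isCx_dq`: for `a, c ∈ B`: `∑_{b ∈ B} dq a b * dq b c = ∑_{b ∈ A} D a b * dq b c` (split `A` into `B` and
`-B`; `dq (-b) c = dq b c` by symmetry) `= ∑_{b ∈ A} D a b * D b c + ∑_{b ∈ A} D a b * D b (-c) = 0`.
`sec_change`: reindexing by `b ↦ b` or `-b` (`reidx` with `u = 1`).
`acy_dq`: `2` invertible: a cycle `x` on `B` gives the symmetric cycle `x̃` on `A`
(`x̃ (-b) = x̃ b = x b`); `x̃ = d y`, replace `y` by its symmetric part `(y + τ y)/2`, restrict to `B`.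
`dq_eq`: no arrows from `B` to `-B`: `dq D = D` on `B`.
-/

namespace Cub

variable {R : Type} [CommRing R] {ι : Type} [DecidableEq ι] [InvolutiveNeg ι]

/-- a sum over `A` is a sum over the pairs -/
private theorem Quot_sum {A B : Finset ι} (hA : Sym A) (hs : Sec A B) (f : ι → R) :
    ∑ a ∈ A, f a = ∑ b ∈ B, (f b + f (-b)) := by
  have h1 : A = B ∪ B.image (fun b => -b) := by
    ext a
    rw [Finset.mem_union, Finset.mem_image]
    constructor
    · intro ha
      rcases hs.all a ha with h | h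
      · exact Or.inl h
      · exact Or.inr ⟨-a, h, neg_neg a⟩
    · rintro (h | ⟨b, hb, rfl⟩)
      · exact hs.sub h
      · exact hA b (hs.sub hb)
  have h2 : Disjoint B (B.image (fun b => -b)) := by
    rw [Finset.disjoint_left]
    intro a ha h
    obtain ⟨b, hb, rfl⟩ := Finset.mem_image.1 h
    exact hs.one b hb ha
  rw [h1, Finset.sum_union h2, Finset.sum_image (fun a _ b _ h => neg_injective h),
    Finset.sum_add_distrib]

private theorem Quot_neg {D : ι → ι → R} (hD : SymM D) (a b : ι) : D (-a) b = D a (-b) := by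
  have h := hD a (-b)
  rwa [neg_neg] at h

private theorem Quot_dB (D : ι → ι → R) (B : Finset ι) (y : ι → R) (b : B) :
    dB D B (fun a => y a) b = ∑ a ∈ B, y a * D a b := by
  show ∑ a : B, y a * D a b = _
  rw [Finset.sum_coe_sort B (fun a => y a * D a b)]

private theorem Quot_ext {B : Finset ι} (x : B → R) : ∃ y : ι → R, (fun a : B => y a) = x := by
  refine ⟨fun a => if h : a ∈ B then x ⟨a, h⟩ else 0, ?_⟩
  funext a
  simp only [Finset.coe_mem, dif_pos]

theorem isCx_dq {D : ι → ι → R} {A B : Finset ι} (hA : Sym A) (hs : Sec A B) (hD : SymM D)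
    (hcx : IsCx D A) : IsCx (dq D) B := by
  intro a ha c hc
  have h1 : ∑ b ∈ B, dq D a b * dq D b c = ∑ b ∈ A, D a b * dq D b c := by
    rw [Quot_sum hA hs]
    refine Finset.sum_congr rfl fun b _ => ?_
    have h2 : dq D (-b) c = dq D b c := by
      unfold dq
      rw [Quot_neg hD, Quot_neg hD, neg_neg, add_comm]
    rw [h2]
    unfold dq
    ring
  rw [h1]
  have h3 := hcx a (hs.sub ha) c (hs.sub hc)
  have h4 := hcx a (hs.sub ha) (-c) (hA c (hs.sub hc))
  have h5 : ∑ b ∈ A, D a b * dq D b c =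
      ∑ b ∈ A, D a b * D b c + ∑ b ∈ A, D a b * D b (-c) := by
    rw [← Finset.sum_add_distrib]
    refine Finset.sum_congr rfl fun b _ => ?_
    unfold dq
    ring
  rw [h5, h3, h4, add_zero]

theorem dq_neg_left {D : ι → ι → R} (hD : SymM D) (a b : ι) : dq D (-a) b = dq D a b := by
  unfold dq
  rw [Quot_neg hD, Quot_neg hD, neg_neg, add_comm]

theorem dq_neg_right {D : ι → ι → R} (a b : ι) : dq D a (-b) = dq D a b := by
  unfold dq
  rw [neg_neg, add_comm]

theorem sec_change {D : ι → ι → R} {A B B' : Finset ι} (hA : Sym A) (hs : Sec A B)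
    (hs' : Sec A B') (hD : SymM D) :
    (Acy (dq D) B ↔ Acy (dq D) B') ∧
      Module.length R (Hm (dq D) B) = Module.length R (Hm (dq D) B') := by
  have hg : ∀ b : ι, (if b ∈ B' then b else -b) = b ∨ (if b ∈ B' then b else -b) = -b := by
    intro b
    by_cases h : b ∈ B'
    · exact Or.inl (if_pos h)
    · exact Or.inr (if_neg h)
  refine reidx (fun b => if b ∈ B' then b else -b) (fun _ => 1) (fun _ _ => isUnit_one) ?_ ?_ ?_
  · intro a ha b hb hab
    rcases hg a with h1 | h1 <;> rcases hg b with h2 | h2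
    · rw [h1, h2] at hab
      exact hab
    · rw [h1, h2] at hab
      exact absurd (hab ▸ ha) (hs.one b hb)
    · rw [h1, h2] at hab
      exact absurd (hab ▸ hb) (hs.one a ha)
    · rw [h1, h2] at hab
      exact neg_injective hab
  · ext b
    rw [Finset.mem_image]
    constructor
    · rintro ⟨a, ha, rfl⟩
      by_cases h : a ∈ B'
      · rw [if_pos h]
        exact h
      · rw [if_neg h]
        exact (hs'.all a (hs.sub ha)).resolve_left h
    · intro hb
      rcases hs.all b (hs'.sub hb) with h | h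
      · exact ⟨b, h, if_pos hb⟩
      · refine ⟨-b, h, ?_⟩
        rw [if_neg (hs'.one b hb), neg_neg]
  · intro a _ b _
    simp only [one_mul, mul_one]
    rcases hg a with h1 | h1 <;> rcases hg b with h2 | h2
    · rw [h1, h2]
    · rw [h1, h2, dq_neg_right]
    · rw [h1, h2, dq_neg_left hD]
    · rw [h1, h2, dq_neg_left hD, dq_neg_right]

theorem acy_dq {D : ι → ι → R} {A B : Finset ι} (hA : Sym A) (hs : Sec A B) (hD : SymM D)
    (h2 : IsUnit (2 : R)) (h : Acy D A) : Acy (dq D) B := by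
  intro x hx
  obtain ⟨X, rfl⟩ := Quot_ext x
  have hX : ∀ b ∈ B, ∑ a ∈ B, X a * dq D a b = 0 := by
    intro b hb
    have := congrFun hx ⟨b, hb⟩
    rw [Quot_dB] at this
    exact this
  -- the symmetric extension
  set Z : ι → R := fun a => if a ∈ B then X a else X (-a) with hZ
  have hZ1 : ∀ a ∈ B, Z a = X a := fun a ha => if_pos ha
  have hZ2 : ∀ a ∈ B, Z (-a) = X a := by
    intro a ha
    rw [hZ]
    simp only
    rw [if_neg (hs.one a ha), neg_neg]
  have hZs : ∀ a ∈ A, Z (-a) = Z a := by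
    intro a ha
    rcases hs.all a ha with h' | h'
    · rw [hZ1 a h', hZ2 a h']
    · have := hZ2 (-a) h'
      rw [neg_neg] at this
      rw [this, hZ1 _ h']
  have hsum : ∀ b, ∑ a ∈ A, Z a * D a b = ∑ a ∈ B, X a * dq D a b := by
    intro b
    rw [Quot_sum hA hs]
    refine Finset.sum_congr rfl fun a ha => ?_
    rw [hZ1 a ha, hZ2 a ha, Quot_neg hD]
    unfold dq
    ring
  have hcyc : dB D A (fun a => Z a) = 0 := by
    funext b
    rw [Quot_dB, hsum, Pi.zero_apply]
    rcases hs.all b b.2 with h' | h'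
    · exact hX b h'
    · rw [← hX _ h']
      refine Finset.sum_congr rfl fun a _ => ?_
      rw [dq_neg_right]
  obtain ⟨y, hy⟩ := h _ hcyc
  obtain ⟨Y, rfl⟩ := Quot_ext y
  have hY : ∀ b ∈ A, ∑ a ∈ A, Y a * D a b = Z b := by
    intro b hb
    have := congrFun hy ⟨b, hb⟩
    rw [Quot_dB] at this
    exact this
  have hYn : ∀ b ∈ A, ∑ a ∈ A, Y (-a) * D a b = Z b := by
    intro b hb
    have h3 : ∑ a ∈ A, Y (-a) * D a b = ∑ a ∈ A, Y a * D a (-b) := by
      refine Finset.sum_nbij' (fun a => -a) (fun a => -a) (fun a ha => hA a ha)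
        (fun a ha => hA a ha) (fun a _ => neg_neg a) (fun a _ => neg_neg a) ?_
      intro a _
      rw [← Quot_neg hD, neg_neg]
    rw [h3, hY _ (hA b hb), hZs b hb]
  obtain ⟨c, hc⟩ := h2.exists_right_inv
  refine ⟨fun a => c * (Y a + Y (-(a : ι))), ?_⟩
  funext b
  have h4 := Quot_dB (dq D) B (fun a => c * (Y a + Y (-a))) b
  refine h4.trans ?_
  have h5 : ∑ a ∈ B, c * (Y a + Y (-a)) * dq D a b =
      c * ∑ a ∈ A, (Y a + Y (-a)) * D a b := by
    rw [Quot_sum hA hs, Finset.mul_sum]
    refine Finset.sum_congr rfl fun a _ => ?_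
    rw [Quot_neg hD, neg_neg]
    unfold dq
    ring
  rw [h5]
  have h6 : ∑ a ∈ A, (Y a + Y (-a)) * D a b = 2 * Z b := by
    have h7 : ∑ a ∈ A, (Y a + Y (-a)) * D a b =
        ∑ a ∈ A, Y a * D a b + ∑ a ∈ A, Y (-a) * D a b := by
      rw [← Finset.sum_add_distrib]
      refine Finset.sum_congr rfl fun a _ => ?_
      ring
    rw [h7, hY _ (hs.sub b.2), hYn _ (hs.sub b.2)]
    ring
  rw [h6, hZ1 _ b.2, ← mul_assoc, mul_comm c 2, hc, one_mul]

theorem sec_pos {A : Finset Cell} (hA : Sym A) (h0 : (0 : Cell) ∉ A) : Sec A (pos A) := by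
  refine ⟨Finset.filter_subset _ _, ?_, ?_⟩
  · intro b hb hb'
    obtain ⟨i, hi, hi'⟩ := (Finset.mem_filter.1 hb).2
    obtain ⟨j, hj, hj'⟩ := (Finset.mem_filter.1 hb').2
    rcases lt_trichotomy i j with h | h | h
    · have h1 : -(b i) = 0 := hj' i h
      omega
    · subst h
      have h1 : 0 < -(b i) := hj
      omega
    · have h1 : b j = 0 := hi' j h
      have h2 : 0 < -(b j) := hj
      omega
  · intro a ha
    by_contra hno
    rw [not_or] at hno
    have h1 : ¬ Pos a := fun h => hno.1 (Finset.mem_filter.2 ⟨ha, h⟩)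
    have h2 : ¬ Pos (-a) := fun h => hno.2 (Finset.mem_filter.2 ⟨hA a ha, h⟩)
    have h3 : ∀ i, a i = 0 := by
      intro i
      induction i using WellFoundedLT.induction with
      | ind i ih =>
        rcases lt_trichotomy (a i) 0 with h | h | h
        · refine absurd ⟨i, ?_, ?_⟩ h2
          · show 0 < -(a i)
            omega
          · intro j hj
            show -(a j) = 0
            rw [ih j hj, neg_zero]
        · exact h
        · exact absurd ⟨i, h, ih⟩ h1
    exact h0 ((funext h3 : a = 0) ▸ ha)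

end Cub
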