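import Pool.Agent.H33.CB.FProp

/-!
# Module Orient: the orientation class of the disc modulo 3

Relative cycles: functions `w` on the squares of `F` with the cycle condition at the edges of `F` not
in `B`.  Count: `S` squares, `E°` edges not in `B`, `V°` vertices not in `B`; the numbers of edges and
vertices in `B` are equal (every vertex of `B` has exactly two edges of `B`, every edge of `B` has two
vertices, all in `B`), so `S - E° + V° = 1`.
`d₁ : k^(E°) → k^(V°)` is surjective (dually: a function on `V°`, extended by `0` to the vertices of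
`B`, which is constant (up to the alternating sign of the plus convention) along edges, is zero:
connectedness, `B` not empty); `d₁ d₂ = 0` so `rank d₂ ≤ dim ker d₁ = E° - V° = S - 1 < S`; so there is
a nonzero relative cycle `w`.  By `prop_w` it is nonzero at every square.
Symmetry: `w' q = w (-q)` is also a relative cycle; let `q₀ = (1,1,0,0)`; by `GoodDisc.flat` the four squares
`(±1, ±1, 0, 0)` are in `F`, and the cycle conditions at the edges `(1,0,0,0)`, `(0,-1,0,0)` give
`w (1,-1,0,0) = - w (1,1,0,0)`, `w (-1,-1,0,0) = w (1,1,0,0)`.  So `w' - w` vanishes at `q₀`, hence everywhere.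
Extend `w` by zero outside the squares of `F`.
-/

namespace Cub

namespace Ori

/-! ### Linear algebra -/

section lin

variable {k : Type} [Field k]

/-- The linear map of a matrix. -/
def mm (A B : Finset Cell) (M : Cell → Cell → k) : (A → k) →ₗ[k] (B → k) where
  toFun x := fun b => ∑ a : A, x a * M a b
  map_add' x y := by funext b; simp [add_mul, Finset.sum_add_distrib]
  map_smul' r x := by funext b; simp [Finset.mul_sum, mul_assoc]

theorem mm_apply (A B : Finset Cell) (M : Cell → Cell → k) (x : A → k) (b : B) :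
    mm A B M x b = ∑ a : A, x a * M a b := rfl

theorem exists_ker (A B C : Finset Cell) (M : Cell → Cell → k)
    (h0 : ∀ a ∈ A, ∀ c ∈ C, ∑ b ∈ B, M a b * M b c = 0)
    (hs : ∀ g : Cell → k, (∀ b ∈ B, ∑ c ∈ C, g c * M b c = 0) → ∀ c ∈ C, g c = 0)
    (hc : B.card < A.card + C.card) :
    ∃ w : Cell → k, (∃ a ∈ A, w a ≠ 0) ∧ (∀ a, a ∉ A → w a = 0) ∧
      ∀ b ∈ B, ∑ a ∈ A, w a * M a b = 0 := by
  classical
  -- surjectivity
  have hsurj : LinearMap.range (mm B C M) = ⊤ := by
    by_contra hne
    obtain ⟨f, hf0, hf⟩ := Submodule.exists_le_ker_of_lt_top _ (lt_top_iff_ne_top.2 hne)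
    apply hf0
    set g : Cell → k := fun c => if h : c ∈ C then f (Pi.single ⟨c, h⟩ 1) else 0 with hg
    have hfx : ∀ x : C → k, f x = ∑ c : C, g c * x c := by
      intro x
      have hx : x = ∑ c : C, x c • Pi.single (M := fun _ : C => k) c (1 : k) := by
        funext d
        simp [Finset.sum_apply, Pi.single_apply]
      conv_lhs => rw [hx]
      rw [map_sum]
      refine Finset.sum_congr rfl (fun c _ => ?_)
      rw [map_smul, smul_eq_mul, mul_comm]
      congr 1
      simp [hg]
    have hz : ∀ c ∈ C, g c = 0 := by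
      apply hs
      intro b hb
      have h1 : f (mm B C M (Pi.single ⟨b, hb⟩ 1)) = 0 :=
        hf (LinearMap.mem_range_self _ _)
      rw [hfx] at h1
      rw [← Finset.sum_coe_sort C (fun c => g c * M b c), ← h1]
      refine Finset.sum_congr rfl (fun c _ => ?_)
      congr 1
      rw [mm_apply]
      simp [Pi.single_apply]
    apply LinearMap.ext
    intro x
    rw [hfx]
    apply Finset.sum_eq_zero
    intro c _
    rw [hz c.1 c.2, zero_mul]
  have hcomp : LinearMap.range (mm A B M) ≤ LinearMap.ker (mm B C M) := by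
    rintro _ ⟨x, rfl⟩
    rw [LinearMap.mem_ker]
    funext c
    rw [mm_apply]
    simp only [mm_apply, Finset.sum_mul, Pi.zero_apply]
    rw [Finset.sum_comm]
    apply Finset.sum_eq_zero
    intro a _
    have := h0 a.1 a.2 c.1 c.2
    rw [← Finset.sum_coe_sort B (fun b => M a b * M b c)] at this
    calc ∑ b : B, x a * M a b * M b c = x a * ∑ b : B, M a b * M b c := by
          rw [Finset.mul_sum]
          exact Finset.sum_congr rfl (fun b _ => mul_assoc _ _ _)
      _ = 0 := by rw [this, mul_zero]
  have e1 := LinearMap.finrank_range_add_finrank_ker (mm A B M)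
  have e2 := LinearMap.finrank_range_add_finrank_ker (mm B C M)
  have e3 := Submodule.finrank_mono hcomp
  rw [hsurj, finrank_top] at e2
  simp only [Module.finrank_fintype_fun_eq_card, Fintype.card_coe] at e1 e2
  have hpos : 0 < Module.finrank k (LinearMap.ker (mm A B M)) := by omega
  have hnt : Nontrivial (LinearMap.ker (mm A B M)) := Module.finrank_pos_iff.1 hpos
  obtain ⟨⟨x, hx⟩, hx0⟩ := exists_ne (0 : LinearMap.ker (mm A B M))
  have hx0' : x ≠ 0 := fun h => hx0 (Subtype.ext h)
  rw [LinearMap.mem_ker] at hx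
  refine ⟨fun c => if h : c ∈ A then x ⟨c, h⟩ else 0, ?_, ?_, ?_⟩
  · by_contra hcon
    push Not at hcon
    apply hx0'
    funext a
    have := hcon a.1 a.2
    simpa using this
  · intro a ha
    simp [ha]
  · intro b hb
    have := congrFun hx ⟨b, hb⟩
    rw [mm_apply] at this
    rw [← Finset.sum_coe_sort A (fun a => (if h : a ∈ A then x ⟨a, h⟩ else 0) * M a b)]
    rw [← Pi.zero_apply (M := fun _ : B => k) (⟨b, hb⟩ : B), ← this]
    refine Finset.sum_congr rfl (fun a _ => ?_)
    simp

end lin

/-! ### Cells -/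

theorem dim_eq_zero {c : Cell} : dim c = 0 ↔ ∀ i, c i % 2 = 0 := by
  unfold dim
  rw [Finset.card_eq_zero, Finset.filter_eq_empty_iff]
  constructor
  · intro h i
    have := h (Finset.mem_univ i)
    omega
  · intro h i _
    have := h i
    omega

theorem dim_eq_one {c : Cell} : dim c = 1 ↔ ∃ i, c i % 2 = 1 ∧ ∀ j, j ≠ i → c j % 2 = 0 := by
  unfold dim
  rw [Finset.card_eq_one]
  constructor
  · rintro ⟨i, hi⟩
    refine ⟨i, ?_, ?_⟩
    · have : i ∈ Finset.univ.filter (fun i => c i % 2 = 1) := by rw [hi]; simp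
      simpa using this
    · intro j hj
      have : j ∉ Finset.univ.filter (fun i => c i % 2 = 1) := by rw [hi]; simpa using hj
      simp at this
      omega
  · rintro ⟨i, hi, h⟩
    refine ⟨i, ?_⟩
    ext j
    simp only [Finset.mem_filter, Finset.mem_univ, true_and, Finset.mem_singleton]
    constructor
    · intro hj
      by_contra hne
      have := h j hne
      omega
    · rintro rfl; exact hi

theorem le_rfl' (c : Cell) : Le c c := fun _ => Or.inl rfl

/-- Every cell has a vertex. -/
theorem exists_vert (c : Cell) : ∃ v, dim v = 0 ∧ Le v c := by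
  refine ⟨fun i => if c i % 2 = 1 then c i + 1 else c i, ?_, ?_⟩
  · rw [dim_eq_zero]
    intro i
    split_ifs with h <;> omega
  · intro i
    by_cases h : c i % 2 = 1
    · right; refine ⟨h, Or.inr ?_⟩; simp [h]
    · left; simp [h]

theorem edge_verts {c v : Cell} {i : Fin 4} (hi : c i % 2 = 1) (h : ∀ j, j ≠ i → c j % 2 = 0) :
    (Le v c ∧ dim v = 0) ↔ (v = c + e i ∨ v = c - e i) := by
  rw [dim_eq_zero]
  constructor
  · rintro ⟨hl, hv⟩
    have hj : ∀ j, j ≠ i → v j = c j := by
      intro j hj
      rcases hl j with h1 | ⟨h1, _⟩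
      · exact h1
      · have := h j hj; omega
    rcases hl i with h1 | ⟨_, h1 | h1⟩
    · have := hv i; omega
    · right
      funext j
      by_cases hji : j = i
      · subst hji; simp [e]; omega
      · simp [e, hji, hj j hji]
    · left
      funext j
      by_cases hji : j = i
      · subst hji; simp [e]; omega
      · simp [e, hji, hj j hji]
  · rintro (rfl | rfl)
    · refine ⟨fun j => ?_, fun j => ?_⟩
      · by_cases hji : j = i
        · subst hji; right; refine ⟨hi, Or.inr ?_⟩; simp [e]
        · left; simp [e, hji]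
      · by_cases hji : j = i
        · subst hji; simp [e]; omega
        · have := h j hji; simp [e, hji]; omega
    · refine ⟨fun j => ?_, fun j => ?_⟩
      · by_cases hji : j = i
        · subst hji; right; refine ⟨hi, Or.inl ?_⟩; simp [e]
        · left; simp [e, hji]
      · by_cases hji : j = i
        · subst hji; simp [e]; omega
        · have := h j hji; simp [e, hji]; omega

theorem sgn_edge {c : Cell} {i : Fin 4} (h : ∀ j, j ≠ i → c j % 2 = 0) : sgn i c = 1 := by
  unfold sgn
  rw [Finset.card_eq_zero.2, pow_zero]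
  rw [Finset.filter_eq_empty_iff]
  rintro j _ ⟨hj, hj'⟩
  have := h j (ne_of_lt hj)
  omega

theorem add_ne_sub (c : Cell) (i : Fin 4) : c + e i ≠ c - e i := by
  intro h
  have := congrFun h i
  simp [e] at this
  omega

/-! ### The surface -/

section surf

variable {F B : Finset Cell}

/-- The square cells of `F`. -/
def sq (F : Finset Cell) : Finset Cell := F.filter (fun q => dim q = 2)

/-- The edges of `F` outside `B`. -/
def ed (F B : Finset Cell) : Finset Cell := F.filter (fun q => dim q = 1 ∧ q ∉ B)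

/-- The vertices of `F` outside `B`. -/
def ve (F B : Finset Cell) : Finset Cell := F.filter (fun q => dim q = 0 ∧ q ∉ B)

theorem dim_add_dir {v d : Cell} (hd : IsDir d) : dim (v + d) ≤ dim v + 1 := by
  obtain ⟨i, hi⟩ := hd
  unfold dim
  have : Finset.univ.filter (fun j => (v + d) j % 2 = 1) ⊆
      insert i (Finset.univ.filter (fun j => v j % 2 = 1)) := by
    intro j hj
    simp only [Finset.mem_filter, Finset.mem_univ, true_and, Finset.mem_insert, Pi.add_apply] at hj ⊢
    by_cases hji : j = i
    · exact Or.inl hji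
    · right
      rcases hi with rfl | rfl <;> simpa [hji] using hj
  exact (Finset.card_le_card this).trans (Finset.card_insert_le _ _)

theorem dim_le_two (hF : IsSurface F B) {c : Cell} (hc : c ∈ F) : dim c ≤ 2 := by
  obtain ⟨v, hv0, hvc⟩ := exists_vert c
  have hv : v ∈ F := hF.cx c hc v hvc
  have key : ∀ l l' : List Cell, (∀ d ∈ l, IsDir d) → (∀ p ∈ l.zip l', p.1 ∈ l ∧ p.2 ∈ l) →
      (c = v ∨ (∃ d ∈ l, c = v + d) ∨ ∃ p ∈ l.zip l', c = v + p.1 + p.2) → dim c ≤ 2 := by
    rintro l l' hl hp (rfl | ⟨d, hd, rfl⟩ | ⟨p, hpp, rfl⟩)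
    · omega
    · have := dim_add_dir (v := v) (hl d hd); omega
    · have h1 := dim_add_dir (v := v) (hl _ (hp p hpp).1)
      have h2 := dim_add_dir (v := v + p.1) (hl _ (hp p hpp).2)
      omega
  by_cases hB : v ∈ B
  · obtain ⟨l, hl, -⟩ := hF.outer v hB hv0
    refine key l l.tail hl.2.2.1 ?_ ((hl.2.2.2.2 c).1 ⟨hc, hvc⟩)
    rintro ⟨a, b⟩ hp
    have := List.of_mem_zip hp
    exact ⟨this.1, List.mem_of_mem_tail this.2⟩
  · obtain ⟨l, hl⟩ := hF.inner v hv hv0 hB
    refine key l (l.rotate 1) hl.2.2.1 ?_ ((hl.2.2.2.2 c).1 ⟨hc, hvc⟩)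
    rintro ⟨a, b⟩ hp
    have := List.of_mem_zip hp
    exact ⟨this.1, List.mem_rotate.1 this.2⟩

/-- An edge of `F` at an even vertex. -/
theorem edge_at {v c : Cell} (hv : dim v = 0) :
    (Le v c ∧ dim c = 1) ↔ ∃ d, IsDir d ∧ c = v + d := by
  rw [dim_eq_zero] at hv
  constructor
  · rintro ⟨hl, h1⟩
    obtain ⟨i, hi, h⟩ := dim_eq_one.1 h1
    have hj : ∀ j, j ≠ i → v j = c j := by
      intro j hj
      rcases hl j with h1 | ⟨h1, _⟩
      · exact h1
      · have := h j hj; omega
    rcases hl i with h1 | ⟨_, h1 | h1⟩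
    · have := hv i; omega
    · refine ⟨Pi.single i 1, ⟨i, Or.inl rfl⟩, ?_⟩
      funext j
      by_cases hji : j = i
      · subst hji; simp; omega
      · simp [hji, hj j hji]
    · refine ⟨Pi.single i (-1), ⟨i, Or.inr rfl⟩, ?_⟩
      funext j
      by_cases hji : j = i
      · subst hji; simp; omega
      · simp [hji, hj j hji]
  · rintro ⟨d, ⟨i, rfl | rfl⟩, rfl⟩
    · refine ⟨fun j => ?_, dim_eq_one.2 ⟨i, ?_, ?_⟩⟩
      · by_cases hji : j = i
        · subst hji; right; have := hv j; simp; omega
        · left; simp [hji]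
      · have := hv i; simp; omega
      · intro j hji; simp [hji, hv j]
    · refine ⟨fun j => ?_, dim_eq_one.2 ⟨i, ?_, ?_⟩⟩
      · by_cases hji : j = i
        · subst hji; right; have := hv j; simp; omega
        · left; simp [hji]
      · have := hv i; simp; omega
      · intro j hji; simp [hji, hv j]

theorem head_last {l : List Cell} (h2 : 2 ≤ l.length) (hn : l.Nodup) :
    ∃ a b, a ≠ b ∧ a ∈ l ∧ b ∈ l ∧ l.head? = some a ∧ l.getLast? = some b := by
  match l, h2, hn with
  | a :: b :: t, _, hn =>
    refine ⟨a, (b :: t).getLast (by simp), ?_, by simp, ?_, by simp, ?_⟩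
    · rintro h
      rw [List.nodup_cons] at hn
      apply hn.1
      nth_rewrite 1 [h]
      exact List.getLast_mem _
    · exact List.mem_cons_of_mem _ (List.getLast_mem _)
    · rw [List.getLast?_cons_cons, List.getLast?_eq_some_getLast]

/-- The graph `B` has as many edges as vertices. -/
theorem card_B (hF : IsSurface F B) :
    (B.filter (fun c => dim c = 0)).card = (B.filter (fun c => dim c = 1)).card := by
  classical
  have := Finset.card_mul_eq_card_mul (s := B.filter (fun c => dim c = 0))
    (t := B.filter (fun c => dim c = 1)) (fun v c => Le v c) (m := 2) (n := 2) ?_ ?_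
  · omega
  · intro v hv
    rw [Finset.mem_filter] at hv
    obtain ⟨l, hl, hlB⟩ := hF.outer v hv.1 hv.2
    obtain ⟨a, b, hab, hal, hbl, ha, hb⟩ := head_last hl.1 hl.2.1
    rw [Finset.card_eq_two]
    refine ⟨v + a, v + b, fun h => hab (add_left_cancel h), ?_⟩
    ext c
    rw [Finset.bipartiteAbove, Finset.mem_filter, Finset.mem_filter, Finset.mem_insert,
      Finset.mem_singleton]
    constructor
    · rintro ⟨⟨hc, hc1⟩, hvc⟩
      obtain ⟨d, hd, rfl⟩ := (edge_at hv.2).1 ⟨hvc, hc1⟩
      rcases (hlB d).1 ⟨hd, hc⟩ with h | h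
      · rw [ha] at h; left; rw [Option.some.inj h]
      · rw [hb] at h; right; rw [Option.some.inj h]
    · rintro (rfl | rfl)
      · have h1 := (hlB a).2 (Or.inl ha)
        have h2 := (edge_at hv.2).2 ⟨a, h1.1, rfl⟩
        exact ⟨⟨h1.2, h2.2⟩, h2.1⟩
      · have h1 := (hlB b).2 (Or.inr hb)
        have h2 := (edge_at hv.2).2 ⟨b, h1.1, rfl⟩
        exact ⟨⟨h1.2, h2.2⟩, h2.1⟩
  · intro c hc
    rw [Finset.mem_filter] at hc
    obtain ⟨i, hi, h⟩ := dim_eq_one.1 hc.2
    rw [Finset.card_eq_two]
    refine ⟨c + e i, c - e i, add_ne_sub c i, ?_⟩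
    ext v
    rw [Finset.bipartiteBelow, Finset.mem_filter, Finset.mem_filter, Finset.mem_insert,
      Finset.mem_singleton, ← edge_verts hi h]
    constructor
    · rintro ⟨⟨_, h1⟩, h2⟩; exact ⟨h2, h1⟩
    · rintro ⟨h1, h2⟩; exact ⟨⟨hF.bcx c hc.1 v h1, h2⟩, h1⟩

/-- The Euler characteristic relative to the boundary. -/
theorem euler_rel (hF : IsSurface F B) :
    euler F = (sq F).card + (ve F B).card - (ed F B).card := by
  classical
  have hB0 : (B.filter (fun c => dim c = 0)) = F.filter (fun c => dim c = 0 ∧ c ∈ B) := by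
    ext c; simp only [Finset.mem_filter]
    exact ⟨fun h => ⟨hF.sub h.1, h.2, h.1⟩, fun h => ⟨h.2.2, h.2.1⟩⟩
  have hB1 : (B.filter (fun c => dim c = 1)) = F.filter (fun c => dim c = 1 ∧ c ∈ B) := by
    ext c; simp only [Finset.mem_filter]
    exact ⟨fun h => ⟨hF.sub h.1, h.2, h.1⟩, fun h => ⟨h.2.2, h.2.1⟩⟩
  have hB := card_B hF
  rw [hB0, hB1] at hB
  have hB' : ((F.filter (fun c => dim c = 0 ∧ c ∈ B)).card : ℤ) =
    (F.filter (fun c => dim c = 1 ∧ c ∈ B)).card := by exact_mod_cast hB
  have e1 : euler F = ∑ c ∈ F, ((if dim c = 2 then (1 : ℤ) else 0) +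
      (if dim c = 0 ∧ c ∉ B then 1 else 0) + (if dim c = 0 ∧ c ∈ B then 1 else 0) -
      (if dim c = 1 ∧ c ∉ B then 1 else 0) - (if dim c = 1 ∧ c ∈ B then 1 else 0)) := by
    unfold euler
    refine Finset.sum_congr rfl (fun c hc => ?_)
    have h2 := dim_le_two hF hc
    have h3 : dim c = 0 ∨ dim c = 1 ∨ dim c = 2 := by omega
    rcases h3 with h3 | h3 | h3 <;> by_cases h4 : c ∈ B <;> simp [h3, h4]
  rw [e1]
  simp only [Finset.sum_add_distrib, Finset.sum_sub_distrib, Finset.sum_boole]
  unfold sq ve ed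
  linarith

/-- A property of vertices passes along the edges of a cell. -/
theorem hybrid (P : Cell → Prop) (x v v' : Cell) (hv : dim v = 0) (hv' : dim v' = 0)
    (hvx : Le v x) (hvx' : Le v' x)
    (hP : ∀ c i, c i % 2 = 1 → (∀ j, j ≠ i → c j % 2 = 0) → Le c x →
      (P (c + e i) ↔ P (c - e i))) (h0 : P v) : P v' := by
  rw [dim_eq_zero] at hv hv'
  have key : ∀ k : ℕ, k ≤ 4 → P (fun i : Fin 4 => if (i : ℕ) < k then v' i else v i) := by
    intro k
    induction k with
    | zero => intro _; simpa using h0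
    | succ k ih =>
      intro hk
      have ih' := ih (by omega)
      let i₀ : Fin 4 := ⟨k, by omega⟩
      by_cases heq : v i₀ = v' i₀
      · have : (fun i : Fin 4 => if (i : ℕ) < k + 1 then v' i else v i) =
            (fun i : Fin 4 => if (i : ℕ) < k then v' i else v i) := by
          funext i
          by_cases h1 : (i : ℕ) < k
          · simp [h1, Nat.lt_succ_of_lt h1]
          · by_cases h2 : (i : ℕ) = k
            · have : i = i₀ := Fin.ext h2
              subst this
              simp [i₀] at heq ⊢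
              exact heq.symm
            · have h3 : ¬ (i : ℕ) < k + 1 := by omega
              simp [h1, h3]
        rw [this]; exact ih'
      · have hx : x i₀ % 2 = 1 := by
          rcases hvx i₀ with h1 | h1
          · rcases hvx' i₀ with h2 | h2
            · exact absurd (h1.trans h2.symm) heq
            · exact h2.1
          · exact h1.1
        have hA : (v i₀ = x i₀ - 1 ∧ v' i₀ = x i₀ + 1) ∨ (v i₀ = x i₀ + 1 ∧ v' i₀ = x i₀ - 1) := by
          rcases hvx i₀ with h1 | ⟨_, h1 | h1⟩
          · have := hv i₀; omega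
          · rcases hvx' i₀ with h2 | ⟨_, h2 | h2⟩
            · have := hv' i₀; omega
            · omega
            · omega
          · rcases hvx' i₀ with h2 | ⟨_, h2 | h2⟩
            · have := hv' i₀; omega
            · omega
            · omega
        set c : Cell := fun i : Fin 4 => if (i : ℕ) < k then v' i else if (i : ℕ) = k then x i
          else v i with hc
        have hci : c i₀ % 2 = 1 := by simp [hc, i₀]; exact hx
        have hcj : ∀ j, j ≠ i₀ → c j % 2 = 0 := by
          intro j hj
          have : (j : ℕ) ≠ k := fun h => hj (Fin.ext h)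
          simp only [hc, this, if_false]
          split_ifs
          · exact hv' j
          · exact hv j
        have hcx : Le c x := by
          intro j
          by_cases h1 : (j : ℕ) < k
          · have : c j = v' j := by simp [hc, h1]
            rw [this]; exact hvx' j
          · by_cases h2 : (j : ℕ) = k
            · left; simp [hc, h2]
            · have : c j = v j := by simp [hc, h1, h2]
              rw [this]; exact hvx j
        have hh := hP c i₀ hci hcj hcx
        have hval : ∀ j, c j = if (j : ℕ) < k then v' j else if (j : ℕ) = k then x j else v j :=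
          fun j => rfl
        rcases hA with ⟨h1, h2⟩ | ⟨h1, h2⟩
        · have e1 : (fun i : Fin 4 => if (i : ℕ) < k then v' i else v i) = c - e i₀ := by
            funext j
            rw [Pi.sub_apply, hval]
            by_cases h3 : (j : ℕ) < k
            · have : j ≠ i₀ := by rintro rfl; simp [i₀] at h3
              simp [h3, e, this]
            · by_cases h4 : (j : ℕ) = k
              · have : j = i₀ := Fin.ext h4
                subst this
                simp [e, i₀] at h1 ⊢
                exact h1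
              · have : j ≠ i₀ := fun h => h4 (by rw [h])
                simp [h3, h4, e, this]
          have e2 : (fun i : Fin 4 => if (i : ℕ) < k + 1 then v' i else v i) = c + e i₀ := by
            funext j
            rw [Pi.add_apply, hval]
            by_cases h3 : (j : ℕ) < k
            · have : j ≠ i₀ := by rintro rfl; simp [i₀] at h3
              simp [h3, Nat.lt_succ_of_lt h3, e, this]
            · by_cases h4 : (j : ℕ) = k
              · have : j = i₀ := Fin.ext h4
                subst this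
                simp [e, i₀] at h2 ⊢
                exact h2
              · have : j ≠ i₀ := fun h => h4 (by rw [h])
                have h5 : ¬ (j : ℕ) < k + 1 := by omega
                simp [h3, h4, h5, e, this]
          rw [e2, hh, ← e1]; exact ih'
        · have e1 : (fun i : Fin 4 => if (i : ℕ) < k then v' i else v i) = c + e i₀ := by
            funext j
            rw [Pi.add_apply, hval]
            by_cases h3 : (j : ℕ) < k
            · have : j ≠ i₀ := by rintro rfl; simp [i₀] at h3
              simp [h3, e, this]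
            · by_cases h4 : (j : ℕ) = k
              · have : j = i₀ := Fin.ext h4
                subst this
                simp [e, i₀] at h1 ⊢
                exact h1
              · have : j ≠ i₀ := fun h => h4 (by rw [h])
                simp [h3, h4, e, this]
          have e2 : (fun i : Fin 4 => if (i : ℕ) < k + 1 then v' i else v i) = c - e i₀ := by
            funext j
            rw [Pi.sub_apply, hval]
            by_cases h3 : (j : ℕ) < k
            · have : j ≠ i₀ := by rintro rfl; simp [i₀] at h3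
              simp [h3, Nat.lt_succ_of_lt h3, e, this]
            · by_cases h4 : (j : ℕ) = k
              · have : j = i₀ := Fin.ext h4
                subst this
                simp [e, i₀] at h2 ⊢
                exact h2
              · have : j ≠ i₀ := fun h => h4 (by rw [h])
                have h5 : ¬ (j : ℕ) < k + 1 := by omega
                simp [h3, h4, h5, e, this]
          rw [e2, ← hh, ← e1]; exact ih'
  have := key 4 le_rfl
  have h4 : (fun i : Fin 4 => if (i : ℕ) < 4 then v' i else v i) = v' := by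
    funext i; simp
  rwa [h4] at this

/-- Coboundary of a vertex function at an edge. -/
theorem edge_sum {c : Cell} {i : Fin 4} (hi : c i % 2 = 1) (h : ∀ j, j ≠ i → c j % 2 = 0)
    (A : Finset Cell) (g : Cell → ZMod 3) (hA : ∀ v, v ∉ A → g v = 0) :
    ∑ v ∈ A, g v * (inc c v : ZMod 3) = g (c + e i) + g (c - e i) := by
  rw [Finset.sum_eq_add (c + e i) (c - e i) (add_ne_sub c i)]
  · rw [inc_add hi, inc_sub hi, sgn_edge h]; simp
  · rintro v _ ⟨h1, h2⟩
    have : inc c v = 0 := by
      by_contra hne
      obtain ⟨j, hj, hj'⟩ := inc_ne.1 hne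
      have : j = i := by
        by_contra hji
        have := h j hji
        omega
      subst this
      rcases hj' with h3 | h3
      · exact h1 h3
      · exact h2 h3
    rw [this]; simp
  · intro h1; rw [hA _ h1, zero_mul]
  · intro h1; rw [hA _ h1, zero_mul]

theorem le_trans' {a b c : Cell} (h1 : Le a b) (h2 : Le b c) : Le a c := by
  intro i
  rcases h1 i with h | ⟨h, h'⟩
  · rcases h2 i with k | ⟨k, k'⟩
    · left; omega
    · right; omega
  · rcases h2 i with k | ⟨k, k'⟩
    · right; omega
    · right; omega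

/-- A vertex function orthogonal to the boundaries of the edges is zero. -/
theorem dual_inj (hF : IsSurface F B) (hconn : Connected F) (hB : B.Nonempty)
    (g : Cell → ZMod 3)
    (hg : ∀ c ∈ ed F B, ∑ v ∈ ve F B, g v * (inc c v : ZMod 3) = 0) :
    ∀ v ∈ ve F B, g v = 0 := by
  classical
  set g' : Cell → ZMod 3 := fun v => if v ∈ ve F B then g v else 0 with hg'
  have hg0 : ∀ v, v ∉ ve F B → g' v = 0 := fun v hv => by simp [hg', hv]
  have hedge : ∀ c ∈ F, ∀ i, c i % 2 = 1 → (∀ j, j ≠ i → c j % 2 = 0) →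
      g' (c + e i) + g' (c - e i) = 0 := by
    intro c hc i hi h
    by_cases hcB : c ∈ B
    · have h1 : c + e i ∈ B := hF.bcx c hcB _ ((edge_verts hi h).2 (Or.inl rfl)).1
      have h2 : c - e i ∈ B := hF.bcx c hcB _ ((edge_verts hi h).2 (Or.inr rfl)).1
      rw [hg0, hg0, add_zero]
      · intro h3; exact (Finset.mem_filter.1 h3).2.2 h2
      · intro h3; exact (Finset.mem_filter.1 h3).2.2 h1
    · rw [← edge_sum hi h (ve F B) g' hg0]
      rw [← hg c (Finset.mem_filter.2 ⟨hc, dim_eq_one.2 ⟨i, hi, h⟩, hcB⟩)]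
      refine Finset.sum_congr rfl (fun v hv => ?_)
      simp [hg', hv]
  have hcell : ∀ x ∈ F, ∀ v v', dim v = 0 → dim v' = 0 → Le v x → Le v' x → g' v = 0 →
      g' v' = 0 := by
    intro x hx v v' hv hv' hvx hvx' h0
    refine hybrid (fun v => g' v = 0) x v v' hv hv' hvx hvx' ?_ h0
    intro c i hi h hcx
    have := hedge c (hF.cx x hx c hcx) i hi h
    constructor
    · intro h1; rw [h1, zero_add] at this; exact this
    · intro h1; rw [h1, add_zero] at this; exact this
  have hstep : ∀ x ∈ F, (∃ v, dim v = 0 ∧ Le v x ∧ g' v = 0) →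
      ∀ v, dim v = 0 → Le v x → g' v = 0 := by
    rintro x hx ⟨v, h1, h2, h3⟩ v' h1' h2'
    exact hcell x hx v v' h1 h1' h2 h2' h3
  obtain ⟨b, hb⟩ := hB
  have hall : ∀ x, Relation.ReflTransGen (fun x y => x ∈ F ∧ y ∈ F ∧ (Le x y ∨ Le y x)) b x →
      x ∈ F ∧ ∀ v, dim v = 0 → Le v x → g' v = 0 := by
    intro x hx
    induction hx with
    | refl =>
      refine ⟨hF.sub hb, ?_⟩
      intro v _ hvb
      have : v ∈ B := hF.bcx b hb v hvb
      exact hg0 v (fun h3 => (Finset.mem_filter.1 h3).2.2 this)
    | tail _ h ih =>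
      rename_i y z _
      obtain ⟨hy, hz, hyz | hzy⟩ := h
      · refine ⟨hz, ?_⟩
        obtain ⟨v, hv, hvy⟩ := exists_vert y
        exact hstep z hz ⟨v, hv, le_trans' hvy hyz, ih.2 v hv hvy⟩
      · exact ⟨hz, fun v hv hvz => ih.2 v hv (le_trans' hvz hzy)⟩
  intro v hv
  have hv' := Finset.mem_filter.1 hv
  have := (hall v (hconn.2 b (hF.sub hb) v hv'.1)).2 v hv'.2.1 (le_rfl' v)
  simpa [hg', hv] using this

theorem comp_zero (hF : IsSurface F B) : ∀ a ∈ sq F, ∀ c ∈ ve F B,
    ∑ b ∈ ed F B, (inc a b : ZMod 3) * (inc b c : ZMod 3) = 0 := by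
  intro a ha c hc
  rw [sq, Finset.mem_filter] at ha
  rw [ve, Finset.mem_filter] at hc
  have hcx := isCx_dinc (R := ZMod 3) (conv_sdiff hF.cx hF.bcx)
  have haB : a ∉ B := fun h => by have := hF.bdim a h; omega
  have := hcx a (Finset.mem_sdiff.2 ⟨ha.1, haB⟩) c (Finset.mem_sdiff.2 ⟨hc.1, hc.2.2⟩)
  rw [← this]
  apply Finset.sum_subset
  · intro b hb
    rw [ed, Finset.mem_filter] at hb
    exact Finset.mem_sdiff.2 ⟨hb.1, hb.2.2⟩
  · intro b hb hb'
    rw [Finset.mem_sdiff] at hb
    have hd : dim b ≠ 1 := fun h => hb' (Finset.mem_filter.2 ⟨hb.1, h, hb.2⟩)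
    by_cases hne : inc a b = 0
    · rw [hne]; simp
    · have := (le_of_inc hne).2
      omega

/-- A nonzero relative cycle. -/
theorem exists_cycle (hF : IsSurface F B) (hconn : Connected F) (hB : B.Nonempty)
    (he : euler F = 1) :
    ∃ w : Cell → ZMod 3, (∀ q ∈ sq F, w q ≠ 0) ∧ (∀ q, q ∉ sq F → w q = 0) ∧
      ∀ c ∈ ed F B, ∑ q ∈ sq F, w q * (inc q c : ZMod 3) = 0 := by
  have hcard : (ed F B).card < (sq F).card + (ve F B).card := by
    have := euler_rel hF
    omega
  obtain ⟨w, ⟨a, ha, hwa⟩, hw0, hw⟩ := exists_ker (sq F) (ed F B) (ve F B)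
    (fun a b => (inc a b : ZMod 3)) (comp_zero hF) (dual_inj hF hconn hB) hcard
  refine ⟨w, ?_, hw0, hw⟩
  intro q hq hwq
  apply hwa
  rw [sq, Finset.mem_filter] at hq ha
  refine prop_w hF hconn w ?_ q hq.1 hq.2 hwq a ha.1 ha.2
  intro c hc hd hcB
  exact hw c (Finset.mem_filter.2 ⟨hc, hd, hcB⟩)

end surf

/-! ### Symmetry -/

theorem neg_mod (c : Cell) (i : Fin 4) : (-c) i % 2 = 1 ↔ c i % 2 = 1 := by
  rw [Pi.neg_apply]; omega

theorem dim_neg (c : Cell) : dim (-c) = dim c := by
  unfold dim
  congr 1
  ext i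
  simp only [Finset.mem_filter, Finset.mem_univ, true_and]
  exact neg_mod c i

theorem neg_mem_bd {n : Fin 4 → ℕ} {c : Cell} (h : c ∈ bd n) : -c ∈ bd n := by
  rw [mem_bd, mem_box] at h ⊢
  obtain ⟨h1, i, h2⟩ := h
  refine ⟨fun j => ?_, i, ?_⟩
  · have := h1 j; rw [Pi.neg_apply]; omega
  · rw [Pi.neg_apply]; omega

/-- The cycle condition at an edge of the coordinate plane of `F` near the origin. -/
theorem plane_sum {n : Fin 4 → ℕ} {F B : Finset Cell} (hF : GoodDisc n F B)
    (w : Cell → ZMod 3) (c q₁ q₂ : Cell) (ε : ZMod 3)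
    (hc0 : Le 0 c) (hne : q₁ ≠ q₂) (h₁ : q₁ ∈ sq F) (h₂ : q₂ ∈ sq F)
    (i₁ : (inc q₁ c : ZMod 3) = ε) (i₂ : (inc q₂ c : ZMod 3) = ε)
    (hq : ∀ q : Cell, q 2 = 0 → q 3 = 0 → dim q = 2 → Le 0 q → inc q c ≠ 0 → q = q₁ ∨ q = q₂) :
    ∑ q ∈ sq F, w q * (inc q c : ZMod 3) = (w q₁ + w q₂) * ε := by
  rw [Finset.sum_eq_add q₁ q₂ hne]
  · rw [i₁, i₂]; ring
  · rintro q hqs ⟨h3, h4⟩
    have : inc q c = 0 := by
      by_contra hcon
      rw [sq, Finset.mem_filter] at hqs
      have hle : Le 0 q := le_trans' hc0 (le_of_inc hcon).1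
      have hfl := (hF.flat q hle).1 hqs.1
      rcases hq q hfl.1 hfl.2 hqs.2 hle hcon with h5 | h5
      · exact h3 h5
      · exact h4 h5
    rw [this]; simp
  · intro h; exact absurd h₁ h
  · intro h; exact absurd h₂ h

theorem symm_q0 {n : Fin 4 → ℕ} {F B : Finset Cell} (hF : GoodDisc n F B)
    (w : Cell → ZMod 3) (hw : ∀ c ∈ ed F B, ∑ q ∈ sq F, w q * (inc q c : ZMod 3) = 0) :
    w (-![1, 1, 0, 0]) = w ![1, 1, 0, 0] := by
  have hsq : ∀ s t : ℤ, (s = 1 ∨ s = -1) → (t = 1 ∨ t = -1) → ![s, t, 0, 0] ∈ sq F := by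
    intro s t hs ht
    rw [sq, Finset.mem_filter]
    refine ⟨(hF.flat _ ?_).2 ⟨rfl, rfl⟩, ?_⟩
    · intro i
      fin_cases i
      · right; simp; omega
      · right; simp; omega
      · left; rfl
      · left; rfl
    · rcases hs with rfl | rfl <;> rcases ht with rfl | rfl <;> decide
  have hbd : ∀ c : Cell, (∀ i, -1 ≤ c i ∧ c i ≤ 1) → c ∉ B := by
    intro c hc hcB
    rw [← hF.bdy, Finset.mem_inter, mem_bd] at hcB
    obtain ⟨-, -, i, hi⟩ := hcB
    have h1 := hF.big i
    have h2 := hc i
    omega
  have hinc : ∀ q c : Cell, inc q c ≠ 0 → ∀ j, c j % 2 = 1 → q j = c j := by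
    intro q c h j hj
    have := (le_of_inc h).1 j
    omega
  -- the edge (1,0,0,0)
  have E1 : (![1, 0, 0, 0] : Cell) ∈ ed F B := by
    rw [ed, Finset.mem_filter]
    refine ⟨(hF.flat _ ?_).2 ⟨rfl, rfl⟩, by decide, hbd _ ?_⟩
    · intro i; fin_cases i
      · right; simp
      · left; rfl
      · left; rfl
      · left; rfl
    · intro i; fin_cases i <;> simp
  have E2 : (![0, -1, 0, 0] : Cell) ∈ ed F B := by
    rw [ed, Finset.mem_filter]
    refine ⟨(hF.flat _ ?_).2 ⟨rfl, rfl⟩, by decide, hbd _ ?_⟩
    · intro i; fin_cases i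
      · left; rfl
      · right; simp
      · left; rfl
      · left; rfl
    · intro i; fin_cases i <;> simp
  have S1 := plane_sum hF w ![1, 0, 0, 0] ![1, 1, 0, 0] ![1, -1, 0, 0] (-1) ?_ ?_
    (hsq 1 1 (Or.inl rfl) (Or.inl rfl)) (hsq 1 (-1) (Or.inl rfl) (Or.inr rfl)) ?_ ?_ ?_
  have S2 := plane_sum hF w ![0, -1, 0, 0] ![1, -1, 0, 0] ![-1, -1, 0, 0] 1 ?_ ?_
    (hsq 1 (-1) (Or.inl rfl) (Or.inr rfl)) (hsq (-1) (-1) (Or.inr rfl) (Or.inr rfl)) ?_ ?_ ?_
  · rw [hw _ E1] at S1
    rw [hw _ E2] at S2
    have hn : (-![1, 1, 0, 0] : Cell) = ![-1, -1, 0, 0] := by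
      funext i; fin_cases i <;> rfl
    rw [hn]
    linear_combination -S2 - S1
  · intro i; fin_cases i
    · left; rfl
    · right; simp
    · left; rfl
    · left; rfl
  · intro h; have := congrFun h 0; simp at this
  · have : inc ![1, -1, 0, 0] ![0, -1, 0, 0] = 1 := by decide
    rw [this]; simp
  · have : inc ![-1, -1, 0, 0] ![0, -1, 0, 0] = 1 := by decide
    rw [this]; simp
  · intro q h2 h3 hd hle hi
    have hq1 : q 1 = -1 := hinc q _ hi 1 (by simp)
    have hq0 : q 0 ≠ 0 := by
      intro h0
      have : q = ![0, -1, 0, 0] := by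
        funext i; fin_cases i
        · exact h0
        · exact hq1
        · exact h2
        · exact h3
      rw [this] at hd
      revert hd; decide
    have hq0' : q 0 = 1 ∨ q 0 = -1 := by
      have := hle 0
      simp only [Pi.zero_apply] at this
      omega
    rcases hq0' with h0 | h0
    · left
      funext i; fin_cases i
      · exact h0
      · exact hq1
      · exact h2
      · exact h3
    · right
      funext i; fin_cases i
      · exact h0
      · exact hq1
      · exact h2
      · exact h3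
  · intro i; fin_cases i
    · right; simp
    · left; rfl
    · left; rfl
    · left; rfl
  · intro h; have := congrFun h 1; simp at this
  · have : inc ![1, 1, 0, 0] ![1, 0, 0, 0] = -1 := by decide
    rw [this]; simp
  · have : inc ![1, -1, 0, 0] ![1, 0, 0, 0] = -1 := by decide
    rw [this]; simp
  · intro q h2 h3 hd hle hi
    have hq0 : q 0 = 1 := hinc q _ hi 0 (by simp)
    have hq1 : q 1 ≠ 0 := by
      intro h1
      have : q = ![1, 0, 0, 0] := by
        funext i; fin_cases i
        · exact hq0
        · exact h1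
        · exact h2
        · exact h3
      rw [this] at hd
      revert hd; decide
    have hq1' : q 1 = 1 ∨ q 1 = -1 := by
      have := hle 1
      simp only [Pi.zero_apply] at this
      omega
    rcases hq1' with h1 | h1
    · left
      funext i; fin_cases i
      · exact hq0
      · exact h1
      · exact h2
      · exact h3
    · right
      funext i; fin_cases i
      · exact hq0
      · exact h1
      · exact h2
      · exact h3

theorem ori {n : Fin 4 → ℕ} {F B : Finset Cell} (hF : GoodDisc n F B) :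
    ∃ w : Cell → ZMod 3, (∀ q, w q ≠ 0 ↔ (q ∈ F ∧ dim q = 2)) ∧ (∀ q, w (-q) = w q) ∧
      ∀ c ∈ inn n, dim c = 1 → ∑ q ∈ Box n, w q * (inc q c : ZMod 3) = 0 := by
  classical
  obtain ⟨w, hw1, hw2, hw3⟩ := exists_cycle hF.surf hF.conn hF.bne hF.eul
  have hq0 := symm_q0 hF w hw3
  have hmem : (![1, 1, 0, 0] : Cell) ∈ sq F := by
    rw [sq, Finset.mem_filter]
    refine ⟨(hF.flat _ ?_).2 ⟨rfl, rfl⟩, by decide⟩
    intro i
    fin_cases i
    · right; simp
    · right; simp
    · left; rfl
    · left; rfl
  have hnegsq : ∀ q, q ∈ sq F → -q ∈ sq F := by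
    intro q hq
    rw [sq, Finset.mem_filter] at hq ⊢
    exact ⟨hF.symm q hq.1, by rw [dim_neg]; exact hq.2⟩
  have hneged : ∀ q, q ∈ ed F B → -q ∈ ed F B := by
    intro q hq
    rw [ed, Finset.mem_filter] at hq ⊢
    refine ⟨hF.symm q hq.1, by rw [dim_neg]; exact hq.2.1, ?_⟩
    intro hcon
    apply hq.2.2
    rw [← hF.bdy, Finset.mem_inter] at hcon ⊢
    refine ⟨hq.1, ?_⟩
    have := neg_mem_bd hcon.2
    rwa [neg_neg] at this
  have hsym : ∀ q ∈ sq F, w (-q) - w q = 0 := by
    have hm := Finset.mem_filter.1 hmem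
    intro q hq
    have hq' := Finset.mem_filter.1 hq
    refine prop_w hF.surf hF.conn (fun q => w (-q) - w q) ?_ ![1, 1, 0, 0] hm.1 hm.2 ?_ q hq'.1
      hq'.2
    · intro c hc hd hcB
      have hce : c ∈ ed F B := Finset.mem_filter.2 ⟨hc, hd, hcB⟩
      have e1 := hw3 c hce
      have e2 := hw3 (-c) (hneged c hce)
      have e3 : ∑ q ∈ sq F, w (-q) * (inc q c : ZMod 3) = 0 := by
        rw [← e2]
        refine Finset.sum_nbij' (fun q => -q) (fun q => -q) (fun q hq => hnegsq q hq)
          (fun q hq => hnegsq q hq) (fun q _ => neg_neg q) (fun q _ => neg_neg q) ?_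
        intro q _
        rw [inc_neg]
      simp only [sub_mul, Finset.sum_sub_distrib]
      have e1' : ∑ q ∈ F.filter (fun q => dim q = 2), w q * (inc q c : ZMod 3) = 0 := e1
      have e3' : ∑ q ∈ F.filter (fun q => dim q = 2), w (-q) * (inc q c : ZMod 3) = 0 := e3
      rw [e1', e3', sub_zero]
    · show w (-![1, 1, 0, 0]) - w ![1, 1, 0, 0] = 0
      rw [hq0, sub_self]
  refine ⟨w, ?_, ?_, ?_⟩
  · intro q
    constructor
    · intro h
      by_contra hcon
      exact h (hw2 q (fun h' => hcon (Finset.mem_filter.1 h')))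
    · intro h
      exact hw1 q (Finset.mem_filter.2 h)
  · intro q
    by_cases hq : q ∈ sq F
    · exact sub_eq_zero.1 (hsym q hq)
    · have : -q ∉ sq F := fun h => hq (by have := hnegsq _ h; rwa [neg_neg] at this)
      rw [hw2 q hq, hw2 _ this]
  · intro c hc hd
    rw [inn, Finset.mem_sdiff] at hc
    have hsub : sq F ⊆ Box n := fun q hq => hF.sub (Finset.mem_filter.1 hq).1
    rw [← Finset.sum_subset hsub]
    · by_cases hcF : c ∈ F
      · apply hw3 c
        refine Finset.mem_filter.2 ⟨hcF, hd, ?_⟩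
        intro hcB
        rw [← hF.bdy, Finset.mem_inter] at hcB
        exact hc.2 hcB.2
      · apply Finset.sum_eq_zero
        intro q hq
        have : inc q c = 0 := by
          by_contra hne
          exact hcF (hF.surf.cx q (Finset.mem_filter.1 hq).1 c (le_of_inc hne).1)
        rw [this]; simp
    · intro q _ hq
      rw [hw2 q hq, zero_mul]

end Ori

theorem orient {n : Fin 4 → ℕ} {F B : Finset Cell} (hF : GoodDisc n F B) :
    ∃ w : Cell → ZMod 3, (∀ q, w q ≠ 0 ↔ (q ∈ F ∧ dim q = 2)) ∧ (∀ q, w (-q) = w q) ∧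
      ∀ c ∈ inn n, dim c = 1 → ∑ q ∈ Box n, w q * (inc q c : ZMod 3) = 0 :=
  Ori.ori hF

end Cub
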