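import Pool.Agent.H33.CB.Defs

/-!
# Module Ring: the coefficient ring

`R` is the ring of Witt vectors `W(k)` of an algebraic closure `k` of `F₂` (a complete discrete
valuation ring with uniformizer `2`), `ζ` is the Teichmüller representative of a root of
`X² + X + 1`, the automorphism is the Frobenius.

* The key property (lemma `star`): an integral polynomial which vanishes at `ζ` is divisible by
  `X² + X + 1`, so its value at `1` is divisible by three.
* `tors`: let `D` be the matrix over `ℤ[X]`, `h` a contraction of its reduction at `X = 1` modulo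
  three, lifted to the integers, `M = D h + h D`.  By the key property the determinant of `M` at
  `X = ζ` is not zero, and it kills the homology over `R`: if `x` is a cycle, then `x adj(M)` is a
  cycle and `(x adj(M)) M` is the boundary of `x adj(M) h`.
-/

namespace Cub

open Polynomial

private abbrev K2 : Type := AlgebraicClosure (ZMod 2)

private instance : Fact (Nat.Prime 2) := ⟨Nat.prime_two⟩
private instance instCharK2 : CharP K2 2 := charP_of_injective_algebraMap
  (algebraMap (ZMod 2) K2).injective 2
private instance : PerfectRing K2 2 := PerfectField.toPerfectRing 2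

private abbrev W2 : Type := WittVector 2 K2

private theorem exists_c : ∃ c : K2, c ^ 2 + c + 1 = 0 := by
  obtain ⟨x, hx⟩ := IsAlgClosed.exists_root (X ^ 2 + X + 1 : K2[X]) (by
    have : (X ^ 2 + X + 1 : K2[X]).degree = 2 := by
      compute_degree!
    rw [this]; norm_num)
  refine ⟨x, ?_⟩
  simpa [IsRoot.def] using hx

private theorem w2_two : (2 : W2) ≠ 0 := by
  have := (WittVector.irreducible 2 (k := K2)).ne_zero
  exact_mod_cast this

private theorem w2_charZero : CharZero W2 := by
  apply charZero_of_inj_zero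
  intro n hn
  by_contra h0
  obtain ⟨k, m, hm, rfl⟩ := Nat.exists_eq_two_pow_mul_odd h0
  rw [Nat.cast_mul, Nat.cast_pow] at hn
  rcases mul_eq_zero.mp hn with h | h
  · exact w2_two (by exact_mod_cast eq_zero_of_pow_eq_zero h)
  · have h2 := congrArg (WittVector.constantCoeff (p := 2) (R := K2)) h
    rw [map_natCast, map_zero] at h2
    have h3 := (CharP.cast_eq_zero_iff K2 2 m).mp h2
    exact (Nat.not_even_iff_odd.mpr hm) (even_iff_two_dvd.mpr h3)

private theorem cube_of_root {S : Type} [CommRing S] {c : S} (h : c ^ 2 + c + 1 = 0) : c ^ 3 = 1 := by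
  linear_combination (c - 1) * h

private theorem part1 : ∃ ζ : W2, ζ ^ 2 + ζ + 1 = 0 ∧ IsUnit (1 - ζ) ∧ ∃ f : W2 ≃+* W2, f ζ = ζ ^ 2 := by
  obtain ⟨c, hc⟩ := exists_c
  have hc1 : c ≠ 1 := by
    rintro rfl
    have : (1 : K2) + 1 = 0 := CharTwo.add_self_eq_zero 1
    rw [one_pow, this, zero_add] at hc
    exact one_ne_zero hc
  have hc3 := cube_of_root hc
  have hz3 : (WittVector.teichmuller 2 c : W2) ^ 3 = 1 := by
    rw [← map_pow, hc3, map_one]
  have hu : IsUnit (1 - (WittVector.teichmuller 2 c : W2)) := by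
    apply WittVector.isUnit_of_coeff_zero_ne_zero
    have : WittVector.constantCoeff (1 - (WittVector.teichmuller 2 c : W2)) = 1 - c := by
      rw [map_sub, map_one]
      rfl
    change WittVector.constantCoeff (1 - (WittVector.teichmuller 2 c : W2)) ≠ 0
    rw [this]
    exact sub_ne_zero.mpr hc1.symm
  refine ⟨WittVector.teichmuller 2 c, ?_, hu, ?_⟩
  · have : (1 - (WittVector.teichmuller 2 c : W2)) * ((WittVector.teichmuller 2 c : W2) ^ 2 + WittVector.teichmuller 2 c + 1) = 0 := by
      linear_combination - hz3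
    exact (mul_eq_zero.mp this).resolve_left hu.ne_zero
  · refine ⟨WittVector.frobeniusEquiv 2 K2, ?_⟩
    change WittVector.frobenius (WittVector.teichmuller 2 c : W2) = _
    rw [WittVector.frobenius_eq_map_frobenius, WittVector.map_teichmuller, ← map_pow]
    rfl

private theorem part_len (u : W2) (hu : IsUnit u) : Module.length W2 (W2 ⧸ Ideal.span {2 * u}) = 1 := by
  rw [Module.length_eq_one_iff, isSimpleModule_iff_isCoatom]
  have h1 : Ideal.span {2 * u} = Ideal.span {(2 : W2)} := by
    rw [Ideal.span_singleton_eq_span_singleton]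
    exact (associated_mul_unit_left _ _ hu)
  rw [h1]
  have := PrincipalIdealRing.isMaximal_of_irreducible (WittVector.irreducible 2 (k := K2))
  have h2 := this.out
  exact_mod_cast h2

private theorem star {R : Type} [CommRing R] [IsDomain R] [CharZero R] {ζ : R}
    (root : ζ ^ 2 + ζ + 1 = 0) (unit : IsUnit (1 - ζ)) (f : R ≃+* R) (hf : f ζ = ζ ^ 2)
    (Q : ℤ[X]) (hQ : aeval ζ Q = 0) : aeval (1 : ZMod 3) Q = 0 := by
  set p : ℤ[X] := X ^ 2 + X + 1 with hp
  have hm : p.Monic := by rw [hp]; monicity!
  have hdeg : p.natDegree = 2 := by rw [hp]; compute_degree!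
  have h1 := modByMonic_add_div Q p
  have h2 : (Q %ₘ p).natDegree < 2 := by
    have := natDegree_modByMonic_lt Q hm (by intro h; rw [h] at hdeg; simp at hdeg)
    omega
  obtain ⟨a, b, hab⟩ : ∃ a b : ℤ, Q %ₘ p = C a * X + C b := by
    exact ⟨_, _, eq_X_add_C_of_natDegree_le_one (by omega)⟩
  rw [hab] at h1
  have hp0 : aeval ζ p = 0 := by simp [hp, root]
  have h3 : (a : R) * ζ + b = 0 := by
    rw [← h1] at hQ
    simpa [hp0] using hQ
  have h4 : (a : R) * ζ ^ 2 + b = 0 := by
    have := congrArg f h3
    simpa [hf] using this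
  have hz : ζ ≠ 0 := by
    rintro rfl
    simp at root
  have h5 : (a : R) * (ζ * (1 - ζ)) = 0 := by linear_combination h3 - h4
  have ha : (a : R) = 0 := (mul_eq_zero.mp h5).resolve_right (mul_ne_zero hz unit.ne_zero)
  have hb : (b : R) = 0 := by rw [ha] at h3; simpa using h3
  have ha' : a = 0 := by exact_mod_cast ha
  have hb' : b = 0 := by exact_mod_cast hb
  rw [← h1, ha', hb']
  simp only [map_zero, zero_mul, add_zero, zero_add, map_mul]
  have : aeval (1 : ZMod 3) p = 0 := by
    simp [hp]
    decide
  rw [this, zero_mul]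

/-- A module over a principal ideal domain, finitely generated and killed by `r ≠ 0`, has finite
length. -/
private theorem fl_of_killed {R : Type} [CommRing R] [IsDomain R] [IsPrincipalIdealRing R]
    {M : Type} [AddCommGroup M] [Module R M] [Module.Finite R M] {r : R} (hr : r ≠ 0)
    (h : ∀ x : M, r • x = 0) : IsFiniteLength R M := by
  have : Ring.KrullDimLE 1 R := by infer_instance
  have h1 := isFiniteLength_quotient_span_singleton R (x := r) (mem_nonZeroDivisors_of_ne_zero hr)
  obtain ⟨n, g, hg⟩ := Module.Finite.exists_fin' R M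
  have hker : ∀ v : Fin n → R, (∀ i, v i ∈ Ideal.span {r}) → g v = 0 := by
    intro v hv
    choose w hw using fun i => Ideal.mem_span_singleton'.mp (hv i)
    have : v = r • w := by
      funext i
      rw [Pi.smul_apply, smul_eq_mul, mul_comm, hw]
    rw [this, map_smul, h]
  rw [isFiniteLength_iff_isNoetherian_isArtinian] at h1 ⊢
  obtain ⟨h2, h3⟩ := h1
  let q : (Fin n → R) →ₗ[R] (Fin n → R ⧸ Ideal.span {r}) :=
    LinearMap.pi (fun i => (Submodule.mkQ (Ideal.span {r})).comp (LinearMap.proj i))
  have hq : Function.Surjective q := by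
    intro y
    choose z hz using fun i => Submodule.Quotient.mk_surjective _ (y i)
    exact ⟨z, funext hz⟩
  have hle : LinearMap.ker q ≤ LinearMap.ker g := by
    intro v hv
    rw [LinearMap.mem_ker] at hv ⊢
    apply hker
    intro i
    have := congrFun hv i
    exact (Submodule.Quotient.mk_eq_zero _).mp this
  let e := q.quotKerEquivOfSurjective hq
  let g' : ((Fin n → R) ⧸ LinearMap.ker q) →ₗ[R] M := Submodule.liftQ _ g hle
  have hg' : Function.Surjective (g'.comp e.symm.toLinearMap) := by
    intro m
    obtain ⟨v, rfl⟩ := hg m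
    refine ⟨e (Submodule.Quotient.mk v), ?_⟩
    simp [g']
  exact ⟨isNoetherian_of_surjective _ (LinearMap.range_eq_top.mpr hg'),
    isArtinian_of_surjective _ _ hg'⟩

private theorem dB_eq {R : Type} [CommRing R] {ι : Type} [DecidableEq ι] (D : ι → ι → R)
    (B : Finset ι) (x : B → R) : dB D B x = Matrix.vecMul x (Matrix.of fun (a b : B) => D a b) := by
  funext b
  rfl

/-- Contraction of an acyclic based module over a field. -/
private theorem contraction {F : Type} [Field F] {n : Type} [Fintype n] [DecidableEq n]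
    (D : Matrix n n F) (hD : D * D = 0)
    (hac : ∀ x : n → F, Matrix.vecMul x D = 0 → ∃ y, Matrix.vecMul y D = x) :
    ∃ H : Matrix n n F, D * H + H * D = 1 := by
  let d : (n → F) →ₗ[F] (n → F) := Matrix.vecMulLinear D
  have hd : ∀ x, d x = Matrix.vecMul x D := fun x => rfl
  have hdd : ∀ x, d (d x) = 0 := by
    intro x
    rw [hd, hd, Matrix.vecMul_vecMul, hD, Matrix.vecMul_zero]
  obtain ⟨s, hs⟩ := LinearMap.exists_rightInverse_of_surjective d.rangeRestrict
    (LinearMap.range_rangeRestrict d)
  have hs' : ∀ y : LinearMap.range d, d (s y) = y := by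
    intro y
    have := LinearMap.congr_fun hs y
    exact congrArg Subtype.val this
  let p : (n → F) →ₗ[F] (n → F) := LinearMap.id - s.comp d.rangeRestrict
  have hp : ∀ x, p x = x - s (d.rangeRestrict x) := fun x => rfl
  have hmem : ∀ x, p x ∈ LinearMap.range d := by
    intro x
    have h1 : d (p x) = 0 := by
      rw [hp, map_sub, hs']
      exact sub_self _
    obtain ⟨y, hy⟩ := hac _ h1
    exact ⟨y, hy⟩
  let π : (n → F) →ₗ[F] LinearMap.range d := LinearMap.codRestrict _ p hmem
  let h : (n → F) →ₗ[F] (n → F) := s.comp π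
  have hh : ∀ x, h (d x) + d (h x) = x := by
    intro x
    have h1 : d (h x) = x - s (d.rangeRestrict x) := by
      change d (s (π x)) = _
      rw [hs']
      rfl
    have h2 : h (d x) = s (d.rangeRestrict x) := by
      change s (π (d x)) = _
      congr 1
      apply Subtype.ext
      change d x - s (d.rangeRestrict (d x)) = d x
      have : d.rangeRestrict (d x) = 0 := Subtype.ext (hdd x)
      rw [this, map_zero, sub_zero]
    rw [h1, h2]
    abel
  refine ⟨LinearMap.toMatrixRight' h, ?_⟩
  have hH : ∀ x, Matrix.vecMul x (LinearMap.toMatrixRight' h) = h x := by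
    intro x
    rw [← Matrix.toLinearMapRight'_apply, LinearEquiv.symm_apply_apply]
  rw [Matrix.ext_iff_vecMul]
  intro x
  rw [Matrix.vecMul_add, ← Matrix.vecMul_vecMul, ← Matrix.vecMul_vecMul, hH, hH,
    Matrix.vecMul_one]
  exact hh x

private theorem tors_gen {R : Type} [CommRing R] [IsDomain R] [IsPrincipalIdealRing R] {ζ : R}
    (st : ∀ Q : ℤ[X], aeval ζ Q = 0 → aeval (1 : ZMod 3) Q = 0)
    (ι : Type) [DecidableEq ι] (P : ι → ι → ℤ[X]) (B : Finset ι)
    (hcx : IsCx (fun b b' => aeval ζ (P b b')) B)
    (hac : Acy (fun b b' => (aeval (1 : ZMod 3) (P b b'))) B) :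
    FL (fun b b' => aeval ζ (P b b')) B := by
  let Pm : Matrix B B ℤ[X] := Matrix.of fun a b => P a b
  let φ : ℤ[X] →+* R := (aeval ζ : ℤ[X] →ₐ[ℤ] R)
  let ψ : ℤ[X] →+* ZMod 3 := (aeval (1 : ZMod 3) : ℤ[X] →ₐ[ℤ] ZMod 3)
  let DR : Matrix B B R := Pm.map φ
  let DF : Matrix B B (ZMod 3) := Pm.map ψ
  have hDR : DR * DR = 0 := by
    ext a c
    have := hcx a.1 a.2 c.1 c.2
    rw [← Finset.sum_coe_sort] at this
    exact this
  have hDF : DF * DF = 0 := by
    have h1 : (Pm * Pm).map φ = 0 := by rw [Matrix.map_mul]; exact hDR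
    have h2 : (Pm * Pm).map ψ = 0 := by
      ext a c
      exact st _ (congrFun (congrFun h1 a) c)
    rw [Matrix.map_mul] at h2
    exact h2
  have : Fact (Nat.Prime 3) := ⟨Nat.prime_three⟩
  obtain ⟨H, hH⟩ := contraction DF hDF (by
    intro x hx
    exact hac x hx)
  let Hm0 : Matrix B B ℤ[X] := Matrix.of fun a b => C ((H a b).val : ℤ)
  have hHψ : Hm0.map ψ = H := by
    ext a b
    change aeval (1 : ZMod 3) (C (((H a b).val : ℤ))) = H a b
    rw [aeval_C, algebraMap_int_eq, eq_intCast, Int.cast_natCast, ZMod.natCast_val,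
      ZMod.cast_id', id]
  let M0 : Matrix B B ℤ[X] := Pm * Hm0 + Hm0 * Pm
  have hM0 : M0.map ψ = 1 := by
    have : M0.map ψ = DF * H + H * DF := by
      rw [← hHψ]
      change ψ.mapMatrix (Pm * Hm0 + Hm0 * Pm) = _
      rw [map_add, map_mul, map_mul]
      rfl
    rw [this, hH]
  let HR : Matrix B B R := Hm0.map φ
  let MR : Matrix B B R := M0.map φ
  have hMR : MR = DR * HR + HR * DR := by
    change φ.mapMatrix (Pm * Hm0 + Hm0 * Pm) = _
    rw [map_add, map_mul, map_mul]
    rfl
  have hr : MR.det ≠ 0 := by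
    intro h0
    have h1 : φ M0.det = 0 := by
      rw [RingHom.map_det]
      exact h0
    have h2 : ψ M0.det = 0 := st _ h1
    rw [RingHom.map_det] at h2
    have h3 : (M0.map ψ).det = 0 := h2
    rw [hM0, Matrix.det_one] at h3
    exact one_ne_zero h3
  set r := MR.det with hrdef
  have hcomm : DR * MR = MR * DR := by
    rw [hMR, mul_add, add_mul]
    rw [← mul_assoc, hDR, zero_mul, zero_add, mul_assoc HR, hDR, mul_zero, add_zero, mul_assoc]
  have hadj : MR.adjugate * DR = DR * MR.adjugate := by
    have h1 : r • (MR.adjugate * DR) = r • (DR * MR.adjugate) := by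
      calc r • (MR.adjugate * DR) = MR.adjugate * DR * (MR * MR.adjugate) := by
            rw [Matrix.mul_adjugate, Matrix.mul_smul, mul_one]
        _ = MR.adjugate * (DR * MR) * MR.adjugate := by simp only [mul_assoc]
        _ = (MR.adjugate * MR) * (DR * MR.adjugate) := by rw [hcomm]; simp only [mul_assoc]
        _ = r • (DR * MR.adjugate) := by rw [Matrix.adjugate_mul, Matrix.smul_mul, one_mul]
    ext a b
    have h2 := congrFun (congrFun h1 a) b
    exact mul_left_cancel₀ hr h2
  have hkill : ∀ x : B → R, Matrix.vecMul x DR = 0 → ∃ y, Matrix.vecMul y DR = r • x := by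
    intro x hx
    refine ⟨Matrix.vecMul (Matrix.vecMul x MR.adjugate) HR, ?_⟩
    have h1 : Matrix.vecMul (Matrix.vecMul x MR.adjugate) DR = 0 := by
      rw [Matrix.vecMul_vecMul, hadj, ← Matrix.vecMul_vecMul, hx, Matrix.zero_vecMul]
    have h2 : Matrix.vecMul (Matrix.vecMul x MR.adjugate) MR = r • x := by
      rw [Matrix.vecMul_vecMul, Matrix.adjugate_mul, Matrix.vecMul_smul, Matrix.vecMul_one]
    generalize Matrix.vecMul x MR.adjugate = w at h1 h2
    rw [← h2, hMR, Matrix.vecMul_add, ← Matrix.vecMul_vecMul _ DR HR, h1, Matrix.zero_vecMul,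
      zero_add, ← Matrix.vecMul_vecMul]
  have hDB : ∀ x, dB (fun b b' => aeval ζ (P b b')) B x = Matrix.vecMul x DR := fun x => rfl
  unfold FL
  rw [Module.length_ne_top_iff]
  refine fl_of_killed hr ?_
  intro z
  obtain ⟨x, rfl⟩ := Submodule.Quotient.mk_surjective _ z
  rw [← Submodule.Quotient.mk_smul, Submodule.Quotient.mk_eq_zero]
  obtain ⟨y, hy⟩ := hkill x.1 (by rw [← hDB]; exact x.2)
  refine ⟨y, ?_⟩
  rw [hDB, hy]
  rfl

theorem ring3_exists : ∃ (R : Type) (_ : CommRing R) (ζ : R), Ring3 R ζ := by
  obtain ⟨ζ, root, unit, f, hf⟩ := part1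
  have := w2_charZero
  have : IsDiscreteValuationRing W2 := WittVector.isDiscreteValuationRing
  refine ⟨W2, inferInstance, ζ, ?_⟩
  exact
    { dom := inferInstance
      pid := inferInstance
      root := root
      unit := unit
      conj := ⟨f, hf⟩
      len2 := part_len
      two := w2_two
      odd := fun x => by
        have h2 : ¬ IsUnit (2 : W2) := by
          have h3 := (WittVector.irreducible 2 (k := K2)).not_isUnit
          exact_mod_cast h3
        have h4 : IsLocalRing W2 := inferInstance
        rcases IsLocalRing.isUnit_or_isUnit_one_sub_self (2 * -x : W2) with h | h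
        · exact absurd (isUnit_of_mul_isUnit_left h) h2
        · have h5 : (1 : W2) - 2 * -x = 1 + 2 * x := by ring
          rwa [h5] at h
      tors := fun ι _ P B hcx hac =>
        tors_gen (fun Q hQ => star root unit f hf Q hQ) ι P B hcx hac }

end Cub
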