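import Pool.Agent.H33.CB.Kap

/-!
# Module GaugeExt (about 250 lines): a gauge on the top cells of `bd n` extends to all cells

`c` is flat on `bd n \ B`, and `g` is a function on the three-dimensional cells of `bd n` with
`g T + c T q = g T' + c T' q` for all two-dimensional `q ∈ bd n` and the two (or any) three-dimensional
cells `T`, `T'` of `bd n` with facet `q`.  Then there is `G` with `c x x' = G x' - G x` for all facets `x'` of `x`
in `bd n \ B`, and `G` is symmetric if `g` and `c` are.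
Proof.  For `x ∈ bd n \ B` and `T ≥ x` three-dimensional in `bd n` let `c(T → x)` be the sum of `c` along a
path of facets from `T` to `x` (the coordinates which are odd in `T` and even in `x` are changed in
increasing order); by flatness the order does not matter (all cells between `x` and `T` are in
`bd n \ B`).  CLAIM: `g T + c(T → x)` does not depend on `T`.  Two cells `T`, `T' ≥ x` of `bd n` have one even
coordinate `k`, `k'` each, with `x k`, `x k'` extremal.  They are connected by a chain of steps of two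
kinds: change the side of one coordinate (`T i = x i ± 1`, `i ≠ k`, if both are in the box) or change
`k` to another extremal coordinate; each step goes through a common facet `q ≥ x`, `q ∈ bd n`.
Define `G x` as the common value (choose any `T`; there is one).  For a facet `x'` of `x` use `T ≥ x ≥ x'`.
(Alternative: define `G` on dimension 2, 1, 0 successively, and check independence each time.)
Symmetry: `G' x = - (G x + G (-x))` (average modulo 3) also works.
-/

namespace Cub

private theorem gx_e_self (i : Fin 4) : e i i = 1 := by simp [e]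

private theorem gx_e_ne {i j : Fin 4} (h : j ≠ i) : e i j = 0 := by simp [e, h]

private theorem gx_coface {y x : Cell} (h : inc y x ≠ 0) :
    ∃ i : Fin 4, ∃ s : ℤ, (s = 1 ∨ s = -1) ∧ x i % 2 = 0 ∧ y = x + s • e i := by
  obtain ⟨i, hi, h | h⟩ := inc_ne.1 h
  · refine ⟨i, -1, Or.inr rfl, ?_, ?_⟩
    · rw [h]; simp [gx_e_self]; omega
    · rw [h]; simp
  · refine ⟨i, 1, Or.inl rfl, ?_, ?_⟩
    · rw [h]; simp [gx_e_self]; omega
    · rw [h]; simp

private theorem gx_inc {x : Cell} {i : Fin 4} {s : ℤ} (hs : s = 1 ∨ s = -1)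
    (hi : x i % 2 = 0) : inc (x + s • e i) x ≠ 0 := by
  rw [inc_ne]
  refine ⟨i, ?_, ?_⟩
  · simp [gx_e_self]; omega
  · rcases hs with rfl | rfl
    · right; simp
    · left; simp

private theorem gx_add_i (x : Cell) (i : Fin 4) (s : ℤ) : (x + s • e i) i = x i + s := by
  simp [gx_e_self]

private theorem gx_add_k (x : Cell) {i k : Fin 4} (s : ℤ) (h : k ≠ i) :
    (x + s • e i) k = x k := by
  simp [gx_e_ne h]

/-- an even coordinate away from two given ones -/
private theorem gx_even {x : Cell} (hd : dim x ≤ 1) (i p : Fin 4) :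
    ∃ l, l ≠ i ∧ l ≠ p ∧ x l % 2 = 0 := by
  by_contra hcon
  push Not at hcon
  have hsub : Finset.univ \ {i, p} ⊆ Finset.univ.filter (fun l => x l % 2 = 1) := by
    intro l hl
    simp only [Finset.mem_sdiff, Finset.mem_univ, true_and, Finset.mem_insert,
      Finset.mem_singleton, not_or] at hl
    simp only [Finset.mem_filter, Finset.mem_univ, true_and]
    have := hcon l hl.1 hl.2
    omega
  have h1 := Finset.card_le_card hsub
  have h2 := Finset.le_card_sdiff ({i, p} : Finset (Fin 4)) Finset.univ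
  have h3 : ({i, p} : Finset (Fin 4)).card ≤ 2 := Finset.card_le_two
  have h4 : (Finset.univ : Finset (Fin 4)).card = 4 := by simp
  unfold dim at hd
  omega

private theorem gx_in {n : Fin 4 → ℕ} (hn : ∀ i, 1 ≤ n i) {x : Cell} (hx : x ∈ Box n)
    {l : Fin 4} (hl : x l % 2 = 0) : ∃ u : ℤ, (u = 1 ∨ u = -1) ∧ x + u • e l ∈ Box n := by
  rw [mem_box] at hx
  by_cases h : x l = 2 * (n l : ℤ)
  · refine ⟨-1, Or.inr rfl, ?_⟩
    rw [mem_box]
    intro k
    by_cases hk : k = l
    · subst hk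
      rw [gx_add_i]
      have := hn k
      omega
    · rw [gx_add_k _ _ hk]; exact hx k
  · refine ⟨1, Or.inl rfl, ?_⟩
    rw [mem_box]
    intro k
    by_cases hk : k = l
    · subst hk
      rw [gx_add_i]
      have := hn k
      have := hx k
      omega
    · rw [gx_add_k _ _ hk]; exact hx k

private theorem gx_bd2 {n : Fin 4 → ℕ} {x : Cell} {i j k : Fin 4} {s t : ℤ} (hij : i ≠ j)
    (h1 : x + s • e i ∈ Box n) (h2 : x + t • e j ∈ Box n) (hki : k ≠ i) (hkj : k ≠ j)
    (hk : x k = 2 * (n k : ℤ) ∨ x k = -(2 * (n k : ℤ))) : x + s • e i + t • e j ∈ bd n := by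
  rw [mem_bd]
  constructor
  · rw [mem_box] at h1 h2 ⊢
    intro l
    by_cases hl : l = j
    · subst hl
      rw [gx_add_i, gx_add_k _ _ hij.symm]
      have := h2 l
      rwa [gx_add_i] at this
    · rw [gx_add_k _ _ hl]
      exact h1 l
  · refine ⟨k, ?_⟩
    rw [gx_add_k _ _ hkj, gx_add_k _ _ hki]
    exact hk

/-- the star of a small cell of the boundary is connected -/
private theorem gx_star {n : Fin 4 → ℕ} (hn : ∀ i, 1 ≤ n i) {x : Cell} (hx : x ∈ bd n)
    (hd : dim x ≤ 1) (H : Cell → ZMod 3)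
    (hH : ∀ i j : Fin 4, ∀ s t : ℤ, i ≠ j → (s = 1 ∨ s = -1) → (t = 1 ∨ t = -1) →
      x i % 2 = 0 → x j % 2 = 0 → x + s • e i + t • e j ∈ bd n →
      H (x + s • e i) = H (x + t • e j))
    {i j : Fin 4} {s t : ℤ} (hs : s = 1 ∨ s = -1) (ht : t = 1 ∨ t = -1) (hi : x i % 2 = 0)
    (hj : x j % 2 = 0) (hy : x + s • e i ∈ bd n) (hy' : x + t • e j ∈ bd n) :
    H (x + s • e i) = H (x + t • e j) := by
  have hxb := (mem_bd.1 hx).1
  have hyb := (mem_bd.1 hy).1
  have hyb' := (mem_bd.1 hy').1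
  -- extremal coordinates of the two cofaces
  obtain ⟨p, hp⟩ := (mem_bd.1 hy).2
  obtain ⟨q, hq⟩ := (mem_bd.1 hy').2
  have hpi : p ≠ i := by
    rintro rfl
    rw [gx_add_i] at hp
    omega
  have hqj : q ≠ j := by
    rintro rfl
    rw [gx_add_i] at hq
    omega
  rw [gx_add_k _ _ hpi] at hp
  rw [gx_add_k _ _ hqj] at hq
  by_cases hij : i = j
  · subst hij
    obtain ⟨l, hli, hlp, hl⟩ := gx_even hd i p
    obtain ⟨u, hu, hub⟩ := gx_in hn hxb hl
    rw [hH i l s u hli.symm hs hu hi hl (gx_bd2 hli.symm hyb hub hpi hlp.symm hp),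
      ← hH i l t u hli.symm ht hu hi hl (gx_bd2 hli.symm hyb' hub hpi hlp.symm hp)]
  · by_cases hpj : p = j
    · by_cases hqi : q = i
      · subst hpj hqi
        obtain ⟨l, hli, hlj, hl⟩ := gx_even hd q p
        obtain ⟨u, hu, hub⟩ := gx_in hn hxb hl
        rw [hH q l s u hli.symm hs hu hi hl (gx_bd2 hli.symm hyb hub hpi hlj.symm hp),
          ← hH p l t u hlj.symm ht hu hj hl (gx_bd2 hlj.symm hyb' hub hqj hli.symm hq)]
      · exact hH i j s t hij hs ht hi hj (gx_bd2 hij hyb hyb' hqi hqj hq)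
    · exact hH i j s t hij hs ht hi hj (gx_bd2 hij hyb hyb' hpi hpj hp)

private def GxGood (n : Fin 4 → ℕ) (B : Finset Cell) (c : Cell → Cell → ZMod 3) (d : ℕ)
    (G : Cell → ZMod 3) : Prop :=
  ∀ x ∈ bd n \ B, ∀ x' ∈ bd n \ B, inc x x' ≠ 0 → d ≤ dim x' → c x x' = G x' - G x

private theorem gx_step {n : Fin 4 → ℕ} {B : Finset Cell} {c : Cell → Cell → ZMod 3} (d : ℕ)
    (G : Cell → ZMod 3) (hG : GxGood n B c (d + 1) G)
    (hI : ∀ x ∈ bd n \ B, dim x = d → ∀ y ∈ bd n, ∀ y' ∈ bd n, inc y x ≠ 0 → inc y' x ≠ 0 →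
      G y + c y x = G y' + c y' x) : ∃ G', GxGood n B c d G' := by
  classical
  refine ⟨fun x => if h : dim x = d ∧ ∃ y, y ∈ bd n ∧ inc y x ≠ 0 then
    G h.2.choose + c h.2.choose x else G x, ?_⟩
  intro x hx x' hx' hxx hd
  have hdim := (le_of_inc hxx).2
  have h1 : ¬ (dim x = d ∧ ∃ y, y ∈ bd n ∧ inc y x ≠ 0) := by
    rintro ⟨h, _⟩; omega
  simp only [dif_neg h1]
  by_cases h2 : dim x' = d
  · have hxb : x ∈ bd n := (Finset.mem_sdiff.1 hx).1
    have h3 : dim x' = d ∧ ∃ y, y ∈ bd n ∧ inc y x' ≠ 0 := ⟨h2, x, hxb, hxx⟩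
    rw [dif_pos h3]
    have h4 := h3.2.choose_spec
    have := hI x' hx' h2 _ h4.1 x hxb h4.2 hxx
    rw [this]
    ring
  · have h3 : ¬ (dim x' = d ∧ ∃ y, y ∈ bd n ∧ inc y x' ≠ 0) := fun h => h2 h.1
    rw [dif_neg h3]
    exact hG x hx x' hx' hxx (by omega)

private theorem gx_ind {n : Fin 4 → ℕ} (hn : ∀ i, 1 ≤ n i) {B : Finset Cell} (hB : IsComplex B)
    {c : Cell → Cell → ZMod 3} (hf : Flat c (bd n \ B)) (d : ℕ) (hd : d ≤ 1)
    (G : Cell → ZMod 3) (hG : GxGood n B c (d + 1) G) :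
    ∀ x ∈ bd n \ B, dim x = d → ∀ y ∈ bd n, ∀ y' ∈ bd n, inc y x ≠ 0 → inc y' x ≠ 0 →
      G y + c y x = G y' + c y' x := by
  intro x hx hdx y hy y' hy' hyx hyx'
  obtain ⟨hxb, hxB⟩ := Finset.mem_sdiff.1 hx
  obtain ⟨i, s, hs, hi, rfl⟩ := gx_coface hyx
  obtain ⟨j, t, ht, hj, rfl⟩ := gx_coface hyx'
  have hup : ∀ z ∈ bd n, Le x z → z ∈ bd n \ B := fun z hz hle =>
    Finset.mem_sdiff.2 ⟨hz, fun h => hxB (hB z h x hle)⟩
  refine gx_star hn hxb (by omega) (fun y => G y + c y x) ?_ hs ht hi hj hy hy'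
  intro i j s t hij hs ht hi hj hz
  have hne1 : inc (x + s • e i) x ≠ 0 := gx_inc hs hi
  have hne2 : inc (x + t • e j) x ≠ 0 := gx_inc ht hj
  have hi2 : (x + t • e j) i % 2 = 0 := by rw [gx_add_k _ _ hij]; exact hi
  have hj2 : (x + s • e i) j % 2 = 0 := by rw [gx_add_k _ _ hij.symm]; exact hj
  set z := x + s • e i + t • e j with hzd
  have hz' : z = x + t • e j + s • e i := by rw [hzd]; abel
  have hne3 : inc z (x + s • e i) ≠ 0 := gx_inc ht hj2
  have hne4 : inc z (x + t • e j) ≠ 0 := by rw [hz']; exact gx_inc hs hi2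
  have hle1 := (le_of_inc hne1).1
  have hle2 := (le_of_inc hne2).1
  have hle3 := (le_of_inc hne3).1
  have hle4 := (le_of_inc hne4).1
  have hbc := isComplex_bd n
  have hy1 : x + s • e i ∈ bd n \ B := hup _ (hbc z hz _ hle3) hle1
  have hy2 : x + t • e j ∈ bd n \ B := hup _ (hbc z hz _ hle4) hle2
  have hle5 : Le x z := by
    intro k
    by_cases hki : k = i
    · subst hki
      right
      have h1 : z k = x k + s := by rw [hzd, gx_add_k _ _ hij, gx_add_i]
      rw [h1]
      omega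
    · by_cases hkj : k = j
      · subst hkj
        right
        have h1 : z k = x k + t := by rw [hzd, gx_add_i, gx_add_k _ _ hki]
        rw [h1]
        omega
      · left
        rw [hzd, gx_add_k _ _ hkj, gx_add_k _ _ hki]
  have hz1 : z ∈ bd n \ B := hup z hz hle5
  have e1 := hG z hz1 _ hy1 hne3 (by have := (le_of_inc hne1).2; omega)
  have e2 := hG z hz1 _ hy2 hne4 (by have := (le_of_inc hne2).2; omega)
  have hzi : z i % 2 = 1 := by
    rw [hzd, gx_add_k _ _ hij, gx_add_i]; omega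
  have hzj : z j % 2 = 1 := by
    rw [hzd, gx_add_i, gx_add_k _ _ hij.symm]; omega
  have r1 : z + (-s) • e i = x + t • e j := by rw [hzd]; module
  have r2 : z + (-t) • e j = x + s • e i := by rw [hzd]; module
  have r3 : x + t • e j + (-t) • e j = x := by module
  have e3 := hf z hz1 i j hij hzi hzj (-s) (-t) (by omega) (by omega)
    (by rw [r1, r3]; exact hx)
  rw [r1, r2, r3] at e3
  show G (x + s • e i) + c (x + s • e i) x = G (x + t • e j) + c (x + t • e j) x
  linear_combination e2 - e1 - e3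

theorem gauge_ext {n : Fin 4 → ℕ} (hn : ∀ i, 1 ≤ n i) {B : Finset Cell} (hB : IsComplex B)
    (hB1 : ∀ c ∈ B, dim c ≤ 1) {c : Cell → Cell → ZMod 3} (hf : Flat c (bd n \ B)) (hs : SymA c)
    (hsB : Sym B) (g : Cell → ZMod 3)
    (hg : ∀ q ∈ bd n, dim q = 2 → ∀ T ∈ bd n, ∀ T' ∈ bd n, inc T q ≠ 0 → inc T' q ≠ 0 →
      g T + c T q = g T' + c T' q) :
    ∃ G : Cell → ZMod 3, (∀ x, G (-x) = G x) ∧
      ∀ x ∈ bd n \ B, ∀ x' ∈ bd n \ B, inc x x' ≠ 0 → c x x' = G x' - G x := by
  classical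
  have h3 : GxGood n B c 3 g := by
    intro x hx x' hx' hxx hd
    exfalso
    have h1 := (le_of_inc hxx).2
    have hxb := (Finset.mem_sdiff.1 hx).1
    obtain ⟨k, hk⟩ := (mem_bd.1 hxb).2
    have h2 : Finset.univ.filter (fun i => x i % 2 = 1) ⊆ Finset.univ.erase k := by
      intro i hi
      simp only [Finset.mem_filter, Finset.mem_univ, true_and] at hi
      rw [Finset.mem_erase]
      refine ⟨?_, Finset.mem_univ i⟩
      rintro rfl
      omega
    have h4 := Finset.card_le_card h2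
    rw [Finset.card_erase_of_mem (Finset.mem_univ k)] at h4
    have h5 : (Finset.univ : Finset (Fin 4)).card = 4 := by simp
    unfold dim at h1 hd
    omega
  obtain ⟨G2, h2⟩ := gx_step 2 g h3 (fun x hx hdx y hy y' hy' hyx hyx' =>
    hg x (Finset.mem_sdiff.1 hx).1 hdx y hy y' hy' hyx hyx')
  obtain ⟨G1, h1⟩ := gx_step 1 G2 h2 (gx_ind hn hB hf 1 le_rfl G2 h2)
  obtain ⟨G0, h0⟩ := gx_step 0 G1 h1 (gx_ind hn hB hf 0 zero_le_one G1 h1)
  refine ⟨fun x => -(G0 x + G0 (-x)), fun x => ?_, ?_⟩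
  · simp only [neg_neg]; ring
  · intro x hx x' hx' hxx
    have hneg : ∀ z ∈ bd n \ B, -z ∈ bd n \ B := by
      intro z hz
      obtain ⟨hz1, hz2⟩ := Finset.mem_sdiff.1 hz
      refine Finset.mem_sdiff.2 ⟨?_, fun h => hz2 ?_⟩
      · rw [mem_bd, mem_box] at hz1 ⊢
        refine ⟨fun i => ?_, ?_⟩
        · have := hz1.1 i
          simp only [Pi.neg_apply]
          omega
        · obtain ⟨k, hk⟩ := hz1.2
          refine ⟨k, ?_⟩
          simp only [Pi.neg_apply]
          omega
      · have := hsB _ h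
        rwa [neg_neg] at this
    have e1 := h0 x hx x' hx' hxx (Nat.zero_le _)
    have e2 := h0 (-x) (hneg x hx) (-x') (hneg x' hx') (by rw [inc_neg]; exact hxx)
      (Nat.zero_le _)
    rw [hs] at e2
    have h33 : (3 : ZMod 3) = 0 := by decide
    have key : c x x' = 3 * c x x' - (G0 x' - G0 x) - (G0 (-x') - G0 (-x)) := by
      rw [← e1, ← e2]; ring
    rw [key, h33]
    ring

end Cub
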