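import Pool.Agent.H33.CB.Kap

/-!
# Module YCyc (about 200 lines): the two-chain of a local system on the boundary of the box

`yc n a q = - ∑_T kap T * inc T q * a T q`, the sum over the three-dimensional cells `T` of `bd n`
(there are exactly two of them with `inc T q ≠ 0`).
`yc_flat`: let `c ∈ bd n`, `dim c = 1`, `c ∉ B`.  Then
`∑_q yc q * inc q c = - ∑_T kap T ∑_q inc T q * inc q c * a T q`; for `T` above `c` there are two `q` between, with
opposite products of incidence numbers; by flatness `a T q = x(T) - a q c` with `x(T)` independent of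
`q` (`x(T) = a T q + a q c`), so the sum over `q` for fixed `T` of `inc T q * inc q c * x(T)` vanishes, and what
remains is `∑_q inc q c * a q c * (∑_T kap T * inc T q) = 0` (`kap_cyc`, cast to `ZMod 3`).
`yc_mono`: at an edge `c ∈ bd n` with exactly one extremal coordinate `k` (`c k = ± 2 n k`) the cells `T`
are `c ± e i ± e j` (`i < j` the two other even coordinates), and the sum is `± mono a c i j`:
`kap T * inc T q * inc q c` has alternating signs around the loop (use `kap_cyc` at the four squares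
`q = c ± e i`, `c ± e j`).
`yc_neg`, `yc_lin`: clear.  `yc_cyc`: `d (yc) ` is a one-cycle on all of `bd n`: `isCx_dinc` for `bd n`.
-/

namespace Cub

/-- The two-chain of a local system. -/
noncomputable def yc (n : Fin 4 → ℕ) (a : Cell → Cell → ZMod 3) (q : Cell) : ZMod 3 :=
  - ∑ T ∈ (bd n).filter (fun T => dim T = 3), (kap n T : ZMod 3) * (inc T q : ZMod 3) * a T q

/-- Its boundary. -/
noncomputable def dyc (n : Fin 4 → ℕ) (a : Cell → Cell → ZMod 3) (c : Cell) : ZMod 3 :=
  ∑ q ∈ (bd n).filter (fun q => dim q = 2), yc n a q * (inc q c : ZMod 3)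

private theorem four : ∀ i j k m l : Fin 4, i ≠ j → i ≠ k → j ≠ k → m ≠ i → m ≠ j → m ≠ k →
    l = i ∨ l = j ∨ l = k ∨ l = m := by decide

private theorem e_same (i : Fin 4) : e i i = 1 := by simp [e]

private theorem e_ne {i j : Fin 4} (h : j ≠ i) : e i j = 0 := by simp [e, h]

private theorem sgn_congr {i : Fin 4} {c d : Cell} (h : ∀ j < i, c j = d j) : sgn i c = sgn i d := by
  unfold sgn
  congr 2
  ext j
  simp only [Finset.mem_filter, Finset.mem_univ, true_and]
  constructor
  · rintro ⟨h1, h2⟩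
    exact ⟨h1, by rw [← h j h1]; exact h2⟩
  · rintro ⟨h1, h2⟩
    exact ⟨h1, by rw [h j h1]; exact h2⟩

private theorem sgn_flip {i j : Fin 4} (hij : i < j) {c d : Cell} (h : ∀ m, m ≠ i → c m = d m)
    (hc : c i % 2 = 0) (hd : d i % 2 = 1) : sgn j d = - sgn j c := by
  unfold sgn
  have e1 : Finset.univ.filter (fun m => m < j ∧ d m % 2 = 1) =
      insert i (Finset.univ.filter (fun m => m < j ∧ c m % 2 = 1)) := by
    ext m
    simp only [Finset.mem_filter, Finset.mem_univ, true_and, Finset.mem_insert]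
    by_cases hm : m = i
    · subst hm
      simp [hij, hd]
    · rw [h m hm]
      simp [hm]
  rw [e1, Finset.card_insert_of_notMem, pow_succ]
  · ring
  · simp [hc]

private theorem sgn_sq (i : Fin 4) (c : Cell) : sgn i c = 1 ∨ sgn i c = -1 := by
  unfold sgn
  exact neg_one_pow_eq_or ℤ _

private theorem dim_succ {c d : Cell} {i : Fin 4} (h : ∀ m, m ≠ i → d m = c m)
    (hc : c i % 2 = 0) (hd : d i % 2 = 1) : dim d = dim c + 1 := by
  unfold dim
  have e1 : Finset.univ.filter (fun m => d m % 2 = 1) =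
      insert i (Finset.univ.filter (fun m => c m % 2 = 1)) := by
    ext m
    simp only [Finset.mem_filter, Finset.mem_univ, true_and, Finset.mem_insert]
    by_cases hm : m = i
    · subst hm
      simp [hd]
    · rw [h m hm]
      simp [hm]
  rw [e1, Finset.card_insert_of_notMem]
  simp [hc]

private theorem sum_cof {S : Type} [CommRing S] {n : Fin 4 → ℕ} {c : Cell} {k : Fin 4}
    (hc : c ∈ Box n) (hk : c k = 2 * (n k : ℤ) ∨ c k = -(2 * (n k : ℤ)))
    (hne : ∀ m, m ≠ k → c m % 2 = 0 → -(2 * (n m : ℤ)) < c m ∧ c m < 2 * (n m : ℤ))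
    (d : ℕ) (hd : d = dim c + 1) (g : Cell → S) :
    ∑ T ∈ (bd n).filter (fun T => dim T = d), g T * (inc T c : S) =
      ∑ m ∈ Finset.univ.filter (fun m => m ≠ k ∧ c m % 2 = 0),
        (g (c + e m) + g (c - e m)) * (sgn m c : S) := by
  have h1 : ∀ T : Cell, g T * (inc T c : S) =
      ∑ i, if T i % 2 = 1 ∧ (c = T + e i ∨ c = T - e i) then g T * (sgn i T : S) else 0 := by
    intro T
    unfold inc
    rw [Int.cast_sum, Finset.mul_sum]
    refine Finset.sum_congr rfl fun i _ => ?_
    split_ifs <;> simp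
  rw [Finset.sum_congr rfl fun T _ => h1 T, Finset.sum_comm, Finset.sum_filter]
  refine Finset.sum_congr rfl fun i _ => ?_
  split_ifs with hi
  · obtain ⟨hik, hi2⟩ := hi
    have hb := hne i hik hi2
    have hcb := mem_box.1 hc
    have hsub : ({c + e i, c - e i} : Finset Cell) ⊆ (bd n).filter (fun T => dim T = d) := by
      intro T hT
      rw [Finset.mem_insert, Finset.mem_singleton] at hT
      have hT1 : ∀ m, m ≠ i → T m = c m := by
        intro m hm
        rcases hT with rfl | rfl
        · simp [e_ne hm]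
        · simp [e_ne hm]
      have hT2 : T i = c i + 1 ∨ T i = c i - 1 := by
        rcases hT with rfl | rfl
        · left; simp [e_same]
        · right; simp [e_same]
      have hT3 : T i % 2 = 1 := by omega
      rw [Finset.mem_filter, mem_bd, mem_box]
      refine ⟨⟨fun m => ?_, k, ?_⟩, ?_⟩
      · by_cases hm : m = i
        · subst hm; omega
        · rw [hT1 m hm]; exact hcb m
      · rw [hT1 k (Ne.symm hik)]; exact hk
      · rw [hd]; exact dim_succ hT1 hi2 hT3
    rw [← Finset.sum_subset hsub]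
    · have hdist : c + e i ≠ c - e i := by
        intro h
        have := congrFun h i
        simp [e_same] at this
        omega
      rw [Finset.sum_pair hdist]
      have ea : (c + e i) i % 2 = 1 := by simp [e_same]; omega
      have eb : (c - e i) i % 2 = 1 := by simp [e_same]; omega
      rw [if_pos ⟨ea, Or.inr (by abel)⟩, if_pos ⟨eb, Or.inl (by abel)⟩]
      have s1 : sgn i (c + e i) = sgn i c :=
        sgn_congr fun j hj => by simp [e_ne (ne_of_lt hj)]
      have s2 : sgn i (c - e i) = sgn i c :=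
        sgn_congr fun j hj => by simp [e_ne (ne_of_lt hj)]
      rw [s1, s2]
      ring
    · intro T _ hT
      rw [if_neg]
      rintro ⟨_, h | h⟩
      · apply hT
        rw [Finset.mem_insert, Finset.mem_singleton]
        right; rw [h]; abel
      · apply hT
        rw [Finset.mem_insert, Finset.mem_singleton]
        left; rw [h]; abel
  · refine Finset.sum_eq_zero fun T hT => ?_
    rw [if_neg]
    rintro ⟨hTi, hTc⟩
    have hTb := (Finset.mem_filter.1 hT).1
    rw [mem_bd] at hTb
    obtain ⟨_, m, hm⟩ := hTb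
    have h3 : ∀ m, m ≠ i → c m = T m := by
      intro m hm
      rcases hTc with h | h
      · rw [h]; simp [e_ne hm]
      · rw [h]; simp [e_ne hm]
    have h4 : c i = T i + 1 ∨ c i = T i - 1 := by
      rcases hTc with h | h
      · left; rw [h]; simp [e_same]
      · right; rw [h]; simp [e_same]
    have hmi : m ≠ i := by rintro rfl; omega
    have hci : c i % 2 = 0 := by omega
    have hik : i = k := by
      by_contra hne
      exact hi ⟨hne, hci⟩
    have h5 := hne m (by rw [← hik]; exact hmi) (by rw [h3 m hmi]; omega)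
    rw [h3 m hmi] at h5
    omega

private theorem mem_bd_neg {n : Fin 4 → ℕ} {c : Cell} (h : c ∈ bd n) : -c ∈ bd n := by
  rw [mem_bd, mem_box] at *
  obtain ⟨h1, m, hm⟩ := h
  refine ⟨fun i => ?_, m, ?_⟩
  · have := h1 i
    simp only [Pi.neg_apply]
    omega
  · simp only [Pi.neg_apply]
    omega

private theorem dim_neg (c : Cell) : dim (-c) = dim c := by
  unfold dim
  congr 1
  ext i
  simp only [Finset.mem_filter, Finset.mem_univ, true_and, Pi.neg_apply]
  omega

theorem yc_neg {n : Fin 4 → ℕ} {a : Cell → Cell → ZMod 3} (ha : SymA a) (q : Cell) :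
    yc n a (-q) = yc n a q := by
  unfold yc
  congr 1
  refine Finset.sum_nbij' (fun T => -T) (fun T => -T) ?_ ?_ ?_ ?_ ?_
  · intro T hT
    rw [Finset.mem_filter] at *
    exact ⟨mem_bd_neg hT.1, by rw [dim_neg]; exact hT.2⟩
  · intro T hT
    rw [Finset.mem_filter] at *
    exact ⟨mem_bd_neg hT.1, by rw [dim_neg]; exact hT.2⟩
  · intro T _; exact neg_neg T
  · intro T _; exact neg_neg T
  · intro T _
    have h1 := ha T (-q)
    rw [neg_neg] at h1
    have h2 := inc_neg T (-q)
    rw [neg_neg] at h2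
    show _ = (kap n (-T) : ZMod 3) * (inc (-T) q : ZMod 3) * a (-T) q
    rw [kap_neg, h2, h1]

theorem yc_lin {n : Fin 4 → ℕ} (a b : Cell → Cell → ZMod 3) (σ : ZMod 3) (q : Cell) :
    yc n (fun c c' => a c c' - σ * b c c') q = yc n a q - σ * yc n b q := by
  unfold yc
  rw [mul_neg, Finset.mul_sum, sub_neg_eq_add, neg_add_eq_sub, ← Finset.sum_sub_distrib,
    ← Finset.sum_neg_distrib]
  refine Finset.sum_congr rfl fun T _ => ?_
  ring

private theorem isCx_bd (n : Fin 4 → ℕ) : IsCx (dinc (ZMod 3)) (bd n) := by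
  have h : Conv (bd n \ ∅) := conv_sdiff (isComplex_bd n) (fun b hb => absurd hb (Finset.notMem_empty b))
  rw [Finset.sdiff_empty] at h
  exact isCx_dinc h

/-- `∂ ∂ = 0`, with the dimension filter -/
private theorem dd_zero {n : Fin 4 → ℕ} {a c : Cell} (ha : a ∈ bd n) (hc : c ∈ bd n) (d : ℕ)
    (hd : dim c + 1 = d) :
    ∑ b ∈ (bd n).filter (fun b => dim b = d), (inc a b : ZMod 3) * (inc b c : ZMod 3) = 0 := by
  have h := isCx_bd n a ha c hc
  rw [← h, Finset.sum_filter]
  refine Finset.sum_congr rfl fun b _ => ?_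
  unfold dinc
  split_ifs with hb
  · rfl
  · have : inc b c = 0 := by
      by_contra h0
      exact hb (by rw [(le_of_inc h0).2]; exact hd)
    rw [this]; simp

private theorem flat_eq {A : Finset Cell} {a : Cell → Cell → ZMod 3} (hf : Flat a A)
    {T q q' c : Cell} (hT : T ∈ A) (hc : c ∈ A) (h1 : inc T q ≠ 0) (h2 : inc q c ≠ 0)
    (h1' : inc T q' ≠ 0) (h2' : inc q' c ≠ 0) : a T q + a q c = a T q' + a q' c := by
  obtain ⟨i, hi, hqi⟩ := inc_ne.1 h1
  obtain ⟨j, hj, hcj⟩ := inc_ne.1 h2
  obtain ⟨i', hi', hqi'⟩ := inc_ne.1 h1'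
  obtain ⟨j', hj', hcj'⟩ := inc_ne.1 h2'
  obtain ⟨s, hs, rfl⟩ : ∃ s : ℤ, (s = 1 ∨ s = -1) ∧ q = T + s • e i := by
    rcases hqi with h | h
    · exact ⟨1, Or.inl rfl, by rw [h, one_smul]⟩
    · exact ⟨-1, Or.inr rfl, by rw [h, neg_smul, one_smul]; abel⟩
  obtain ⟨s', hs', rfl⟩ : ∃ s : ℤ, (s = 1 ∨ s = -1) ∧ q' = T + s • e i' := by
    rcases hqi' with h | h
    · exact ⟨1, Or.inl rfl, by rw [h, one_smul]⟩
    · exact ⟨-1, Or.inr rfl, by rw [h, neg_smul, one_smul]; abel⟩
  obtain ⟨t, ht, rfl⟩ : ∃ t : ℤ, (t = 1 ∨ t = -1) ∧ c = T + s • e i + t • e j := by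
    rcases hcj with h | h
    · exact ⟨1, Or.inl rfl, by rw [h, one_smul]⟩
    · exact ⟨-1, Or.inr rfl, by rw [h, neg_smul, one_smul]; abel⟩
  obtain ⟨t', ht', hce⟩ : ∃ t' : ℤ, (t' = 1 ∨ t' = -1) ∧
      T + s • e i + t • e j = T + s' • e i' + t' • e j' := by
    rcases hcj' with h | h
    · exact ⟨1, Or.inl rfl, by rw [h, one_smul]⟩
    · exact ⟨-1, Or.inr rfl, by rw [h, neg_smul, one_smul]; abel⟩
  have hij : i ≠ j := by
    rintro rfl
    simp only [Pi.add_apply, Pi.smul_apply, smul_eq_mul, e_same, mul_one] at hj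
    omega
  have hij' : i' ≠ j' := by
    rintro rfl
    simp only [Pi.add_apply, Pi.smul_apply, smul_eq_mul, e_same, mul_one] at hj'
    omega
  have hTj : T j % 2 = 1 := by
    simpa [e_ne (Ne.symm hij)] using hj
  have hvi := congrFun hce i
  have hvj := congrFun hce j
  simp only [Pi.add_apply, Pi.smul_apply, smul_eq_mul, e_same, mul_one, e_ne hij,
    e_ne (Ne.symm hij), mul_zero, add_zero] at hvi hvj
  by_cases hii : i = i'
  · subst hii
    rw [e_same, e_ne hij'] at hvi
    have hss : s = s' := by omega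
    subst hss
    rfl
  · rw [e_ne hii] at hvi
    have hij2 : i = j' := by
      by_contra hne
      rw [e_ne hne] at hvi
      omega
    subst hij2
    rw [e_same] at hvi
    rw [e_ne (Ne.symm hij)] at hvj
    have hji : j = i' := by
      by_contra hne
      rw [e_ne hne] at hvj
      omega
    subst hji
    rw [e_same] at hvj
    have hst : s = t' := by omega
    have hts : t = s' := by omega
    subst hst hts
    exact hf T hT i j hij hi hTj s t hs ht hc

theorem yc_flat {n : Fin 4 → ℕ} {B : Finset Cell} (hB : IsComplex B)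
    {a : Cell → Cell → ZMod 3} (hf : Flat a (bd n \ B)) {c : Cell} (hc : c ∈ bd n)
    (hd : dim c = 1) (hcB : c ∉ B) : dyc n a c = 0 := by
  classical
  have hcA : c ∈ bd n \ B := Finset.mem_sdiff.2 ⟨hc, hcB⟩
  -- the common value
  have hx : ∀ T : Cell, ∃ x : ZMod 3, T ∈ bd n → ∀ q, inc T q ≠ 0 → inc q c ≠ 0 →
      a T q + a q c = x := by
    intro T
    by_cases h : ∃ q0, inc T q0 ≠ 0 ∧ inc q0 c ≠ 0
    · obtain ⟨q0, h1, h2⟩ := h
      refine ⟨a T q0 + a q0 c, fun hT q h1' h2' => ?_⟩
      have hTB : T ∉ B := by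
        intro hTB
        exact hcB (hB q0 (hB T hTB q0 (le_of_inc h1).1) c (le_of_inc h2).1)
      exact flat_eq hf (Finset.mem_sdiff.2 ⟨hT, hTB⟩) hcA h1' h2' h1 h2
    · exact ⟨0, fun _ q h1 h2 => absurd ⟨q, h1, h2⟩ h⟩
  choose x hx using hx
  unfold dyc yc
  have e1 : ∀ q : Cell, (-∑ T ∈ (bd n).filter (fun T => dim T = 3),
      (kap n T : ZMod 3) * (inc T q : ZMod 3) * a T q) * (inc q c : ZMod 3) =
      ∑ T ∈ (bd n).filter (fun T => dim T = 3),
        ((kap n T : ZMod 3) * (inc T q : ZMod 3) * (inc q c : ZMod 3) * a q c -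
          (kap n T : ZMod 3) * x T * ((inc T q : ZMod 3) * (inc q c : ZMod 3))) := by
    intro q
    rw [neg_mul, Finset.sum_mul, ← Finset.sum_neg_distrib]
    refine Finset.sum_congr rfl fun T hT => ?_
    by_cases h1 : inc T q = 0
    · rw [h1]; simp
    by_cases h2 : inc q c = 0
    · rw [h2]; simp
    have h3 := hx T (Finset.mem_filter.1 hT).1 q h1 h2
    rw [← h3]
    ring
  rw [Finset.sum_congr rfl fun q _ => e1 q]
  simp only [Finset.sum_sub_distrib]
  have e2 : ∑ q ∈ (bd n).filter (fun q => dim q = 2), ∑ T ∈ (bd n).filter (fun T => dim T = 3),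
      (kap n T : ZMod 3) * (inc T q : ZMod 3) * (inc q c : ZMod 3) * a q c = 0 := by
    refine Finset.sum_eq_zero fun q hq => ?_
    obtain ⟨hq1, hq2⟩ := Finset.mem_filter.1 hq
    have h4 := kap_cyc q hq1 hq2
    have h5 : (∑ T ∈ (bd n).filter (fun T => dim T = 3),
        (kap n T : ZMod 3) * (inc T q : ZMod 3)) = 0 := by
      have := congrArg (fun z : ℤ => (z : ZMod 3)) h4
      simpa using this
    rw [← Finset.sum_mul, ← Finset.sum_mul, h5]
    simp
  have e3 : ∑ q ∈ (bd n).filter (fun q => dim q = 2), ∑ T ∈ (bd n).filter (fun T => dim T = 3),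
      (kap n T : ZMod 3) * x T * ((inc T q : ZMod 3) * (inc q c : ZMod 3)) = 0 := by
    rw [Finset.sum_comm]
    refine Finset.sum_eq_zero fun T hT => ?_
    rw [← Finset.mul_sum, dd_zero (Finset.mem_filter.1 hT).1 hc 2 (by omega), mul_zero]
  rw [e2, e3, sub_zero]

theorem yc_mono {n : Fin 4 → ℕ} (a : Cell → Cell → ZMod 3) {c : Cell} (hc : c ∈ Box n)
    (hd : dim c = 1) (i j k : Fin 4) (hij : i < j) (hik : i ≠ k) (hjk : j ≠ k)
    (hi : c i % 2 = 0) (hj : c j % 2 = 0) (hk : c k = 2 * (n k : ℤ) ∨ c k = -(2 * (n k : ℤ)))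
    (hn : 1 ≤ n k)
    (hi' : -(2 * (n i : ℤ)) < c i ∧ c i < 2 * (n i : ℤ))
    (hj' : -(2 * (n j : ℤ)) < c j ∧ c j < 2 * (n j : ℤ)) :
    dyc n a c = mono a c i j ∨ dyc n a c = - mono a c i j := by
  have hkc : c k % 2 = 0 := by omega
  have hcb := mem_box.1 hc
  -- the fourth coordinate is odd
  have hodd : ∀ m, m ≠ i → m ≠ j → m ≠ k → c m % 2 = 1 := by
    intro m hmi hmj hmk
    by_contra h
    have h0 : dim c = 0 := by
      unfold dim
      rw [Finset.card_eq_zero, Finset.filter_eq_empty_iff]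
      intro l _
      have : l = i ∨ l = j ∨ l = k ∨ l = m := four i j k m l (ne_of_lt hij) hik hjk hmi hmj hmk
      rcases this with rfl | rfl | rfl | rfl <;> omega
    omega
  have hfilt : Finset.univ.filter (fun m => m ≠ k ∧ c m % 2 = 0) = {i, j} := by
    ext m
    simp only [Finset.mem_filter, Finset.mem_univ, true_and, Finset.mem_insert,
      Finset.mem_singleton]
    constructor
    · rintro ⟨h1, h2⟩
      by_contra h
      push Not at h
      have := hodd m h.1 h.2 h1
      omega
    · rintro (rfl | rfl)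
      · exact ⟨hik, hi⟩
      · exact ⟨hjk, hj⟩
  have hdyc : dyc n a c = (yc n a (c + e i) + yc n a (c - e i)) * (sgn i c : ZMod 3) +
      (yc n a (c + e j) + yc n a (c - e j)) * (sgn j c : ZMod 3) := by
    unfold dyc
    rw [sum_cof hc hk ?_ 2 (by omega) (yc n a), hfilt, Finset.sum_pair (ne_of_lt hij)]
    intro m hm hm2
    by_cases hmi : m = i
    · subst hmi; exact hi'
    by_cases hmj : m = j
    · subst hmj; exact hj'
    have := hodd m hmi hmj hm
    omega
  -- the squares
  have hsq : ∀ (p r : Fin 4) (q : Cell), p ≠ r → p ≠ k → r ≠ k → c p % 2 = 0 → c r % 2 = 0 →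
      (∀ m, m ≠ p → m ≠ r → m ≠ k → c m % 2 = 1) →
      (-(2 * (n p : ℤ)) < c p ∧ c p < 2 * (n p : ℤ)) →
      (-(2 * (n r : ℤ)) < c r ∧ c r < 2 * (n r : ℤ)) →
      (q = c + e p ∨ q = c - e p) →
      (∀ {S : Type} [CommRing S] (g : Cell → S),
        ∑ T ∈ (bd n).filter (fun T => dim T = 3), g T * (inc T q : S) =
          (g (q + e r) + g (q - e r)) * (sgn r q : S)) ∧ q ∈ bd n ∧ dim q = 2 := by
    intro p r q hpr hpk hrk hp hr ho hp' hr' hq
    have hq1 : ∀ m, m ≠ p → q m = c m := by
      intro m hm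
      rcases hq with rfl | rfl
      · simp [e_ne hm]
      · simp [e_ne hm]
    have hq2 : q p = c p + 1 ∨ q p = c p - 1 := by
      rcases hq with rfl | rfl
      · left; simp [e_same]
      · right; simp [e_same]
    have hq3 : q p % 2 = 1 := by omega
    have hqb : q ∈ Box n := by
      rw [mem_box]
      intro m
      by_cases hm : m = p
      · subst hm; omega
      · rw [hq1 m hm]; exact hcb m
    have hqk : q k = 2 * (n k : ℤ) ∨ q k = -(2 * (n k : ℤ)) := by
      rw [hq1 k (Ne.symm hpk)]; exact hk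
    have hqd : dim q = 2 := by rw [dim_succ hq1 hp hq3, hd]
    refine ⟨?_, mem_bd.2 ⟨hqb, k, hqk⟩, hqd⟩
    intro S _ g
    have hf : Finset.univ.filter (fun m => m ≠ k ∧ q m % 2 = 0) = {r} := by
      ext m
      simp only [Finset.mem_filter, Finset.mem_univ, true_and, Finset.mem_singleton]
      constructor
      · rintro ⟨h1, h2⟩
        by_contra h
        by_cases hmp : m = p
        · subst hmp; omega
        · rw [hq1 m hmp] at h2
          have := ho m hmp h h1
          omega
      · rintro rfl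
        exact ⟨hrk, by rw [hq1 _ (Ne.symm hpr)]; exact hr⟩
    rw [sum_cof hqb hqk ?_ 3 (by omega) g, hf, Finset.sum_singleton]
    intro m hm hm2
    by_cases hmr : m = r
    · subst hmr; rw [hq1 _ (Ne.symm hpr)]; exact hr'
    exfalso
    have : m ∈ Finset.univ.filter (fun m => m ≠ k ∧ q m % 2 = 0) := by
      simp only [Finset.mem_filter, Finset.mem_univ, true_and]
      exact ⟨hm, hm2⟩
    rw [hf, Finset.mem_singleton] at this
    exact hmr this
  have hodd' : ∀ m, m ≠ j → m ≠ i → m ≠ k → c m % 2 = 1 := fun m h1 h2 h3 => hodd m h2 h1 h3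
  obtain ⟨A1, A2, A3⟩ := hsq i j (c + e i) (ne_of_lt hij) hik hjk hi hj hodd hi' hj' (Or.inl rfl)
  obtain ⟨B1, B2, B3⟩ := hsq i j (c - e i) (ne_of_lt hij) hik hjk hi hj hodd hi' hj' (Or.inr rfl)
  obtain ⟨C1, C2, C3⟩ := hsq j i (c + e j) (ne_of_gt hij) hjk hik hj hi hodd' hj' hi' (Or.inl rfl)
  obtain ⟨D1, D2, D3⟩ := hsq j i (c - e j) (ne_of_gt hij) hjk hik hj hi hodd' hj' hi' (Or.inr rfl)
  -- signs
  have s1 : sgn j (c + e i) = - sgn j c :=
    sgn_flip hij (fun m hm => by simp [e_ne hm]) hi (by simp [e_same]; omega)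
  have s2 : sgn j (c - e i) = - sgn j c :=
    sgn_flip hij (fun m hm => by simp [e_ne hm]) hi (by simp [e_same]; omega)
  have s3 : sgn i (c + e j) = sgn i c :=
    sgn_congr fun m hm => by simp [e_ne (ne_of_lt (lt_trans hm hij))]
  have s4 : sgn i (c - e j) = sgn i c :=
    sgn_congr fun m hm => by simp [e_ne (ne_of_lt (lt_trans hm hij))]
  have r1 : c + e j + e i = c + e i + e j := by abel
  have r2 : c + e j - e i = c - e i + e j := by abel
  have r3 : c - e j + e i = c + e i - e j := by abel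
  have r4 : c - e j - e i = c - e i - e j := by abel
  have hsj := sgn_sq j c
  have hsi := sgn_sq i c
  -- the values of kap
  have kA := kap_cyc (n := n) (c + e i) A2 A3
  have kB := kap_cyc (n := n) (c - e i) B2 B3
  have kC := kap_cyc (n := n) (c + e j) C2 C3
  have a1 := A1 (S := ℤ) (kap n)
  have b1 := B1 (S := ℤ) (kap n)
  have c1 := C1 (S := ℤ) (kap n)
  simp only [Int.cast_id] at a1 b1 c1
  rw [kA, s1] at a1
  rw [kB, s2] at b1
  rw [kC, s3, r1, r2] at c1
  have hsj0 : sgn j c ≠ 0 := by rcases hsj with h | h <;> rw [h] <;> norm_num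
  have hsi0 : sgn i c ≠ 0 := by rcases hsi with h | h <;> rw [h] <;> norm_num
  have k1 : kap n (c + e i - e j) = - kap n (c + e i + e j) := by
    have : kap n (c + e i + e j) + kap n (c + e i - e j) = 0 := by
      rcases mul_eq_zero.1 a1.symm with h | h
      · exact h
      · exact absurd (neg_eq_zero.1 h) hsj0
    omega
  have k3 : kap n (c - e i + e j) = - kap n (c + e i + e j) := by
    have : kap n (c + e i + e j) + kap n (c - e i + e j) = 0 := by
      rcases mul_eq_zero.1 c1.symm with h | h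
      · exact h
      · exact absurd h hsi0
    omega
  have k2 : kap n (c - e i - e j) = kap n (c + e i + e j) := by
    have : kap n (c - e i + e j) + kap n (c - e i - e j) = 0 := by
      rcases mul_eq_zero.1 b1.symm with h | h
      · exact h
      · exact absurd (neg_eq_zero.1 h) hsj0
    omega
  -- yc at the squares
  have hyc : ∀ q : Cell, yc n a q = -∑ T ∈ (bd n).filter (fun T => dim T = 3),
      ((kap n T : ZMod 3) * a T q) * (inc T q : ZMod 3) := by
    intro q
    unfold yc
    congr 1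
    refine Finset.sum_congr rfl fun T _ => ?_
    ring
  have yA := hyc (c + e i)
  have yB := hyc (c - e i)
  have yC := hyc (c + e j)
  have yD := hyc (c - e j)
  rw [A1 (S := ZMod 3) (fun T => (kap n T : ZMod 3) * a T (c + e i)), s1] at yA
  rw [B1 (S := ZMod 3) (fun T => (kap n T : ZMod 3) * a T (c - e i)), s2] at yB
  rw [C1 (S := ZMod 3) (fun T => (kap n T : ZMod 3) * a T (c + e j)), s3, r1, r2] at yC
  rw [D1 (S := ZMod 3) (fun T => (kap n T : ZMod 3) * a T (c - e j)), s4, r3, r4] at yD
  rw [k1] at yA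
  rw [k3, k2] at yB
  rw [k3] at yC
  rw [k1, k2] at yD
  have hT : kap n (c + e i + e j) = 1 ∨ kap n (c + e i + e j) = -1 := by
    refine kap_bd ?_ ?_ ?_
    · intro m
      by_cases hmk : m = k
      · subst hmk; exact hn
      by_cases hmi : m = i
      · subst hmi; omega
      by_cases hmj : m = j
      · subst hmj; omega
      have h1 := hodd m hmi hmj hmk
      have h2 := hcb m
      omega
    · rw [mem_bd, mem_box]
      refine ⟨fun m => ?_, k, ?_⟩
      · have h0 := hcb m
        by_cases hmi : m = i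
        · subst hmi
          simp only [Pi.add_apply, e_same, e_ne (ne_of_lt hij)]
          omega
        by_cases hmj : m = j
        · subst hmj
          simp only [Pi.add_apply, e_same, e_ne (ne_of_gt hij)]
          omega
        simp only [Pi.add_apply, e_ne hmi, e_ne hmj]
        omega
      · simp only [Pi.add_apply, e_ne (Ne.symm hik), e_ne (Ne.symm hjk)]
        omega
    · rw [dim_succ (c := c + e i) (i := j) (fun m hm => by simp [e_ne hm])
        (by simp [e_ne (ne_of_gt hij)]; omega) (by simp [e_same, e_ne (ne_of_gt hij)]; omega), A3]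
  have hmain : dyc n a c = (kap n (c + e i + e j) : ZMod 3) * (sgn i c : ZMod 3) *
      (sgn j c : ZMod 3) * mono a c i j := by
    rw [hdyc, yA, yB, yC, yD]
    unfold mono
    push_cast
    ring
  rw [hmain]
  rcases hT with hT | hT <;> rcases hsi with hsi | hsi <;> rcases hsj with hsj | hsj <;>
    rw [hT, hsi, hsj] <;> push_cast <;> first
      | (left; ring1) | (right; ring1)

theorem yc_cyc {n : Fin 4 → ℕ} (a : Cell → Cell → ZMod 3) (v : Cell) (hv : v ∈ bd n)
    (hd : dim v = 0) :
    ∑ c ∈ (bd n).filter (fun c => dim c = 1), dyc n a c * (inc c v : ZMod 3) = 0 := by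
  unfold dyc
  have e1 : ∀ c : Cell, (∑ q ∈ (bd n).filter (fun q => dim q = 2),
      yc n a q * (inc q c : ZMod 3)) * (inc c v : ZMod 3) =
      ∑ q ∈ (bd n).filter (fun q => dim q = 2),
        yc n a q * ((inc q c : ZMod 3) * (inc c v : ZMod 3)) := by
    intro c
    rw [Finset.sum_mul]
    refine Finset.sum_congr rfl fun q _ => ?_
    ring
  rw [Finset.sum_congr rfl fun c _ => e1 c, Finset.sum_comm]
  refine Finset.sum_eq_zero fun q hq => ?_
  rw [← Finset.mul_sum, dd_zero (Finset.mem_filter.1 hq).1 hv 1 (by omega), mul_zero]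

end Cub
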