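import Pool.Agent.H33.CB.BdCyc
import Pool.Agent.H33.CB.YCyc
import Pool.Agent.H33.CB.CurveCyc
import Pool.Agent.H33.CB.GaugeExt

/-!
# Module Uniq (about 120 lines): uniqueness of the local system on the boundary

`B` a symmetric curve in `bd n`; `a`, `b` flat symmetric local systems on `bd n \ B` with
`dyc a`, `dyc b` not identically zero on `B`.  By `yc_flat` both are supported on `B`, by `yc_cyc` they are
one-cycles of `B` (the sum over the edges of `bd n` reduces to `B`), so `dyc a = σ dyc b` (`curve_cyc`).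
`c = a - σ b` is flat and symmetric, `yc c = yc a - σ yc b` is a cycle, `= ∂ h` (`bd_cyc`).
`g T = kap T * h T`: for a square `q` of `bd n` with the cofaces `T ≠ T'` in `bd n`:
`kap T * inc T q = - kap T' * inc T' q =: s` (`kap_cyc`, sum of two terms), so
`yc c q = - s (c T q - c T' q)` and `= s (g T - g T')` (`kap^2 = 1`), so `g T + c T q = g T' + c T' q`.
Apply `gauge_ext`.
-/

namespace Cub

/-- the cofaces in the boundary of the box -/
private noncomputable def Uniq_S (n : Fin 4 → ℕ) (q : Cell) : Finset Cell :=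
  ((bd n).filter (fun T => dim T = 3)).filter (fun T => inc T q ≠ 0)

private theorem Uniq_card {n : Fin 4 → ℕ} {q : Cell} (hq : q ∈ bd n) (hd : dim q = 2) :
    (Uniq_S n q).card ≤ 3 := by
  obtain ⟨hbox, k, hk⟩ := mem_bd.1 hq
  have hkev : q k % 2 = 0 := by
    rcases hk with hk | hk
    · rw [hk]; omega
    · rw [hk]; omega
  have hc : (Finset.univ.filter (fun i : Fin 4 => ¬ q i % 2 = 1)).card = 2 := by
    have h1 := Finset.card_filter_add_card_filter_not (s := (Finset.univ : Finset (Fin 4)))
      (fun i => q i % 2 = 1)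
    have h2 : (Finset.univ.filter (fun i => q i % 2 = 1)).card = 2 := hd
    rw [h2, Finset.card_univ, Fintype.card_fin] at h1
    omega
  obtain ⟨j, hj⟩ : ∃ j, ∀ i, ¬ q i % 2 = 1 → i = k ∨ i = j := by
    obtain ⟨x, y, hxy, he⟩ := Finset.card_eq_two.1 hc
    have hkm : k ∈ (Finset.univ.filter (fun i : Fin 4 => ¬ q i % 2 = 1)) := by
      rw [Finset.mem_filter]
      exact ⟨Finset.mem_univ _, by omega⟩
    rw [he, Finset.mem_insert, Finset.mem_singleton] at hkm
    rcases hkm with rfl | rfl
    · refine ⟨y, fun i hi => ?_⟩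
      have h3 : i ∈ (Finset.univ.filter (fun i : Fin 4 => ¬ q i % 2 = 1)) := by
        rw [Finset.mem_filter]
        exact ⟨Finset.mem_univ _, hi⟩
      rw [he, Finset.mem_insert, Finset.mem_singleton] at h3
      exact h3
    · refine ⟨x, fun i hi => ?_⟩
      have h3 : i ∈ (Finset.univ.filter (fun i : Fin 4 => ¬ q i % 2 = 1)) := by
        rw [Finset.mem_filter]
        exact ⟨Finset.mem_univ _, hi⟩
      rw [he, Finset.mem_insert, Finset.mem_singleton] at h3
      exact h3.symm
  have hT : ∀ T ∈ Uniq_S n q, (∀ i, -(2 * (n i : ℤ)) ≤ T i ∧ T i ≤ 2 * (n i : ℤ)) ∧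
      ((T = q - e k ∨ T = q + e k) ∨ (T = q - e j ∨ T = q + e j)) := by
    intro T hT
    unfold Uniq_S at hT
    rw [Finset.mem_filter, Finset.mem_filter] at hT
    obtain ⟨⟨hTb, -⟩, hi⟩ := hT
    refine ⟨mem_box.1 (mem_bd.1 hTb).1, ?_⟩
    obtain ⟨i, hi1, hi2⟩ := inc_ne.1 hi
    have hei : e i i = 1 := Pi.single_eq_same i 1
    have hqi : ¬ q i % 2 = 1 := by
      rcases hi2 with h | h
      · have h3 := congrFun h i
        rw [Pi.add_apply, hei] at h3
        omega
      · have h3 := congrFun h i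
        rw [Pi.sub_apply, hei] at h3
        omega
    have hT2 : T = q - e i ∨ T = q + e i := by
      rcases hi2 with h | h
      · left; rw [h]; abel
      · right; rw [h]; abel
    rcases hj i hqi with rfl | rfl
    · exact Or.inl hT2
    · exact Or.inr hT2
  have hek : e k k = 1 := Pi.single_eq_same k 1
  rcases hk with hk | hk
  · refine (Finset.card_le_card (t := {q - e k, q - e j, q + e j}) ?_).trans Finset.card_le_three
    intro T hTS
    obtain ⟨hb, (h | h) | (h | h)⟩ := hT T hTS
    · rw [h]; simp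
    · exfalso
      have h3 := (hb k).2
      have h4 := congrFun h k
      rw [Pi.add_apply, hek] at h4
      omega
    · rw [h]; simp
    · rw [h]; simp
  · refine (Finset.card_le_card (t := {q + e k, q - e j, q + e j}) ?_).trans Finset.card_le_three
    intro T hTS
    obtain ⟨hb, (h | h) | (h | h)⟩ := hT T hTS
    · exfalso
      have h3 := (hb k).1
      have h4 := congrFun h k
      rw [Pi.sub_apply, hek] at h4
      omega
    · rw [h]; simp
    · rw [h]; simp
    · rw [h]; simp

private theorem Uniq_pm {n : Fin 4 → ℕ} (hn : ∀ i, 1 ≤ n i) {q T : Cell} (hT : T ∈ Uniq_S n q) :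
    kap n T * inc T q = 1 ∨ kap n T * inc T q = -1 := by
  unfold Uniq_S at hT
  rw [Finset.mem_filter, Finset.mem_filter] at hT
  obtain ⟨⟨hTb, hTd⟩, hi⟩ := hT
  rcases kap_bd hn hTb hTd with h | h <;> rcases inc_val T q with h' | h' | h' <;>
    simp_all

private theorem Uniq_pair {n : Fin 4 → ℕ} (hn : ∀ i, 1 ≤ n i) {q T T' : Cell} (hq : q ∈ bd n) (hd : dim q = 2)
    (hT : T ∈ Uniq_S n q) (hT' : T' ∈ Uniq_S n q) (hne : T ≠ T') :
    Uniq_S n q = {T, T'} ∧ kap n T * inc T q + kap n T' * inc T' q = 0 := by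
  have hsum : ∑ S ∈ Uniq_S n q, kap n S * inc S q = 0 := by
    rw [← kap_cyc q hq hd]
    unfold Uniq_S
    refine Finset.sum_filter_of_ne fun S _ hS h0 => hS ?_
    rw [h0, mul_zero]
  have hS : Uniq_S n q = {T, T'} := by
    by_contra hcon
    have hex : ∃ U ∈ Uniq_S n q, U ≠ T ∧ U ≠ T' := by
      by_contra hno
      push Not at hno
      apply hcon
      ext U
      rw [Finset.mem_insert, Finset.mem_singleton]
      constructor
      · intro hU
        by_cases hUT : U = T
        · exact Or.inl hUT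
        · exact Or.inr (hno U hU hUT)
      · rintro (rfl | rfl)
        · exact hT
        · exact hT'
    obtain ⟨U, hU, hUT, hUT'⟩ := hex
    have hc3 : ({T, T', U} : Finset Cell).card = 3 := by
      rw [Finset.card_eq_three]
      exact ⟨T, T', U, hne, fun h => hUT h.symm, fun h => hUT' h.symm, rfl⟩
    have hsub : ({T, T', U} : Finset Cell) ⊆ Uniq_S n q := by
      intro x hx
      rw [Finset.mem_insert, Finset.mem_insert, Finset.mem_singleton] at hx
      rcases hx with rfl | rfl | rfl
      · exact hT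
      · exact hT'
      · exact hU
    have heq : ({T, T', U} : Finset Cell) = Uniq_S n q :=
      Finset.eq_of_subset_of_card_le hsub (by rw [hc3]; exact Uniq_card hq hd)
    rw [← heq, Finset.sum_insert, Finset.sum_insert, Finset.sum_singleton] at hsum
    · rcases Uniq_pm hn hT with h1 | h1 <;> rcases Uniq_pm hn hT' with h2 | h2 <;>
        rcases Uniq_pm hn hU with h3 | h3 <;> rw [h1, h2, h3] at hsum <;> norm_num at hsum
    · rw [Finset.mem_singleton]
      exact fun h => hUT' h.symm
    · rw [Finset.mem_insert, Finset.mem_singleton]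
      rintro (h | h)
      · exact hne h
      · exact hUT h.symm
  refine ⟨hS, ?_⟩
  rw [hS, Finset.sum_pair hne] at hsum
  exact hsum

private theorem Uniq_alg (κ κ' ι ι' x x' y y' : ZMod 3) (k1 : κ * κ = 1) (k2 : κ' * κ' = 1)
    (hs2 : (κ * ι) * (κ * ι) = 1) (h0 : κ * ι + κ' * ι' = 0)
    (e1 : -(κ * ι * y + κ' * ι' * y') = x * ι + x' * ι') : κ * x + y = κ' * x' + y' := by
  linear_combination (-(κ * x + y - κ' * x' - y')) * hs2 + (κ * ι) * (-e1 + ι * x * k1 +
    ι' * x' * k2 - (κ' * x' + y') * h0)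

private theorem Uniq_flat {A : Finset Cell} {a b : Cell → Cell → ZMod 3} (σ : ZMod 3)
    (fa : Flat a A) (fb : Flat b A) : Flat (fun x x' => a x x' - σ * b x x') A := by
  intro c hc i j hij hi hj s t hs ht hm
  have h1 := fa c hc i j hij hi hj s t hs ht hm
  have h2 := fb c hc i j hij hi hj s t hs ht hm
  simp only
  linear_combination h1 - σ * h2

theorem uniq {n : Fin 4 → ℕ} (hn : ∀ i, 1 ≤ n i) {B : Finset Cell} (hB : IsCurve B) (hBn : B ⊆ bd n)
    (hs : Sym B) {a b : Cell → Cell → ZMod 3} (ha : SymA a) (hb : SymA b)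
    (fa : Flat a (bd n \ B)) (fb : Flat b (bd n \ B))
    (na : ∃ c ∈ B, dim c = 1 ∧ dyc n a c ≠ 0) (nb : ∃ c ∈ B, dim c = 1 ∧ dyc n b c ≠ 0) :
    ∃ σ : ZMod 3, σ ≠ 0 ∧ ∃ G : Cell → ZMod 3, (∀ x, G (-x) = G x) ∧
      ∀ x ∈ bd n \ B, ∀ x' ∈ bd n \ B, inc x x' ≠ 0 → a x x' = σ * b x x' + G x' - G x := by
  -- the boundaries of the two-chains are one-cycles of the curve
  have hcyc : ∀ f : Cell → Cell → ZMod 3, Flat f (bd n \ B) → ∀ v ∈ B, dim v = 0 →
      ∑ c ∈ B.filter (fun c => dim c = 1), dyc n f c * (inc c v : ZMod 3) = 0 := by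
    intro f hf v hv hvd
    rw [← yc_cyc f v (hBn hv) hvd]
    refine Finset.sum_subset ?_ ?_
    · intro c hc
      rw [Finset.mem_filter] at hc ⊢
      exact ⟨hBn hc.1, hc.2⟩
    · intro c hc hc'
      rw [Finset.mem_filter] at hc
      have hcB : c ∉ B := fun h => hc' (Finset.mem_filter.2 ⟨h, hc.2⟩)
      rw [yc_flat hB.cx hf hc.1 hc.2 hcB, zero_mul]
  obtain ⟨σ, hσ, hσ'⟩ := curve_cyc hB (dyc n a) (dyc n b) (hcyc a fa) (hcyc b fb) na nb
  refine ⟨σ, hσ, ?_⟩
  -- the difference
  have hcs : SymA (fun x x' => a x x' - σ * b x x') := by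
    intro x x'
    show a (-x) (-x') - σ * b (-x) (-x') = a x x' - σ * b x x'
    rw [ha, hb]
  have hcf := Uniq_flat σ fa fb
  have hdy : ∀ x ∈ bd n, dim x = 1 →
      ∑ q ∈ (bd n).filter (fun q => dim q = 2),
        yc n (fun x x' => a x x' - σ * b x x') q * (inc q x : ZMod 3) = 0 := by
    intro x hx hxd
    have h1 : ∑ q ∈ (bd n).filter (fun q => dim q = 2),
        yc n (fun x x' => a x x' - σ * b x x') q * (inc q x : ZMod 3) =
        dyc n a x - σ * dyc n b x := by
      unfold dyc
      rw [Finset.mul_sum, ← Finset.sum_sub_distrib]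
      refine Finset.sum_congr rfl fun q _ => ?_
      rw [yc_lin]
      ring
    rw [h1]
    by_cases hxB : x ∈ B
    · rw [hσ' x hxB hxd, sub_self]
    · rw [yc_flat hB.cx fa hx hxd hxB, yc_flat hB.cx fb hx hxd hxB, mul_zero, sub_zero]
  obtain ⟨h, hh1, hh2⟩ := bd_cyc hn (yc n (fun x x' => a x x' - σ * b x x')) hdy
    (fun q => yc_neg hcs q)
  have hkap2 : ∀ T ∈ bd n, dim T = 3 → (kap n T : ZMod 3) * (kap n T : ZMod 3) = 1 := by
    intro T hT hTd
    rcases kap_bd hn hT hTd with h1 | h1 <;> rw [h1] <;> norm_num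
  obtain ⟨G, hG1, hG2⟩ := gauge_ext hn hB.cx hB.dim_le hcf hcs hs
    (fun T => (kap n T : ZMod 3) * h T) (by
      intro q hq hqd T hT T' hT' hi hi'
      by_cases hne : T = T'
      · rw [hne]
      have hTd : dim T = 3 := by rw [(le_of_inc hi).2, hqd]
      have hTd' : dim T' = 3 := by rw [(le_of_inc hi').2, hqd]
      have hTS : T ∈ Uniq_S n q := by
        unfold Uniq_S
        rw [Finset.mem_filter, Finset.mem_filter]
        exact ⟨⟨hT, hTd⟩, hi⟩
      have hTS' : T' ∈ Uniq_S n q := by
        unfold Uniq_S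
        rw [Finset.mem_filter, Finset.mem_filter]
        exact ⟨⟨hT', hTd'⟩, hi'⟩
      obtain ⟨hS, h0⟩ := Uniq_pair hn hq hqd hTS hTS' hne
      have e1 := hh2 q hq hqd
      have e2 : ∑ T ∈ (bd n).filter (fun T => dim T = 3), h T * (inc T q : ZMod 3) =
          h T * (inc T q : ZMod 3) + h T' * (inc T' q : ZMod 3) := by
        rw [← Finset.sum_pair (f := fun T => h T * (inc T q : ZMod 3)) hne, ← hS]
        unfold Uniq_S
        symm
        refine Finset.sum_filter_of_ne fun S _ hS' h0' => hS' ?_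
        rw [h0', Int.cast_zero, mul_zero]
      have e3 : yc n (fun x x' => a x x' - σ * b x x') q =
          - ((kap n T : ZMod 3) * (inc T q : ZMod 3) * (a T q - σ * b T q) +
            (kap n T' : ZMod 3) * (inc T' q : ZMod 3) * (a T' q - σ * b T' q)) := by
        unfold yc
        congr 1
        rw [← Finset.sum_pair (f := fun T => (kap n T : ZMod 3) * (inc T q : ZMod 3) *
          (a T q - σ * b T q)) hne, ← hS]
        unfold Uniq_S
        symm
        refine Finset.sum_filter_of_ne fun S _ hS' h0' => hS' ?_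
        rw [h0', Int.cast_zero, mul_zero, zero_mul]
      rw [e2, e3] at e1
      have k1 := hkap2 T hT hTd
      have k2 := hkap2 T' hT' hTd'
      have h0' : (kap n T : ZMod 3) * (inc T q : ZMod 3) +
          (kap n T' : ZMod 3) * (inc T' q : ZMod 3) = 0 := by
        exact_mod_cast congrArg (Int.cast : ℤ → ZMod 3) h0
      have hs2 : ((kap n T : ZMod 3) * (inc T q : ZMod 3)) *
          ((kap n T : ZMod 3) * (inc T q : ZMod 3)) = 1 := by
        rcases Uniq_pm hn hTS with h1 | h1
        · have h2 : (kap n T : ZMod 3) * (inc T q : ZMod 3) = 1 := by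
            have h3 := congrArg (Int.cast : ℤ → ZMod 3) h1
            push_cast at h3
            exact h3
          rw [h2, one_mul]
        · have h2 : (kap n T : ZMod 3) * (inc T q : ZMod 3) = -1 := by
            have h3 := congrArg (Int.cast : ℤ → ZMod 3) h1
            push_cast at h3
            exact h3
          rw [h2]
          norm_num
      show (kap n T : ZMod 3) * h T + (a T q - σ * b T q) =
        (kap n T' : ZMod 3) * h T' + (a T' q - σ * b T' q)
      exact Uniq_alg _ _ _ _ _ _ _ _ k1 k2 hs2 h0' e1)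
  refine ⟨G, hG1, fun x hx x' hx' hi => ?_⟩
  have h1 : a x x' - σ * b x x' = G x' - G x := hG2 x hx x' hx' hi
  linear_combination h1

end Cub
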