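import Pool.Agent.H33.CB.Half
import Pool.Agent.H33.CB.Uniq
import Pool.Agent.H33.CB.Collar
import Pool.Agent.H33.CB.Orient
import Pool.Agent.H33.CB.AnnDisc
import Pool.Agent.H33.CB.Ring

/-!
# Module Neg (about 200 lines): the negative half

`K` a periodic knot in `bd n` with an explicit flat symmetric local system `aK` on `bd n \ K`, nontrivial around
one edge with one extremal coordinate, and odd length of the homology of `pos (bd n \ K)`.
Suppose `StdSlice n K`.  `disc_of_std`: `m`, `F`, `B`, `GoodDisc N F B`, `N = m n`.  `orient` and T5: `a`, `LocSys N F a`.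
`half`: `par (dq (dcoef ζ a)) (pos (bd N \ B)) = 0`.
`uniq` on `bd N` with `b = suba m aK`: `SymA` (`symA_suba`), `Flat` (`flat_suba`, `fine_bd`), nonzero `dyc`:
for `b`: a fine edge over the given edge of `K` (`exists_edge`), `suba_mono`, `yc_mono`; for `a`: `collar`,
`bd_mono`, `yc_mono` at any edge of `B`.
So `a = σ b + G x' - G x`, `σ = ± 1`.  `reidx` with `u x = zp ζ (G x)` on sections (the weights of `dq` change by
`u`; `G` symmetric): same parity as `dq (dcoef ζ (σ b))`; if `σ = -1` use `conj_len`.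
M1 for `A = bd n \ K`: `par (dq (dcoef ζ (suba m aK))) (pos (bd N \ B)) = par (dq (dcoef ζ aK)) (pos (bd n \ K)) = 1`.
Contradiction `0 = 1` in `ZMod 2`.
-/

namespace Cub

variable {R : Type} [CommRing R]

private theorem neg_cube {ζ : R} (h : ζ ^ 2 + ζ + 1 = 0) : ζ ^ 3 = 1 := by
  have : ζ ^ 3 - 1 = (ζ - 1) * (ζ ^ 2 + ζ + 1) := by ring
  rw [h, mul_zero] at this
  exact sub_eq_zero.1 this

private theorem neg_sym_bd (n : Fin 4 → ℕ) : Sym (bd n) := by
  intro c hc
  obtain ⟨h1, i, h2⟩ := mem_bd.1 hc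
  refine mem_bd.2 ⟨mem_box.2 fun j => ?_, i, ?_⟩
  · have := mem_box.1 h1 j
    simp only [Pi.neg_apply]
    omega
  · simp only [Pi.neg_apply]
    omega

private theorem neg_unit {ζ : R} (h3 : ζ ^ 3 = 1) (k : ZMod 3) : IsUnit (zp ζ k) := by
  have : IsUnit ζ := IsUnit.of_pow_eq_one h3 (by norm_num)
  exact this.pow _

private theorem neg_gauge {ζ : R} (h3 : ζ ^ 3 = 1) {A : Finset Cell} (hA : Sym A)
    {a b : Cell → Cell → ZMod 3} {G : Cell → ZMod 3} {σ : ZMod 3} (hG1 : ∀ x, G (-x) = G x)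
    (hG2 : ∀ x ∈ A, ∀ x' ∈ A, inc x x' ≠ 0 → a x x' = σ * b x x' + G x' - G x) :
    par (dq (dcoef ζ a)) (pos A) = par (dq (dcoef ζ (fun x x' => σ * b x x'))) (pos A) := by
  have key : ∀ x ∈ A, ∀ x' ∈ A,
      zp ζ (G x) * dcoef ζ a x x' = dcoef ζ (fun x x' => σ * b x x') x x' * zp ζ (G x') := by
    intro x hx x' hx'
    unfold dcoef
    by_cases h : inc x x' = 0
    · rw [h]; simp
    · have e1 : zp ζ (G x) * zp ζ (a x x') = zp ζ (σ * b x x') * zp ζ (G x') := by
        rw [← zp_add h3, ← zp_add h3, hG2 x hx x' hx' h]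
        congr 1
        ring
      calc zp ζ (G x) * ((inc x x' : R) * zp ζ (a x x'))
          = (inc x x' : R) * (zp ζ (G x) * zp ζ (a x x')) := by ring
        _ = (inc x x' : R) * (zp ζ (σ * b x x') * zp ζ (G x')) := by rw [e1]
        _ = (inc x x' : R) * zp ζ (σ * b x x') * zp ζ (G x') := by ring
  have hlen := (reidx (D := dq (dcoef ζ (fun x x' => σ * b x x'))) (E := dq (dcoef ζ a))
    (A := pos A) (B := pos A) (fun x => x) (fun x => zp ζ (G x))
    (fun x _ => neg_unit h3 _) (fun x _ y _ h => h) (by simp) (by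
      intro x hx x' hx'
      have hxA : x ∈ A := (Finset.mem_filter.1 hx).1
      have hxA' : x' ∈ A := (Finset.mem_filter.1 hx').1
      have k1 := key x hxA x' hxA'
      have k2 := key x hxA (-x') (hA _ hxA')
      rw [hG1] at k2
      simp only [dq]
      rw [mul_add, add_mul, k1, k2])).2
  unfold par
  rw [hlen]

private theorem neg_sigma {ζ : R} (hroot : ζ ^ 2 + ζ + 1 = 0) (hconj : ∃ f : R ≃+* R, f ζ = ζ ^ 2)
    {σ : ZMod 3} (hσ : σ ≠ 0) (b : Cell → Cell → ZMod 3) (B : Finset Cell) :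
    par (dq (dcoef ζ (fun x x' => σ * b x x'))) B = par (dq (dcoef ζ b)) B := by
  have h3 := neg_cube hroot
  obtain ⟨f, hf⟩ := hconj
  have hz : ∀ k : ZMod 3, zp ζ (-k) = f (zp ζ k) := by
    intro k
    unfold zp
    rw [map_pow, hf]
    have hk : k = 0 ∨ k = 1 ∨ k = 2 := by
      revert k; decide
    have v1 : (-(0 : ZMod 3)).val = 0 := by decide
    have v2 : (-(1 : ZMod 3)).val = 2 := by decide
    have v3 : (-(2 : ZMod 3)).val = 1 := by decide
    have v4 : (0 : ZMod 3).val = 0 := by decide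
    have v5 : (1 : ZMod 3).val = 1 := by decide
    have v6 : (2 : ZMod 3).val = 2 := by decide
    rcases hk with rfl | rfl | rfl
    · rw [v1, v4]; simp
    · rw [v2, v5]; simp
    · rw [v3, v6]
      have : (ζ ^ 2) ^ 2 = ζ ^ 3 * ζ := by ring
      rw [this, h3]; simp
  have hσ2 : σ = 1 ∨ σ = -1 := by
    revert σ; decide
  rcases hσ2 with rfl | rfl
  · simp only [one_mul]
  · have e : dq (dcoef ζ (fun x x' => -1 * b x x')) = fun x x' => f (dq (dcoef ζ b) x x') := by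
      funext x x'
      simp only [dq, dcoef, map_add, map_mul, map_intCast, neg_mul, one_mul, hz]
    unfold par
    rw [e, conj_len]

theorem not_std {n : Fin 4 → ℕ} (hn : ∀ i, 1 ≤ n i) {K : Finset Cell} (hK : IsPeriodicKnot n K)
    (aK : Cell → Cell → ZMod 3) (hs : SymA aK) (hf : Flat aK (bd n \ K))
    (hm : ∃ c ∈ K, dim c = 1 ∧ ∃ i j k : Fin 4, i < j ∧ i ≠ k ∧ j ≠ k ∧ c i % 2 = 0 ∧ c j % 2 = 0 ∧
      (c k = 2 * (n k : ℤ) ∨ c k = -(2 * (n k : ℤ))) ∧
      (-(2 * (n i : ℤ)) < c i ∧ c i < 2 * (n i : ℤ)) ∧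
      (-(2 * (n j : ℤ)) < c j ∧ c j < 2 * (n j : ℤ)) ∧ mono aK c i j ≠ 0)
    (hp : ∀ (R : Type) (_ : CommRing R) (ζ : R), Ring3 R ζ →
      par (dq (dcoef ζ aK)) (pos (bd n \ K)) = 1)
    (m1 : StM1) (m2 : StM2) (m3 : StM3) (t5 : StT5) : ¬ StdSlice n K := by
  intro hstd
  obtain ⟨hcur, hKn, hKs⟩ := hK
  obtain ⟨m, hm1, F, B, hB, hF⟩ := disc_of_std hcur.conn.1 hstd
  have hN : ∀ i, 1 ≤ m * n i := fun i => Nat.mul_pos hm1 (hn i)
  obtain ⟨w, hw1, hw2, hw3⟩ := orient hF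
  obtain ⟨a, ha⟩ := t5 _ F B hF w hw1 hw2 hw3
  obtain ⟨R, instR, ζ, hR⟩ := ring3_exists
  have h3 := neg_cube hR.root
  have h0 := half hR m1 m2 m3 hF ha
  -- the boundary curve
  have hBc : IsCurve B := curve_scale hm1 hcur hB
  have hBn : B ⊆ bd (fun i => m * n i) := by
    intro c hc
    rw [← hF.bdy] at hc
    exact (Finset.mem_inter.1 hc).2
  have hBs : Sym B := by
    intro c hc
    rw [← hF.bdy] at hc ⊢
    obtain ⟨h1, h2⟩ := Finset.mem_inter.1 hc
    exact Finset.mem_inter.2 ⟨hF.symm c h1, neg_sym_bd _ c h2⟩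
  have hconv : Conv (bd n \ K) := conv_sdiff (isComplex_bd n) hcur.cx
  have hfine : fine m n (bd n \ K) = bd (fun i => m * n i) \ B := fine_bd hm1 hKn hB
  have fb : Flat (suba m aK) (bd (fun i => m * n i) \ B) := by
    rw [← hfine]
    exact flat_suba hm1 hconv hf
  have fa : Flat a (bd (fun i => m * n i) \ B) := by
    refine flat_mono ?_ ha.flat
    intro c hc
    obtain ⟨h1, h2⟩ := Finset.mem_sdiff.1 hc
    refine Finset.mem_sdiff.2 ⟨(mem_bd.1 h1).1, fun h3 => h2 ?_⟩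
    rw [← hF.bdy]
    exact Finset.mem_inter.2 ⟨h3, h1⟩
  -- the edge
  obtain ⟨c, hcK, hcd, i, j, k, hij, hik, hjk, hi, hj, hk, hi', hj', hmono⟩ := hm
  obtain ⟨y, hyc, hyd⟩ := exists_edge hm1 c
  have hsub : Sub m c y := (car_iff hm1 c y).2 hyc
  have hyB : y ∈ B := by
    have : y ∈ (B : Set Cell) := by
      rw [hB]
      exact ⟨c, hcK, hsub⟩
    exact this
  have hyd1 : dim y = 1 := by rw [hyd, hcd]
  have hyi : y i = m * c i := (hsub i).1 hi
  have hyj : y j = m * c j := (hsub j).1 hj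
  have hck : c k % 2 = 0 := by
    rcases hk with hk | hk <;> omega
  have hyk : y k = m * c k := (hsub k).1 hck
  have hmz : (1 : ℤ) ≤ m := by exact_mod_cast hm1
  have hyi2 : y i % 2 = 0 := by
    rw [hyi, Int.mul_emod, hi]
    simp
  have hyj2 : y j % 2 = 0 := by
    rw [hyj, Int.mul_emod, hj]
    simp
  have hyk2 : y k = 2 * (((m * n k : ℕ)) : ℤ) ∨ y k = -(2 * (((m * n k : ℕ)) : ℤ)) := by
    rcases hk with hk | hk
    · left
      rw [hyk, hk]
      push_cast
      ring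
    · right
      rw [hyk, hk]
      push_cast
      ring
  have hyi' : -(2 * (((m * n i : ℕ)) : ℤ)) < y i ∧ y i < 2 * (((m * n i : ℕ)) : ℤ) := by
    rw [hyi]
    push_cast
    constructor
    · nlinarith [hi'.1]
    · nlinarith [hi'.2]
  have hyj' : -(2 * (((m * n j : ℕ)) : ℤ)) < y j ∧ y j < 2 * (((m * n j : ℕ)) : ℤ) := by
    rw [hyj]
    push_cast
    constructor
    · nlinarith [hj'.1]
    · nlinarith [hj'.2]
  have hybox : y ∈ Box (fun i => m * n i) := (mem_bd.1 (hBn hyB)).1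
  have hmb : mono (suba m aK) y i j ≠ 0 := by
    rw [suba_mono hm1 aK y i j hij.ne (by rw [hyc]; exact hi) (by rw [hyc]; exact hj), hyc]
    exact hmono
  have hma : mono a y i j ≠ 0 := bd_mono hF ha hyB hyd1 i j hij hyi2 hyj2 hyi' hyj'
  have nb : ∃ c ∈ B, dim c = 1 ∧ dyc (fun i => m * n i) (suba m aK) c ≠ 0 := by
    refine ⟨y, hyB, hyd1, ?_⟩
    rcases yc_mono (n := fun i => m * n i) (suba m aK) hybox hyd1 i j k hij hik hjk hyi2 hyj2 hyk2
      (hN k) hyi' hyj' with h | h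
    · rw [h]; exact hmb
    · rw [h]; exact neg_ne_zero.2 hmb
  have na : ∃ c ∈ B, dim c = 1 ∧ dyc (fun i => m * n i) a c ≠ 0 := by
    refine ⟨y, hyB, hyd1, ?_⟩
    rcases yc_mono (n := fun i => m * n i) a hybox hyd1 i j k hij hik hjk hyi2 hyj2 hyk2
      (hN k) hyi' hyj' with h | h
    · rw [h]; exact hma
    · rw [h]; exact neg_ne_zero.2 hma
  obtain ⟨σ, hσ, G, hG1, hG2⟩ := uniq hN hBc hBn hBs ha.symm (symA_suba hm1 hs) fa fb na nb
  -- comparison of the parities
  have hAs : Sym (bd (fun i => m * n i) \ B) := by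
    intro x hx
    obtain ⟨h1, h2⟩ := Finset.mem_sdiff.1 hx
    refine Finset.mem_sdiff.2 ⟨neg_sym_bd _ x h1, fun h3 => h2 ?_⟩
    have := hBs _ h3
    rwa [neg_neg] at this
  have hpar1 := neg_gauge h3 hAs hG1 hG2
  have hpar2 := neg_sigma hR.root hR.conj hσ (suba m aK) (pos (bd (fun i => m * n i) \ B))
  have hA0s : Sym (bd n \ K) := by
    intro x hx
    obtain ⟨h1, h2⟩ := Finset.mem_sdiff.1 hx
    refine Finset.mem_sdiff.2 ⟨neg_sym_bd _ x h1, fun h3 => h2 ?_⟩
    have := hKs _ h3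
    rwa [neg_neg] at this
  have h00 : (0 : Cell) ∉ bd n \ K := by
    intro h
    obtain ⟨-, t, ht⟩ := mem_bd.1 (Finset.mem_sdiff.1 h).1
    have h1 := hn t
    have h2 : (0 : Cell) t = 0 := rfl
    rw [h2] at ht
    rcases ht with ht | ht <;> omega
  have hM := (m1 R instR ζ h3 m hm1 n (bd n \ K) aK
    (fun x hx => (mem_bd.1 (Finset.mem_sdiff.1 hx).1).1) hconv hA0s h00 hs hf).2
  rw [hfine, hp R instR ζ hR] at hM
  rw [hpar1, hpar2, ← hM] at h0
  exact one_ne_zero h0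

end Cub
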