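import Pool.Agent.H33.CB.Filt

/-!
# Triangular matchings and contracting homotopies

`acy_tri`: a set `S` of sources and a matching `m` of `S` with the other indices, unit entries at
the matched pairs, and triangular for a rank function `r`.

`acy_htpy`: an explicit homotopy `h` with `D h + h D = u`, `u` a unit.
-/

namespace Cub

variable {R : Type} [CommRing R] {ι : Type} [DecidableEq ι]

private theorem tri_solve {D : ι → ι → R} (m : ι → ι) (r : ι → ℕ) (g : ι → R) :
    ∀ (k : ℕ) (S : Finset ι), S.card = k →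
      (∀ s ∈ S, IsUnit (D s (m s))) →
      (∀ s ∈ S, ∀ s' ∈ S, D s (m s') ≠ 0 → s' = s ∨ r s' < r s) →
      ∃ y : ι → R, ∀ s' ∈ S, ∑ s ∈ S, y s * D s (m s') = g (m s') := by
  intro k
  induction k with
  | zero =>
    intro S hS _ _
    have : S = ∅ := Finset.card_eq_zero.1 hS
    subst this
    exact ⟨0, by simp⟩
  | succ k ih =>
    intro S hS hu ht
    have hne : S.Nonempty := by
      rw [← Finset.card_pos]
      omega
    obtain ⟨s0, hs0, hmin⟩ := S.exists_min_image r hne
    obtain ⟨y, hy⟩ := ih (S.erase s0) (by rw [Finset.card_erase_of_mem hs0]; omega)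
      (fun s hs => hu s (Finset.mem_of_mem_erase hs))
      (fun s hs s' hs' => ht s (Finset.mem_of_mem_erase hs) s' (Finset.mem_of_mem_erase hs'))
    obtain ⟨u, hu0⟩ := hu s0 hs0
    set v : R := (g (m s0) - ∑ s ∈ S.erase s0, y s * D s (m s0)) * (↑u⁻¹ : R) with hv
    refine ⟨fun s => if s = s0 then v else y s, ?_⟩
    intro s' hs'
    rw [← Finset.add_sum_erase S _ hs0]
    have h1 : ∑ s ∈ S.erase s0, (if s = s0 then v else y s) * D s (m s') =
        ∑ s ∈ S.erase s0, y s * D s (m s') := by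
      refine Finset.sum_congr rfl fun s hs => ?_
      rw [if_neg (Finset.ne_of_mem_erase hs)]
    rw [h1]
    simp only [if_true]
    by_cases h : s' = s0
    · subst h
      rw [← hu0, hv, mul_assoc, Units.inv_mul, mul_one, sub_add_cancel]
    · have h2 : D s0 (m s') = 0 := by
        by_contra h3
        rcases ht s0 hs0 s' hs' h3 with h4 | h4
        · exact h h4
        · exact absurd (hmin s' hs') (by omega)
      rw [h2, mul_zero, zero_add]
      exact hy s' (Finset.mem_erase.2 ⟨h, hs'⟩)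

private theorem tri_inj {D : ι → ι → R} (m : ι → ι) (r : ι → ℕ) (z : ι → R) :
    ∀ (k : ℕ) (S : Finset ι), S.card = k →
      (∀ s ∈ S, IsUnit (D s (m s))) →
      (∀ s ∈ S, ∀ s' ∈ S, D s (m s') ≠ 0 → s' = s ∨ r s' < r s) →
      (∀ s' ∈ S, ∑ s ∈ S, z s * D s (m s') = 0) → ∀ s ∈ S, z s = 0 := by
  intro k
  induction k with
  | zero =>
    intro S hS _ _ _ s hs
    rw [Finset.card_eq_zero.1 hS] at hs
    exact absurd hs (Finset.notMem_empty _)
  | succ k ih =>
    intro S hS hu ht hz
    have hne : S.Nonempty := by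
      rw [← Finset.card_pos]
      omega
    obtain ⟨s0, hs0, hmax⟩ := S.exists_max_image r hne
    have h0 : z s0 = 0 := by
      have h1 := hz s0 hs0
      rw [Finset.sum_eq_single_of_mem s0 hs0] at h1
      · exact (hu s0 hs0).mul_left_eq_zero.1 h1
      · intro s hs hss
        have : D s (m s0) = 0 := by
          by_contra h3
          rcases ht s hs s0 hs0 h3 with h4 | h4
          · exact hss h4.symm
          · exact absurd (hmax s hs) (by omega)
        rw [this, mul_zero]
    have hrest := ih (S.erase s0) (by rw [Finset.card_erase_of_mem hs0]; omega)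
      (fun s hs => hu s (Finset.mem_of_mem_erase hs))
      (fun s hs s' hs' => ht s (Finset.mem_of_mem_erase hs) s' (Finset.mem_of_mem_erase hs'))
      (fun s' hs' => by
        have h1 := hz s' (Finset.mem_of_mem_erase hs')
        rw [← Finset.add_sum_erase S _ hs0, h0, zero_mul, zero_add] at h1
        exact h1)
    intro s hs
    by_cases h : s = s0
    · rw [h, h0]
    · exact hrest s (Finset.mem_erase.2 ⟨h, hs⟩)

theorem acy_tri {D : ι → ι → R} {B S : Finset ι} (hcx : IsCx D B) (hSB : S ⊆ B) (m : ι → ι)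
    (r : ι → ℕ) (hm : ∀ s ∈ S, m s ∈ B ∧ m s ∉ S ∧ IsUnit (D s (m s)))
    (hsurj : ∀ t ∈ B, t ∉ S → ∃ s ∈ S, m s = t)
    (htri : ∀ s ∈ S, ∀ s' ∈ S, D s (m s') ≠ 0 → s' = s ∨ r s' < r s) : Acy D B := by
  intro x0 hx0
  -- extension by zero
  obtain ⟨x, hx⟩ : ∃ x : ι → R, (fun b : B => x b) = x0 := by
    refine ⟨fun b => if h : b ∈ B then x0 ⟨b, h⟩ else 0, ?_⟩
    funext b
    simp
  subst hx
  have hdB : ∀ (y : ι → R) (b : B), dB D B (fun a : B => y a) b = ∑ a ∈ B, y a * D a b := by
    intro y b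
    show ∑ a : B, y a * D a b = _
    rw [Finset.sum_coe_sort B (fun a => y a * D a b)]
  have hcyc : ∀ b ∈ B, ∑ a ∈ B, x a * D a b = 0 := by
    intro b hb
    have := congrFun hx0 ⟨b, hb⟩
    rw [hdB] at this
    exact this
  obtain ⟨y, hy⟩ := tri_solve (D := D) m r x S.card S rfl (fun s hs => (hm s hs).2.2) htri
  set Y : ι → R := fun s => if s ∈ S then y s else 0 with hY
  have hYsum : ∀ b, ∑ a ∈ B, Y a * D a b = ∑ s ∈ S, y s * D s b := by
    intro b
    rw [← Finset.sum_subset hSB]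
    · refine Finset.sum_congr rfl fun s hs => ?_
      simp only [hY, if_pos hs]
    · intro a _ ha
      simp only [hY, if_neg ha, zero_mul]
  set z : ι → R := fun b => x b - ∑ a ∈ B, Y a * D a b with hz
  have hzT : ∀ t ∈ B, t ∉ S → z t = 0 := by
    intro t ht htS
    obtain ⟨s', hs', rfl⟩ := hsurj t ht htS
    simp only [hz]
    rw [hYsum, hy s' hs', sub_self]
  have hzc : ∀ c ∈ B, ∑ b ∈ B, z b * D b c = 0 := by
    intro c hc
    have h1 : ∑ b ∈ B, z b * D b c =
        ∑ b ∈ B, x b * D b c - ∑ a ∈ B, Y a * ∑ b ∈ B, D a b * D b c := by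
      simp only [hz, sub_mul, Finset.sum_sub_distrib, Finset.mul_sum, Finset.sum_mul]
      congr 1
      rw [Finset.sum_comm]
      refine Finset.sum_congr rfl fun a _ => Finset.sum_congr rfl fun b _ => ?_
      ring
    rw [h1, hcyc c hc, zero_sub, neg_eq_zero]
    refine Finset.sum_eq_zero fun a ha => ?_
    rw [hcx a ha c hc, mul_zero]
  have hzS : ∀ s ∈ S, z s = 0 := by
    refine tri_inj (D := D) m r z S.card S rfl (fun s hs => (hm s hs).2.2) htri ?_
    intro s' hs'
    rw [Finset.sum_subset hSB]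
    · exact hzc _ (hm s' hs').1
    · intro a ha haS
      rw [hzT a ha haS, zero_mul]
  refine ⟨fun a : B => Y a, ?_⟩
  funext b
  rw [hdB]
  have h2 : z b = 0 := by
    by_cases h : (b : ι) ∈ S
    · exact hzS b h
    · exact hzT b b.2 h
  simp only [hz] at h2
  exact (sub_eq_zero.1 h2).symm

/-- A contracting homotopy. -/
theorem acy_htpy {D : ι → ι → R} {B : Finset ι} (h : ι → ι → R) (u : R) (hu : IsUnit u)
    (hh : ∀ a ∈ B, ∀ b ∈ B, ∑ c ∈ B, (D a c * h c b + h a c * D c b) = if a = b then u else 0) :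
    Acy D B := by
  intro x0 hx0
  obtain ⟨x, hx⟩ : ∃ x : ι → R, (fun b : B => x b) = x0 := by
    refine ⟨fun b => if h : b ∈ B then x0 ⟨b, h⟩ else 0, ?_⟩
    funext b
    simp
  subst hx
  have hdB : ∀ (y : ι → R) (b : B), dB D B (fun a : B => y a) b = ∑ a ∈ B, y a * D a b := by
    intro y b
    show ∑ a : B, y a * D a b = _
    rw [Finset.sum_coe_sort B (fun a => y a * D a b)]
  have hcyc : ∀ b ∈ B, ∑ a ∈ B, x a * D a b = 0 := by
    intro b hb
    have := congrFun hx0 ⟨b, hb⟩
    rw [hdB] at this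
    exact this
  obtain ⟨v, hv⟩ := hu.exists_left_inv
  refine ⟨fun c : B => v * ∑ a ∈ B, x a * h a c, ?_⟩
  funext b
  rw [hdB (fun c => v * ∑ a ∈ B, x a * h a c) b]
  have h1 : ∑ c ∈ B, (∑ a ∈ B, x a * h a c) * D c b = x b * u := by
    have h2 : ∑ a ∈ B, x a * ∑ c ∈ B, (D a c * h c b + h a c * D c b) = x b * u := by
      rw [Finset.sum_eq_single_of_mem (b : ι) b.2]
      · rw [hh b b.2 b b.2, if_pos rfl]
      · intro a ha hab
        rw [hh a ha b b.2, if_neg hab, mul_zero]
    have h3 : ∑ a ∈ B, x a * ∑ c ∈ B, (D a c * h c b + h a c * D c b) =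
        ∑ c ∈ B, (∑ a ∈ B, x a * D a c) * h c b + ∑ c ∈ B, (∑ a ∈ B, x a * h a c) * D c b := by
      simp only [Finset.mul_sum, Finset.sum_mul, ← Finset.sum_add_distrib]
      rw [Finset.sum_comm]
      refine Finset.sum_congr rfl fun a _ => Finset.sum_congr rfl fun b _ => ?_
      ring
    have h4 : ∑ c ∈ B, (∑ a ∈ B, x a * D a c) * h c b = 0 :=
      Finset.sum_eq_zero fun c hc => by rw [hcyc c hc, zero_mul]
    rw [h4, zero_add] at h3
    rw [← h3, h2]
  have h5 : ∑ c ∈ B, (v * ∑ a ∈ B, x a * h a c) * D c b =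
      v * ∑ c ∈ B, (∑ a ∈ B, x a * h a c) * D c b := by
    rw [Finset.mul_sum]
    refine Finset.sum_congr rfl fun c _ => ?_
    ring
  rw [h5, h1, mul_comm (x b) u, ← mul_assoc, hv, one_mul]

end Cub
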