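import Pool.Agent.H33.CB.Defs

/-!
# Module Two (about 60 lines): the complex `R → R`, multiplication by `2 u`

`B = {a, b}`, `D a b = 2 u` with `u` a unit, the other three entries are zero.  The kernel is the line
spanned by `b` (as `2 ≠ 0` in a domain), the range is `2 u` times this line, and the
homology is `R ⧸ (2 u)`, of length one (`Ring3.len2`).
-/

namespace Cub

variable {R : Type} [CommRing R]

theorem two_par {ζ : R} (hR : Ring3 R ζ) {ι : Type} [DecidableEq ι] (D : ι → ι → R) (a b : ι)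
    (hab : a ≠ b) (u : R) (hu : IsUnit u) (h1 : D a b = 2 * u) (h2 : D a a = 0) (h3 : D b b = 0)
    (h4 : D b a = 0) : FL D {a, b} ∧ par D {a, b} = 1 := by
  have hdom : IsDomain R := hR.dom
  have hma : a ∈ ({a, b} : Finset ι) := by simp
  have hmb : b ∈ ({a, b} : Finset ι) := by simp
  have hsum : ∀ (x : ({a, b} : Finset ι) → R) (c : ({a, b} : Finset ι)),
      dB D {a, b} x c = x ⟨a, hma⟩ * D a c + x ⟨b, hmb⟩ * D b c := by
    intro x c
    show ∑ i : ({a, b} : Finset ι), x i * D i c = _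
    rw [Finset.sum_eq_add_of_mem (⟨a, hma⟩ : ({a, b} : Finset ι)) ⟨b, hmb⟩ (Finset.mem_univ _)
      (Finset.mem_univ _) (fun h => hab (congrArg Subtype.val h))]
    rintro ⟨i, hi⟩ _ ⟨hi1, hi2⟩
    exfalso
    rcases Finset.mem_insert.1 hi with h | h
    · exact hi1 (Subtype.ext h)
    · exact hi2 (Subtype.ext (Finset.mem_singleton.1 h))
  have hA : ∀ x : ({a, b} : Finset ι) → R, dB D {a, b} x ⟨a, hma⟩ = 0 := by
    intro x
    rw [hsum]
    simp only
    rw [h2, h4, mul_zero, mul_zero, add_zero]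
  have hB : ∀ x : ({a, b} : Finset ι) → R, dB D {a, b} x ⟨b, hmb⟩ = x ⟨a, hma⟩ * (2 * u) := by
    intro x
    rw [hsum]
    simp only
    rw [h1, h3, mul_zero, add_zero]
  have h2u : (2 : R) * u ≠ 0 := mul_ne_zero hR.two hu.ne_zero
  have hext : ∀ x y : ({a, b} : Finset ι) → R, x ⟨a, hma⟩ = y ⟨a, hma⟩ → x ⟨b, hmb⟩ = y ⟨b, hmb⟩ →
      x = y := by
    intro x y hxa hxb
    funext i
    obtain ⟨i, hi⟩ := i
    rcases Finset.mem_insert.1 hi with h | h
    · subst h
      exact hxa
    · have h' := Finset.mem_singleton.1 h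
      subst h'
      exact hxb
  have hker : ∀ x : ({a, b} : Finset ι) → R, dB D {a, b} x = 0 ↔ x ⟨a, hma⟩ = 0 := by
    intro x
    constructor
    · intro h
      have := congrFun h ⟨b, hmb⟩
      rw [hB, Pi.zero_apply] at this
      exact (mul_eq_zero.1 this).resolve_right h2u
    · intro h
      refine hext _ _ ?_ ?_
      · rw [hA]
        rfl
      · rw [hB, h, zero_mul]
        rfl
  let f : LinearMap.ker (dB D {a, b}) →ₗ[R] R ⧸ Ideal.span {(2 : R) * u} :=
    (Ideal.span {(2 : R) * u}).mkQ.comp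
      ((LinearMap.proj (⟨b, hmb⟩ : ({a, b} : Finset ι))).comp
        (LinearMap.ker (dB D {a, b})).subtype)
  have hf : ∀ x : LinearMap.ker (dB D {a, b}),
      f x = (Ideal.span {(2 : R) * u}).mkQ ((x : ({a, b} : Finset ι) → R) ⟨b, hmb⟩) :=
    fun x => rfl
  have hfs : Function.Surjective f := by
    intro z
    obtain ⟨r, rfl⟩ := Submodule.mkQ_surjective _ z
    refine ⟨⟨fun i => if (i : ι) = b then r else 0, ?_⟩, ?_⟩
    · rw [LinearMap.mem_ker, hker]
      exact if_neg hab
    · rw [hf]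
      simp only [if_true]
  have hfk : LinearMap.ker f =
      (LinearMap.range (dB D {a, b})).submoduleOf (LinearMap.ker (dB D {a, b})) := by
    ext x
    rw [LinearMap.mem_ker, hf, Submodule.mkQ_apply, Submodule.Quotient.mk_eq_zero,
      Ideal.mem_span_singleton', Submodule.submoduleOf, Submodule.mem_comap]
    constructor
    · rintro ⟨r, hr⟩
      refine ⟨fun _ => r, ?_⟩
      refine hext _ _ ?_ ?_
      · rw [hA]
        exact ((hker _).1 (LinearMap.mem_ker.1 x.2)).symm
      · rw [hB]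
        exact hr
    · rintro ⟨y, hy⟩
      refine ⟨y ⟨a, hma⟩, ?_⟩
      rw [← hB, hy]
      rfl
  have e : Hm D {a, b} ≃ₗ[R] (R ⧸ Ideal.span {(2 : R) * u}) :=
    (Submodule.quotEquivOfEq _ _ hfk.symm).trans (f.quotKerEquivOfSurjective hfs)
  have hl : Module.length R (Hm D {a, b}) = 1 := by
    rw [e.length_eq]
    exact hR.len2 u hu
  constructor
  · unfold FL
    rw [hl]
    exact ENat.one_ne_top
  · unfold par
    rw [hl]
    simp

end Cub
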