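import Pool.Agent.H33.CB.Alg

/-!
# Module ExTri (about 150 lines): the exact triangle

`0 → M₁ → M → M₂ → 0` exact, with compatible differentials.  Homology `H(d) = ker d / im d`.
With `f : H₁ → H`, `g : H → H₂` the induced maps and `δ : H₂ → H₁` the connecting map
(`δ [x] = [i⁻¹ (d y)]`, `p y = x`) the triangle is exact; put `α = length (range f)`,
`β = length (range g)`, `γ = length (range δ)`, and use `length = length ker + length range` for
`f`, `g`, `δ` (`Module.length_eq_add_of_exact` or `LinearMap` quotient version), with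
`ker f = range δ`, `ker g = range f`, `ker δ = range g`.
(It is easier to avoid `δ` as a map: `ker f` and `coker g` are isomorphic to the same module; any
proof is fine.)
-/

namespace Cub

variable {R : Type} [CommRing R]

private theorem ExTri_len {A B : Type} [AddCommGroup A] [Module R A] [AddCommGroup B] [Module R B]
    (f : A →ₗ[R] B) :
    Module.length R A = Module.length R (LinearMap.ker f) + Module.length R (LinearMap.range f) := by
  refine Module.length_eq_add_of_exact (LinearMap.ker f).subtype f.rangeRestrict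
    (Submodule.subtype_injective _) (LinearMap.surjective_rangeRestrict f) ?_
  intro y
  constructor
  · intro hy
    have h1 : f y = 0 := congrArg Subtype.val hy
    exact ⟨⟨y, h1⟩, rfl⟩
  · rintro ⟨x, rfl⟩
    exact Subtype.ext x.2

private theorem ExTri_quot {A : Type} [AddCommGroup A] [Module R A] (N : Submodule R A) :
    Module.length R A = Module.length R N + Module.length R (A ⧸ N) := by
  refine Module.length_eq_add_of_exact N.subtype N.mkQ
    (Submodule.subtype_injective _) (Submodule.mkQ_surjective N) ?_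
  intro y
  rw [Submodule.mkQ_apply, Submodule.Quotient.mk_eq_zero]
  constructor
  · intro hy
    exact ⟨⟨y, hy⟩, rfl⟩
  · rintro ⟨x, rfl⟩
    exact x.2

theorem ex_tri {M₁ M M₂ : Type} [AddCommGroup M₁] [Module R M₁] [AddCommGroup M] [Module R M]
    [AddCommGroup M₂] [Module R M₂] (d₁ : M₁ →ₗ[R] M₁) (d : M →ₗ[R] M) (d₂ : M₂ →ₗ[R] M₂)
    (h1 : ∀ x, d₁ (d₁ x) = 0) (h : ∀ x, d (d x) = 0) (h2 : ∀ x, d₂ (d₂ x) = 0)
    (i : M₁ →ₗ[R] M) (p : M →ₗ[R] M₂) (hi : Function.Injective i) (hp : Function.Surjective p)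
    (hip : ∀ x, p x = 0 ↔ ∃ y, i y = x) (hdi : ∀ x, i (d₁ x) = d (i x))
    (hdp : ∀ x, p (d x) = d₂ (p x)) :
    ∃ α β γ : ℕ∞,
      Module.length R ((LinearMap.ker d₁) ⧸ (LinearMap.range d₁).submoduleOf (LinearMap.ker d₁)) =
        γ + α ∧
      Module.length R ((LinearMap.ker d) ⧸ (LinearMap.range d).submoduleOf (LinearMap.ker d)) =
        α + β ∧
      Module.length R ((LinearMap.ker d₂) ⧸ (LinearMap.range d₂).submoduleOf (LinearMap.ker d₂)) =
        β + γ := by
  have hf0 : ∀ x ∈ LinearMap.ker d₁, i x ∈ LinearMap.ker d := by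
    intro x hx
    rw [LinearMap.mem_ker] at hx ⊢
    rw [← hdi, hx, map_zero]
  have hg0 : ∀ x ∈ LinearMap.ker d, p x ∈ LinearMap.ker d₂ := by
    intro x hx
    rw [LinearMap.mem_ker] at hx ⊢
    rw [← hdp, hx, map_zero]
  let f0 : LinearMap.ker d₁ →ₗ[R] LinearMap.ker d := i.restrict hf0
  let g0 : LinearMap.ker d →ₗ[R] LinearMap.ker d₂ := p.restrict hg0
  have hf1 : (LinearMap.range d₁).submoduleOf (LinearMap.ker d₁) ≤
      ((LinearMap.range d).submoduleOf (LinearMap.ker d)).comap f0 := by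
    rintro x ⟨y, hy⟩
    exact ⟨i y, by rw [← hdi, hy]; rfl⟩
  have hg1 : (LinearMap.range d).submoduleOf (LinearMap.ker d) ≤
      ((LinearMap.range d₂).submoduleOf (LinearMap.ker d₂)).comap g0 := by
    rintro x ⟨y, hy⟩
    exact ⟨p y, by rw [← hdp, hy]; rfl⟩
  let f := Submodule.mapQ _ _ f0 hf1
  let g := Submodule.mapQ _ _ g0 hg1
  have hfa : ∀ x, f (Submodule.Quotient.mk x) = Submodule.Quotient.mk (f0 x) := fun x => rfl
  have hga : ∀ x, g (Submodule.Quotient.mk x) = Submodule.Quotient.mk (g0 x) := fun x => rfl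
  -- exactness in the middle
  have hker : LinearMap.ker g = LinearMap.range f := by
    apply le_antisymm
    · intro y hy
      obtain ⟨y0, rfl⟩ := Submodule.Quotient.mk_surjective _ y
      rw [LinearMap.mem_ker, hga, Submodule.Quotient.mk_eq_zero] at hy
      obtain ⟨w, hw⟩ := hy
      obtain ⟨u, rfl⟩ := hp w
      have e1 : p ((y0 : M) - d u) = 0 := by
        rw [map_sub, hdp]
        exact sub_eq_zero.2 hw.symm
      obtain ⟨z, hz⟩ := (hip _).1 e1
      have hz1 : d₁ z = 0 := by
        apply hi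
        rw [hdi, hz, map_sub, h, sub_zero, map_zero]
        exact y0.2
      refine ⟨Submodule.Quotient.mk ⟨z, hz1⟩, ?_⟩
      rw [hfa, Submodule.Quotient.eq]
      refine ⟨-u, ?_⟩
      change d (-u) = i z - (y0 : M)
      rw [hz, map_neg]
      abel
    · rintro _ ⟨x, rfl⟩
      obtain ⟨x0, rfl⟩ := Submodule.Quotient.mk_surjective _ x
      rw [LinearMap.mem_ker, hfa, hga, Submodule.Quotient.mk_eq_zero]
      refine ⟨0, ?_⟩
      rw [map_zero]
      exact ((hip _).2 ⟨x0.1, rfl⟩).symm
  -- the auxiliary module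
  let K : Submodule R M := (LinearMap.ker d₂).comap p
  have hK : ∀ y : K, d (y : M) ∈ LinearMap.range i := by
    intro y
    have hy : d₂ (p (y : M)) = 0 := y.2
    obtain ⟨z, hz⟩ := (hip (d (y : M))).1 (by rw [hdp, hy])
    exact ⟨z, hz⟩
  let e := LinearEquiv.ofInjective i hi
  let θ : K →ₗ[R] M₁ := e.symm.toLinearMap.comp
    ((d.comp K.subtype).codRestrict (LinearMap.range i) hK)
  have hθ : ∀ y : K, i (θ y) = d (y : M) := by
    intro y
    have h3 : (e (θ y) : M) = d (y : M) := by
      change ((e (e.symm _) : LinearMap.range i) : M) = _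
      rw [LinearEquiv.apply_symm_apply]
      rfl
    exact h3
  have hθ1 : ∀ y : K, θ y ∈ LinearMap.ker d₁ := by
    intro y
    rw [LinearMap.mem_ker]
    apply hi
    rw [hdi, hθ, h, map_zero]
  let ψ : K →ₗ[R] ((LinearMap.ker d₁) ⧸ (LinearMap.range d₁).submoduleOf (LinearMap.ker d₁)) :=
    (Submodule.mkQ _).comp (θ.codRestrict _ hθ1)
  have hφ0 : ∀ y : K, p (y : M) ∈ LinearMap.ker d₂ := fun y => y.2
  let φ1 : K →ₗ[R] ((LinearMap.ker d₂) ⧸ (LinearMap.range d₂).submoduleOf (LinearMap.ker d₂)) :=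
    (Submodule.mkQ _).comp ((p.comp K.subtype).codRestrict _ hφ0)
  let φ := (LinearMap.range g).mkQ.comp φ1
  have hψ : LinearMap.range ψ = LinearMap.ker f := by
    apply le_antisymm
    · rintro _ ⟨y, rfl⟩
      rw [LinearMap.mem_ker]
      change f (Submodule.Quotient.mk ⟨θ y, hθ1 y⟩) = 0
      rw [hfa, Submodule.Quotient.mk_eq_zero]
      exact ⟨(y : M), (hθ y).symm⟩
    · intro x hx
      obtain ⟨x0, rfl⟩ := Submodule.Quotient.mk_surjective _ x
      rw [LinearMap.mem_ker, hfa, Submodule.Quotient.mk_eq_zero] at hx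
      obtain ⟨y, hy⟩ := hx
      have hy' : d y = i (x0 : M₁) := hy
      have hyK : y ∈ K := by
        change d₂ (p y) = 0
        rw [← hdp, hy']
        exact (hip _).2 ⟨_, rfl⟩
      refine ⟨⟨y, hyK⟩, ?_⟩
      change Submodule.Quotient.mk (⟨θ ⟨y, hyK⟩, hθ1 _⟩ : LinearMap.ker d₁) = _
      congr 1
      apply Subtype.ext
      apply hi
      rw [← hy']
      exact hθ ⟨y, hyK⟩
  have hφs : Function.Surjective φ := by
    intro x
    obtain ⟨x1, rfl⟩ := Submodule.mkQ_surjective _ x
    obtain ⟨x0, rfl⟩ := Submodule.Quotient.mk_surjective _ x1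
    obtain ⟨y, hy⟩ := hp (x0 : M₂)
    have hyK : y ∈ K := by
      change d₂ (p y) = 0
      rw [hy]
      exact x0.2
    refine ⟨⟨y, hyK⟩, ?_⟩
    change (LinearMap.range g).mkQ (Submodule.Quotient.mk
      (⟨p y, hyK⟩ : LinearMap.ker d₂)) = _
    congr 2
    exact Subtype.ext hy
  have hkk : LinearMap.ker φ = LinearMap.ker ψ := by
    ext y
    rw [LinearMap.mem_ker, LinearMap.mem_ker]
    change (LinearMap.range g).mkQ (Submodule.Quotient.mk
      (⟨p (y : M), hφ0 y⟩ : LinearMap.ker d₂)) = 0 ↔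
      (Submodule.Quotient.mk (⟨θ y, hθ1 y⟩ : LinearMap.ker d₁) :
        (LinearMap.ker d₁) ⧸ (LinearMap.range d₁).submoduleOf (LinearMap.ker d₁)) = 0
    rw [Submodule.mkQ_apply, Submodule.Quotient.mk_eq_zero, Submodule.Quotient.mk_eq_zero]
    constructor
    · rintro ⟨x, hx⟩
      obtain ⟨y', rfl⟩ := Submodule.Quotient.mk_surjective _ x
      rw [hga, Submodule.Quotient.eq] at hx
      obtain ⟨v, hv⟩ := hx
      obtain ⟨u, rfl⟩ := hp v
      have hv' : d₂ (p u) = p (y' : M) - p (y : M) := hv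
      have e1 : p ((y' : M) - (y : M) - d u) = 0 := by
        rw [map_sub, map_sub, hdp, hv', sub_self]
      obtain ⟨z, hz⟩ := (hip _).1 e1
      refine ⟨-z, ?_⟩
      apply hi
      change i (d₁ (-z)) = i (θ y)
      rw [hdi, map_neg, map_neg, hz, map_sub, map_sub, h, hθ]
      have hy' : d (y' : M) = 0 := y'.2
      rw [hy']
      abel
    · rintro ⟨w, hw⟩
      have hw' : d₁ w = θ y := hw
      have e1 : d ((y : M) - i w) = 0 := by
        rw [map_sub, ← hdi, hw', hθ, sub_self]
      refine ⟨Submodule.Quotient.mk ⟨(y : M) - i w, e1⟩, ?_⟩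
      rw [hga]
      congr 1
      apply Subtype.ext
      change p ((y : M) - i w) = p (y : M)
      rw [map_sub, (hip (i w)).2 ⟨w, rfl⟩, sub_zero]
  have hlen : Module.length R (_ ⧸ LinearMap.range g) = Module.length R (LinearMap.ker f) := by
    rw [← hψ, ← (LinearMap.quotKerEquivOfSurjective φ hφs).length_eq,
      ← (LinearMap.quotKerEquivRange ψ).length_eq, hkk]
  refine ⟨Module.length R (LinearMap.range f), Module.length R (LinearMap.range g),
    Module.length R (LinearMap.ker f), ExTri_len f, ?_, ?_⟩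
  · rw [ExTri_len g, hker]
  · rw [ExTri_quot (LinearMap.range g), hlen]

end Cub
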