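import Pool.Agent.H33.CB.FProp

/-!
# Module FAcy (about 250 lines): the disc without the origin is acyclic over `F₃`

Field `k = ZMod 3`.  Let `S, E, V` be the numbers of squares, edges, vertices of `F`; `S - E + V = 1`.
`d₂ : k^S → k^E` is injective: a cycle `w` vanishes at the square which contains an edge of `B`
(`edge_one`; `B` has an edge: `B` is not empty and the outer vertices have `B`-edges), so `prop_w`.
`d₁ : k^E → k^(V minus 0)` is surjective: dually, a function `f` on the vertices with `f 0 = 0` and
`f v + f v' = 0` for every edge `v v'` (plus convention) vanishes, by connectedness (replace `f` by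
`(-1)^(sum of coordinates / 2) f`, which is constant along edges).  So `dim ker d₁ = E - (V - 1) = S = rank d₂`,
and `d₁ d₂ = 0`, so `ker d₁ = range d₂`.  Together: `Acy` of the ungraded complex (split a cycle
into its even and odd parts: the differential changes the parity of `dim`; `dim ≤ 2`).
A direct count is also possible: `dB` on `F \ {0}` has rank at least `S + (V - 1)` = half of the
dimension `S + E + V - 1 = 2 (S + V - 1)`, so kernel and range have the same dimension.
-/

namespace Cub

private theorem facy_e_self (i : Fin 4) : e i i = 1 := by simp [e]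

private theorem facy_e_ne {i j : Fin 4} (h : j ≠ i) : e i j = 0 := by simp [e, h]

private theorem facy_dim0 {v : Cell} : dim v = 0 ↔ ∀ i, v i % 2 = 0 := by
  unfold dim
  rw [Finset.card_eq_zero, Finset.filter_eq_empty_iff]
  constructor
  · intro h i
    have := h (Finset.mem_univ i)
    omega
  · intro h i _
    have := h i
    omega

private theorem facy_le_trans {a b c : Cell} (h1 : Le a b) (h2 : Le b c) : Le a c := by
  intro i
  have h3 := h1 i
  have h4 := h2 i
  omega

private theorem facy_le_refl (a : Cell) : Le a a := fun _ => Or.inl rfl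

private theorem facy_vert (c : Cell) : ∃ v, Le v c ∧ dim v = 0 := by
  refine ⟨fun i => if c i % 2 = 1 then c i - 1 else c i, ?_, ?_⟩
  · intro i
    by_cases h : c i % 2 = 1
    · right; simp [h]
    · left; simp [h]
  · rw [facy_dim0]
    intro i
    by_cases h : c i % 2 = 1
    · simp only [h, if_true]; omega
    · simp only [h, if_false]; omega

private theorem facy_dim_add (c : Cell) {d : Cell} (hd : IsDir d) : dim (c + d) ≤ dim c + 1 := by
  obtain ⟨i, hi⟩ := hd
  have h0 : ∀ j, j ≠ i → d j = 0 := by
    intro j hj
    rcases hi with h | h <;> rw [h] <;> simp [hj]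
  unfold dim
  calc (Finset.univ.filter (fun j => (c + d) j % 2 = 1)).card
      ≤ (insert i (Finset.univ.filter (fun j => c j % 2 = 1))).card := by
        apply Finset.card_le_card
        intro j hj
        simp only [Finset.mem_filter, Finset.mem_univ, true_and, Pi.add_apply] at hj
        simp only [Finset.mem_insert, Finset.mem_filter, Finset.mem_univ, true_and]
        by_cases h : j = i
        · exact Or.inl h
        · right
          rw [h0 j h, add_zero] at hj
          exact hj
    _ ≤ _ := Finset.card_insert_le _ _

private theorem facy_zip_mem {α : Type} {l m : List α} {p : α × α} (h : p ∈ l.zip m) :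
    p.1 ∈ l ∧ p.2 ∈ m := by
  obtain ⟨a, b⟩ := p
  exact List.of_mem_zip h

/-- the dimension of the cells is at most two -/
private theorem facy_dim_le {F B : Finset Cell} (hF : IsSurface F B) {c : Cell} (hc : c ∈ F) :
    dim c ≤ 2 := by
  obtain ⟨v, hv, hv0⟩ := facy_vert c
  have hvF : v ∈ F := hF.cx c hc v hv
  by_cases hvB : v ∈ B
  · obtain ⟨l, ⟨_, _, hdir, _, hst⟩, _⟩ := hF.outer v hvB hv0
    rcases (hst c).1 ⟨hc, hv⟩ with rfl | ⟨d, hd, rfl⟩ | ⟨p, hp, rfl⟩
    · omega
    · have := facy_dim_add v (hdir d hd)
      omega
    · have h1 := facy_zip_mem hp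
      have h2 := facy_dim_add v (hdir p.1 h1.1)
      have h3 := facy_dim_add (v + p.1) (hdir p.2 (List.mem_of_mem_tail h1.2))
      omega
  · obtain ⟨l, ⟨_, _, hdir, _, hst⟩⟩ := hF.inner v hvF hv0 hvB
    rcases (hst c).1 ⟨hc, hv⟩ with rfl | ⟨d, hd, rfl⟩ | ⟨p, hp, rfl⟩
    · omega
    · have := facy_dim_add v (hdir d hd)
      omega
    · have h1 := facy_zip_mem hp
      have h2 := facy_dim_add v (hdir p.1 h1.1)
      have h3 := facy_dim_add (v + p.1) (hdir p.2 (List.mem_rotate.1 h1.2))
      omega

/-- `B` contains an edge -/
private theorem facy_edge {F B : Finset Cell} (hF : IsSurface F B) (hne : B.Nonempty) :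
    ∃ c ∈ B, dim c = 1 := by
  obtain ⟨b, hb⟩ := hne
  obtain ⟨v, hv, hv0⟩ := facy_vert b
  have hvB : v ∈ B := hF.bcx b hb v hv
  obtain ⟨l, ⟨hlen, _, hdir, _, _⟩, hB⟩ := hF.outer v hvB hv0
  cases l with
  | nil => simp at hlen
  | cons d l =>
    have h1 := (hB d).2 (Or.inl (by simp))
    refine ⟨v + d, h1.2, ?_⟩
    obtain ⟨i, hi⟩ := h1.1
    have h0 : ∀ j, j ≠ i → d j = 0 := by
      intro j hj
      rcases hi with h | h <;> rw [h] <;> simp [hj]
    have h2 : d i = 1 ∨ d i = -1 := by
      rcases hi with h | h <;> rw [h] <;> simp
    have h3 := facy_dim0.1 hv0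
    unfold dim
    rw [Finset.card_eq_one]
    refine ⟨i, ?_⟩
    ext j
    simp only [Finset.mem_filter, Finset.mem_univ, true_and, Pi.add_apply, Finset.mem_singleton]
    constructor
    · intro h
      by_contra hji
      rw [h0 j hji] at h
      have := h3 j
      omega
    · rintro rfl
      have := h3 j
      omega

private theorem facy_inc_of_le {c q : Cell} (h : Le c q) (hd : dim q = dim c + 1) : inc q c ≠ 0 := by
  rw [inc_ne]
  -- the coordinates which are odd for `q` and even for `c`
  have hsub : Finset.univ.filter (fun j => c j % 2 = 1) ⊆ Finset.univ.filter (fun j => q j % 2 = 1) := by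
    intro j hj
    simp only [Finset.mem_filter, Finset.mem_univ, true_and] at hj ⊢
    rcases h j with h1 | h1
    · omega
    · exact h1.1
  have hcard : ((Finset.univ.filter (fun j => q j % 2 = 1)) \
      (Finset.univ.filter (fun j => c j % 2 = 1))).card = 1 := by
    rw [Finset.card_sdiff_of_subset hsub]
    unfold dim at hd
    omega
  obtain ⟨i, hi⟩ := Finset.card_eq_one.1 hcard
  have key : ∀ j, (q j % 2 = 1 ∧ ¬ c j % 2 = 1) ↔ j = i := by
    intro j
    have := Finset.ext_iff.1 hi j
    simpa using this
  have h1 := (key i).2 rfl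
  refine ⟨i, h1.1, ?_⟩
  have h2 : ∀ j, j ≠ i → c j = q j := by
    intro j hj
    rcases h j with h3 | ⟨h3, h4⟩
    · exact h3
    · exfalso
      exact hj ((key j).1 ⟨h3, by omega⟩)
  rcases h i with h3 | ⟨_, h3 | h3⟩
  · omega
  · right
    funext j
    by_cases hj : j = i
    · subst hj; simp [facy_e_self, h3]
    · simp [facy_e_ne hj, h2 j hj]
  · left
    funext j
    by_cases hj : j = i
    · subst hj; simp [facy_e_self, h3]
    · simp [facy_e_ne hj, h2 j hj]

/-! ### The unit vectors of the vertices -/

/-- the unit vector of the cell `v` (zero if `v ∉ A`) -/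
private def facyδ (A : Finset Cell) (v : Cell) : A → ZMod 3 := fun b => if (b : Cell) = v then 1 else 0

private theorem facy_single (A : Finset Cell) (c : A) :
    dB (dinc (ZMod 3)) A (Pi.single c 1) = fun b : A => dinc (ZMod 3) c b := by
  funext b
  simp [dB, Pi.single_apply]

private theorem facy_two_ne {c : Cell} {i : Fin 4} : c + e i ≠ c - e i := by
  intro h
  have := congrFun h i
  simp [facy_e_self] at this
  omega

private theorem facy_edge_rel {A : Finset Cell} {c : Cell} (hc : c ∈ A) {i : Fin 4}
    (hi : c i % 2 = 1) (h0 : ∀ j, j ≠ i → c j % 2 = 0) :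
    facyδ A (c + e i) + facyδ A (c - e i) ∈ LinearMap.range (dB (dinc (ZMod 3)) A) := by
  have h1 : dB (dinc (ZMod 3)) A (((sgn i c : ℤ) : ZMod 3) • Pi.single ⟨c, hc⟩ 1) =
      facyδ A (c + e i) + facyδ A (c - e i) := by
    rw [map_smul, facy_single]
    funext b
    have hs : ((sgn i c : ℤ) : ZMod 3) * ((sgn i c : ℤ) : ZMod 3) = 1 := by
      have : sgn i c * sgn i c = 1 := by
        unfold sgn
        rw [← mul_pow]; simp
      exact_mod_cast congrArg (fun x : ℤ => (x : ZMod 3)) this
    simp only [Pi.smul_apply, smul_eq_mul, Pi.add_apply, facyδ, dinc]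
    by_cases hb1 : (b : Cell) = c + e i
    · rw [if_pos hb1, if_neg (by rw [hb1]; exact facy_two_ne), hb1, inc_add hi, hs, add_zero]
    · by_cases hb2 : (b : Cell) = c - e i
      · rw [if_neg hb1, if_pos hb2, hb2, inc_sub hi, hs, zero_add]
      · rw [if_neg hb1, if_neg hb2]
        have : inc c b = 0 := by
          by_contra hne
          obtain ⟨j, hj, hj2⟩ := inc_ne.1 hne
          have hji : j = i := by
            by_contra hji
            have := h0 j hji
            omega
          subst hji
          rcases hj2 with h | h
          · exact hb1 h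
          · exact hb2 h
        rw [this]; simp
  exact ⟨_, h1⟩

private theorem facy_vert_conn {F : Finset Cell} (hcx : IsComplex F) {y : Cell} (hy : y ∈ F)
    (n : ℕ) : ∀ v v' : Cell, Le v y → Le v' y → dim v = 0 → dim v' = 0 →
      (Finset.univ.filter (fun i => v i ≠ v' i)).card = n →
      facyδ (F \ {0}) v ∈ LinearMap.range (dB (dinc (ZMod 3)) (F \ {0})) →
      facyδ (F \ {0}) v' ∈ LinearMap.range (dB (dinc (ZMod 3)) (F \ {0})) := by
  induction n with
  | zero =>
    intro v v' _ _ _ _ hn h
    have : v = v' := by
      funext i
      rw [Finset.card_eq_zero, Finset.filter_eq_empty_iff] at hn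
      exact not_not.1 (hn (Finset.mem_univ i))
    rw [← this]; exact h
  | succ n ih =>
    intro v v' hv hv' hv0 hv0' hn h
    have hne : (Finset.univ.filter (fun i => v i ≠ v' i)).Nonempty := by
      rw [← Finset.card_pos]; omega
    obtain ⟨i, hi⟩ := hne
    simp only [Finset.mem_filter, Finset.mem_univ, true_and] at hi
    have hd := facy_dim0.1 hv0
    have hd' := facy_dim0.1 hv0'
    have h1 := hv i
    have h2 := hv' i
    have hyi : y i % 2 = 1 := by
      by_contra hyi
      rcases h1 with h1 | h1
      · rcases h2 with h2 | h2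
        · exact hi (h1.trans h2.symm)
        · exact hyi h2.1
      · exact hyi h1.1
    have hvi : v i = y i - 1 ∨ v i = y i + 1 := by
      rcases h1 with h1 | h1
      · have := hd i; omega
      · exact h1.2
    have hvi' : v' i = y i - 1 ∨ v' i = y i + 1 := by
      rcases h2 with h2 | h2
      · have := hd' i; omega
      · exact h2.2
    -- the edge
    set c : Cell := Function.update v i (y i) with hc
    set v'' : Cell := Function.update v i (v' i) with hv''
    have hci : c i = y i := by simp [hc]
    have hcj : ∀ j, j ≠ i → c j = v j := fun j hj => by simp [hc, hj]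
    have hvi'' : v'' i = v' i := by simp [hv'']
    have hvj'' : ∀ j, j ≠ i → v'' j = v j := fun j hj => by simp [hv'', hj]
    have hcF : c ∈ F := by
      refine hcx y hy c ?_
      intro j
      by_cases hj : j = i
      · subst hj; exact Or.inl hci
      · rw [hcj j hj]; exact hv j
    have hcne : c ≠ 0 := by
      intro h
      have := congrFun h i
      rw [hci] at this
      simp at this
      omega
    have hcA : c ∈ F \ {0} := by simp [hcF, hcne]
    have hrel := facy_edge_rel hcA (i := i) (by rw [hci]; exact hyi)
      (fun j hj => by rw [hcj j hj]; exact hd j)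
    have hpair : (v = c - e i ∧ v'' = c + e i) ∨ (v = c + e i ∧ v'' = c - e i) := by
      rcases hvi with hvi | hvi
      · have hvi2 : v' i = y i + 1 := by
          rcases hvi' with h | h
          · exact absurd (hvi.trans h.symm) hi
          · exact h
        left
        constructor
        · funext j
          by_cases hj : j = i
          · subst hj; simp [facy_e_self, hci, hvi]
          · simp [facy_e_ne hj, hcj j hj]
        · funext j
          by_cases hj : j = i
          · subst hj; simp [facy_e_self, hci, hvi'', hvi2]
          · simp [facy_e_ne hj, hcj j hj, hvj'' j hj]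
      · have hvi2 : v' i = y i - 1 := by
          rcases hvi' with h | h
          · exact h
          · exact absurd (hvi.trans h.symm) hi
        right
        constructor
        · funext j
          by_cases hj : j = i
          · subst hj; simp [facy_e_self, hci, hvi]
          · simp [facy_e_ne hj, hcj j hj]
        · funext j
          by_cases hj : j = i
          · subst hj; simp [facy_e_self, hci, hvi'', hvi2]
          · simp [facy_e_ne hj, hcj j hj, hvj'' j hj]
    have hstep : facyδ (F \ {0}) v'' ∈ LinearMap.range (dB (dinc (ZMod 3)) (F \ {0})) := by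
      rcases hpair with ⟨ha, hb⟩ | ⟨ha, hb⟩
      · rw [← ha, ← hb] at hrel
        have := Submodule.sub_mem _ hrel h
        simpa using this
      · rw [← ha, ← hb] at hrel
        have := Submodule.sub_mem _ hrel h
        simpa using this
    refine ih v'' v' ?_ hv' ?_ hv0' ?_ hstep
    · intro j
      by_cases hj : j = i
      · subst hj; rw [hvi'']; exact h2
      · rw [hvj'' j hj]; exact hv j
    · rw [facy_dim0]
      intro j
      by_cases hj : j = i
      · subst hj; rw [hvi'']; exact hd' j
      · rw [hvj'' j hj]; exact hd j
    · have : Finset.univ.filter (fun j => v j ≠ v' j) =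
          insert i (Finset.univ.filter (fun j => v'' j ≠ v' j)) := by
        ext j
        simp only [Finset.mem_filter, Finset.mem_univ, true_and, Finset.mem_insert]
        by_cases hj : j = i
        · subst hj; simp [hi]
        · rw [hvj'' j hj]; simp [hj]
      rw [this, Finset.card_insert_of_notMem (by simp [hvi''])] at hn
      omega

/-- surjectivity of `d₁` -/
private theorem facy_surj {F : Finset Cell} (hcx : IsComplex F) (hconn : Connected F)
    (h0 : (0 : Cell) ∈ F) {v : Cell} (hv : v ∈ F) (hv0 : dim v = 0) :
    facyδ (F \ {0}) v ∈ LinearMap.range (dB (dinc (ZMod 3)) (F \ {0})) := by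
  have key : ∀ b, Relation.ReflTransGen (fun x y => x ∈ F ∧ y ∈ F ∧ (Le x y ∨ Le y x)) 0 b →
      ∀ v, Le v b → dim v = 0 →
        facyδ (F \ {0}) v ∈ LinearMap.range (dB (dinc (ZMod 3)) (F \ {0})) := by
    intro b hb
    induction hb with
    | refl =>
      intro v hv _
      have : v = 0 := by
        funext i
        rcases hv i with h | h
        · exact h
        · simp at h
      subst this
      have : facyδ (F \ {0}) 0 = 0 := by
        funext b
        unfold facyδ
        rw [if_neg]
        · rfl
        · intro hb
          have h2 := b.2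
          rw [Finset.mem_sdiff, Finset.mem_singleton] at h2
          exact h2.2 hb
      rw [this]
      exact Submodule.zero_mem _
    | @tail x y _ hstep ih =>
      obtain ⟨hx, hy, hxy | hxy⟩ := hstep
      · intro v hv hv0
        obtain ⟨u, hu, hu0⟩ := facy_vert x
        exact facy_vert_conn hcx hy _ u v (facy_le_trans hu hxy) hv hu0 hv0 rfl (ih u hu hu0)
      · intro v hv hv0
        exact ih v (facy_le_trans hv hxy) hv0
  exact key v (hconn.2 0 h0 v hv) v (facy_le_refl v) hv0

/-- injectivity of `d₂` -/
private theorem facy_inj {F B : Finset Cell} (hF : IsSurface F B) (hconn : Connected F)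
    (hne : B.Nonempty) (w : Cell → ZMod 3)
    (hw : ∀ c ∈ F, dim c = 1 →
      ∑ q ∈ F.filter (fun q => dim q = 2), w q * (inc q c : ZMod 3) = 0) :
    ∀ q ∈ F, dim q = 2 → w q = 0 := by
  obtain ⟨c, hc, hc1⟩ := facy_edge hF hne
  obtain ⟨q, hq, hx⟩ := edge_one hF hc hc1
  have hq2 := (hx q).2 rfl
  have hcF := hF.sub hc
  have h1 := hw c hcF hc1
  rw [Finset.sum_eq_single q] at h1
  · have h2 : (inc q c : ZMod 3) ≠ 0 := by
      have h3 := facy_inc_of_le hq2.2.2 (by omega)
      rcases inc_val q c with h | h | h
      · exact absurd h h3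
      · rw [h]; decide
      · rw [h]; decide
    have h3 : w q = 0 := by
      rcases mul_eq_zero.1 h1 with h | h
      · exact h
      · exact absurd h h2
    exact prop_w hF hconn w (fun c hc hc1 _ => hw c hc hc1) q hq hq2.2.1 h3
  · intro x hxF hxq
    rw [Finset.mem_filter] at hxF
    have : inc x c = 0 := by
      by_contra hne
      exact hxq ((hx x).1 ⟨hxF.1, hxF.2, (le_of_inc hne).1⟩)
    rw [this]; simp
  · intro h
    exact absurd (Finset.mem_filter.2 ⟨hq, hq2.2.1⟩) h

theorem acy_F {n : Fin 4 → ℕ} {F B : Finset Cell} (hF : GoodDisc n F B) :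
    Acy (dinc (ZMod 3)) (F \ {0}) := by
  classical
  have h0F : (0 : Cell) ∈ F := (hF.flat 0 (facy_le_refl 0)).2 ⟨rfl, rfl⟩
  set A : Finset Cell := F \ {0} with hA
  set T : Submodule (ZMod 3) (A → ZMod 3) := LinearMap.range (dB (dinc (ZMod 3)) A) with hT
  set K : Submodule (ZMod 3) (A → ZMod 3) := LinearMap.ker (dB (dinc (ZMod 3)) A) with hK
  have hmemA : ∀ c, c ∈ A ↔ c ∈ F ∧ c ≠ 0 := fun c => by simp [hA]
  -- the square of the differential is zero
  have hcx0 : IsComplex ({0} : Finset Cell) := by
    intro b hb a ha
    rw [Finset.mem_singleton] at hb ⊢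
    subst hb
    funext i
    rcases ha i with h | h
    · exact h
    · simp at h
  have hcx : IsCx (dinc (ZMod 3)) A := isCx_dinc (conv_sdiff hF.surf.cx hcx0)
  have hTK : T ≤ K := by
    rintro _ ⟨x, rfl⟩
    rw [hK, LinearMap.mem_ker]
    funext c
    show ∑ b : A, (∑ a : A, x a * dinc (ZMod 3) a b) * dinc (ZMod 3) b c = 0
    simp_rw [Finset.sum_mul]
    rw [Finset.sum_comm]
    apply Finset.sum_eq_zero
    intro a _
    have h1 := hcx a a.2 c c.2
    rw [← Finset.sum_coe_sort] at h1
    simp_rw [mul_assoc]
    rw [← Finset.mul_sum, h1, mul_zero]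
  -- the number of cells
  set S : Finset Cell := A.filter (fun c => dim c = 2) with hS
  set V : Finset Cell := A.filter (fun c => dim c = 0) with hV
  have hcard : A.card = 2 * (S.card + V.card) := by
    have h1 : ∑ c ∈ A, ((-1 : ℤ)) ^ dim c = 0 := by
      have h2 := hF.eul
      unfold euler at h2
      rw [← Finset.sum_sdiff (Finset.singleton_subset_iff.2 h0F)] at h2
      have h3 : dim (0 : Cell) = 0 := by rw [facy_dim0]; intro i; rfl
      rw [Finset.sum_singleton, h3, pow_zero] at h2
      rw [hA]; linarith
    have h2 : ∀ c ∈ A, (-1 : ℤ) ^ dim c =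
        2 * ((if dim c = 2 then 1 else 0) + (if dim c = 0 then 1 else 0)) - 1 := by
      intro c hc
      have h3 := facy_dim_le hF.surf ((hmemA c).1 hc).1
      interval_cases dim c <;> simp
    rw [Finset.sum_congr rfl h2, Finset.sum_sub_distrib, ← Finset.mul_sum,
      Finset.sum_add_distrib] at h1
    simp only [Finset.sum_boole, Finset.sum_const, nsmul_eq_mul, mul_one] at h1
    have h3 : (A.card : ℤ) = 2 * ((S.card : ℤ) + V.card) := by
      rw [hS, hV]; linarith
    exact_mod_cast h3
  -- the rank
  have hrank : S.card + V.card ≤ Module.finrank (ZMod 3) T := by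
    -- extension by zero
    let ex : (X : Finset Cell) → (X → ZMod 3) →ₗ[ZMod 3] (A → ZMod 3) := fun X =>
      { toFun := fun w a => if h : (a : Cell) ∈ X then w ⟨a, h⟩ else 0
        map_add' := by
          intro x y; funext a
          by_cases h : (a : Cell) ∈ X <;> simp [h]
        map_smul' := by
          intro r x; funext a
          by_cases h : (a : Cell) ∈ X <;> simp [h] }
    have hexV : ∀ u : V → ZMod 3, ex V u ∈ T := by
      intro u
      have h1 : ex V u = ∑ v : V, u v • facyδ A v := by
        funext a
        rw [Finset.sum_apply]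
        simp only [Pi.smul_apply, smul_eq_mul, facyδ]
        by_cases h : (a : Cell) ∈ V
        · rw [Finset.sum_eq_single ⟨a, h⟩]
          · simp [ex, h]
          · intro b _ hb
            rw [if_neg, mul_zero]
            intro hab
            apply hb
            ext1
            exact hab.symm
          · intro h2; exact absurd (Finset.mem_univ _) h2
        · rw [Finset.sum_eq_zero]
          · simp [ex, h]
          · intro b _
            rw [if_neg, mul_zero]
            intro hab
            exact h (hab ▸ b.2)
      rw [h1]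
      refine Submodule.sum_mem _ fun v _ => Submodule.smul_mem _ _ ?_
      have hv := Finset.mem_filter.1 v.2
      exact facy_surj hF.surf.cx hF.conn h0F ((hmemA _).1 hv.1).1 hv.2
    let L : ((S → ZMod 3) × (V → ZMod 3)) →ₗ[ZMod 3] (A → ZMod 3) :=
      ((dB (dinc (ZMod 3)) A).comp (ex S)).coprod (ex V)
    have hL : ∀ z, L z ∈ T := by
      intro z
      have h1 : L z = dB (dinc (ZMod 3)) A (ex S z.1) + ex V z.2 := rfl
      rw [h1]
      exact Submodule.add_mem _ ⟨_, rfl⟩ (hexV _)
    have hinj : Function.Injective L := by
      rw [← LinearMap.ker_eq_bot, LinearMap.ker_eq_bot']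
      rintro ⟨w, u⟩ hwu
      have h1 : ∀ b : A, ∑ a : A, ex S w a * dinc (ZMod 3) a b + ex V u b = 0 := by
        intro b
        exact congrFun hwu b
      -- the function on all cells
      set w' : Cell → ZMod 3 := fun c => if h : c ∈ S then w ⟨c, h⟩ else 0 with hw'
      have hsum : ∀ b : A, ∑ a : A, ex S w a * dinc (ZMod 3) a b =
          ∑ q ∈ F.filter (fun q => dim q = 2), w' q * (inc q b : ZMod 3) := by
        intro b
        have h2 : ∑ a : A, ex S w a * dinc (ZMod 3) a b = ∑ a ∈ A, w' a * (inc a b : ZMod 3) := by
          rw [← Finset.sum_coe_sort A (fun a => w' a * (inc a b : ZMod 3))]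
          rfl
        rw [h2]
        have h3 : F.filter (fun q => dim q = 2) ⊆ A := by
          intro q hq
          rw [Finset.mem_filter] at hq
          rw [hmemA]
          refine ⟨hq.1, ?_⟩
          rintro rfl
          have : dim (0 : Cell) = 0 := by rw [facy_dim0]; intro i; rfl
          omega
        symm
        apply Finset.sum_subset h3
        intro q hqA hq
        have : q ∉ S := by
          intro hqS
          rw [hS, Finset.mem_filter] at hqS
          exact hq (Finset.mem_filter.2 ⟨((hmemA q).1 hqA).1, hqS.2⟩)
        simp [hw', this]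
      have hw0 : ∀ q ∈ F, dim q = 2 → w' q = 0 := by
        refine facy_inj hF.surf hF.conn hF.bne w' ?_
        intro c hc hc1
        have hcA : c ∈ A := by
          rw [hmemA]
          refine ⟨hc, ?_⟩
          rintro rfl
          have : dim (0 : Cell) = 0 := by rw [facy_dim0]; intro i; rfl
          omega
        have h2 := h1 ⟨c, hcA⟩
        rw [hsum] at h2
        have h3 : ex V u ⟨c, hcA⟩ = 0 := by
          have : c ∉ V := by
            intro h
            rw [hV, Finset.mem_filter] at h
            omega
          simp [ex, this]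
        rw [h3, add_zero] at h2
        exact h2
      have hw1 : w = 0 := by
        funext q
        have hq := Finset.mem_filter.1 q.2
        have h2 := hw0 q ((hmemA _).1 hq.1).1 hq.2
        have h3 : (q : Cell) ∈ S := q.2
        simpa [hw', h3] using h2
      have hu1 : u = 0 := by
        funext v
        have hv := Finset.mem_filter.1 v.2
        have h2 := h1 ⟨v, hv.1⟩
        rw [hw1, map_zero] at h2
        simp only [Pi.zero_apply, zero_mul, Finset.sum_const_zero, zero_add] at h2
        have h3 : (v : Cell) ∈ V := v.2
        simpa [ex, h3] using h2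
      rw [hw1, hu1]; rfl
    have h5 := LinearMap.finrank_le_finrank_of_injective
      (f := L.codRestrict T hL) ((LinearMap.injective_codRestrict_iff hL).2 hinj)
    rw [Module.finrank_prod, Module.finrank_fintype_fun_eq_card,
      Module.finrank_fintype_fun_eq_card, Fintype.card_coe, Fintype.card_coe] at h5
    exact h5
  have hsumr := LinearMap.finrank_range_add_finrank_ker (dB (dinc (ZMod 3)) A)
  rw [Module.finrank_fintype_fun_eq_card, Fintype.card_coe] at hsumr
  have heq : T = K := by
    apply Submodule.eq_of_le_of_finrank_le hTK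
    have : Module.finrank (ZMod 3) T + Module.finrank (ZMod 3) K = A.card := hsumr
    omega
  intro x hx
  have hxK : x ∈ K := hx
  rw [← heq] at hxK
  exact hxK

end Cub
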