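import Pool.Agent.H33.CB.FAcy
import Pool.Agent.H33.CB.Quot

/-!
# Module FLbox (about 100 lines): the twisted complex of the complement has torsion homology

`acy_rel`: `Box n \ {0} = (F \ {0}) ∪ (Box n \ F)`, `F \ {0}` closed under facets in it, both acyclic over
`ZMod 3`: `acy_split`.
`fl_box`: `Ring3.tors` for `P c c' = C (inc c c') * X ^ (a c c').val + C (inc c (-c')) * X ^ (a c (-c')).val`
on `B = pos (Box n \ F)`: `aeval ζ` of it is `dq (dcoef ζ a)` (a complex by `isCx_dq`), `aeval 1` of it is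
`dq (dinc (ZMod 3))`, acyclic by `acy_dq` (`2` is invertible in `ZMod 3`) from `acy_rel`.
-/

namespace Cub

variable {R : Type} [CommRing R]

private theorem FLbox_zero {n : Fin 4 → ℕ} {F B : Finset Cell} (hF : GoodDisc n F B) :
    (0 : Cell) ∈ F :=
  (hF.flat 0 (fun _ => Or.inl rfl)).mpr ⟨rfl, rfl⟩

theorem acy_rel {n : Fin 4 → ℕ} {F B : Finset Cell} (hF : GoodDisc n F B) :
    Acy (dinc (ZMod 3)) (Box n \ F) := by
  have h0 := FLbox_zero hF
  have hun : (F \ {0}) ∪ (Box n \ F) = Box n \ {0} := by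
    ext c
    rw [Finset.mem_union, Finset.mem_sdiff, Finset.mem_sdiff, Finset.mem_sdiff,
      Finset.mem_singleton]
    constructor
    · rintro (⟨h1, h2⟩ | ⟨h1, h2⟩)
      · exact ⟨hF.sub h1, h2⟩
      · refine ⟨h1, fun h => h2 (h ▸ h0)⟩
    · rintro ⟨h1, h2⟩
      by_cases h : c ∈ F
      · exact Or.inl ⟨h, h2⟩
      · exact Or.inr ⟨h1, h⟩
  have hd : Disjoint (F \ {0}) (Box n \ F) := by
    rw [Finset.disjoint_left]
    intro c h1 h2
    exact (Finset.mem_sdiff.mp h2).2 (Finset.mem_sdiff.mp h1).1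
  have h : ∀ a ∈ F \ {0}, ∀ b ∈ Box n \ F, dinc (ZMod 3) a b = 0 := by
    intro a ha b hb
    by_contra hne
    have h1 : inc a b ≠ 0 := by
      intro h2
      apply hne
      simp [dinc, h2]
    exact (Finset.mem_sdiff.mp hb).2
      (hF.surf.cx a (Finset.mem_sdiff.mp ha).1 b (le_of_inc h1).1)
  have hcx : IsCx (dinc (ZMod 3)) ((F \ {0}) ∪ (Box n \ F)) := by
    rw [hun]
    apply isCx_dinc
    refine conv_sdiff (isComplex_box n) ?_
    intro b hb a hab
    rw [Finset.mem_singleton] at hb ⊢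
    subst hb
    funext j
    rcases hab j with h | ⟨h, _⟩
    · exact h
    · simp at h
  refine (acy_split hcx h hd).2.1 ?_ (acy_F hF)
  rw [hun]
  exact acy_box n

theorem fl_box {ζ : R} (hR : Ring3 R ζ) {n : Fin 4 → ℕ} {F B : Finset Cell} (hF : GoodDisc n F B)
    {a : Cell → Cell → ZMod 3} (ha : SymA a) (hf : Flat a (Box n \ F)) :
    FL (dq (dcoef ζ a)) (pos (Box n \ F)) := by
  have h0 := FLbox_zero hF
  have h3 : ζ ^ 3 = 1 := by
    have := hR.root
    linear_combination (ζ - 1) * this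
  have hS : Sym (Box n \ F) := by
    intro c hc
    rw [Finset.mem_sdiff] at hc ⊢
    refine ⟨?_, fun h => hc.2 ?_⟩
    · have h1 := mem_box.mp hc.1
      rw [mem_box]
      intro i
      have h2 := h1 i
      rw [Pi.neg_apply]
      omega
    · have := hF.symm _ h
      rwa [neg_neg] at this
  have hs : Sec (Box n \ F) (pos (Box n \ F)) :=
    sec_pos hS (fun h => (Finset.mem_sdiff.mp h).2 h0)
  have hconv : Conv (Box n \ F) := conv_sdiff (isComplex_box n) hF.surf.cx
  have hcx : IsCx (dq (dcoef ζ a)) (pos (Box n \ F)) :=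
    isCx_dq hS hs (symM_dcoef ha) (isCx_dcoef h3 hconv hf)
  have hsym : SymM (dinc (ZMod 3)) := by
    intro c c'
    unfold dinc
    rw [inc_neg]
  have hacy : Acy (dq (dinc (ZMod 3))) (pos (Box n \ F)) := by
    refine acy_dq hS hs hsym ?_ (acy_rel hF)
    exact isUnit_iff_exists_inv.mpr ⟨2, by decide⟩
  let P : Cell → Cell → Polynomial ℤ := fun c c' =>
    Polynomial.C (inc c c') * Polynomial.X ^ (a c c').val +
      Polynomial.C (inc c (-c')) * Polynomial.X ^ (a c (-c')).val
  have hP1 : (fun b b' => Polynomial.aeval ζ (P b b')) = dq (dcoef ζ a) := by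
    funext b b'
    simp [P, dq, dcoef, zp]
  have hP2 : (fun b b' => Polynomial.aeval (1 : ZMod 3) (P b b')) = dq (dinc (ZMod 3)) := by
    funext b b'
    simp [P, dq, dinc]
  have key := hR.tors Cell inferInstance P (pos (Box n \ F)) (by rw [hP1]; exact hcx)
    (by rw [hP2]; exact hacy)
  rw [hP1] at key
  exact key

end Cub
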