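import Pool.Agent.H33.CB.BoxAcy

/-!
# Module FProp (about 200 lines): propagation of cycles on a surface

Let `w` be a function on the squares of `F` with values in `ZMod 3`, such that the cycle condition
holds at all edges of `F` outside `B`.
`prop_w`: if `w` vanishes at one square of `F` then it vanishes at all squares.
Proof: an edge of `F` not in `B` lies in exactly two squares of `F` (look at the link of one of its
two vertices `v`: the edge is `v + d` with `d` in the cyclic list, or an inner member of the path), so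
`w` vanishes at one of them iff it vanishes at the other.  Hence the squares at a vertex `v` have
the same status (the list is a cycle or a path).  Every cell of `F` contains a vertex of `F`, and
every vertex is in a square.  Transport the status along `Connected F` (for `Le x y`, both cells
belong to the star of a common vertex of `x`, `y`).
`edge_two`: the statement on edges used in the proof.
-/

namespace Cub

/-! ### directions -/

private theorem FProp_dir {d : Cell} (h : IsDir d) :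
    ∃ (i : Fin 4) (s : ℤ), (s = 1 ∨ s = -1) ∧ d = Pi.single i s := by
  obtain ⟨i, h | h⟩ := h
  · exact ⟨i, 1, Or.inl rfl, h⟩
  · exact ⟨i, -1, Or.inr rfl, h⟩

private theorem FProp_ev {v : Cell} (h : dim v = 0) (i : Fin 4) : v i % 2 = 0 := by
  unfold dim at h
  rw [Finset.card_eq_zero, Finset.filter_eq_empty_iff] at h
  have := h (Finset.mem_univ i)
  omega

private theorem FProp_d1 {v d : Cell} (h : dim v = 0) (hd : IsDir d) :
    dim (v + d) = 1 ∧ Le v (v + d) := by
  obtain ⟨i, s, hs, rfl⟩ := FProp_dir hd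
  constructor
  · unfold dim
    rw [Finset.card_eq_one]
    refine ⟨i, ?_⟩
    ext l
    simp only [Finset.mem_filter, Finset.mem_univ, true_and, Finset.mem_singleton, Pi.add_apply]
    have hv := FProp_ev h l
    constructor
    · intro hl
      by_contra hne
      rw [Pi.single_eq_of_ne hne] at hl
      omega
    · rintro rfl
      rw [Pi.single_eq_same]
      omega
  · intro l
    have hv := FProp_ev h l
    simp only [Pi.add_apply]
    by_cases hl : l = i
    · subst hl
      rw [Pi.single_eq_same]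
      omega
    · rw [Pi.single_eq_of_ne hl]
      omega

private theorem FProp_axes {i j : Fin 4} {s t : ℤ} (hs : s = 1 ∨ s = -1) (ht : t = 1 ∨ t = -1)
    (h1 : (Pi.single i s : Cell) ≠ Pi.single j t) (h2 : (Pi.single j t : Cell) ≠ -Pi.single i s) :
    i ≠ j := by
  rintro rfl
  rcases hs with rfl | rfl <;> rcases ht with rfl | rfl
  · exact h1 rfl
  · exact h2 (Pi.single_neg i 1)
  · exact h2 (by rw [Pi.single_neg, neg_neg])
  · exact h1 rfl

private theorem FProp_d2 {v d d' : Cell} (h : dim v = 0) (hd : IsDir d) (hd' : IsDir d')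
    (h1 : d ≠ d') (h2 : d' ≠ -d) :
    dim (v + d + d') = 2 ∧ Le (v + d) (v + d + d') ∧ Le (v + d') (v + d + d') ∧
    ∀ d'', IsDir d'' → Le (v + d'') (v + d + d') → d'' = d ∨ d'' = d' := by
  obtain ⟨i, s, hs, rfl⟩ := FProp_dir hd
  obtain ⟨j, t, ht, rfl⟩ := FProp_dir hd'
  have hij := FProp_axes hs ht h1 h2
  refine ⟨?_, ?_, ?_, ?_⟩
  · unfold dim
    rw [Finset.card_eq_two]
    refine ⟨i, j, hij, ?_⟩
    ext l
    simp only [Finset.mem_filter, Finset.mem_univ, true_and, Finset.mem_singleton,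
      Finset.mem_insert, Pi.add_apply]
    have hv := FProp_ev h l
    constructor
    · intro hl
      by_contra hne
      push Not at hne
      rw [Pi.single_eq_of_ne hne.1, Pi.single_eq_of_ne hne.2] at hl
      omega
    · rintro (rfl | rfl)
      · rw [Pi.single_eq_same, Pi.single_eq_of_ne hij]
        omega
      · rw [Pi.single_eq_same, Pi.single_eq_of_ne hij.symm]
        omega
  · intro l
    have hv := FProp_ev h l
    simp only [Pi.add_apply]
    by_cases hl : l = j
    · subst hl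
      rw [Pi.single_eq_same, Pi.single_eq_of_ne hij.symm]
      omega
    · rw [Pi.single_eq_of_ne hl]
      omega
  · intro l
    have hv := FProp_ev h l
    simp only [Pi.add_apply]
    by_cases hl : l = i
    · subst hl
      rw [Pi.single_eq_same, Pi.single_eq_of_ne hij]
      omega
    · rw [Pi.single_eq_of_ne hl]
      omega
  · intro d'' hd'' hle
    obtain ⟨k, r, hr, rfl⟩ := FProp_dir hd''
    have hv := FProp_ev h k
    have hk := hle k
    simp only [Pi.add_apply, Pi.single_eq_same] at hk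
    by_cases hki : k = i
    · subst hki
      rw [Pi.single_eq_same, Pi.single_eq_of_ne hij] at hk
      left
      have : r = s := by omega
      rw [this]
    · by_cases hkj : k = j
      · subst hkj
        rw [Pi.single_eq_same, Pi.single_eq_of_ne hki] at hk
        right
        have : r = t := by omega
        rw [this]
      · rw [Pi.single_eq_of_ne hki, Pi.single_eq_of_ne hkj] at hk
        omega

private theorem FProp_trans {a b c : Cell} (h1 : Le a b) (h2 : Le b c) : Le a c := by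
  intro i
  have h3 := h1 i
  have h4 := h2 i
  omega

private theorem FProp_vert (c : Cell) : ∃ v, dim v = 0 ∧ Le v c := by
  refine ⟨fun i => if c i % 2 = 1 then c i - 1 else c i, ?_, ?_⟩
  · unfold dim
    rw [Finset.card_eq_zero, Finset.filter_eq_empty_iff]
    intro i _
    dsimp only
    split_ifs <;> omega
  · intro i
    dsimp only
    split_ifs <;> omega

private theorem FProp_inc {c q : Cell} (h : Le c q) (hd : dim q = dim c + 1) : inc q c ≠ 0 := by
  rw [inc_ne]
  have hsub : Finset.univ.filter (fun i => c i % 2 = 1) ⊆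
      Finset.univ.filter (fun i => q i % 2 = 1) := by
    intro i hi
    simp only [Finset.mem_filter, Finset.mem_univ, true_and] at hi ⊢
    have := h i
    omega
  have hcard : (Finset.univ.filter (fun i => q i % 2 = 1) \
      Finset.univ.filter (fun i => c i % 2 = 1)).card = 1 := by
    rw [Finset.card_sdiff_of_subset hsub]
    unfold dim at hd
    omega
  obtain ⟨i, hi⟩ := Finset.card_eq_one.1 hcard
  have hi1 : i ∈ (Finset.univ.filter (fun i => q i % 2 = 1) \
      Finset.univ.filter (fun i => c i % 2 = 1)) := by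
    rw [hi]
    exact Finset.mem_singleton_self i
  simp only [Finset.mem_sdiff, Finset.mem_filter, Finset.mem_univ, true_and] at hi1
  have hother : ∀ l, l ≠ i → c l = q l := by
    intro l hl
    by_contra hne
    have h3 := h l
    have h4 : l ∈ (Finset.univ.filter (fun i => q i % 2 = 1) \
        Finset.univ.filter (fun i => c i % 2 = 1)) := by
      simp only [Finset.mem_sdiff, Finset.mem_filter, Finset.mem_univ, true_and]
      omega
    rw [hi, Finset.mem_singleton] at h4
    exact hl h4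
  refine ⟨i, hi1.1, ?_⟩
  have h3 := h i
  rcases h3 with h3 | ⟨-, h3 | h3⟩
  · omega
  · right
    funext l
    by_cases hl : l = i
    · subst hl
      simp only [Pi.sub_apply, e, Pi.single_eq_same]
      exact h3
    · simp only [Pi.sub_apply, e, Pi.single_eq_of_ne hl, sub_zero]
      exact hother l hl
  · left
    funext l
    by_cases hl : l = i
    · subst hl
      simp only [Pi.add_apply, e, Pi.single_eq_same]
      exact h3
    · simp only [Pi.add_apply, e, Pi.single_eq_of_ne hl, add_zero]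
      exact hother l hl

/-! ### lists -/

private def FProp_a (l : List Cell) (j : ℕ) : Cell := l.getD j 0

private theorem FProp_a_eq {l : List Cell} {j : ℕ} (h : j < l.length) : FProp_a l j = l[j] :=
  List.getD_eq_getElem _ _ h

private theorem FProp_inj {l : List Cell} (h : l.Nodup) {i j : ℕ} (hi : i < l.length)
    (hj : j < l.length) (h1 : FProp_a l i = FProp_a l j) : i = j := by
  rw [FProp_a_eq hi, FProp_a_eq hj] at h1
  exact (List.Nodup.getElem_inj_iff h).1 h1

private theorem FProp_mem {l : List Cell} {d : Cell} :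
    d ∈ l ↔ ∃ j, j < l.length ∧ FProp_a l j = d := by
  rw [List.mem_iff_getElem]
  constructor
  · rintro ⟨j, hj, h⟩
    exact ⟨j, hj, by rw [FProp_a_eq hj]; exact h⟩
  · rintro ⟨j, hj, h⟩
    exact ⟨j, hj, by rw [← FProp_a_eq hj]; exact h⟩

private theorem FProp_zt {l : List Cell} {p : Cell × Cell} :
    p ∈ l.zip l.tail ↔ ∃ j, j + 1 < l.length ∧ p = (FProp_a l j, FProp_a l (j + 1)) := by
  rw [List.mem_iff_getElem]
  constructor
  · rintro ⟨j, hj, rfl⟩
    rw [List.length_zip, List.length_tail] at hj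
    have h1 : j + 1 < l.length := by omega
    refine ⟨j, h1, ?_⟩
    rw [List.getElem_zip, List.getElem_tail, FProp_a_eq h1, FProp_a_eq (by omega : j < l.length)]
  · rintro ⟨j, hj, rfl⟩
    refine ⟨j, by rw [List.length_zip, List.length_tail]; omega, ?_⟩
    rw [List.getElem_zip, List.getElem_tail, FProp_a_eq hj, FProp_a_eq (by omega : j < l.length)]

private def FProp_s (n j : ℕ) : ℕ := if j + 1 = n then 0 else j + 1

private theorem FProp_s_mod {n j : ℕ} (h : j < n) : (j + 1) % n = FProp_s n j := by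
  unfold FProp_s
  split_ifs with h1
  · rw [h1, Nat.mod_self]
  · exact Nat.mod_eq_of_lt (by omega)

private theorem FProp_s_lt {n j : ℕ} (h : j < n) : FProp_s n j < n := by
  unfold FProp_s
  split_ifs <;> omega

private theorem FProp_zr {l : List Cell} {p : Cell × Cell} :
    p ∈ l.zip (l.rotate 1) ↔
      ∃ j, j < l.length ∧ p = (FProp_a l j, FProp_a l (FProp_s l.length j)) := by
  rw [List.mem_iff_getElem]
  constructor
  · rintro ⟨j, hj, rfl⟩
    rw [List.length_zip, List.length_rotate, min_self] at hj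
    refine ⟨j, hj, ?_⟩
    rw [List.getElem_zip, List.getElem_rotate, FProp_a_eq hj, FProp_a_eq (FProp_s_lt hj)]
    simp only [FProp_s_mod hj]
  · rintro ⟨j, hj, rfl⟩
    refine ⟨j, by rw [List.length_zip, List.length_rotate, min_self]; exact hj, ?_⟩
    rw [List.getElem_zip, List.getElem_rotate, FProp_a_eq hj, FProp_a_eq (FProp_s_lt hj)]
    simp only [FProp_s_mod hj]

private theorem FProp_head {l : List Cell} (h : 0 < l.length) {d : Cell} :
    l.head? = some d ↔ FProp_a l 0 = d := by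
  rw [List.head?_eq_getElem?, List.getElem?_eq_getElem h, FProp_a_eq h, Option.some.injEq]

private theorem FProp_last {l : List Cell} (h : 0 < l.length) {d : Cell} :
    l.getLast? = some d ↔ FProp_a l (l.length - 1) = d := by
  have h1 : l.length - 1 < l.length := by omega
  rw [List.getLast?_eq_getElem?, List.getElem?_eq_getElem h1, FProp_a_eq h1, Option.some.injEq]

/-- exactly two pairs of a cyclic list contain a given element -/
private theorem FProp_c1 {l : List Cell} (hn : l.Nodup) (hl : 3 ≤ l.length) {d : Cell}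
    (hd : d ∈ l) : ∃ p ∈ l.zip (l.rotate 1), ∃ p' ∈ l.zip (l.rotate 1), p.1 + p.2 ≠ p'.1 + p'.2 ∧
      ∀ r ∈ l.zip (l.rotate 1), (r.1 = d ∨ r.2 = d) ↔ (r = p ∨ r = p') := by
  obtain ⟨j, hj, rfl⟩ := FProp_mem.1 hd
  obtain ⟨k, hk, hkj⟩ : ∃ k, k < l.length ∧ FProp_s l.length k = j := by
    rcases Nat.eq_zero_or_pos j with h0 | h0
    · exact ⟨l.length - 1, by omega, by unfold FProp_s; rw [if_pos (by omega)]; exact h0.symm⟩
    · exact ⟨j - 1, by omega, by unfold FProp_s; rw [if_neg (by omega)]; omega⟩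
  refine ⟨_, FProp_zr.2 ⟨k, hk, rfl⟩, _, FProp_zr.2 ⟨j, hj, rfl⟩, ?_, ?_⟩
  · intro he
    simp only at he
    rw [hkj, add_comm] at he
    have h1 := FProp_inj hn hk (FProp_s_lt hj) (add_left_cancel he)
    rw [h1] at hkj
    unfold FProp_s at hkj
    split_ifs at hkj <;> omega
  · intro r hr
    obtain ⟨m, hm, rfl⟩ := FProp_zr.1 hr
    constructor
    · rintro (h1 | h1)
      · right
        have h2 := FProp_inj hn hm hj h1
        rw [h2]
      · left
        have h2 := FProp_inj hn (FProp_s_lt hm) hj h1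
        have h3 : m = k := by
          rw [← h2] at hkj
          unfold FProp_s at hkj
          split_ifs at hkj <;> omega
        rw [h3]
    · rintro (h1 | h1)
      · right
        have h2 := congrArg Prod.snd h1
        simp only at h2
        rw [hkj] at h2
        exact h2
      · left
        exact congrArg Prod.fst h1

/-- exactly two pairs of a list contain a given inner element -/
private theorem FProp_c2 {l : List Cell} (hn : l.Nodup) {j : ℕ} (h1 : 0 < j)
    (h2 : j + 1 < l.length) : ∃ p ∈ l.zip l.tail, ∃ p' ∈ l.zip l.tail, p.1 + p.2 ≠ p'.1 + p'.2 ∧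
      ∀ r ∈ l.zip l.tail, (r.1 = FProp_a l j ∨ r.2 = FProp_a l j) ↔ (r = p ∨ r = p') := by
  obtain ⟨k, rfl⟩ : ∃ k, j = k + 1 := ⟨j - 1, by omega⟩
  refine ⟨_, FProp_zt.2 ⟨k, by omega, rfl⟩, _, FProp_zt.2 ⟨k + 1, h2, rfl⟩, ?_, ?_⟩
  · intro he
    simp only at he
    rw [add_comm] at he
    have h3 := FProp_inj hn (by omega) h2 (add_left_cancel he)
    omega
  · intro r hr
    obtain ⟨m, hm, rfl⟩ := FProp_zt.1 hr
    constructor
    · rintro (h3 | h3)
      · right
        have h4 := FProp_inj hn (by omega) (by omega) h3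
        rw [h4]
      · left
        have h4 := FProp_inj hn hm (by omega) h3
        have h5 : m = k := by omega
        rw [h5]
    · rintro (h3 | h3)
      · right
        exact congrArg Prod.snd h3
      · left
        exact congrArg Prod.fst h3

/-- exactly one pair of a list contains a given end -/
private theorem FProp_c3 {l : List Cell} (hn : l.Nodup) (hl : 2 ≤ l.length) {j : ℕ}
    (hj : j = 0 ∨ j = l.length - 1) : ∃ p ∈ l.zip l.tail,
      ∀ r ∈ l.zip l.tail, (r.1 = FProp_a l j ∨ r.2 = FProp_a l j) ↔ r = p := by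
  rcases hj with rfl | hj
  · refine ⟨_, FProp_zt.2 ⟨0, by omega, rfl⟩, ?_⟩
    intro r hr
    obtain ⟨m, hm, rfl⟩ := FProp_zt.1 hr
    constructor
    · rintro (h3 | h3)
      · have h4 := FProp_inj hn (by omega) (by omega) h3
        rw [h4]
      · have h4 := FProp_inj hn hm (by omega) h3
        omega
    · intro h3
      left
      exact congrArg Prod.fst h3
  · refine ⟨_, FProp_zt.2 ⟨l.length - 2, by omega, rfl⟩, ?_⟩
    intro r hr
    obtain ⟨m, hm, rfl⟩ := FProp_zt.1 hr
    have hj' : l.length - 2 + 1 = j := by omega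
    constructor
    · rintro (h3 | h3)
      · have h4 := FProp_inj hn (by omega) (by omega) h3
        omega
      · have h4 := FProp_inj hn hm (by omega) h3
        have h5 : m = l.length - 2 := by omega
        rw [h5]
    · intro h3
      right
      have h4 := congrArg Prod.snd h3
      simp only at h4
      rw [hj'] at h4
      exact h4

/-! ### the star of a vertex -/

private structure FProp_L (F : Finset Cell) (v : Cell) (l : List Cell) (Z : List (Cell × Cell)) :
    Prop where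
  dir : ∀ d ∈ l, IsDir d
  z1 : ∀ p ∈ Z, p.1 ∈ l
  z2 : ∀ p ∈ Z, p.2 ∈ l
  zn : ∀ p ∈ Z, p.1 ≠ p.2
  zo : ∀ p ∈ Z, p.2 ≠ -p.1
  cov : ∀ d ∈ l, ∃ p ∈ Z, p.1 = d ∨ p.2 = d
  ne : ∃ p, p ∈ Z
  star : ∀ c, (c ∈ F ∧ Le v c) ↔ (c = v ∨ (∃ d ∈ l, c = v + d) ∨ ∃ p ∈ Z, c = v + p.1 + p.2)

private theorem FProp_Lcyc {F : Finset Cell} {v : Cell} {l : List Cell} (h : LinkCycle F v l) :
    FProp_L F v l (l.zip (l.rotate 1)) := by
  obtain ⟨h1, h2, h3, h4, h5⟩ := h
  refine ⟨h3, ?_, ?_, ?_, h4, ?_, ?_, h5⟩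
  · intro p hp
    obtain ⟨j, hj, rfl⟩ := FProp_zr.1 hp
    exact FProp_mem.2 ⟨j, hj, rfl⟩
  · intro p hp
    obtain ⟨j, hj, rfl⟩ := FProp_zr.1 hp
    exact FProp_mem.2 ⟨_, FProp_s_lt hj, rfl⟩
  · intro p hp he
    obtain ⟨j, hj, rfl⟩ := FProp_zr.1 hp
    have h6 := FProp_inj h2 hj (FProp_s_lt hj) he
    unfold FProp_s at h6
    split_ifs at h6 <;> omega
  · intro d hd
    obtain ⟨j, hj, rfl⟩ := FProp_mem.1 hd
    exact ⟨_, FProp_zr.2 ⟨j, hj, rfl⟩, Or.inl rfl⟩
  · exact ⟨_, FProp_zr.2 ⟨0, by omega, rfl⟩⟩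

private theorem FProp_Lpath {F : Finset Cell} {v : Cell} {l : List Cell} (h : LinkPath F v l) :
    FProp_L F v l (l.zip l.tail) := by
  obtain ⟨h1, h2, h3, h4, h5⟩ := h
  refine ⟨h3, ?_, ?_, ?_, h4, ?_, ?_, h5⟩
  · intro p hp
    obtain ⟨j, hj, rfl⟩ := FProp_zt.1 hp
    exact FProp_mem.2 ⟨j, by omega, rfl⟩
  · intro p hp
    obtain ⟨j, hj, rfl⟩ := FProp_zt.1 hp
    exact FProp_mem.2 ⟨_, hj, rfl⟩
  · intro p hp he
    obtain ⟨j, hj, rfl⟩ := FProp_zt.1 hp
    have h6 := FProp_inj h2 (by omega) hj he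
    omega
  · intro d hd
    obtain ⟨j, hj, rfl⟩ := FProp_mem.1 hd
    by_cases h6 : j + 1 < l.length
    · exact ⟨_, FProp_zt.2 ⟨j, h6, rfl⟩, Or.inl rfl⟩
    · obtain ⟨k, rfl⟩ : ∃ k, j = k + 1 := ⟨j - 1, by omega⟩
      exact ⟨_, FProp_zt.2 ⟨k, hj, rfl⟩, Or.inr rfl⟩
  · exact ⟨_, FProp_zt.2 ⟨0, by omega, rfl⟩⟩

private theorem FProp_pair {F : Finset Cell} {v : Cell} {l : List Cell} {Z : List (Cell × Cell)}
    (h : FProp_L F v l Z) (hv : dim v = 0) {p : Cell × Cell} (hp : p ∈ Z) :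
    dim (v + p.1 + p.2) = 2 ∧ Le (v + p.1) (v + p.1 + p.2) ∧ Le (v + p.2) (v + p.1 + p.2) ∧
    ∀ d'', IsDir d'' → Le (v + d'') (v + p.1 + p.2) → d'' = p.1 ∨ d'' = p.2 :=
  FProp_d2 hv (h.dir _ (h.z1 p hp)) (h.dir _ (h.z2 p hp)) (h.zn p hp) (h.zo p hp)

private theorem FProp_sq {F : Finset Cell} {v : Cell} {l : List Cell} {Z : List (Cell × Cell)}
    (h : FProp_L F v l Z) (hv : dim v = 0) {d : Cell} (hd : d ∈ l) (x : Cell) :
    (x ∈ F ∧ dim x = 2 ∧ Le (v + d) x) ↔ ∃ p ∈ Z, (p.1 = d ∨ p.2 = d) ∧ x = v + p.1 + p.2 := by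
  constructor
  · rintro ⟨hx, hdim, hle⟩
    have hvx : Le v x := FProp_trans (FProp_d1 hv (h.dir d hd)).2 hle
    rcases (h.star x).1 ⟨hx, hvx⟩ with rfl | ⟨d', hd', rfl⟩ | ⟨p, hp, rfl⟩
    · omega
    · have := (FProp_d1 hv (h.dir d' hd')).1
      omega
    · refine ⟨p, hp, ?_, rfl⟩
      rcases (FProp_pair h hv hp).2.2.2 d (h.dir d hd) hle with h1 | h1
      · exact Or.inl h1.symm
      · exact Or.inr h1.symm
  · rintro ⟨p, hp, hpd, rfl⟩
    have h1 := FProp_pair h hv hp
    refine ⟨((h.star _).2 (Or.inr (Or.inr ⟨p, hp, rfl⟩))).1, h1.1, ?_⟩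
    rcases hpd with rfl | rfl
    · exact h1.2.1
    · exact h1.2.2.1

/-- a vertex of an edge, and the direction of the edge -/
private theorem FProp_edge {F : Finset Cell} {v c : Cell} {l : List Cell}
    {Z : List (Cell × Cell)} (h : FProp_L F v l Z) (hv : dim v = 0) (hc : c ∈ F) (hd : dim c = 1)
    (hvc : Le v c) : ∃ d ∈ l, c = v + d := by
  rcases (h.star c).1 ⟨hc, hvc⟩ with rfl | h1 | ⟨p, hp, rfl⟩
  · omega
  · exact h1
  · have := (FProp_pair h hv hp).1
    omega

private theorem FProp_two {F : Finset Cell} {v : Cell} {l : List Cell} {Z : List (Cell × Cell)}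
    (h : FProp_L F v l Z) (hv : dim v = 0) {d : Cell} (hd : d ∈ l)
    (h2 : ∃ p ∈ Z, ∃ p' ∈ Z, p.1 + p.2 ≠ p'.1 + p'.2 ∧
      ∀ r ∈ Z, (r.1 = d ∨ r.2 = d) ↔ (r = p ∨ r = p')) :
    ∃ q ∈ F, ∃ q' ∈ F, q ≠ q' ∧ ∀ x, (x ∈ F ∧ dim x = 2 ∧ Le (v + d) x) ↔ (x = q ∨ x = q') := by
  obtain ⟨p, hp, p', hp', hne, hall⟩ := h2
  refine ⟨v + p.1 + p.2, ((h.star _).2 (Or.inr (Or.inr ⟨p, hp, rfl⟩))).1,
    v + p'.1 + p'.2, ((h.star _).2 (Or.inr (Or.inr ⟨p', hp', rfl⟩))).1, ?_, ?_⟩
  · intro he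
    rw [add_assoc, add_assoc] at he
    exact hne (add_left_cancel he)
  · intro x
    rw [FProp_sq h hv hd]
    constructor
    · rintro ⟨r, hr, hrd, rfl⟩
      rcases (hall r hr).1 hrd with rfl | rfl
      · exact Or.inl rfl
      · exact Or.inr rfl
    · rintro (rfl | rfl)
      · exact ⟨p, hp, (hall p hp).2 (Or.inl rfl), rfl⟩
      · exact ⟨p', hp', (hall p' hp').2 (Or.inr rfl), rfl⟩

theorem edge_two {F B : Finset Cell} (hF : IsSurface F B) {c : Cell} (hc : c ∈ F) (hd : dim c = 1)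
    (hB : c ∉ B) : ∃ q ∈ F, ∃ q' ∈ F, q ≠ q' ∧ ∀ x, (x ∈ F ∧ dim x = 2 ∧ Le c x) ↔ (x = q ∨ x = q')
    := by
  obtain ⟨v, hv, hvc⟩ := FProp_vert c
  have hvF := hF.cx c hc v hvc
  by_cases hvB : v ∈ B
  · obtain ⟨l, hl, hout⟩ := hF.outer v hvB hv
    have hL := FProp_Lpath hl
    obtain ⟨d, hdl, rfl⟩ := FProp_edge hL hv hc hd hvc
    apply FProp_two hL hv hdl
    obtain ⟨j, hj, rfl⟩ := FProp_mem.1 hdl
    have h2 := hl.1
    have hj0 : j ≠ 0 := by
      rintro rfl
      exact hB ((hout _).2 (Or.inl ((FProp_head hj).2 rfl))).2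
    have hj1 : j ≠ l.length - 1 := by
      rintro rfl
      exact hB ((hout _).2 (Or.inr ((FProp_last (by omega)).2 rfl))).2
    exact FProp_c2 hl.2.1 (by omega) (by omega)
  · obtain ⟨l, hl⟩ := hF.inner v hvF hv hvB
    have hL := FProp_Lcyc hl
    obtain ⟨d, hdl, rfl⟩ := FProp_edge hL hv hc hd hvc
    exact FProp_two hL hv hdl (FProp_c1 hl.2.1 hl.1 hdl)

theorem edge_one {F B : Finset Cell} (hF : IsSurface F B) {c : Cell} (hc : c ∈ B) (hd : dim c = 1) :
    ∃ q ∈ F, ∀ x, (x ∈ F ∧ dim x = 2 ∧ Le c x) ↔ x = q := by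
  obtain ⟨v, hv, hvc⟩ := FProp_vert c
  have hvB := hF.bcx c hc v hvc
  obtain ⟨l, hl, hout⟩ := hF.outer v hvB hv
  have hL := FProp_Lpath hl
  obtain ⟨d, hdl, rfl⟩ := FProp_edge hL hv (hF.sub hc) hd hvc
  have h2 := hl.1
  have hj := (hout d).1 ⟨hL.dir d hdl, hc⟩
  have h3 : ∃ j, (j = 0 ∨ j = l.length - 1) ∧ FProp_a l j = d := by
    rcases hj with hj | hj
    · exact ⟨0, Or.inl rfl, (FProp_head (by omega)).1 hj⟩
    · exact ⟨_, Or.inr rfl, (FProp_last (by omega)).1 hj⟩
  obtain ⟨j, hj', rfl⟩ := h3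
  obtain ⟨p, hp, hall⟩ := FProp_c3 hl.2.1 h2 hj'
  refine ⟨v + p.1 + p.2, ((hL.star _).2 (Or.inr (Or.inr ⟨p, hp, rfl⟩))).1, ?_⟩
  intro x
  rw [FProp_sq hL hv hdl]
  constructor
  · rintro ⟨r, hr, hrd, rfl⟩
    rw [(hall r hr).1 hrd]
  · rintro rfl
    exact ⟨p, hp, (hall p hp).2 rfl, rfl⟩

/-! ### propagation -/

private theorem FProp_rel {F B : Finset Cell} (hF : IsSurface F B) (w : Cell → ZMod 3)
    (hw : ∀ c ∈ F, dim c = 1 → c ∉ B →
      ∑ q ∈ F.filter (fun q => dim q = 2), w q * (inc q c : ZMod 3) = 0)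
    {c : Cell} (hc : c ∈ F) (hd : dim c = 1) (hB : c ∉ B) {q q' : Cell} (hq : q ∈ F)
    (hq' : q' ∈ F) (hqd : dim q = 2) (hqd' : dim q' = 2) (hle : Le c q) (hle' : Le c q')
    (h0 : w q = 0) : w q' = 0 := by
  by_cases hqq : q = q'
  · rw [← hqq]
    exact h0
  obtain ⟨q1, hq1, q2, hq2, hne, hall⟩ := edge_two hF hc hd hB
  have hset : ∀ x, (x ∈ F ∧ dim x = 2 ∧ Le c x) ↔ (x = q ∨ x = q') := by
    intro x
    have e1 := (hall q).1 ⟨hq, hqd, hle⟩
    have e2 := (hall q').1 ⟨hq', hqd', hle'⟩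
    rw [hall x]
    rcases e1 with rfl | rfl <;> rcases e2 with rfl | rfl
    · exact absurd rfl hqq
    · exact Iff.rfl
    · exact or_comm
    · exact absurd rfl hqq
  have hsum := hw c hc hd hB
  have hsub : ({q, q'} : Finset Cell) ⊆ F.filter (fun q => dim q = 2) := by
    intro x hx
    rw [Finset.mem_insert, Finset.mem_singleton] at hx
    rw [Finset.mem_filter]
    rcases hx with rfl | rfl
    · exact ⟨hq, hqd⟩
    · exact ⟨hq', hqd'⟩
  rw [← Finset.sum_subset hsub, Finset.sum_pair hqq, h0, zero_mul, zero_add] at hsum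
  · have hn := FProp_inc hle' (by omega)
    rcases inc_val q' c with h1 | h1 | h1
    · exact absurd h1 hn
    · rw [h1] at hsum
      simpa using hsum
    · rw [h1] at hsum
      simpa using hsum
  · intro x hx hx2
    rw [Finset.mem_filter] at hx
    have h1 : inc x c = 0 := by
      by_contra h2
      have h3 := (hset x).1 ⟨hx.1, hx.2, (le_of_inc h2).1⟩
      apply hx2
      rw [Finset.mem_insert, Finset.mem_singleton]
      exact h3
    rw [h1]
    simp

/-- all squares at a vertex have the same status -/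
private theorem FProp_stat {F B : Finset Cell} (hF : IsSurface F B) (w : Cell → ZMod 3)
    (hw : ∀ c ∈ F, dim c = 1 → c ∉ B →
      ∑ q ∈ F.filter (fun q => dim q = 2), w q * (inc q c : ZMod 3) = 0)
    {v : Cell} (hvF : v ∈ F) (hv : dim v = 0) : ∃ T : Prop, ∀ q ∈ F, dim q = 2 → Le v q →
      (w q = 0 ↔ T) := by
  by_cases hvB : v ∈ B
  · obtain ⟨l, hl, hout⟩ := hF.outer v hvB hv
    have hL := FProp_Lpath hl
    have h2 := hl.1
    have key : ∀ j, j + 1 < l.length → (w (v + FProp_a l j + FProp_a l (j + 1)) = 0 ↔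
        w (v + FProp_a l 0 + FProp_a l 1) = 0) := by
      intro j
      induction j with
      | zero => intro _; exact Iff.rfl
      | succ j ih =>
        intro hj
        rw [← ih (by omega)]
        have hp1 : (FProp_a l j, FProp_a l (j + 1)) ∈ l.zip l.tail :=
          FProp_zt.2 ⟨j, by omega, rfl⟩
        have hp2 : (FProp_a l (j + 1), FProp_a l (j + 1 + 1)) ∈ l.zip l.tail :=
          FProp_zt.2 ⟨j + 1, hj, rfl⟩
        have hm : FProp_a l (j + 1) ∈ l := FProp_mem.2 ⟨_, by omega, rfl⟩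
        have hcF : v + FProp_a l (j + 1) ∈ F :=
          ((hL.star _).2 (Or.inr (Or.inl ⟨_, hm, rfl⟩))).1
        have hcd := (FProp_d1 hv (hL.dir _ hm)).1
        have hcB : v + FProp_a l (j + 1) ∉ B := by
          intro h3
          rcases (hout _).1 ⟨hL.dir _ hm, h3⟩ with h4 | h4
          · have h5 := FProp_inj hl.2.1 (by omega) (by omega) ((FProp_head (by omega)).1 h4)
            omega
          · have h5 := FProp_inj hl.2.1 (by omega) (by omega) ((FProp_last (by omega)).1 h4)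
            omega
        have s1 := FProp_pair hL hv hp1
        have s2 := FProp_pair hL hv hp2
        have f1 := ((hL.star _).2 (Or.inr (Or.inr ⟨_, hp1, rfl⟩))).1
        have f2 := ((hL.star _).2 (Or.inr (Or.inr ⟨_, hp2, rfl⟩))).1
        exact ⟨fun h => FProp_rel hF w hw hcF hcd hcB f2 f1 s2.1 s1.1 s2.2.1 s1.2.2.1 h,
          fun h => FProp_rel hF w hw hcF hcd hcB f1 f2 s1.1 s2.1 s1.2.2.1 s2.2.1 h⟩
    refine ⟨w (v + FProp_a l 0 + FProp_a l 1) = 0, fun q hq hqd hle => ?_⟩
    rcases (hL.star q).1 ⟨hq, hle⟩ with rfl | ⟨d', hd', rfl⟩ | ⟨p, hp, rfl⟩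
    · omega
    · have := (FProp_d1 hv (hL.dir d' hd')).1
      omega
    · obtain ⟨j, hj, rfl⟩ := FProp_zt.1 hp
      exact key j hj
  · obtain ⟨l, hl⟩ := hF.inner v hvF hv hvB
    have hL := FProp_Lcyc hl
    have h2 := hl.1
    have key : ∀ j, j < l.length →
        (w (v + FProp_a l j + FProp_a l (FProp_s l.length j)) = 0 ↔
        w (v + FProp_a l 0 + FProp_a l (FProp_s l.length 0)) = 0) := by
      intro j
      induction j with
      | zero => intro _; exact Iff.rfl
      | succ j ih =>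
        intro hj
        rw [← ih (by omega)]
        have hs : FProp_s l.length j = j + 1 := by
          unfold FProp_s
          rw [if_neg (by omega)]
        have hp1 : (FProp_a l j, FProp_a l (FProp_s l.length j)) ∈ l.zip (l.rotate 1) :=
          FProp_zr.2 ⟨j, by omega, rfl⟩
        have hp2 : (FProp_a l (j + 1), FProp_a l (FProp_s l.length (j + 1))) ∈
            l.zip (l.rotate 1) := FProp_zr.2 ⟨j + 1, hj, rfl⟩
        have hm : FProp_a l (j + 1) ∈ l := FProp_mem.2 ⟨_, by omega, rfl⟩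
        have hcF : v + FProp_a l (j + 1) ∈ F :=
          ((hL.star _).2 (Or.inr (Or.inl ⟨_, hm, rfl⟩))).1
        have hcd := (FProp_d1 hv (hL.dir _ hm)).1
        have hcB : v + FProp_a l (j + 1) ∉ B := by
          intro h3
          exact hvB (hF.bcx _ h3 v (FProp_d1 hv (hL.dir _ hm)).2)
        have s1 := FProp_pair hL hv hp1
        have s2 := FProp_pair hL hv hp2
        have f1 := ((hL.star _).2 (Or.inr (Or.inr ⟨_, hp1, rfl⟩))).1
        have f2 := ((hL.star _).2 (Or.inr (Or.inr ⟨_, hp2, rfl⟩))).1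
        simp only [hs] at s1 f1 ⊢
        exact ⟨fun h => FProp_rel hF w hw hcF hcd hcB f2 f1 s2.1 s1.1 s2.2.1 s1.2.2.1 h,
          fun h => FProp_rel hF w hw hcF hcd hcB f1 f2 s1.1 s2.1 s1.2.2.1 s2.2.1 h⟩
    refine ⟨w (v + FProp_a l 0 + FProp_a l (FProp_s l.length 0)) = 0, fun q hq hqd hle => ?_⟩
    rcases (hL.star q).1 ⟨hq, hle⟩ with rfl | ⟨d', hd', rfl⟩ | ⟨p, hp, rfl⟩
    · omega
    · have := (FProp_d1 hv (hL.dir d' hd')).1
      omega
    · obtain ⟨j, hj, rfl⟩ := FProp_zr.1 hp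
      exact key j hj

/-- every cell is in a square -/
private theorem FProp_insq {F B : Finset Cell} (hF : IsSurface F B) {x : Cell} (hx : x ∈ F) :
    ∃ q ∈ F, dim q = 2 ∧ Le x q := by
  obtain ⟨v, hv, hvx⟩ := FProp_vert x
  have hvF := hF.cx x hx v hvx
  obtain ⟨l, Z, hL⟩ : ∃ l Z, FProp_L F v l Z := by
    by_cases hvB : v ∈ B
    · obtain ⟨l, hl, -⟩ := hF.outer v hvB hv
      exact ⟨_, _, FProp_Lpath hl⟩
    · obtain ⟨l, hl⟩ := hF.inner v hvF hv hvB
      exact ⟨_, _, FProp_Lcyc hl⟩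
  have hin : ∀ p ∈ Z, v + p.1 + p.2 ∈ F := fun p hp =>
    ((hL.star _).2 (Or.inr (Or.inr ⟨p, hp, rfl⟩))).1
  rcases (hL.star x).1 ⟨hx, hvx⟩ with rfl | ⟨d, hd, rfl⟩ | ⟨p, hp, rfl⟩
  · obtain ⟨p, hp⟩ := hL.ne
    exact ⟨_, hin p hp, (FProp_pair hL hv hp).1,
      ((hL.star _).2 (Or.inr (Or.inr ⟨p, hp, rfl⟩))).2⟩
  · obtain ⟨p, hp, hpd⟩ := hL.cov d hd
    refine ⟨_, hin p hp, (FProp_pair hL hv hp).1, ?_⟩
    rcases hpd with rfl | rfl
    · exact (FProp_pair hL hv hp).2.1
    · exact (FProp_pair hL hv hp).2.2.1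
  · exact ⟨_, hx, (FProp_pair hL hv hp).1, fun i => Or.inl rfl⟩

theorem prop_w {F B : Finset Cell} (hF : IsSurface F B) (hconn : Connected F) (w : Cell → ZMod 3)
    (hw : ∀ c ∈ F, dim c = 1 → c ∉ B →
      ∑ q ∈ F.filter (fun q => dim q = 2), w q * (inc q c : ZMod 3) = 0)
    (q₀ : Cell) (h₀ : q₀ ∈ F) (hd : dim q₀ = 2) (hw₀ : w q₀ = 0) :
    ∀ q ∈ F, dim q = 2 → w q = 0 := by
  have hprop : ∀ v ∈ F, dim v = 0 → ∀ q ∈ F, dim q = 2 → Le v q → w q = 0 →
      ∀ q' ∈ F, dim q' = 2 → Le v q' → w q' = 0 := by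
    intro v hvF hv q hq hqd hle h0 q' hq' hqd' hle'
    obtain ⟨T, hT⟩ := FProp_stat hF w hw hvF hv
    exact (hT q' hq' hqd' hle').2 ((hT q hq hqd hle).1 h0)
  have main : ∀ x, Relation.ReflTransGen (fun x y => x ∈ F ∧ y ∈ F ∧ (Le x y ∨ Le y x)) q₀ x →
      ∃ v, dim v = 0 ∧ Le v x ∧ ∀ q ∈ F, dim q = 2 → Le v q → w q = 0 := by
    intro x hx
    induction hx with
    | refl =>
      obtain ⟨v, hv, hvq⟩ := FProp_vert q₀
      exact ⟨v, hv, hvq, hprop v (hF.cx q₀ h₀ v hvq) hv q₀ h₀ hd hvq hw₀⟩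
    | @tail x y _ hxy ih =>
      obtain ⟨hx, hy, hxy⟩ := hxy
      obtain ⟨v, hv, hvx, hz⟩ := ih
      rcases hxy with hle | hle
      · exact ⟨v, hv, FProp_trans hvx hle, hz⟩
      · obtain ⟨q, hq, hqd, hxq⟩ := FProp_insq hF hx
        have h1 : w q = 0 := hz q hq hqd (FProp_trans hvx hxq)
        obtain ⟨v', hv', hvy⟩ := FProp_vert y
        exact ⟨v', hv', hvy, hprop v' (hF.cx y hy v' hvy) hv' q hq hqd
          (FProp_trans hvy (FProp_trans hle hxq)) h1⟩
  intro q hq hqd
  obtain ⟨v, _, hvq, hz⟩ := main q (hconn.2 q₀ h₀ q hq)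
  exact hz q hq hqd hvq

end Cub
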