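import Pool.Agent.H33.CB.ScaleM

/-!
# Module FlatSub (about 120 lines): the induced local system is flat

`Flat a A` and `A` convex, `A ⊆ Box n`: `suba m a` is flat on `fine m n A`.  Let `y` be a fine cell,
`y' = y + s e_i`, `y'' = y + t e_j`, `z = y + s e_i + t e_j`.  The carriers: `car y' = car y` or `car y + s e_i`
(according as `y i + s` is a multiple of `2 m` or not), and similarly for the other three; so
the square of carriers is the given one of `a`, or two of its sides are constant.
Also: `fine m n A` is convex, symmetric, does not contain `0`.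
-/

namespace Cub

namespace FlatSub

/-- One coordinate of the carrier. -/
def carc (m : ℕ) (x : ℤ) : ℤ := if (2 * m : ℤ) ∣ x then x / m else 2 * (x / (2 * m)) + 1

theorem car_apply (m : ℕ) (y : Cell) (i : Fin 4) : car m y i = carc m (y i) := rfl

theorem carc_odd {m : ℕ} {x : ℤ} (hx : x % 2 = 1) : carc m x % 2 = 1 := by
  unfold carc
  rw [if_neg]
  · omega
  · intro h
    have : (2 : ℤ) ∣ x := dvd_trans (Dvd.intro _ rfl) h
    omega

theorem carc_step {m : ℕ} (hm : 1 ≤ m) {x s : ℤ} (hx : x % 2 = 1) (hs : s = 1 ∨ s = -1) :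
    carc m (x + s) = if (2 * m : ℤ) ∣ (x + s) then carc m x + s else carc m x := by
  have hm0 : (0 : ℤ) < 2 * m := by positivity
  have hm1 : (0 : ℤ) < m := by positivity
  have hnd : ¬ (2 * m : ℤ) ∣ x := by
    intro h
    have : (2 : ℤ) ∣ x := dvd_trans (Dvd.intro _ rfl) h
    omega
  have hr1 := Int.emod_nonneg x (ne_of_gt hm0)
  have hr2 := Int.emod_lt_of_pos x hm0
  have hdm := Int.emod_add_mul_ediv x (2 * m)
  set q := x / (2 * m : ℤ) with hq
  set r := x % (2 * m : ℤ) with hr
  have hrne : r ≠ 0 := by
    intro h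
    exact hnd (Int.dvd_of_emod_eq_zero (hr ▸ h))
  unfold carc
  rw [if_neg hnd, ← hq]
  split_ifs with hd
  · obtain ⟨k, hk⟩ := hd
    have hk2 : x + s = m * (2 * k) := by rw [hk]; ring
    rw [hk2, Int.mul_ediv_cancel_left _ (ne_of_gt hm1)]
    -- `2 m k = 2 m q + r + s`
    have h1 : (2 * m : ℤ) * (k - q) = r + s := by
      have : x + s = 2 * m * k := hk
      linear_combination -hdm - this
    rcases hs with rfl | rfl
    · have h2 : k - q = 1 := by
        have h3 : 0 < k - q := by
          by_contra hc
          push Not at hc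
          nlinarith
        have h4 : k - q < 2 := by
          by_contra hc
          push Not at hc
          nlinarith
        omega
      omega
    · have h2 : k - q = 0 := by
        have h3 : -1 < k - q := by
          by_contra hc
          push Not at hc
          nlinarith
        have h4 : k - q < 1 := by
          by_contra hc
          push Not at hc
          nlinarith
        omega
      omega
  · have h1 : (x + s) / (2 * m : ℤ) = q := by
      have h5 : 0 ≤ r + s := by
        rcases hs with rfl | rfl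
        · omega
        · omega
      have h6 : r + s < 2 * m := by
        rcases hs with rfl | rfl
        · by_contra hc
          apply hd
          refine ⟨q + 1, ?_⟩
          have : r + 1 = 2 * m := by omega
          linear_combination this - hdm
        · omega
      have h7 : x + s = (r + s) + (2 * m : ℤ) * q := by linear_combination -hdm
      rw [h7, Int.add_mul_ediv_left _ _ (ne_of_gt hm0), Int.ediv_eq_zero_of_lt h5 h6, zero_add]
    rw [h1]

theorem step_i (y : Cell) (i : Fin 4) (s : ℤ) (k : Fin 4) :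
    (y + s • e i) k = if k = i then y k + s else y k := by
  simp only [Pi.add_apply, Pi.smul_apply, e, smul_eq_mul]
  by_cases h : k = i
  · subst h
    simp
  · simp [h]

theorem car_step {m : ℕ} (hm : 1 ≤ m) {y : Cell} {i : Fin 4} {s : ℤ} (hy : y i % 2 = 1)
    (hs : s = 1 ∨ s = -1) :
    car m (y + s • e i) = if (2 * m : ℤ) ∣ (y i + s) then car m y + s • e i else car m y := by
  funext k
  rw [car_apply, step_i]
  by_cases hk : k = i
  · subst hk
    rw [if_pos rfl, carc_step hm hy hs]
    split_ifs
    · rw [step_i, if_pos rfl, car_apply]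
    · rw [car_apply]
  · rw [if_neg hk]
    split_ifs
    · rw [step_i, if_neg hk, car_apply]
    · rw [car_apply]

theorem le_car {m : ℕ} (hm : 1 ≤ m) {a b : Cell} (h : Le a b) : Le (car m a) (car m b) := by
  intro i
  rw [car_apply, car_apply]
  rcases h i with h | ⟨hb, h⟩
  · left
    rw [h]
  · have ho := carc_odd (m := m) hb
    rcases h with h | h
    · have := carc_step hm hb (Or.inr rfl : (-1 : ℤ) = 1 ∨ (-1 : ℤ) = -1)
      rw [← sub_eq_add_neg, ← h] at this
      rw [this]
      split_ifs
      · right
        exact ⟨ho, Or.inl (by ring)⟩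
      · left
        rfl
    · have := carc_step hm hb (Or.inl rfl : (1 : ℤ) = 1 ∨ (1 : ℤ) = -1)
      rw [← h] at this
      rw [this]
      split_ifs
      · right
        exact ⟨ho, Or.inr rfl⟩
      · left
        rfl

theorem ne_step (c : Cell) (i : Fin 4) {s : ℤ} (hs : s = 1 ∨ s = -1) : c ≠ c + s • e i := by
  intro h
  have := congrFun h i
  rw [step_i, if_pos rfl] at this
  rcases hs with rfl | rfl <;> omega

theorem suba_eq {m : ℕ} {a : Cell → Cell → ZMod 3} {y y' : Cell} (h : car m y = car m y') :
    suba m a y y' = 0 := by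
  unfold suba
  rw [if_pos h]

end FlatSub

open FlatSub in
theorem flat_suba {m : ℕ} (hm : 1 ≤ m) {n : Fin 4 → ℕ} {A : Finset Cell} {a : Cell → Cell → ZMod 3}
    (hA : Conv A) (hf : Flat a A) : Flat (suba m a) (fine m n A) := by
  intro y hy i j hij hyi hyj s t hs ht hz
  have hyA : car m y ∈ A := (Finset.mem_filter.mp hy).2
  have hzA : car m (y + s • e i + t • e j) ∈ A := (Finset.mem_filter.mp hz).2
  have hyj' : (y + s • e i) j = y j := by
    rw [step_i, if_neg (Ne.symm hij)]
  have hyi' : (y + t • e j) i = y i := by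
    rw [step_i, if_neg hij]
  have hci : car m y i % 2 = 1 := by rw [car_apply]; exact carc_odd hyi
  have hcj : car m y j % 2 = 1 := by rw [car_apply]; exact carc_odd hyj
  have h1 := car_step hm hyi hs
  have h2 := car_step hm hyj ht
  have h3 : car m (y + s • e i + t • e j) = if (2 * m : ℤ) ∣ (y j + t) then
      car m (y + s • e i) + t • e j else car m (y + s • e i) := by
    have := car_step hm (y := y + s • e i) (i := j) (s := t) (by rw [hyj']; exact hyj) ht
    rwa [hyj'] at this
  by_cases hdi : (2 * m : ℤ) ∣ (y i + s)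
  · rw [if_pos hdi] at h1
    by_cases hdj : (2 * m : ℤ) ∣ (y j + t)
    · rw [if_pos hdj] at h2 h3
      rw [h1] at h3
      have hne1 : car m y ≠ car m (y + s • e i) := by rw [h1]; exact ne_step _ _ hs
      have hne2 : car m y ≠ car m (y + t • e j) := by rw [h2]; exact ne_step _ _ ht
      have hne3 : car m (y + s • e i) ≠ car m (y + s • e i + t • e j) := by
        rw [h1, h3]; exact ne_step _ _ ht
      have hne4 : car m (y + t • e j) ≠ car m (y + s • e i + t • e j) := by
        rw [h2, h3, add_right_comm]; exact ne_step _ _ hs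
      unfold suba
      rw [if_neg hne1, if_neg hne2, if_neg hne3, if_neg hne4, h3, h1, h2]
      exact hf _ hyA i j hij hci hcj s t hs ht (h3 ▸ hzA)
    · rw [if_neg hdj] at h2 h3
      rw [suba_eq h2.symm, suba_eq h3.symm, add_zero, zero_add]
      unfold suba
      rw [h2, h3]
  · rw [if_neg hdi] at h1
    rw [h1] at h3
    by_cases hdj : (2 * m : ℤ) ∣ (y j + t)
    · rw [if_pos hdj] at h2 h3
      rw [suba_eq h1.symm, suba_eq (h2.trans h3.symm), add_zero, zero_add]
      unfold suba
      rw [h1, h2, h3]
    · rw [if_neg hdj] at h2 h3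
      rw [suba_eq h1.symm, suba_eq h2.symm, suba_eq (h1.trans h3.symm),
        suba_eq (h2.trans h3.symm)]

open FlatSub in
theorem conv_fine {m : ℕ} (hm : 1 ≤ m) {n : Fin 4 → ℕ} {A : Finset Cell}
    (hA : Conv A) : Conv (fine m n A) := by
  intro a ha c hc b hab hbc
  obtain ⟨ha1, ha2⟩ := Finset.mem_filter.mp ha
  obtain ⟨hc1, hc2⟩ := Finset.mem_filter.mp hc
  refine Finset.mem_filter.mpr ⟨?_, hA _ ha2 _ hc2 _ (le_car hm hab) (le_car hm hbc)⟩
  unfold Box at hc1 ⊢
  rw [Fintype.mem_piFinset] at hc1 ⊢
  intro i
  have h1 := Finset.mem_Icc.mp (hc1 i)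
  rw [Finset.mem_Icc]
  rcases hbc i with h | ⟨h0, h | h⟩ <;> omega

theorem sym_fine {m : ℕ} (hm : 1 ≤ m) {n : Fin 4 → ℕ} {A : Finset Cell}
    (hA : Sym A) : Sym (fine m n A) := by
  intro a ha
  obtain ⟨ha1, ha2⟩ := Finset.mem_filter.mp ha
  refine Finset.mem_filter.mpr ⟨?_, ?_⟩
  · unfold Box at ha1 ⊢
    rw [Fintype.mem_piFinset] at ha1 ⊢
    intro i
    have h1 := Finset.mem_Icc.mp (ha1 i)
    rw [Finset.mem_Icc, Pi.neg_apply]
    omega
  · rw [car_neg hm]
    exact hA _ ha2

theorem zero_fine {m : ℕ} {n : Fin 4 → ℕ} {A : Finset Cell}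
    (hA : (0 : Cell) ∉ A) : (0 : Cell) ∉ fine m n A := by
  intro h
  obtain ⟨-, h2⟩ := Finset.mem_filter.mp h
  apply hA
  have : car m 0 = 0 := by
    funext i
    simp [car]
  rwa [this] at h2

end Cub
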