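import Pool.Agent.H33.CB.Defs

/-!
# T5, step 1: the Poincaré lemma for closed 2-cochains on the lattice `ℤ⁴`

`ω i j n` (only `i < j` is used) is the value on the unit square at the lattice point `n` in the
directions `i`, `j`; here `n : Cell` is just a vector of integers.

PROOF.  For a function `f : Cell → ZMod 3` and a direction `m` let `P m f` be the primitive in direction
`m` which vanishes for `n m = 0` (`P m f n = ∑ k ∈ Ico 0 (n m), f (update n m k) -
∑ k ∈ Ico (n m) 0, f (update n m k)`), so `P m f (n + e m) - P m f n = f n`; `r m f n = f (update n m 0)`;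
`D m f n = f (n + e m) - f n`.  Facts: `D m (P m f) = f`, `P m (D m f) = f - r m f`, `D j` commutes with `P m`
and `r m` for `j ≠ m`, `D m (r m f) = 0`, all operators are additive.  Put

  V 0 = 0,  V 1 = P 0 ω01,  V 2 = P 0 ω02 + r 0 (P 1 ω12),
  V 3 = P 0 ω03 + r 0 (P 1 ω13) + r 0 (r 1 (P 2 ω23)).

Then `D 0 (V j) - D j (V 0) = ω0j`;
`D 1 (V 2) - D 2 (V 1) = P 0 (D 1 ω02 - D 2 ω01) + r 0 ω12 = P 0 (D 0 ω12) + r 0 ω12 = ω12`;
`D 1 (V 3) - D 3 (V 1) = P 0 (D 1 ω03 - D 3 ω01) + r 0 ω13 = ω13`;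
`D 2 (V 3) - D 3 (V 2) = P 0 (D 2 ω03 - D 3 ω02) + r 0 (P 1 (D 2 ω13 - D 3 ω12)) + r 0 (r 1 ω23)
  = P 0 (D 0 ω23) + r 0 (P 1 (D 1 ω23) + r 1 ω23) = ω23`.
-/

namespace Cub

/-- primitive of a function on the integers -/
private noncomputable def gzprim (g : ℤ → ZMod 3) (k : ℤ) : ZMod 3 :=
  ∑ t ∈ Finset.Ico 0 k, g t - ∑ t ∈ Finset.Ico k 0, g t

private lemma gzprim_succ (g : ℤ → ZMod 3) (k : ℤ) :
    gzprim g (k + 1) - gzprim g k = g k := by
  unfold gzprim
  rcases le_or_gt 0 k with hk | hk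
  · have h1 : Finset.Ico (k + 1) 0 = ∅ := Finset.Ico_eq_empty (by omega)
    have h2 : Finset.Ico k 0 = ∅ := Finset.Ico_eq_empty (by omega)
    have h3 : Finset.Ico 0 (k + 1) = insert k (Finset.Ico 0 k) := by
      ext t; simp only [Finset.mem_Ico, Finset.mem_insert]; omega
    rw [h1, h2, h3, Finset.sum_insert (by simp)]
    simp
  · have h1 : Finset.Ico 0 (k + 1) = ∅ := Finset.Ico_eq_empty (by omega)
    have h2 : Finset.Ico 0 k = ∅ := Finset.Ico_eq_empty (by omega)
    have h3 : Finset.Ico k 0 = insert k (Finset.Ico (k + 1) 0) := by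
      ext t; simp only [Finset.mem_Ico, Finset.mem_insert]; omega
    rw [h1, h2, h3, Finset.sum_insert (by simp)]
    simp

private lemma gzprim_zero (g : ℤ → ZMod 3) : gzprim g 0 = 0 := by
  simp [gzprim]

private lemma gzprim_diff (g : ℤ → ZMod 3) (k : ℤ) :
    gzprim (fun t => g (t + 1) - g t) k = g k - g 0 := by
  induction k with
  | zero => rw [gzprim_zero, sub_self]
  | succ i ih =>
    have h := gzprim_succ (fun t => g (t + 1) - g t) i
    linear_combination h + ih
  | pred i ih =>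
    have h := gzprim_succ (fun t => g (t + 1) - g t) (-(i : ℤ) - 1)
    simp only [sub_add_cancel] at h
    linear_combination ih - h

private lemma gzprim_add (g h : ℤ → ZMod 3) (k : ℤ) :
    gzprim (fun t => g t + h t) k = gzprim g k + gzprim h k := by
  simp only [gzprim, Finset.sum_add_distrib]
  ring

private lemma gz_self (n : Cell) (m : Fin 4) : (n + e m) m = n m + 1 := by
  simp [e]

private lemma gz_ne (n : Cell) {j m : Fin 4} (h : j ≠ m) : (n + e j) m = n m := by
  simp [e, Pi.single_apply, h.symm]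

private lemma gz_upd (n : Cell) (m : Fin 4) (t : ℤ) :
    Function.update (n + e m) m t = Function.update n m t := by
  funext l
  by_cases hl : l = m
  · subst hl; simp
  · simp [Function.update_apply, hl, e, Pi.single_apply]

private lemma gz_upd_ne (n : Cell) {j m : Fin 4} (h : j ≠ m) (t : ℤ) :
    Function.update (n + e j) m t = Function.update n m t + e j := by
  funext l
  by_cases hl : l = m
  · subst hl; simp [e, Pi.single_apply, h.symm]
  · simp [Function.update_apply, hl]

private lemma gz_upd_add (n : Cell) (m : Fin 4) (t : ℤ) :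
    Function.update n m t + e m = Function.update n m (t + 1) := by
  funext l
  by_cases hl : l = m
  · subst hl; simp [e]
  · simp [Function.update_apply, hl, e, Pi.single_apply]

/-- difference operator -/
private def gzD (m : Fin 4) : (Cell → ZMod 3) →+ (Cell → ZMod 3) where
  toFun f n := f (n + e m) - f n
  map_zero' := by funext n; simp
  map_add' f g := by funext n; simp only [Pi.add_apply]; ring

/-- primitive in direction `m` -/
private noncomputable def gzP (m : Fin 4) : (Cell → ZMod 3) →+ (Cell → ZMod 3) where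
  toFun f n := gzprim (fun t => f (Function.update n m t)) (n m)
  map_zero' := by funext n; simp [gzprim]
  map_add' f g := by
    funext n
    simp only [Pi.add_apply]
    exact gzprim_add _ _ _

/-- restriction to `n m = 0` -/
private def gzr (m : Fin 4) : (Cell → ZMod 3) →+ (Cell → ZMod 3) where
  toFun f n := f (Function.update n m 0)
  map_zero' := by funext n; simp
  map_add' f g := by funext n; simp

private lemma gz_DP (m : Fin 4) (f : Cell → ZMod 3) : gzD m (gzP m f) = f := by
  funext n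
  show gzprim (fun t => f (Function.update (n + e m) m t)) ((n + e m) m)
    - gzprim (fun t => f (Function.update n m t)) (n m) = f n
  simp only [gz_upd, gz_self]
  rw [gzprim_succ]
  simp

private lemma gz_PD (m : Fin 4) (f : Cell → ZMod 3) : gzP m (gzD m f) = f - gzr m f := by
  funext n
  show gzprim (fun t => f (Function.update n m t + e m) - f (Function.update n m t)) (n m)
    = f n - f (Function.update n m 0)
  simp only [gz_upd_add]
  rw [gzprim_diff (fun t => f (Function.update n m t))]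
  simp

private lemma gz_DP' {j m : Fin 4} (h : j ≠ m) (f : Cell → ZMod 3) :
    gzD j (gzP m f) = gzP m (gzD j f) := by
  funext n
  show gzprim (fun t => f (Function.update (n + e j) m t)) ((n + e j) m)
    - gzprim (fun t => f (Function.update n m t)) (n m)
    = gzprim (fun t => f (Function.update n m t + e j) - f (Function.update n m t)) (n m)
  simp only [gz_upd_ne n h, gz_ne n h]
  have h1 := gzprim_add (fun t => f (Function.update n m t + e j) - f (Function.update n m t))
    (fun t => f (Function.update n m t)) (n m)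
  simp only [sub_add_cancel] at h1
  rw [h1]; ring

private lemma gz_Dr' {j m : Fin 4} (h : j ≠ m) (f : Cell → ZMod 3) :
    gzD j (gzr m f) = gzr m (gzD j f) := by
  funext n
  show f (Function.update (n + e j) m 0) - f (Function.update n m 0)
    = f (Function.update n m 0 + e j) - f (Function.update n m 0)
  rw [gz_upd_ne n h]

private lemma gz_Dr (m : Fin 4) (f : Cell → ZMod 3) : gzD m (gzr m f) = 0 := by
  funext n
  show f (Function.update (n + e m) m 0) - f (Function.update n m 0) = 0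
  rw [gz_upd, sub_self]

theorem poincare2 (ω : Fin 4 → Fin 4 → Cell → ZMod 3)
    (hcl : ∀ i j k : Fin 4, i < j → j < k → ∀ n : Cell,
      (ω j k (n + e i) - ω j k n) - (ω i k (n + e j) - ω i k n) +
        (ω i j (n + e k) - ω i j n) = 0) :
    ∃ V : Fin 4 → Cell → ZMod 3, ∀ i j : Fin 4, i < j → ∀ n : Cell,
      (V j (n + e i) - V j n) - (V i (n + e j) - V i n) = ω i j n := by
  have hc : ∀ i j k : Fin 4, i < j → j < k →
      gzD j (ω i k) - gzD k (ω i j) = gzD i (ω j k) := by
    intro i j k hij hjk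
    funext n
    show (ω i k (n + e j) - ω i k n) - (ω i j (n + e k) - ω i j n) = ω j k (n + e i) - ω j k n
    linear_combination -(hcl i j k hij hjk n)
  have c012 := hc 0 1 2 (by decide) (by decide)
  have c013 := hc 0 1 3 (by decide) (by decide)
  have c023 := hc 0 2 3 (by decide) (by decide)
  have c123 := hc 1 2 3 (by decide) (by decide)
  refine ⟨![0, gzP 0 (ω 0 1), gzP 0 (ω 0 2) + gzr 0 (gzP 1 (ω 1 2)),
    gzP 0 (ω 0 3) + gzr 0 (gzP 1 (ω 1 3)) + gzr 0 (gzr 1 (gzP 2 (ω 2 3)))], ?_⟩
  set V : Fin 4 → Cell → ZMod 3 := ![0, gzP 0 (ω 0 1), gzP 0 (ω 0 2) + gzr 0 (gzP 1 (ω 1 2)),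
    gzP 0 (ω 0 3) + gzr 0 (gzP 1 (ω 1 3)) + gzr 0 (gzr 1 (gzP 2 (ω 2 3)))] with hV
  have V0 : V 0 = 0 := rfl
  have V1 : V 1 = gzP 0 (ω 0 1) := rfl
  have V2 : V 2 = gzP 0 (ω 0 2) + gzr 0 (gzP 1 (ω 1 2)) := rfl
  have V3 : V 3 = gzP 0 (ω 0 3) + gzr 0 (gzP 1 (ω 1 3)) + gzr 0 (gzr 1 (gzP 2 (ω 2 3))) := rfl
  have n10 : (1 : Fin 4) ≠ 0 := by decide
  have n20 : (2 : Fin 4) ≠ 0 := by decide
  have n21 : (2 : Fin 4) ≠ 1 := by decide
  have n30 : (3 : Fin 4) ≠ 0 := by decide
  have n31 : (3 : Fin 4) ≠ 1 := by decide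
  have main : ∀ i j : Fin 4, i < j → gzD i (V j) - gzD j (V i) = ω i j := by
    have h01 : gzD 0 (V 1) - gzD 1 (V 0) = ω 0 1 := by
      rw [V0, V1, gz_DP, map_zero, sub_zero]
    have h02 : gzD 0 (V 2) - gzD 2 (V 0) = ω 0 2 := by
      rw [V0, V2, map_add, gz_DP, gz_Dr, map_zero, sub_zero, add_zero]
    have h03 : gzD 0 (V 3) - gzD 3 (V 0) = ω 0 3 := by
      rw [V0, V3, map_add, map_add, gz_DP, gz_Dr, gz_Dr, map_zero, sub_zero, add_zero, add_zero]
    have h12 : gzD 1 (V 2) - gzD 2 (V 1) = ω 1 2 := by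
      have h : gzP 0 (gzD 0 (ω 1 2)) = gzP 0 (gzD 1 (ω 0 2)) - gzP 0 (gzD 2 (ω 0 1)) := by
        rw [← map_sub, c012]
      rw [gz_PD] at h
      rw [V1, V2, map_add, gz_DP' n10, gz_DP' n20, gz_Dr' n10, gz_DP]
      linear_combination -h
    have h13 : gzD 1 (V 3) - gzD 3 (V 1) = ω 1 3 := by
      have h : gzP 0 (gzD 0 (ω 1 3)) = gzP 0 (gzD 1 (ω 0 3)) - gzP 0 (gzD 3 (ω 0 1)) := by
        rw [← map_sub, c013]
      rw [gz_PD] at h
      rw [V1, V3, map_add, map_add, gz_DP' n10, gz_DP' n30, gz_Dr' n10, gz_DP, gz_Dr' n10,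
        gz_Dr, map_zero]
      linear_combination -h
    have h23 : gzD 2 (V 3) - gzD 3 (V 2) = ω 2 3 := by
      have h : gzP 0 (gzD 0 (ω 2 3)) = gzP 0 (gzD 2 (ω 0 3)) - gzP 0 (gzD 3 (ω 0 2)) := by
        rw [← map_sub, c023]
      have h' : gzr 0 (gzP 1 (gzD 1 (ω 2 3)))
          = gzr 0 (gzP 1 (gzD 2 (ω 1 3))) - gzr 0 (gzP 1 (gzD 3 (ω 1 2))) := by
        rw [← map_sub, ← map_sub, c123]
      rw [gz_PD] at h
      rw [gz_PD, map_sub] at h'
      rw [V2, V3, map_add, map_add, map_add, gz_DP' n20, gz_DP' n30, gz_Dr' n20, gz_Dr' n20,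
        gz_Dr' n30, gz_DP' n21, gz_DP' n31, gz_Dr' n21, gz_DP]
      linear_combination -h - h'
    intro i j hij
    fin_cases i <;> fin_cases j <;> first | exact absurd hij (by decide) | assumption
  intro i j hij n
  have h := congrFun (main i j hij) n
  exact h

end Cub
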