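import Pool.Agent.H33.CB.Alg

/-!
# Module Transp (about 250 lines): the transposed complex has homology of the same length

`R` a principal ideal domain, `D D = 0` on `B`, `M = (B → R)`, `d = dB D B`.
Smith normal form of the submodule `N = range d` of `M`: `Submodule.smithNormalForm` gives
a basis `b` of `M`, a basis `c` of `N` (indexed by `Fin r`), an embedding `g : Fin r → B` and nonzero
`s i` with `c i = s i • b (g i)`.  Choose `x i` with `d (x i) = c i`.
Let `M₁` be the span of the `b (g i)`; since `d (c i) = 0` and `s i ≠ 0`, `d (b (g i)) = 0`, so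
`N ≤ M₁ ≤ ker d`, and `ker d / M₁` is free (it embeds in `M / M₁`, free with basis the other `b j`).
Hence `length (ker d / N) = length (M₁ / N) + length (ker d / M₁)`, `M₁ / N = ∏ R/(s i)`,
and `ker d / M₁` is free of rank `|B| - 2 r`.
In matrix terms: there are invertible matrices `U`, `V` (entries in `R`) with `U D V = S` diagonal with
entries `s 1, ..., s r, 0, ..., 0`; then `tr D` has the form `V' D' U'` with the same `S`, the same `r`
and the same `s`.  So the formula `length H = sum of length R/(s i) + length R^(|B| - 2r)`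
gives the same number for `D` and for `tr D`.
SUGGESTION: first prove: if `U * D * V = diagonal s` with `U`, `V` invertible (`Matrix`), then
`length (Hm D B) = length (explicit module depending only on s)`, e.g. by the count above; existence of
`U`, `V` from the Smith normal form of the range; then transpose the matrix identity.
-/

set_option linter.unusedSectionVars false

namespace Cub

namespace TrLen

variable {R : Type} [CommRing R] [IsDomain R] [IsPrincipalIdealRing R]
variable {B : Type} [Fintype B] [DecidableEq B] {ι : Type} [DecidableEq ι]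

open Module

/-- Smith normal form of an endomorphism. -/
theorem exists_snf (d : (B → R) →ₗ[R] (B → R)) :
    ∃ (e f : (B → R) ≃ₗ[R] (B → R)) (s : B → R), ∀ v, e (d (f v)) = fun i => s i * v i := by
  classical
  obtain ⟨n, bM, bN, g, a, snf⟩ :=
    Submodule.smithNormalForm (Pi.basisFun R B) (LinearMap.range d)
  -- section of `d`
  have hproj : Module.Projective R (LinearMap.range d) := Module.Projective.of_basis bN
  obtain ⟨σ, hσ⟩ := Module.projective_lifting_property d.rangeRestrict
    (LinearMap.id : LinearMap.range d →ₗ[R] LinearMap.range d) d.surjective_rangeRestrict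
  have hσ' : ∀ y : LinearMap.range d, d (σ y) = y := by
    intro y
    have := congrArg (fun h => ((h y : LinearMap.range d) : B → R)) hσ
    simpa using this
  -- basis of the kernel
  have hrank : finrank R (LinearMap.range d) = n := by
    rw [Module.finrank_eq_card_basis bN, Fintype.card_fin]
  have hker : finrank R (LinearMap.ker d) = Fintype.card {j : B // j ∉ Set.range g} := by
    have h1 := Submodule.finrank_quotient_add_finrank (LinearMap.ker d)
    rw [d.quotKerEquivRange.finrank_eq, hrank, Module.finrank_fintype_fun_eq_card] at h1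
    have h2 : Fintype.card {j : B // j ∉ Set.range g} = Fintype.card B - n := by
      rw [Fintype.card_subtype_compl]
      congr 1
      have := Fintype.card_congr (Equiv.ofInjective g g.injective)
      rw [Fintype.card_fin] at this
      exact this.symm
    omega
  have hker' : finrank R ({j : B // j ∉ Set.range g} → R) = finrank R (LinearMap.ker d) := by
    rw [hker, Module.finrank_fintype_fun_eq_card]
  let κ : ({j : B // j ∉ Set.range g} → R) ≃ₗ[R] LinearMap.ker d := LinearEquiv.ofFinrankEq _ _ hker'
  let f0 : (B → R) →ₗ[R] (B → R) :=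
    (LinearMap.ker d).subtype ∘ₗ κ.toLinearMap ∘ₗ LinearMap.funLeft R R (fun j : {j : B // j ∉ Set.range g} => (j : B)) +
    σ ∘ₗ bN.equivFun.symm.toLinearMap ∘ₗ LinearMap.funLeft R R (fun i => g i)
  have hf0 : ∀ v, f0 v = (κ (fun j => v j) : B → R) + σ (bN.equivFun.symm (fun i => v (g i))) := by
    intro v; rfl
  have hdf : ∀ v, d (f0 v) = bN.equivFun.symm (fun i => v (g i)) := by
    intro v
    rw [hf0, map_add, hσ']
    have : d (κ (fun j => v j) : B → R) = 0 := LinearMap.mem_ker.1 (κ (fun j => v j)).2
    rw [this, zero_add]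
  have hsurj : Function.Surjective f0 := by
    intro m
    let y : LinearMap.range d := ⟨d m, m, rfl⟩
    have hk : m - σ y ∈ LinearMap.ker d := by
      rw [LinearMap.mem_ker, map_sub, hσ', sub_self]
    let w := κ.symm ⟨m - σ y, hk⟩
    let v : B → R := fun j => if h : j ∈ Set.range g then bN.equivFun y (Classical.choose h) else w ⟨j, h⟩
    have hv1 : (fun j : {j : B // j ∉ Set.range g} => v j) = w := by
      funext j
      simp only [v]
      rw [dif_neg j.2]
    have hv2 : (fun i => v (g i)) = bN.equivFun y := by
      funext i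
      have h : g i ∈ Set.range g := ⟨i, rfl⟩
      simp only [v]
      rw [dif_pos h]
      exact congrArg _ (g.injective (Classical.choose_spec h))
    refine ⟨v, ?_⟩
    rw [hf0, hv1, hv2, LinearEquiv.symm_apply_apply, LinearEquiv.apply_symm_apply]
    simp
  have hbij : Function.Bijective f0 :=
    ⟨OrzechProperty.injective_of_surjective_endomorphism f0 hsurj, hsurj⟩
  let s : B → R := fun j => if h : j ∈ Set.range g then a (Classical.choose h) else 0
  refine ⟨bM.equivFun, LinearEquiv.ofBijective f0 hbij, s, ?_⟩
  intro v
  rw [LinearEquiv.ofBijective_apply, hdf, Basis.equivFun_symm_apply]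
  have h1 : ((∑ i, v (g i) • bN i : LinearMap.range d) : B → R) = ∑ i, (v (g i) * a i) • bM (g i) := by
    rw [Submodule.coe_sum]
    refine Finset.sum_congr rfl fun i _ => ?_
    rw [Submodule.coe_smul, snf, smul_smul]
  rw [h1, map_sum]
  funext j
  rw [Finset.sum_apply]
  by_cases h : j ∈ Set.range g
  · obtain ⟨i, rfl⟩ := h
    have hs : s (g i) = a i := by
      have h : g i ∈ Set.range g := ⟨i, rfl⟩
      simp only [s]
      rw [dif_pos h]
      congr 1
      exact g.injective (Classical.choose_spec h)
    rw [hs, Finset.sum_eq_single i]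
    · simp [mul_comm]
    · intro k _ hk
      have : g k ≠ g i := fun h => hk (g.injective h)
      simp [this]
    · intro h; exact absurd (Finset.mem_univ i) h
  · have hs : s j = 0 := by
      simp only [s]
      rw [dif_neg h]
    rw [hs, zero_mul]
    refine Finset.sum_eq_zero fun k _ => ?_
    have : g k ≠ j := fun h' => h ⟨k, h'⟩
    simp [this]

/-- Extension by zero. -/
noncomputable def ext0 (s : B → R) : ({i // s i ≠ 0} → R) →ₗ[R] (B → R) := by
  classical exact
  { toFun := fun v j => if h : s j ≠ 0 then v ⟨j, h⟩ else 0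
    map_add' := by
      intro x y; funext j; by_cases h : s j = 0 <;> simp [h]
    map_smul' := by
      intro r x; funext j; by_cases h : s j = 0 <;> simp [h] }

theorem ext0_pos (s : B → R) (v : {i // s i ≠ 0} → R) (j : {i // s i ≠ 0}) :
    ext0 s v j = v j := by
  unfold ext0
  simp [j.2]

theorem ext0_neg (s : B → R) (v : {i // s i ≠ 0} → R) {j : B} (h : s j = 0) :
    ext0 s v j = 0 := by
  unfold ext0
  simp [h]

theorem ext0_self (s : B → R) {w : B → R} (h : ∀ j, s j = 0 → w j = 0) :
    ext0 s (fun j => w j) = w := by
  funext j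
  by_cases hj : s j = 0
  · rw [ext0_neg s _ hj, h j hj]
  · exact ext0_pos s _ ⟨j, hj⟩

theorem ext0_inj (s : B → R) : Function.Injective (ext0 s) := by
  intro v w h
  funext j
  rw [← ext0_pos s v j, h, ext0_pos]

/-- The length formula. -/
noncomputable def G (s : B → R) : ℕ∞ := by
  classical exact
  Module.length R (({i // s i ≠ 0} → R) ⧸ Submodule.pi Set.univ (fun i : {i // s i ≠ 0} => Ideal.span {s (i : B)})) +
  Module.length R (Fin (Fintype.card B - 2 * Fintype.card {i // s i ≠ 0}) → R)

theorem length_eq (d : (B → R) →ₗ[R] (B → R)) (hd : ∀ x, d (d x) = 0)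
    (e f : (B → R) ≃ₗ[R] (B → R)) (s : B → R) (hs : ∀ v, e (d (f v)) = fun i => s i * v i) :
    Module.length R ((LinearMap.ker d) ⧸ (LinearMap.range d).submoduleOf (LinearMap.ker d)) =
      G s := by
  classical
  have hs' : ∀ v, d (f v) = e.symm (fun i => s i * v i) := by
    intro v; rw [← hs, LinearEquiv.symm_apply_apply]
  -- the vectors supported on `s ≠ 0` are mapped to the kernel
  have hmem : ∀ v, e.symm (ext0 s v) ∈ LinearMap.ker d := by
    intro v
    rw [LinearMap.mem_ker]
    let P : R := ∏ i : {i // s i ≠ 0}, s (i : B)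
    have hP : P ≠ 0 := Finset.prod_ne_zero_iff.2 fun i _ => i.2
    let w : B → R := ext0 s (fun i => (∏ k ∈ (Finset.univ : Finset {i // s i ≠ 0}).erase i, s (k : B)) * v i)
    have hw : (fun i => s i * w i) = P • ext0 s v := by
      funext j
      rw [Pi.smul_apply, smul_eq_mul]
      by_cases hj : s j = 0
      · rw [hj, ext0_neg s _ hj, zero_mul, mul_zero]
      · have h1 : w j = (∏ k ∈ (Finset.univ : Finset {i // s i ≠ 0}).erase ⟨j, hj⟩, s (k : B)) * v ⟨j, hj⟩ :=
          ext0_pos s _ ⟨j, hj⟩
        have h2 : ext0 s v j = v ⟨j, hj⟩ := ext0_pos s v ⟨j, hj⟩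
        rw [h1, h2, ← mul_assoc]
        congr 1
        exact Finset.mul_prod_erase Finset.univ (fun k : {i // s i ≠ 0} => s (k : B)) (Finset.mem_univ ⟨j, hj⟩)
    have h3 : P • d (e.symm (ext0 s v)) = 0 := by
      rw [← map_smul, ← map_smul, ← hw, ← hs', hd]
    exact (smul_eq_zero.1 h3).resolve_left hP
  let ψ : ({i // s i ≠ 0} → R) →ₗ[R] LinearMap.ker d :=
    LinearMap.codRestrict (LinearMap.ker d) (e.symm.toLinearMap ∘ₗ ext0 s) hmem
  have hψ : ∀ v, (ψ v : B → R) = e.symm (ext0 s v) := fun v => rfl
  have hψinj : Function.Injective ψ := by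
    intro v w h
    have := congrArg (fun x : LinearMap.ker d => (x : B → R)) h
    simp only [hψ] at this
    exact ext0_inj s (e.symm.injective this)
  have hψrange : ∀ k : LinearMap.ker d, k ∈ LinearMap.range ψ ↔ ∀ j, s j = 0 → e (k : B → R) j = 0 := by
    intro k
    constructor
    · rintro ⟨v, rfl⟩ j hj
      rw [hψ, LinearEquiv.apply_symm_apply, ext0_neg s _ hj]
    · intro h
      refine ⟨fun i => e (k : B → R) i, ?_⟩
      apply Subtype.ext
      rw [hψ, ext0_self s h, LinearEquiv.symm_apply_apply]
  set S := (LinearMap.range d).submoduleOf (LinearMap.ker d) with hSdef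
  have hS : ∀ k : LinearMap.ker d, k ∈ S ↔ ∃ w : B → R, ∀ j, e (k : B → R) j = s j * w j := by
    intro k
    rw [hSdef, Submodule.submoduleOf, Submodule.mem_comap, Submodule.subtype_apply, LinearMap.mem_range]
    constructor
    · rintro ⟨x, hx⟩
      refine ⟨f.symm x, fun j => ?_⟩
      rw [← hx]
      have := hs (f.symm x)
      rw [LinearEquiv.apply_symm_apply] at this
      rw [this]
    · rintro ⟨w, hw⟩
      refine ⟨f w, ?_⟩
      rw [hs']
      have : (fun i => s i * w i) = e k := by funext j; exact (hw j).symm
      rw [this, LinearEquiv.symm_apply_apply]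
  have hSle : S ≤ LinearMap.range ψ := by
    intro k hk
    obtain ⟨w, hw⟩ := (hS k).1 hk
    rw [hψrange]
    intro j hj
    rw [hw, hj, zero_mul]
  have hker : LinearMap.ker (S.mkQ ∘ₗ ψ) = Submodule.pi Set.univ (fun i : {i // s i ≠ 0} => Ideal.span {s (i : B)}) := by
    ext v
    rw [LinearMap.mem_ker, LinearMap.comp_apply, Submodule.mkQ_apply, Submodule.Quotient.mk_eq_zero, hS,
      Submodule.mem_pi]
    simp only [Set.mem_univ, forall_true_left, Ideal.mem_span_singleton, hψ, LinearEquiv.apply_symm_apply]
    constructor
    · rintro ⟨w, hw⟩ i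
      refine ⟨w i, ?_⟩
      rw [← hw, ext0_pos]
    · intro h
      choose c hc using h
      refine ⟨ext0 s c, fun j => ?_⟩
      by_cases hj : s j = 0
      · rw [ext0_neg s _ hj, hj, zero_mul]
      · have h1 := ext0_pos s v ⟨j, hj⟩
        have h2 := ext0_pos s c ⟨j, hj⟩
        simp only at h1 h2
        rw [h1, h2, hc]
  -- first part
  have hA := Module.length_eq_add_of_exact (R := R) (LinearMap.range (S.mkQ ∘ₗ ψ)).subtype
    (LinearMap.range (S.mkQ ∘ₗ ψ)).mkQ (Submodule.subtype_injective _) (Submodule.mkQ_surjective _)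
    (LinearMap.exact_subtype_mkQ _)
  rw [hA]
  unfold G
  congr 1
  · rw [← hker]
    exact (LinearEquiv.length_eq (S.mkQ ∘ₗ ψ).quotKerEquivRange).symm
  · have hmap : LinearMap.range (S.mkQ ∘ₗ ψ) = Submodule.map S.mkQ (LinearMap.range ψ) :=
      LinearMap.range_comp _ _
    rw [hmap]
    rw [LinearEquiv.length_eq (Submodule.quotientQuotientEquivQuotient S (LinearMap.range ψ) hSle)]
    have htf : Module.IsTorsionFree R ((LinearMap.ker d) ⧸ (LinearMap.range ψ)) := by
      refine Module.IsTorsionFree.of_smul_eq_zero ?_
      intro r m hm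
      obtain ⟨k, rfl⟩ := Submodule.mkQ_surjective _ m
      by_cases hr : r = 0
      · exact Or.inl hr
      · right
        rw [← map_smul, Submodule.mkQ_apply, Submodule.Quotient.mk_eq_zero, hψrange] at hm
        rw [Submodule.mkQ_apply, Submodule.Quotient.mk_eq_zero, hψrange]
        intro j hj
        have h1 := hm j hj
        rw [Submodule.coe_smul, map_smul, Pi.smul_apply, smul_eq_mul] at h1
        exact (mul_eq_zero.1 h1).resolve_left hr
    have hfr : Module.Free R ((LinearMap.ker d) ⧸ (LinearMap.range ψ)) :=
      Module.free_of_finite_type_torsion_free'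
    -- ranks
    have hr0 : finrank R (LinearMap.range d) = Fintype.card {i // s i ≠ 0} := by
      let θ : ({i // s i ≠ 0} → R) →ₗ[R] (B → R) := d ∘ₗ f.toLinearMap ∘ₗ ext0 s
      have hθ : ∀ v, θ v = e.symm (fun i => s i * ext0 s v i) := fun v => hs' _
      have hθinj : Function.Injective θ := by
        intro v w h
        rw [hθ, hθ] at h
        have h := e.symm.injective h
        funext j
        have := congrFun h j
        simp only [ext0_pos] at this
        exact mul_left_cancel₀ j.2 this
      have hrg : LinearMap.range θ = LinearMap.range d := by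
        apply le_antisymm
        · exact LinearMap.range_comp_le_range _ _
        · rintro _ ⟨x, rfl⟩
          refine ⟨fun i => f.symm x i, ?_⟩
          rw [hθ]
          have h1 := hs' (f.symm x)
          rw [LinearEquiv.apply_symm_apply] at h1
          rw [h1]
          congr 1
          funext j
          by_cases hj : s j = 0
          · rw [hj, zero_mul, zero_mul]
          · have h2 := ext0_pos s (fun i => f.symm x i) ⟨j, hj⟩
            simp only at h2
            rw [h2]
      rw [← hrg, LinearMap.finrank_range_of_inj hθinj, Module.finrank_fintype_fun_eq_card]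
    have hr1 : finrank R (LinearMap.range ψ) = Fintype.card {i // s i ≠ 0} := by
      rw [LinearMap.finrank_range_of_inj hψinj, Module.finrank_fintype_fun_eq_card]
    have hr2 := Submodule.finrank_quotient_add_finrank (LinearMap.ker d)
    rw [d.quotKerEquivRange.finrank_eq, hr0, Module.finrank_fintype_fun_eq_card] at hr2
    have hr3 := Submodule.finrank_quotient_add_finrank (LinearMap.range ψ)
    rw [hr1] at hr3
    have hr4 : finrank R (Fin (Fintype.card B - 2 * Fintype.card {i // s i ≠ 0}) → R) =
        finrank R ((LinearMap.ker d) ⧸ (LinearMap.range ψ)) := by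
      rw [Module.finrank_fintype_fun_eq_card, Fintype.card_fin]
      omega
    exact (LinearEquiv.length_eq (LinearEquiv.ofFinrankEq _ _ hr4)).symm

/-- The matrix of `dB D B`. -/
theorem dB_eq (D : ι → ι → R) (S : Finset ι) :
    dB D S = Matrix.toLin' (Matrix.of fun b a : S => D a b) := by
  ext x b
  simp [dB, Matrix.toLin'_apply, Matrix.mulVec, dotProduct, mul_comm]

end TrLen

variable {R : Type} [CommRing R] {ι : Type} [DecidableEq ι]

open TrLen in
theorem tr_len [IsDomain R] [IsPrincipalIdealRing R] {D : ι → ι → R} {B : Finset ι}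
    (hcx : IsCx D B) : Module.length R (Hm (tr D) B) = Module.length R (Hm D B) := by
  classical
  have hsq : ∀ (E : ι → ι → R), IsCx E B → ∀ x, dB E B (dB E B x) = 0 := by
    intro E hE x
    funext c
    change ∑ b : B, (∑ a : B, x a * E a b) * E b c = 0
    simp_rw [Finset.sum_mul]
    rw [Finset.sum_comm]
    refine Finset.sum_eq_zero fun a _ => ?_
    have h := hE a a.2 c c.2
    rw [← Finset.sum_coe_sort] at h
    calc ∑ b : B, x a * E a b * E b c = x a * ∑ b : B, E a b * E b c := by
          rw [Finset.mul_sum]; exact Finset.sum_congr rfl fun b _ => by ring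
      _ = 0 := by rw [h, mul_zero]
  have hcx' : IsCx (tr D) B := by
    intro a ha c hc
    have h := hcx c hc a ha
    rw [← h]
    exact Finset.sum_congr rfl fun b _ => by simp only [tr]; ring
  obtain ⟨e, f, s, hs⟩ := exists_snf (dB D B)
  have h1 := length_eq (dB D B) (hsq D hcx) e f s hs
  -- transposed equivalences
  let E : Matrix B B R := LinearMap.toMatrix' e.toLinearMap
  let E' : Matrix B B R := LinearMap.toMatrix' e.symm.toLinearMap
  let F : Matrix B B R := LinearMap.toMatrix' f.toLinearMap
  let F' : Matrix B B R := LinearMap.toMatrix' f.symm.toLinearMap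
  have hEE : E * E' = 1 := by
    rw [← LinearMap.toMatrix'_comp]; simp
  have hEE' : E' * E = 1 := by
    rw [← LinearMap.toMatrix'_comp]; simp
  have hFF : F * F' = 1 := by
    rw [← LinearMap.toMatrix'_comp]; simp
  have hFF' : F' * F = 1 := by
    rw [← LinearMap.toMatrix'_comp]; simp
  let e2 : (B → R) ≃ₗ[R] (B → R) :=
    LinearEquiv.ofLinearMap (Matrix.toLin' F.transpose) (Matrix.toLin' F'.transpose)
      (by rw [← Matrix.toLin'_mul, ← Matrix.transpose_mul, hFF']; simp)
      (by rw [← Matrix.toLin'_mul, ← Matrix.transpose_mul, hFF]; simp)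
  let f2 : (B → R) ≃ₗ[R] (B → R) :=
    LinearEquiv.ofLinearMap (Matrix.toLin' E.transpose) (Matrix.toLin' E'.transpose)
      (by rw [← Matrix.toLin'_mul, ← Matrix.transpose_mul, hEE']; simp)
      (by rw [← Matrix.toLin'_mul, ← Matrix.transpose_mul, hEE]; simp)
  have hdiag : E * (Matrix.of fun b a : B => D a b) * F = Matrix.diagonal s := by
    apply Matrix.toLin'.injective
    rw [Matrix.toLin'_mul, Matrix.toLin'_mul, ← dB_eq, Matrix.toLin'_toMatrix', Matrix.toLin'_toMatrix']
    apply LinearMap.ext
    intro v
    rw [LinearMap.comp_apply, LinearMap.comp_apply]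
    refine (hs v).trans ?_
    funext i
    rw [Matrix.toLin'_apply, Matrix.mulVec_diagonal]
  have hdiag' : F.transpose * (Matrix.of fun b a : B => tr D a b) * E.transpose = Matrix.diagonal s := by
    have := congrArg Matrix.transpose hdiag
    rw [Matrix.transpose_mul, Matrix.transpose_mul, Matrix.diagonal_transpose, ← mul_assoc] at this
    exact this
  have hs2 : ∀ v, e2 (dB (tr D) B (f2 v)) = fun i => s i * v i := by
    intro v
    have := congrArg (fun M => Matrix.toLin' M v) hdiag'
    simp only [Matrix.toLin'_mul, ← dB_eq, LinearMap.comp_apply] at this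
    refine this.trans ?_
    funext i
    rw [Matrix.toLin'_apply, Matrix.mulVec_diagonal]
  have h2 := length_eq (dB (tr D) B) (hsq (tr D) hcx') e2 f2 s hs2
  exact h2.trans h1.symm

end Cub
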