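import Pool.Agent.H33.CB.Iface
import Pool.Agent.H33.CB.FLbox
import Pool.Agent.H33.CB.FlatSub
import Pool.Agent.H33.CB.Transp

/-!
# Module Half (about 200 lines): the parity theorem

For an invariant disc `F` in the box and a local system `a` on its complement: the complex of the
boundary `bd n \ B` has even length of homology.  `A = Box n \ F`, `I = inn n \ F`, `∂ = bd n \ B`
(`bd n \ F = bd n \ B` by `GoodDisc.bdy`).  All complexes: `D = dq (dcoef ζ a)`, `D₂ = dq (dcoef ζ (suba 2 a))`.
1. `FL D (pos A)` (`fl_box`).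
2. M1 with `m = 2`: `FL D₂ (pos (fine 2 n A))`, same parity.
3. `fine 2 n A = M ∪ N`, `M = {low y ∉ F}` (closed), `N = {car 2 y ∉ F, low y ∈ F}` (`low y ≤ car 2 y`, so
   `low y ∉ F` implies `car 2 y ∉ F`); `N` is acyclic (M3): `par_acy_right`: `FL D₂ (pos M)`, same parity.
   No arrows from `M` to `N`: `low` increases along facets, `F` is closed.
4. M2: same parity as `dq (tr (dcoef ζ (-a)))` on `pos I`; `dq (tr X) = tr (dq X)` for symmetric `X`, entry by
   entry; `tr_len`; then `dcoef ζ (-a) = f ∘ dcoef ζ a` for the automorphism `f` with `f ζ = ζ²`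
   (`zp ζ (-k) = f (zp ζ k)`), `conj_len`.  So `FL D (pos I)` and `par D (pos I) = par D (pos A)`.
5. `pos A = pos ∂ ∪ pos I`, `∂` closed: `par_split`: `FL D (pos ∂)`, and
   `par D (pos A) = par D (pos ∂) + par D (pos I)`, so `par D (pos ∂) = 0`.
-/

namespace Cub

variable {R : Type} [CommRing R]

private theorem half_cube {ζ : R} (h : ζ ^ 2 + ζ + 1 = 0) : ζ ^ 3 = 1 := by
  have : ζ ^ 3 - 1 = (ζ - 1) * (ζ ^ 2 + ζ + 1) := by ring
  rw [h, mul_zero] at this
  exact sub_eq_zero.mp this

private theorem half_low_neg (y : Cell) : low (-y) = - low y := by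
  funext i
  simp only [low, Pi.neg_apply]
  split_ifs <;> omega

private theorem half_low_car (y : Cell) : Le (low y) (car 2 y) := by
  intro i
  simp only [low, car]
  have h4 : ((2 * (2 : ℕ) : ℤ)) = 4 := by norm_num
  rw [h4]
  by_cases h : (4 : ℤ) ∣ y i
  · rw [if_pos h, if_pos (by omega)]
    left
    push_cast
    omega
  · rw [if_neg h]
    by_cases h2 : y i % 2 = 0
    · rw [if_pos h2]
      left
      omega
    · rw [if_neg h2]
      split_ifs
      · right
        constructor
        · omega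
        · omega
      · right
        constructor
        · omega
        · omega

private theorem half_low_inc {y y' : Cell} (h : inc y y' ≠ 0) : Le (low y) (low y') := by
  obtain ⟨i, hi, h'⟩ := inc_ne.mp h
  intro j
  by_cases hj : j = i
  · subst hj
    have h1 : y' j = y j + 1 ∨ y' j = y j - 1 := by
      rcases h' with h' | h'
      · left
        rw [h']
        simp [e]
      · right
        rw [h']
        simp [e]
    simp only [low]
    rcases h1 with h1 | h1
    · rw [h1]
      split_ifs <;> omega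
    · rw [h1]
      split_ifs <;> omega
  · left
    have h1 : y' j = y j := by
      rcases h' with h' | h'
      · rw [h']
        simp [e, hj]
      · rw [h']
        simp [e, hj]
    simp only [low, h1]

private theorem half_sym_box (n : Fin 4 → ℕ) : Sym (Box n) := by
  intro c hc
  rw [mem_box] at hc ⊢
  intro i
  have := hc i
  simp only [Pi.neg_apply]
  omega

private theorem half_sym_bd (n : Fin 4 → ℕ) : Sym (bd n) := by
  intro c hc
  rw [mem_bd] at hc ⊢
  obtain ⟨h1, i, hi⟩ := hc
  refine ⟨half_sym_box n c h1, i, ?_⟩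
  simp only [Pi.neg_apply]
  omega

private theorem half_sym_sdiff {A B : Finset Cell} (hA : Sym A) (hB : Sym B) : Sym (A \ B) := by
  intro c hc
  rw [Finset.mem_sdiff] at hc ⊢
  refine ⟨hA c hc.1, fun h => hc.2 ?_⟩
  have := hB _ h
  rwa [neg_neg] at this

private theorem half_pos_union (A B : Finset Cell) : pos (A ∪ B) = pos A ∪ pos B := by
  unfold pos
  rw [Finset.filter_union]

private theorem half_zp_conj {ζ : R} (h3 : ζ ^ 3 = 1) (f : R ≃+* R) (hf : f ζ = ζ ^ 2)
    (k : ZMod 3) : zp ζ (-k) = f (zp ζ k) := by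
  unfold zp
  rw [map_pow, hf]
  fin_cases k
  · change ζ ^ (0 : ℕ) = (ζ ^ 2) ^ (0 : ℕ)
    simp
  · change ζ ^ (2 : ℕ) = (ζ ^ 2) ^ (1 : ℕ)
    simp
  · change ζ ^ (1 : ℕ) = (ζ ^ 2) ^ (2 : ℕ)
    have : (ζ ^ 2) ^ 2 = ζ ^ 3 * ζ := by ring
    rw [this, h3]
    ring

theorem half {ζ : R} (hR : Ring3 R ζ) (m1 : StM1) (m2 : StM2) (m3 : StM3) {n : Fin 4 → ℕ}
    {F B : Finset Cell} (hF : GoodDisc n F B) {a : Cell → Cell → ZMod 3} (ha : LocSys n F a) :
    par (dq (dcoef ζ a)) (pos (bd n \ B)) = 0 := by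
  have h3 := half_cube hR.root
  have hFc := hF.surf.cx
  have h0F : (0 : Cell) ∈ F := by
    rw [hF.flat 0 (fun i => Or.inl rfl)]
    exact ⟨rfl, rfl⟩
  set A := Box n \ F with hA
  have hcA : Conv A := conv_sdiff (isComplex_box n) hFc
  have hsA : Sym A := half_sym_sdiff (half_sym_box n) hF.symm
  have h0A : (0 : Cell) ∉ A := by
    rw [hA, Finset.mem_sdiff]
    exact fun h => h.2 h0F
  -- step 1
  have fl1 : FL (dq (dcoef ζ a)) (pos A) := fl_box hR hF ha.symm ha.flat
  -- step 2
  obtain ⟨s2a, s2b⟩ := m1 R _ ζ h3 2 (by norm_num) n A a Finset.sdiff_subset hcA hsA h0A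
    ha.symm ha.flat
  have fl2 := s2a.mp fl1
  -- step 3
  set M := (Box (fun i => 2 * n i)).filter (fun y => low y ∉ F) with hM
  set N := (Box (fun i => 2 * n i)).filter (fun y => car 2 y ∉ F ∧ low y ∈ F) with hN
  have hMN : fine 2 n A = M ∪ N := by
    ext y
    rw [fine, hM, hN, Finset.mem_filter, Finset.mem_union, Finset.mem_filter, Finset.mem_filter,
      hA, Finset.mem_sdiff]
    constructor
    · rintro ⟨h1, h2, h4⟩
      by_cases h5 : low y ∈ F
      · exact Or.inr ⟨h1, h4, h5⟩
      · exact Or.inl ⟨h1, h5⟩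
    · intro h
      have h1 : y ∈ Box (fun i => 2 * n i) := by
        rcases h with h | h
        · exact h.1
        · exact h.1
      refine ⟨h1, ?_, ?_⟩
      · rw [mem_box] at h1 ⊢
        intro i
        have h2 := h1 i
        push_cast at h2
        simp only [car]
        have h4 : ((2 * (2 : ℕ) : ℤ)) = 4 := by norm_num
        rw [h4]
        push_cast
        split_ifs <;> omega
      · rcases h with h | h
        · intro h2
          exact h.2 (hFc _ h2 _ (half_low_car y))
        · exact h.2.1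
  have hdis : Disjoint (pos M) (pos N) := by
    rw [Finset.disjoint_left]
    intro y h1 h2
    rw [pos, Finset.mem_filter, hM, Finset.mem_filter] at h1
    rw [pos, Finset.mem_filter, hN, Finset.mem_filter] at h2
    exact h1.1.2 h2.1.2.2
  have harr : ∀ x ∈ pos M, ∀ y ∈ pos N, dq (dcoef ζ (suba 2 a)) x y = 0 := by
    intro x hx y hy
    rw [pos, Finset.mem_filter, hM, Finset.mem_filter] at hx
    rw [pos, Finset.mem_filter, hN, Finset.mem_filter] at hy
    have e1 : inc x y = 0 := by
      by_contra hne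
      exact hx.1.2 (hFc _ hy.1.2.2 _ (half_low_inc hne))
    have e2 : inc x (-y) = 0 := by
      by_contra hne
      have h1 := half_low_inc hne
      rw [half_low_neg] at h1
      exact hx.1.2 (hFc _ (hF.symm _ hy.1.2.2) _ h1)
    simp [dq, dcoef, e1, e2]
  have hcx2 : IsCx (dq (dcoef ζ (suba 2 a))) (pos (fine 2 n A)) :=
    isCx_dq (sym_fine (by norm_num) hsA)
      (sec_pos (sym_fine (by norm_num) hsA) (zero_fine h0A))
      (symM_dcoef (symA_suba (by norm_num) ha.symm))
      (isCx_dcoef h3 (conv_fine (by norm_num) hcA) (flat_suba (by norm_num) hcA ha.flat))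
  rw [hMN, half_pos_union] at hcx2 fl2 s2b
  obtain ⟨s3a, s3b⟩ := par_acy_right hcx2 harr hdis (m3 R _ ζ h3 hR.unit n F B a hF ha)
  have fl3 := s3a.mp fl2
  -- step 4
  obtain ⟨s4a, s4b⟩ := m2 R _ ζ h3 n F B a hF ha
  have fl4 := s4a.mp fl3
  obtain ⟨f, hf⟩ := hR.conj
  set I := inn n \ F with hI
  have hIA : I ⊆ A := by
    intro c hc
    rw [hI, Finset.mem_sdiff, inn, Finset.mem_sdiff] at hc
    rw [hA, Finset.mem_sdiff]
    exact ⟨hc.1.1, hc.2⟩
  have hsI : Sym I := half_sym_sdiff (half_sym_sdiff (half_sym_box n) (half_sym_bd n)) hF.symm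
  have h0I : (0 : Cell) ∉ I := fun h => h0A (hIA h)
  have hcI : Conv I := conv_sdiff2 (isComplex_box n) (isComplex_bd n) hFc
  have hsna : SymA (fun c c' => - a c c') := fun c c' => by
    change - a (-c) (-c') = - a c c'
    rw [ha.symm]
  have hfna : Flat (fun c c' => - a c c') I := by
    intro c hc i j hij hi hj s t hs ht hy
    have := ha.flat c (hIA hc) i j hij hi hj s t hs ht (hIA hy)
    change - a _ _ + - a _ _ = - a _ _ + - a _ _
    rw [← neg_add, ← neg_add, this]
  have hcxI : IsCx (dq (dcoef ζ (fun c c' => - a c c'))) (pos I) :=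
    isCx_dq hsI (sec_pos hsI h0I) (symM_dcoef hsna) (isCx_dcoef h3 hcI hfna)
  have e5 : Module.length R (Hm (dq (tr (dcoef ζ (fun c c' => - a c c')))) (pos I)) =
      Module.length R (Hm (dq (dcoef ζ a)) (pos I)) := by
    have g1 : dq (tr (dcoef ζ (fun c c' => - a c c'))) =
        tr (dq (dcoef ζ (fun c c' => - a c c'))) := by
      funext x y
      change dcoef ζ _ y x + dcoef ζ _ (-y) x = dcoef ζ _ y x + dcoef ζ _ y (-x)
      congr 1
      have := symM_dcoef (ζ := ζ) hsna y (-x)
      rw [neg_neg] at this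
      exact this
    have hd := hR.dom
    have hp := hR.pid
    rw [g1, tr_len hcxI]
    have g2 : dq (dcoef ζ (fun c c' => - a c c')) = fun x y => f (dq (dcoef ζ a) x y) := by
      funext x y
      simp only [dq, dcoef, map_add, map_mul, map_intCast]
      rw [← half_zp_conj h3 f hf, ← half_zp_conj h3 f hf]
    rw [g2, conj_len]
  have fl5 : FL (dq (dcoef ζ a)) (pos I) := by
    unfold FL at fl4 ⊢
    rwa [e5] at fl4
  have p5 : par (dq (tr (dcoef ζ (fun c c' => - a c c')))) (pos I) =
      par (dq (dcoef ζ a)) (pos I) := by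
    unfold par
    rw [e5]
  -- step 5
  have hAI : pos A = pos (bd n \ B) ∪ pos I := by
    rw [← half_pos_union]
    congr 1
    ext c
    have hb : c ∈ B ↔ c ∈ F ∧ c ∈ bd n := by
      rw [← hF.bdy, Finset.mem_inter]
    have hbd : c ∈ bd n → c ∈ Box n := fun h => (mem_bd.mp h).1
    rw [Finset.mem_union, Finset.mem_sdiff, Finset.mem_sdiff, Finset.mem_sdiff, inn,
      Finset.mem_sdiff]
    constructor
    · rintro ⟨h1, h2⟩
      by_cases h3 : c ∈ bd n
      · exact Or.inl ⟨h3, fun h4 => h2 (hb.mp h4).1⟩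
      · exact Or.inr ⟨⟨h1, h3⟩, h2⟩
    · rintro (⟨h1, h2⟩ | ⟨⟨h1, h3⟩, h2⟩)
      · exact ⟨hbd h1, fun h4 => h2 (hb.mpr ⟨h4, h1⟩)⟩
      · exact ⟨h1, h2⟩
  have hdis5 : Disjoint (pos (bd n \ B)) (pos I) := by
    rw [Finset.disjoint_left]
    intro c h1 h2
    rw [pos, Finset.mem_filter, Finset.mem_sdiff] at h1
    rw [pos, Finset.mem_filter, hI, inn, Finset.mem_sdiff, Finset.mem_sdiff] at h2
    exact h2.1.1.2 h1.1.1
  have harr5 : ∀ x ∈ pos (bd n \ B), ∀ y ∈ pos I, dq (dcoef ζ a) x y = 0 := by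
    intro x hx y hy
    rw [pos, Finset.mem_filter, Finset.mem_sdiff] at hx
    rw [pos, Finset.mem_filter, hI, inn, Finset.mem_sdiff, Finset.mem_sdiff] at hy
    have e1 : inc x y = 0 := by
      by_contra hne
      exact hy.1.1.2 (isComplex_bd n _ hx.1.1 _ (le_of_inc hne).1)
    have e2 : inc x (-y) = 0 := by
      by_contra hne
      have h1 := half_sym_bd n _ (isComplex_bd n _ hx.1.1 _ (le_of_inc hne).1)
      rw [neg_neg] at h1
      exact hy.1.1.2 h1
    simp [dq, dcoef, e1, e2]
  have hcx5 : IsCx (dq (dcoef ζ a)) (pos A) :=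
    isCx_dq hsA (sec_pos hsA h0A) (symM_dcoef ha.symm) (isCx_dcoef h3 hcA ha.flat)
  rw [hAI] at hcx5 fl1 s2b
  obtain ⟨_, _, t3, t4⟩ := par_split hcx5 harr5 hdis5
  have fl6 := t3 fl1 fl5
  have p6 := t4 fl6 fl5
  have p7 : par (dq (dcoef ζ a)) (pos (bd n \ B) ∪ pos I) = par (dq (dcoef ζ a)) (pos I) := by
    rw [s2b, s3b, s4b, p5]
  rw [p7] at p6
  have : par (dq (dcoef ζ a)) (pos (bd n \ B)) + par (dq (dcoef ζ a)) (pos I) =
      0 + par (dq (dcoef ζ a)) (pos I) := by
    rw [zero_add]
    exact p6.symm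
  exact add_right_cancel this

end Cub
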