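import Pool.Agent.H33.CB.CxD

/-!
# Interface: the statements of the geometric comparisons (helper57)

These statements are proved in the files `M*`, `C*`, `G*` and collected in `Coll.lean`.
-/

namespace Cub

/-- M1: subdivision. -/
def StM1 : Prop := ∀ (R : Type) (_ : CommRing R) (ζ : R), ζ ^ 3 = 1 → ∀ (m : ℕ), 1 ≤ m →
  ∀ (n : Fin 4 → ℕ) (A : Finset Cell) (a : Cell → Cell → ZMod 3),
  A ⊆ Box n → Conv A → Sym A → (0 : Cell) ∉ A → SymA a → Flat a A →
  (FL (dq (dcoef ζ a)) (pos A) ↔ FL (dq (dcoef ζ (suba m a))) (pos (fine m n A))) ∧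
    par (dq (dcoef ζ a)) (pos A) = par (dq (dcoef ζ (suba m a))) (pos (fine m n A))

/-- M2: duality.  The cells `y = s + t` of the half lattice with `s = low y` not in `F`, versus the
transposed complex of the cells `s` of the open box. -/
def StM2 : Prop := ∀ (R : Type) (_ : CommRing R) (ζ : R), ζ ^ 3 = 1 →
  ∀ (n : Fin 4 → ℕ) (F B : Finset Cell) (a : Cell → Cell → ZMod 3),
  GoodDisc n F B → LocSys n F a →
  (FL (dq (dcoef ζ (suba 2 a))) (pos ((Box (fun i => 2 * n i)).filter (fun y => low y ∉ F))) ↔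
    FL (dq (tr (dcoef ζ (fun c c' => - a c c')))) (pos (inn n \ F))) ∧
  par (dq (dcoef ζ (suba 2 a))) (pos ((Box (fun i => 2 * n i)).filter (fun y => low y ∉ F))) =
    par (dq (tr (dcoef ζ (fun c c' => - a c c')))) (pos (inn n \ F))

/-- M3: no contribution from the disc. -/
def StM3 : Prop := ∀ (R : Type) (_ : CommRing R) (ζ : R), ζ ^ 3 = 1 → IsUnit (1 - ζ) →
  ∀ (n : Fin 4 → ℕ) (F B : Finset Cell) (a : Cell → Cell → ZMod 3),
  GoodDisc n F B → LocSys n F a →
  Acy (dq (dcoef ζ (suba 2 a)))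
    (pos ((Box (fun i => 2 * n i)).filter (fun y => car 2 y ∉ F ∧ low y ∈ F)))

/-- T5: existence of the local system. -/
def StT5 : Prop := ∀ (n : Fin 4 → ℕ) (F B : Finset Cell), GoodDisc n F B →
  ∀ w : Cell → ZMod 3, (∀ q, w q ≠ 0 ↔ (q ∈ F ∧ dim q = 2)) → (∀ q, w (-q) = w q) →
  (∀ c ∈ inn n, dim c = 1 → ∑ q ∈ Box n, w q * (inc q c : ZMod 3) = 0) →
  ∃ a, LocSys n F a

end Cub
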