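import Pool.Agent.H33.CB.BoxAcy

/-!
# Module Kap (about 150 lines): the fundamental cycle of the boundary of the box

`om Q` = product of `(-1)^((Q i - 1)/2)`.  In the plus convention `∑ om Q [Q]` over the top cells of the
box is a cycle relative to the boundary: a three-dimensional cell `T` of the open box, with even
coordinate `i`, is a facet of exactly `T + e i` and `T - e i`, with equal incidence numbers and
opposite signs `om`.
`kap n T` = coefficient of `T` in the boundary of this chain: zero on `inn n`, `± 1` on the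
three-dimensional cells of `bd n` (exactly one coface).
`kap_cyc`: `∂ ∂ = 0` in the box (`isCx_dinc` over `ℤ` for `Box n`): for `q ∈ bd n`, `dim q = 2`:
`∑_T kap T * inc T q = 0`, the sum over the three-dimensional cells of the box, and `kap = 0` on `inn n`.
`kap_neg`: `om (-Q) = om Q` (four sign changes), `inc_neg`.
-/

namespace Cub

/-- Sign of a top cell. -/
def om (Q : Cell) : ℤ := ∏ i, (-1) ^ ((Q i - 1) / 2).natAbs

/-- The fundamental cycle of the boundary of the box. -/
noncomputable def kap (n : Fin 4 → ℕ) (T : Cell) : ℤ :=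
  ∑ Q ∈ (Box n).filter (fun Q => dim Q = 4), om Q * inc Q T

private theorem pm_natAbs (k : ℤ) : ((-1 : ℤ) ^ k.natAbs) = -((-1) ^ (k - 1).natAbs) := by
  rcases Int.even_or_odd k with h | h
  · have h1 : Odd (k - 1) := by
      obtain ⟨a, ha⟩ := h
      exact ⟨a - 1, by omega⟩
    rw [(Int.natAbs_even.2 h).neg_one_pow, (Int.natAbs_odd.2 h1).neg_one_pow]
    norm_num
  · have h1 : Even (k - 1) := by
      obtain ⟨a, ha⟩ := h
      exact ⟨a, by omega⟩
    rw [(Int.natAbs_odd.2 h).neg_one_pow, (Int.natAbs_even.2 h1).neg_one_pow]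

private theorem om_pm (Q : Cell) : om Q = 1 ∨ om Q = -1 := by
  unfold om
  refine Finset.prod_induction _ (fun x : ℤ => x = 1 ∨ x = -1) ?_ (Or.inl rfl) ?_
  · rintro a b (rfl | rfl) (rfl | rfl) <;> simp
  · intro i _
    exact neg_one_pow_eq_or ℤ _

/-- the even coordinate of a three-dimensional cell -/
private theorem even_coord {T : Cell} (hd : dim T = 3) :
    ∃ i, T i % 2 = 0 ∧ ∀ j, j ≠ i → T j % 2 = 1 := by
  unfold dim at hd
  have h1 : (Finset.univ.filter (fun i => ¬ T i % 2 = 1)).card = 1 := by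
    have h2 := Finset.card_filter_add_card_filter_not (s := (Finset.univ : Finset (Fin 4)))
      (fun i => T i % 2 = 1)
    rw [hd, Finset.card_univ, Fintype.card_fin] at h2
    omega
  obtain ⟨i, hi⟩ := Finset.card_eq_one.1 h1
  refine ⟨i, ?_, fun j hj => ?_⟩
  · have : i ∈ Finset.univ.filter (fun i => ¬ T i % 2 = 1) := by rw [hi]; simp
    have := (Finset.mem_filter.1 this).2
    omega
  · by_contra hc
    have : j ∈ Finset.univ.filter (fun i => ¬ T i % 2 = 1) :=
      Finset.mem_filter.2 ⟨Finset.mem_univ j, hc⟩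
    rw [hi, Finset.mem_singleton] at this
    exact hj this

private theorem dim_four {Q : Cell} : dim Q = 4 ↔ ∀ i, Q i % 2 = 1 := by
  unfold dim
  have h := Finset.card_filter_eq_iff (s := (Finset.univ : Finset (Fin 4)))
    (p := fun i => Q i % 2 = 1)
  rw [Finset.card_univ, Fintype.card_fin] at h
  rw [h]
  simp

private theorem e_same (i : Fin 4) : e i i = 1 := by simp [e]

private theorem e_ne {i j : Fin 4} (h : j ≠ i) : e i j = 0 := by simp [e, h]

/-- the constant incidence number -/
private def sg (i : Fin 4) : ℤ := (-1) ^ (Finset.univ.filter (fun j => j < i)).card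

private theorem sg_pm (i : Fin 4) : sg i = 1 ∨ sg i = -1 := neg_one_pow_eq_or ℤ _

private theorem sgn_top {Q : Cell} (hQ : dim Q = 4) (i : Fin 4) : sgn i Q = sg i := by
  unfold sgn sg
  congr 3
  ext j
  simp [dim_four.1 hQ j]

private theorem inc_top {Q T : Cell} {i : Fin 4} (hQ : dim Q = 4) (h1 : T i % 2 = 0)
    (h2 : ∀ j, j ≠ i → T j % 2 = 1) :
    inc Q T = (if Q = T - e i then sg i else 0) + (if Q = T + e i then sg i else 0) := by
  have hne : T - e i ≠ T + e i := fun h => by
    have := congrFun h i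
    simp only [Pi.sub_apply, Pi.add_apply, e_same] at this
    omega
  have key : inc Q T = if (T = Q + e i ∨ T = Q - e i) then sg i else 0 := by
    unfold inc
    rw [Finset.sum_eq_single i]
    · rw [sgn_top hQ]
      simp [dim_four.1 hQ i]
    · intro j _ hj
      rw [if_neg]
      rintro ⟨h3, h4 | h4⟩
      · have := congrFun h4 j
        simp only [Pi.add_apply, e_same] at this
        have := h2 j hj
        omega
      · have := congrFun h4 j
        simp only [Pi.sub_apply, e_same] at this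
        have := h2 j hj
        omega
    · intro h
      exact absurd (Finset.mem_univ i) h
  rw [key]
  by_cases h3 : Q = T - e i
  · have h4 : Q ≠ T + e i := by rw [h3]; exact hne
    rw [if_pos h3, if_neg h4, if_pos (Or.inl (by rw [h3]; abel))]
    ring
  · by_cases h4 : Q = T + e i
    · rw [if_neg h3, if_pos h4, if_pos (Or.inr (by rw [h4]; abel))]
      ring
    · rw [if_neg h3, if_neg h4, if_neg]
      · ring
      · rintro (h5 | h5)
        · exact h3 (by rw [h5]; abel)
        · exact h4 (by rw [h5]; abel)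

private theorem om_flip {T : Cell} {i : Fin 4} (h1 : T i % 2 = 0) :
    om (T + e i) = - om (T - e i) := by
  unfold om
  rw [← Finset.mul_prod_erase _ _ (Finset.mem_univ i),
    ← Finset.mul_prod_erase _ _ (Finset.mem_univ i)]
  have h2 : ∏ j ∈ Finset.univ.erase i, (-1 : ℤ) ^ (((T + e i) j - 1) / 2).natAbs =
      ∏ j ∈ Finset.univ.erase i, (-1 : ℤ) ^ (((T - e i) j - 1) / 2).natAbs := by
    refine Finset.prod_congr rfl fun j hj => ?_
    have hj' := Finset.ne_of_mem_erase hj
    rw [Pi.add_apply, Pi.sub_apply, e_ne hj', add_zero, sub_zero]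
  have h3 : ((T + e i) i - 1) / 2 = T i / 2 := by
    rw [Pi.add_apply, e_same]
    omega
  have h4 : ((T - e i) i - 1) / 2 = T i / 2 - 1 := by
    rw [Pi.sub_apply, e_same]
    omega
  rw [h2, h3, h4, pm_natAbs (T i / 2)]
  ring

private theorem dim_pm {T : Cell} {i : Fin 4} (h1 : T i % 2 = 0)
    (h2 : ∀ j, j ≠ i → T j % 2 = 1) : dim (T - e i) = 4 ∧ dim (T + e i) = 4 := by
  rw [dim_four, dim_four]
  constructor <;> intro j <;> by_cases hj : j = i
  · subst hj
    rw [Pi.sub_apply, e_same]
    omega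
  · rw [Pi.sub_apply, e_ne hj, sub_zero]
    exact h2 j hj
  · subst hj
    rw [Pi.add_apply, e_same]
    omega
  · rw [Pi.add_apply, e_ne hj, add_zero]
    exact h2 j hj

private theorem kap_eq {n : Fin 4 → ℕ} {T : Cell} {i : Fin 4} (h1 : T i % 2 = 0)
    (h2 : ∀ j, j ≠ i → T j % 2 = 1) :
    kap n T = (if T - e i ∈ Box n then om (T - e i) * sg i else 0) +
      (if T + e i ∈ Box n then om (T + e i) * sg i else 0) := by
  obtain ⟨h3, h4⟩ := dim_pm h1 h2
  unfold kap
  have h5 : ∀ Q ∈ (Box n).filter (fun Q => dim Q = 4), om Q * inc Q T =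
      (if Q = T - e i then om (T - e i) * sg i else 0) +
      (if Q = T + e i then om (T + e i) * sg i else 0) := by
    intro Q hQ
    rw [inc_top (Finset.mem_filter.1 hQ).2 h1 h2, mul_add]
    congr 1
    · by_cases h : Q = T - e i
      · rw [if_pos h, if_pos h, h]
      · rw [if_neg h, if_neg h, mul_zero]
    · by_cases h : Q = T + e i
      · rw [if_pos h, if_pos h, h]
      · rw [if_neg h, if_neg h, mul_zero]
  rw [Finset.sum_congr rfl h5, Finset.sum_add_distrib, Finset.sum_ite_eq', Finset.sum_ite_eq']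
  simp only [Finset.mem_filter, h3, h4, and_true]

private theorem box_sub {n : Fin 4 → ℕ} {T : Cell} (hT : T ∈ Box n) (i : Fin 4) :
    T - e i ∈ Box n ↔ -(2 * (n i : ℤ)) ≤ T i - 1 := by
  rw [mem_box] at hT ⊢
  constructor
  · intro h
    have := (h i).1
    rwa [Pi.sub_apply, e_same] at this
  · intro h j
    by_cases hj : j = i
    · subst hj
      rw [Pi.sub_apply, e_same]
      have := hT j
      omega
    · rw [Pi.sub_apply, e_ne hj, sub_zero]
      exact hT j

private theorem box_add {n : Fin 4 → ℕ} {T : Cell} (hT : T ∈ Box n) (i : Fin 4) :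
    T + e i ∈ Box n ↔ T i + 1 ≤ 2 * (n i : ℤ) := by
  rw [mem_box] at hT ⊢
  constructor
  · intro h
    have := (h i).2
    rwa [Pi.add_apply, e_same] at this
  · intro h j
    by_cases hj : j = i
    · subst hj
      rw [Pi.add_apply, e_same]
      have := hT j
      omega
    · rw [Pi.add_apply, e_ne hj, add_zero]
      exact hT j

theorem kap_inn {n : Fin 4 → ℕ} {T : Cell} (hT : T ∈ inn n) (hd : dim T = 3) : kap n T = 0 := by
  obtain ⟨i, h1, h2⟩ := even_coord hd
  rw [inn, Finset.mem_sdiff, mem_bd] at hT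
  obtain ⟨hB, hnb⟩ := hT
  have h3 : ¬ (T i = 2 * (n i : ℤ) ∨ T i = -(2 * (n i : ℤ))) := fun h => hnb ⟨hB, i, h⟩
  have h4 := mem_box.1 hB i
  push Not at h3
  rw [kap_eq h1 h2, if_pos ((box_sub hB i).2 (by omega)), if_pos ((box_add hB i).2 (by omega)),
    om_flip h1]
  ring

theorem kap_bd {n : Fin 4 → ℕ} {T : Cell} (hn : ∀ i, 1 ≤ n i) (hT : T ∈ bd n) (hd : dim T = 3) :
    kap n T = 1 ∨ kap n T = -1 := by
  obtain ⟨i, h1, h2⟩ := even_coord hd
  obtain ⟨hB, j, hj⟩ := mem_bd.1 hT
  have hji : j = i := by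
    by_contra hc
    have := h2 j hc
    omega
  subst hji
  have hnj := hn j
  have h5 : ∀ Q : Cell, om Q * sg j = 1 ∨ om Q * sg j = -1 := fun Q => by
    rcases om_pm Q with h | h <;> rcases sg_pm j with h' | h' <;> rw [h, h'] <;> simp
  rw [kap_eq h1 h2]
  rcases hj with hj | hj
  · rw [if_pos ((box_sub hB j).2 (by omega)), if_neg (fun h => by
      have := (box_add hB j).1 h
      omega), add_zero]
    exact h5 _
  · rw [if_neg (fun h => by
      have := (box_sub hB j).1 h
      omega), if_pos ((box_add hB j).2 (by omega)), zero_add]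
    exact h5 _

theorem kap_cyc {n : Fin 4 → ℕ} (q : Cell) (hq : q ∈ bd n) (hd : dim q = 2) :
    ∑ T ∈ (bd n).filter (fun T => dim T = 3), kap n T * inc T q = 0 := by
  have hqB : q ∈ Box n := (mem_bd.1 hq).1
  have h1 : ∑ T ∈ (bd n).filter (fun T => dim T = 3), kap n T * inc T q =
      ∑ T ∈ (Box n).filter (fun T => dim T = 3), kap n T * inc T q := by
    refine Finset.sum_subset ?_ ?_
    · intro T hT
      rw [Finset.mem_filter] at hT ⊢
      exact ⟨(mem_bd.1 hT.1).1, hT.2⟩
    · intro T hT hT'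
      rw [Finset.mem_filter] at hT
      have h2 : T ∉ bd n := fun h => hT' (Finset.mem_filter.2 ⟨h, hT.2⟩)
      rw [kap_inn (Finset.mem_sdiff.2 ⟨hT.1, h2⟩) hT.2, zero_mul]
  have hc : Conv (Box n) := fun a _ c hc b _ hb => isComplex_box n c hc b hb
  have h2 := isCx_dinc (R := ℤ) hc
  rw [h1]
  unfold kap
  simp_rw [Finset.sum_mul]
  rw [Finset.sum_comm]
  refine Finset.sum_eq_zero fun Q hQ => ?_
  obtain ⟨hQB, hQd⟩ := Finset.mem_filter.1 hQ
  have h3 := h2 Q hQB q hqB
  simp only [dinc, Int.cast_id] at h3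
  have h4 : ∑ T ∈ (Box n).filter (fun T => dim T = 3), om Q * inc Q T * inc T q =
      om Q * ∑ T ∈ Box n, inc Q T * inc T q := by
    rw [Finset.mul_sum, Finset.sum_filter]
    refine Finset.sum_congr rfl fun T _ => ?_
    by_cases h5 : dim T = 3
    · rw [if_pos h5]
      ring
    · rw [if_neg h5]
      by_cases h6 : inc Q T = 0
      · rw [h6]
        ring
      · have := (le_of_inc h6).2
        omega
  rw [h4, h3, mul_zero]

private theorem om_neg {Q : Cell} (hQ : dim Q = 4) : om (-Q) = om Q := by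
  have h : ∀ i, (-1 : ℤ) ^ (((-Q) i - 1) / 2).natAbs = - (-1) ^ ((Q i - 1) / 2).natAbs := by
    intro i
    have h1 := dim_four.1 hQ i
    have h2 : ((-Q) i - 1) / 2 = -((Q i - 1) / 2 + 1) := by
      rw [Pi.neg_apply]
      omega
    rw [h2, Int.natAbs_neg, pm_natAbs ((Q i - 1) / 2 + 1), add_sub_cancel_right]
  unfold om
  simp only [h, Fin.prod_univ_four]
  ring

theorem kap_neg (n : Fin 4 → ℕ) (T : Cell) : kap n (-T) = kap n T := by
  unfold kap
  refine Finset.sum_nbij' (fun Q => -Q) (fun Q => -Q) ?_ ?_ (fun Q _ => neg_neg Q)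
    (fun Q _ => neg_neg Q) ?_
  · intro Q hQ
    rw [Finset.mem_filter, mem_box, dim_four] at hQ ⊢
    refine ⟨fun i => ?_, fun i => ?_⟩
    · have := hQ.1 i
      rw [Pi.neg_apply]
      omega
    · have := hQ.2 i
      rw [Pi.neg_apply]
      omega
  · intro Q hQ
    rw [Finset.mem_filter, mem_box, dim_four] at hQ ⊢
    refine ⟨fun i => ?_, fun i => ?_⟩
    · have := hQ.1 i
      rw [Pi.neg_apply]
      omega
    · have := hQ.2 i
      rw [Pi.neg_apply]
      omega
  · intro Q hQ
    rw [om_neg (Finset.mem_filter.1 hQ).2]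
    have := inc_neg Q (-T)
    rw [neg_neg] at this
    rw [this]

end Cub
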