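import Pool.Agent.H33.CB.Filt
import Pool.Agent.H33.CB.Defs

/-!
# Module Match (about 150 lines): matchings

`acy_match`: arrows only inside the pairs `{b, μ b}`, one of the two coefficients a unit.  Direct
proof: `D b (μ b) * D (μ b) b = 0` by `IsCx` (the sum over `B` has only this term), so one of them
is a unit and the other one is zero, `D b b = 0`; solve the equation coordinatewise.
(Or `acy_classes` with the class `{b, μ b}`.)

`acy_tog`: a set `A` of cells which is perfectly matched in the direction `h`: the partner of the cell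
`c` with `c h` odd is `c + s • e h`.  The matrix `D` has nonzero entries only at facets, and units there.
Filtration (`acy_filt`), lexicographic: first the number of odd coordinates of `c` different from `h`,
then `s * (c h)` for `c h` odd, `s * (c h) - 1` for `c h` even (so both members of a pair have the same
value; the arrow from `c` to the other neighbour `c - s • e h` goes to a smaller value), then
`acy_match` for the pieces.
-/

namespace Cub

variable {R : Type} [CommRing R]

/-- The matching lemma without the hypothesis that the square of the differential is zero. -/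
theorem match_aux {ι : Type} [DecidableEq ι] {D : ι → ι → R} {B : Finset ι}
    (μ : ι → ι) (hμ : ∀ b ∈ B, μ b ∈ B ∧ μ (μ b) = b ∧ μ b ≠ b)
    (h : ∀ a ∈ B, ∀ b ∈ B, D a b ≠ 0 → b = μ a)
    (hu : ∀ b ∈ B, IsUnit (D b (μ b)) ∨ IsUnit (D (μ b) b)) : Acy D B := by
  intro x hx
  -- the sums have only one term
  have key : ∀ (z : B → R) (b : B),
      (dB D B z) b = z ⟨μ b, (hμ b b.2).1⟩ * D (μ b) b := by
    intro z b
    show ∑ a : B, z a * D a b = _
    rw [Finset.sum_eq_single ⟨μ b, (hμ b b.2).1⟩]
    · intro a _ hab
      by_cases hD : D a b = 0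
      · rw [hD, mul_zero]
      · exfalso
        apply hab
        have h1 := h a a.2 b b.2 hD
        apply Subtype.ext
        show (a : ι) = μ b
        rw [h1, (hμ a a.2).2.1]
    · intro hn
      exact absurd (Finset.mem_univ _) hn
  have hx0 : ∀ b : B, x b * D b (μ b) = 0 := by
    intro b
    have h1 := congrFun hx ⟨μ b, (hμ b b.2).1⟩
    rw [key] at h1
    have h2 : (⟨μ (μ b), (hμ (μ b) (hμ b b.2).1).1⟩ : B) = b := Subtype.ext (hμ b b.2).2.1
    simp only [(hμ b b.2).2.1] at h1
    exact h1
  refine ⟨fun a => x ⟨μ a, (hμ a a.2).1⟩ * Ring.inverse (D a (μ a)), ?_⟩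
  funext b
  rw [key]
  simp only [(hμ b b.2).2.1]
  rcases hu b b.2 with h3 | h3
  · have h4 : x b = 0 := by
      have := hx0 b
      exact (h3.mul_left_eq_zero).mp this
    rw [h4]
    simp
  · rw [mul_assoc, Ring.inverse_mul_cancel _ h3, mul_one]

theorem acy_match {ι : Type} [DecidableEq ι] {D : ι → ι → R} {B : Finset ι} (hcx : IsCx D B)
    (μ : ι → ι) (hμ : ∀ b ∈ B, μ b ∈ B ∧ μ (μ b) = b ∧ μ b ≠ b)
    (h : ∀ a ∈ B, ∀ b ∈ B, D a b ≠ 0 → b = μ a)
    (hu : ∀ b ∈ B, IsUnit (D b (μ b)) ∨ IsUnit (D (μ b) b)) : Acy D B :=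
  match_aux μ hμ h hu

/-- The matrix `D` has unit entries at the facets in `A` and zeros elsewhere. -/
def UnitD (D : Cell → Cell → R) (A : Finset Cell) : Prop :=
  ∀ a ∈ A, ∀ b ∈ A, (inc a b = 0 → D a b = 0) ∧ (inc a b ≠ 0 → IsUnit (D a b))

private theorem sgn_ne (i : Fin 4) (c : Cell) : sgn i c ≠ 0 := by
  unfold sgn
  exact pow_ne_zero _ (by norm_num)

private theorem e_self (i : Fin 4) : e i i = 1 := by
  simp [e]

private theorem e_ne {i j : Fin 4} (h : j ≠ i) : e i j = 0 := by
  simp [e, h]

private theorem inc_of (a b : Cell) (h : inc a b ≠ 0) :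
    ∃ i, a i % 2 = 1 ∧ (b = a + e i ∨ b = a - e i) := by
  unfold inc at h
  obtain ⟨i, _, hi⟩ := Finset.exists_ne_zero_of_sum_ne_zero h
  refine ⟨i, ?_⟩
  by_contra hc
  rw [if_neg hc] at hi
  exact hi rfl

private theorem inc_facet (a : Cell) (h : Fin 4) (ha : a h % 2 = 1) (s : ℤ)
    (hs : s = 1 ∨ s = -1) : inc a (a + s • e h) ≠ 0 := by
  have h1 : inc a (a + s • e h) = sgn h a := by
    unfold inc
    rw [Finset.sum_eq_single h]
    · rw [if_pos]
      refine ⟨ha, ?_⟩
      rcases hs with rfl | rfl
      · left; simp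
      · right; simp [sub_eq_add_neg]
    · intro i _ hi
      rw [if_neg]
      rintro ⟨_, h2 | h2⟩
      · have h3 : a i + s * e h i = a i + e i i := congrFun h2 i
        rw [e_ne hi, e_self] at h3
        omega
      · have h3 : a i + s * e h i = a i - e i i := congrFun h2 i
        rw [e_ne hi, e_self] at h3
        omega
    · intro hn
      exact absurd (Finset.mem_univ _) hn
  rw [h1]
  exact sgn_ne h a

/-- The number of odd coordinates different from `h`. -/
private def nOdd (h : Fin 4) (c : Cell) : ℤ :=
  ∑ i, if i ≠ h ∧ c i % 2 = 1 then 1 else 0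

/-- The position in the direction `h`. -/
private def vPos (h : Fin 4) (s : ℤ) (c : Cell) : ℤ :=
  if c h % 2 = 1 then s * c h else s * c h - 1

private theorem nOdd_same (h : Fin 4) (c c' : Cell) (hc : ∀ i, i ≠ h → c' i = c i) :
    nOdd h c' = nOdd h c := by
  unfold nOdd
  apply Finset.sum_congr rfl
  intro i _
  by_cases hi : i = h
  · simp [hi]
  · rw [hc i hi]

private theorem nOdd_drop (h i : Fin 4) (hi : i ≠ h) (c c' : Cell) (hodd : c i % 2 = 1)
    (heven : c' i % 2 = 0) (hc : ∀ j, j ≠ i → c' j = c j) : nOdd h c' + 1 = nOdd h c := by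
  unfold nOdd
  rw [← Finset.add_sum_erase _ _ (Finset.mem_univ i),
    ← Finset.add_sum_erase (f := fun j => if j ≠ h ∧ c j % 2 = 1 then (1 : ℤ) else 0) _
      (Finset.mem_univ i)]
  have h1 : ∑ x ∈ Finset.univ.erase i, (if x ≠ h ∧ c' x % 2 = 1 then (1 : ℤ) else 0) =
      ∑ x ∈ Finset.univ.erase i, (if x ≠ h ∧ c x % 2 = 1 then (1 : ℤ) else 0) := by
    apply Finset.sum_congr rfl
    intro x hx
    rw [hc x (Finset.ne_of_mem_erase hx)]
  rw [h1, if_neg (by rintro ⟨_, h2⟩; omega), if_pos ⟨hi, hodd⟩]
  ring

/-- A set of cells which is matched in the direction `h`: every cell with odd coordinate `h`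
with its neighbour `c + s • e h`. -/
theorem acy_tog {D : Cell → Cell → R} {A : Finset Cell} (hcx : IsCx D A) (hD : UnitD D A)
    (h : Fin 4) (s : ℤ) (hs : s = 1 ∨ s = -1)
    (hodd : ∀ c ∈ A, c h % 2 = 1 → c + s • e h ∈ A)
    (heven : ∀ c ∈ A, c h % 2 = 0 → c - s • e h ∈ A) : Acy D A := by
  have hss : s * s = 1 := by rcases hs with rfl | rfl <;> norm_num
  -- the values of `v` on a pair
  have addh : ∀ c : Cell, (c + s • e h) h = c h + s := by
    intro c; simp [e_self]
  have subh : ∀ c : Cell, (c - s • e h) h = c h - s := by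
    intro c; simp [e_self]
  have addo : ∀ (c : Cell) (i : Fin 4), i ≠ h → (c + s • e h) i = c i := by
    intro c i hi; simp [e_ne hi]
  have subo : ∀ (c : Cell) (i : Fin 4), i ≠ h → (c - s • e h) i = c i := by
    intro c i hi; simp [e_ne hi]
  have par_add : ∀ x : ℤ, x % 2 = 1 → (x + s) % 2 = 0 ∧ (x - s) % 2 = 0 := by
    intro x hx
    rcases hs with rfl | rfl <;> omega
  have par_sub : ∀ x : ℤ, x % 2 = 0 → (x + s) % 2 = 1 ∧ (x - s) % 2 = 1 := by
    intro x hx
    rcases hs with rfl | rfl <;> omega
  have vodd : ∀ c : Cell, c h % 2 = 1 → vPos h s (c + s • e h) = vPos h s c := by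
    intro c hc
    unfold vPos
    rw [addh, if_pos hc, if_neg (by have := (par_add _ hc).1; omega), mul_add, hss]
    ring
  have vodd' : ∀ c : Cell, c h % 2 = 1 → vPos h s (c - s • e h) = vPos h s c - 2 := by
    intro c hc
    unfold vPos
    rw [subh, if_pos hc, if_neg (by have := (par_add _ hc).2; omega), mul_sub, hss]
    ring
  have veven : ∀ c : Cell, c h % 2 = 0 → vPos h s (c - s • e h) = vPos h s c := by
    intro c hc
    unfold vPos
    rw [subh, if_pos ((par_sub _ hc).2), if_neg (by omega), mul_sub, hss]
  -- arrows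
  have arrow : ∀ a ∈ A, ∀ b ∈ A, D a b ≠ 0 →
      (a h % 2 = 1 ∧ b = a + s • e h) ∨
      (nOdd h b = nOdd h a ∧ vPos h s b = vPos h s a - 2) ∨
      (nOdd h b + 1 = nOdd h a ∧ vPos h s b = vPos h s a) := by
    intro a ha b hb hab
    have h1 : inc a b ≠ 0 := fun h0 => hab ((hD a ha b hb).1 h0)
    obtain ⟨i, hi, hb'⟩ := inc_of a b h1
    by_cases hih : i = h
    · subst hih
      have h2 : b = a + s • e i ∨ b = a - s • e i := by
        rcases hs with rfl | rfl
        · rcases hb' with hb' | hb'
          · left; rw [hb']; simp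
          · right; rw [hb']; simp
        · rcases hb' with hb' | hb'
          · right; rw [hb']; simp
          · left; rw [hb']; simp [sub_eq_add_neg]
      rcases h2 with h2 | h2
      · left
        exact ⟨hi, h2⟩
      · right; left
        rw [h2]
        exact ⟨nOdd_same i a _ (fun j hj => subo a j hj), vodd' a hi⟩
    · right; right
      have h3 : ∀ j, j ≠ i → b j = a j := by
        intro j hj
        rcases hb' with hb' | hb'
        · rw [hb']; simp [e_ne hj]
        · rw [hb']; simp [e_ne hj]
      have h4 : b i % 2 = 0 := by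
        rcases hb' with hb' | hb'
        · rw [hb']
          have : (a + e i) i = a i + 1 := by simp [e_self]
          rw [this]; omega
        · rw [hb']
          have : (a - e i) i = a i - 1 := by simp [e_self]
          rw [this]; omega
      refine ⟨nOdd_drop h i hih a b hi h4 h3, ?_⟩
      unfold vPos
      rw [h3 h (fun hh => hih hh.symm)]
  -- filtration
  apply acy_fil hcx (fun c => (nOdd h c, vPos h s c)) (fun p => p.1 + p.2)
  · intro a ha b hb hab
    rcases arrow a ha b hb hab with ⟨h1, h2⟩ | ⟨h1, h2⟩ | ⟨h1, h2⟩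
    · left
      subst h2
      exact Prod.ext (nOdd_same h a _ (fun j hj => addo a j hj)) (vodd a h1)
    · right
      show nOdd h b + vPos h s b < nOdd h a + vPos h s a
      omega
    · right
      show nOdd h b + vPos h s b < nOdd h a + vPos h s a
      omega
  · intro p
    set μ : Cell → Cell := fun c => if c h % 2 = 1 then c + s • e h else c - s • e h with hμ
    have mu_odd : ∀ c : Cell, c h % 2 = 1 → μ c = c + s • e h := by
      intro c hc; simp only [hμ]; rw [if_pos hc]
    have mu_even : ∀ c : Cell, c h % 2 = 0 → μ c = c - s • e h := by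
      intro c hc; simp only [hμ]; rw [if_neg (by omega)]
    have dich : ∀ c : Cell, c h % 2 = 1 ∨ c h % 2 = 0 := by
      intro c; omega
    apply match_aux μ
    · intro b hb
      rw [Finset.mem_filter] at hb
      obtain ⟨hbA, hbp⟩ := hb
      rcases dich b with hc | hc
      · rw [mu_odd b hc]
        refine ⟨?_, ?_, ?_⟩
        · rw [Finset.mem_filter]
          refine ⟨hodd b hbA hc, ?_⟩
          rw [← hbp]
          exact Prod.ext (nOdd_same h b _ (fun j hj => addo b j hj)) (vodd b hc)
        · rw [mu_even _ (by rw [addh]; exact (par_add _ hc).1)]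
          simp
        · intro h1
          have := congrFun h1 h
          rw [addh] at this
          rcases hs with rfl | rfl <;> omega
      · rw [mu_even b hc]
        refine ⟨?_, ?_, ?_⟩
        · rw [Finset.mem_filter]
          refine ⟨heven b hbA hc, ?_⟩
          rw [← hbp]
          exact Prod.ext (nOdd_same h b _ (fun j hj => subo b j hj)) (veven b hc)
        · rw [mu_odd _ (by rw [subh]; exact (par_sub _ hc).2)]
          simp
        · intro h1
          have := congrFun h1 h
          rw [subh] at this
          rcases hs with rfl | rfl <;> omega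
    · intro a ha b hb hab
      rw [Finset.mem_filter] at ha hb
      have h1 : nOdd h a = nOdd h b := by
        have := ha.2.trans hb.2.symm
        exact congrArg Prod.fst this
      have h2 : vPos h s a = vPos h s b := by
        have := ha.2.trans hb.2.symm
        exact congrArg Prod.snd this
      rcases arrow a ha.1 b hb.1 hab with ⟨h3, h4⟩ | ⟨h3, h4⟩ | ⟨h3, h4⟩
      · rw [h4, mu_odd a h3]
      · omega
      · omega
    · intro b hb
      rw [Finset.mem_filter] at hb
      rcases dich b with hc | hc
      · left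
        rw [mu_odd b hc]
        exact (hD b hb.1 _ (hodd b hb.1 hc)).2 (inc_facet b h hc s hs)
      · right
        rw [mu_even b hc]
        have h1 := inc_facet (b - s • e h) h (by rw [subh]; exact (par_sub _ hc).2) s hs
        rw [sub_add_cancel] at h1
        exact (hD _ (heven b hb.1 hc) b hb.1).2 h1

end Cub
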