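import Pool.Agent.H33.CB.CxD

/-!
# Basic facts on cells, faces, incidence numbers

`Fct i c c'`: `c'` is a facet of `c` in direction `i`.  `lam` is the sign which compares the convention
`∂ interval = right end + left end` with the usual one: `lam (c + e i) = lam c` for `c i` odd and
`lam (c - e i) = - lam c` for `c i` odd (so in the usual convention `[c + e i] - [c - e i]`).
-/

namespace Cub

variable {R : Type} [CommRing R]

/-- `c'` is a facet of `c` in direction `i`. -/
def Fct (i : Fin 4) (c c' : Cell) : Prop := c i % 2 = 1 ∧ (c' = c + e i ∨ c' = c - e i)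

/-- The sign which compares the two conventions. -/
def lam (c : Cell) : ℤ := ∏ i, if (c i + 1) / 2 % 2 = 0 then 1 else -1

private theorem mzb_e_self (i : Fin 4) : e i i = 1 := by simp [e]

private theorem mzb_e_ne {i j : Fin 4} (h : j ≠ i) : e i j = 0 := by simp [e, h]

private theorem mzb_eq_add {c c' : Cell} {i : Fin 4} :
    c' = c + e i ↔ c' i = c i + 1 ∧ ∀ j, j ≠ i → c' j = c j := by
  constructor
  · rintro rfl
    refine ⟨by rw [Pi.add_apply, mzb_e_self], fun j hj => ?_⟩
    rw [Pi.add_apply, mzb_e_ne hj, add_zero]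
  · rintro ⟨h1, h2⟩
    funext j
    by_cases hj : j = i
    · subst hj
      rw [h1, Pi.add_apply, mzb_e_self]
    · rw [h2 j hj, Pi.add_apply, mzb_e_ne hj, add_zero]

private theorem mzb_eq_sub {c c' : Cell} {i : Fin 4} :
    c' = c - e i ↔ c' i = c i - 1 ∧ ∀ j, j ≠ i → c' j = c j := by
  constructor
  · rintro rfl
    refine ⟨by rw [Pi.sub_apply, mzb_e_self], fun j hj => ?_⟩
    rw [Pi.sub_apply, mzb_e_ne hj, sub_zero]
  · rintro ⟨h1, h2⟩
    funext j
    by_cases hj : j = i
    · subst hj
      rw [h1, Pi.sub_apply, mzb_e_self]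
    · rw [h2 j hj, Pi.sub_apply, mzb_e_ne hj, sub_zero]

private theorem mzb_fct {i : Fin 4} {c c' : Cell} : Fct i c c' ↔
    c i % 2 = 1 ∧ (c' i = c i + 1 ∨ c' i = c i - 1) ∧ ∀ j, j ≠ i → c' j = c j := by
  unfold Fct
  rw [mzb_eq_add, mzb_eq_sub]
  tauto

lemma le_refl' (a : Cell) : Le a a := fun _ => Or.inl rfl

lemma le_trans' {a b c : Cell} (h : Le a b) (h' : Le b c) : Le a c := by
  intro i
  have h1 := h i
  have h2 := h' i
  omega

lemma le_antisymm' {a b : Cell} (h : Le a b) (h' : Le b a) : a = b := by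
  funext i
  have h1 := h i
  have h2 := h' i
  omega

lemma le_of_fct {i : Fin 4} {c c' : Cell} (h : Fct i c c') : Le c' c :=
  (le_of_inc (inc_ne.2 ⟨i, h⟩)).1

lemma dim_of_fct {i : Fin 4} {c c' : Cell} (h : Fct i c c') : dim c = dim c' + 1 :=
  (le_of_inc (inc_ne.2 ⟨i, h⟩)).2

lemma dim_lt_of_le {a b : Cell} (h : Le a b) (hne : a ≠ b) : dim a < dim b := by
  unfold dim
  refine Finset.card_lt_card ?_
  rw [Finset.ssubset_iff_subset_ne]
  constructor
  · intro i hi
    simp only [Finset.mem_filter, Finset.mem_univ, true_and] at hi ⊢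
    have h1 := h i
    omega
  · intro heq
    apply hne
    funext i
    by_contra hi
    have h1 := h i
    have h2 : i ∈ Finset.univ.filter (fun j => b j % 2 = 1) := by
      simp only [Finset.mem_filter, Finset.mem_univ, true_and]
      omega
    rw [← heq] at h2
    simp only [Finset.mem_filter, Finset.mem_univ, true_and] at h2
    omega

lemma dim_neg (c : Cell) : dim (-c) = dim c := by
  unfold dim
  congr 1
  ext i
  simp only [Finset.mem_filter, Finset.mem_univ, true_and, Pi.neg_apply]
  omega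

lemma le_neg {a b : Cell} (h : Le a b) : Le (-a) (-b) := by
  intro i
  have h1 := h i
  simp only [Pi.neg_apply]
  omega

/-- Squares of faces: two facets in different directions have the common facet. -/
lemma fct_fct {i j : Fin 4} (hij : i ≠ j) {c b d : Cell} (h : Fct i c b) (h' : Fct j b d) :
    ∃ b', Fct j c b' ∧ Fct i b' d ∧ ∀ b'', (∃ k, Fct k c b'') → (∃ k, Fct k b'' d) → b'' = b ∨ b'' = b' := by
  rw [mzb_fct] at h h'
  obtain ⟨h1, h2, h3⟩ := h
  obtain ⟨h4, h5, h6⟩ := h'
  have h7 := h3 j hij.symm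
  have h8 := h6 i hij
  have hup : ∀ l, (fun l => if l = j then d j else c l : Cell) l = if l = j then d j else c l :=
    fun _ => rfl
  refine ⟨fun l => if l = j then d j else c l, ?_, ?_, ?_⟩
  · rw [mzb_fct]
    refine ⟨by omega, ?_, fun l hl => by simp only [if_neg hl]⟩
    simp only [if_true]
    omega
  · rw [mzb_fct]
    refine ⟨by simp only [if_neg hij]; exact h1, ?_, fun l hl => ?_⟩
    · simp only [if_neg hij]
      omega
    · by_cases hlj : l = j
      · subst hlj
        simp only [if_true]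
      · simp only [if_neg hlj]
        rw [h6 l hlj, h3 l hl]
  · rintro b'' ⟨k, hk⟩ ⟨l, hl⟩
    rw [mzb_fct] at hk hl
    obtain ⟨k1, k2, k3⟩ := hk
    obtain ⟨l1, l2, l3⟩ := hl
    have hlk : l ≠ k := by
      rintro rfl
      omega
    have h9 := l3 k hlk.symm
    by_cases hki : k = i
    · left
      subst hki
      funext m
      by_cases hm : m = k
      · subst hm
        omega
      · rw [k3 m hm, h3 m hm]
    · by_cases hkj : k = j
      · right
        subst hkj
        funext m
        by_cases hm : m = k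
        · subst hm
          simp only [if_true]
          omega
        · simp only [if_neg hm]
          exact k3 m hm
      · exfalso
        have h10 := h6 k hkj
        have h11 := h3 k hki
        omega

lemma lam_sq (c : Cell) : lam c * lam c = 1 := by
  unfold lam
  rw [← Finset.prod_mul_distrib]
  refine Finset.prod_eq_one fun i _ => ?_
  split_ifs <;> norm_num

lemma lam_add (c : Cell) (i : Fin 4) (h : c i % 2 = 1) : lam (c + e i) = lam c := by
  obtain ⟨h1, h2⟩ := (mzb_eq_add (c := c) (c' := c + e i) (i := i)).1 rfl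
  unfold lam
  refine Finset.prod_congr rfl fun j _ => ?_
  by_cases hj : j = i
  · subst hj
    refine if_congr ?_ rfl rfl
    rw [h1]
    omega
  · rw [h2 j hj]

lemma lam_sub (c : Cell) (i : Fin 4) (h : c i % 2 = 1) : lam (c - e i) = - lam c := by
  obtain ⟨h1, h2⟩ := (mzb_eq_sub (c := c) (c' := c - e i) (i := i)).1 rfl
  unfold lam
  rw [← Finset.mul_prod_erase Finset.univ _ (Finset.mem_univ i),
    ← Finset.mul_prod_erase Finset.univ (fun j => if (c j + 1) / 2 % 2 = 0 then (1 : ℤ) else -1)
      (Finset.mem_univ i), ← neg_mul]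
  congr 1
  · rw [h1]
    by_cases h3 : (c i + 1) / 2 % 2 = 0
    · rw [if_pos h3, if_neg (by omega)]
    · rw [if_neg h3, if_pos (by omega)]
      norm_num
  · refine Finset.prod_congr rfl fun j hj => ?_
    rw [h2 j (Finset.ne_of_mem_erase hj)]

lemma lam_neg (c : Cell) : lam (-c) = (-1) ^ dim c * lam c := by
  have h1 : ((-1) ^ dim c : ℤ) = ∏ i, if c i % 2 = 1 then (-1 : ℤ) else 1 := by
    rw [Finset.prod_ite, Finset.prod_const, Finset.prod_const_one, mul_one]
    rfl
  rw [h1]
  unfold lam
  rw [← Finset.prod_mul_distrib]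
  refine Finset.prod_congr rfl fun i _ => ?_
  rw [Pi.neg_apply]
  by_cases h2 : c i % 2 = 1
  · rw [if_pos h2]
    by_cases h3 : (c i + 1) / 2 % 2 = 0
    · rw [if_pos h3, if_neg (by omega)]
      norm_num
    · rw [if_neg h3, if_pos (by omega)]
      norm_num
  · rw [if_neg h2, one_mul]
    refine if_congr ?_ rfl rfl
    omega

lemma sgn_neg (i : Fin 4) (c : Cell) : sgn i (-c) = sgn i c := by
  unfold sgn
  congr 2
  ext j
  simp only [Finset.mem_filter, Finset.mem_univ, true_and, Pi.neg_apply]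
  omega

lemma sgn_sq (i : Fin 4) (c : Cell) : sgn i c * sgn i c = 1 := by
  unfold sgn
  rw [← mul_pow]
  norm_num

/-- The sign only depends on the parities of the coordinates before `i`. -/
lemma sgn_congr (i : Fin 4) (c c' : Cell) (h : ∀ j < i, c j % 2 = c' j % 2) : sgn i c = sgn i c' := by
  unfold sgn
  congr 2
  ext j
  simp only [Finset.mem_filter, Finset.mem_univ, true_and]
  refine and_congr_right fun hj => ?_
  rw [h j hj]

private theorem mzb_flip (i j : Fin 4) (hij : j < i) (c c' : Cell)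
    (h : ∀ l < i, l ≠ j → c l % 2 = c' l % 2) (h1 : c j % 2 = 1) (h2 : c' j % 2 ≠ 1) :
    sgn i c = - sgn i c' := by
  unfold sgn
  have h3 : Finset.univ.filter (fun k => k < i ∧ c k % 2 = 1) =
      insert j (Finset.univ.filter (fun k => k < i ∧ c' k % 2 = 1)) := by
    ext k
    simp only [Finset.mem_filter, Finset.mem_univ, true_and, Finset.mem_insert]
    by_cases hk : k = j
    · subst hk
      simp [h1, hij]
    · simp only [hk, false_or]
      refine and_congr_right fun hki => ?_
      rw [h k hki hk]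
  rw [h3, Finset.card_insert_of_notMem, pow_succ]
  · ring
  · simp only [Finset.mem_filter, Finset.mem_univ, true_and, not_and]
    exact fun _ => h2

/-- The sign changes if the parity of one coordinate before `i` changes. -/
lemma sgn_flip (i j : Fin 4) (hij : j < i) (c c' : Cell) (h : ∀ l < i, l ≠ j → c l % 2 = c' l % 2)
    (hj : c j % 2 ≠ c' j % 2) : sgn i c = - sgn i c' := by
  by_cases h1 : c j % 2 = 1
  · exact mzb_flip i j hij c c' h h1 (by omega)
  · have h2 := mzb_flip i j hij c' c (fun l hl hlj => (h l hl hlj).symm) (by omega) h1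
    rw [h2, neg_neg]

lemma inc_of_fct {i : Fin 4} {c c' : Cell} (h : Fct i c c') : inc c c' = sgn i c := by
  obtain ⟨h1, h2 | h2⟩ := h
  · rw [h2, inc_add h1]
  · rw [h2, inc_sub h1]

lemma inc_eq_zero {c c' : Cell} (h : ∀ i, ¬ Fct i c c') : inc c c' = 0 := by
  by_contra hne
  obtain ⟨i, hi⟩ := inc_ne.1 hne
  exact h i hi

lemma fct_of_inc {c c' : Cell} (h : inc c c' ≠ 0) : ∃ i, Fct i c c' := inc_ne.1 h

lemma zp_zero (ζ : R) : zp ζ 0 = 1 := by
  unfold zp
  rw [ZMod.val_zero, pow_zero]

lemma isUnit_zp {ζ : R} (hζ : ζ ^ 3 = 1) (x : ZMod 3) : IsUnit (zp ζ x) := by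
  unfold zp
  exact (IsUnit.of_pow_eq_one hζ (by norm_num)).pow _

lemma fct_of_dcoef {ζ : R} {a : Cell → Cell → ZMod 3} {c c' : Cell} (h : dcoef ζ a c c' ≠ 0) :
    ∃ i, Fct i c c' := by
  refine fct_of_inc fun h0 => h ?_
  unfold dcoef
  rw [h0, Int.cast_zero, zero_mul]

lemma isUnit_dcoef {ζ : R} (hζ : ζ ^ 3 = 1) (a : Cell → Cell → ZMod 3) {i : Fin 4} {c c' : Cell}
    (h : Fct i c c') : IsUnit (dcoef ζ a c c') := by
  unfold dcoef
  refine IsUnit.mul ?_ (isUnit_zp hζ _)
  rcases inc_val c c' with h' | h' | h'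
  · exact absurd h' (inc_ne.2 ⟨i, h⟩)
  · rw [h', Int.cast_one]
    exact isUnit_one
  · rw [h', Int.cast_neg, Int.cast_one]
    exact isUnit_one.neg

private theorem mzb_ne (c : Cell) (i : Fin 4) : c + e i ≠ c - e i := by
  intro h
  have h1 := congrFun h i
  rw [Pi.add_apply, Pi.sub_apply, mzb_e_self] at h1
  omega

private theorem mzb_two {A : Finset Cell} (x y : Cell) (hxy : x ≠ y) (g : Cell → R) (r : R) :
    ∑ b ∈ A, (if b = x ∨ b = y then r else 0) * g b =
      r * ((if x ∈ A then g x else 0) + (if y ∈ A then g y else 0)) := by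
  have h1 : ∀ b ∈ A, (if b = x ∨ b = y then r else 0) * g b =
      (if b = x then r * g x else 0) + (if b = y then r * g y else 0) := by
    intro b _
    by_cases h1 : b = x
    · have h2 : b ≠ y := fun h => hxy (h1.symm.trans h)
      rw [if_pos (Or.inl h1), if_pos h1, if_neg h2, add_zero, h1]
    · by_cases h2 : b = y
      · rw [if_pos (Or.inr h2), if_neg h1, if_pos h2, zero_add, h2]
      · rw [if_neg (by tauto), if_neg h1, if_neg h2, zero_mul, add_zero]
  rw [Finset.sum_congr rfl h1, Finset.sum_add_distrib, Finset.sum_ite_eq' A x,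
    Finset.sum_ite_eq' A y, mul_add]
  congr 1
  · by_cases h : x ∈ A
    · rw [if_pos h, if_pos h]
    · rw [if_neg h, if_neg h, mul_zero]
  · by_cases h : y ∈ A
    · rw [if_pos h, if_pos h]
    · rw [if_neg h, if_neg h, mul_zero]

/-- The boundary of a chain, evaluated. -/
lemma sum_dcoef_mul (ζ : R) (a : Cell → Cell → ZMod 3) (A : Finset Cell) (c : Cell) (f : Cell → R) :
    ∑ b ∈ A, dcoef ζ a c b * f b =
      ∑ i, if c i % 2 = 1 then (sgn i c : R) *
        ((if c + e i ∈ A then zp ζ (a c (c + e i)) * f (c + e i) else 0) +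
         (if c - e i ∈ A then zp ζ (a c (c - e i)) * f (c - e i) else 0)) else 0 := by
  have h1 : ∀ b ∈ A, dcoef ζ a c b * f b = ∑ i, (((if c i % 2 = 1 ∧ (b = c + e i ∨ b = c - e i)
      then sgn i c else 0 : ℤ) : R)) * (zp ζ (a c b) * f b) := by
    intro b _
    unfold dcoef inc
    rw [Int.cast_sum, ← Finset.sum_mul]
    ring
  rw [Finset.sum_congr rfl h1, Finset.sum_comm]
  refine Finset.sum_congr rfl fun i _ => ?_
  by_cases h2 : c i % 2 = 1
  · rw [if_pos h2, ← mzb_two (c + e i) (c - e i) (mzb_ne c i) (fun b => zp ζ (a c b) * f b)]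
    refine Finset.sum_congr rfl fun b _ => ?_
    congr 1
    by_cases h3 : b = c + e i ∨ b = c - e i
    · rw [if_pos ⟨h2, h3⟩, if_pos h3]
    · rw [if_neg (fun h => h3 h.2), if_neg h3, Int.cast_zero]
  · rw [if_neg h2]
    refine Finset.sum_eq_zero fun b _ => ?_
    rw [if_neg (fun h => h2 h.1), Int.cast_zero, zero_mul]

/-- The coboundary of a cochain, evaluated (`sgn i (c ± e i) = sgn i c`). -/
lemma sum_mul_dcoef (ζ : R) (a : Cell → Cell → ZMod 3) (A : Finset Cell) (c : Cell) (f : Cell → R) :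
    ∑ b ∈ A, f b * dcoef ζ a b c =
      ∑ i, if c i % 2 = 0 then (sgn i c : R) *
        ((if c + e i ∈ A then f (c + e i) * zp ζ (a (c + e i) c) else 0) +
         (if c - e i ∈ A then f (c - e i) * zp ζ (a (c - e i) c) else 0)) else 0 := by
  have h1 : ∀ b ∈ A, f b * dcoef ζ a b c = ∑ i, (((if b i % 2 = 1 ∧ (c = b + e i ∨ c = b - e i)
      then sgn i b else 0 : ℤ) : R)) * (f b * zp ζ (a b c)) := by
    intro b _
    unfold dcoef inc
    rw [Int.cast_sum, ← Finset.sum_mul]
    ring
  rw [Finset.sum_congr rfl h1, Finset.sum_comm]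
  refine Finset.sum_congr rfl fun i _ => ?_
  by_cases h2 : c i % 2 = 0
  · rw [if_pos h2, ← mzb_two (c + e i) (c - e i) (mzb_ne c i) (fun b => f b * zp ζ (a b c))]
    refine Finset.sum_congr rfl fun b _ => ?_
    congr 1
    by_cases h3 : b = c + e i ∨ b = c - e i
    · have h4 : b i % 2 = 1 ∧ (c = b + e i ∨ c = b - e i) := by
        rcases h3 with h3 | h3
        · refine ⟨?_, Or.inr (by rw [h3, add_sub_cancel_right])⟩
          rw [h3, Pi.add_apply, mzb_e_self]
          omega
        · refine ⟨?_, Or.inl (by rw [h3, sub_add_cancel])⟩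
          rw [h3, Pi.sub_apply, mzb_e_self]
          omega
      rw [if_pos h4, if_pos h3]
      congr 1
      refine sgn_congr i b c fun j hj => ?_
      rcases h3 with h3 | h3
      · rw [h3, Pi.add_apply, mzb_e_ne hj.ne, add_zero]
      · rw [h3, Pi.sub_apply, mzb_e_ne hj.ne, sub_zero]
    · rw [if_neg, if_neg h3, Int.cast_zero]
      rintro ⟨-, h4 | h4⟩
      · exact h3 (Or.inr (by rw [h4, add_sub_cancel_right]))
      · exact h3 (Or.inl (by rw [h4, sub_add_cancel]))
  · rw [if_neg h2]
    refine Finset.sum_eq_zero fun b _ => ?_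
    rw [if_neg, Int.cast_zero, zero_mul]
    rintro ⟨h3, h4 | h4⟩
    · apply h2
      rw [h4, Pi.add_apply, mzb_e_self]
      omega
    · apply h2
      rw [h4, Pi.sub_apply, mzb_e_self]
      omega

/-- A face of a cell of the box is in the box. -/
lemma box_of_le {n : Fin 4 → ℕ} {a b : Cell} (h : Le a b) (hb : b ∈ Box n) : a ∈ Box n :=
  isComplex_box n b hb a h

lemma bd_of_le {n : Fin 4 → ℕ} {a b : Cell} (h : Le a b) (hb : b ∈ bd n) : a ∈ bd n :=
  isComplex_bd n b hb a h

/-- A cell which has an interior cell as a face is an interior cell of the box. -/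
lemma inn_of_le {n : Fin 4 → ℕ} {a b : Cell} (h : Le a b) (ha : a ∈ inn n) : b ∈ inn n := by
  unfold inn at ha ⊢
  rw [Finset.mem_sdiff] at ha ⊢
  obtain ⟨h1, h2⟩ := ha
  have h3 : ∀ i, a i ≠ 2 * (n i : ℤ) ∧ a i ≠ -(2 * (n i : ℤ)) := by
    intro i
    constructor
    · intro h4
      exact h2 (mem_bd.2 ⟨h1, i, Or.inl h4⟩)
    · intro h4
      exact h2 (mem_bd.2 ⟨h1, i, Or.inr h4⟩)
  rw [mem_box] at h1
  constructor
  · rw [mem_box]
    intro i
    have h4 := h1 i
    have h5 := h i
    have h6 := h3 i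
    omega
  · intro hb
    obtain ⟨-, i, hi⟩ := mem_bd.1 hb
    have h5 := h i
    have h6 := h3 i
    omega

end Cub
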