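import Pool.Agent.H33.CB.MzBasic
import Pool.Agent.H33.CB.FlatSub

/-!
# Facts on `car`, `low`, `suba`, `fine`

`car m y` is the open coarse cell containing the fine open cell `y` (coarse cells are dilated by `m`).
One coordinate: `x = y i`.  If `2 m ∣ x` then `car = x / m` is even; otherwise `x = 2 m k + r`, `0 < r < 2 m`, `car = 2 k + 1`.
-/

namespace Cub

variable {m : ℕ}

private theorem mzc_eq_add {c c' : Cell} {i : Fin 4} :
    c' = c + e i ↔ c' i = c i + 1 ∧ ∀ j, j ≠ i → c' j = c j := by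
  have h0 : ∀ k, (c + e i) k = if k = i then c k + 1 else c k := by
    intro k
    have := FlatSub.step_i c i 1 k
    rwa [one_smul] at this
  constructor
  · rintro rfl
    refine ⟨by rw [h0, if_pos rfl], fun j hj => by rw [h0, if_neg hj]⟩
  · rintro ⟨h1, h2⟩
    funext j
    rw [h0]
    by_cases hj : j = i
    · subst hj
      rw [if_pos rfl, h1]
    · rw [if_neg hj, h2 j hj]

private theorem mzc_eq_sub {c c' : Cell} {i : Fin 4} :
    c' = c - e i ↔ c' i = c i - 1 ∧ ∀ j, j ≠ i → c' j = c j := by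
  have h0 : ∀ k, (c - e i) k = if k = i then c k - 1 else c k := by
    intro k
    have := FlatSub.step_i c i (-1) k
    rw [neg_one_smul, ← sub_eq_add_neg, ← sub_eq_add_neg] at this
    exact this
  constructor
  · rintro rfl
    refine ⟨by rw [h0, if_pos rfl], fun j hj => by rw [h0, if_neg hj]⟩
  · rintro ⟨h1, h2⟩
    funext j
    rw [h0]
    by_cases hj : j = i
    · subst hj
      rw [if_pos rfl, h1]
    · rw [if_neg hj, h2 j hj]

private theorem mzc_fct {i : Fin 4} {c c' : Cell} : Fct i c c' ↔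
    c i % 2 = 1 ∧ (c' i = c i + 1 ∨ c' i = c i - 1) ∧ ∀ j, j ≠ i → c' j = c j := by
  unfold Fct
  rw [mzc_eq_add, mzc_eq_sub]
  tauto

/-- one coordinate of the carrier -/
private theorem mzc_spec (hm : 1 ≤ m) (x : ℤ) :
    ((2 * m : ℤ) ∣ x ∧ FlatSub.carc m x % 2 = 0 ∧ x = m * FlatSub.carc m x) ∨
    (¬ (2 * m : ℤ) ∣ x ∧ FlatSub.carc m x % 2 = 1 ∧ m * (FlatSub.carc m x - 1) < x ∧
      x < m * (FlatSub.carc m x + 1)) := by
  have hm0 : (0 : ℤ) < 2 * m := by positivity
  have hm1 : (0 : ℤ) < m := by positivity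
  unfold FlatSub.carc
  by_cases hd : (2 * m : ℤ) ∣ x
  · left
    obtain ⟨k, rfl⟩ := hd
    have h1 : (2 * m * k : ℤ) = m * (2 * k) := by ring
    rw [if_pos (Dvd.intro k rfl), h1, Int.mul_ediv_cancel_left _ (ne_of_gt hm1)]
    exact ⟨⟨k, by ring⟩, by omega, rfl⟩
  · right
    rw [if_neg hd]
    have hr1 := Int.emod_nonneg x (ne_of_gt hm0)
    have hr2 := Int.emod_lt_of_pos x hm0
    have hdm := Int.emod_add_mul_ediv x (2 * m)
    have hrne : x % (2 * m : ℤ) ≠ 0 := fun h => hd (Int.dvd_of_emod_eq_zero h)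
    refine ⟨hd, by omega, ?_, ?_⟩
    · have h2 : (m : ℤ) * (2 * (x / (2 * m)) + 1 - 1) = 2 * m * (x / (2 * m)) := by ring
      rw [h2]
      omega
    · have h2 : (m : ℤ) * (2 * (x / (2 * m)) + 1 + 1) = 2 * m * (x / (2 * m)) + 2 * m := by ring
      rw [h2]
      omega

private theorem mzc_odd (hm : 1 ≤ m) {x X : ℤ} (hX : X % 2 = 1) :
    FlatSub.carc m x = X ↔ m * (X - 1) < x ∧ x < m * (X + 1) := by
  have hm1 : (0 : ℤ) < m := by positivity
  rcases mzc_spec hm x with ⟨-, h1, h2⟩ | ⟨-, h1, h2, h3⟩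
  · constructor
    · intro h
      omega
    · rintro ⟨h4, h5⟩
      exfalso
      rw [h2] at h4 h5
      have h6 : X - 1 < FlatSub.carc m x := lt_of_mul_lt_mul_left h4 hm1.le
      have h7 : FlatSub.carc m x < X + 1 := lt_of_mul_lt_mul_left h5 hm1.le
      omega
  · constructor
    · rintro rfl
      exact ⟨h2, h3⟩
    · rintro ⟨h4, h5⟩
      have h6 : X - 1 < FlatSub.carc m x + 1 := lt_of_mul_lt_mul_left (h4.trans h3) hm1.le
      have h7 : FlatSub.carc m x - 1 < X + 1 := lt_of_mul_lt_mul_left (h2.trans h5) hm1.le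
      omega

private theorem mzc_even (hm : 1 ≤ m) {x X : ℤ} (hX : X % 2 = 0) :
    FlatSub.carc m x = X ↔ x = m * X := by
  have hm1 : (0 : ℤ) < m := by positivity
  rcases mzc_spec hm x with ⟨-, h1, h2⟩ | ⟨-, h1, h2, h3⟩
  · constructor
    · rintro rfl
      exact h2
    · intro h
      rw [h] at h2
      have h3 := mul_left_cancel₀ (ne_of_gt hm1) h2
      rw [← h] at h3
      exact h3.symm
  · constructor
    · intro h
      omega
    · intro h
      exfalso
      rw [h] at h2 h3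
      have h6 : FlatSub.carc m (m * X) - 1 < X := lt_of_mul_lt_mul_left h2 hm1.le
      have h7 : X < FlatSub.carc m (m * X) + 1 := lt_of_mul_lt_mul_left h3 hm1.le
      rw [h] at h1
      omega

private theorem mzc_two (y : Cell) (i : Fin 4) :
    car 2 y i = if (4 : ℤ) ∣ y i then y i / 2 else 2 * (y i / 4) + 1 := by
  unfold car
  norm_num

lemma low_neg (y : Cell) : low (-y) = - low y := by
  funext i
  unfold low
  simp only [Pi.neg_apply]
  split_ifs <;> omega

lemma car_even (hm : 1 ≤ m) {y : Cell} {i : Fin 4} : car m y i % 2 = 0 ↔ (2 * m : ℤ) ∣ y i := by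
  rw [FlatSub.car_apply]
  rcases mzc_spec hm (y i) with ⟨h0, h1, -⟩ | ⟨h0, h1, -⟩
  · exact ⟨fun _ => h0, fun _ => h1⟩
  · exact ⟨fun h => absurd h (by omega), fun h => absurd h h0⟩

lemma car_even_val (hm : 1 ≤ m) {y : Cell} {i : Fin 4} (h : car m y i % 2 = 0) :
    y i = m * car m y i := (mzc_even hm h).1 rfl

lemma car_odd_iff (hm : 1 ≤ m) {y : Cell} {i : Fin 4} {x : ℤ} (hx : x % 2 = 1) :
    car m y i = x ↔ m * (x - 1) < y i ∧ y i < m * (x + 1) := mzc_odd hm hx

lemma car_even_iff (hm : 1 ≤ m) {y : Cell} {i : Fin 4} {x : ℤ} (hx : x % 2 = 0) :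
    car m y i = x ↔ y i = m * x := mzc_even hm hx

/-- A coordinate which is odd in the fine cell is odd in the coarse cell. -/
lemma car_odd_of_odd (hm : 1 ≤ m) {y : Cell} {i : Fin 4} (h : y i % 2 = 1) : car m y i % 2 = 1 := by
  have := hm
  rw [FlatSub.car_apply]
  exact FlatSub.carc_odd h

/-- The carrier of a facet is the carrier or the facet of the carrier on the same side. -/
lemma car_add (hm : 1 ≤ m) {y : Cell} {i : Fin 4} (h : y i % 2 = 1) :
    (¬ (2 * m : ℤ) ∣ (y i + 1) ∧ car m (y + e i) = car m y) ∨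
      ((2 * m : ℤ) ∣ (y i + 1) ∧ car m (y + e i) = car m y + e i) := by
  have h1 := FlatSub.car_step hm h (Or.inl rfl : (1 : ℤ) = 1 ∨ (1 : ℤ) = -1)
  rw [one_smul] at h1
  by_cases hd : (2 * m : ℤ) ∣ (y i + 1)
  · rw [if_pos hd] at h1
    exact Or.inr ⟨hd, h1⟩
  · rw [if_neg hd] at h1
    exact Or.inl ⟨hd, h1⟩

lemma car_sub (hm : 1 ≤ m) {y : Cell} {i : Fin 4} (h : y i % 2 = 1) :
    (¬ (2 * m : ℤ) ∣ (y i - 1) ∧ car m (y - e i) = car m y) ∨
      ((2 * m : ℤ) ∣ (y i - 1) ∧ car m (y - e i) = car m y - e i) := by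
  have h1 := FlatSub.car_step hm h (Or.inr rfl : (-1 : ℤ) = 1 ∨ (-1 : ℤ) = -1)
  rw [neg_one_smul, ← sub_eq_add_neg, ← sub_eq_add_neg, ← sub_eq_add_neg] at h1
  by_cases hd : (2 * m : ℤ) ∣ (y i - 1)
  · rw [if_pos hd] at h1
    exact Or.inr ⟨hd, h1⟩
  · rw [if_neg hd] at h1
    exact Or.inl ⟨hd, h1⟩

lemma car_of_fct (hm : 1 ≤ m) {i : Fin 4} {y y' : Cell} (h : Fct i y y') :
    car m y' = car m y ∨ Fct i (car m y) (car m y') := by
  obtain ⟨h1, h2 | h2⟩ := h
  · rcases car_add hm h1 with ⟨-, h3⟩ | ⟨-, h3⟩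
    · left
      rw [h2, h3]
    · right
      exact ⟨car_odd_of_odd hm h1, Or.inl (by rw [h2, h3])⟩
  · rcases car_sub hm h1 with ⟨-, h3⟩ | ⟨-, h3⟩
    · left
      rw [h2, h3]
    · right
      exact ⟨car_odd_of_odd hm h1, Or.inr (by rw [h2, h3])⟩

lemma car_le (hm : 1 ≤ m) {y y' : Cell} (h : Le y y') : Le (car m y) (car m y') :=
  FlatSub.le_car hm h

lemma car_box (hm : 1 ≤ m) {n : Fin 4 → ℕ} {y : Cell} :
    y ∈ Box (fun i => m * n i) ↔ car m y ∈ Box n := by
  rw [mem_box, mem_box]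
  have hm1 : (0 : ℤ) < m := by positivity
  refine forall_congr' fun i => ?_
  rw [FlatSub.car_apply]
  push_cast
  have e1 : -(2 * ((m : ℤ) * (n i : ℤ))) = m * (-(2 * (n i : ℤ))) := by ring
  have e2 : 2 * ((m : ℤ) * (n i : ℤ)) = m * (2 * (n i : ℤ)) := by ring
  rw [e1, e2]
  rcases mzc_spec hm (y i) with ⟨-, h1, h2⟩ | ⟨-, h1, h2, h3⟩
  · conv_lhs => rw [h2]
    rw [mul_le_mul_iff_right₀ hm1, mul_le_mul_iff_right₀ hm1]
  · constructor
    · rintro ⟨h4, h5⟩
      have h6 : -(2 * (n i : ℤ)) < FlatSub.carc m (y i) + 1 :=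
        lt_of_mul_lt_mul_left (h4.trans_lt h3) hm1.le
      have h7 : FlatSub.carc m (y i) - 1 < 2 * (n i : ℤ) :=
        lt_of_mul_lt_mul_left (h2.trans_le h5) hm1.le
      omega
    · rintro ⟨h4, h5⟩
      constructor
      · refine le_trans (mul_le_mul_of_nonneg_left ?_ hm1.le) h2.le
        omega
      · refine le_trans h3.le (mul_le_mul_of_nonneg_left ?_ hm1.le)
        omega

lemma mem_fine (hm : 1 ≤ m) {n : Fin 4 → ℕ} {A : Finset Cell} (hA : A ⊆ Box n) {y : Cell} :
    y ∈ fine m n A ↔ car m y ∈ A := by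
  unfold fine
  rw [Finset.mem_filter, car_box hm]
  exact ⟨fun h => h.2, fun h => ⟨hA h, h⟩⟩

/-! ### `m = 2`: fine cells are pairs `low y ≤ car 2 y` -/

lemma low_add_car (y : Cell) : low y + car 2 y = y := by
  funext i
  rw [Pi.add_apply, mzc_two]
  unfold low
  split_ifs <;> omega

lemma low_le_car (y : Cell) : Le (low y) (car 2 y) := by
  intro i
  rw [mzc_two]
  unfold low
  split_ifs <;> omega

lemma low_of_le {s t : Cell} (h : Le s t) : low (s + t) = s := by
  funext i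
  have h1 := h i
  unfold low
  rw [Pi.add_apply]
  split_ifs <;> omega

lemma car_of_le {s t : Cell} (h : Le s t) : car 2 (s + t) = t := by
  funext i
  have h1 := h i
  rw [mzc_two, Pi.add_apply]
  split_ifs <;> omega

/-- The lower cell of a facet is the same or it is a cofacet in the same direction; exactly one of `low`, `car 2`
changes.  For `y i` odd, `y' = y ± e i`, `s = low y`, `t = car 2 y`, `t i = s i + d`: either `y' = y + d • e i`, `low y' = s + d • e i`,
`car 2 y' = t`, or `y' = y - d • e i`, `low y' = s`, `car 2 y' = t - d • e i`. -/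
lemma fct_cases {i : Fin 4} {y y' : Cell} (h : Fct i y y') :
    (car 2 y' = car 2 y ∧ Fct i (low y') (low y)) ∨
      (low y' = low y ∧ Fct i (car 2 y) (car 2 y')) := by
  rw [mzc_fct] at h
  obtain ⟨h1, h2, h3⟩ := h
  have hl : ∀ j, j ≠ i → low y' j = low y j := by
    intro j hj
    unfold low
    rw [h3 j hj]
  have hc : ∀ j, j ≠ i → car 2 y' j = car 2 y j := by
    intro j hj
    rw [mzc_two, mzc_two, h3 j hj]
  rw [mzc_fct, mzc_fct]
  have key : (car 2 y' i = car 2 y i ∧ low y' i % 2 = 1 ∧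
        (low y i = low y' i + 1 ∨ low y i = low y' i - 1)) ∨
      (low y' i = low y i ∧ car 2 y i % 2 = 1 ∧
        (car 2 y' i = car 2 y i + 1 ∨ car 2 y' i = car 2 y i - 1)) := by
    rw [mzc_two, mzc_two]
    unfold low
    split_ifs <;> omega
  rcases key with ⟨k1, k2, k3⟩ | ⟨k1, k2, k3⟩
  · left
    refine ⟨?_, k2, k3, fun j hj => (hl j hj).symm⟩
    funext j
    by_cases hj : j = i
    · rw [hj, k1]
    · exact hc j hj
  · right
    refine ⟨?_, k2, k3, hc⟩
    funext j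
    by_cases hj : j = i
    · rw [hj, k1]
    · exact hl j hj

lemma le_low {y y' : Cell} (h : Le y y') : Le (low y') (low y) := by
  intro i
  have h1 := h i
  unfold low
  split_ifs <;> omega

lemma conv_low {n : Fin 4 → ℕ} {F : Finset Cell} (hF : IsComplex F) :
    Conv ((Box (fun i => 2 * n i)).filter (fun y => low y ∉ F)) := by
  intro a ha c hc b hab hbc
  rw [Finset.mem_filter] at ha hc ⊢
  exact ⟨box_of_le hbc hc.1, fun h => hc.2 (hF _ h _ (le_low hbc))⟩

lemma conv_low' {n : Fin 4 → ℕ} {F : Finset Cell} (hF : IsComplex F) :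
    Conv ((Box (fun i => 2 * n i)).filter (fun y => car 2 y ∉ F ∧ low y ∈ F)) := by
  intro a ha c hc b hab hbc
  rw [Finset.mem_filter] at ha hc ⊢
  exact ⟨box_of_le hbc hc.1, fun h => ha.2.1 (hF _ h _ (car_le (by norm_num) hab)),
    hF _ ha.2.2 _ (le_low hab)⟩

end Cub
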