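import Pool.Agent.H33.CB.MzPhi
import Pool.Agent.H33.CB.Filq
import Pool.Agent.H33.CB.MzCone

/-!
# M1, step 2: the fibres of the cone of the subdivision map are acyclic

Fix `t ∈ A`.  `G` = the fine cells with carrier `t`: `y i = m * t i` if `t i` is even, `m (t i - 1) < y i < m (t i + 1)` if `t i` is odd.
Top right corner `y₀`: `y₀ i = m (t i + 1) - 1` for `t i` odd.  For `y ∈ G`, `y ≠ y₀`, let `j` be the first index with `y j ≠ y₀ j` (so `t j` is odd).
`G j` = those `y`.  `G j` is invariant under the toggle `y j` odd `↦ y + e j`, `y j` even `↦ y - e j` (`y j` odd and `≠ y₀ j` gives `y j + 1 < m (t j + 1)`;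
`y j` even gives `m (t j - 1) < y j - 1`, because `m (t j - 1)` is even), so it is acyclic by `acy_tog`.  Arrows do not increase `j`
(an arrow changes one coordinate `i` from odd to even: `i < j` makes `i` the new first index; `i ≥ j` does not change `j`; note
that `y + e i` leaves `G` if `y i = y₀ i`).  So `acy_fil` (with `P = ℕ`, `k = j`, `h = j`) shows that `G \ {y₀}` is acyclic
(`fib_acy`).  The cone at `t`: `{inl t, inr y₀} ∪ inr (G \ {y₀})`; there are no arrows from `G \ {y₀}` to `y₀` (`y₀` has maximal dimension in `G`, all
coordinates with `t i` odd are odd), and `{inl t, inr y₀}` is acyclic because the coefficient `phi m t y₀ = ± 1` is a unit and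
all other entries of the 2 x 2 matrix vanish.  `acy_split`.
-/

namespace Cub

variable {R : Type} [CommRing R]

/-- The fine cells with carrier `t`. -/
noncomputable def carFib (m : ℕ) (n : Fin 4 → ℕ) (t : Cell) : Finset Cell :=
  (Box (fun i => m * n i)).filter (fun y => car m y = t)

/-- The top right corner. -/
def corner (m : ℕ) (t : Cell) : Cell := fun i =>
  if t i % 2 = 0 then m * t i else m * (t i + 1) - 1

private theorem MzFib_mem {m : ℕ} (hm : 1 ≤ m) {n : Fin 4 → ℕ} {t : Cell} (ht : t ∈ Box n)
    {y : Cell} : y ∈ carFib m n t ↔ car m y = t := by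
  unfold carFib
  rw [Finset.mem_filter]
  constructor
  · exact fun h => h.2
  · intro h
    refine ⟨(car_box hm).2 ?_, h⟩
    rw [h]
    exact ht

private theorem MzFib_even_mul {x : ℤ} (m : ℕ) (hx : x % 2 = 1) :
    ((m : ℤ) * (x - 1)) % 2 = 0 ∧ ((m : ℤ) * (x + 1)) % 2 = 0 ∧
      (m : ℤ) * (x + 1) = (m : ℤ) * (x - 1) + 2 * m := by
  refine ⟨?_, ?_, by ring⟩
  · rw [Int.mul_emod]
    have : (x - 1) % 2 = 0 := by omega
    rw [this]
    simp
  · rw [Int.mul_emod]
    have : (x + 1) % 2 = 0 := by omega
    rw [this]
    simp

private theorem MzFib_corner_even {m : ℕ} {t : Cell} {i : Fin 4} (h : t i % 2 = 0) :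
    corner m t i = m * t i := by
  unfold corner
  rw [if_pos h]

private theorem MzFib_corner_odd {m : ℕ} {t : Cell} {i : Fin 4} (h : t i % 2 = 1) :
    corner m t i = m * (t i + 1) - 1 := by
  unfold corner
  rw [if_neg (by omega)]

lemma corner_top {m : ℕ} (hm : 1 ≤ m) (t : Cell) : Top m t (corner m t) := by
  constructor
  · funext i
    rcases Int.emod_two_eq_zero_or_one (t i) with h | h
    · rw [car_even_iff hm h]
      exact MzFib_corner_even h
    · rw [car_odd_iff hm h, MzFib_corner_odd h]
      obtain ⟨-, -, h3⟩ := MzFib_even_mul m h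
      constructor <;> omega
  · intro i
    rcases Int.emod_two_eq_zero_or_one (t i) with h | h
    · rw [MzFib_corner_even h, Int.mul_emod, h]
      simp
    · rw [MzFib_corner_odd h]
      obtain ⟨-, h2, -⟩ := MzFib_even_mul m h
      constructor
      · intro; exact h
      · intro; omega

/-- The first index at which the cells differ. -/
private def MzFib_fst (c y : Cell) : ℕ :=
  if y 0 ≠ c 0 then 0 else if y 1 ≠ c 1 then 1 else if y 2 ≠ c 2 then 2 else
    if y 3 ≠ c 3 then 3 else 4

private theorem MzFib_fst_le {c y : Cell} {l : Fin 4} (h : y l ≠ c l) :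
    MzFib_fst c y ≤ l.val := by
  unfold MzFib_fst
  fin_cases l <;> simp only [] at h ⊢ <;> split_ifs <;> simp_all

private theorem MzFib_fst_spec {c y : Cell} (h : y ≠ c) :
    ∃ l : Fin 4, MzFib_fst c y = l.val ∧ y l ≠ c l ∧ ∀ i < l, y i = c i := by
  unfold MzFib_fst
  by_cases h0 : y 0 = c 0
  · by_cases h1 : y 1 = c 1
    · by_cases h2 : y 2 = c 2
      · by_cases h3 : y 3 = c 3
        · exfalso
          apply h
          funext i
          fin_cases i <;> assumption
        · refine ⟨3, by simp [h0, h1, h2, h3], h3, ?_⟩
          intro i hi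
          fin_cases i
          · exact h0
          · exact h1
          · exact h2
          · exact absurd hi (by decide)
      · refine ⟨2, by simp [h0, h1, h2], h2, ?_⟩
        intro i hi
        fin_cases i
        · exact h0
        · exact h1
        · exact absurd hi (by decide)
        · exact absurd hi (by decide)
    · refine ⟨1, by simp [h0, h1], h1, ?_⟩
      intro i hi
      fin_cases i
      · exact h0
      · exact absurd hi (by decide)
      · exact absurd hi (by decide)
      · exact absurd hi (by decide)
  · refine ⟨0, by simp [h0], h0, ?_⟩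
    intro i hi
    exact absurd hi (Fin.not_lt_zero i)

private theorem MzFib_fst_eq {c y : Cell} {l : Fin 4} :
    MzFib_fst c y = l.val ↔ (y l ≠ c l ∧ ∀ i < l, y i = c i) := by
  constructor
  · intro h
    have hne : y ≠ c := by
      rintro rfl
      unfold MzFib_fst at h
      simp at h
      omega
    obtain ⟨l', h1, h2, h3⟩ := MzFib_fst_spec hne
    have : l' = l := Fin.ext (h1.symm.trans h)
    subst this
    exact ⟨h2, h3⟩
  · rintro ⟨h2, h3⟩
    have hne : y ≠ c := fun h => h2 (congrFun h l)
    obtain ⟨l', h1, h2', h3'⟩ := MzFib_fst_spec hne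
    rw [h1]
    rcases lt_trichotomy l' l with h | h | h
    · exact absurd (h3 l' h) h2'
    · rw [h]
    · exact absurd (h3' l h) h2

private theorem MzFib_e_self (i : Fin 4) : e i i = 1 := by simp [e]

private theorem MzFib_e_ne {i j : Fin 4} (h : j ≠ i) : e i j = 0 := by simp [e, h]

private theorem MzFib_between {a b c : Cell} (h1 : Le a b) (h2 : Le b c) (j : Fin 4) :
    b j = a j ∨ b j = c j := by
  rcases h2 j with h | ⟨h, h'⟩
  · exact Or.inr h
  · rcases h1 j with h3 | ⟨h3, _⟩
    · exact Or.inl h3.symm
    · exfalso
      rcases h' with h' | h' <;> omega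

private theorem MzFib_conv {m : ℕ} (hm : 1 ≤ m) {a b c t : Cell} (ha : car m a = t)
    (hc : car m c = t) (h1 : Le a b) (h2 : Le b c) : car m b = t := by
  have h3 := car_le hm h1
  have h4 := car_le hm h2
  rw [ha] at h3
  rw [hc] at h4
  exact le_antisymm' h4 h3

private theorem MzFib_flat {m : ℕ} {a : Cell → Cell → ZMod 3} {A : Finset Cell} {t : Cell}
    (hA : Conv A) (h : ∀ y ∈ A, car m y = t) : Flat (suba m a) A := by
  intro c hc i j hij hi hj s u hs hu hd
  have hstep : ∀ (x : Cell) (k : Fin 4) (r : ℤ), x k % 2 = 1 → (r = 1 ∨ r = -1) →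
      Le (x + r • e k) x := by
    intro x k r hx hr l
    by_cases hl : l = k
    · subst hl
      right
      refine ⟨hx, ?_⟩
      have : (x + r • e l) l = x l + r := by simp [MzFib_e_self]
      rw [this]
      rcases hr with rfl | rfl
      · right; rfl
      · left; ring
    · left
      simp [MzFib_e_ne hl]
  have hj' : (c + s • e i) j % 2 = 1 := by
    have : (c + s • e i) j = c j := by simp [MzFib_e_ne hij.symm]
    rw [this]; exact hj
  have hi' : (c + u • e j) i % 2 = 1 := by
    have : (c + u • e j) i = c i := by simp [MzFib_e_ne hij]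
    rw [this]; exact hi
  have h1 : c + s • e i ∈ A :=
    hA _ hd _ hc _ (hstep _ j u hj' hu) (hstep c i s hi hs)
  have h2 : c + u • e j ∈ A := by
    refine hA _ hd _ hc _ ?_ (hstep c j u hj hu)
    have := hstep (c + u • e j) i s hi' hs
    have e1 : c + u • e j + s • e i = c + s • e i + u • e j := by abel
    rw [e1] at this
    exact this
  open FlatSub in
  rw [suba_eq ((h _ hc).trans (h _ h1).symm), suba_eq ((h _ h1).trans (h _ hd).symm),
    suba_eq ((h _ hc).trans (h _ h2).symm), suba_eq ((h _ h2).trans (h _ hd).symm)]

private theorem MzFib_isCx {m : ℕ} {ζ : R} (hζ : ζ ^ 3 = 1)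
    {a : Cell → Cell → ZMod 3} {A : Finset Cell} {t : Cell}
    (hA : Conv A) (h : ∀ y ∈ A, car m y = t) : IsCx (dcoef ζ (suba m a)) A :=
  isCx_dcoef hζ hA (MzFib_flat hA h)

private theorem MzFib_unit {ζ : R} (hζ : ζ ^ 3 = 1) (a : Cell → Cell → ZMod 3)
    (A : Finset Cell) : UnitD (dcoef ζ a) A := by
  intro x _ y _
  constructor
  · intro h
    simp [dcoef, h]
  · intro h
    obtain ⟨i, hi⟩ := fct_of_inc h
    exact isUnit_dcoef hζ a hi

/-- `G \ {y₀}` is acyclic. -/
theorem fib_acy {m : ℕ} (hm : 1 ≤ m) {n : Fin 4 → ℕ} {ζ : R} (hζ : ζ ^ 3 = 1)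
    {a : Cell → Cell → ZMod 3} {t : Cell} (ht : t ∈ Box n) :
    Acy (dcoef ζ (suba m a)) ((carFib m n t).erase (corner m t)) := by
  have hmem : ∀ y, y ∈ (carFib m n t).erase (corner m t) ↔ y ≠ corner m t ∧ car m y = t := by
    intro y
    rw [Finset.mem_erase, MzFib_mem hm ht]
  obtain ⟨hc1, hc2⟩ := corner_top hm t
  -- differing coordinates are odd in `t`
  have hodd : ∀ y, car m y = t → ∀ i, y i ≠ corner m t i → t i % 2 = 1 := by
    intro y hy i hi
    rcases Int.emod_two_eq_zero_or_one (t i) with h | h
    · exfalso
      apply hi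
      have h1 : car m y i = t i := congrFun hy i
      rw [car_even_iff hm h] at h1
      rw [h1, MzFib_corner_even h]
    · exact h
  have hconv : Conv ((carFib m n t).erase (corner m t)) := by
    intro x hx z hz y hxy hyz
    rw [hmem] at hx hz ⊢
    refine ⟨?_, MzFib_conv hm hx.2 hz.2 hxy hyz⟩
    rintro rfl
    apply hz.1
    funext i
    rcases hyz i with h | ⟨h, h'⟩
    · exact h.symm
    · exfalso
      have h2 : t i % 2 = 1 := by
        have := car_odd_of_odd hm h
        rw [hz.2] at this
        exact this
      have h3 := (hc2 i).2 h2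
      rcases h' with h' | h' <;> omega
  have hcx : IsCx (dcoef ζ (suba m a)) ((carFib m n t).erase (corner m t)) :=
    MzFib_isCx hζ hconv (fun y hy => ((hmem y).1 hy).2)
  refine acy_fil hcx (MzFib_fst (corner m t)) (fun p => (p : ℤ)) ?_ ?_
  · intro x hx y hy hxy
    rw [hmem] at hx hy
    obtain ⟨i, hi⟩ := fct_of_dcoef hxy
    obtain ⟨j, hj1, hj2, hj3⟩ := MzFib_fst_spec hx.1
    have hyi : y i ≠ x i ∧ y i % 2 = 0 := by
      rcases hi with ⟨h1, rfl | rfl⟩
      · have : (x + e i) i = x i + 1 := by simp [MzFib_e_self]
        rw [this]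
        omega
      · have : (x - e i) i = x i - 1 := by simp [MzFib_e_self]
        rw [this]
        omega
    have hyo : ∀ k, k ≠ i → y k = x k := by
      intro k hk
      rcases hi with ⟨h1, rfl | rfl⟩
      · simp [MzFib_e_ne hk]
      · simp [MzFib_e_ne hk]
    have hle : MzFib_fst (corner m t) y ≤ MzFib_fst (corner m t) x := by
      rw [hj1]
      by_cases hij : i < j
      · have h1 := hj3 i hij
        have h2 : y i ≠ corner m t i := by rw [← h1]; exact hyi.1
        exact (MzFib_fst_le h2).trans (le_of_lt hij)
      · apply MzFib_fst_le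
        by_cases hij' : j = i
        · subst hij'
          have h2 := (hc2 j).2 (hodd x hx.2 j hj2)
          intro h3
          rw [h3] at hyi
          omega
        · rw [hyo j hij']
          exact hj2
    rcases hle.eq_or_lt with h | h
    · exact Or.inl h
    · right
      exact_mod_cast h
  · intro p
    by_cases hp : p < 4
    · obtain ⟨l, hl⟩ : ∃ l : Fin 4, l.val = p := ⟨⟨p, hp⟩, rfl⟩
      subst hl
      have hmem' : ∀ y, y ∈ ((carFib m n t).erase (corner m t)).filter
          (fun x => MzFib_fst (corner m t) x = l.val) ↔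
          car m y = t ∧ y l ≠ corner m t l ∧ ∀ i < l, y i = corner m t i := by
        intro y
        rw [Finset.mem_filter, hmem, MzFib_fst_eq]
        constructor
        · rintro ⟨⟨-, h2⟩, h3, h4⟩
          exact ⟨h2, h3, h4⟩
        · rintro ⟨h2, h3, h4⟩
          exact ⟨⟨fun h => h3 (congrFun h l), h2⟩, h3, h4⟩
      have hconv' : Conv (((carFib m n t).erase (corner m t)).filter
          (fun x => MzFib_fst (corner m t) x = l.val)) := by
        intro x hx z hz y hxy hyz
        rw [hmem'] at hx hz ⊢
        refine ⟨MzFib_conv hm hx.1 hz.1 hxy hyz, ?_, ?_⟩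
        · rcases MzFib_between hxy hyz l with h | h
          · rw [h]; exact hx.2.1
          · rw [h]; exact hz.2.1
        · intro i hi
          rcases MzFib_between hxy hyz i with h | h
          · rw [h]; exact hx.2.2 i hi
          · rw [h]; exact hz.2.2 i hi
      have hcar : ∀ (y : Cell) (r : ℤ), car m y = t →
          m * (t l - 1) < y l + r → y l + r < m * (t l + 1) → t l % 2 = 1 →
          car m (y + r • e l) = t := by
        intro y r hy h1 h2 h3
        funext i
        have h4 : car m y i = t i := congrFun hy i
        by_cases hi : i = l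
        · subst hi
          rw [car_odd_iff hm h3]
          have : (y + r • e i) i = y i + r := by simp [MzFib_e_self]
          rw [this]
          exact ⟨h1, h2⟩
        · have h5 : (y + r • e l) i = y i := by simp [MzFib_e_ne hi]
          rcases Int.emod_two_eq_zero_or_one (t i) with h | h
          · rw [car_even_iff hm h] at h4 ⊢
            rw [h5]; exact h4
          · rw [car_odd_iff hm h] at h4 ⊢
            rw [h5]; exact h4
      have hoth : ∀ (y : Cell) (r : ℤ) (i : Fin 4), i < l → (y + r • e l) i = y i := by
        intro y r i hi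
        simp [MzFib_e_ne (ne_of_lt hi)]
      have hself : ∀ (y : Cell) (r : ℤ), (y + r • e l) l = y l + r := by
        intro y r
        simp [MzFib_e_self]
      refine acy_tog (MzFib_isCx hζ hconv' (fun y hy => ((hmem' y).1 hy).1))
        (MzFib_unit hζ _ _) l 1 (Or.inl rfl) ?_ ?_
      · intro y hy hyl
        rw [hmem'] at hy ⊢
        obtain ⟨h1, h2, h3⟩ := hy
        have h4 := hodd y h1 l h2
        have h5 : car m y l = t l := congrFun h1 l
        rw [car_odd_iff hm h4] at h5
        obtain ⟨h6, h7, h8⟩ := MzFib_even_mul m h4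
        rw [MzFib_corner_odd h4] at h2
        refine ⟨hcar y 1 h1 (by omega) (by omega) h4, ?_, ?_⟩
        · rw [hself, MzFib_corner_odd h4]
          omega
        · intro i hi
          rw [hoth y 1 i hi]
          exact h3 i hi
      · intro y hy hyl
        rw [hmem'] at hy ⊢
        obtain ⟨h1, h2, h3⟩ := hy
        have h4 := hodd y h1 l h2
        have h5 : car m y l = t l := congrFun h1 l
        rw [car_odd_iff hm h4] at h5
        obtain ⟨h6, h7, h8⟩ := MzFib_even_mul m h4
        rw [MzFib_corner_odd h4] at h2
        have e1 : y - (1 : ℤ) • e l = y + (-1 : ℤ) • e l := by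
          rw [neg_smul, sub_eq_add_neg]
        rw [e1]
        refine ⟨hcar y (-1) h1 (by omega) (by omega) h4, ?_, ?_⟩
        · rw [hself, MzFib_corner_odd h4]
          omega
        · intro i hi
          rw [hoth y (-1) i hi]
          exact h3 i hi
    · have h0 : ((carFib m n t).erase (corner m t)).filter
          (fun x => MzFib_fst (corner m t) x = p) = ∅ := by
        rw [Finset.filter_eq_empty_iff]
        intro y hy h
        rw [hmem] at hy
        obtain ⟨l, hl, -⟩ := MzFib_fst_spec hy.1
        apply hp
        rw [← h, hl]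
        exact l.isLt
      rw [h0]
      intro x _
      refine ⟨x, ?_⟩
      funext b
      exact absurd b.2 (Finset.notMem_empty _)

private theorem MzFib_diag {ζ : R} {a : Cell → Cell → ZMod 3} (c : Cell) :
    dcoef ζ a c c = 0 := by
  by_contra h
  obtain ⟨i, hi⟩ := fct_of_dcoef h
  rcases hi with ⟨-, h | h⟩
  · have h1 := congrFun h i
    have h2 : (c + e i) i = c i + 1 := by simp [MzFib_e_self]
    rw [h2] at h1
    omega
  · have h1 := congrFun h i
    have h2 : (c - e i) i = c i - 1 := by simp [MzFib_e_self]
    rw [h2] at h1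
    omega

/-- The fibre of the cone is acyclic. -/
theorem fib_cone {m : ℕ} (hm : 1 ≤ m) {n : Fin 4 → ℕ} {ζ : R} (hζ : ζ ^ 3 = 1)
    {a : Cell → Cell → ZMod 3} {t : Cell} (ht : t ∈ Box n) :
    Acy (cone (dcoef ζ a) (dcoef ζ (suba m a)) (fun x y => (phi m x y : R)))
      (coneSet {t} (carFib m n t)) := by
  have hct := corner_top hm t
  have hcG : corner m t ∈ carFib m n t := (MzFib_mem hm ht).2 hct.1
  have hconv : Conv (carFib m n t) := by
    intro x hx z hz y hxy hyz
    rw [MzFib_mem hm ht] at hx hz ⊢
    exact MzFib_conv hm hx hz hxy hyz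
  have hE : IsCx (dcoef ζ (suba m a)) (carFib m n t) :=
    MzFib_isCx hζ hconv (fun y hy => (MzFib_mem hm ht).1 hy)
  have hD : IsCx (dcoef ζ a) {t} := by
    intro x hx y hy
    rw [Finset.mem_singleton] at hx hy
    subst hx
    subst hy
    rw [Finset.sum_singleton, MzFib_diag, mul_zero]
  have hfine : fine m n {t} = carFib m n t := by
    ext y
    unfold fine carFib
    rw [Finset.mem_filter, Finset.mem_filter, Finset.mem_singleton]
  have hcx := isCx_cone (P := fun x y => (phi m x y : R)) hD hE (by
    intro x hx y hy
    have := phi_chain hm (n := n) (A := {t}) (by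
      rw [Finset.singleton_subset_iff]; exact ht) ζ a x hx y (by rw [hfine]; exact hy)
    rw [hfine] at this
    exact this)
  have hun : coneSet (∅ : Finset Cell) ((carFib m n t).erase (corner m t)) ∪
      coneSet {t} {corner m t} = coneSet {t} (carFib m n t) := by
    ext x
    unfold coneSet
    rw [Finset.mem_union]
    rcases x with x | x
    · simp
    · simp only [Finset.inr_mem_disjSum, Finset.mem_erase, Finset.mem_singleton]
      constructor
      · rintro (h | h)
        · exact h.2
        · rw [h]; exact hcG
      · intro h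
        by_cases hx : x = corner m t
        · exact Or.inr hx
        · exact Or.inl ⟨hx, h⟩
  rw [← hun] at hcx ⊢
  refine (acy_split hcx ?_ ?_).1 ?_ ?_
  · intro x hx y hy
    rcases x with x | x
    · unfold coneSet at hx
      rw [Finset.inl_mem_disjSum] at hx
      exact absurd hx (Finset.notMem_empty _)
    · rcases y with y | y
      · rfl
      · unfold coneSet at hx hy
        rw [Finset.inr_mem_disjSum, Finset.mem_erase, MzFib_mem hm ht] at hx
        rw [Finset.inr_mem_disjSum, Finset.mem_singleton] at hy
        subst hy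
        change dcoef ζ (suba m a) x (corner m t) = 0
        by_contra h
        obtain ⟨i, hi⟩ := fct_of_dcoef h
        have h1 : t i % 2 = 1 := by
          have := car_odd_of_odd hm hi.1
          rw [hx.2] at this
          exact this
        have h2 := (hct.2 i).2 h1
        rcases hi with ⟨h3, h4 | h4⟩
        · have h5 := congrFun h4 i
          have h6 : (x + e i) i = x i + 1 := by simp [MzFib_e_self]
          rw [h6] at h5
          omega
        · have h5 := congrFun h4 i
          have h6 : (x - e i) i = x i - 1 := by simp [MzFib_e_self]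
          rw [h6] at h5
          omega
  · rw [Finset.disjoint_left]
    intro x hx hy
    unfold coneSet at hx hy
    rcases x with x | x
    · rw [Finset.inl_mem_disjSum] at hx
      exact absurd hx (Finset.notMem_empty _)
    · rw [Finset.inr_mem_disjSum, Finset.mem_erase] at hx
      rw [Finset.inr_mem_disjSum, Finset.mem_singleton] at hy
      exact hx.1 hy
  · exact acy_cone_empty.2 (fib_acy hm hζ ht)
  · have hphi : IsUnit ((phi m t (corner m t) : ℤ) : R) := by
      unfold phi
      rw [if_pos hct]
      rw [isUnit_iff_exists_inv]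
      refine ⟨((lam t * lam (corner m t) : ℤ) : R), ?_⟩
      rw [← Int.cast_mul]
      have : lam t * lam (corner m t) * (lam t * lam (corner m t)) = 1 := by
        have h1 := lam_sq t
        have h2 := lam_sq (corner m t)
        calc lam t * lam (corner m t) * (lam t * lam (corner m t))
            = (lam t * lam t) * (lam (corner m t) * lam (corner m t)) := by ring
          _ = 1 := by rw [h1, h2, one_mul]
      rw [this, Int.cast_one]
    have hcases : ∀ x : Cell ⊕ Cell, x ∈ coneSet {t} {corner m t} →
        x = Sum.inl t ∨ x = Sum.inr (corner m t) := by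
      intro x hx
      unfold coneSet at hx
      rcases x with x | x
      · rw [Finset.inl_mem_disjSum, Finset.mem_singleton] at hx
        exact Or.inl (congrArg Sum.inl hx)
      · rw [Finset.inr_mem_disjSum, Finset.mem_singleton] at hx
        exact Or.inr (congrArg Sum.inr hx)
    have hin1 : (Sum.inl t : Cell ⊕ Cell) ∈ coneSet {t} {corner m t} := by
      unfold coneSet
      rw [Finset.inl_mem_disjSum, Finset.mem_singleton]
    have hin2 : (Sum.inr (corner m t) : Cell ⊕ Cell) ∈ coneSet {t} {corner m t} := by
      unfold coneSet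
      rw [Finset.inr_mem_disjSum, Finset.mem_singleton]
    refine match_aux (fun x => Sum.elim (fun _ => Sum.inr (corner m t)) (fun _ => Sum.inl t) x)
      ?_ ?_ ?_
    · intro x hx
      rcases hcases x hx with rfl | rfl
      · exact ⟨hin2, rfl, by simp⟩
      · exact ⟨hin1, rfl, by simp⟩
    · intro x hx y hy hxy
      rcases hcases x hx with rfl | rfl <;> rcases hcases y hy with rfl | rfl
      · exfalso
        apply hxy
        change - dcoef ζ a t t = 0
        rw [MzFib_diag, neg_zero]
      · rfl
      · exact absurd rfl hxy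
      · exfalso
        apply hxy
        exact MzFib_diag _
    · intro x hx
      rcases hcases x hx with rfl | rfl
      · left
        exact hphi
      · right
        exact hphi

end Cub
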