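import Pool.Agent.H33.CB.MzPsi
import Pool.Agent.H33.CB.MzCone

/-!
# M2, step 3: the fibres over `s` (`low y = s`)

`lowFib n s`: `y i = 2 s i` for `s i` odd, `y i ∈ {2 s i - 1, 2 s i, 2 s i + 1}` for `s i` even (inside the box).

`lowfib_cone` (`s ∈ inn n`): as in `MzFib`: corner `y₀ i = 2 s i + 1` for `s i` even; the rest of the fibre is filtered by the first index `j` with
`s j` even, `y j ≠ 2 s j + 1`; toggle in direction `j`: `y j = 2 s j - 1` odd `↦ y + e j`, `y j = 2 s j` even `↦ y - e j` (`acy_tog`); arrows do not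
increase `j`.  Cone: `{inl s, inr y₀}` (`psi s y₀` is a unit) and the rest (`acy_split`; no arrow goes to `y₀`).  The chain map identity on this
fibre, needed for `IsCx` of the cone, follows from `psi_chain` (the arrows from `s` to other `b` contribute nothing to `y` with `low y = s`).
`lowfib_bd` (`s ∈ bd n`): choose `i` with `s i = 2 n i` or `s i = - 2 n i`; then `y i ∈ {2 s i - 1, 2 s i}` (resp. `{2 s i, 2 s i + 1}`) and the whole
fibre is invariant under the toggle in direction `i` (`acy_tog` with constant `1`, resp. `-1`).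
The local system `suba 2 a` is flat on the fibre because `a` is flat on `{t ∈ Box n | s ≤ t}`, a subset of `Box n \ F`.
-/

namespace Cub

variable {R : Type} [CommRing R]

/-- The half lattice cells with lower cell `s`. -/
noncomputable def lowFib (n : Fin 4 → ℕ) (s : Cell) : Finset Cell :=
  (Box (fun i => 2 * n i)).filter (fun y => low y = s)

private lemma low_iff (y : Cell) (i : Fin 4) (x : ℤ) : low y i = x ↔
    (x % 2 = 1 ∧ y i = 2 * x) ∨
      (x % 2 = 0 ∧ (y i = 2 * x ∨ y i = 2 * x + 1 ∨ y i = 2 * x - 1)) := by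
  unfold low
  split_ifs <;> omega

private lemma mem_lowFib {n : Fin 4 → ℕ} {s y : Cell} :
    y ∈ lowFib n s ↔ y ∈ Box (fun i => 2 * n i) ∧ low y = s := by
  unfold lowFib
  rw [Finset.mem_filter]

private lemma conv_lowFib (n : Fin 4 → ℕ) (s : Cell) : Conv (lowFib n s) := by
  intro a ha c hc b hab hbc
  rw [mem_lowFib] at ha hc ⊢
  refine ⟨isComplex_box _ c hc.1 b hbc, ?_⟩
  have h1 := le_low hab
  have h2 := le_low hbc
  rw [ha.2] at h1
  rw [hc.2] at h2
  exact le_antisymm' h1 h2

private lemma cx_lowFib {n : Fin 4 → ℕ} {F : Finset Cell} (hF : IsComplex F) {ζ : R}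
    (hζ : ζ ^ 3 = 1) {a : Cell → Cell → ZMod 3} (hf : Flat a (Box n \ F)) {s : Cell}
    (hs : s ∉ F) : IsCx (dcoef ζ (suba 2 a)) (lowFib n s) := by
  refine isCx_dcoef hζ (conv_lowFib n s) (flat_mono ?_ (flat_suba (m := 2) (n := n) (by norm_num)
      (conv_sdiff (isComplex_box n) hF) hf))
  intro y hy
  rw [mem_lowFib] at hy
  rw [mem_fine (by norm_num) Finset.sdiff_subset, Finset.mem_sdiff]
  refine ⟨(car_box (by norm_num)).1 hy.1, fun h => hs ?_⟩
  rw [← hy.2]
  exact hF _ h _ (low_le_car y)

private lemma unit_zeta {ζ : R} (hζ : ζ ^ 3 = 1) : IsUnit ζ :=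
  IsUnit.of_pow_eq_one hζ (by norm_num)

private lemma acy_empty {ι : Type} [DecidableEq ι] (D : ι → ι → R) : Acy D (∅ : Finset ι) := by
  intro x _
  refine ⟨x, ?_⟩
  funext b
  exact absurd b.2 (Finset.notMem_empty _)

private lemma isCx_piece {ι : Type} [DecidableEq ι] {D : ι → ι → R} {B : Finset ι}
    (hcx : IsCx D B) (f : ι → ℤ) (hf : ∀ a ∈ B, ∀ b ∈ B, D a b ≠ 0 → f b ≤ f a) (k : ℤ) :
    IsCx D (B.filter (fun a => f a = k)) := by
  intro a ha c hc
  rw [Finset.mem_filter] at ha hc
  rw [← hcx a ha.1 c hc.1]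
  refine Finset.sum_subset (Finset.filter_subset _ _) ?_
  intro b hb hnb
  by_contra h
  have h1 : D a b ≠ 0 := fun h' => h (by rw [h', zero_mul])
  have h2 : D b c ≠ 0 := fun h' => h (by rw [h', mul_zero])
  have h3 := hf a ha.1 b hb h1
  have h4 := hf b hb c hc.1 h2
  apply hnb
  rw [Finset.mem_filter]
  refine ⟨hb, ?_⟩
  rw [ha.2] at h3
  rw [hc.2] at h4
  exact le_antisymm h3 h4

/-- The coordinate `j` is not the one of the corner. -/
private def bad (s y : Cell) (j : Fin 4) : Prop := s j % 2 = 0 ∧ y j ≠ 2 * s j + 1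

open Classical in
/-- The first bad coordinate. -/
private noncomputable def fj (s y : Cell) : ℤ :=
  if bad s y 0 then 0 else if bad s y 1 then 1 else if bad s y 2 then 2 else
    if bad s y 3 then 3 else 4

private lemma fj_mono {s a b : Cell} (h : ∀ k, bad s a k → bad s b k) : fj s b ≤ fj s a := by
  have h0 := h 0
  have h1 := h 1
  have h2 := h 2
  have h3 := h 3
  unfold fj
  split_ifs <;> first | omega | (exfalso; tauto)

private lemma fj_congr {s a b : Cell} (h : ∀ k, bad s a k ↔ bad s b k) : fj s b = fj s a :=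
  le_antisymm (fj_mono fun k => (h k).1) (fj_mono fun k => (h k).2)

private lemma fj_cases (s y : Cell) : (∃ j : Fin 4, fj s y = j.val ∧ bad s y j) ∨
    (fj s y = 4 ∧ ∀ j, ¬ bad s y j) := by
  unfold fj
  by_cases h0 : bad s y 0
  · left; exact ⟨0, by rw [if_pos h0]; rfl, h0⟩
  by_cases h1 : bad s y 1
  · left; exact ⟨1, by rw [if_neg h0, if_pos h1]; rfl, h1⟩
  by_cases h2 : bad s y 2
  · left; exact ⟨2, by rw [if_neg h0, if_neg h1, if_pos h2]; rfl, h2⟩
  by_cases h3 : bad s y 3
  · left; exact ⟨3, by rw [if_neg h0, if_neg h1, if_neg h2, if_pos h3]; rfl, h3⟩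
  · right
    rw [if_neg h0, if_neg h1, if_neg h2, if_neg h3]
    refine ⟨rfl, fun j => ?_⟩
    fin_cases j
    · exact h0
    · exact h1
    · exact h2
    · exact h3

/-- The corner. -/
private def cor (s : Cell) : Cell := fun i => if s i % 2 = 0 then 2 * s i + 1 else 2 * s i

private lemma low_cor (s : Cell) : low (cor s) = s := by
  funext i
  rw [low_iff]
  unfold cor
  split_ifs <;> omega

private lemma inn_bounds {n : Fin 4 → ℕ} {s : Cell} (hs : s ∈ inn n) (i : Fin 4) :
    -(2 * (n i : ℤ)) < s i ∧ s i < 2 * (n i : ℤ) := by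
  unfold inn at hs
  rw [Finset.mem_sdiff, mem_bd, mem_box] at hs
  have h1 := hs.1 i
  have h2 : ¬ (s i = 2 * (n i : ℤ) ∨ s i = -(2 * (n i : ℤ))) := fun h => hs.2 ⟨hs.1, i, h⟩
  omega

private lemma fib_inn {n : Fin 4 → ℕ} {s y : Cell} (hs : s ∈ inn n) :
    y ∈ lowFib n s ↔ low y = s := by
  rw [mem_lowFib]
  refine ⟨fun h => h.2, fun h => ⟨?_, h⟩⟩
  rw [mem_box]
  intro i
  have h1 := inn_bounds hs i
  have h2 := (low_iff y i (s i)).1 (by rw [h])
  push_cast
  omega

private lemma add_e (y : Cell) (i : Fin 4) (s : ℤ) (k : Fin 4) :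
    (y + s • e i) k = if k = i then y k + s else y k := by
  by_cases h : k = i
  · subst h; simp [e]
  · simp [e, h]

private lemma sub_e (y : Cell) (i : Fin 4) (s : ℤ) (k : Fin 4) :
    (y - s • e i) k = if k = i then y k - s else y k := by
  have h : y - s • e i = y + (-s) • e i := by rw [neg_smul, sub_eq_add_neg]
  rw [h, add_e]
  rfl

/-- Arrows make coordinates bad. -/
private lemma bad_arrow {ζ : R} {a : Cell → Cell → ZMod 3} {s y y' : Cell}
    (hy' : low y' = s) (h : dcoef ζ (suba 2 a) y y' ≠ 0) (k : Fin 4) (hk : bad s y k) :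
    bad s y' k := by
  obtain ⟨i, hi, h'⟩ := fct_of_dcoef h
  refine ⟨hk.1, ?_⟩
  by_cases hki : k = i
  · subst hki
    have h1 : y' k = y k + 1 ∨ y' k = y k - 1 := by
      rcases h' with rfl | rfl
      · left; simp [e]
      · right; simp [e]
    omega
  · have h1 : y' k = y k := by
      rcases h' with rfl | rfl
      · simp [e, hki]
      · simp [e, hki]
    rw [h1]
    exact hk.2

/-- The fibre without the corner is acyclic. -/
private lemma fib_rest {n : Fin 4 → ℕ} {F : Finset Cell} {ζ : R}
    (hζ : ζ ^ 3 = 1) {a : Cell → Cell → ZMod 3} {s : Cell}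
    (hs : s ∈ inn n \ F)
    (hcx : IsCx (dcoef ζ (suba 2 a)) ((lowFib n s).erase (cor s))) :
    Acy (dcoef ζ (suba 2 a)) ((lowFib n s).erase (cor s)) := by
  rw [Finset.mem_sdiff] at hs
  have hmon : ∀ y ∈ (lowFib n s).erase (cor s), ∀ y' ∈ (lowFib n s).erase (cor s),
      dcoef ζ (suba 2 a) y y' ≠ 0 → fj s y' ≤ fj s y := by
    intro y hy y' hy' h
    rw [Finset.mem_erase, fib_inn hs.1] at hy hy'
    exact fj_mono (bad_arrow hy'.2 h)
  refine acy_filt hcx (fj s) hmon fun k => ?_
  have hcxk := isCx_piece hcx (fj s) hmon k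
  by_cases hk : ∃ j : Fin 4, k = j.val
  · obtain ⟨j, rfl⟩ := hk
    have hj : ∀ y ∈ ((lowFib n s).erase (cor s)).filter (fun y => fj s y = (j.val : ℤ)),
        low y = s ∧ bad s y j := by
      intro y hy
      rw [Finset.mem_filter, Finset.mem_erase, fib_inn hs.1] at hy
      refine ⟨hy.1.2, ?_⟩
      rcases fj_cases s y with ⟨j', h1, h2⟩ | ⟨h1, _⟩
      · have : j' = j := by
          apply Fin.ext
          have := hy.2
          rw [h1] at this
          exact_mod_cast this
        rw [← this]
        exact h2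
      · have h2 := hy.2
        rw [h1] at h2
        have := j.isLt
        omega
    -- membership of a modified cell
    have hmem : ∀ y ∈ ((lowFib n s).erase (cor s)).filter (fun y => fj s y = (j.val : ℤ)),
        ∀ z : Cell, (∀ i, i ≠ j → z i = y i) → low z j = s j → bad s z j →
        z ∈ ((lowFib n s).erase (cor s)).filter (fun y => fj s y = (j.val : ℤ)) := by
      intro y hy z hz hl hb
      have hy1 := hj y hy
      rw [Finset.mem_filter, Finset.mem_erase, fib_inn hs.1] at hy ⊢
      refine ⟨⟨?_, ?_⟩, ?_⟩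
      · rintro rfl
        apply hb.2
        unfold cor
        rw [if_pos hb.1]
      · funext i
        by_cases hi : i = j
        · rw [hi]; exact hl
        · have h1 : low z i = low y i := by
            unfold low
            rw [hz i hi]
          rw [h1, hy1.1]
      · rw [← hy.2]
        apply fj_congr
        intro i
        by_cases hi : i = j
        · rw [hi]; exact ⟨fun _ => hb, fun _ => hy1.2⟩
        · unfold bad
          rw [hz i hi]
    refine acy_tog hcxk (unitD_dcoef (unit_zeta hζ) _ _) j 1 (Or.inl rfl) ?_ ?_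
    · intro y hy hodd
      obtain ⟨h1, h2⟩ := hj y hy
      have h3 := (low_iff y j (s j)).1 (by rw [h1])
      obtain ⟨h4, h5⟩ := h2
      refine hmem y hy _ (fun i hi => ?_) ?_ ?_
      · rw [add_e, if_neg hi]
      · rw [low_iff, add_e, if_pos rfl]
        omega
      · refine ⟨h4, ?_⟩
        rw [add_e, if_pos rfl]
        omega
    · intro y hy heven
      obtain ⟨h1, h2⟩ := hj y hy
      have h3 := (low_iff y j (s j)).1 (by rw [h1])
      obtain ⟨h4, h5⟩ := h2
      refine hmem y hy _ (fun i hi => ?_) ?_ ?_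
      · rw [sub_e, if_neg hi]
      · rw [low_iff, sub_e, if_pos rfl]
        omega
      · refine ⟨h4, ?_⟩
        rw [sub_e, if_pos rfl]
        omega
  · have hemp : ((lowFib n s).erase (cor s)).filter (fun y => fj s y = k) = ∅ := by
      rw [Finset.filter_eq_empty_iff]
      intro y hy hyk
      rw [Finset.mem_erase, fib_inn hs.1] at hy
      rcases fj_cases s y with ⟨j', h1, _⟩ | ⟨_, h2⟩
      · exact hk ⟨j', by rw [← hyk, h1]⟩
      · apply hy.1
        funext i
        have h3 := (low_iff y i (s i)).1 (by rw [hy.2])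
        have h4 := h2 i
        unfold bad at h4
        unfold cor
        split_ifs with h5
        · by_contra h6
          exact h4 ⟨h5, h6⟩
        · omega
    rw [hemp]
    exact acy_empty _

private lemma dual_self (ζ : R) (a : Cell → Cell → ZMod 3) (s : Cell) : dual ζ a s s = 0 := by
  unfold dual dcoef
  rw [inc_eq_zero, Int.cast_zero, zero_mul, neg_zero]
  intro i h
  have h1 := dim_of_fct h
  omega

private lemma dcoef_self (ζ : R) (a : Cell → Cell → ZMod 3) (s : Cell) : dcoef ζ a s s = 0 := by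
  unfold dcoef
  rw [inc_eq_zero, Int.cast_zero, zero_mul]
  intro i h
  have h1 := dim_of_fct h
  omega

private lemma unit_sg4 (t : Cell) : IsUnit (sg4 t) := by
  unfold sg4
  refine Finset.prod_induction _ IsUnit (fun _ _ => IsUnit.mul) isUnit_one fun i _ => ?_
  split_ifs
  · exact isUnit_one
  · exact isUnit_one.neg

private lemma unit_sg2 (t : Cell) : IsUnit (sg2 t) := by
  unfold sg2
  refine Finset.prod_induction _ IsUnit (fun _ _ => IsUnit.mul) isUnit_one fun i _ => ?_
  split_ifs
  · exact isUnit_one.neg.pow _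
  · exact isUnit_one

private lemma unit_psi {ζ : R} (hζ : ζ ^ 3 = 1) (a : Cell → Cell → ZMod 3) (s : Cell) :
    IsUnit (psi ζ a s (cor s)) := by
  unfold psi
  rw [if_pos]
  · refine IsUnit.mul ?_ (isUnit_zp hζ _)
    exact ((unit_sg4 _).mul (unit_sg2 _)).map (Int.castRingHom R)
  · refine ⟨low_cor s, fun i => ?_⟩
    have h1 := congrFun (low_add_car (cor s)) i
    rw [Pi.add_apply, low_cor] at h1
    unfold cor at h1 ⊢
    split_ifs at h1 with h2 <;> omega

theorem lowfib_cone {n : Fin 4 → ℕ} {F : Finset Cell} (hF : IsComplex F) {ζ : R} (hζ : ζ ^ 3 = 1)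
    {a : Cell → Cell → ZMod 3} (hf : Flat a (Box n \ F)) {s : Cell} (hs : s ∈ inn n \ F) :
    Acy (cone (dual ζ a) (dcoef ζ (suba 2 a)) (psi ζ a)) (coneSet {s} (lowFib n s)) := by
  have hs' := Finset.mem_sdiff.1 hs
  have hE : IsCx (dcoef ζ (suba 2 a)) (lowFib n s) := cx_lowFib hF hζ hf hs'.2
  have hD : IsCx (dual ζ a) {s} := by
    intro x hx y hy
    rw [Finset.mem_singleton] at hx hy
    subst hx hy
    rw [Finset.sum_singleton, dual_self, zero_mul]
  have hP : ∀ x ∈ ({s} : Finset Cell), ∀ y ∈ lowFib n s,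
      ∑ x' ∈ ({s} : Finset Cell), dual ζ a x x' * psi ζ a x' y =
        ∑ y' ∈ lowFib n s, psi ζ a x y' * dcoef ζ (suba 2 a) y' y := by
    intro x hx y hy
    rw [Finset.mem_singleton] at hx
    subst hx
    rw [mem_lowFib] at hy
    have hyo : y ∈ offF n F := by
      unfold offF
      rw [Finset.mem_filter]
      exact ⟨hy.1, by rw [hy.2]; exact hs'.2⟩
    have h1 := psi_chain hF hζ hf x hs y hyo
    have h2 : ∑ b ∈ inn n \ F, dual ζ a x b * psi ζ a b y = 0 := by
      refine Finset.sum_eq_zero fun b _ => ?_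
      by_contra h
      have h3 : psi ζ a b y ≠ 0 := fun h' => h (by rw [h', mul_zero])
      have h4 := low_of_psi h3
      rw [hy.2] at h4
      subst h4
      exact h (by rw [dual_self, zero_mul])
    rw [Finset.sum_singleton, dual_self, zero_mul]
    rw [h2] at h1
    rw [h1]
    symm
    refine Finset.sum_subset ?_ ?_
    · intro z hz
      rw [mem_lowFib] at hz
      unfold offF
      rw [Finset.mem_filter]
      exact ⟨hz.1, by rw [hz.2]; exact hs'.2⟩
    · intro z hz hz'
      by_contra h
      have h3 : psi ζ a x z ≠ 0 := fun h' => h (by rw [h', zero_mul])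
      apply hz'
      rw [mem_lowFib]
      unfold offF at hz
      rw [Finset.mem_filter] at hz
      exact ⟨hz.1, low_of_psi h3⟩
  have hcx := isCx_cone hD hE hP
  have hcor : cor s ∈ lowFib n s := (fib_inn hs'.1).2 (low_cor s)
  have hno : ∀ y ∈ lowFib n s, dcoef ζ (suba 2 a) y (cor s) = 0 := by
    intro y hy
    by_contra h
    rw [mem_lowFib] at hy
    obtain ⟨i, hi, h'⟩ := fct_of_dcoef h
    have h1 : cor s i = y i + 1 ∨ cor s i = y i - 1 := by
      rcases h' with h' | h'
      · left; rw [h']; simp [e]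
      · right; rw [h']; simp [e]
    have h3 := (low_iff y i (s i)).1 (by rw [hy.2])
    unfold cor at h1
    split_ifs at h1 <;> omega
  have hun : coneSet ∅ ((lowFib n s).erase (cor s)) ∪ {Sum.inl s, Sum.inr (cor s)} =
      coneSet {s} (lowFib n s) := by
    ext x
    unfold coneSet
    rcases x with x | x
    · simp
    · simp only [Finset.mem_union, Finset.inr_mem_disjSum, Finset.mem_erase, Finset.mem_insert,
        Finset.mem_singleton, reduceCtorEq, Sum.inr.injEq, false_or]
      constructor
      · rintro (h | rfl)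
        · exact h.2
        · exact hcor
      · intro h
        by_cases hx : x = cor s
        · exact Or.inr hx
        · exact Or.inl ⟨hx, h⟩
  rw [← hun] at hcx ⊢
  have hzero : ∀ x ∈ coneSet (∅ : Finset Cell) ((lowFib n s).erase (cor s)),
      ∀ y ∈ ({Sum.inl s, Sum.inr (cor s)} : Finset (Cell ⊕ Cell)),
      cone (dual ζ a) (dcoef ζ (suba 2 a)) (psi ζ a) x y = 0 := by
    intro x hx y hy
    unfold coneSet at hx
    rcases x with x | x
    · rw [Finset.inl_mem_disjSum] at hx
      exact absurd hx (Finset.notMem_empty _)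
    · rw [Finset.inr_mem_disjSum, Finset.mem_erase] at hx
      rw [Finset.mem_insert, Finset.mem_singleton] at hy
      rcases hy with rfl | rfl
      · rfl
      · exact hno x hx.2
  have hdis : Disjoint (coneSet (∅ : Finset Cell) ((lowFib n s).erase (cor s)))
      ({Sum.inl s, Sum.inr (cor s)} : Finset (Cell ⊕ Cell)) := by
    rw [Finset.disjoint_right]
    intro x hx
    rw [Finset.mem_insert, Finset.mem_singleton] at hx
    unfold coneSet
    rcases hx with rfl | rfl
    · rw [Finset.inl_mem_disjSum]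
      exact Finset.notMem_empty _
    · rw [Finset.inr_mem_disjSum]
      exact Finset.notMem_erase _ _
  have hEe : IsCx (dcoef ζ (suba 2 a)) ((lowFib n s).erase (cor s)) := by
    have hu : (lowFib n s).erase (cor s) ∪ {cor s} = lowFib n s := by
      ext x
      rw [Finset.mem_union, Finset.mem_erase, Finset.mem_singleton]
      constructor
      · rintro (h | rfl)
        · exact h.2
        · exact hcor
      · intro h
        by_cases hx : x = cor s
        · exact Or.inr hx
        · exact Or.inl ⟨hx, h⟩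
    rw [← hu] at hE
    refine isCx_left hE ?_ ?_
    · intro x hx y hy
      rw [Finset.mem_singleton] at hy
      subst hy
      exact hno x (Finset.mem_of_mem_erase hx)
    · rw [Finset.disjoint_singleton_right]
      exact Finset.notMem_erase _ _
  refine (acy_split hcx hzero hdis).1 ?_ ?_
  · rw [acy_cone_empty]
    exact fib_rest hζ hs hEe
  · refine match_aux (Sum.elim (fun _ => Sum.inr (cor s)) (fun _ => Sum.inl s)) ?_ ?_ ?_
    · intro x hx
      rw [Finset.mem_insert, Finset.mem_singleton] at hx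
      rcases hx with rfl | rfl <;> simp
    · intro x hx y hy h
      rw [Finset.mem_insert, Finset.mem_singleton] at hx hy
      rcases hx with rfl | rfl <;> rcases hy with rfl | rfl
      · exact absurd (show - dual ζ a s s = 0 by rw [dual_self, neg_zero]) h
      · rfl
      · rfl
      · exact absurd (dcoef_self ζ _ _) h
    · intro x hx
      rw [Finset.mem_insert, Finset.mem_singleton] at hx
      rcases hx with rfl | rfl
      · exact Or.inl (unit_psi hζ a s)
      · exact Or.inr (unit_psi hζ a s)

theorem lowfib_bd {n : Fin 4 → ℕ} {F : Finset Cell} (hF : IsComplex F) {ζ : R} (hζ : ζ ^ 3 = 1)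
    {a : Cell → Cell → ZMod 3} (hf : Flat a (Box n \ F)) {s : Cell} (hs : s ∈ bd n)
    (hsF : s ∉ F) (hn : ∀ i, 1 ≤ n i) :
    Acy (cone (dual ζ a) (dcoef ζ (suba 2 a)) (psi ζ a)) (coneSet ∅ (lowFib n s)) := by
  rw [acy_cone_empty]
  have hE : IsCx (dcoef ζ (suba 2 a)) (lowFib n s) := cx_lowFib hF hζ hf hsF
  rw [mem_bd] at hs
  obtain ⟨hsb, i, hi⟩ := hs
  have hni := hn i
  -- membership of a modified cell
  have hmem : ∀ y ∈ lowFib n s, ∀ z : Cell, (∀ k, k ≠ i → z k = y k) → low z i = s i →
      (-(4 * (n i : ℤ)) ≤ z i ∧ z i ≤ 4 * (n i : ℤ)) → z ∈ lowFib n s := by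
    intro y hy z hz hl hb
    rw [mem_lowFib, mem_box] at hy ⊢
    refine ⟨fun k => ?_, ?_⟩
    · by_cases hk : k = i
      · subst hk
        push_cast
        omega
      · rw [hz k hk]
        exact hy.1 k
    · funext k
      by_cases hk : k = i
      · rw [hk]; exact hl
      · have h1 : low z k = low y k := by
          unfold low
          rw [hz k hk]
        rw [h1, hy.2]
  have hbd : ∀ y ∈ lowFib n s, -(4 * (n i : ℤ)) ≤ y i ∧ y i ≤ 4 * (n i : ℤ) := by
    intro y hy
    rw [mem_lowFib, mem_box] at hy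
    have := hy.1 i
    push_cast at this
    omega
  rcases hi with hi | hi
  · refine acy_tog hE (unitD_dcoef (unit_zeta hζ) _ _) i 1 (Or.inl rfl) ?_ ?_
    · intro y hy hodd
      have h0 := hbd y hy
      have h3 := (low_iff y i (s i)).1 (by rw [(mem_lowFib.1 hy).2])
      refine hmem y hy _ (fun k hk => ?_) ?_ ?_
      · rw [add_e, if_neg hk]
      · rw [low_iff, add_e, if_pos rfl]
        omega
      · rw [add_e, if_pos rfl]
        omega
    · intro y hy heven
      have h0 := hbd y hy
      have h3 := (low_iff y i (s i)).1 (by rw [(mem_lowFib.1 hy).2])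
      refine hmem y hy _ (fun k hk => ?_) ?_ ?_
      · rw [sub_e, if_neg hk]
      · rw [low_iff, sub_e, if_pos rfl]
        omega
      · rw [sub_e, if_pos rfl]
        omega
  · refine acy_tog hE (unitD_dcoef (unit_zeta hζ) _ _) i (-1) (Or.inr rfl) ?_ ?_
    · intro y hy hodd
      have h0 := hbd y hy
      have h3 := (low_iff y i (s i)).1 (by rw [(mem_lowFib.1 hy).2])
      refine hmem y hy _ (fun k hk => ?_) ?_ ?_
      · rw [add_e, if_neg hk]
      · rw [low_iff, add_e, if_pos rfl]
        omega
      · rw [add_e, if_pos rfl]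
        omega
    · intro y hy heven
      have h0 := hbd y hy
      have h3 := (low_iff y i (s i)).1 (by rw [(mem_lowFib.1 hy).2])
      refine hmem y hy _ (fun k hk => ?_) ?_ ?_
      · rw [sub_e, if_neg hk]
      · rw [low_iff, sub_e, if_pos rfl]
        omega
      · rw [sub_e, if_pos rfl]
        omega

end Cub
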