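import Pool.Agent.H33.CB.MzCar

/-!
# M1, step 1: the subdivision chain map

`phi m t y = lam t * lam y` if the fine cell `y` is a top dimensional piece of the coarse cell `t`, else `0`.

`phi_chain` PROOF.  `A ⊆ Box n`, `t ∈ A`, `y ∈ fine m n A`, `t' = car m y`.  Use `sum_dcoef_mul` on the left and `sum_mul_dcoef` on the right.
Right side: `∑ b ∈ fine, phi t b * dcoef (suba m a) b y = ∑ i with y i even, sgn i y * ∑ ± (phi t (y ± e i) * zp (suba (y ± e i) y))` (the
condition `y ± e i ∈ fine` is automatic when `phi t (y ± e i) ≠ 0` since then `car m (y ± e i) = t ∈ A`).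
* If `y` is a top piece of `t'` (`y i` odd iff `t' i` odd for all `i`): `car m (y ± e i) = t' ± e i` and `y ± e i` is a top piece of it, for `y i` even.  So the
  term is nonzero iff `t = t' ± e i`, i.e. iff `t'` is the facet of `t` on the side `∓`, and then it equals
  `sgn i y * lam t * lam (y ± e i) * zp (a t t')`; the left side is `sgn i t * zp (a t t') * lam t' * lam y`.  `sgn i y = sgn i t` (`sgn_congr`),
  and `lam t * lam (y ± e i) = lam t' * lam y` (`lam_add` / `lam_sub` for both).
* If there is exactly one `i₀` with `t' i₀` odd and `y i₀` even: the left side is zero (`phi` needs a top piece); on the right only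
  `i = i₀` can contribute, `car m (y ± e i₀) = t'` for both signs, `suba = 0`, and the two terms cancel since
  `lam (y + e i₀) = - lam (y - e i₀)` (apply `lam_sub` to `y + e i₀` and `lam_add` to `y - e i₀`).
* If there are two such `i`: everything is zero.
-/

namespace Cub

variable {R : Type} [CommRing R]

/-- `y` is a top dimensional piece of `t`. -/
def Top (m : ℕ) (t y : Cell) : Prop := car m y = t ∧ ∀ i, y i % 2 = 1 ↔ t i % 2 = 1

open Classical in
/-- The matrix of the subdivision map. -/
noncomputable def phi (m : ℕ) (t y : Cell) : ℤ := if Top m t y then lam t * lam y else 0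

lemma phi_neg {m : ℕ} (hm : 1 ≤ m) (t y : Cell) : phi m (-t) (-y) = phi m t y := by
  have h1 : Top m (-t) (-y) ↔ Top m t y := by
    unfold Top
    rw [car_neg hm]
    refine and_congr neg_inj (forall_congr' fun i => ?_)
    rw [Pi.neg_apply, Pi.neg_apply]
    omega
  unfold phi
  by_cases h : Top m t y
  · rw [if_pos h, if_pos (h1.2 h), lam_neg, lam_neg]
    have h2 : dim y = dim t := by
      unfold dim
      congr 1
      ext i
      simp only [Finset.mem_filter, Finset.mem_univ, true_and]
      exact h.2 i
    rw [h2]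
    have h3 : ((-1 : ℤ) ^ dim t) * (-1) ^ dim t = 1 := by
      rw [← mul_pow]
      norm_num
    linear_combination (lam t * lam y) * h3
  · rw [if_neg h, if_neg (fun h' => h (h1.1 h'))]

lemma car_of_phi {m : ℕ} {t y : Cell} (h : phi m t y ≠ 0) : car m y = t := by
  unfold phi at h
  by_contra hc
  rw [if_neg (fun h' => hc h'.1)] at h
  exact h rfl

private theorem mzp_car {m : ℕ} (hm : 1 ≤ m) {y : Cell} {i : Fin 4} {s : ℤ} (hs : s = 1 ∨ s = -1)
    (hy : y i % 2 = 0) :
    ((2 * m : ℤ) ∣ y i ∧ car m (y + s • e i) = car m y + s • e i) ∨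
    (¬ (2 * m : ℤ) ∣ y i ∧ car m (y + s • e i) = car m y) := by
  have h0 : (y + s • e i) i = y i + s := by
    rw [FlatSub.step_i, if_pos rfl]
  have h1 := FlatSub.car_step hm (y := y + s • e i) (i := i) (s := -s)
    (by rw [h0]; rcases hs with rfl | rfl <;> omega) (by rcases hs with rfl | rfl <;> simp)
  rw [h0, add_neg_cancel_right] at h1
  have h2 : y + s • e i + -s • e i = y := by
    rw [add_assoc, ← add_smul, add_neg_cancel, zero_smul, add_zero]
  rw [h2] at h1
  by_cases hd : (2 * m : ℤ) ∣ y i
  · left
    refine ⟨hd, ?_⟩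
    rw [if_pos hd] at h1
    rw [h1, add_assoc, ← add_smul, neg_add_cancel, zero_smul, add_zero]
  · right
    refine ⟨hd, ?_⟩
    rw [if_neg hd] at h1
    exact h1.symm

private theorem mzp_ne (c : Cell) (i : Fin 4) : c + (1 : ℤ) • e i ≠ c + (-1 : ℤ) • e i := by
  intro h
  have h1 := congrFun h i
  rw [FlatSub.step_i, FlatSub.step_i, if_pos rfl, if_pos rfl] at h1
  omega

open Classical in
/-- The term of the direction `i`, `y i` even. -/
private theorem mzp_term {m : ℕ} (hm : 1 ≤ m) {n : Fin 4 → ℕ} {A : Finset Cell} (hA : A ⊆ Box n)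
    (ζ : R) (a : Cell → Cell → ZMod 3) (t : Cell) (ht : t ∈ A) (y : Cell) (i : Fin 4)
    (hy : y i % 2 = 0) {s : ℤ} (hs : s = 1 ∨ s = -1) (hd : (2 * m : ℤ) ∣ y i) :
    (if y + s • e i ∈ fine m n A then
      (phi m t (y + s • e i) : R) * zp ζ (suba m a (y + s • e i) y) else 0) =
    if Top m (car m y) y ∧ t = car m y + s • e i then
      ((lam t * lam (y + s • e i) : ℤ) : R) * zp ζ (a t (car m y)) else 0 := by
  have h1 : car m (y + s • e i) = car m y + s • e i := by
    rcases mzp_car hm hs hy with ⟨-, h⟩ | ⟨h, -⟩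
    · exact h
    · exact absurd hd h
  have hev : car m y i % 2 = 0 := (car_even hm).2 hd
  have hw : ∀ j, j ≠ i → (y + s • e i) j = y j := fun j hj => by
    rw [FlatSub.step_i, if_neg hj]
  have hwi : (y + s • e i) i = y i + s := by
    rw [FlatSub.step_i, if_pos rfl]
  have hc : ∀ j, j ≠ i → (car m y + s • e i) j = car m y j := fun j hj => by
    rw [FlatSub.step_i, if_neg hj]
  have hci : (car m y + s • e i) i = car m y i + s := by
    rw [FlatSub.step_i, if_pos rfl]
  have htop : Top m t (y + s • e i) ↔ Top m (car m y) y ∧ t = car m y + s • e i := by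
    constructor
    · rintro ⟨h2, h3⟩
      rw [h1] at h2
      refine ⟨⟨rfl, fun j => ?_⟩, h2.symm⟩
      by_cases hj : j = i
      · subst hj
        omega
      · have h4 := h3 j
        rw [← h2, hw j hj, hc j hj] at h4
        exact h4
    · rintro ⟨⟨-, h2⟩, h3⟩
      refine ⟨by rw [h1, h3], fun j => ?_⟩
      rw [h3]
      by_cases hj : j = i
      · subst hj
        rw [hwi, hci]
        rcases hs with rfl | rfl <;> omega
      · rw [hw j hj, hc j hj]
        exact h2 j
  by_cases hT : Top m (car m y) y ∧ t = car m y + s • e i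
  · rw [if_pos hT]
    have h2 := htop.2 hT
    have h3 : y + s • e i ∈ fine m n A := by
      rw [mem_fine hm hA, h2.1]
      exact ht
    rw [if_pos h3]
    unfold phi
    rw [if_pos h2]
    congr 2
    unfold suba
    rw [if_neg, h2.1]
    rw [h1]
    exact (FlatSub.ne_step _ _ hs).symm
  · rw [if_neg hT]
    unfold phi
    rw [if_neg (fun h => hT (htop.1 h)), Int.cast_zero, zero_mul, ite_self]

open Classical in
/-- The terms cancel. -/
private theorem mzp_cancel {m : ℕ} (hm : 1 ≤ m) {n : Fin 4 → ℕ} {A : Finset Cell} (hA : A ⊆ Box n)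
    (ζ : R) (a : Cell → Cell → ZMod 3) (t : Cell) (y : Cell) (i : Fin 4)
    (hy : y i % 2 = 0) (hd : ¬ (2 * m : ℤ) ∣ y i) :
    (if y + e i ∈ fine m n A then
      (phi m t (y + e i) : R) * zp ζ (suba m a (y + e i) y) else 0) +
    (if y - e i ∈ fine m n A then
      (phi m t (y - e i) : R) * zp ζ (suba m a (y - e i) y) else 0) = 0 := by
  have e1 : y + (1 : ℤ) • e i = y + e i := by rw [one_smul]
  have e2 : y + (-1 : ℤ) • e i = y - e i := by rw [neg_one_smul, ← sub_eq_add_neg]
  have h1 : car m (y + e i) = car m y := by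
    rcases mzp_car hm (Or.inl rfl : (1 : ℤ) = 1 ∨ (1 : ℤ) = -1) hy with ⟨h, -⟩ | ⟨-, h⟩
    · exact absurd h hd
    · rw [← e1]
      exact h
  have h2 : car m (y - e i) = car m y := by
    rcases mzp_car hm (Or.inr rfl : (-1 : ℤ) = 1 ∨ (-1 : ℤ) = -1) hy with ⟨h, -⟩ | ⟨-, h⟩
    · exact absurd h hd
    · rw [← e2]
      exact h
  have w1 : (y + e i) i = y i + 1 := by
    rw [← e1, FlatSub.step_i, if_pos rfl]
  have w2 : (y - e i) i = y i - 1 := by
    rw [← e2, FlatSub.step_i, if_pos rfl]
    ring
  have w3 : ∀ j, j ≠ i → (y + e i) j = (y - e i) j := fun j hj => by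
    rw [← e1, ← e2, FlatSub.step_i, if_neg hj, FlatSub.step_i, if_neg hj]
  have hmem : y + e i ∈ fine m n A ↔ y - e i ∈ fine m n A := by
    rw [mem_fine hm hA, mem_fine hm hA, h1, h2]
  have htop : Top m t (y + e i) ↔ Top m t (y - e i) := by
    unfold Top
    rw [h1, h2]
    refine and_congr_right fun _ => forall_congr' fun j => ?_
    by_cases hj : j = i
    · subst hj
      rw [w1, w2]
      omega
    · rw [w3 j hj]
  have hlam : lam (y + e i) = - lam (y - e i) := by
    have h3 := lam_sub (y + e i) i (by rw [w1]; omega)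
    have h4 := lam_add (y - e i) i (by rw [w2]; omega)
    rw [add_sub_cancel_right] at h3
    rw [sub_add_cancel] at h4
    rw [← h4, h3, neg_neg]
  have hs1 : suba m a (y + e i) y = 0 := FlatSub.suba_eq h1
  have hs2 : suba m a (y - e i) y = 0 := FlatSub.suba_eq h2
  rw [hs1, hs2]
  by_cases hf : y + e i ∈ fine m n A
  · rw [if_pos hf, if_pos (hmem.1 hf)]
    unfold phi
    by_cases hT : Top m t (y + e i)
    · rw [if_pos hT, if_pos (htop.1 hT), hlam]
      push_cast
      ring
    · rw [if_neg hT, if_neg (fun h => hT (htop.2 h))]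
      simp
  · rw [if_neg hf, if_neg (fun h => hf (hmem.2 h)), add_zero]

theorem phi_chain {m : ℕ} (hm : 1 ≤ m) {n : Fin 4 → ℕ} {A : Finset Cell} (hA : A ⊆ Box n)
    (ζ : R) (a : Cell → Cell → ZMod 3) (t : Cell) (ht : t ∈ A) (y : Cell) (hy : y ∈ fine m n A) :
    ∑ b ∈ A, dcoef ζ a t b * (phi m b y : R) =
      ∑ b ∈ fine m n A, (phi m t b : R) * dcoef ζ (suba m a) b y := by
  classical
  have ht' : car m y ∈ A := (mem_fine hm hA).1 hy
  have hL : ∑ b ∈ A, dcoef ζ a t b * (phi m b y : R) =
      dcoef ζ a t (car m y) * (phi m (car m y) y : R) := by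
    refine Finset.sum_eq_single (car m y) (fun b _ hb => ?_) (fun h => absurd ht' h)
    have h1 : phi m b y = 0 := by
      by_contra h
      exact hb (car_of_phi h).symm
    rw [h1, Int.cast_zero, mul_zero]
  have hL2 : dcoef ζ a t (car m y) * (phi m (car m y) y : R) =
      ∑ i, (if Top m (car m y) y ∧ (t i % 2 = 1 ∧ (car m y = t + e i ∨ car m y = t - e i)) then
        ((sgn i t * (lam (car m y) * lam y) : ℤ) : R) * zp ζ (a t (car m y)) else 0) := by
    unfold dcoef inc phi
    by_cases hT : Top m (car m y) y
    · rw [if_pos hT, Int.cast_sum, Finset.sum_mul, Finset.sum_mul]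
      refine Finset.sum_congr rfl fun i _ => ?_
      by_cases h1 : t i % 2 = 1 ∧ (car m y = t + e i ∨ car m y = t - e i)
      · rw [if_pos h1, if_pos ⟨hT, h1⟩]
        push_cast
        ring
      · rw [if_neg h1, if_neg (fun h => h1 h.2)]
        simp
    · rw [if_neg hT, Int.cast_zero, mul_zero]
      symm
      refine Finset.sum_eq_zero fun i _ => ?_
      rw [if_neg (fun h => hT h.1)]
  rw [hL, hL2, sum_mul_dcoef]
  refine Finset.sum_congr rfl fun i _ => ?_
  by_cases hyi : y i % 2 = 0
  · rw [if_pos hyi]
    by_cases hd : (2 * m : ℤ) ∣ y i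
    · -- the term of direction `i`
      have hev : car m y i % 2 = 0 := (car_even hm).2 hd
      have k1 := mzp_term hm hA ζ a t ht y i hyi (Or.inl rfl : (1 : ℤ) = 1 ∨ (1 : ℤ) = -1) hd
      have k2 := mzp_term hm hA ζ a t ht y i hyi (Or.inr rfl : (-1 : ℤ) = 1 ∨ (-1 : ℤ) = -1) hd
      have e1 : y + (1 : ℤ) • e i = y + e i := by rw [one_smul]
      have e2 : y + (-1 : ℤ) • e i = y - e i := by rw [neg_one_smul, ← sub_eq_add_neg]
      have c1 : car m y + (1 : ℤ) • e i = car m y + e i := by rw [one_smul]
      have c2 : car m y + (-1 : ℤ) • e i = car m y - e i := by rw [neg_one_smul, ← sub_eq_add_neg]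
      have c3 := mzp_ne (car m y) i
      rw [c1, c2] at c3
      rw [e1, c1] at k1
      rw [e2, c2] at k2
      rw [k1, k2]
      have w1 : (y + e i) i = y i + 1 := by
        rw [← e1, FlatSub.step_i, if_pos rfl]
      have w2 : (y - e i) i = y i - 1 := by
        rw [← e2, FlatSub.step_i, if_pos rfl]
        ring
      have v1 : (car m y + e i) i = car m y i + 1 := by
        rw [← c1, FlatSub.step_i, if_pos rfl]
      have v2 : (car m y - e i) i = car m y i - 1 := by
        rw [← c2, FlatSub.step_i, if_pos rfl]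
        ring
      have v3 : ∀ j, j ≠ i → (car m y + e i) j = car m y j := fun j hj => by
        rw [← c1, FlatSub.step_i, if_neg hj]
      have v4 : ∀ j, j ≠ i → (car m y - e i) j = car m y j := fun j hj => by
        rw [← c2, FlatSub.step_i, if_neg hj]
      by_cases hT : Top m (car m y) y
      · by_cases q1 : t = car m y + e i
        · have q2 : t ≠ car m y - e i := fun h => c3 (q1.symm.trans h)
          have q3 : t i % 2 = 1 := by rw [q1, v1]; omega
          have q4 : car m y = t - e i := by rw [q1, add_sub_cancel_right]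
          rw [if_pos ⟨hT, q3, Or.inr q4⟩, if_pos ⟨hT, q1⟩, if_neg (fun h => q2 h.2), add_zero]
          have s1 : sgn i y = sgn i t := by
            refine sgn_congr i y t fun j hj => ?_
            have h5 := hT.2 j
            rw [q1, v3 j hj.ne]
            omega
          have l1 := lam_sub t i q3
          rw [← q4] at l1
          have l2 := lam_sub (y + e i) i (by rw [w1]; omega)
          rw [add_sub_cancel_right] at l2
          rw [s1, l1, l2]
          push_cast
          ring
        · by_cases q2 : t = car m y - e i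
          · have q3 : t i % 2 = 1 := by rw [q2, v2]; omega
            have q4 : car m y = t + e i := by rw [q2, sub_add_cancel]
            rw [if_pos ⟨hT, q3, Or.inl q4⟩, if_neg (fun h => q1 h.2), if_pos ⟨hT, q2⟩, zero_add]
            have s1 : sgn i y = sgn i t := by
              refine sgn_congr i y t fun j hj => ?_
              have h5 := hT.2 j
              rw [q2, v4 j hj.ne]
              omega
            have l1 := lam_add t i q3
            rw [← q4] at l1
            have l2 := lam_add (y - e i) i (by rw [w2]; omega)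
            rw [sub_add_cancel] at l2
            rw [s1, l1, l2]
            push_cast
            ring
          · rw [if_neg, if_neg (fun h => q1 h.2), if_neg (fun h => q2 h.2), add_zero, mul_zero]
            rintro ⟨-, -, h | h⟩
            · exact q2 (by rw [h, add_sub_cancel_right])
            · exact q1 (by rw [h, sub_add_cancel])
      · rw [if_neg (fun h => hT h.1), if_neg (fun h => hT h.1), if_neg (fun h => hT h.1),
          add_zero, mul_zero]
    · rw [mzp_cancel hm hA ζ a t y i hyi hd, mul_zero, if_neg]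
      rintro ⟨⟨-, h1⟩, -⟩
      have h2 := h1 i
      have h3 : car m y i % 2 ≠ 0 := fun h => hd ((car_even hm).1 h)
      omega
  · rw [if_neg hyi, if_neg]
    rintro ⟨⟨-, h1⟩, h2, h3 | h3⟩
    · have h4 := h1 i
      have h5 : (t + e i) i = t i + 1 := by
        have := FlatSub.step_i t i 1 i
        rwa [one_smul, if_pos rfl] at this
      rw [h3, h5] at h4
      omega
    · have h4 := h1 i
      have h5 : (t - e i) i = t i - 1 := by
        have := FlatSub.step_i t i (-1) i
        rw [neg_one_smul, ← sub_eq_add_neg, if_pos rfl] at this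
        rw [this]
        ring
      rw [h3, h5] at h4
      omega

end Cub
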