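import Pool.Agent.H33.CB.MzTheta

/-!
# M2, step 2: the dual cell of `s` as a chain of the half lattice

`psi ζ a s y = sg4 t * sg2 s * ζ ^ (- theta a t s)` if `low y = s` and `t = car 2 y` is top dimensional, else `0`.

`psi_chain` PROOF.  Right side by `sum_mul_dcoef`: `∑ i with y i even, sgn i y * ∑ ± psi s (y ± e i) * zp (suba 2 a (y ± e i) y)`.
Write `s' = low y`, `t = car 2 y`, `y = s' + t`.
(A) `t` top dimensional (all `t j` odd).  `y i` even means `s' i = t i` odd.  `low (y - x e i) = s' - x e i`, `car 2 (y - x e i) = t` for `x = ± 1`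
(`fct_cases`), `suba = 0`.  So the term is nonzero iff `s = s' - x e i`, i.e. iff `s` is the facet of `s'` in direction `i` on the side `-x`; then it equals
`sgn i y * sg4 t * sg2 s * ζ ^ (- theta a t s)`.  Left side: `- inc s' s * ζ ^ (-a s' s) * sg4 t * sg2 s' * ζ ^ (- theta a t s')`.
`theta_last`: the powers of `ζ` agree.  `sg2 s' = (-1) ^ (i + 1) * sg2 s`.  `sgn i y = (-1) ^ i * sgn i s'`, because for `j < i` `y j` is odd iff
`s' j` is even (`s' j ≠ t j`).  (On the left the term `b = s'` is in `inn n \ F`: `s ≤ s'`, `inn_of_le`, and `low y ∉ F`; if `s` is not a facet of `s'`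
both sides are zero.)
(B) exactly one coordinate `i₀` of `t` even (`s' i₀ = t i₀`, `y i₀ = 2 * t i₀`).  Left side zero (`psi b y ≠ 0` needs `t` top).  Right: only `i = i₀` contributes;
`low (y ± e i₀) = s'`, `car 2 (y ± e i₀) = t ± e i₀`, so the term is nonzero only for `s = s'`, and both `y ± e i₀` are in the box because
`s ∈ inn n`.  The sum is `sgn * sg2 s * (sg4 (t + e) ζ ^ (- theta a (t + e) s + a (t + e) t) + sg4 (t - e) ζ ^ (...))`; by `theta_first` both powers are
`ζ ^ (- theta a t s)`, and `sg4 (t + e) = - sg4 (t - e)`.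
(C) two even coordinates: both sides zero.
-/

namespace Cub

variable {R : Type} [CommRing R]

/-- Sign of a top dimensional cell. -/
def sg4 (t : Cell) : ℤ := ∏ i, if (t i - 1) / 2 % 2 = 0 then 1 else -1

/-- Sign of `s`. -/
def sg2 (s : Cell) : ℤ := ∏ i : Fin 4, if s i % 2 = 1 then (-1) ^ (i.val + 1) else 1

open Classical in
/-- The matrix of the duality map. -/
noncomputable def psi (ζ : R) (a : Cell → Cell → ZMod 3) (s y : Cell) : R :=
  if low y = s ∧ ∀ i, car 2 y i % 2 = 1 then
    ((sg4 (car 2 y) * sg2 s : ℤ) : R) * zp ζ (- theta a (car 2 y) s) else 0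

/-- The dual complex (cochains) with a minus sign. -/
def dual (ζ : R) (a : Cell → Cell → ZMod 3) (s b : Cell) : R :=
  - dcoef ζ (fun c c' => - a c c') b s

/-- The half lattice cells which do not meet `F`. -/
noncomputable def offF (n : Fin 4 → ℕ) (F : Finset Cell) : Finset Cell :=
  (Box (fun i => 2 * n i)).filter (fun y => low y ∉ F)

private lemma mzPsi_sg4_neg {t : Cell} (ht : ∀ i, t i % 2 = 1) : sg4 (-t) = sg4 t := by
  have h : ∀ i : Fin 4, (if ((-t) i - 1) / 2 % 2 = 0 then (1 : ℤ) else -1) =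
      -(if (t i - 1) / 2 % 2 = 0 then (1 : ℤ) else -1) := by
    intro i
    have h1 := ht i
    have h2 : (-t) i = -(t i) := rfl
    rw [h2]
    split_ifs <;> omega
  unfold sg4
  rw [Fin.prod_univ_four, Fin.prod_univ_four, h, h, h, h]
  ring

private lemma mzPsi_sg2_neg (s : Cell) : sg2 (-s) = sg2 s := by
  unfold sg2
  refine Finset.prod_congr rfl fun i _ => ?_
  have h2 : (-s) i = -(s i) := rfl
  have h : (-s) i % 2 = 1 ↔ s i % 2 = 1 := by
    rw [h2]; omega
  by_cases h1 : s i % 2 = 1
  · rw [if_pos h1, if_pos (h.2 h1)]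
  · rw [if_neg h1, if_neg (fun h3 => h1 (h.1 h3))]

lemma psi_neg (ζ : R) {a : Cell → Cell → ZMod 3} (ha : SymA a) (s y : Cell) :
    psi ζ a (-s) (-y) = psi ζ a s y := by
  have hc : car 2 (-y) = - car 2 y := car_neg (by norm_num) y
  unfold psi
  by_cases h : low y = s ∧ ∀ i, car 2 y i % 2 = 1
  · have h' : low (-y) = -s ∧ ∀ i, car 2 (-y) i % 2 = 1 := by
      refine ⟨by rw [low_neg, h.1], fun i => ?_⟩
      rw [hc]
      have := h.2 i
      have h2 : (-car 2 y) i = -(car 2 y i) := rfl
      rw [h2]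
      omega
    rw [if_pos h, if_pos h', hc, mzPsi_sg4_neg h.2, mzPsi_sg2_neg, theta_neg ha]
  · have h' : ¬ (low (-y) = -s ∧ ∀ i, car 2 (-y) i % 2 = 1) := by
      rintro ⟨h1, h2⟩
      apply h
      rw [low_neg] at h1
      refine ⟨neg_injective h1, fun i => ?_⟩
      have := h2 i
      rw [hc] at this
      have h3 : (-car 2 y) i = -(car 2 y i) := rfl
      rw [h3] at this
      omega
    rw [if_neg h, if_neg h']

lemma low_of_psi {ζ : R} {a : Cell → Cell → ZMod 3} {s y : Cell} (h : psi ζ a s y ≠ 0) :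
    low y = s := by
  by_contra hne
  exact h (by unfold psi; rw [if_neg (fun h1 => hne h1.1)])

private lemma mzPsi_self (d : ℤ) (i : Fin 4) : (d • e i) i = d := by
  simp [e]

private lemma mzPsi_ne (d : ℤ) {i j : Fin 4} (h : j ≠ i) : (d • e i) j = 0 := by
  simp [e, h]

private lemma mzPsi_fct {d : ℤ} (hd : d = 1 ∨ d = -1) {y : Cell} {i : Fin 4}
    (hy : y i % 2 = 0) : Fct i (y + d • e i) y := by
  refine ⟨?_, ?_⟩
  · rw [Pi.add_apply, mzPsi_self]
    rcases hd with rfl | rfl <;> omega
  · rcases hd with rfl | rfl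
    · right
      rw [one_smul, add_sub_cancel_right]
    · left
      rw [neg_smul, one_smul, neg_add_cancel_right]

private lemma mzPsi_odd {d : ℤ} (hd : d = 1 ∨ d = -1) {y : Cell} {i : Fin 4}
    (hy : y i % 2 = 0) (ht : car 2 y i % 2 = 1) :
    car 2 (y + d • e i) = car 2 y ∧ low (y + d • e i) = low y + d • e i := by
  rcases fct_cases (mzPsi_fct hd hy) with ⟨h1, -⟩ | ⟨-, h2⟩
  · refine ⟨h1.symm, ?_⟩
    have h3 := low_add_car (y + d • e i)
    have h4 := low_add_car y
    rw [← h1] at h3
    have h5 : low (y + d • e i) + car 2 y = (low y + d • e i) + car 2 y := by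
      rw [h3]
      conv_lhs => rw [← h4]
      abel
    exact add_right_cancel h5
  · exfalso
    obtain ⟨h3, h4 | h4⟩ := h2
    · rw [h4, Pi.add_apply] at ht
      have : (e i) i = 1 := by simp [e]
      omega
    · rw [h4, Pi.sub_apply] at ht
      have : (e i) i = 1 := by simp [e]
      omega

private lemma mzPsi_even {d : ℤ} (hd : d = 1 ∨ d = -1) {y : Cell} {i : Fin 4}
    (hy : y i % 2 = 0) (ht : car 2 y i % 2 = 0) :
    low (y + d • e i) = low y ∧ car 2 (y + d • e i) = car 2 y + d • e i := by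
  rcases fct_cases (mzPsi_fct hd hy) with ⟨-, h2⟩ | ⟨h1, -⟩
  · exfalso
    have h3 := congrFun (low_add_car y) i
    rw [Pi.add_apply] at h3
    have h4 := h2.1
    omega
  · refine ⟨h1.symm, ?_⟩
    have h3 := low_add_car (y + d • e i)
    have h4 := low_add_car y
    rw [← h1] at h3
    have h5 : low y + car 2 (y + d • e i) = low y + (car 2 y + d • e i) := by
      rw [h3]
      conv_lhs => rw [← h4]
      abel
    exact add_left_cancel h5

private lemma mzPsi_sg4 {t : Cell} {i : Fin 4} (ht : t i % 2 = 0) :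
    sg4 (t + (1 : ℤ) • e i) + sg4 (t + (-1 : ℤ) • e i) = 0 := by
  unfold sg4
  rw [← Finset.mul_prod_erase Finset.univ _ (Finset.mem_univ i),
    ← Finset.mul_prod_erase Finset.univ
      (fun j => if ((t + (-1 : ℤ) • e i) j - 1) / 2 % 2 = 0 then (1 : ℤ) else -1)
      (Finset.mem_univ i)]
  have h1 : ∏ x ∈ Finset.univ.erase i,
        (if ((t + (1 : ℤ) • e i) x - 1) / 2 % 2 = 0 then (1 : ℤ) else -1) =
      ∏ x ∈ Finset.univ.erase i,
        (if ((t + (-1 : ℤ) • e i) x - 1) / 2 % 2 = 0 then (1 : ℤ) else -1) := by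
    refine Finset.prod_congr rfl fun x hx => ?_
    have hxi : x ≠ i := Finset.ne_of_mem_erase hx
    rw [Pi.add_apply, Pi.add_apply, mzPsi_ne _ hxi, mzPsi_ne _ hxi]
  rw [h1, ← add_mul]
  have h2 : (if ((t + (1 : ℤ) • e i) i - 1) / 2 % 2 = 0 then (1 : ℤ) else -1) +
      (if ((t + (-1 : ℤ) • e i) i - 1) / 2 % 2 = 0 then (1 : ℤ) else -1) = 0 := by
    rw [Pi.add_apply, Pi.add_apply, mzPsi_self, mzPsi_self]
    split_ifs <;> omega
  rw [h2, zero_mul]

private lemma mzPsi_sg2 {s : Cell} {i : Fin 4} {d : ℤ} (hd : d = 1 ∨ d = -1) (hs : s i % 2 = 1) :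
    sg2 s = (-1) ^ (i.val + 1) * sg2 (s + d • e i) := by
  unfold sg2
  rw [← Finset.mul_prod_erase Finset.univ _ (Finset.mem_univ i),
    ← Finset.mul_prod_erase Finset.univ
      (fun j : Fin 4 => if (s + d • e i) j % 2 = 1 then (-1 : ℤ) ^ (j.val + 1) else 1)
      (Finset.mem_univ i)]
  have h1 : ∏ x ∈ Finset.univ.erase i, (if s x % 2 = 1 then (-1 : ℤ) ^ (x.val + 1) else 1) =
      ∏ x ∈ Finset.univ.erase i,
        (if (s + d • e i) x % 2 = 1 then (-1 : ℤ) ^ (x.val + 1) else 1) := by
    refine Finset.prod_congr rfl fun x hx => ?_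
    have hxi : x ≠ i := Finset.ne_of_mem_erase hx
    rw [Pi.add_apply, mzPsi_ne _ hxi, add_zero]
  have h2 : ¬ (s + d • e i) i % 2 = 1 := by
    rw [Pi.add_apply, mzPsi_self]
    rcases hd with rfl | rfl <;> omega
  rw [if_pos hs, if_neg h2, h1, one_mul]

private lemma mzPsi_sgn {i : Fin 4} {c c' : Cell} (h : ∀ j < i, (c j % 2 = 1 ↔ ¬ c' j % 2 = 1)) :
    sgn i c = (-1) ^ i.val * sgn i c' := by
  unfold sgn
  have h1 : (Finset.univ.filter (fun j : Fin 4 => j < i ∧ c j % 2 = 1)).card +
      (Finset.univ.filter (fun j : Fin 4 => j < i ∧ c' j % 2 = 1)).card = i.val := by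
    have h2 : (Finset.univ.filter (fun j : Fin 4 => j < i)).card = i.val := by
      fin_cases i <;> rfl
    rw [← h2, ← Finset.card_union_of_disjoint]
    · congr 1
      ext j
      simp only [Finset.mem_union, Finset.mem_filter, Finset.mem_univ, true_and]
      constructor
      · rintro (h3 | h3) <;> exact h3.1
      · intro h3
        by_cases h4 : c' j % 2 = 1
        · exact Or.inr ⟨h3, h4⟩
        · exact Or.inl ⟨h3, (h j h3).2 h4⟩
    · rw [Finset.disjoint_left]
      intro j hj hj'
      obtain ⟨-, h3, h4⟩ := Finset.mem_filter.1 hj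
      obtain ⟨-, -, h5⟩ := Finset.mem_filter.1 hj'
      exact (h j h3).1 h4 h5
  set A := (Finset.univ.filter (fun j : Fin 4 => j < i ∧ c j % 2 = 1)).card
  set B := (Finset.univ.filter (fun j : Fin 4 => j < i ∧ c' j % 2 = 1)).card
  rw [← h1, pow_add, mul_assoc, ← pow_add, ← two_mul, pow_mul]
  norm_num

private lemma mzPsi_caseA {n : Fin 4 → ℕ} {F : Finset Cell} {ζ : R}
    {a : Cell → Cell → ZMod 3} {s y w : Cell} (hsF : s ∉ F)
    (hy : y ∈ offF n F) (htop : ∀ i, car 2 y i % 2 = 1) {j : Fin 4} (hj : y j % 2 = 0) {d : ℤ}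
    (hd : d = 1 ∨ d = -1) (hw : w = y + d • e j) :
    (if w ∈ offF n F then psi ζ a s w * zp ζ (suba 2 a w y) else 0) =
      if low y + d • e j = s then
        ((sg4 (car 2 y) * sg2 s : ℤ) : R) * zp ζ (- theta a (car 2 y) s) else 0 := by
  obtain ⟨h1, h2⟩ := mzPsi_odd hd hj (htop j)
  rw [← hw] at h1 h2
  have hz : suba 2 a w y = 0 := by
    unfold suba
    rw [if_pos h1]
  by_cases hs : low y + d • e j = s
  · have hmem : w ∈ offF n F := by
      refine Finset.mem_filter.2 ⟨?_, ?_⟩
      · rw [car_box (by norm_num), h1, ← car_box (by norm_num)]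
        exact (Finset.mem_filter.1 hy).1
      · rw [h2, hs]
        exact hsF
    rw [if_pos hmem, if_pos hs]
    unfold psi
    rw [if_pos ⟨by rw [h2, hs], by rw [h1]; exact htop⟩, hz, zp_zero, mul_one, h1]
  · rw [if_neg hs]
    have h3 : psi ζ a s w = 0 := by
      unfold psi
      rw [if_neg (fun h => hs (by rw [← h2]; exact h.1))]
    rw [h3, zero_mul, ite_self]

private lemma mzPsi_caseB {n : Fin 4 → ℕ} {F : Finset Cell} (hF : IsComplex F) {ζ : R}
    (hζ : ζ ^ 3 = 1) {a : Cell → Cell → ZMod 3} (hf : Flat a (Box n \ F)) {s y w : Cell}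
    (hs : s ∈ inn n \ F) {i : Fin 4} (hi : y i % 2 = 0) (hti : car 2 y i % 2 = 0)
    (hls : low y = s) (hodd : ∀ j, j ≠ i → car 2 y j % 2 = 1) {d : ℤ}
    (hd : d = 1 ∨ d = -1) (hw : w = y + d • e i) :
    (if w ∈ offF n F then psi ζ a s w * zp ζ (suba 2 a w y) else 0) =
      ((sg4 (car 2 y + d • e i) * sg2 s : ℤ) : R) * zp ζ (- theta a (car 2 y) s) := by
  obtain ⟨h1, h2⟩ := mzPsi_even hd hi hti
  rw [← hw] at h1 h2
  obtain ⟨hs1, hs2⟩ := Finset.mem_sdiff.1 hs
  have hfct : Fct i (car 2 y + d • e i) (car 2 y) := mzPsi_fct hd hti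
  have hle : Le s (car 2 y + d • e i) := by
    refine le_trans' ?_ (le_of_fct hfct)
    rw [← hls]
    exact low_le_car y
  have hinn : car 2 y + d • e i ∈ inn n := inn_of_le hle hs1
  have hbox : car 2 y + d • e i ∈ Box n := (Finset.mem_sdiff.1 hinn).1
  have hnF : car 2 y + d • e i ∉ F := fun h => hs2 (hF _ h _ hle)
  have hmem : w ∈ offF n F := by
    refine Finset.mem_filter.2 ⟨?_, ?_⟩
    · rw [car_box (by norm_num), h2]
      exact hbox
    · rw [h1, hls]
      exact hs2
  have hne : car 2 w ≠ car 2 y := by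
    rw [h2]
    intro h
    have := congrFun h i
    rw [Pi.add_apply, mzPsi_self] at this
    rcases hd with rfl | rfl <;> omega
  have hsub : suba 2 a w y = a (car 2 y + d • e i) (car 2 y) := by
    unfold suba
    rw [if_neg hne, h2]
  have hsi : s i % 2 = 0 := by
    have h3 := congrFun (low_add_car y) i
    rw [Pi.add_apply, hls] at h3
    omega
  have hsti : s i = car 2 y i := by
    have h3 := low_le_car y i
    rw [hls] at h3
    rcases h3 with h3 | ⟨h3, -⟩
    · exact h3
    · omega
  have hth := theta_first (conv_sdiff (isComplex_box n) hF) hf (s := s)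
    (t := car 2 y + d • e i)
    (Finset.mem_sdiff.2 ⟨(Finset.mem_sdiff.1 hs1).1, hs2⟩) (Finset.mem_sdiff.2 ⟨hbox, hnF⟩) hle i d
    hd hsi (by rw [Pi.add_apply, mzPsi_self, hsti])
  rw [add_sub_cancel_right] at hth
  have hpsi : psi ζ a s w =
      ((sg4 (car 2 y + d • e i) * sg2 s : ℤ) : R) * zp ζ (- theta a (car 2 y + d • e i) s) := by
    have hall : ∀ j, car 2 w j % 2 = 1 := by
      intro j
      rw [h2, Pi.add_apply]
      by_cases hji : j = i
      · subst hji
        rw [mzPsi_self]
        rcases hd with rfl | rfl <;> omega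
      · rw [mzPsi_ne _ hji, add_zero]
        exact hodd j hji
    unfold psi
    rw [if_pos ⟨by rw [h1, hls], hall⟩, h2]
  rw [if_pos hmem, hpsi, hsub, mul_assoc, ← zp_add hζ, hth]
  congr 2
  ring

private lemma mzPsi_dirs (y : Cell) (i : Fin 4) :
    y + e i = y + (1 : ℤ) • e i ∧ y - e i = y + (-1 : ℤ) • e i := by
  constructor
  · rw [one_smul]
  · rw [neg_smul, one_smul, sub_eq_add_neg]

theorem psi_chain {n : Fin 4 → ℕ} {F : Finset Cell} (hF : IsComplex F) {ζ : R} (hζ : ζ ^ 3 = 1)
    {a : Cell → Cell → ZMod 3} (hf : Flat a (Box n \ F)) (s : Cell) (hs : s ∈ inn n \ F)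
    (y : Cell) (hy : y ∈ offF n F) :
    ∑ b ∈ inn n \ F, dual ζ a s b * psi ζ a b y =
      ∑ b ∈ offF n F, psi ζ a s b * dcoef ζ (suba 2 a) b y := by
  obtain ⟨hs1, hs2⟩ := Finset.mem_sdiff.1 hs
  have hyF : low y ∉ F := (Finset.mem_filter.1 hy).2
  have hybox : car 2 y ∈ Box n := by
    rw [← car_box (by norm_num)]
    exact (Finset.mem_filter.1 hy).1
  have hle : Le (low y) (car 2 y) := low_le_car y
  have hadd : ∀ j, low y j + car 2 y j = y j := fun j => congrFun (low_add_car y) j
  have hLz : ∀ b ∈ inn n \ F, b ≠ low y → dual ζ a s b * psi ζ a b y = 0 := by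
    intro b _ hb
    have : psi ζ a b y = 0 := by
      unfold psi
      rw [if_neg (fun h => hb h.1.symm)]
    rw [this, mul_zero]
  rw [sum_mul_dcoef]
  by_cases htop : ∀ i, car 2 y i % 2 = 1
  · -- the carrier is top dimensional
    have hR : ∀ j : Fin 4, (if y j % 2 = 0 then (sgn j y : R) *
        ((if y + e j ∈ offF n F then psi ζ a s (y + e j) * zp ζ (suba 2 a (y + e j) y) else 0) +
         (if y - e j ∈ offF n F then psi ζ a s (y - e j) * zp ζ (suba 2 a (y - e j) y) else 0))
          else 0) =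
        if y j % 2 = 0 then (sgn j y : R) *
        ((if low y + (1 : ℤ) • e j = s then
          ((sg4 (car 2 y) * sg2 s : ℤ) : R) * zp ζ (- theta a (car 2 y) s) else 0) +
         (if low y + (-1 : ℤ) • e j = s then
          ((sg4 (car 2 y) * sg2 s : ℤ) : R) * zp ζ (- theta a (car 2 y) s) else 0)) else 0 := by
      intro j
      by_cases hj : y j % 2 = 0
      · rw [if_pos hj, if_pos hj]
        rw [mzPsi_caseA hs2 hy htop hj (Or.inl rfl) (mzPsi_dirs y j).1,
          mzPsi_caseA hs2 hy htop hj (Or.inr rfl) (mzPsi_dirs y j).2]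
      · rw [if_neg hj, if_neg hj]
    rw [Finset.sum_congr rfl fun j _ => hR j]
    by_cases hfs : ∃ i, Fct i (low y) s
    · obtain ⟨i, hi1, hi2⟩ := hfs
      obtain ⟨d, hd, hsd⟩ : ∃ d : ℤ, (d = 1 ∨ d = -1) ∧ s = low y + d • e i := by
        rcases hi2 with h | h
        · exact ⟨1, Or.inl rfl, by rw [h, (mzPsi_dirs _ _).1]⟩
        · exact ⟨-1, Or.inr rfl, by rw [h, (mzPsi_dirs _ _).2]⟩
      have hsle : Le s (low y) := le_of_fct (i := i) ⟨hi1, hi2⟩
      have hlowmem : low y ∈ inn n \ F := Finset.mem_sdiff.2 ⟨inn_of_le hsle hs1, hyF⟩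
      have hyi : y i % 2 = 0 := by
        have h1 := hadd i
        have h2 := htop i
        omega
      rw [Finset.sum_eq_single (low y) hLz (fun h => absurd hlowmem h)]
      -- the other directions do not contribute
      have hsi : s i = low y i + d := by
        rw [hsd, Pi.add_apply, mzPsi_self]
      have hother : ∀ j : Fin 4, j ≠ i → ∀ d' : ℤ, (d' = 1 ∨ d' = -1) →
          low y + d' • e j ≠ s := by
        intro j hj d' hd' h
        have h1 := congrFun h i
        rw [Pi.add_apply, mzPsi_ne _ (Ne.symm hj), hsi] at h1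
        rcases hd with rfl | rfl <;> omega
      rw [Finset.sum_eq_single i (fun j _ hj => ?_) (fun h => absurd (Finset.mem_univ i) h)]
      rotate_left
      · rw [if_neg (hother j hj 1 (Or.inl rfl)), if_neg (hother j hj (-1) (Or.inr rfl)), add_zero,
          mul_zero, ite_self]
      rw [if_pos hyi]
      have hsum : ((if low y + (1 : ℤ) • e i = s then
            ((sg4 (car 2 y) * sg2 s : ℤ) : R) * zp ζ (- theta a (car 2 y) s) else 0) +
          (if low y + (-1 : ℤ) • e i = s then
            ((sg4 (car 2 y) * sg2 s : ℤ) : R) * zp ζ (- theta a (car 2 y) s) else 0)) =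
          ((sg4 (car 2 y) * sg2 s : ℤ) : R) * zp ζ (- theta a (car 2 y) s) := by
        rcases hd with rfl | rfl
        · rw [if_pos hsd.symm, if_neg, add_zero]
          intro h
          have h1 := congrFun h i
          rw [Pi.add_apply, mzPsi_self, hsi] at h1
          omega
        · rw [if_pos hsd.symm, if_neg, zero_add]
          intro h
          have h1 := congrFun h i
          rw [Pi.add_apply, mzPsi_self, hsi] at h1
          omega
      rw [hsum]
      -- the transport
      have hlowi : low y i = car 2 y i := by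
        rcases hle i with h | ⟨-, h⟩
        · exact h
        · have := htop i
          omega
      have hd' : -d = 1 ∨ -d = -1 := by rcases hd with rfl | rfl <;> simp
      have hback : s + (-d) • e i = low y := by
        rw [hsd, neg_smul, add_neg_cancel_right]
      have hth := theta_last (conv_sdiff (isComplex_box n) hF) hf (s := s) (t := car 2 y)
        (Finset.mem_sdiff.2 ⟨(Finset.mem_sdiff.1 hs1).1, hs2⟩)
        (Finset.mem_sdiff.2 ⟨hybox, fun h => hyF (hF _ h _ hle)⟩) (le_trans' hsle hle) i (-d)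
        hd' (by rw [hsi]; rcases hd with rfl | rfl <;> omega) (by rw [hsi]; omega)
      rw [hback] at hth
      have hpsi : psi ζ a (low y) y =
          ((sg4 (car 2 y) * sg2 (low y) : ℤ) : R) * zp ζ (- theta a (car 2 y) (low y)) := by
        unfold psi
        rw [if_pos ⟨rfl, htop⟩]
      have hinc : inc (low y) s = sgn i (low y) := inc_of_fct (i := i) ⟨hi1, hi2⟩
      have hsg2 : sg2 (low y) = (-1) ^ (i.val + 1) * sg2 s := by
        rw [mzPsi_sg2 hd hi1, ← hsd]
      have hsgn : sgn i y = (-1) ^ i.val * sgn i (low y) := by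
        refine mzPsi_sgn fun j _ => ?_
        have h1 := hadd j
        have h2 := htop j
        omega
      have hz : zp ζ (- theta a (car 2 y) s) =
          zp ζ (- a (low y) s) * zp ζ (- theta a (car 2 y) (low y)) := by
        rw [hth, ← zp_add hζ]
        congr 1
        ring
      rw [hpsi, hz]
      unfold dual dcoef
      rw [hinc, hsg2, hsgn]
      push_cast
      ring
    · -- no facet
      have hno : ∀ j : Fin 4, y j % 2 = 0 → ∀ d' : ℤ, (d' = 1 ∨ d' = -1) →
          low y + d' • e j ≠ s := by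
        intro j hj d' hd' h
        apply hfs
        refine ⟨j, ?_, ?_⟩
        · have h1 := hadd j
          have h2 := htop j
          omega
        · rcases hd' with rfl | rfl
          · left
            rw [← h, (mzPsi_dirs _ _).1]
          · right
            rw [← h, (mzPsi_dirs _ _).2]
      rw [Finset.sum_eq_zero, Finset.sum_eq_zero]
      · intro j _
        by_cases hj : y j % 2 = 0
        · rw [if_pos hj, if_neg (hno j hj 1 (Or.inl rfl)), if_neg (hno j hj (-1) (Or.inr rfl)),
            add_zero, mul_zero]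
        · rw [if_neg hj]
      · intro b hb
        by_cases hbl : b = low y
        · have h0 : inc b s = 0 := by
            rw [hbl]
            exact inc_eq_zero fun i hi => hfs ⟨i, hi⟩
          unfold dual dcoef
          rw [h0]
          simp
        · exact hLz b hb hbl
  · -- an even coordinate of the carrier
    push Not at htop
    obtain ⟨i, hi⟩ := htop
    have hti : car 2 y i % 2 = 0 := by omega
    rw [Finset.sum_eq_zero (fun b hb => ?_)]
    rotate_left
    · have : psi ζ a b y = 0 := by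
        unfold psi
        rw [if_neg (fun h => hi (h.2 i))]
      rw [this, mul_zero]
    symm
    refine Finset.sum_eq_zero fun j _ => ?_
    by_cases hj : y j % 2 = 0
    swap
    · rw [if_neg hj]
    rw [if_pos hj]
    -- zero terms
    have hzero : ∀ (w : Cell) (k : Fin 4), car 2 w k % 2 = 0 →
        (if w ∈ offF n F then psi ζ a s w * zp ζ (suba 2 a w y) else 0) = 0 := by
      intro w k hk
      have : psi ζ a s w = 0 := by
        unfold psi
        rw [if_neg (fun h => by have := h.2 k; omega)]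
      rw [this, zero_mul, ite_self]
    by_cases hji : j = i
    · subst hji
      by_cases hodd : ∀ k, k ≠ j → car 2 y k % 2 = 1
      · by_cases hls : low y = s
        · rw [mzPsi_caseB hF hζ hf hs hj hti hls hodd (Or.inl rfl) (mzPsi_dirs y j).1,
            mzPsi_caseB hF hζ hf hs hj hti hls hodd (Or.inr rfl) (mzPsi_dirs y j).2, ← add_mul,
            ← Int.cast_add, ← add_mul, mzPsi_sg4 hti]
          simp
        · have h1 : ∀ (w : Cell) (d : ℤ), (d = 1 ∨ d = -1) → w = y + d • e j →
              (if w ∈ offF n F then psi ζ a s w * zp ζ (suba 2 a w y) else 0) = 0 := by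
            intro w d hd hw
            obtain ⟨h2, -⟩ := mzPsi_even hd hj hti
            have : psi ζ a s w = 0 := by
              unfold psi
              rw [if_neg (fun h => hls (by rw [← h2, ← hw]; exact h.1))]
            rw [this, zero_mul, ite_self]
          rw [h1 _ 1 (Or.inl rfl) (mzPsi_dirs y j).1, h1 _ (-1) (Or.inr rfl) (mzPsi_dirs y j).2,
            add_zero, mul_zero]
      · push Not at hodd
        obtain ⟨k, hkj, hk⟩ := hodd
        have h1 : ∀ (w : Cell) (d : ℤ), (d = 1 ∨ d = -1) → w = y + d • e j →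
            car 2 w k % 2 = 0 := by
          intro w d hd hw
          obtain ⟨-, h2⟩ := mzPsi_even hd hj hti
          rw [hw, h2, Pi.add_apply, mzPsi_ne _ hkj]
          omega
        rw [hzero _ k (h1 _ 1 (Or.inl rfl) (mzPsi_dirs y j).1),
          hzero _ k (h1 _ (-1) (Or.inr rfl) (mzPsi_dirs y j).2), add_zero, mul_zero]
    · have h1 : ∀ (w : Cell) (d : ℤ), (d = 1 ∨ d = -1) → w = y + d • e j →
          car 2 w i % 2 = 0 := by
        intro w d hd hw
        rcases Int.emod_two_eq_zero_or_one (car 2 y j) with h3 | h3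
        · obtain ⟨-, h2⟩ := mzPsi_even hd hj h3
          rw [hw, h2, Pi.add_apply, mzPsi_ne _ (Ne.symm hji), add_zero]
          exact hti
        · obtain ⟨h2, -⟩ := mzPsi_odd hd hj h3
          rw [hw, h2]
          exact hti
      rw [hzero _ i (h1 _ 1 (Or.inl rfl) (mzPsi_dirs y j).1),
        hzero _ i (h1 _ (-1) (Or.inr rfl) (mzPsi_dirs y j).2), add_zero, mul_zero]

end Cub
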