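import Pool.Agent.H33.CB.MzCar

/-!
# M2, step 1: transport from a cell `t` to a face `s`

`theta a t s` lowers the coordinates `0, 1, 2, 3` (those with `s i ≠ t i`) of `t` one after the other.  `mix k s t` agrees with `s` in the
coordinates `< k` and with `t` in the others.

LADDER (both theorems).  Flat squares: for a cell `c` with `c i`, `c j` odd, `i ≠ j`, and `c`, `q` in `A`:
`a c c_i + a c_i q = a c c_j + a c_j q`.
`theta_last`: `s' = s + d • e i`, `s' i = t i`.  `mix k s' t = mix k s t` for `k ≤ i`; `mix (i+1) s' t = mix i s t`; for `k > i`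
`mix k s' t = mix k s t + d • e i`.  Put `b k = a (mix k s' t) (mix k s t)` for `k > i`: `b (i+1)` is the `i`-th term of `theta a t s`
and `b 4 = a s' s`; the flat square for the coordinates `i`, `k` gives `b k + (k-th term of theta a t s) = (k-th term of theta a t s') + b (k+1)`
(also if `s k = t k`, then `b k = b (k+1)`); the `i`-th term of `theta a t s'` is zero.  Case distinction on `i : Fin 4`, at most three squares.
`theta_first`: `t' = t - d • e i`, `t' i = s i`: for `k ≤ i` `mix k s t' = mix k s t - d • e i`, `mix (i+1) s t' = mix (i+1) s t`, same ladder.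
All cells between `s` and `t` are in `A` because `A` is convex.
-/

namespace Cub

/-- `s` in the coordinates `< k`, `t` in the others. -/
def mix (k : ℕ) (s t : Cell) : Cell := fun j => if j.val < k then s j else t j

/-- Transport from `t` to its face `s`. -/
def theta (a : Cell → Cell → ZMod 3) (t s : Cell) : ZMod 3 :=
  ∑ i : Fin 4, if s i = t i then 0 else a (mix i.val s t) (mix (i.val + 1) s t)

private lemma e_same (i : Fin 4) : e i i = 1 := by simp [e]

private lemma e_ne {i j : Fin 4} (h : j ≠ i) : e i j = 0 := by simp [e, h]

/-- Pointwise between `s` and `t`. -/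
private lemma mem_between {A : Finset Cell} (hc : Conv A) {s t : Cell} (hs : s ∈ A) (ht : t ∈ A)
    (hle : Le s t) {c : Cell} (h : ∀ j, c j = s j ∨ c j = t j) : c ∈ A := by
  refine hc s hs t ht c ?_ ?_
  · intro j
    rcases h j with h1 | h1
    · exact Or.inl h1.symm
    · rw [h1]; exact hle j
  · intro j
    rcases h j with h1 | h1
    · rw [h1]; exact hle j
    · exact Or.inl h1

/-- One rung of the ladder. -/
private lemma rung {a : Cell → Cell → ZMod 3} {A : Finset Cell} (hf : Flat a A)
    {p p' q q' : Cell} (hp : p ∈ A) (hq' : q' ∈ A) (i k : Fin 4) (hik : i ≠ k) (x y : ℤ)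
    (hx : x = 1 ∨ x = -1) (hy : y = 1 ∨ y = -1) (hpi : p i % 2 = 1) (hpk : p k % 2 = 1)
    (h1 : p' = p + x • e i) (h2 : q = p + y • e k) (h3 : q' = p + x • e i + y • e k) :
    a p p' + a p' q' = a p q + a q q' := by
  subst h1; subst h2; subst h3
  exact hf p hp i k hik hpi hpk x y hx hy hq'

private lemma odd_of_ne {s t : Cell} (hle : Le s t) {k : Fin 4} (h : s k ≠ t k) :
    t k % 2 = 1 ∧ ∃ y : ℤ, (y = 1 ∨ y = -1) ∧ s k = t k + y := by
  rcases hle k with h1 | ⟨h1, h2 | h2⟩
  · exact absurd h1 h
  · exact ⟨h1, -1, Or.inr rfl, by rw [h2]; ring⟩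
  · exact ⟨h1, 1, Or.inl rfl, by rw [h2]⟩

theorem theta_last {a : Cell → Cell → ZMod 3} {A : Finset Cell} (hc : Conv A) (hf : Flat a A)
    {s t : Cell} (hs : s ∈ A) (ht : t ∈ A) (hle : Le s t) (i : Fin 4) (d : ℤ) (hd : d = 1 ∨ d = -1)
    (hi : s i % 2 = 0) (hti : t i = s i + d) :
    theta a t s = theta a t (s + d • e i) + a (s + d • e i) s := by
  set s' : Cell := s + d • e i with hs'
  have hs'i : s' i = t i := by simp [hs', e_same, hti]
  have hs'j : ∀ j, j ≠ i → s' j = s j := by
    intro j hj; simp [hs', e_ne hj]
  have hnei : s i ≠ t i := by rcases hd with h | h <;> rw [hti, h] <;> omega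
  have htodd : t i % 2 = 1 := by rcases hd with h | h <;> rw [hti, h] <;> omega
  -- terms before `i`
  have hlt : ∀ k : Fin 4, k < i →
      (if s' k = t k then 0 else a (mix k.val s' t) (mix (k.val + 1) s' t)) =
        (if s k = t k then 0 else a (mix k.val s t) (mix (k.val + 1) s t)) := by
    intro k hk
    have h1 : mix k.val s' t = mix k.val s t := by
      funext j
      unfold mix
      split_ifs with hj
      · exact hs'j j (by rintro rfl; exact absurd (Fin.lt_def.mp hk) (by omega))
      · rfl
    have h2 : mix (k.val + 1) s' t = mix (k.val + 1) s t := by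
      funext j
      unfold mix
      split_ifs with hj
      · exact hs'j j (by rintro rfl; exact absurd (Fin.lt_def.mp hk) (by omega))
      · rfl
    rw [h1, h2, hs'j k (ne_of_lt hk)]
  -- the term `i`
  have hTi : (if s i = t i then 0 else a (mix i.val s t) (mix (i.val + 1) s t)) =
      a (mix (i.val + 1) s' t) (mix (i.val + 1) s t) := by
    rw [if_neg hnei]
    have : mix i.val s t = mix (i.val + 1) s' t := by
      funext j
      unfold mix
      by_cases hj : j = i
      · subst hj; simp [hs'i]
      · have : j.val ≠ i.val := fun h => hj (Fin.ext h)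
        split_ifs with h1 h2 h2
        · exact (hs'j j hj).symm
        · omega
        · omega
        · rfl
    rw [this]
  -- the rungs
  have hgt : ∀ k : Fin 4, i < k →
      a (mix k.val s' t) (mix k.val s t) +
        (if s k = t k then 0 else a (mix k.val s t) (mix (k.val + 1) s t)) =
      (if s' k = t k then 0 else a (mix k.val s' t) (mix (k.val + 1) s' t)) +
        a (mix (k.val + 1) s' t) (mix (k.val + 1) s t) := by
    intro k hk
    have hkv : i.val < k.val := Fin.lt_def.mp hk
    have hki : k ≠ i := (ne_of_lt hk).symm
    rw [hs'j k hki]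
    by_cases hk0 : s k = t k
    · rw [if_pos hk0, if_pos hk0]
      have h1 : mix (k.val + 1) s t = mix k.val s t := by
        funext j
        unfold mix
        by_cases hj : j = k
        · subst hj; simp [hk0]
        · have : j.val ≠ k.val := fun h => hj (Fin.ext h)
          split_ifs with h1 h2 h2 <;> first | rfl | omega
      have h2 : mix (k.val + 1) s' t = mix k.val s' t := by
        funext j
        unfold mix
        by_cases hj : j = k
        · subst hj; simp [hs'j j hki, hk0]
        · have : j.val ≠ k.val := fun h => hj (Fin.ext h)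
          split_ifs with h1 h2 h2 <;> first | rfl | omega
      rw [h1, h2]; ring
    · rw [if_neg hk0, if_neg hk0]
      obtain ⟨hodd, y, hy, hsy⟩ := odd_of_ne hle hk0
      have hx : -d = 1 ∨ -d = -1 := by rcases hd with h | h <;> rw [h] <;> simp
      refine rung hf (p := mix k.val s' t) (p' := mix k.val s t) (q := mix (k.val + 1) s' t)
        (q' := mix (k.val + 1) s t) ?_ ?_ i k (ne_of_lt hk) (-d) y hx hy ?_ ?_ ?_ ?_ ?_
      · refine mem_between hc hs ht hle (fun j => ?_)
        unfold mix
        split_ifs with h1
        · by_cases hj : j = i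
          · subst hj; exact Or.inr hs'i
          · exact Or.inl (hs'j j hj)
        · exact Or.inr rfl
      · refine mem_between hc hs ht hle (fun j => ?_)
        unfold mix
        split_ifs with h1
        · exact Or.inl rfl
        · exact Or.inr rfl
      · unfold mix; rw [if_pos hkv, hs'i]; exact htodd
      · unfold mix; rw [if_neg (lt_irrefl _)]; exact hodd
      · funext j
        by_cases hj : j = i
        · subst hj
          simp only [Pi.add_apply, Pi.smul_apply, e_same, mix, if_pos hkv, hs'i, hti, smul_eq_mul]
          ring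
        · have := hs'j j hj
          simp only [Pi.add_apply, Pi.smul_apply, e_ne hj, mix, smul_eq_mul, mul_zero, add_zero]
          split_ifs <;> simp [this]
      · funext j
        by_cases hj : j = k
        · subst hj
          simp only [Pi.add_apply, Pi.smul_apply, e_same, mix, smul_eq_mul, lt_irrefl, if_false,
            Nat.lt_succ_self, if_true, hs'j j hki, hsy]
          ring
        · have h3 : j.val ≠ k.val := fun h => hj (Fin.ext h)
          simp only [Pi.add_apply, Pi.smul_apply, e_ne hj, mix, smul_eq_mul, mul_zero, add_zero]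
          split_ifs with h1 h2 h2 <;> first | rfl | omega
      · funext j
        by_cases hj : j = k
        · subst hj
          simp only [Pi.add_apply, Pi.smul_apply, e_same, e_ne hki, mix, smul_eq_mul, lt_irrefl,
            if_false, Nat.lt_succ_self, if_true, hsy]
          ring
        · have h3 : j.val ≠ k.val := fun h => hj (Fin.ext h)
          by_cases hji : j = i
          · subst hji
            have h4 : j.val < k.val + 1 := by omega
            simp only [Pi.add_apply, Pi.smul_apply, e_same, e_ne hj, mix, smul_eq_mul, if_pos hkv,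
              if_pos h4, hs'i, hti]
            ring
          · simp only [Pi.add_apply, Pi.smul_apply, e_ne hj, e_ne hji, mix, smul_eq_mul, mul_zero,
              add_zero, hs'j j hji]
            split_ifs with h1 h2 h2 <;> first | rfl | omega
  have hB : a (mix 4 s' t) (mix 4 s t) = a s' s := by
    have h1 : mix 4 s' t = s' := by funext j; unfold mix; rw [if_pos j.isLt]
    have h2 : mix 4 s t = s := by funext j; unfold mix; rw [if_pos j.isLt]
    rw [h1, h2]
  have hT'i : (if s' i = t i then 0 else a (mix i.val s' t) (mix (i.val + 1) s' t)) = 0 := by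
    rw [if_pos hs'i]
  unfold theta
  rw [← hB]
  rw [Fin.sum_univ_four, Fin.sum_univ_four]
  fin_cases i
  · have g1 := hgt 1 (by decide)
    have g2 := hgt 2 (by decide)
    have g3 := hgt 3 (by decide)
    simp only [Fin.zero_eta, Fin.isValue, Fin.val_zero, Fin.val_one, Fin.val_two, Nat.reduceAdd,
      show ((3 : Fin 4) : ℕ) = 3 from rfl] at g1 g2 g3 hTi hT'i ⊢
    linear_combination hTi - hT'i + g1 + g2 + g3
  · have g0 := hlt 0 (by decide)
    have g2 := hgt 2 (by decide)
    have g3 := hgt 3 (by decide)
    simp only [Fin.mk_one, Fin.isValue, Fin.val_zero, Fin.val_one, Fin.val_two, Nat.reduceAdd,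
      show ((3 : Fin 4) : ℕ) = 3 from rfl] at g0 g2 g3 hTi hT'i ⊢
    linear_combination hTi - hT'i - g0 + g2 + g3
  · have g0 := hlt 0 (by decide)
    have g1 := hlt 1 (by decide)
    have g3 := hgt 3 (by decide)
    simp only [Fin.reduceFinMk, Fin.isValue, Fin.val_zero, Fin.val_one, Fin.val_two, Nat.reduceAdd,
      show ((3 : Fin 4) : ℕ) = 3 from rfl] at g0 g1 g3 hTi hT'i ⊢
    linear_combination hTi - hT'i - g0 - g1 + g3
  · have g0 := hlt 0 (by decide)
    have g1 := hlt 1 (by decide)
    have g2 := hlt 2 (by decide)
    simp only [Fin.reduceFinMk, Fin.isValue, Fin.val_zero, Fin.val_one, Fin.val_two, Nat.reduceAdd,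
      show ((3 : Fin 4) : ℕ) = 3 from rfl] at g0 g1 g2 hTi hT'i ⊢
    linear_combination hTi - hT'i - g0 - g1 - g2

theorem theta_first {a : Cell → Cell → ZMod 3} {A : Finset Cell} (hc : Conv A) (hf : Flat a A)
    {s t : Cell} (hs : s ∈ A) (ht : t ∈ A) (hle : Le s t) (i : Fin 4) (d : ℤ) (hd : d = 1 ∨ d = -1)
    (hi : s i % 2 = 0) (hti : t i = s i + d) :
    theta a t s = a t (t - d • e i) + theta a (t - d • e i) s := by
  set t' : Cell := t - d • e i with ht'
  have ht'i : t' i = s i := by simp [ht', e_same, hti]
  have ht'j : ∀ j, j ≠ i → t' j = t j := by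
    intro j hj; simp [ht', e_ne hj]
  have hnei : s i ≠ t i := by rcases hd with h | h <;> rw [hti, h] <;> omega
  have htodd : t i % 2 = 1 := by rcases hd with h | h <;> rw [hti, h] <;> omega
  have hgt : ∀ k : Fin 4, i < k →
      (if s k = t' k then 0 else a (mix k.val s t') (mix (k.val + 1) s t')) =
        (if s k = t k then 0 else a (mix k.val s t) (mix (k.val + 1) s t)) := by
    intro k hk
    have hkv : i.val < k.val := Fin.lt_def.mp hk
    have h1 : mix k.val s t' = mix k.val s t := by
      funext j
      unfold mix
      split_ifs with hj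
      · rfl
      · exact ht'j j (by rintro rfl; omega)
    have h2 : mix (k.val + 1) s t' = mix (k.val + 1) s t := by
      funext j
      unfold mix
      split_ifs with hj
      · rfl
      · exact ht'j j (by rintro rfl; omega)
    rw [h1, h2, ht'j k (ne_of_lt hk).symm]
  have hTi : (if s i = t i then 0 else a (mix i.val s t) (mix (i.val + 1) s t)) =
      a (mix i.val s t) (mix i.val s t') := by
    rw [if_neg hnei]
    have : mix (i.val + 1) s t = mix i.val s t' := by
      funext j
      unfold mix
      by_cases hj : j = i
      · subst hj; simp [ht'i]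
      · have : j.val ≠ i.val := fun h => hj (Fin.ext h)
        split_ifs with h1 h2 h2
        · rfl
        · omega
        · omega
        · exact (ht'j j hj).symm
    rw [this]
  have hlt : ∀ k : Fin 4, k < i →
      a (mix k.val s t) (mix k.val s t') +
        (if s k = t' k then 0 else a (mix k.val s t') (mix (k.val + 1) s t')) =
      (if s k = t k then 0 else a (mix k.val s t) (mix (k.val + 1) s t)) +
        a (mix (k.val + 1) s t) (mix (k.val + 1) s t') := by
    intro k hk
    have hkv : k.val < i.val := Fin.lt_def.mp hk
    have hki : k ≠ i := ne_of_lt hk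
    rw [ht'j k hki]
    by_cases hk0 : s k = t k
    · rw [if_pos hk0, if_pos hk0]
      have h1 : mix (k.val + 1) s t = mix k.val s t := by
        funext j
        unfold mix
        by_cases hj : j = k
        · subst hj; simp [hk0]
        · have : j.val ≠ k.val := fun h => hj (Fin.ext h)
          split_ifs with h1 h2 h2 <;> first | rfl | omega
      have h2 : mix (k.val + 1) s t' = mix k.val s t' := by
        funext j
        unfold mix
        by_cases hj : j = k
        · subst hj; simp [ht'j j hki, hk0]
        · have : j.val ≠ k.val := fun h => hj (Fin.ext h)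
          split_ifs with h1 h2 h2 <;> first | rfl | omega
      rw [h1, h2]; ring
    · rw [if_neg hk0, if_neg hk0]
      obtain ⟨hodd, y, hy, hsy⟩ := odd_of_ne hle hk0
      have hx : -d = 1 ∨ -d = -1 := by rcases hd with h | h <;> rw [h] <;> simp
      refine rung hf (p := mix k.val s t) (p' := mix k.val s t') (q := mix (k.val + 1) s t)
        (q' := mix (k.val + 1) s t') ?_ ?_ i k hki.symm (-d) y hx hy ?_ ?_ ?_ ?_ ?_
      · refine mem_between hc hs ht hle (fun j => ?_)
        unfold mix
        split_ifs with h1
        · exact Or.inl rfl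
        · exact Or.inr rfl
      · refine mem_between hc hs ht hle (fun j => ?_)
        unfold mix
        split_ifs with h1
        · exact Or.inl rfl
        · by_cases hj : j = i
          · subst hj; exact Or.inl ht'i
          · exact Or.inr (ht'j j hj)
      · unfold mix; rw [if_neg (by omega)]; exact htodd
      · unfold mix; rw [if_neg (lt_irrefl _)]; exact hodd
      · funext j
        by_cases hj : j = i
        · subst hj
          have h4 : ¬ j.val < k.val := by omega
          simp only [Pi.add_apply, Pi.smul_apply, e_same, mix, if_neg h4, ht'i, hti, smul_eq_mul]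
          ring
        · have := ht'j j hj
          simp only [Pi.add_apply, Pi.smul_apply, e_ne hj, mix, smul_eq_mul, mul_zero, add_zero]
          split_ifs <;> simp [this]
      · funext j
        by_cases hj : j = k
        · subst hj
          simp only [Pi.add_apply, Pi.smul_apply, e_same, mix, smul_eq_mul, lt_irrefl, if_false,
            Nat.lt_succ_self, if_true, hsy]
          ring
        · have h3 : j.val ≠ k.val := fun h => hj (Fin.ext h)
          simp only [Pi.add_apply, Pi.smul_apply, e_ne hj, mix, smul_eq_mul, mul_zero, add_zero]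
          split_ifs with h1 h2 h2 <;> first | rfl | omega
      · funext j
        by_cases hj : j = k
        · subst hj
          simp only [Pi.add_apply, Pi.smul_apply, e_same, e_ne hki, mix, smul_eq_mul, lt_irrefl,
            if_false, Nat.lt_succ_self, if_true, hsy]
          ring
        · have h3 : j.val ≠ k.val := fun h => hj (Fin.ext h)
          by_cases hji : j = i
          · subst hji
            have h4 : ¬ j.val < k.val + 1 := by omega
            have h5 : ¬ j.val < k.val := by omega
            simp only [Pi.add_apply, Pi.smul_apply, e_same, e_ne hj, mix, smul_eq_mul, if_neg h5,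
              if_neg h4, ht'i, hti]
            ring
          · simp only [Pi.add_apply, Pi.smul_apply, e_ne hj, e_ne hji, mix, smul_eq_mul, mul_zero,
              add_zero, ht'j j hji]
            split_ifs with h1 h2 h2 <;> first | rfl | omega
  have hB : a (mix 0 s t) (mix 0 s t') = a t t' := by
    have h1 : mix 0 s t = t := by funext j; unfold mix; rw [if_neg (Nat.not_lt_zero _)]
    have h2 : mix 0 s t' = t' := by funext j; unfold mix; rw [if_neg (Nat.not_lt_zero _)]
    rw [h1, h2]
  have hT'i : (if s i = t' i then 0 else a (mix i.val s t') (mix (i.val + 1) s t')) = 0 := by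
    rw [if_pos ht'i.symm]
  unfold theta
  rw [← hB]
  rw [Fin.sum_univ_four, Fin.sum_univ_four]
  fin_cases i
  · have g1 := hgt 1 (by decide)
    have g2 := hgt 2 (by decide)
    have g3 := hgt 3 (by decide)
    simp only [Fin.zero_eta, Fin.isValue, Fin.val_zero, Fin.val_one, Fin.val_two, Nat.reduceAdd,
      show ((3 : Fin 4) : ℕ) = 3 from rfl] at g1 g2 g3 hTi hT'i ⊢
    linear_combination hTi - hT'i - g1 - g2 - g3
  · have g0 := hlt 0 (by decide)
    have g2 := hgt 2 (by decide)
    have g3 := hgt 3 (by decide)
    simp only [Fin.mk_one, Fin.isValue, Fin.val_zero, Fin.val_one, Fin.val_two, Nat.reduceAdd,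
      show ((3 : Fin 4) : ℕ) = 3 from rfl] at g0 g2 g3 hTi hT'i ⊢
    linear_combination hTi - hT'i - g0 - g2 - g3
  · have g0 := hlt 0 (by decide)
    have g1 := hlt 1 (by decide)
    have g3 := hgt 3 (by decide)
    simp only [Fin.reduceFinMk, Fin.isValue, Fin.val_zero, Fin.val_one, Fin.val_two, Nat.reduceAdd,
      show ((3 : Fin 4) : ℕ) = 3 from rfl] at g0 g1 g3 hTi hT'i ⊢
    linear_combination hTi - hT'i - g0 - g1 - g3
  · have g0 := hlt 0 (by decide)
    have g1 := hlt 1 (by decide)
    have g2 := hlt 2 (by decide)
    simp only [Fin.reduceFinMk, Fin.isValue, Fin.val_zero, Fin.val_one, Fin.val_two, Nat.reduceAdd,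
      show ((3 : Fin 4) : ℕ) = 3 from rfl] at g0 g1 g2 hTi hT'i ⊢
    linear_combination hTi - hT'i - g0 - g1 - g2

lemma theta_neg {a : Cell → Cell → ZMod 3} (ha : SymA a) (t s : Cell) :
    theta a (-t) (-s) = theta a t s := by
  have hm : ∀ k : ℕ, mix k (-s) (-t) = - mix k s t := by
    intro k
    funext j
    unfold mix
    simp only [Pi.neg_apply]
    split_ifs <;> rfl
  unfold theta
  refine Finset.sum_congr rfl (fun i _ => ?_)
  rw [hm, hm, ha]
  simp only [Pi.neg_apply, neg_inj]

end Cub
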