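import Pool.Agent.H33.CB.Stmt

/-!
# Module S1Loop: loops and table access for kernel computations
-/

namespace Cub
namespace Chk

/-- conjunction of `f 0, ..., f (n - 1)` -/
noncomputable def allN (n : ℕ) (f : ℕ → Bool) : Bool :=
  Nat.rec (motive := fun _ => Bool) true (fun k ih => f k && ih) n

/-- sum of `f 0, ..., f (n - 1)` -/
noncomputable def sumN (n : ℕ) (f : ℕ → ℕ) : ℕ :=
  Nat.rec (motive := fun _ => ℕ) 0 (fun k ih => Nat.add (f k) ih) n

theorem allN_iff (n : ℕ) (f : ℕ → Bool) : allN n f = true ↔ ∀ k < n, f k = true := by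
  induction n with
  | zero =>
    constructor
    · intro _ k hk
      exact absurd hk (Nat.not_lt_zero k)
    · intro _
      rfl
  | succ n ih =>
    have h : allN (n + 1) f = (f n && allN n f) := rfl
    rw [h, Bool.and_eq_true, ih]
    constructor
    · rintro ⟨h1, h2⟩ k hk
      rcases Nat.lt_succ_iff_lt_or_eq.1 hk with h3 | h3
      · exact h2 k h3
      · rw [h3]
        exact h1
    · intro h1
      exact ⟨h1 n (Nat.lt_succ_self n), fun k hk => h1 k (Nat.lt_succ_of_lt hk)⟩

theorem sumN_eq (n : ℕ) (f : ℕ → ℕ) : sumN n f = ∑ k ∈ Finset.range n, f k := by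
  induction n with
  | zero => rfl
  | succ n ih =>
    have h : sumN (n + 1) f = f n + sumN n f := rfl
    rw [h, ih, Finset.sum_range_succ, add_comm]

/-- nested loops -/
noncomputable def all4 (a b c d : ℕ) (f : ℕ → ℕ → ℕ → ℕ → Bool) : Bool :=
  allN a fun i => allN b fun j => allN c fun k => allN d fun l => f i j k l

theorem all4_iff (a b c d : ℕ) (f : ℕ → ℕ → ℕ → ℕ → Bool) :
    all4 a b c d f = true ↔ ∀ i < a, ∀ j < b, ∀ k < c, ∀ l < d, f i j k l = true := by
  unfold all4
  simp only [allN_iff]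

/-- nested sums -/
noncomputable def sum4 (a b c d : ℕ) (f : ℕ → ℕ → ℕ → ℕ → ℕ) : ℕ :=
  sumN a fun i => sumN b fun j => sumN c fun k => sumN d fun l => f i j k l

theorem sum4_eq (a b c d : ℕ) (f : ℕ → ℕ → ℕ → ℕ → ℕ) :
    sum4 a b c d f = ∑ i ∈ Finset.range a, ∑ j ∈ Finset.range b, ∑ k ∈ Finset.range c,
      ∑ l ∈ Finset.range d, f i j k l := by
  unfold sum4
  simp only [sumN_eq]

/-- bit number `x` of the table `T` -/
def bit (T x : ℕ) : Bool := Nat.beq (Nat.land (Nat.shiftRight T x) 1) 1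

theorem bit_eq (T x : ℕ) : bit T x = T.testBit x := by
  have h1 : Nat.land (Nat.shiftRight T x) 1 = (T >>> x) % 2 := Nat.and_one_is_mod _
  unfold bit
  rw [h1]
  rw [Nat.testBit, Nat.one_and_eq_mod_two]
  rcases Nat.mod_two_eq_zero_or_one (T >>> x) with h | h <;> rw [h] <;> rfl

/-- a field of `m` bits (given by its mask) of the table `T` -/
def fld (T w m x : ℕ) : ℕ := Nat.land (Nat.shiftRight T (Nat.mul w x)) m

end Chk
end Cub
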