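import Pool.Agent.H33.CB.S1Loop

/-!
# Module S2Cell: shifted coordinates

`kk n c i = c i + 2 n i + 1` (between `0` and `4 n i + 2` for the cells of the extended box
`XBox n`), `ofF n f` is the set of the cells of the extended box selected by the Boolean function
`f` of the four shifted coordinates.
-/

namespace Cub
namespace Chk

/-- shifted coordinates -/
def kk (n : Fin 4 → ℕ) (c : Cell) (i : Fin 4) : ℕ := (c i + (2 * (n i : ℤ) + 1)).toNat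

/-- the extended box -/
noncomputable def XBox (n : Fin 4 → ℕ) : Finset Cell :=
  Fintype.piFinset (fun i => Finset.Icc (-(2 * (n i : ℤ) + 1)) (2 * (n i : ℤ) + 1))

theorem mem_XBox {n : Fin 4 → ℕ} {c : Cell} :
    c ∈ XBox n ↔ ∀ i, -(2 * (n i : ℤ) + 1) ≤ c i ∧ c i ≤ 2 * (n i : ℤ) + 1 := by
  unfold XBox
  simp only [Fintype.mem_piFinset, Finset.mem_Icc]

theorem mem_Box' {n : Fin 4 → ℕ} {c : Cell} :
    c ∈ Box n ↔ ∀ i, -(2 * (n i : ℤ)) ≤ c i ∧ c i ≤ 2 * (n i : ℤ) := by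
  unfold Box
  simp only [Fintype.mem_piFinset, Finset.mem_Icc]

theorem box_sub_xbox {n : Fin 4 → ℕ} : Box n ⊆ XBox n := by
  intro c hc
  rw [mem_Box'] at hc
  rw [mem_XBox]
  intro i
  have := hc i
  omega

theorem mem_bd' {n : Fin 4 → ℕ} {c : Cell} :
    c ∈ bd n ↔ c ∈ Box n ∧ ∃ i, c i = 2 * (n i : ℤ) ∨ c i = -(2 * (n i : ℤ)) := by
  unfold bd
  rw [Finset.mem_filter]

/-- the cell with given shifted coordinates -/
def cel (n : Fin 4 → ℕ) (k0 k1 k2 k3 : ℕ) : Cell :=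
  ![(k0 : ℤ) - (2 * (n 0 : ℤ) + 1), (k1 : ℤ) - (2 * (n 1 : ℤ) + 1),
    (k2 : ℤ) - (2 * (n 2 : ℤ) + 1), (k3 : ℤ) - (2 * (n 3 : ℤ) + 1)]

theorem kk_cel (n : Fin 4 → ℕ) (k0 k1 k2 k3 : ℕ) :
    kk n (cel n k0 k1 k2 k3) 0 = k0 ∧ kk n (cel n k0 k1 k2 k3) 1 = k1 ∧
      kk n (cel n k0 k1 k2 k3) 2 = k2 ∧ kk n (cel n k0 k1 k2 k3) 3 = k3 := by
  refine ⟨?_, ?_, ?_, ?_⟩ <;> simp [kk, cel]

theorem cel_kk {n : Fin 4 → ℕ} {c : Cell} (hc : c ∈ XBox n) :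
    cel n (kk n c 0) (kk n c 1) (kk n c 2) (kk n c 3) = c := by
  rw [mem_XBox] at hc
  funext i
  have h0 := hc 0
  have h1 := hc 1
  have h2 := hc 2
  have h3 := hc 3
  fin_cases i
  · simp only [cel, kk]
    change ((c 0 + (2 * (n 0 : ℤ) + 1)).toNat : ℤ) - (2 * (n 0 : ℤ) + 1) = c 0
    rw [Int.toNat_of_nonneg (by omega)]
    omega
  · change ((c 1 + (2 * (n 1 : ℤ) + 1)).toNat : ℤ) - (2 * (n 1 : ℤ) + 1) = c 1
    rw [Int.toNat_of_nonneg (by omega)]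
    omega
  · change ((c 2 + (2 * (n 2 : ℤ) + 1)).toNat : ℤ) - (2 * (n 2 : ℤ) + 1) = c 2
    rw [Int.toNat_of_nonneg (by omega)]
    omega
  · change ((c 3 + (2 * (n 3 : ℤ) + 1)).toNat : ℤ) - (2 * (n 3 : ℤ) + 1) = c 3
    rw [Int.toNat_of_nonneg (by omega)]
    omega

theorem kk_cast {n : Fin 4 → ℕ} {c : Cell} (hc : c ∈ XBox n) (i : Fin 4) :
    (kk n c i : ℤ) = c i + (2 * (n i : ℤ) + 1) := by
  rw [mem_XBox] at hc
  have := hc i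
  unfold kk
  rw [Int.toNat_of_nonneg (by omega)]

theorem kk_lt {n : Fin 4 → ℕ} {c : Cell} (hc : c ∈ XBox n) (i : Fin 4) :
    kk n c i < 4 * n i + 3 := by
  have h1 := kk_cast hc i
  rw [mem_XBox] at hc
  have := hc i
  omega

theorem cel_mem {n : Fin 4 → ℕ} {k0 k1 k2 k3 : ℕ} (h0 : k0 < 4 * n 0 + 3) (h1 : k1 < 4 * n 1 + 3)
    (h2 : k2 < 4 * n 2 + 3) (h3 : k3 < 4 * n 3 + 3) : cel n k0 k1 k2 k3 ∈ XBox n := by
  rw [mem_XBox]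
  intro i
  fin_cases i
  · change -(2 * (n 0 : ℤ) + 1) ≤ (k0 : ℤ) - (2 * (n 0 : ℤ) + 1) ∧
      (k0 : ℤ) - (2 * (n 0 : ℤ) + 1) ≤ 2 * (n 0 : ℤ) + 1
    omega
  · change -(2 * (n 1 : ℤ) + 1) ≤ (k1 : ℤ) - (2 * (n 1 : ℤ) + 1) ∧
      (k1 : ℤ) - (2 * (n 1 : ℤ) + 1) ≤ 2 * (n 1 : ℤ) + 1
    omega
  · change -(2 * (n 2 : ℤ) + 1) ≤ (k2 : ℤ) - (2 * (n 2 : ℤ) + 1) ∧
      (k2 : ℤ) - (2 * (n 2 : ℤ) + 1) ≤ 2 * (n 2 : ℤ) + 1
    omega
  · change -(2 * (n 3 : ℤ) + 1) ≤ (k3 : ℤ) - (2 * (n 3 : ℤ) + 1) ∧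
      (k3 : ℤ) - (2 * (n 3 : ℤ) + 1) ≤ 2 * (n 3 : ℤ) + 1
    omega

/-- the cells selected by `f` -/
noncomputable def ofF (n : Fin 4 → ℕ) (f : ℕ → ℕ → ℕ → ℕ → Bool) : Finset Cell :=
  (XBox n).filter (fun c => f (kk n c 0) (kk n c 1) (kk n c 2) (kk n c 3) = true)

theorem mem_ofF {n : Fin 4 → ℕ} {f : ℕ → ℕ → ℕ → ℕ → Bool} {c : Cell} :
    c ∈ ofF n f ↔ c ∈ XBox n ∧ f (kk n c 0) (kk n c 1) (kk n c 2) (kk n c 3) = true := by
  unfold ofF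
  rw [Finset.mem_filter]

/-- sums over the extended box as nested sums -/
theorem sum_xbox {n : Fin 4 → ℕ} {M : Type} [AddCommMonoid M] (g : Cell → M) :
    ∑ c ∈ XBox n, g c = ∑ i ∈ Finset.range (4 * n 0 + 3), ∑ j ∈ Finset.range (4 * n 1 + 3),
      ∑ k ∈ Finset.range (4 * n 2 + 3), ∑ l ∈ Finset.range (4 * n 3 + 3), g (cel n i j k l) := by
  have h1 : ∑ c ∈ XBox n, g c = ∑ p ∈ Finset.range (4 * n 0 + 3) ×ˢ (Finset.range (4 * n 1 + 3) ×ˢ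
      (Finset.range (4 * n 2 + 3) ×ˢ Finset.range (4 * n 3 + 3))),
      g (cel n p.1 p.2.1 p.2.2.1 p.2.2.2) := by
    refine Finset.sum_bij' (fun c _ => (kk n c 0, (kk n c 1, (kk n c 2, kk n c 3))))
      (fun p _ => cel n p.1 p.2.1 p.2.2.1 p.2.2.2) ?_ ?_ ?_ ?_ ?_
    · intro c hc
      simp only [Finset.mem_product, Finset.mem_range]
      exact ⟨kk_lt hc 0, kk_lt hc 1, kk_lt hc 2, kk_lt hc 3⟩
    · intro p hp
      simp only [Finset.mem_product, Finset.mem_range] at hp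
      exact cel_mem hp.1 hp.2.1 hp.2.2.1 hp.2.2.2
    · intro c hc
      exact cel_kk hc
    · intro p _
      obtain ⟨a, b, c, d⟩ := p
      obtain ⟨h0, h1, h2, h3⟩ := kk_cel n a b c d
      exact Prod.ext h0 (Prod.ext h1 (Prod.ext h2 h3))
    · intro c hc
      simp only [cel_kk hc]
  rw [h1, Finset.sum_product]
  refine Finset.sum_congr rfl fun i _ => ?_
  rw [Finset.sum_product]
  refine Finset.sum_congr rfl fun j _ => ?_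
  rw [Finset.sum_product]

end Chk
end Cub
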