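import Pool.Agent.H33.CB.S2Cell

/-!
# Module S3Cx: complexes

`chkCx`: all selected cells are in the box and all their facets are selected.
-/

namespace Cub
namespace Chk

/-- the facets of the cell with coordinates `k0 k1 k2 k3` are selected -/
def facB (f : ℕ → ℕ → ℕ → ℕ → Bool) (k0 k1 k2 k3 : ℕ) : Bool :=
  (Nat.beq (Nat.mod k0 2) 1 || (f (Nat.pred k0) k1 k2 k3 && f (Nat.succ k0) k1 k2 k3)) &&
  (Nat.beq (Nat.mod k1 2) 1 || (f k0 (Nat.pred k1) k2 k3 && f k0 (Nat.succ k1) k2 k3)) &&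
  (Nat.beq (Nat.mod k2 2) 1 || (f k0 k1 (Nat.pred k2) k3 && f k0 k1 (Nat.succ k2) k3)) &&
  (Nat.beq (Nat.mod k3 2) 1 || (f k0 k1 k2 (Nat.pred k3) && f k0 k1 k2 (Nat.succ k3)))

/-- the cell is in the box -/
def inB (r0 r1 r2 r3 k0 k1 k2 k3 : ℕ) : Bool :=
  (Nat.ble 1 k0 && Nat.ble (Nat.add k0 2) r0) && (Nat.ble 1 k1 && Nat.ble (Nat.add k1 2) r1) &&
  (Nat.ble 1 k2 && Nat.ble (Nat.add k2 2) r2) && (Nat.ble 1 k3 && Nat.ble (Nat.add k3 2) r3)

/-- the check of one cell -/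
def cxB (r0 r1 r2 r3 : ℕ) (f : ℕ → ℕ → ℕ → ℕ → Bool) (k0 k1 k2 k3 : ℕ) : Bool :=
  !(f k0 k1 k2 k3) || (inB r0 r1 r2 r3 k0 k1 k2 k3 && facB f k0 k1 k2 k3)

/-- closed under facets -/
def FC (F : Finset Cell) : Prop := ∀ c ∈ F, ∀ i, c i % 2 = 1 →
  Function.update c i (c i - 1) ∈ F ∧ Function.update c i (c i + 1) ∈ F

theorem isComplex_of_FC {F : Finset Cell} (h : FC F) : IsComplex F := by
  have step : ∀ c ∈ F, ∀ (i : Fin 4) (x : ℤ),
      (x = c i ∨ (c i % 2 = 1 ∧ (x = c i - 1 ∨ x = c i + 1))) → Function.update c i x ∈ F := by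
    intro c hc i x hx
    rcases hx with hx | ⟨h1, hx | hx⟩
    · rw [hx, Function.update_eq_self]
      exact hc
    · rw [hx]
      exact (h c hc i h1).1
    · rw [hx]
      exact (h c hc i h1).2
  intro b hb a hab
  have h0 := step b hb 0 (a 0) (hab 0)
  have h1 := step _ h0 1 (a 1) (by
    rw [Function.update_of_ne (by decide)]
    exact hab 1)
  have h2 := step _ h1 2 (a 2) (by
    rw [Function.update_of_ne (by decide), Function.update_of_ne (by decide)]
    exact hab 2)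
  have h3 := step _ h2 3 (a 3) (by
    rw [Function.update_of_ne (by decide), Function.update_of_ne (by decide),
      Function.update_of_ne (by decide)]
    exact hab 3)
  have e : Function.update (Function.update (Function.update (Function.update b 0 (a 0)) 1 (a 1))
      2 (a 2)) 3 (a 3) = a := by
    funext i
    fin_cases i <;> simp [Function.update]
  rw [e] at h3
  exact h3

section

variable {n : Fin 4 → ℕ} {f : ℕ → ℕ → ℕ → ℕ → Bool}

private theorem S3_upd {c : Cell} (hc : c ∈ Box n) {i : Fin 4} (hi : c i % 2 = 1) :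
    (Function.update c i (c i - 1) ∈ XBox n ∧ Function.update c i (c i + 1) ∈ XBox n) ∧
    kk n (Function.update c i (c i - 1)) i = (kk n c i).pred ∧
    kk n (Function.update c i (c i + 1)) i = (kk n c i).succ ∧
    (∀ j, j ≠ i → kk n (Function.update c i (c i - 1)) j = kk n c j ∧
      kk n (Function.update c i (c i + 1)) j = kk n c j) ∧ kk n c i % 2 = 0 := by
  rw [mem_Box'] at hc
  refine ⟨⟨?_, ?_⟩, ?_, ?_, ?_, ?_⟩
  · rw [mem_XBox]
    intro j
    by_cases hj : j = i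
    · subst hj
      rw [Function.update_self]
      have := hc j
      omega
    · rw [Function.update_of_ne hj]
      have := hc j
      omega
  · rw [mem_XBox]
    intro j
    by_cases hj : j = i
    · subst hj
      rw [Function.update_self]
      have := hc j
      omega
    · rw [Function.update_of_ne hj]
      have := hc j
      omega
  · unfold kk
    rw [Function.update_self]
    have := hc i
    have h1 : c i - 1 + (2 * (n i : ℤ) + 1) = c i + (2 * (n i : ℤ) + 1) - 1 := by ring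
    rw [h1, Nat.pred_eq_sub_one]
    omega
  · unfold kk
    rw [Function.update_self]
    have := hc i
    have h1 : c i + 1 + (2 * (n i : ℤ) + 1) = c i + (2 * (n i : ℤ) + 1) + 1 := by ring
    rw [h1, Nat.succ_eq_add_one]
    omega
  · intro j hj
    unfold kk
    rw [Function.update_of_ne hj, Function.update_of_ne hj]
    exact ⟨rfl, rfl⟩
  · have := hc i
    unfold kk
    omega

private theorem S3_beq (x : ℕ) (h : x % 2 = 0) : Nat.beq (Nat.mod x 2) 1 = false := by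
  have h1 : Nat.mod x 2 = 0 := h
  rw [h1]
  rfl

theorem cx_sound {r0 r1 r2 r3 : ℕ} (h0 : r0 = 4 * n 0 + 3) (h1 : r1 = 4 * n 1 + 3)
    (h2 : r2 = 4 * n 2 + 3) (h3 : r3 = 4 * n 3 + 3)
    (hB : ∀ k0 < r0, ∀ k1 < r1, ∀ k2 < r2, ∀ k3 < r3, cxB r0 r1 r2 r3 f k0 k1 k2 k3 = true) :
    ofF n f ⊆ Box n ∧ FC (ofF n f) := by
  subst h0 h1 h2 h3
  have key : ∀ c ∈ ofF n f, inB (4 * n 0 + 3) (4 * n 1 + 3) (4 * n 2 + 3) (4 * n 3 + 3) (kk n c 0)
      (kk n c 1) (kk n c 2) (kk n c 3) = true ∧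
      facB f (kk n c 0) (kk n c 1) (kk n c 2) (kk n c 3) = true := by
    intro c hc
    rw [mem_ofF] at hc
    have h := hB _ (kk_lt hc.1 0) _ (kk_lt hc.1 1) _ (kk_lt hc.1 2) _ (kk_lt hc.1 3)
    unfold cxB at h
    rw [hc.2] at h
    rw [Bool.not_true, Bool.false_or, Bool.and_eq_true] at h
    exact h
  have hbox : ofF n f ⊆ Box n := by
    intro c hc
    have hx := (mem_ofF.1 hc).1
    have h := (key c hc).1
    unfold inB at h
    simp only [Bool.and_eq_true, Nat.ble_eq, Nat.add_eq] at h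
    obtain ⟨⟨⟨h0, h1⟩, h2⟩, h3⟩ := h
    have g0 := kk_cast hx 0
    have g1 := kk_cast hx 1
    have g2 := kk_cast hx 2
    have g3 := kk_cast hx 3
    rw [mem_Box']
    intro i
    fin_cases i
    · change -(2 * (n 0 : ℤ)) ≤ c 0 ∧ c 0 ≤ 2 * (n 0 : ℤ)
      omega
    · change -(2 * (n 1 : ℤ)) ≤ c 1 ∧ c 1 ≤ 2 * (n 1 : ℤ)
      omega
    · change -(2 * (n 2 : ℤ)) ≤ c 2 ∧ c 2 ≤ 2 * (n 2 : ℤ)
      omega
    · change -(2 * (n 3 : ℤ)) ≤ c 3 ∧ c 3 ≤ 2 * (n 3 : ℤ)
      omega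
  refine ⟨hbox, ?_⟩
  intro c hc i hi
  have h := (key c hc).2
  obtain ⟨⟨m1, m2⟩, e1, e2, e3, e4⟩ := S3_upd (hbox hc) hi
  unfold facB at h
  simp only [Bool.and_eq_true] at h
  obtain ⟨⟨⟨h0, h1⟩, h2⟩, h3⟩ := h
  fin_cases i
  · change kk n (Function.update c 0 (c 0 - 1)) 0 = (kk n c 0).pred at e1
    change kk n (Function.update c 0 (c 0 + 1)) 0 = (kk n c 0).succ at e2
    change kk n c 0 % 2 = 0 at e4
    rw [S3_beq _ e4, Bool.false_or, Bool.and_eq_true] at h0
    change Function.update c 0 (c 0 - 1) ∈ ofF n f ∧ Function.update c 0 (c 0 + 1) ∈ ofF n f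
    rw [mem_ofF, mem_ofF, e1, e2]
    have t1 := e3 1 (by decide)
    have t2 := e3 2 (by decide)
    have t3 := e3 3 (by decide)
    change kk n (Function.update c 0 (c 0 - 1)) 1 = kk n c 1 ∧
      kk n (Function.update c 0 (c 0 + 1)) 1 = kk n c 1 at t1
    change kk n (Function.update c 0 (c 0 - 1)) 2 = kk n c 2 ∧
      kk n (Function.update c 0 (c 0 + 1)) 2 = kk n c 2 at t2
    change kk n (Function.update c 0 (c 0 - 1)) 3 = kk n c 3 ∧
      kk n (Function.update c 0 (c 0 + 1)) 3 = kk n c 3 at t3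
    rw [t1.1, t1.2, t2.1, t2.2, t3.1, t3.2]
    exact ⟨⟨m1, h0.1⟩, ⟨m2, h0.2⟩⟩
  · change kk n (Function.update c 1 (c 1 - 1)) 1 = (kk n c 1).pred at e1
    change kk n (Function.update c 1 (c 1 + 1)) 1 = (kk n c 1).succ at e2
    change kk n c 1 % 2 = 0 at e4
    rw [S3_beq _ e4, Bool.false_or, Bool.and_eq_true] at h1
    change Function.update c 1 (c 1 - 1) ∈ ofF n f ∧ Function.update c 1 (c 1 + 1) ∈ ofF n f
    rw [mem_ofF, mem_ofF, e1, e2]
    have t1 := e3 0 (by decide)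
    have t2 := e3 2 (by decide)
    have t3 := e3 3 (by decide)
    change kk n (Function.update c 1 (c 1 - 1)) 0 = kk n c 0 ∧
      kk n (Function.update c 1 (c 1 + 1)) 0 = kk n c 0 at t1
    change kk n (Function.update c 1 (c 1 - 1)) 2 = kk n c 2 ∧
      kk n (Function.update c 1 (c 1 + 1)) 2 = kk n c 2 at t2
    change kk n (Function.update c 1 (c 1 - 1)) 3 = kk n c 3 ∧
      kk n (Function.update c 1 (c 1 + 1)) 3 = kk n c 3 at t3
    rw [t1.1, t1.2, t2.1, t2.2, t3.1, t3.2]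
    exact ⟨⟨m1, h1.1⟩, ⟨m2, h1.2⟩⟩
  · change kk n (Function.update c 2 (c 2 - 1)) 2 = (kk n c 2).pred at e1
    change kk n (Function.update c 2 (c 2 + 1)) 2 = (kk n c 2).succ at e2
    change kk n c 2 % 2 = 0 at e4
    rw [S3_beq _ e4, Bool.false_or, Bool.and_eq_true] at h2
    change Function.update c 2 (c 2 - 1) ∈ ofF n f ∧ Function.update c 2 (c 2 + 1) ∈ ofF n f
    rw [mem_ofF, mem_ofF, e1, e2]
    have t1 := e3 0 (by decide)
    have t2 := e3 1 (by decide)
    have t3 := e3 3 (by decide)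
    change kk n (Function.update c 2 (c 2 - 1)) 0 = kk n c 0 ∧
      kk n (Function.update c 2 (c 2 + 1)) 0 = kk n c 0 at t1
    change kk n (Function.update c 2 (c 2 - 1)) 1 = kk n c 1 ∧
      kk n (Function.update c 2 (c 2 + 1)) 1 = kk n c 1 at t2
    change kk n (Function.update c 2 (c 2 - 1)) 3 = kk n c 3 ∧
      kk n (Function.update c 2 (c 2 + 1)) 3 = kk n c 3 at t3
    rw [t1.1, t1.2, t2.1, t2.2, t3.1, t3.2]
    exact ⟨⟨m1, h2.1⟩, ⟨m2, h2.2⟩⟩
  · change kk n (Function.update c 3 (c 3 - 1)) 3 = (kk n c 3).pred at e1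
    change kk n (Function.update c 3 (c 3 + 1)) 3 = (kk n c 3).succ at e2
    change kk n c 3 % 2 = 0 at e4
    rw [S3_beq _ e4, Bool.false_or, Bool.and_eq_true] at h3
    change Function.update c 3 (c 3 - 1) ∈ ofF n f ∧ Function.update c 3 (c 3 + 1) ∈ ofF n f
    rw [mem_ofF, mem_ofF, e1, e2]
    have t1 := e3 0 (by decide)
    have t2 := e3 1 (by decide)
    have t3 := e3 2 (by decide)
    change kk n (Function.update c 3 (c 3 - 1)) 0 = kk n c 0 ∧
      kk n (Function.update c 3 (c 3 + 1)) 0 = kk n c 0 at t1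
    change kk n (Function.update c 3 (c 3 - 1)) 1 = kk n c 1 ∧
      kk n (Function.update c 3 (c 3 + 1)) 1 = kk n c 1 at t2
    change kk n (Function.update c 3 (c 3 - 1)) 2 = kk n c 2 ∧
      kk n (Function.update c 3 (c 3 + 1)) 2 = kk n c 2 at t3
    rw [t1.1, t1.2, t2.1, t2.2, t3.1, t3.2]
    exact ⟨⟨m1, h3.1⟩, ⟨m2, h3.2⟩⟩

end

end Chk
end Cub
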