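import Pool.Agent.H33.CB.S3Cx

/-!
# Module S4Link: links of vertices, checked with bit masks

The cell with shifted coordinates `k` has the number `k0 w0 + k1 w1 + k2 w2 + k3` in the table `T`.
The neighbour `v + δ` (`δ i = -1, 0, 1`) of the vertex `v` with the number `x` has the number
`(x - Z) + pos δ`, `pos δ = Z + δ0 w0 + δ1 w1 + δ2 w2 + δ3`, `Z = w0 + w1 + w2 + 1`.
-/

namespace Cub
namespace Chk

/-- row number `k` of the table `T`, of length `w` -/
def row (w T k : ℕ) : ℕ := Nat.land (Nat.shiftRight T (Nat.mul k w)) (Nat.sub (Nat.pow 2 w) 1)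

/-- membership in the table -/
def tf (w0 w1 w2 T : ℕ) (k0 k1 k2 k3 : ℕ) : Bool :=
  bit (row w1 (row w0 T k0) k1) (Nat.add (Nat.mul k2 w2) k3)

theorem row_test {w T k x : ℕ} (h : x < w) : (row w T k).testBit x = T.testBit (k * w + x) := by
  have h1 : (row w T k).testBit x = ((T >>> (k * w)) &&& (2 ^ w - 1)).testBit x := rfl
  rw [h1, Nat.testBit_and, Nat.testBit_two_pow_sub_one, decide_eq_true h, Bool.and_true,
    Nat.testBit_shiftRight]

/-- the number of the cell `c` -/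
def num (n : Fin 4 → ℕ) (w0 w1 w2 : ℕ) (c : Cell) : ℕ :=
  kk n c 0 * w0 + kk n c 1 * w1 + kk n c 2 * w2 + kk n c 3

/-- position of the central bit -/
def zz (w0 w1 w2 : ℕ) : ℕ := w0 + w1 + w2 + 1

/-- position of `δ` -/
def posZ (w0 w1 w2 : ℕ) (δ : Cell) : ℤ :=
  (zz w0 w1 w2 : ℤ) + w0 * δ 0 + w1 * δ 1 + w2 * δ 2 + δ 3

/-- disjunction of the powers `2 ^ p`, `p ∈ L` -/
def orL : List ℕ → ℕ
  | [] => 0
  | p :: L => Nat.lor (Nat.shiftLeft 1 p) (orL L)

theorem orL_test (L : List ℕ) (j : ℕ) : (orL L).testBit j = true ↔ j ∈ L := by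
  induction L with
  | nil => simp [orL]
  | cons p L ih =>
    have h : orL (p :: L) = (1 <<< p) ||| orL L := rfl
    rw [h, Nat.testBit_or, Bool.or_eq_true, ih, List.mem_cons, Nat.one_shiftLeft,
      Nat.testBit_two_pow]
    rw [decide_eq_true_iff]
    constructor
    · rintro (h1 | h1)
      · exact Or.inl h1.symm
      · exact Or.inr h1
    · rintro (h1 | h1)
      · exact Or.inl h1.symm
      · exact Or.inr h1

/-- weights: the numbers of the neighbours are different, and `mk` has all their bits -/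
structure Wts (n : Fin 4 → ℕ) (w0 w1 w2 mk : ℕ) : Prop where
  lt1 : ∀ a < 4 * n 2 + 3, ∀ b < 4 * n 3 + 3, a * w2 + b < w1
  lt0 : ∀ a < 4 * n 1 + 3, ∀ y < w1, a * w1 + y < w0
  inj : ∀ x0 x1 x2 x3 : ℤ, (-2 ≤ x0 ∧ x0 ≤ 2) → (-2 ≤ x1 ∧ x1 ≤ 2) → (-2 ≤ x2 ∧ x2 ≤ 2) →
    (-2 ≤ x3 ∧ x3 ≤ 2) → (w0 : ℤ) * x0 + w1 * x1 + w2 * x2 + x3 = 0 →
    x0 = 0 ∧ x1 = 0 ∧ x2 = 0 ∧ x3 = 0
  mask : ∀ a < 3, ∀ b < 3, ∀ c < 3, ∀ d < 3, mk.testBit (a * w0 + b * w1 + c * w2 + d) = true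

/-- vectors with entries `-1, 0, 1` -/
def Sm (δ : Cell) : Prop := ∀ i, -1 ≤ δ i ∧ δ i ≤ 1

section

variable {n : Fin 4 → ℕ} {w0 w1 w2 mk T : ℕ}

theorem posZ_inj (hw : Wts n w0 w1 w2 mk) {δ ε : Cell} (h1 : Sm δ) (h2 : Sm ε)
    (h : posZ w0 w1 w2 δ = posZ w0 w1 w2 ε) : δ = ε := by
  unfold posZ at h
  have h3 := hw.inj (δ 0 - ε 0) (δ 1 - ε 1) (δ 2 - ε 2) (δ 3 - ε 3)
    (by have := h1 0; have := h2 0; omega) (by have := h1 1; have := h2 1; omega)
    (by have := h1 2; have := h2 2; omega) (by have := h1 3; have := h2 3; omega)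
    (by linear_combination h)
  funext i
  fin_cases i
  · change δ 0 = ε 0
    omega
  · change δ 1 = ε 1
    omega
  · change δ 2 = ε 2
    omega
  · change δ 3 = ε 3
    omega

theorem posZ_nat {δ : Cell} (h : Sm δ) : ∃ a < 3, ∃ b < 3, ∃ c < 3, ∃ d < 3,
    posZ w0 w1 w2 δ = ((a * w0 + b * w1 + c * w2 + d : ℕ) : ℤ) := by
  have e0 : ((δ 0 + 1).toNat : ℤ) = δ 0 + 1 := Int.toNat_of_nonneg (by have := h 0; omega)
  have e1 : ((δ 1 + 1).toNat : ℤ) = δ 1 + 1 := Int.toNat_of_nonneg (by have := h 1; omega)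
  have e2 : ((δ 2 + 1).toNat : ℤ) = δ 2 + 1 := Int.toNat_of_nonneg (by have := h 2; omega)
  have e3 : ((δ 3 + 1).toNat : ℤ) = δ 3 + 1 := Int.toNat_of_nonneg (by have := h 3; omega)
  refine ⟨(δ 0 + 1).toNat, by have := h 0; omega, (δ 1 + 1).toNat, by have := h 1; omega,
    (δ 2 + 1).toNat, by have := h 2; omega, (δ 3 + 1).toNat, by have := h 3; omega, ?_⟩
  unfold posZ zz
  push_cast
  rw [e0, e1, e2, e3]
  ring

theorem mem_tf (hw : Wts n w0 w1 w2 mk) {c : Cell} : c ∈ ofF n (tf w0 w1 w2 T) ↔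
    c ∈ XBox n ∧ T.testBit (num n w0 w1 w2 c) = true := by
  rw [mem_ofF]
  refine and_congr_right fun hc => ?_
  have h1 := hw.lt1 _ (kk_lt hc 2) _ (kk_lt hc 3)
  have h0 := hw.lt0 _ (kk_lt hc 1) _ h1
  unfold tf
  rw [bit_eq]
  have h2 : Nat.add (Nat.mul (kk n c 2) w2) (kk n c 3) = kk n c 2 * w2 + kk n c 3 := rfl
  rw [h2, row_test h1, row_test h0]
  have h3 : kk n c 0 * w0 + (kk n c 1 * w1 + (kk n c 2 * w2 + kk n c 3)) = num n w0 w1 w2 c := by
    unfold num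
    ring
  rw [h3]

theorem num_add {v δ : Cell} (hv : v ∈ Box n) (h : Sm δ) : v + δ ∈ XBox n ∧
    (num n w0 w1 w2 (v + δ) : ℤ) =
      ((num n w0 w1 w2 v - zz w0 w1 w2 : ℕ) : ℤ) + posZ w0 w1 w2 δ := by
  have hx : v + δ ∈ XBox n := by
    rw [mem_Box'] at hv
    rw [mem_XBox]
    intro i
    have := hv i
    have := h i
    rw [Pi.add_apply]
    omega
  refine ⟨hx, ?_⟩
  have hvx := box_sub_xbox hv
  have g : ∀ i, 1 ≤ kk n v i := by
    intro i
    have h1 := kk_cast hvx i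
    rw [mem_Box'] at hv
    have := hv i
    omega
  have hle : zz w0 w1 w2 ≤ num n w0 w1 w2 v := by
    unfold zz num
    have h0 := Nat.mul_le_mul_right w0 (g 0)
    have h1 := Nat.mul_le_mul_right w1 (g 1)
    have h2 := Nat.mul_le_mul_right w2 (g 2)
    have h3 := g 3
    omega
  rw [Nat.cast_sub hle]
  unfold num posZ
  push_cast
  rw [kk_cast hx 0, kk_cast hx 1, kk_cast hx 2, kk_cast hx 3, kk_cast hvx 0, kk_cast hvx 1,
    kk_cast hvx 2, kk_cast hvx 3]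
  simp only [Pi.add_apply]
  ring

/-- the main lemma: the neighbours of `v` are given by the bits of the list `P` -/
theorem mask_sound (hw : Wts n w0 w1 w2 mk) {v : Cell} (hv : v ∈ Box n) {P : List ℕ}
    (hP : Nat.land (Nat.shiftRight T (num n w0 w1 w2 v - zz w0 w1 w2)) mk = orL P) {δ : Cell}
    (h : Sm δ) : v + δ ∈ ofF n (tf w0 w1 w2 T) ↔ (posZ w0 w1 w2 δ).toNat ∈ P := by
  obtain ⟨hx, hnum⟩ := num_add (w0 := w0) (w1 := w1) (w2 := w2) hv h
  obtain ⟨a, ha, b, hb, c, hc, d, hd, hp⟩ := posZ_nat (w0 := w0) (w1 := w1) (w2 := w2) h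
  have hp2 : (posZ w0 w1 w2 δ).toNat = a * w0 + b * w1 + c * w2 + d := by
    rw [hp, Int.toNat_natCast]
  have hnum2 : num n w0 w1 w2 (v + δ) =
      (num n w0 w1 w2 v - zz w0 w1 w2) + (posZ w0 w1 w2 δ).toNat := by
    rw [hp2]
    rw [hp] at hnum
    exact_mod_cast hnum
  have hm := hw.mask a ha b hb c hc d hd
  rw [mem_tf hw, hnum2, ← orL_test, ← hP]
  have h1 : (Nat.land (Nat.shiftRight T (num n w0 w1 w2 v - zz w0 w1 w2)) mk).testBit
      (posZ w0 w1 w2 δ).toNat = ((T >>> (num n w0 w1 w2 v - zz w0 w1 w2)) &&& mk).testBit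
      (posZ w0 w1 w2 δ).toNat := rfl
  rw [h1, Nat.testBit_and, Nat.testBit_shiftRight, hp2, hm, Bool.and_true]
  exact ⟨fun h => h.2, fun h => ⟨hx, h⟩⟩

theorem le_iff {v c : Cell} (hv : ∀ i, v i % 2 = 0) : Le v c ↔ Sm (c - v) := by
  constructor
  · intro h i
    rw [Pi.sub_apply]
    have := h i
    omega
  · intro h i
    have h1 := h i
    rw [Pi.sub_apply] at h1
    have h2 := hv i
    omega

/-! ## directions -/

/-- the eight positions of the directions -/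
def isDirB (w0 w1 w2 p : ℕ) : Bool :=
  Nat.beq p (zz w0 w1 w2 + w0) || Nat.beq (p + w0) (zz w0 w1 w2) ||
  Nat.beq p (zz w0 w1 w2 + w1) || Nat.beq (p + w1) (zz w0 w1 w2) ||
  Nat.beq p (zz w0 w1 w2 + w2) || Nat.beq (p + w2) (zz w0 w1 w2) ||
  Nat.beq p (zz w0 w1 w2 + 1) || Nat.beq (p + 1) (zz w0 w1 w2)

theorem exists_dir {p : ℕ} (h : isDirB w0 w1 w2 p = true) :
    ∃ d : Cell, IsDir d ∧ posZ w0 w1 w2 d = p := by
  unfold isDirB at h
  simp only [Bool.or_eq_true, Nat.beq_eq] at h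
  unfold posZ
  rcases h with ((((((h | h) | h) | h) | h) | h) | h) | h
  · refine ⟨Pi.single 0 1, ⟨0, Or.inl rfl⟩, ?_⟩
    simp [Pi.single_apply]
    omega
  · refine ⟨Pi.single 0 (-1), ⟨0, Or.inr rfl⟩, ?_⟩
    simp [Pi.single_apply]
    omega
  · refine ⟨Pi.single 1 1, ⟨1, Or.inl rfl⟩, ?_⟩
    simp [Pi.single_apply]
    omega
  · refine ⟨Pi.single 1 (-1), ⟨1, Or.inr rfl⟩, ?_⟩
    simp [Pi.single_apply]
    omega
  · refine ⟨Pi.single 2 1, ⟨2, Or.inl rfl⟩, ?_⟩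
    simp [Pi.single_apply]
    omega
  · refine ⟨Pi.single 2 (-1), ⟨2, Or.inr rfl⟩, ?_⟩
    simp [Pi.single_apply]
    omega
  · refine ⟨Pi.single 3 1, ⟨3, Or.inl rfl⟩, ?_⟩
    simp [Pi.single_apply]
    omega
  · refine ⟨Pi.single 3 (-1), ⟨3, Or.inr rfl⟩, ?_⟩
    simp [Pi.single_apply]
    omega

open Classical in
/-- the direction with the position `p` -/
noncomputable def dc (w0 w1 w2 p : ℕ) : Cell :=
  if h : isDirB w0 w1 w2 p = true then (exists_dir h).choose else 0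

theorem dc_spec {p : ℕ} (h : isDirB w0 w1 w2 p = true) :
    IsDir (dc w0 w1 w2 p) ∧ posZ w0 w1 w2 (dc w0 w1 w2 p) = p := by
  unfold dc
  rw [dif_pos h]
  exact (exists_dir h).choose_spec

theorem sm_dir {d : Cell} (h : IsDir d) : Sm d := by
  obtain ⟨i, h | h⟩ := h
  · intro j
    rw [h, Pi.single_apply]
    split <;> omega
  · intro j
    rw [h, Pi.single_apply]
    split <;> omega

theorem sm_zero : Sm (0 : Cell) := fun i => by simp

theorem posZ_zero : posZ w0 w1 w2 0 = (zz w0 w1 w2 : ℤ) := by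
  unfold posZ
  simp

theorem posZ_add (d e : Cell) :
    posZ w0 w1 w2 (d + e) = posZ w0 w1 w2 d + posZ w0 w1 w2 e - zz w0 w1 w2 := by
  unfold posZ
  simp only [Pi.add_apply]
  ring

theorem posZ_neg (d : Cell) :
    posZ w0 w1 w2 (-d) = 2 * (zz w0 w1 w2 : ℤ) - posZ w0 w1 w2 d := by
  unfold posZ
  simp only [Pi.neg_apply]
  ring

theorem sm_add {d e : Cell} (hd : IsDir d) (he : IsDir e) (h1 : d ≠ e) (h2 : e ≠ -d) :
    Sm (d + e) := by
  obtain ⟨i, hi⟩ := hd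
  obtain ⟨j, hj⟩ := he
  have hij : i ≠ j := by
    rintro rfl
    rcases hi with hi | hi <;> rcases hj with hj | hj
    · exact h1 (hi.trans hj.symm)
    · apply h2
      rw [hi, hj, ← Pi.single_neg]
    · apply h2
      rw [hi, hj, ← Pi.single_neg]
      norm_num
    · exact h1 (hi.trans hj.symm)
  intro k
  rw [Pi.add_apply]
  by_cases hk : k = i
  · subst hk
    rcases hi with hi | hi <;> rcases hj with hj | hj <;>
      rw [hi, hj, Pi.single_eq_same, Pi.single_eq_of_ne hij] <;> omega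
  · rcases hi with hi | hi <;> rcases hj with hj | hj <;>
      rw [hi, hj, Pi.single_eq_of_ne hk, Pi.single_apply] <;> split <;> omega

/-- no repetition -/
def nodupB : List ℕ → Bool
  | [] => true
  | x :: L => !(L.any (Nat.beq x)) && nodupB L

theorem nodup_of {L : List ℕ} (h : nodupB L = true) : L.Nodup := by
  induction L with
  | nil => exact List.nodup_nil
  | cons x L ih =>
    have h1 : (!(L.any (Nat.beq x)) && nodupB L) = true := h
    rw [Bool.and_eq_true] at h1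
    rw [List.nodup_cons]
    refine ⟨?_, ih h1.2⟩
    intro hx
    have h2 : L.any (Nat.beq x) = true := by
      rw [List.any_eq_true]
      exact ⟨x, hx, Nat.beq_refl x⟩
    rw [h2] at h1
    exact absurd h1.1 (by decide)

/-- checks for the list of directions `L` and the list of pairs `Q` -/
def okB (w0 w1 w2 : ℕ) (L : List ℕ) (Q : List (ℕ × ℕ)) : Bool :=
  nodupB L && L.all (isDirB w0 w1 w2) &&
  Q.all (fun p => !(Nat.beq p.1 p.2) && !(Nat.beq (p.1 + p.2) (2 * zz w0 w1 w2)))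

/-- the list of positions -/
def posL (w0 w1 w2 : ℕ) (L : List ℕ) (Q : List (ℕ × ℕ)) : List ℕ :=
  zz w0 w1 w2 :: (L ++ Q.map (fun p => p.1 + p.2 - zz w0 w1 w2))

theorem ok_dir {L : List ℕ} {Q : List (ℕ × ℕ)} (h : okB w0 w1 w2 L Q = true) {p : ℕ}
    (hp : p ∈ L) : isDirB w0 w1 w2 p = true := by
  unfold okB at h
  rw [Bool.and_eq_true, Bool.and_eq_true] at h
  exact (List.all_eq_true.1 h.1.2) p hp

theorem ok_nodup (hw : Wts n w0 w1 w2 mk) {L : List ℕ} {Q : List (ℕ × ℕ)}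
    (h : okB w0 w1 w2 L Q = true) : (L.map (dc w0 w1 w2)).Nodup := by
  have h0 := h
  unfold okB at h0
  rw [Bool.and_eq_true, Bool.and_eq_true] at h0
  refine List.Nodup.map_on ?_ (nodup_of h0.1.1)
  intro x hx y hy hxy
  have h1 := (dc_spec (ok_dir h hx)).2
  have h2 := (dc_spec (ok_dir h hy)).2
  rw [hxy, h2] at h1
  exact_mod_cast h1.symm

theorem ok_pair {L : List ℕ} {Q : List (ℕ × ℕ)} (h : okB w0 w1 w2 L Q = true)
    (hQ : ∀ p ∈ Q, p.1 ∈ L ∧ p.2 ∈ L) {p : ℕ × ℕ} (hp : p ∈ Q) :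
    dc w0 w1 w2 p.1 ≠ dc w0 w1 w2 p.2 ∧ dc w0 w1 w2 p.2 ≠ -dc w0 w1 w2 p.1 := by
  have h0 := h
  unfold okB at h0
  rw [Bool.and_eq_true, Bool.and_eq_true] at h0
  have h1 := (List.all_eq_true.1 h0.2) p hp
  rw [Bool.and_eq_true] at h1
  have e1 := (dc_spec (ok_dir h (hQ p hp).1)).2
  have e2 := (dc_spec (ok_dir h (hQ p hp).2)).2
  constructor
  · intro hc
    rw [hc, e2] at e1
    have h2 : p.1 = p.2 := by exact_mod_cast e1.symm
    rw [h2, Nat.beq_refl] at h1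
    exact absurd h1.1 (by decide)
  · intro hc
    rw [hc, posZ_neg, e1] at e2
    have h2 : p.1 + p.2 = 2 * zz w0 w1 w2 := by
      have : (p.1 : ℤ) + p.2 = 2 * (zz w0 w1 w2 : ℤ) := by linarith
      exact_mod_cast this
    rw [h2, Nat.beq_refl] at h1
    exact absurd h1.2 (by decide)

theorem link_core (hw : Wts n w0 w1 w2 mk) {v : Cell} (hv : v ∈ Box n) (hev : ∀ i, v i % 2 = 0)
    {L : List ℕ} {Q : List (ℕ × ℕ)} (hok : okB w0 w1 w2 L Q = true)
    (hQ : ∀ p ∈ Q, p.1 ∈ L ∧ p.2 ∈ L)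
    (hP : Nat.land (Nat.shiftRight T (num n w0 w1 w2 v - zz w0 w1 w2)) mk
      = orL (posL w0 w1 w2 L Q)) (c : Cell) :
    (c ∈ ofF n (tf w0 w1 w2 T) ∧ Le v c) ↔
      (c = v ∨ (∃ d ∈ L.map (dc w0 w1 w2), c = v + d) ∨
        ∃ p ∈ Q.map (Prod.map (dc w0 w1 w2) (dc w0 w1 w2)), c = v + p.1 + p.2) := by
  have hpair : ∀ p ∈ Q, Sm (dc w0 w1 w2 p.1 + dc w0 w1 w2 p.2) ∧
      (posZ w0 w1 w2 (dc w0 w1 w2 p.1 + dc w0 w1 w2 p.2)).toNat
        = p.1 + p.2 - zz w0 w1 w2 ∧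
      0 ≤ posZ w0 w1 w2 (dc w0 w1 w2 p.1 + dc w0 w1 w2 p.2) := by
    intro p hp
    obtain ⟨d1, e1⟩ := dc_spec (ok_dir hok (hQ p hp).1)
    obtain ⟨d2, e2⟩ := dc_spec (ok_dir hok (hQ p hp).2)
    obtain ⟨n1, n2⟩ := ok_pair hok hQ hp
    have hs := sm_add d1 d2 n1 n2
    obtain ⟨a, _, b, _, c, _, d, _, hp⟩ := posZ_nat (w0 := w0) (w1 := w1) (w2 := w2) hs
    refine ⟨hs, ?_, ?_⟩
    · rw [posZ_add, e1, e2]
      omega
    · rw [hp]
      exact Int.natCast_nonneg _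
  constructor
  · rintro ⟨hc, hle⟩
    rw [le_iff hev] at hle
    have e : c = v + (c - v) := by abel
    rw [e, mask_sound hw hv hP hle] at hc
    unfold posL at hc
    rw [List.mem_cons, List.mem_append] at hc
    obtain ⟨a, _, b, _, c', _, d, _, hp⟩ := posZ_nat (w0 := w0) (w1 := w1) (w2 := w2) hle
    have hpos : ((posZ w0 w1 w2 (c - v)).toNat : ℤ) = posZ w0 w1 w2 (c - v) := by
      rw [hp, Int.toNat_natCast]
    rcases hc with hc | hc | hc
    · left
      rw [hc, ← posZ_zero] at hpos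
      have := posZ_inj hw sm_zero hle hpos
      rw [e, ← this, add_zero]
    · right
      left
      obtain ⟨hd, hd2⟩ := dc_spec (ok_dir hok hc)
      rw [hpos] at hd2
      have := posZ_inj hw (sm_dir hd) hle hd2
      refine ⟨dc w0 w1 w2 (posZ w0 w1 w2 (c - v)).toNat, List.mem_map_of_mem hc, ?_⟩
      rw [this]
      exact e
    · right
      right
      rw [List.mem_map] at hc
      obtain ⟨p, hp1, hp2⟩ := hc
      obtain ⟨hs, hs2, hs3⟩ := hpair p hp1
      refine ⟨Prod.map (dc w0 w1 w2) (dc w0 w1 w2) p, List.mem_map_of_mem hp1, ?_⟩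
      have h3 : posZ w0 w1 w2 (dc w0 w1 w2 p.1 + dc w0 w1 w2 p.2) = posZ w0 w1 w2 (c - v) := by
        rw [← hpos, ← hp2, ← hs2, Int.toNat_of_nonneg hs3]
      have h4 := posZ_inj hw hs hle h3
      change c = v + dc w0 w1 w2 p.1 + dc w0 w1 w2 p.2
      rw [add_assoc, h4]
      exact e
  · intro hc
    have hmem : ∀ δ, Sm δ → (posZ w0 w1 w2 δ).toNat ∈ posL w0 w1 w2 L Q →
        (v + δ ∈ ofF n (tf w0 w1 w2 T) ∧ Le v (v + δ)) := by
      intro δ hδ hm
      refine ⟨(mask_sound hw hv hP hδ).2 hm, ?_⟩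
      rw [le_iff hev]
      have : v + δ - v = δ := by abel
      rw [this]
      exact hδ
    unfold posL at hmem
    rcases hc with hc | ⟨d, hd, hc⟩ | ⟨p, hp, hc⟩
    · have h1 := hmem 0 sm_zero (by
        rw [posZ_zero, Int.toNat_natCast]
        exact List.mem_cons_self)
      rw [hc]
      rw [add_zero] at h1
      exact h1
    · rw [List.mem_map] at hd
      obtain ⟨q, hq, rfl⟩ := hd
      obtain ⟨h1, h2⟩ := dc_spec (ok_dir hok hq)
      rw [hc]
      refine hmem _ (sm_dir h1) ?_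
      rw [h2, Int.toNat_natCast, List.mem_cons, List.mem_append]
      exact Or.inr (Or.inl hq)
    · rw [List.mem_map] at hp
      obtain ⟨q, hq, rfl⟩ := hp
      obtain ⟨hs, hs2, _⟩ := hpair q hq
      rw [hc]
      change v + dc w0 w1 w2 q.1 + dc w0 w1 w2 q.2 ∈ _ ∧ Le v (v + dc w0 w1 w2 q.1 + dc w0 w1 w2 q.2)
      rw [add_assoc]
      refine hmem _ hs ?_
      rw [hs2, List.mem_cons, List.mem_append]
      exact Or.inr (Or.inr (List.mem_map_of_mem (f := fun p : ℕ × ℕ => p.1 + p.2 - zz w0 w1 w2) hq))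

/-- the check of a cyclic link -/
def cycB (w0 w1 w2 mk T x : ℕ) (L : List ℕ) : Bool :=
  Nat.ble 3 L.length && okB w0 w1 w2 L (L.zip (L.rotate 1)) &&
  Nat.beq (Nat.land (Nat.shiftRight T (x - zz w0 w1 w2)) mk)
    (orL (posL w0 w1 w2 L (L.zip (L.rotate 1))))

theorem cyc_sound (hw : Wts n w0 w1 w2 mk) {v : Cell} (hv : v ∈ Box n) (hev : ∀ i, v i % 2 = 0)
    {L : List ℕ} (h : cycB w0 w1 w2 mk T (num n w0 w1 w2 v) L = true) :
    LinkCycle (ofF n (tf w0 w1 w2 T)) v (L.map (dc w0 w1 w2)) := by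
  unfold cycB at h
  rw [Bool.and_eq_true, Bool.and_eq_true, Nat.ble_eq, Nat.beq_eq] at h
  obtain ⟨⟨h1, h2⟩, h3⟩ := h
  have hQ : ∀ p ∈ L.zip (L.rotate 1), p.1 ∈ L ∧ p.2 ∈ L := by
    rintro ⟨a, b⟩ hp
    have := List.of_mem_zip hp
    exact ⟨this.1, List.mem_rotate.1 this.2⟩
  have hzip : (L.map (dc w0 w1 w2)).zip ((L.map (dc w0 w1 w2)).rotate 1)
      = (L.zip (L.rotate 1)).map (Prod.map (dc w0 w1 w2) (dc w0 w1 w2)) := by
    rw [← List.map_rotate, List.zip_map]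
  refine ⟨?_, ok_nodup hw h2, ?_, ?_, ?_⟩
  · rw [List.length_map]
    exact h1
  · intro d hd
    rw [List.mem_map] at hd
    obtain ⟨p, hp, rfl⟩ := hd
    exact (dc_spec (ok_dir h2 hp)).1
  · rw [hzip]
    intro p hp
    rw [List.mem_map] at hp
    obtain ⟨q, hq, rfl⟩ := hp
    exact (ok_pair h2 hQ hq).2
  · rw [hzip]
    exact link_core hw hv hev h2 hQ h3

/-- the check of a link which is a path, and of the curve `K` (table `TK`) -/
def pathB (w0 w1 w2 mk T TK x : ℕ) (L : List ℕ) : Bool :=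
  Nat.ble 2 L.length && okB w0 w1 w2 L (L.zip L.tail) &&
  Nat.beq (Nat.land (Nat.shiftRight T (x - zz w0 w1 w2)) mk)
    (orL (posL w0 w1 w2 L (L.zip L.tail))) &&
  !(Nat.beq (L.headD 0) (L.getLastD 0)) &&
  Nat.beq (Nat.land (Nat.shiftRight TK (x - zz w0 w1 w2)) mk)
    (orL (posL w0 w1 w2 [L.headD 0, L.getLastD 0] []))

theorem path_sound {TK : ℕ} (hw : Wts n w0 w1 w2 mk) {v : Cell} (hv : v ∈ Box n)
    (hev : ∀ i, v i % 2 = 0) {L : List ℕ}
    (h : pathB w0 w1 w2 mk T TK (num n w0 w1 w2 v) L = true) :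
    (∃ l, LinkPath (ofF n (tf w0 w1 w2 T)) v l ∧
      ∀ d, (IsDir d ∧ v + d ∈ ofF n (tf w0 w1 w2 TK)) ↔
        (l.head? = some d ∨ l.getLast? = some d)) ∧
    ∃ d e, IsDir d ∧ IsDir e ∧ d ≠ e ∧
      ∀ c, (c ∈ ofF n (tf w0 w1 w2 TK) ∧ Le v c) ↔ (c = v ∨ c = v + d ∨ c = v + e) := by
  unfold pathB at h
  rw [Bool.and_eq_true, Bool.and_eq_true, Bool.and_eq_true, Bool.and_eq_true, Nat.ble_eq,
    Nat.beq_eq, Nat.beq_eq] at h
  obtain ⟨⟨⟨⟨h1, h2⟩, h3⟩, h4⟩, h5⟩ := h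
  have hQ : ∀ p ∈ L.zip L.tail, p.1 ∈ L ∧ p.2 ∈ L := by
    rintro ⟨a, b⟩ hp
    have := List.of_mem_zip hp
    exact ⟨this.1, List.mem_of_mem_tail this.2⟩
  have hzip : (L.map (dc w0 w1 w2)).zip (L.map (dc w0 w1 w2)).tail
      = (L.zip L.tail).map (Prod.map (dc w0 w1 w2) (dc w0 w1 w2)) := by
    rw [← List.map_tail, List.zip_map]
  obtain ⟨a, t, rfl⟩ : ∃ a t, L = a :: t := by
    cases L with
    | nil => exact absurd h1 (by simp)
    | cons a t => exact ⟨a, t, rfl⟩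
  set b := (a :: t).getLastD 0 with hb
  have hb2 : (a :: t).getLast? = some b := by
    rw [hb, List.getLastD_eq_getLast?, List.getLast?_cons]
    rfl
  have ha2 : (a :: t).headD 0 = a := rfl
  rw [ha2] at h4 h5
  have hbL : b ∈ a :: t := List.mem_of_getLast? hb2
  have haL : a ∈ a :: t := List.mem_cons_self
  obtain ⟨hda, hpa⟩ := dc_spec (ok_dir h2 haL)
  obtain ⟨hdb, hpb⟩ := dc_spec (ok_dir h2 hbL)
  have hab : a ≠ b := by
    intro hc
    rw [hc, Nat.beq_refl] at h4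
    exact absurd h4 (by decide)
  have hdab : dc w0 w1 w2 a ≠ dc w0 w1 w2 b := by
    intro hc
    rw [hc, hpb] at hpa
    exact hab (by exact_mod_cast hpa.symm)
  have hok2 : okB w0 w1 w2 [a, b] [] = true := by
    unfold okB
    rw [Bool.and_eq_true, Bool.and_eq_true]
    refine ⟨⟨?_, ?_⟩, rfl⟩
    · have h6 : Nat.beq a b = false := by
        cases h7 : Nat.beq a b with
        | false => rfl
        | true => exact absurd (Nat.eq_of_beq_eq_true h7) hab
      simp [nodupB, h6]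
    · simp [ok_dir h2 haL, ok_dir h2 hbL]
  have hK : ∀ c, (c ∈ ofF n (tf w0 w1 w2 TK) ∧ Le v c) ↔
      (c = v ∨ c = v + dc w0 w1 w2 a ∨ c = v + dc w0 w1 w2 b) := by
    intro c
    rw [link_core hw hv hev hok2 (by simp) h5 c]
    simp
  have hne : ∀ d : Cell, IsDir d → v + d ≠ v := by
    intro d hd hc
    have h6 : d = 0 := by simpa using hc
    obtain ⟨i, h7 | h7⟩ := hd
    · have := congrFun h7 i
      rw [h6, Pi.single_eq_same] at this
      exact absurd this (by norm_num)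
    · have := congrFun h7 i
      rw [h6, Pi.single_eq_same] at this
      exact absurd this (by norm_num)
  refine ⟨⟨(a :: t).map (dc w0 w1 w2), ⟨?_, ok_nodup hw h2, ?_, ?_, ?_⟩, ?_⟩, dc w0 w1 w2 a,
    dc w0 w1 w2 b, hda, hdb, hdab, hK⟩
  · rw [List.length_map]
    exact h1
  · intro d hd
    rw [List.mem_map] at hd
    obtain ⟨p, hp, rfl⟩ := hd
    exact (dc_spec (ok_dir h2 hp)).1
  · rw [hzip]
    intro p hp
    rw [List.mem_map] at hp
    obtain ⟨q, hq, rfl⟩ := hp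
    exact (ok_pair h2 hQ hq).2
  · rw [hzip]
    exact link_core hw hv hev h2 hQ h3
  · intro d
    have e1 : ((a :: t).map (dc w0 w1 w2)).head? = some (dc w0 w1 w2 a) := rfl
    have e2 : ((a :: t).map (dc w0 w1 w2)).getLast? = some (dc w0 w1 w2 b) := by
      rw [List.getLast?_map, hb2]
      rfl
    rw [e1, e2, Option.some_inj, Option.some_inj]
    constructor
    · rintro ⟨hd, hm⟩
      have hle : Le v (v + d) := by
        rw [le_iff hev]
        have : v + d - v = d := by abel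
        rw [this]
        exact sm_dir hd
      rcases (hK (v + d)).1 ⟨hm, hle⟩ with h6 | h6 | h6
      · exact absurd h6 (hne d hd)
      · exact Or.inl (add_left_cancel h6).symm
      · exact Or.inr (add_left_cancel h6).symm
    · rintro (h6 | h6)
      · rw [← h6]
        exact ⟨hda, ((hK _).2 (Or.inr (Or.inl rfl))).1⟩
      · rw [← h6]
        exact ⟨hdb, ((hK _).2 (Or.inr (Or.inr rfl))).1⟩

end

end Chk
end Cub
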