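import Pool.Agent.H33.CB.S4Link

/-!
# Module S5Conn: connectedness, checked with a rank function

The vertex with the shifted coordinates `2 j i + 1` is the root, or has a neighbour with a smaller
rank `R j`.
-/

namespace Cub
namespace Chk

/-- the check of one vertex -/
def conB (f : ℕ → ℕ → ℕ → ℕ → Bool) (R : ℕ → ℕ → ℕ → ℕ → ℕ) (a0 a1 a2 a3 j0 j1 j2 j3 : ℕ) : Bool :=
  !(f (2 * j0 + 1) (2 * j1 + 1) (2 * j2 + 1) (2 * j3 + 1)) ||
  (Nat.beq j0 a0 && Nat.beq j1 a1 && Nat.beq j2 a2 && Nat.beq j3 a3) ||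
  (f (2 * j0 + 2) (2 * j1 + 1) (2 * j2 + 1) (2 * j3 + 1) && Nat.blt (R (j0 + 1) j1 j2 j3) (R j0 j1 j2 j3)) ||
  (f (2 * j0) (2 * j1 + 1) (2 * j2 + 1) (2 * j3 + 1) && Nat.blt (R (j0 - 1) j1 j2 j3) (R j0 j1 j2 j3)) ||
  (f (2 * j0 + 1) (2 * j1 + 2) (2 * j2 + 1) (2 * j3 + 1) && Nat.blt (R j0 (j1 + 1) j2 j3) (R j0 j1 j2 j3)) ||
  (f (2 * j0 + 1) (2 * j1) (2 * j2 + 1) (2 * j3 + 1) && Nat.blt (R j0 (j1 - 1) j2 j3) (R j0 j1 j2 j3)) ||
  (f (2 * j0 + 1) (2 * j1 + 1) (2 * j2 + 2) (2 * j3 + 1) && Nat.blt (R j0 j1 (j2 + 1) j3) (R j0 j1 j2 j3)) ||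
  (f (2 * j0 + 1) (2 * j1 + 1) (2 * j2) (2 * j3 + 1) && Nat.blt (R j0 j1 (j2 - 1) j3) (R j0 j1 j2 j3)) ||
  (f (2 * j0 + 1) (2 * j1 + 1) (2 * j2 + 1) (2 * j3 + 2) && Nat.blt (R j0 j1 j2 (j3 + 1)) (R j0 j1 j2 j3)) ||
  (f (2 * j0 + 1) (2 * j1 + 1) (2 * j2 + 1) (2 * j3) && Nat.blt (R j0 j1 j2 (j3 - 1)) (R j0 j1 j2 j3))

/-- adjacency of cells in `F` -/
def Adj (F : Finset Cell) (x y : Cell) : Prop := x ∈ F ∧ y ∈ F ∧ (Le x y ∨ Le y x)

theorem adj_symm {F : Finset Cell} {a b : Cell} (h : Relation.ReflTransGen (Adj F) a b) :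
    Relation.ReflTransGen (Adj F) b a := by
  induction h with
  | refl => exact Relation.ReflTransGen.refl
  | tail _ h ih => exact Relation.ReflTransGen.head ⟨h.2.1, h.1, h.2.2.symm⟩ ih

/-- coordinates of vertices -/
def jj (n : Fin 4 → ℕ) (c : Cell) (i : Fin 4) : ℕ := kk n c i / 2

/-- rank of a cell -/
def RC (n : Fin 4 → ℕ) (R : ℕ → ℕ → ℕ → ℕ → ℕ) (c : Cell) : ℕ :=
  R (jj n c 0) (jj n c 1) (jj n c 2) (jj n c 3)

section

variable {n : Fin 4 → ℕ} {f : ℕ → ℕ → ℕ → ℕ → Bool} {R : ℕ → ℕ → ℕ → ℕ → ℕ}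

private theorem S5_kk {v : Cell} (hv : v ∈ Box n) (i : Fin 4) :
    (v + Pi.single i 1 ∈ XBox n ∧ v + Pi.single i (-1) ∈ XBox n) ∧
    kk n (v + Pi.single i 1) i = kk n v i + 1 ∧ kk n (v + Pi.single i (-1)) i = kk n v i - 1 ∧
    (∀ j, j ≠ i → kk n (v + Pi.single i 1) j = kk n v j ∧
      kk n (v + Pi.single i (-1)) j = kk n v j) := by
  rw [mem_Box'] at hv
  refine ⟨⟨?_, ?_⟩, ?_, ?_, ?_⟩
  · rw [mem_XBox]
    intro j
    have := hv j
    rw [Pi.add_apply, Pi.single_apply]
    split <;> omega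
  · rw [mem_XBox]
    intro j
    have := hv j
    rw [Pi.add_apply, Pi.single_apply]
    split <;> omega
  · have := hv i
    unfold kk
    rw [Pi.add_apply, Pi.single_eq_same]
    omega
  · have := hv i
    unfold kk
    rw [Pi.add_apply, Pi.single_eq_same]
    omega
  · intro j hj
    unfold kk
    rw [Pi.add_apply, Pi.add_apply, Pi.single_eq_of_ne hj, Pi.single_eq_of_ne hj, add_zero]
    exact ⟨rfl, rfl⟩

private theorem S5_odd {v : Cell} (hv : v ∈ Box n) {i : Fin 4} (h : v i % 2 = 0) :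
    kk n v i = 2 * jj n v i + 1 := by
  have h1 := kk_cast (box_sub_xbox hv) i
  unfold jj
  omega

/-- the second endpoint of an edge -/
theorem edge_end {F : Finset Cell} (hF : FC F) {v d : Cell} (hd : IsDir d)
    (hev : ∀ i, v i % 2 = 0) (h : v + d ∈ F) : v + d + d ∈ F ∧ Le v (v + d) ∧
      Le (v + d + d) (v + d) ∧ ∀ i, (v + d + d) i % 2 = 0 := by
  obtain ⟨i, hi | hi⟩ := hd
  · have h1 := (hF _ h i (by
      rw [hi, Pi.add_apply, Pi.single_eq_same]
      have := hev i
      omega)).2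
    have e : Function.update (v + d) i ((v + d) i + 1) = v + d + d := by
      funext j
      by_cases hj : j = i
      · subst hj
        rw [Function.update_self, hi]
        simp
      · rw [Function.update_of_ne hj, hi]
        simp [hj]
    rw [e] at h1
    refine ⟨h1, ?_, ?_, ?_⟩
    · intro j
      have := hev j
      rw [Pi.add_apply, hi, Pi.single_apply]
      split <;> omega
    · intro j
      have := hev j
      rw [Pi.add_apply, Pi.add_apply, hi, Pi.single_apply]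
      split <;> omega
    · intro j
      have := hev j
      rw [Pi.add_apply, Pi.add_apply, hi, Pi.single_apply]
      split <;> omega
  · have h1 := (hF _ h i (by
      rw [hi, Pi.add_apply, Pi.single_eq_same]
      have := hev i
      omega)).1
    have e : Function.update (v + d) i ((v + d) i - 1) = v + d + d := by
      funext j
      by_cases hj : j = i
      · subst hj
        rw [Function.update_self, hi]
        simp [sub_eq_add_neg]
      · rw [Function.update_of_ne hj, hi]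
        simp [hj]
    rw [e] at h1
    refine ⟨h1, ?_, ?_, ?_⟩
    · intro j
      have := hev j
      rw [Pi.add_apply, hi, Pi.single_apply]
      split <;> omega
    · intro j
      have := hev j
      rw [Pi.add_apply, Pi.add_apply, hi, Pi.single_apply]
      split <;> omega
    · intro j
      have := hev j
      rw [Pi.add_apply, Pi.add_apply, hi, Pi.single_apply]
      split <;> omega

private theorem S5_next {a0 a1 a2 a3 : ℕ} (hbox : ofF n f ⊆ Box n)
    {v : Cell} (hv : v ∈ ofF n f) (hev : ∀ i, v i % 2 = 0)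
    (h : conB f R a0 a1 a2 a3 (jj n v 0) (jj n v 1) (jj n v 2) (jj n v 3) = true) :
    (jj n v 0 = a0 ∧ jj n v 1 = a1 ∧ jj n v 2 = a2 ∧ jj n v 3 = a3) ∨
    ∃ d, IsDir d ∧ v + d ∈ ofF n f ∧ RC n R (v + d + d) < RC n R v := by
  have hvb := hbox hv
  have o0 := S5_odd hvb (hev 0)
  have o1 := S5_odd hvb (hev 1)
  have o2 := S5_odd hvb (hev 2)
  have o3 := S5_odd hvb (hev 3)
  have hv2 := (mem_ofF.1 hv).2
  rw [o0, o1, o2, o3] at hv2
  unfold conB at h
  rw [hv2] at h
  simp only [Bool.not_true, Bool.false_or, Bool.or_eq_true, Bool.and_eq_true, Nat.beq_eq] at h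
  rcases h with (((((((h | h) | h) | h) | h) | h) | h) | h) | h
  · exact Or.inl ⟨h.1.1.1, h.1.1.2, h.1.2, h.2⟩
  · right
    obtain ⟨⟨m1, m2⟩, k1, k2, k3⟩ := S5_kk hvb 0
    refine ⟨Pi.single 0 1, ⟨0, Or.inl rfl⟩, ?_, ?_⟩
    · rw [mem_ofF]
      refine ⟨m1, ?_⟩
      rw [k1, (k3 1 (by decide)).1, (k3 2 (by decide)).1, (k3 3 (by decide)).1]
      have := h.1
      rw [o0, o1, o2, o3]
      exact this
    · have hm : v + Pi.single 0 1 ∈ ofF n f := by
        rw [mem_ofF]
        refine ⟨m1, ?_⟩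
        rw [k1, (k3 1 (by decide)).1, (k3 2 (by decide)).1, (k3 3 (by decide)).1]
        have := h.1
        rw [o0, o1, o2, o3]
        exact this
      obtain ⟨_, q1, q2, q3⟩ := S5_kk (hbox hm) 0
      have hj : ∀ j, j ≠ 0 → jj n (v + Pi.single 0 1 + Pi.single 0 1) j = jj n v j := by
        intro j hj
        unfold jj
        rw [(q3 j hj).1, (k3 j hj).1]
      have hi : jj n (v + Pi.single 0 1 + Pi.single 0 1) 0 = jj n v 0 + 1 := by
        unfold jj
        rw [q1, k1, o0]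
        unfold jj
        omega
      unfold RC
      rw [hi, hj 1 (by decide), hj 2 (by decide), hj 3 (by decide)]
      exact Nat.le_of_ble_eq_true h.2
  · right
    obtain ⟨⟨m1, m2⟩, k1, k2, k3⟩ := S5_kk hvb 0
    refine ⟨Pi.single 0 (-1), ⟨0, Or.inr rfl⟩, ?_, ?_⟩
    · rw [mem_ofF]
      refine ⟨m2, ?_⟩
      rw [k2, (k3 1 (by decide)).2, (k3 2 (by decide)).2, (k3 3 (by decide)).2]
      have := h.1
      rw [o0, o1, o2, o3, Nat.add_sub_cancel]
      exact this
    · have hm : v + Pi.single 0 (-1) ∈ ofF n f := by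
        rw [mem_ofF]
        refine ⟨m2, ?_⟩
        rw [k2, (k3 1 (by decide)).2, (k3 2 (by decide)).2, (k3 3 (by decide)).2]
        have := h.1
        rw [o0, o1, o2, o3, Nat.add_sub_cancel]
        exact this
      obtain ⟨_, q1, q2, q3⟩ := S5_kk (hbox hm) 0
      have hj : ∀ j, j ≠ 0 → jj n (v + Pi.single 0 (-1) + Pi.single 0 (-1)) j = jj n v j := by
        intro j hj
        unfold jj
        rw [(q3 j hj).2, (k3 j hj).2]
      have hi : jj n (v + Pi.single 0 (-1) + Pi.single 0 (-1)) 0 = jj n v 0 - 1 := by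
        unfold jj
        rw [q2, k2, o0]
        unfold jj
        omega
      unfold RC
      rw [hi, hj 1 (by decide), hj 2 (by decide), hj 3 (by decide)]
      exact Nat.le_of_ble_eq_true h.2
  · right
    obtain ⟨⟨m1, m2⟩, k1, k2, k3⟩ := S5_kk hvb 1
    refine ⟨Pi.single 1 1, ⟨1, Or.inl rfl⟩, ?_, ?_⟩
    · rw [mem_ofF]
      refine ⟨m1, ?_⟩
      rw [k1, (k3 0 (by decide)).1, (k3 2 (by decide)).1, (k3 3 (by decide)).1]
      have := h.1
      rw [o0, o1, o2, o3]
      exact this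
    · have hm : v + Pi.single 1 1 ∈ ofF n f := by
        rw [mem_ofF]
        refine ⟨m1, ?_⟩
        rw [k1, (k3 0 (by decide)).1, (k3 2 (by decide)).1, (k3 3 (by decide)).1]
        have := h.1
        rw [o0, o1, o2, o3]
        exact this
      obtain ⟨_, q1, q2, q3⟩ := S5_kk (hbox hm) 1
      have hj : ∀ j, j ≠ 1 → jj n (v + Pi.single 1 1 + Pi.single 1 1) j = jj n v j := by
        intro j hj
        unfold jj
        rw [(q3 j hj).1, (k3 j hj).1]
      have hi : jj n (v + Pi.single 1 1 + Pi.single 1 1) 1 = jj n v 1 + 1 := by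
        unfold jj
        rw [q1, k1, o1]
        unfold jj
        omega
      unfold RC
      rw [hi, hj 0 (by decide), hj 2 (by decide), hj 3 (by decide)]
      exact Nat.le_of_ble_eq_true h.2
  · right
    obtain ⟨⟨m1, m2⟩, k1, k2, k3⟩ := S5_kk hvb 1
    refine ⟨Pi.single 1 (-1), ⟨1, Or.inr rfl⟩, ?_, ?_⟩
    · rw [mem_ofF]
      refine ⟨m2, ?_⟩
      rw [k2, (k3 0 (by decide)).2, (k3 2 (by decide)).2, (k3 3 (by decide)).2]
      have := h.1
      rw [o0, o1, o2, o3, Nat.add_sub_cancel]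
      exact this
    · have hm : v + Pi.single 1 (-1) ∈ ofF n f := by
        rw [mem_ofF]
        refine ⟨m2, ?_⟩
        rw [k2, (k3 0 (by decide)).2, (k3 2 (by decide)).2, (k3 3 (by decide)).2]
        have := h.1
        rw [o0, o1, o2, o3, Nat.add_sub_cancel]
        exact this
      obtain ⟨_, q1, q2, q3⟩ := S5_kk (hbox hm) 1
      have hj : ∀ j, j ≠ 1 → jj n (v + Pi.single 1 (-1) + Pi.single 1 (-1)) j = jj n v j := by
        intro j hj
        unfold jj
        rw [(q3 j hj).2, (k3 j hj).2]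
      have hi : jj n (v + Pi.single 1 (-1) + Pi.single 1 (-1)) 1 = jj n v 1 - 1 := by
        unfold jj
        rw [q2, k2, o1]
        unfold jj
        omega
      unfold RC
      rw [hi, hj 0 (by decide), hj 2 (by decide), hj 3 (by decide)]
      exact Nat.le_of_ble_eq_true h.2
  · right
    obtain ⟨⟨m1, m2⟩, k1, k2, k3⟩ := S5_kk hvb 2
    refine ⟨Pi.single 2 1, ⟨2, Or.inl rfl⟩, ?_, ?_⟩
    · rw [mem_ofF]
      refine ⟨m1, ?_⟩
      rw [k1, (k3 0 (by decide)).1, (k3 1 (by decide)).1, (k3 3 (by decide)).1]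
      have := h.1
      rw [o0, o1, o2, o3]
      exact this
    · have hm : v + Pi.single 2 1 ∈ ofF n f := by
        rw [mem_ofF]
        refine ⟨m1, ?_⟩
        rw [k1, (k3 0 (by decide)).1, (k3 1 (by decide)).1, (k3 3 (by decide)).1]
        have := h.1
        rw [o0, o1, o2, o3]
        exact this
      obtain ⟨_, q1, q2, q3⟩ := S5_kk (hbox hm) 2
      have hj : ∀ j, j ≠ 2 → jj n (v + Pi.single 2 1 + Pi.single 2 1) j = jj n v j := by
        intro j hj
        unfold jj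
        rw [(q3 j hj).1, (k3 j hj).1]
      have hi : jj n (v + Pi.single 2 1 + Pi.single 2 1) 2 = jj n v 2 + 1 := by
        unfold jj
        rw [q1, k1, o2]
        unfold jj
        omega
      unfold RC
      rw [hi, hj 0 (by decide), hj 1 (by decide), hj 3 (by decide)]
      exact Nat.le_of_ble_eq_true h.2
  · right
    obtain ⟨⟨m1, m2⟩, k1, k2, k3⟩ := S5_kk hvb 2
    refine ⟨Pi.single 2 (-1), ⟨2, Or.inr rfl⟩, ?_, ?_⟩
    · rw [mem_ofF]
      refine ⟨m2, ?_⟩
      rw [k2, (k3 0 (by decide)).2, (k3 1 (by decide)).2, (k3 3 (by decide)).2]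
      have := h.1
      rw [o0, o1, o2, o3, Nat.add_sub_cancel]
      exact this
    · have hm : v + Pi.single 2 (-1) ∈ ofF n f := by
        rw [mem_ofF]
        refine ⟨m2, ?_⟩
        rw [k2, (k3 0 (by decide)).2, (k3 1 (by decide)).2, (k3 3 (by decide)).2]
        have := h.1
        rw [o0, o1, o2, o3, Nat.add_sub_cancel]
        exact this
      obtain ⟨_, q1, q2, q3⟩ := S5_kk (hbox hm) 2
      have hj : ∀ j, j ≠ 2 → jj n (v + Pi.single 2 (-1) + Pi.single 2 (-1)) j = jj n v j := by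
        intro j hj
        unfold jj
        rw [(q3 j hj).2, (k3 j hj).2]
      have hi : jj n (v + Pi.single 2 (-1) + Pi.single 2 (-1)) 2 = jj n v 2 - 1 := by
        unfold jj
        rw [q2, k2, o2]
        unfold jj
        omega
      unfold RC
      rw [hi, hj 0 (by decide), hj 1 (by decide), hj 3 (by decide)]
      exact Nat.le_of_ble_eq_true h.2
  · right
    obtain ⟨⟨m1, m2⟩, k1, k2, k3⟩ := S5_kk hvb 3
    refine ⟨Pi.single 3 1, ⟨3, Or.inl rfl⟩, ?_, ?_⟩
    · rw [mem_ofF]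
      refine ⟨m1, ?_⟩
      rw [k1, (k3 0 (by decide)).1, (k3 1 (by decide)).1, (k3 2 (by decide)).1]
      have := h.1
      rw [o0, o1, o2, o3]
      exact this
    · have hm : v + Pi.single 3 1 ∈ ofF n f := by
        rw [mem_ofF]
        refine ⟨m1, ?_⟩
        rw [k1, (k3 0 (by decide)).1, (k3 1 (by decide)).1, (k3 2 (by decide)).1]
        have := h.1
        rw [o0, o1, o2, o3]
        exact this
      obtain ⟨_, q1, q2, q3⟩ := S5_kk (hbox hm) 3
      have hj : ∀ j, j ≠ 3 → jj n (v + Pi.single 3 1 + Pi.single 3 1) j = jj n v j := by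
        intro j hj
        unfold jj
        rw [(q3 j hj).1, (k3 j hj).1]
      have hi : jj n (v + Pi.single 3 1 + Pi.single 3 1) 3 = jj n v 3 + 1 := by
        unfold jj
        rw [q1, k1, o3]
        unfold jj
        omega
      unfold RC
      rw [hi, hj 0 (by decide), hj 1 (by decide), hj 2 (by decide)]
      exact Nat.le_of_ble_eq_true h.2
  · right
    obtain ⟨⟨m1, m2⟩, k1, k2, k3⟩ := S5_kk hvb 3
    refine ⟨Pi.single 3 (-1), ⟨3, Or.inr rfl⟩, ?_, ?_⟩
    · rw [mem_ofF]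
      refine ⟨m2, ?_⟩
      rw [k2, (k3 0 (by decide)).2, (k3 1 (by decide)).2, (k3 2 (by decide)).2]
      have := h.1
      rw [o0, o1, o2, o3, Nat.add_sub_cancel]
      exact this
    · have hm : v + Pi.single 3 (-1) ∈ ofF n f := by
        rw [mem_ofF]
        refine ⟨m2, ?_⟩
        rw [k2, (k3 0 (by decide)).2, (k3 1 (by decide)).2, (k3 2 (by decide)).2]
        have := h.1
        rw [o0, o1, o2, o3, Nat.add_sub_cancel]
        exact this
      obtain ⟨_, q1, q2, q3⟩ := S5_kk (hbox hm) 3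
      have hj : ∀ j, j ≠ 3 → jj n (v + Pi.single 3 (-1) + Pi.single 3 (-1)) j = jj n v j := by
        intro j hj
        unfold jj
        rw [(q3 j hj).2, (k3 j hj).2]
      have hi : jj n (v + Pi.single 3 (-1) + Pi.single 3 (-1)) 3 = jj n v 3 - 1 := by
        unfold jj
        rw [q2, k2, o3]
        unfold jj
        omega
      unfold RC
      rw [hi, hj 0 (by decide), hj 1 (by decide), hj 2 (by decide)]
      exact Nat.le_of_ble_eq_true h.2

theorem conn_sound {a0 a1 a2 a3 : ℕ} (hbox : ofF n f ⊆ Box n) (hF : FC (ofF n f))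
    (hroot : cel n (2 * a0 + 1) (2 * a1 + 1) (2 * a2 + 1) (2 * a3 + 1) ∈ ofF n f)
    (hB : ∀ j0 < 2 * n 0 + 1, ∀ j1 < 2 * n 1 + 1, ∀ j2 < 2 * n 2 + 1, ∀ j3 < 2 * n 3 + 1,
      conB f R a0 a1 a2 a3 j0 j1 j2 j3 = true) : Connected (ofF n f) := by
  set r := cel n (2 * a0 + 1) (2 * a1 + 1) (2 * a2 + 1) (2 * a3 + 1) with hr
  have hcx := isComplex_of_FC hF
  have hlt : ∀ v ∈ ofF n f, ∀ i, jj n v i < 2 * n i + 1 := by
    intro v hv i
    have h1 := kk_cast (box_sub_xbox (hbox hv)) i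
    have h2 := (mem_Box'.1 (hbox hv)) i
    unfold jj
    omega
  have hmain : ∀ N : ℕ, ∀ v ∈ ofF n f, (∀ i, v i % 2 = 0) → RC n R v < N →
      Relation.ReflTransGen (Adj (ofF n f)) r v := by
    intro N
    induction N with
    | zero =>
      intro v _ _ h
      exact absurd h (Nat.not_lt_zero _)
    | succ N ih =>
      intro v hv hev hN
      have hc := hB _ (hlt v hv 0) _ (hlt v hv 1) _ (hlt v hv 2) _ (hlt v hv 3)
      rcases S5_next hbox hv hev hc with h | ⟨d, hd, h1, h2⟩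
      · have e : v = r := by
          rw [hr, ← h.1, ← h.2.1, ← h.2.2.1, ← h.2.2.2, ← S5_odd (hbox hv) (hev 0),
            ← S5_odd (hbox hv) (hev 1), ← S5_odd (hbox hv) (hev 2), ← S5_odd (hbox hv) (hev 3),
            cel_kk (mem_ofF.1 hv).1]
        rw [e]
      · obtain ⟨g1, g2, g3, g4⟩ := edge_end hF hd hev h1
        have h3 := ih _ g1 g4 (lt_of_lt_of_le h2 (Nat.lt_succ_iff.1 hN))
        exact (h3.tail ⟨g1, h1, Or.inl g3⟩).tail ⟨h1, hv, Or.inr g2⟩
  have hall : ∀ c ∈ ofF n f, Relation.ReflTransGen (Adj (ofF n f)) r c := by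
    intro c hc
    have hle : Le (fun i => if c i % 2 = 1 then c i - 1 else c i) c := by
      intro i
      by_cases h : c i % 2 = 1
      · right
        refine ⟨h, Or.inl ?_⟩
        exact if_pos h
      · left
        exact if_neg h
    have h1 := hcx c hc _ hle
    refine (hmain _ _ h1 ?_ (Nat.lt_succ_self _)).tail ⟨h1, hc, Or.inl hle⟩
    intro i
    split <;> omega
  exact ⟨⟨r, hroot⟩, fun a ha b hb => (adj_symm (hall a ha)).trans (hall b hb)⟩

end

end Chk
end Cub
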