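import Pool.Agent.H33.CB.S2Cell

/-!
# Module S6Eul: Euler characteristic
-/

namespace Cub
namespace Chk

/-- one for the selected cells of even dimension -/
def evN (f : ℕ → ℕ → ℕ → ℕ → Bool) (k0 k1 k2 k3 : ℕ) : ℕ :=
  bif f k0 k1 k2 k3 then Nat.sub 1 (Nat.mod (Nat.add (Nat.add (Nat.add k0 k1) k2) k3) 2) else 0

/-- one for the selected cells of odd dimension -/
def odN (f : ℕ → ℕ → ℕ → ℕ → Bool) (k0 k1 k2 k3 : ℕ) : ℕ :=
  bif f k0 k1 k2 k3 then Nat.mod (Nat.add (Nat.add (Nat.add k0 k1) k2) k3) 2 else 0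

theorem dim_kk {n : Fin 4 → ℕ} {c : Cell} (hc : c ∈ XBox n) :
    dim c % 2 = (kk n c 0 + kk n c 1 + kk n c 2 + kk n c 3) % 2 := by
  have h0 := kk_cast hc 0
  have h1 := kk_cast hc 1
  have h2 := kk_cast hc 2
  have h3 := kk_cast hc 3
  unfold dim
  rw [Finset.card_filter, Fin.sum_univ_four]
  split_ifs <;> omega

theorem eul_sound {n : Fin 4 → ℕ} {f : ℕ → ℕ → ℕ → ℕ → Bool} {r0 r1 r2 r3 : ℕ}
    (h0 : r0 = 4 * n 0 + 3) (h1 : r1 = 4 * n 1 + 3)
    (h2 : r2 = 4 * n 2 + 3) (h3 : r3 = 4 * n 3 + 3) :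
    euler (ofF n f) = (sum4 r0 r1 r2 r3 (evN f) : ℤ) - sum4 r0 r1 r2 r3 (odN f) := by
  subst h0 h1 h2 h3
  have key : euler (ofF n f) = ∑ c ∈ XBox n,
      ((evN f (kk n c 0) (kk n c 1) (kk n c 2) (kk n c 3) : ℤ) -
        odN f (kk n c 0) (kk n c 1) (kk n c 2) (kk n c 3)) := by
    unfold euler ofF
    rw [Finset.sum_filter]
    refine Finset.sum_congr rfl fun c hc => ?_
    have hd := dim_kk hc
    unfold evN odN
    cases hf : f (kk n c 0) (kk n c 1) (kk n c 2) (kk n c 3) with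
    | false => simp
    | true =>
      rw [if_pos rfl, cond_true, cond_true]
      have e1 : Nat.mod (Nat.add (Nat.add (Nat.add (kk n c 0) (kk n c 1)) (kk n c 2)) (kk n c 3)) 2
          = dim c % 2 := hd.symm
      rw [e1]
      rcases Nat.mod_two_eq_zero_or_one (dim c) with h | h
      · rw [h, (Nat.even_iff.2 h).neg_one_pow]
        rfl
      · rw [h, (Nat.odd_iff.2 h).neg_one_pow]
        rfl
  rw [key, Finset.sum_sub_distrib, sum_xbox, sum_xbox, sum4_eq, sum4_eq]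
  push_cast
  congr 1
  · refine Finset.sum_congr rfl fun i _ => Finset.sum_congr rfl fun j _ =>
      Finset.sum_congr rfl fun k _ => Finset.sum_congr rfl fun l _ => ?_
    obtain ⟨e0, e1, e2, e3⟩ := kk_cel n i j k l
    rw [e0, e1, e2, e3]
  · refine Finset.sum_congr rfl fun i _ => Finset.sum_congr rfl fun j _ =>
      Finset.sum_congr rfl fun k _ => Finset.sum_congr rfl fun l _ => ?_
    obtain ⟨e0, e1, e2, e3⟩ := kk_cel n i j k l
    rw [e0, e1, e2, e3]

end Chk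
end Cub
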