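import Pool.Agent.H33.CB.S5Conn
import Pool.Agent.H33.CB.S6Eul

/-!
# Module S7Main: a disc and its boundary curve, checked with tables

`TD` is the table of the disc, `TK` the table of its boundary curve.
-/

namespace Cub
namespace Chk

/-- at most one interval factor -/
def dim1B (k0 k1 k2 k3 : ℕ) : Bool :=
  Nat.ble (Nat.add (Nat.add (Nat.add (Nat.mod (Nat.add k0 1) 2) (Nat.mod (Nat.add k1 1) 2))
    (Nat.mod (Nat.add k2 1) 2)) (Nat.mod (Nat.add k3 1) 2)) 1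

/-- extremal coordinates -/
def bdB (r0 r1 r2 r3 k0 k1 k2 k3 : ℕ) : Bool :=
  (Nat.beq k0 1 || Nat.beq (Nat.add k0 2) r0) || (Nat.beq k1 1 || Nat.beq (Nat.add k1 2) r1) ||
  (Nat.beq k2 1 || Nat.beq (Nat.add k2 2) r2) || (Nat.beq k3 1 || Nat.beq (Nat.add k3 2) r3)

/-- the check of one cell -/
def celB (r0 r1 r2 r3 : ℕ) (f g : ℕ → ℕ → ℕ → ℕ → Bool) (k0 k1 k2 k3 : ℕ) : Bool :=
  bif f k0 k1 k2 k3 then
    (inB r0 r1 r2 r3 k0 k1 k2 k3 && facB f k0 k1 k2 k3 &&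
      (bif g k0 k1 k2 k3 then
        (facB g k0 k1 k2 k3 && dim1B k0 k1 k2 k3 && bdB r0 r1 r2 r3 k0 k1 k2 k3)
      else !(bdB r0 r1 r2 r3 k0 k1 k2 k3)))
  else !(g k0 k1 k2 k3)

/-- the check of one vertex; `L` gives the list of directions -/
def verB (w0 w1 w2 mk TD TK : ℕ) (L : ℕ → ℕ → ℕ → ℕ → List ℕ) (j0 j1 j2 j3 : ℕ) : Bool :=
  !(tf w0 w1 w2 TD (2 * j0 + 1) (2 * j1 + 1) (2 * j2 + 1) (2 * j3 + 1)) ||
  (bif tf w0 w1 w2 TK (2 * j0 + 1) (2 * j1 + 1) (2 * j2 + 1) (2 * j3 + 1) then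
    pathB w0 w1 w2 mk TD TK
      ((2 * j0 + 1) * w0 + (2 * j1 + 1) * w1 + (2 * j2 + 1) * w2 + (2 * j3 + 1)) (L j0 j1 j2 j3)
  else
    cycB w0 w1 w2 mk TD
      ((2 * j0 + 1) * w0 + (2 * j1 + 1) * w1 + (2 * j2 + 1) * w2 + (2 * j3 + 1)) (L j0 j1 j2 j3))

section

variable {n : Fin 4 → ℕ}

theorem dim1_sound {c : Cell} (hc : c ∈ XBox n)
    (h : dim1B (kk n c 0) (kk n c 1) (kk n c 2) (kk n c 3) = true) : dim c ≤ 1 := by
  have h0 := kk_cast hc 0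
  have h1 := kk_cast hc 1
  have h2 := kk_cast hc 2
  have h3 := kk_cast hc 3
  unfold dim1B at h
  rw [Nat.ble_eq] at h
  have g : (kk n c 0 + 1) % 2 + (kk n c 1 + 1) % 2 + (kk n c 2 + 1) % 2 + (kk n c 3 + 1) % 2 ≤ 1 := h
  unfold dim
  rw [Finset.card_filter, Fin.sum_univ_four]
  split_ifs <;> omega

theorem bd_iff {c : Cell} (hc : c ∈ Box n) :
    bdB (4 * n 0 + 3) (4 * n 1 + 3) (4 * n 2 + 3) (4 * n 3 + 3) (kk n c 0) (kk n c 1) (kk n c 2)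
      (kk n c 3) = true ↔ c ∈ bd n := by
  have hx := box_sub_xbox hc
  have h0 := kk_cast hx 0
  have h1 := kk_cast hx 1
  have h2 := kk_cast hx 2
  have h3 := kk_cast hx 3
  rw [mem_bd']
  unfold bdB
  simp only [Bool.or_eq_true, Nat.beq_eq, Nat.add_eq]
  constructor
  · rintro ((((h | h) | (h | h)) | (h | h)) | (h | h))
    · exact ⟨hc, 0, Or.inr (by omega)⟩
    · exact ⟨hc, 0, Or.inl (by omega)⟩
    · exact ⟨hc, 1, Or.inr (by omega)⟩
    · exact ⟨hc, 1, Or.inl (by omega)⟩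
    · exact ⟨hc, 2, Or.inr (by omega)⟩
    · exact ⟨hc, 2, Or.inl (by omega)⟩
    · exact ⟨hc, 3, Or.inr (by omega)⟩
    · exact ⟨hc, 3, Or.inl (by omega)⟩
  · rintro ⟨_, i, h⟩
    fin_cases i
    · change c 0 = 2 * (n 0 : ℤ) ∨ c 0 = -(2 * (n 0 : ℤ)) at h
      left; left; left
      omega
    · change c 1 = 2 * (n 1 : ℤ) ∨ c 1 = -(2 * (n 1 : ℤ)) at h
      left; left; right
      omega
    · change c 2 = 2 * (n 2 : ℤ) ∨ c 2 = -(2 * (n 2 : ℤ)) at h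
      left; right
      omega
    · change c 3 = 2 * (n 3 : ℤ) ∨ c 3 = -(2 * (n 3 : ℤ)) at h
      right
      omega

theorem scale_one (K : Finset Cell) : (K : Set Cell) = scale 1 K := by
  ext c
  unfold scale Sub
  constructor
  · intro hc
    refine ⟨c, hc, fun i => ⟨fun _ => by push_cast; ring, fun _ => ?_⟩⟩
    push_cast
    constructor <;> linarith
  · rintro ⟨t, ht, h⟩
    have e : c = t := by
      funext i
      have h1 := (h i).1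
      have h2 := (h i).2
      push_cast at h1 h2
      rcases Int.emod_two_eq_zero_or_one (t i) with h3 | h3
      · rw [h1 h3]
        ring
      · have := h2 h3
        omega
    rw [e]
    exact ht

/-- **Soundness.** -/
theorem main_sound {r0 r1 r2 r3 s0 s1 s2 s3 w0 w1 w2 mk TD TK : ℕ}
    {L : ℕ → ℕ → ℕ → ℕ → List ℕ} {R R' : ℕ → ℕ → ℕ → ℕ → ℕ} {a0 a1 a2 a3 b0 b1 b2 b3 : ℕ}
    (h0 : r0 = 4 * n 0 + 3) (h1 : r1 = 4 * n 1 + 3)
    (h2 : r2 = 4 * n 2 + 3) (h3 : r3 = 4 * n 3 + 3)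
    (g0 : s0 = 2 * n 0 + 1) (g1 : s1 = 2 * n 1 + 1)
    (g2 : s2 = 2 * n 2 + 1) (g3 : s3 = 2 * n 3 + 1) (hw : Wts n w0 w1 w2 mk)
    (hcel : ∀ k0 < r0, ∀ k1 < r1, ∀ k2 < r2, ∀ k3 < r3,
      celB r0 r1 r2 r3 (tf w0 w1 w2 TD) (tf w0 w1 w2 TK) k0 k1 k2 k3 = true)
    (hver : ∀ j0 < s0, ∀ j1 < s1, ∀ j2 < s2, ∀ j3 < s3,
      verB w0 w1 w2 mk TD TK L j0 j1 j2 j3 = true)
    (hcon : ∀ j0 < s0, ∀ j1 < s1, ∀ j2 < s2, ∀ j3 < s3,
      conB (tf w0 w1 w2 TD) R a0 a1 a2 a3 j0 j1 j2 j3 = true)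
    (hcon' : ∀ j0 < s0, ∀ j1 < s1, ∀ j2 < s2, ∀ j3 < s3,
      conB (tf w0 w1 w2 TK) R' b0 b1 b2 b3 j0 j1 j2 j3 = true)
    (ha : a0 < s0 ∧ a1 < s1 ∧ a2 < s2 ∧ a3 < s3)
    (hb : b0 < s0 ∧ b1 < s1 ∧ b2 < s2 ∧ b3 < s3)
    (hra : tf w0 w1 w2 TD (2 * a0 + 1) (2 * a1 + 1) (2 * a2 + 1) (2 * a3 + 1) = true)
    (hrb : tf w0 w1 w2 TK (2 * b0 + 1) (2 * b1 + 1) (2 * b2 + 1) (2 * b3 + 1) = true)
    (hE : sum4 r0 r1 r2 r3 (evN (tf w0 w1 w2 TD)) =
      sum4 r0 r1 r2 r3 (odN (tf w0 w1 w2 TD)) + 1) :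
    IsCurve (ofF n (tf w0 w1 w2 TK)) ∧ ofF n (tf w0 w1 w2 TK) ⊆ bd n ∧
      Slice n (ofF n (tf w0 w1 w2 TK)) := by
  have hcxD := cx_sound (f := tf w0 w1 w2 TD) h0 h1 h2 h3 (by
    intro k0 hk0 k1 hk1 k2 hk2 k3 hk3
    have h := hcel k0 hk0 k1 hk1 k2 hk2 k3 hk3
    unfold celB at h
    unfold cxB
    cases hf : tf w0 w1 w2 TD k0 k1 k2 k3 with
    | false => rfl
    | true =>
      rw [hf, cond_true, Bool.and_eq_true] at h
      rw [Bool.not_true, Bool.false_or]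
      exact h.1)
  have hcxK := cx_sound (f := tf w0 w1 w2 TK) h0 h1 h2 h3 (by
    intro k0 hk0 k1 hk1 k2 hk2 k3 hk3
    have h := hcel k0 hk0 k1 hk1 k2 hk2 k3 hk3
    unfold celB at h
    unfold cxB
    cases hg : tf w0 w1 w2 TK k0 k1 k2 k3 with
    | false => rfl
    | true =>
      cases hf : tf w0 w1 w2 TD k0 k1 k2 k3 with
      | false =>
        rw [hf, hg, cond_false] at h
        exact absurd h (by decide)
      | true =>
        rw [hf, hg, cond_true, cond_true, Bool.and_eq_true, Bool.and_eq_true, Bool.and_eq_true,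
          Bool.and_eq_true] at h
        rw [Bool.not_true, Bool.false_or, Bool.and_eq_true]
        exact ⟨h.1.1, h.2.1.1⟩)
  have hcell : ∀ c ∈ XBox n, celB r0 r1 r2 r3 (tf w0 w1 w2 TD) (tf w0 w1 w2 TK) (kk n c 0)
      (kk n c 1) (kk n c 2) (kk n c 3) = true := by
    intro c hc
    subst h0 h1 h2 h3
    exact hcel _ (kk_lt hc 0) _ (kk_lt hc 1) _ (kk_lt hc 2) _ (kk_lt hc 3)
  subst h0 h1 h2 h3 g0 g1 g2 g3
  -- K is contained in D
  have hKD : ∀ c ∈ ofF n (tf w0 w1 w2 TK), c ∈ ofF n (tf w0 w1 w2 TD) ∧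
      dim1B (kk n c 0) (kk n c 1) (kk n c 2) (kk n c 3) = true ∧
      bdB (4 * n 0 + 3) (4 * n 1 + 3) (4 * n 2 + 3) (4 * n 3 + 3) (kk n c 0) (kk n c 1) (kk n c 2)
        (kk n c 3) = true := by
    intro c hc
    obtain ⟨hx, hg⟩ := mem_ofF.1 hc
    have h := hcell c hx
    unfold celB at h
    cases hf : tf w0 w1 w2 TD (kk n c 0) (kk n c 1) (kk n c 2) (kk n c 3) with
    | false =>
      rw [hf, hg, cond_false] at h
      exact absurd h (by decide)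
    | true =>
      rw [hf, hg, cond_true, cond_true, Bool.and_eq_true, Bool.and_eq_true, Bool.and_eq_true,
        Bool.and_eq_true] at h
      exact ⟨mem_ofF.2 ⟨hx, hf⟩, h.2.1.2, h.2.2⟩
  have hKbd : ofF n (tf w0 w1 w2 TK) ⊆ bd n := by
    intro c hc
    exact (bd_iff (hcxK.1 hc)).1 (hKD c hc).2.2
  have hDbd : ofF n (tf w0 w1 w2 TD) ∩ bd n = ofF n (tf w0 w1 w2 TK) := by
    ext c
    rw [Finset.mem_inter]
    constructor
    · rintro ⟨hc, hb⟩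
      obtain ⟨hx, hf⟩ := mem_ofF.1 hc
      have h := hcell c hx
      unfold celB at h
      have hb2 := (bd_iff (hcxD.1 hc)).2 hb
      cases hg : tf w0 w1 w2 TK (kk n c 0) (kk n c 1) (kk n c 2) (kk n c 3) with
      | false =>
        rw [hf, hg, hb2, cond_true, cond_false, Bool.and_eq_true] at h
        exact absurd h.2 (by decide)
      | true => exact mem_ofF.2 ⟨hx, hg⟩
    · intro hc
      exact ⟨(hKD c hc).1, hKbd hc⟩
  have hdimK : ∀ c ∈ ofF n (tf w0 w1 w2 TK), dim c ≤ 1 := by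
    intro c hc
    exact dim1_sound (mem_ofF.1 hc).1 (hKD c hc).2.1
  have hzero : ∀ v : Cell, dim v = 0 → ∀ i, v i % 2 = 0 := by
    intro v hv i
    unfold dim at hv
    rw [Finset.card_eq_zero, Finset.filter_eq_empty_iff] at hv
    have := hv (Finset.mem_univ i)
    omega
  -- coordinates of vertices
  have hodd : ∀ v ∈ Box n, (∀ i, v i % 2 = 0) → ∀ i,
      kk n v i = 2 * jj n v i + 1 ∧ jj n v i < 2 * n i + 1 := by
    intro v hv hev i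
    have h1 := kk_cast (box_sub_xbox hv) i
    have h2 := (mem_Box'.1 hv) i
    have h3 := hev i
    unfold jj
    constructor <;> omega
  have hvert : ∀ v ∈ ofF n (tf w0 w1 w2 TD), (∀ i, v i % 2 = 0) →
      (v ∈ ofF n (tf w0 w1 w2 TK) → pathB w0 w1 w2 mk TD TK (num n w0 w1 w2 v)
        (L (jj n v 0) (jj n v 1) (jj n v 2) (jj n v 3)) = true) ∧
      (v ∉ ofF n (tf w0 w1 w2 TK) → cycB w0 w1 w2 mk TD (num n w0 w1 w2 v)
        (L (jj n v 0) (jj n v 1) (jj n v 2) (jj n v 3)) = true) := by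
    intro v hv hev
    have hb := hcxD.1 hv
    obtain ⟨e0, l0⟩ := hodd v hb hev 0
    obtain ⟨e1, l1⟩ := hodd v hb hev 1
    obtain ⟨e2, l2⟩ := hodd v hb hev 2
    obtain ⟨e3, l3⟩ := hodd v hb hev 3
    obtain ⟨hx, hf⟩ := mem_ofF.1 hv
    have h := hver _ l0 _ l1 _ l2 _ l3
    unfold verB at h
    rw [← e0, ← e1, ← e2, ← e3, hf, Bool.not_true, Bool.false_or] at h
    constructor
    · intro hk
      rw [(mem_ofF.1 hk).2, cond_true] at h
      exact h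
    · intro hk
      have hg : tf w0 w1 w2 TK (kk n v 0) (kk n v 1) (kk n v 2) (kk n v 3) = false := by
        cases hg : tf w0 w1 w2 TK (kk n v 0) (kk n v 1) (kk n v 2) (kk n v 3) with
        | false => rfl
        | true => exact absurd (mem_ofF.2 ⟨hx, hg⟩) hk
      rw [hg, cond_false] at h
      exact h
  have hrootm : ∀ c0 c1 c2 c3 : ℕ, ∀ T, (c0 < 2 * n 0 + 1 ∧ c1 < 2 * n 1 + 1 ∧ c2 < 2 * n 2 + 1 ∧
      c3 < 2 * n 3 + 1) → tf w0 w1 w2 T (2 * c0 + 1) (2 * c1 + 1) (2 * c2 + 1) (2 * c3 + 1) = true →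
      cel n (2 * c0 + 1) (2 * c1 + 1) (2 * c2 + 1) (2 * c3 + 1) ∈ ofF n (tf w0 w1 w2 T) := by
    intro c0 c1 c2 c3 T hc ht
    rw [mem_ofF]
    refine ⟨cel_mem (by omega) (by omega) (by omega) (by omega), ?_⟩
    obtain ⟨e0, e1, e2, e3⟩ := kk_cel n (2 * c0 + 1) (2 * c1 + 1) (2 * c2 + 1) (2 * c3 + 1)
    rw [e0, e1, e2, e3]
    exact ht
  have hcurve : IsCurve (ofF n (tf w0 w1 w2 TK)) := by
    refine ⟨isComplex_of_FC hcxK.2, hdimK,
      conn_sound hcxK.1 hcxK.2 (hrootm b0 b1 b2 b3 TK hb hrb) hcon', ?_⟩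
    intro v hv hd
    have hev := hzero v hd
    have h := (hvert v (hKD v hv).1 hev).1 hv
    exact (path_sound hw (hcxK.1 hv) hev h).2
  refine ⟨hcurve, hKbd, 1, le_rfl, ofF n (tf w0 w1 w2 TD), ofF n (tf w0 w1 w2 TK),
    scale_one _, ⟨isComplex_of_FC hcxD.2, hcurve.cx, fun c hc => (hKD c hc).1, hdimK, ?_, ?_⟩,
    conn_sound hcxD.1 hcxD.2 (hrootm a0 a1 a2 a3 TD ha hra) hcon, ?_, ?_, ?_⟩
  · intro v hv hd hk
    have hev := hzero v hd
    exact ⟨_, cyc_sound hw (hcxD.1 hv) hev ((hvert v hv hev).2 hk)⟩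
  · intro v hv hd
    have hev := hzero v hd
    have h := (hvert v (hKD v hv).1 hev).1 hv
    exact (path_sound hw (hcxK.1 hv) hev h).1
  · rw [eul_sound rfl rfl rfl rfl, hE]
    push_cast
    ring
  · simp only [one_mul]
    exact hcxD.1
  · simp only [one_mul]
    exact hDbd

end

end Chk
end Cub
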