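import Pool.Agent.H33.CB.CxD

/-!
# Module ScaleM (about 250 lines): dilation by `m`

`car m y` is the unique coarse cell `t` with `Sub m t y` (`m ≥ 1`): coordinatewise, `2 m ∣ y i` iff
`y i = m * t i` with `t i` even; otherwise `t i = 2 ⌊y i / (2m)⌋ + 1` is the odd number with
`m (t i - 1) < y i < m (t i + 1)`.
`fine_bd`: `car m y ∈ bd n` iff `y ∈ bd (m n)`, `car m y ∈ K` iff `y ∈ scale m K`.
`suba_mono`: the neighbours: if `c = car m y`, `c i` even, then `y i = m * c i` is even and
`car m (y ± e i) = c ± e i` (also for two coordinates at the same time).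
`curve_scale`: the dilation of a curve is a curve: connectedness: an edge `t` of `K` becomes a chain of
`m` edges and `m - 1` vertices between the images of its two end points.
`exists_edge`: over every edge `t` there is a fine edge.
-/

namespace Cub

namespace ScaleM

/-- One coordinate of the carrier. -/
def carc (m : ℕ) (x : ℤ) : ℤ := if (2 * m : ℤ) ∣ x then x / m else 2 * (x / (2 * m)) + 1

theorem car_apply (m : ℕ) (y : Cell) (i : Fin 4) : car m y i = carc m (y i) := rfl

theorem carc_even {m : ℕ} (hm : 1 ≤ m) (k : ℤ) : carc m (m * (2 * k)) = 2 * k := by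
  have hm1 : (0 : ℤ) < m := by positivity
  unfold carc
  rw [if_pos ⟨k, by ring⟩, Int.mul_ediv_cancel_left _ (ne_of_gt hm1)]

theorem carc_odd {m : ℕ} (hm : 1 ≤ m) {k x : ℤ} (h1 : m * (2 * k) < x) (h2 : x < m * (2 * k + 2)) :
    carc m x = 2 * k + 1 := by
  have hm1 : (0 : ℤ) < m := by positivity
  have hm0 : (0 : ℤ) < 2 * m := by positivity
  unfold carc
  rw [if_neg]
  · have h3 : x / (2 * m : ℤ) = k := by
      apply le_antisymm
      · have : x / (2 * m : ℤ) < k + 1 := by
          rw [Int.ediv_lt_iff_lt_mul hm0]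
          nlinarith
        omega
      · rw [Int.le_ediv_iff_mul_le hm0]
        nlinarith
    rw [h3]
  · rintro ⟨l, rfl⟩
    have h3 : k < l := by
      by_contra hc
      push Not at hc
      nlinarith
    have h4 : l < k + 1 := by
      by_contra hc
      push Not at hc
      nlinarith
    omega

theorem cases_x {m : ℕ} (hm : 1 ≤ m) (x : ℤ) :
    (∃ k : ℤ, x = m * (2 * k)) ∨ ∃ k : ℤ, m * (2 * k) < x ∧ x < m * (2 * k + 2) := by
  have hm0 : (0 : ℤ) < 2 * m := by positivity
  have hr1 := Int.emod_nonneg x (ne_of_gt hm0)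
  have hr2 := Int.emod_lt_of_pos x hm0
  have hdm := Int.emod_add_mul_ediv x (2 * m)
  by_cases h : x % (2 * m : ℤ) = 0
  · left
    exact ⟨x / (2 * m), by rw [h] at hdm; linear_combination -hdm⟩
  · right
    refine ⟨x / (2 * m), ?_, ?_⟩
    · have : 0 < x % (2 * m : ℤ) := by omega
      nlinarith
    · nlinarith

theorem carc_iff {m : ℕ} (hm : 1 ≤ m) (t x : ℤ) :
    ((t % 2 = 0 → x = m * t) ∧ (t % 2 = 1 → m * (t - 1) < x ∧ x < m * (t + 1))) ↔
      carc m x = t := by
  constructor
  · rintro ⟨h1, h2⟩
    rcases Int.emod_two_eq_zero_or_one t with h | h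
    · obtain ⟨k, rfl⟩ : ∃ k, t = 2 * k := ⟨t / 2, by omega⟩
      rw [h1 h, carc_even hm]
    · obtain ⟨k, rfl⟩ : ∃ k, t = 2 * k + 1 := ⟨t / 2, by omega⟩
      obtain ⟨h3, h4⟩ := h2 h
      apply carc_odd hm
      · have : (2 * k + 1 - 1 : ℤ) = 2 * k := by ring
        rwa [this] at h3
      · have : (2 * k + 1 + 1 : ℤ) = 2 * k + 2 := by ring
        rwa [this] at h4
  · intro h
    rcases cases_x hm x with ⟨k, hk⟩ | ⟨k, hk1, hk2⟩
    · rw [hk, carc_even hm] at h
      subst h
      exact ⟨fun _ => hk, fun h => by omega⟩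
    · rw [carc_odd hm hk1 hk2] at h
      subst h
      refine ⟨fun h => by omega, fun _ => ⟨?_, ?_⟩⟩
      · have : (2 * k + 1 - 1 : ℤ) = 2 * k := by ring
        rwa [this]
      · have : (2 * k + 1 + 1 : ℤ) = 2 * k + 2 := by ring
        rwa [this]

/-- An odd fine coordinate lies over an odd coarse coordinate. -/
theorem carc_mod {m : ℕ} {x : ℤ} (hx : x % 2 = 1) : carc m x % 2 = 1 := by
  unfold carc
  rw [if_neg]
  · omega
  · intro h
    have : (2 : ℤ) ∣ x := dvd_trans (Dvd.intro _ rfl) h
    omega

theorem single_apply' (y : Cell) (i : Fin 4) (s : ℤ) (k : Fin 4) :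
    (y + (Pi.single i s : Cell)) k = if k = i then y k + s else y k := by
  simp only [Pi.add_apply]
  by_cases h : k = i
  · subst h
    simp
  · simp [h]

theorem upd_apply (y : Cell) (i : Fin 4) (x : ℤ) (k : Fin 4) :
    Function.update y i x k = if k = i then x else y k := by
  by_cases h : k = i
  · subst h
    simp
  · simp [h]

/-- A step from an even coarse coordinate. -/
theorem carc_step {m : ℕ} (hm : 1 ≤ m) {x s : ℤ} (hx : carc m x % 2 = 0)
    (hs : s = 1 ∨ s = -1) : carc m (x + s) = carc m x + s := by
  have hm1 : (1 : ℤ) ≤ m := by exact_mod_cast hm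
  have h1 := ((carc_iff hm (carc m x) x).mpr rfl).1 hx
  set t := carc m x with ht
  rw [← carc_iff hm]
  refine ⟨fun h => ?_, fun _ => ?_⟩
  · rcases hs with rfl | rfl <;> omega
  · rw [h1]
    rcases hs with rfl | rfl
    · constructor <;> nlinarith
    · constructor <;> nlinarith

theorem car_step {m : ℕ} (hm : 1 ≤ m) {y : Cell} {i : Fin 4} {s : ℤ} (hy : car m y i % 2 = 0)
    (hs : s = 1 ∨ s = -1) : car m (y + Pi.single i s) = car m y + Pi.single i s := by
  funext k
  rw [car_apply, single_apply', single_apply', car_apply]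
  by_cases hk : k = i
  · subst hk
    rw [if_pos rfl, if_pos rfl, carc_step hm (by rwa [car_apply] at hy) hs]
  · rw [if_neg hk, if_neg hk]

theorem le_car {m : ℕ} (hm : 1 ≤ m) {a b : Cell} (h : Le a b) : Le (car m a) (car m b) := by
  have hm1 : (1 : ℤ) ≤ m := by exact_mod_cast hm
  intro i
  rw [car_apply, car_apply]
  rcases h i with h | ⟨hb, h⟩
  · left
    rw [h]
  · have ho := carc_mod (m := m) hb
    by_cases he : carc m (a i) % 2 = 0
    · right
      refine ⟨ho, ?_⟩
      rcases h with h | h
      · left
        have h2 := carc_step hm he (Or.inl rfl : (1 : ℤ) = 1 ∨ (1 : ℤ) = -1)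
        have h3 : a i + 1 = b i := by omega
        rw [h3] at h2
        omega
      · right
        have h2 := carc_step hm he (Or.inr rfl : (-1 : ℤ) = 1 ∨ (-1 : ℤ) = -1)
        have h3 : a i + -1 = b i := by omega
        rw [h3] at h2
        omega
    · left
      have he1 : carc m (a i) % 2 = 1 := by omega
      obtain ⟨h2, h3⟩ := ((carc_iff hm (carc m (a i)) (a i)).mpr rfl).2 he1
      obtain ⟨h4, h5⟩ := ((carc_iff hm (carc m (b i)) (b i)).mpr rfl).2 ho
      generalize carc m (a i) = s at *
      generalize carc m (b i) = t at *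
      obtain ⟨p, rfl⟩ : ∃ p, s = 2 * p + 1 := ⟨s / 2, by omega⟩
      obtain ⟨q, rfl⟩ : ∃ q, t = 2 * q + 1 := ⟨t / 2, by omega⟩
      have h6 : p < q + 1 := by
        by_contra hc
        push Not at hc
        have h7 : (m : ℤ) * (2 * q + 1 + 1) ≤ m * (2 * p + 1 - 1) := by nlinarith
        have h8 : b i ≠ m * (2 * (q + 1)) - 1 ∨ a i ≤ m * (2 * (q + 1)) := by
          rcases h with h | h <;> omega
        have h9 : (m : ℤ) * (2 * q + 1 + 1) < a i := lt_of_le_of_lt h7 h2
        rcases h with h | h
        · omega
        · omega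
      have h7 : q < p + 1 := by
        by_contra hc
        push Not at hc
        have h8 : (m : ℤ) * (2 * p + 1 + 1) ≤ m * (2 * q + 1 - 1) := by nlinarith
        rcases h with h | h
        · omega
        · omega
      omega

theorem dim_zero {v : Cell} : dim v = 0 ↔ ∀ i, v i % 2 = 0 := by
  unfold dim
  rw [Finset.card_eq_zero, Finset.filter_eq_empty_iff]
  constructor
  · intro h i
    have := h (Finset.mem_univ i)
    omega
  · intro h i _
    have := h i
    omega

theorem dim_le_one {v : Cell} (h : dim v ≤ 1) {i j : Fin 4} (hi : v i % 2 = 1) (hj : v j % 2 = 1) :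
    i = j := by
  unfold dim at h
  rw [Finset.card_le_one] at h
  exact h i (by simp [hi]) j (by simp [hj])

theorem dim_pos {v : Cell} (h : dim v ≠ 0) : ∃ i, v i % 2 = 1 := by
  by_contra hc
  push Not at hc
  apply h
  rw [dim_zero]
  intro i
  have := hc i
  omega

theorem dim_car_le {m : ℕ} (y : Cell) : dim y ≤ dim (car m y) := by
  unfold dim
  apply Finset.card_le_card
  intro i hi
  rw [Finset.mem_filter] at hi ⊢
  exact ⟨hi.1, by rw [car_apply]; exact carc_mod hi.2⟩

/-- The cells over a vertex which contain it. -/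
theorem star_vertex {v y : Cell} (hv : dim v = 0) (hy : dim y ≤ 1) (h : Le v y) :
    y = v ∨ ∃ i s, (s = 1 ∨ s = -1) ∧ y = v + Pi.single i s := by
  rw [dim_zero] at hv
  by_cases h0 : dim y = 0
  · left
    rw [dim_zero] at h0
    funext i
    rcases h i with h1 | ⟨h1, -⟩
    · exact h1.symm
    · have := h0 i
      omega
  · right
    obtain ⟨i, hi⟩ := dim_pos h0
    refine ⟨i, y i - v i, ?_, ?_⟩
    · rcases h i with h1 | ⟨-, h1 | h1⟩
      · have := hv i
        omega
      · left
        omega
      · right
        omega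
    · funext k
      rw [single_apply']
      split_ifs with hk
      · subst hk
        ring
      · rcases h k with h1 | ⟨h1, -⟩
        · exact h1.symm
        · exact absurd (dim_le_one hy h1 hi) hk

theorem isDir_single (i : Fin 4) {s : ℤ} (hs : s = 1 ∨ s = -1) : IsDir (Pi.single i s) := by
  rcases hs with rfl | rfl
  · exact ⟨i, Or.inl rfl⟩
  · exact ⟨i, Or.inr rfl⟩

theorem isDir_cases {d : Cell} (h : IsDir d) : ∃ i s, (s = 1 ∨ s = -1) ∧ d = Pi.single i s := by
  obtain ⟨i, h | h⟩ := h
  · exact ⟨i, 1, Or.inl rfl, h⟩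
  · exact ⟨i, -1, Or.inr rfl, h⟩

theorem le_single {v : Cell} {i : Fin 4} {s : ℤ} (hv : v i % 2 = 0) (hs : s = 1 ∨ s = -1) :
    Le v (v + Pi.single i s) := by
  intro k
  rw [single_apply']
  split_ifs with hk
  · subst hk
    right
    rcases hs with rfl | rfl <;> omega
  · left
    rfl

/-- Neighbours on a line. -/
theorem le_line (y : Cell) (i : Fin 4) (x : ℤ) :
    Le (Function.update y i x) (Function.update y i (x + 1)) ∨
      Le (Function.update y i (x + 1)) (Function.update y i x) := by
  rcases Int.emod_two_eq_zero_or_one x with h | h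
  · left
    intro k
    rw [upd_apply, upd_apply]
    split_ifs with hk
    · right
      omega
    · left
      rfl
  · right
    intro k
    rw [upd_apply, upd_apply]
    split_ifs with hk
    · right
      omega
    · left
      rfl

/-- Adjacency in a set of cells. -/
def Adj (B : Finset Cell) (x y : Cell) : Prop := x ∈ B ∧ y ∈ B ∧ (Le x y ∨ Le y x)

theorem line_conn {B : Finset Cell} (y : Cell) (i : Fin 4) (x : ℤ) :
    ∀ k : ℕ, (∀ z : ℤ, x ≤ z → z ≤ x + k → Function.update y i z ∈ B) →
      Relation.ReflTransGen (Adj B) (Function.update y i x) (Function.update y i (x + k)) := by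
  intro k
  induction k with
  | zero =>
    intro _
    rw [Nat.cast_zero, add_zero]
  | succ k ih =>
    intro h
    refine Relation.ReflTransGen.tail (ih fun z h1 h2 => h z h1 (by push_cast; omega)) ?_
    have h1 : x + ((k + 1 : ℕ) : ℤ) = (x + k) + 1 := by push_cast; ring
    rw [h1]
    exact ⟨h _ (by omega) (by push_cast; omega), h _ (by omega) (by push_cast; omega), le_line y i _⟩

theorem adj_symm {B : Finset Cell} {x y : Cell} (h : Relation.ReflTransGen (Adj B) x y) :
    Relation.ReflTransGen (Adj B) y x := by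
  induction h with
  | refl => exact Relation.ReflTransGen.refl
  | tail _ h2 ih =>
    exact Relation.ReflTransGen.head ⟨h2.2.1, h2.1, h2.2.2.symm⟩ ih

theorem line_conn' {B : Finset Cell} (y : Cell) (i : Fin 4) {lo hi : ℤ}
    (h : ∀ z : ℤ, lo ≤ z → z ≤ hi → Function.update y i z ∈ B) {x x' : ℤ} (h1 : lo ≤ x)
    (h2 : x ≤ hi) (h3 : lo ≤ x') (h4 : x' ≤ hi) :
    Relation.ReflTransGen (Adj B) (Function.update y i x) (Function.update y i x') := by
  rcases le_total x x' with h5 | h5
  · have h6 := line_conn (B := B) y i x (x' - x).toNat (fun z h7 h8 => h z (by omega) (by omega))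
    have h7 : x + ((x' - x).toNat : ℤ) = x' := by omega
    rwa [h7] at h6
  · have h6 := line_conn (B := B) y i x' (x - x').toNat (fun z h7 h8 => h z (by omega) (by omega))
    have h7 : x' + ((x - x').toNat : ℤ) = x := by omega
    rw [h7] at h6
    exact adj_symm h6

/-- The standard fine cell over a coarse cell. -/
def ft (m : ℕ) (t : Cell) : Cell := fun i => if t i % 2 = 0 then m * t i else m * (t i - 1) + 1

theorem sub_ft {m : ℕ} (hm : 1 ≤ m) (t : Cell) : Sub m t (ft m t) := by
  have hm1 : (1 : ℤ) ≤ m := by exact_mod_cast hm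
  intro i
  refine ⟨fun h => ?_, fun h => ?_⟩
  · unfold ft
    rw [if_pos h]
  · unfold ft
    rw [if_neg (by omega)]
    constructor <;> nlinarith

end ScaleM

open ScaleM in
theorem car_iff {m : ℕ} (hm : 1 ≤ m) (t y : Cell) : Sub m t y ↔ car m y = t := by
  constructor
  · intro h
    funext i
    rw [car_apply]
    exact (carc_iff hm _ _).mp (h i)
  · intro h i
    apply (carc_iff hm _ _).mpr
    rw [← car_apply, h]

theorem car_neg {m : ℕ} (hm : 1 ≤ m) (y : Cell) : car m (-y) = - car m y := by
  rw [← car_iff hm]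
  have h := (car_iff hm (car m y) y).mpr rfl
  intro i
  obtain ⟨h1, h2⟩ := h i
  generalize car m y = c at *
  rw [Pi.neg_apply, Pi.neg_apply]
  refine ⟨fun h => ?_, fun h => ?_⟩
  · rw [h1 (by omega)]
    ring
  · obtain ⟨h3, h4⟩ := h2 (by omega)
    constructor <;> linarith

open ScaleM in
theorem fine_bd {m : ℕ} (hm : 1 ≤ m) {n : Fin 4 → ℕ} {K B : Finset Cell}
    (hK : K ⊆ bd n) (hB : (B : Set Cell) = scale m K) :
    fine m n (bd n \ K) = bd (fun i => m * n i) \ B := by
  have hm1 : (1 : ℤ) ≤ m := by exact_mod_cast hm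
  ext y
  have hBy : y ∈ B ↔ car m y ∈ K := by
    rw [← Finset.mem_coe, hB]
    constructor
    · rintro ⟨t, ht, hs⟩
      rw [(car_iff hm t y).mp hs]
      exact ht
    · intro h
      exact ⟨_, h, (car_iff hm _ y).mpr rfl⟩
  unfold fine
  rw [Finset.mem_filter, Finset.mem_sdiff, Finset.mem_sdiff, hBy]
  have key : y ∈ Box (fun i => m * n i) → (car m y ∈ bd n ↔ y ∈ bd (fun i => m * n i)) := by
    intro hy
    have hcar := (car_iff hm (car m y) y).mpr rfl
    have hbox : car m y ∈ Box n := by
      unfold Box at hy ⊢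
      rw [Fintype.mem_piFinset] at hy ⊢
      intro i
      have h1 := Finset.mem_Icc.mp (hy i)
      rw [Finset.mem_Icc]
      push_cast at h1
      obtain ⟨h2, h3⟩ := hcar i
      generalize car m y i = t at *
      rcases Int.emod_two_eq_zero_or_one t with h | h
      · have h4 := h2 h
        rw [h4] at h1
        obtain ⟨h5, h6⟩ := h1
        constructor
        · by_contra hc
          push Not at hc
          nlinarith
        · by_contra hc
          push Not at hc
          nlinarith
      · obtain ⟨h4, h5⟩ := h3 h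
        obtain ⟨h6, h7⟩ := h1
        constructor
        · by_contra hc
          push Not at hc
          nlinarith
        · by_contra hc
          push Not at hc
          nlinarith
    unfold bd
    rw [Finset.mem_filter, Finset.mem_filter]
    have h8 : ∀ (i : Fin 4) (s : ℤ), (s = 2 * (n i : ℤ) ∨ s = -(2 * (n i : ℤ))) →
        (car m y i = s ↔ y i = m * s) := by
      intro i s hs
      rw [car_apply, ← carc_iff hm]
      constructor
      · intro h
        exact h.1 (by rcases hs with h | h <;> omega)
      · intro h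
        exact ⟨fun _ => h, fun h => by rcases hs with h | h <;> omega⟩
    constructor
    · rintro ⟨-, i, h⟩
      refine ⟨hy, i, ?_⟩
      push_cast
      rcases h with h | h
      · left
        rw [(h8 i _ (Or.inl rfl)).mp h]
        ring
      · right
        rw [(h8 i _ (Or.inr rfl)).mp h]
        ring
    · rintro ⟨-, i, h⟩
      refine ⟨hbox, i, ?_⟩
      push_cast at h
      rcases h with h | h
      · left
        rw [h8 i _ (Or.inl rfl), h]
        ring
      · right
        rw [h8 i _ (Or.inr rfl), h]
        ring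
  constructor
  · rintro ⟨h1, h2, h3⟩
    exact ⟨(key h1).mp h2, h3⟩
  · rintro ⟨h1, h2⟩
    have h3 : y ∈ Box (fun i => m * n i) := by
      unfold bd at h1
      exact (Finset.mem_filter.mp h1).1
    exact ⟨h3, (key h3).mpr h1, h2⟩

open ScaleM in
theorem suba_mono {m : ℕ} (hm : 1 ≤ m) (a : Cell → Cell → ZMod 3) (y : Cell) (i j : Fin 4)
    (hij : i ≠ j) (hi : car m y i % 2 = 0) (hj : car m y j % 2 = 0) :
    mono (suba m a) y i j = mono a (car m y) i j := by
  have e1 : ∀ (z : Cell) (k : Fin 4), z + e k = z + Pi.single k 1 := fun z k => rfl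
  have e2 : ∀ (z : Cell) (k : Fin 4), z - e k = z + Pi.single k (-1) := by
    intro z k
    rw [sub_eq_add_neg]
    congr 1
    unfold e
    rw [← Pi.single_neg]
  have hp : (1 : ℤ) = 1 ∨ (1 : ℤ) = -1 := Or.inl rfl
  have hn : (-1 : ℤ) = 1 ∨ (-1 : ℤ) = -1 := Or.inr rfl
  have s1 : ∀ s : ℤ, (s = 1 ∨ s = -1) → ∀ k : Fin 4, (k = i ∨ k = j) →
      car m (y + Pi.single k s) = car m y + Pi.single k s := by
    intro s hs k hk
    apply car_step hm _ hs
    rcases hk with rfl | rfl
    · exact hi
    · exact hj
  have s2 : ∀ s t : ℤ, (s = 1 ∨ s = -1) → (t = 1 ∨ t = -1) →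
      car m (y + Pi.single i s + Pi.single j t) = car m y + Pi.single i s + Pi.single j t := by
    intro s t hs ht
    rw [car_step hm _ ht, s1 s hs i (Or.inl rfl)]
    rw [s1 s hs i (Or.inl rfl), single_apply', if_neg (Ne.symm hij)]
    exact hj
  have ne : ∀ (z : Cell) (k : Fin 4) (s : ℤ), (s = 1 ∨ s = -1) → z + Pi.single k s ≠ z := by
    intro z k s hs h
    have := congrFun h k
    rw [single_apply', if_pos rfl] at this
    rcases hs with rfl | rfl <;> omega
  have ne' : ∀ (z : Cell) (k l : Fin 4) (s t : ℤ), (s = 1 ∨ s = -1) → 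
      z + Pi.single k s + Pi.single l t ≠ z + Pi.single l t := by
    intro z k l s t hs h
    apply ne z k s hs
    exact add_right_cancel h
  unfold mono
  simp only [e1, e2]
  unfold suba
  simp only [s2 _ _ hp hp, s2 _ _ hp hn, s2 _ _ hn hp, s2 _ _ hn hn, s1 _ hp i (Or.inl rfl),
    s1 _ hn i (Or.inl rfl), s1 _ hp j (Or.inr rfl), s1 _ hn j (Or.inr rfl)]
  simp only [if_neg (ne _ j _ hp), if_neg (ne _ j _ hn), if_neg (ne' _ i j _ _ hp),
    if_neg (ne' _ i j _ _ hn)]

theorem symA_suba {m : ℕ} (hm : 1 ≤ m) {a : Cell → Cell → ZMod 3} (ha : SymA a) :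
    SymA (suba m a) := by
  intro c c'
  unfold suba
  have h := ha (car m c) (car m c')
  simp only [car_neg hm, neg_inj, h]

open ScaleM in
theorem exists_edge {m : ℕ} (hm : 1 ≤ m) (t : Cell) : ∃ y, car m y = t ∧ dim y = dim t := by
  refine ⟨ft m t, (car_iff hm _ _).mp (sub_ft hm t), ?_⟩
  unfold dim
  congr 1
  apply Finset.filter_congr
  intro i _
  unfold ft
  split_ifs with h
  · obtain ⟨k, hk⟩ : ∃ k, t i = 2 * k := ⟨t i / 2, by omega⟩
    have h1 : (m : ℤ) * t i = 2 * (m * k) := by rw [hk]; ring
    rw [h1]
    omega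
  · obtain ⟨k, hk⟩ : ∃ k, t i = 2 * k + 1 := ⟨t i / 2, by omega⟩
    have h1 : (m : ℤ) * (t i - 1) + 1 = 2 * (m * k) + 1 := by rw [hk]; ring
    rw [h1]
    omega

open ScaleM in
theorem curve_scale {m : ℕ} (hm : 1 ≤ m) {K B : Finset Cell} (hK : IsCurve K)
    (hB : (B : Set Cell) = scale m K) : IsCurve B := by
  have hm1 : (1 : ℤ) ≤ m := by exact_mod_cast hm
  have hBy : ∀ y, y ∈ B ↔ car m y ∈ K := by
    intro y
    rw [← Finset.mem_coe, hB]
    constructor
    · rintro ⟨t, ht, hs⟩
      rw [(car_iff hm t y).mp hs]
      exact ht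
    · intro h
      exact ⟨_, h, (car_iff hm _ y).mpr rfl⟩
  have hdim : ∀ y ∈ B, dim y ≤ 1 := fun y hy =>
    le_trans (dim_car_le y) (hK.dim_le _ ((hBy y).mp hy))
  have hft : ∀ t ∈ K, ft m t ∈ B := fun t ht => (hBy _).mpr
    (by rw [(car_iff hm t _).mp (sub_ft hm t)]; exact ht)
  -- all cells on the closed edge `t` are in `B`
  have hline : ∀ t ∈ K, ∀ i, t i % 2 = 1 → ∀ z : ℤ, m * (t i - 1) ≤ z → z ≤ m * (t i + 1) →
      Function.update (ft m t) i z ∈ B := by
    intro t ht i hi z h1 h2
    rw [hBy]
    have hs : ∀ r, (r = t i ∨ r = t i - 1 ∨ r = t i + 1) → carc m z = r →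
        car m (Function.update (ft m t) i z) ∈ K := by
      intro r hr hz
      apply hK.cx t ht
      intro k
      rw [car_apply, upd_apply]
      split_ifs with hk
      · subst hk
        rw [hz]
        rcases hr with h | h
        · exact Or.inl h
        · exact Or.inr ⟨hi, h⟩
      · left
        exact (carc_iff hm _ _).mp (sub_ft hm t k)
    rcases eq_or_lt_of_le h1 with h3 | h3
    · apply hs (t i - 1) (Or.inr (Or.inl rfl))
      rw [← carc_iff hm]
      exact ⟨fun _ => h3.symm, fun h => by omega⟩
    · rcases eq_or_lt_of_le h2 with h4 | h4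
      · apply hs (t i + 1) (Or.inr (Or.inr rfl))
        rw [← carc_iff hm]
        exact ⟨fun _ => h4, fun h => by omega⟩
      · apply hs (t i) (Or.inl rfl)
        rw [← carc_iff hm]
        exact ⟨fun h => by omega, fun _ => ⟨h3, h4⟩⟩
  -- every cell is connected with the standard cell of its fiber
  have h1 : ∀ y ∈ B, Relation.ReflTransGen (Adj B) y (ft m (car m y)) := by
    intro y hy
    have hc := (hBy y).mp hy
    have hs := (car_iff hm (car m y) y).mpr rfl
    have hs' := sub_ft hm (car m y)
    by_cases h0 : dim (car m y) = 0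
    · rw [dim_zero] at h0
      have : y = ft m (car m y) := by
        funext i
        rw [(hs i).1 (h0 i), (hs' i).1 (h0 i)]
      rw [← this]
    · obtain ⟨i, hi⟩ := dim_pos h0
      have h2 : y = Function.update (ft m (car m y)) i (y i) := by
        funext k
        rw [upd_apply]
        split_ifs with hk
        · rw [hk]
        · have h3 : car m y k % 2 = 0 := by
            by_contra hc2
            exact hk (dim_le_one (hK.dim_le _ hc) (by omega) hi)
          rw [(hs k).1 h3, (hs' k).1 h3]
      have h3 : ft m (car m y) = Function.update (ft m (car m y)) i (ft m (car m y) i) :=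
        (Function.update_eq_self _ _).symm
      obtain ⟨h4, h5⟩ := (hs i).2 hi
      obtain ⟨h6, h7⟩ := (hs' i).2 hi
      have h8 := line_conn' (B := B) (ft m (car m y)) i (hline _ hc i hi) h4.le h5.le h6.le h7.le
      rwa [← h2, ← h3] at h8
  have h2 : ∀ s t, s ∈ K → t ∈ K → Le s t → Relation.ReflTransGen (Adj B) (ft m s) (ft m t) := by
    intro s t hsK ht hst
    have hs' := sub_ft hm t
    have hs'' := sub_ft hm s
    by_cases h0 : dim t = 0
    · rw [dim_zero] at h0
      have : s = t := by
        funext i
        rcases hst i with h | ⟨h, -⟩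
        · exact h
        · have := h0 i
          omega
      rw [this]
    · obtain ⟨i, hi⟩ := dim_pos h0
      have hsk : ∀ k, k ≠ i → s k = t k := by
        intro k hk
        rcases hst k with h | ⟨h, -⟩
        · exact h
        · exact absurd (dim_le_one (hK.dim_le _ ht) h hi) hk
      have h2 : ft m s = Function.update (ft m t) i (ft m s i) := by
        funext k
        rw [upd_apply]
        split_ifs with hk
        · rw [hk]
        · unfold ft
          rw [hsk k hk]
      have h3 : ft m t = Function.update (ft m t) i (ft m t i) :=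
        (Function.update_eq_self _ _).symm
      obtain ⟨h6, h7⟩ := (hs' i).2 hi
      have h8 : m * (t i - 1) ≤ ft m s i ∧ ft m s i ≤ m * (t i + 1) := by
        rcases hst i with h | ⟨-, h | h⟩
        · obtain ⟨h9, h10⟩ := (hs'' i).2 (by rw [h]; exact hi)
          rw [h] at h9 h10
          exact ⟨h9.le, h10.le⟩
        · rw [(hs'' i).1 (by omega), h]
          constructor <;> nlinarith
        · rw [(hs'' i).1 (by omega), h]
          constructor <;> nlinarith
      have h9 := line_conn' (B := B) (ft m t) i (hline _ ht i hi) h8.1 h8.2 h6.le h7.le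
      rwa [← h2, ← h3] at h9
  refine ⟨?_, hdim, ⟨?_, ?_⟩, ?_⟩
  · intro b hb a hab
    rw [hBy] at hb ⊢
    exact hK.cx _ hb _ (le_car hm hab)
  · obtain ⟨t, ht⟩ := hK.conn.1
    exact ⟨_, hft t ht⟩
  · intro a ha b hb
    have h3 := h1 a ha
    have h4 := adj_symm (h1 b hb)
    have h5 := hK.conn.2 _ ((hBy a).mp ha) _ ((hBy b).mp hb)
    have h6 : Relation.ReflTransGen (Adj B) (ft m (car m a)) (ft m (car m b)) := by
      generalize car m b = t at h5
      induction h5 with
      | refl => exact Relation.ReflTransGen.refl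
      | tail _ h7 ih =>
        obtain ⟨h8, h9, h10 | h10⟩ := h7
        · exact ih.trans (h2 _ _ h8 h9 h10)
        · exact ih.trans (adj_symm (h2 _ _ h9 h8 h10))
    exact (h3.trans h6).trans h4
  · intro v hv h0
    have hc := (hBy v).mp hv
    have hs := (car_iff hm (car m v) v).mpr rfl
    by_cases hd : dim (car m v) = 0
    · obtain ⟨d, e', hd1, he1, hne, h5⟩ := hK.two _ hc hd
      refine ⟨d, e', hd1, he1, hne, ?_⟩
      have hd' := hd
      rw [dim_zero] at hd' h0
      have key : ∀ (i : Fin 4) (s : ℤ), (s = 1 ∨ s = -1) →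
          (v + Pi.single i s ∈ B ↔ car m v + Pi.single i s ∈ K) := by
        intro i s hs
        rw [hBy, car_step hm (hd' i) hs]
      intro c
      constructor
      · rintro ⟨hcB, hle⟩
        rcases star_vertex (dim_zero.mpr h0) (hdim c hcB) hle with h6 | ⟨i, s, hs1, h6⟩
        · exact Or.inl h6
        · right
          rw [h6, key i s hs1] at hcB
          have h7 := (h5 _).mp ⟨hcB, le_single (hd' i) hs1⟩
          rcases h7 with h7 | h7 | h7
          · exfalso
            have := congrFun h7 i
            rw [single_apply', if_pos rfl] at this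
            rcases hs1 with rfl | rfl <;> omega
          · left
            rw [h6, add_left_cancel h7]
          · right
            rw [h6, add_left_cancel h7]
      · rintro (h6 | h6 | h6)
        · rw [h6]
          exact ⟨hv, fun k => Or.inl rfl⟩
        · obtain ⟨i, s, hs1, rfl⟩ := isDir_cases hd1
          rw [h6]
          exact ⟨(key i s hs1).mpr ((h5 _).mpr (Or.inr (Or.inl rfl))).1, le_single (h0 i) hs1⟩
        · obtain ⟨i, s, hs1, rfl⟩ := isDir_cases he1
          rw [h6]
          exact ⟨(key i s hs1).mpr ((h5 _).mpr (Or.inr (Or.inr rfl))).1, le_single (h0 i) hs1⟩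
    · obtain ⟨i, hi⟩ := dim_pos hd
      have hp : (1 : ℤ) = 1 ∨ (1 : ℤ) = -1 := Or.inl rfl
      have hn : (-1 : ℤ) = 1 ∨ (-1 : ℤ) = -1 := Or.inr rfl
      have h0' := h0
      rw [dim_zero] at h0'
      have key : ∀ s : ℤ, (s = 1 ∨ s = -1) → v + Pi.single i s ∈ B := by
        intro s hs1
        rw [hBy]
        have : car m (v + Pi.single i s) = car m v := by
          rw [← car_iff hm]
          intro k
          rw [single_apply']
          split_ifs with hk
          · subst hk
            refine ⟨fun h => by omega, fun h => ?_⟩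
            obtain ⟨h6, h7⟩ := (hs k).2 hi
            have h8 := h0' k
            obtain ⟨q, hq⟩ : ∃ q, car m v k = 2 * q + 1 := ⟨car m v k / 2, by omega⟩
            rw [hq] at h6 h7 ⊢
            have h9 : (m : ℤ) * (2 * q + 1 - 1) = 2 * (m * q) := by ring
            have h10 : (m : ℤ) * (2 * q + 1 + 1) = 2 * (m * (q + 1)) := by ring
            rw [h9] at h6 ⊢
            rw [h10] at h7 ⊢
            rcases hs1 with rfl | rfl <;> omega
          · exact hs k
        rw [this]
        exact hc
      refine ⟨Pi.single i 1, Pi.single i (-1), isDir_single i hp, isDir_single i hn, ?_, ?_⟩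
      · intro h
        have := congrFun h i
        simp at this
      · intro c
        constructor
        · rintro ⟨hcB, hle⟩
          rcases star_vertex h0 (hdim c hcB) hle with h6 | ⟨k, s, hs1, h6⟩
          · exact Or.inl h6
          · right
            have hki : k = i := by
              by_contra hki
              have hk0 : car m v k % 2 = 0 := by
                by_contra hc2
                exact hki (dim_le_one (hK.dim_le _ hc) (by omega) hi)
              have h7 := (hBy c).mp hcB
              rw [h6, car_step hm hk0 hs1] at h7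
              apply hki
              apply dim_le_one (hK.dim_le _ h7)
              · rw [single_apply', if_pos rfl]
                rcases hs1 with rfl | rfl <;> omega
              · rw [single_apply', if_neg (Ne.symm hki)]
                exact hi
            subst hki
            rcases hs1 with rfl | rfl
            · exact Or.inl h6
            · exact Or.inr h6
        · rintro (h6 | h6 | h6)
          · rw [h6]
            exact ⟨hv, fun k => Or.inl rfl⟩
          · rw [h6]
            exact ⟨key 1 hp, le_single (h0' i) hp⟩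
          · rw [h6]
            exact ⟨key (-1) hn, le_single (h0' i) hn⟩

end Cub
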