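import Pool.Agent.H33.CB.ExTri

/-!
# Module Split (about 150 lines): sub and quotient complexes of based complexes

`B₁` is closed: no arrows from `B₁` to `B₂`.  Apply `ex_tri` to extension by zero
`(B₁ → R) → (B₁ ∪ B₂ → R)` and restriction `(B₁ ∪ B₂ → R) → (B₂ → R)`.
`len_zero`: `Acy` says that the quotient is a subsingleton, `Module.length_eq_zero_iff`.
The corollaries are arithmetic in `ℕ∞` (`γ + α ≠ ⊤` iff both are finite; `toNat`, casts to `ZMod 2`).
-/

namespace Cub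

variable {R : Type} [CommRing R] {ι : Type} [DecidableEq ι]

theorem len_zero (D : ι → ι → R) (B : Finset ι) : Acy D B ↔ Module.length R (Hm D B) = 0 := by
  rw [Module.length_eq_zero_iff, Submodule.Quotient.subsingleton_iff]
  unfold Submodule.submoduleOf
  rw [Submodule.comap_subtype_eq_top]
  constructor
  · intro h x hx
    obtain ⟨y, hy⟩ := h x (LinearMap.mem_ker.1 hx)
    exact ⟨y, hy⟩
  · intro h x hx
    obtain ⟨y, hy⟩ := h (LinearMap.mem_ker.2 hx)
    exact ⟨y, hy⟩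

theorem fl_of_acy {D : ι → ι → R} {B : Finset ι} (h : Acy D B) : FL D B := by
  unfold FL
  rw [(len_zero D B).1 h]
  exact ENat.zero_ne_top

theorem par_of_acy {D : ι → ι → R} {B : Finset ι} (h : Acy D B) : par D B = 0 := by
  unfold par
  rw [(len_zero D B).1 h]
  simp

theorem isCx_left {D : ι → ι → R} {B₁ B₂ : Finset ι} (hcx : IsCx D (B₁ ∪ B₂))
    (h : ∀ a ∈ B₁, ∀ b ∈ B₂, D a b = 0) (hd : Disjoint B₁ B₂) : IsCx D B₁ := by
  intro a ha c hc
  have h1 := hcx a (Finset.mem_union_left _ ha) c (Finset.mem_union_left _ hc)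
  rw [Finset.sum_union hd] at h1
  have h2 : ∑ b ∈ B₂, D a b * D b c = 0 :=
    Finset.sum_eq_zero fun b hb => by rw [h a ha b hb, zero_mul]
  rwa [h2, add_zero] at h1

theorem isCx_right {D : ι → ι → R} {B₁ B₂ : Finset ι} (hcx : IsCx D (B₁ ∪ B₂))
    (h : ∀ a ∈ B₁, ∀ b ∈ B₂, D a b = 0) (hd : Disjoint B₁ B₂) : IsCx D B₂ := by
  intro a ha c hc
  have h1 := hcx a (Finset.mem_union_right _ ha) c (Finset.mem_union_right _ hc)
  rw [Finset.sum_union hd] at h1
  have h2 : ∑ b ∈ B₁, D a b * D b c = 0 :=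
    Finset.sum_eq_zero fun b hb => by rw [h b hb c hc, mul_zero]
  rwa [h2, zero_add] at h1

/-- extension by zero to all indices -/
private def Split_ext (B : Finset ι) (x : B → R) : ι → R :=
  fun a => if h : a ∈ B then x ⟨a, h⟩ else 0

private theorem Split_ext_coe (B : Finset ι) (x : B → R) (a : B) : Split_ext B x a = x a := by
  unfold Split_ext
  rw [dif_pos a.2]

private theorem Split_ext_not (B : Finset ι) (x : B → R) {a : ι} (h : a ∉ B) :
    Split_ext B x a = 0 := by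
  unfold Split_ext
  rw [dif_neg h]

private theorem Split_dB (D : ι → ι → R) (B : Finset ι) (x : B → R) (b : B) :
    dB D B x b = ∑ a ∈ B, Split_ext B x a * D a b := by
  rw [← Finset.sum_coe_sort B (fun a => Split_ext B x a * D a b)]
  refine Finset.sum_congr rfl fun a _ => ?_
  rw [Split_ext_coe]

private theorem Split_dd {D : ι → ι → R} {B : Finset ι} (hcx : IsCx D B) (x : B → R) :
    dB D B (dB D B x) = 0 := by
  funext c
  rw [Split_dB]
  have h1 : ∀ b ∈ B, Split_ext B (dB D B x) b * D b c =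
      ∑ a ∈ B, Split_ext B x a * (D a b * D b c) := by
    intro b hb
    have h2 := Split_ext_coe B (dB D B x) ⟨b, hb⟩
    have h3 := Split_dB D B x ⟨b, hb⟩
    simp only at h2 h3
    rw [h2, h3, Finset.sum_mul]
    refine Finset.sum_congr rfl fun a _ => ?_
    rw [mul_assoc]
  rw [Finset.sum_congr rfl h1, Finset.sum_comm]
  refine Finset.sum_eq_zero fun a ha => ?_
  rw [← Finset.mul_sum, hcx a ha c c.2, mul_zero]

/-- extension by zero -/
private def Split_i (B₁ B₂ : Finset ι) : (B₁ → R) →ₗ[R] ((B₁ ∪ B₂ : Finset ι) → R) where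
  toFun x := fun c => Split_ext B₁ x c
  map_add' x y := by
    funext c
    show Split_ext B₁ (x + y) c = Split_ext B₁ x c + Split_ext B₁ y c
    unfold Split_ext
    split_ifs
    · rfl
    · rw [add_zero]
  map_smul' r x := by
    funext c
    show Split_ext B₁ (r • x) c = r * Split_ext B₁ x c
    unfold Split_ext
    split_ifs
    · rfl
    · rw [mul_zero]

/-- restriction -/
private def Split_p (B₁ B₂ : Finset ι) : ((B₁ ∪ B₂ : Finset ι) → R) →ₗ[R] (B₂ → R) where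
  toFun y := fun b => y ⟨b, Finset.mem_union_right _ b.2⟩
  map_add' _ _ := rfl
  map_smul' _ _ := rfl

theorem len_split {D : ι → ι → R} {B₁ B₂ : Finset ι} (hcx : IsCx D (B₁ ∪ B₂))
    (h : ∀ a ∈ B₁, ∀ b ∈ B₂, D a b = 0) (hd : Disjoint B₁ B₂) :
    ∃ α β γ : ℕ∞, Module.length R (Hm D B₁) = γ + α ∧
      Module.length R (Hm D (B₁ ∪ B₂)) = α + β ∧ Module.length R (Hm D B₂) = β + γ := by
  have hnot : ∀ b ∈ B₂, b ∉ B₁ := fun b hb hb1 => (Finset.disjoint_left.1 hd) hb1 hb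
  refine ex_tri (dB D B₁) (dB D (B₁ ∪ B₂)) (dB D B₂) (Split_dd (isCx_left hcx h hd))
    (Split_dd hcx) (Split_dd (isCx_right hcx h hd)) (Split_i B₁ B₂) (Split_p B₁ B₂) ?_ ?_ ?_ ?_ ?_
  · intro x y hxy
    funext a
    have h1 := congrFun hxy ⟨a, Finset.mem_union_left _ a.2⟩
    have h2 : Split_ext B₁ x a = Split_ext B₁ y a := h1
    rwa [Split_ext_coe, Split_ext_coe] at h2
  · intro y
    refine ⟨fun c => Split_ext B₂ y c, ?_⟩
    funext b
    exact Split_ext_coe B₂ y b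
  · intro x
    constructor
    · intro hx
      refine ⟨fun a => x ⟨a, Finset.mem_union_left _ a.2⟩, ?_⟩
      funext c
      show Split_ext B₁ (fun a : B₁ => x ⟨a, Finset.mem_union_left _ a.2⟩) c = x c
      by_cases hc : (c : ι) ∈ B₁
      · unfold Split_ext
        rw [dif_pos hc]
      · rw [Split_ext_not _ _ hc]
        have hc2 : (c : ι) ∈ B₂ := by
          rcases Finset.mem_union.1 c.2 with h3 | h3
          · exact absurd h3 hc
          · exact h3
        exact (congrFun hx ⟨c, hc2⟩).symm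
    · rintro ⟨y, rfl⟩
      funext b
      exact Split_ext_not _ _ (hnot b b.2)
  · intro x
    funext c
    show Split_ext B₁ (dB D B₁ x) c = dB D (B₁ ∪ B₂) (Split_i B₁ B₂ x) c
    rw [Split_dB, Finset.sum_union hd]
    have h2 : ∑ a ∈ B₂, Split_ext (B₁ ∪ B₂) (Split_i B₁ B₂ x) a * D a c = 0 := by
      refine Finset.sum_eq_zero fun a ha => ?_
      have h3 : Split_ext (B₁ ∪ B₂) (Split_i B₁ B₂ x) a = 0 := by
        unfold Split_ext
        rw [dif_pos (Finset.mem_union_right _ ha)]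
        exact Split_ext_not _ _ (hnot a ha)
      rw [h3, zero_mul]
    have h1 : ∑ a ∈ B₁, Split_ext (B₁ ∪ B₂) (Split_i B₁ B₂ x) a * D a c =
        ∑ a ∈ B₁, Split_ext B₁ x a * D a c := by
      refine Finset.sum_congr rfl fun a ha => ?_
      have h3 : Split_ext (B₁ ∪ B₂) (Split_i B₁ B₂ x) a = Split_ext B₁ x a := by
        conv_lhs => unfold Split_ext
        rw [dif_pos (Finset.mem_union_left _ ha)]
        rfl
      rw [h3]
    rw [h1, h2, add_zero]
    by_cases hc : (c : ι) ∈ B₁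
    · have h4 := Split_ext_coe B₁ (dB D B₁ x) ⟨c, hc⟩
      have h5 := Split_dB D B₁ x ⟨c, hc⟩
      simp only at h4 h5
      rw [h4, h5]
    · have hc2 : (c : ι) ∈ B₂ := by
        rcases Finset.mem_union.1 c.2 with h3 | h3
        · exact absurd h3 hc
        · exact h3
      rw [Split_ext_not _ _ hc]
      exact (Finset.sum_eq_zero fun a ha => by rw [h a ha c hc2, mul_zero]).symm
  · intro y
    funext b
    show dB D (B₁ ∪ B₂) y ⟨b, Finset.mem_union_right _ b.2⟩ = dB D B₂ (Split_p B₁ B₂ y) b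
    rw [Split_dB, Split_dB, Finset.sum_union hd]
    have h1 : ∑ a ∈ B₁, Split_ext (B₁ ∪ B₂) y a * D a b = 0 :=
      Finset.sum_eq_zero fun a ha => by rw [h a ha b b.2, mul_zero]
    rw [h1, zero_add]
    refine Finset.sum_congr rfl fun a ha => ?_
    have h3 : Split_ext (B₁ ∪ B₂) y a = Split_ext B₂ (Split_p B₁ B₂ y) a := by
      unfold Split_ext
      rw [dif_pos (Finset.mem_union_right _ ha), dif_pos ha]
      rfl
    rw [h3]

/-- Two out of three, finite length and parity. -/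
theorem par_split {D : ι → ι → R} {B₁ B₂ : Finset ι} (hcx : IsCx D (B₁ ∪ B₂))
    (h : ∀ a ∈ B₁, ∀ b ∈ B₂, D a b = 0) (hd : Disjoint B₁ B₂) :
    (FL D B₁ → FL D B₂ → FL D (B₁ ∪ B₂)) ∧ (FL D (B₁ ∪ B₂) → FL D B₁ → FL D B₂) ∧
    (FL D (B₁ ∪ B₂) → FL D B₂ → FL D B₁) ∧
    (FL D B₁ → FL D B₂ → par D (B₁ ∪ B₂) = par D B₁ + par D B₂) := by
  obtain ⟨α, β, γ, e1, e, e2⟩ := len_split hcx h hd
  unfold FL par
  rw [e1, e, e2]
  simp only [ne_eq, ENat.add_eq_top, not_or]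
  refine ⟨fun h1 h2 => ⟨h1.2, h2.1⟩, fun h1 h2 => ⟨h1.2, h2.1⟩, fun h1 h2 => ⟨h2.2, h1.1⟩,
    fun h1 h2 => ?_⟩
  obtain ⟨hγ, hα⟩ := h1
  obtain ⟨hβ, -⟩ := h2
  lift α to ℕ using hα
  lift β to ℕ using hβ
  lift γ to ℕ using hγ
  have c1 : ((α : ℕ∞) + β).toNat = α + β := by
    rw [← Nat.cast_add, ENat.toNat_natCast]
  have c2 : ((γ : ℕ∞) + α).toNat = γ + α := by
    rw [← Nat.cast_add, ENat.toNat_natCast]
  have c3 : ((β : ℕ∞) + γ).toNat = β + γ := by
    rw [← Nat.cast_add, ENat.toNat_natCast]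
  rw [c1, c2, c3]
  push_cast
  have h3 : (γ : ZMod 2) + γ = 0 := CharTwo.add_self_eq_zero _
  linear_combination -h3

/-- Two out of three, acyclicity. -/
theorem acy_split {D : ι → ι → R} {B₁ B₂ : Finset ι} (hcx : IsCx D (B₁ ∪ B₂))
    (h : ∀ a ∈ B₁, ∀ b ∈ B₂, D a b = 0) (hd : Disjoint B₁ B₂) :
    (Acy D B₁ → Acy D B₂ → Acy D (B₁ ∪ B₂)) ∧ (Acy D (B₁ ∪ B₂) → Acy D B₁ → Acy D B₂) ∧
    (Acy D (B₁ ∪ B₂) → Acy D B₂ → Acy D B₁) := by
  obtain ⟨α, β, γ, e1, e, e2⟩ := len_split hcx h hd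
  simp only [len_zero, e1, e, e2, add_eq_zero]
  tauto

/-- Removing an acyclic closed or open part. -/
theorem par_acy_left {D : ι → ι → R} {B₁ B₂ : Finset ι} (hcx : IsCx D (B₁ ∪ B₂))
    (h : ∀ a ∈ B₁, ∀ b ∈ B₂, D a b = 0) (hd : Disjoint B₁ B₂) (ha : Acy D B₁) :
    (FL D (B₁ ∪ B₂) ↔ FL D B₂) ∧ par D (B₁ ∪ B₂) = par D B₂ := by
  obtain ⟨α, β, γ, e1, e, e2⟩ := len_split hcx h hd
  rw [len_zero, e1, add_eq_zero] at ha
  obtain ⟨hγ, hα⟩ := ha
  unfold FL par
  rw [e, e2, hα, hγ, zero_add, add_zero]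
  exact ⟨Iff.rfl, rfl⟩

theorem par_acy_right {D : ι → ι → R} {B₁ B₂ : Finset ι} (hcx : IsCx D (B₁ ∪ B₂))
    (h : ∀ a ∈ B₁, ∀ b ∈ B₂, D a b = 0) (hd : Disjoint B₁ B₂) (ha : Acy D B₂) :
    (FL D (B₁ ∪ B₂) ↔ FL D B₁) ∧ par D (B₁ ∪ B₂) = par D B₁ := by
  obtain ⟨α, β, γ, e1, e, e2⟩ := len_split hcx h hd
  rw [len_zero, e2, add_eq_zero] at ha
  obtain ⟨hβ, hγ⟩ := ha
  unfold FL par
  rw [e, e1, hβ, hγ, zero_add, add_zero]
  exact ⟨Iff.rfl, rfl⟩

end Cub
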