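import Mathlib

/-!
# Cubical knots, surfaces, slice discs and invariant concordances: the statement

Everything lives in the standard cubulation of `ℝ⁴`, all of whose cells are products of four
factors, each of which is an integer point or an interval `[k, k + 1]` with `k` an integer.

A cell is recorded by TWICE ITS BARYCENTER, a vector `c : Fin 4 → ℤ`: the factor number `i` of the
cell is the point `c i / 2` if `c i` is even, and the interval `[(c i - 1)/2, (c i + 1)/2]` if `c i`
is odd.  The antipodal map `x ↦ -x` of `ℝ⁴` sends the cell `c` to the cell `-c`.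

The closed box `Box n` (`n : Fin 4 → ℕ`) is `{x | |x i| ≤ n i for all i}`, its boundary is a
three-sphere on which `x ↦ -x` acts freely.
-/

namespace Cub

/-- Cells of the cubulation of `ℝ⁴`, given by twice the barycenter. -/
abbrev Cell := Fin 4 → ℤ

/-- The dimension of a cell. -/
def dim (c : Cell) : ℕ := (Finset.univ.filter (fun i => c i % 2 = 1)).card

/-- The (closed) cell `a` is a face of the cell `b` (every cell is a face of itself). -/
def Le (a b : Cell) : Prop := ∀ i, a i = b i ∨ (b i % 2 = 1 ∧ (a i = b i - 1 ∨ a i = b i + 1))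

/-- The eight directions `± e_i`. -/
def IsDir (d : Cell) : Prop := ∃ i : Fin 4, d = Pi.single i 1 ∨ d = Pi.single i (-1)

/-- A finite subcomplex: all faces of its cells belong to it. -/
def IsComplex (F : Finset Cell) : Prop := ∀ b ∈ F, ∀ a, Le a b → a ∈ F

/-- The link of the vertex `v` in `F` is a path, which runs through the edges at `v` with the
successive directions `l` (two successive edges span a square of `F`). -/
def LinkPath (F : Finset Cell) (v : Cell) (l : List Cell) : Prop :=
  2 ≤ l.length ∧ l.Nodup ∧ (∀ d ∈ l, IsDir d) ∧ (∀ p ∈ l.zip l.tail, p.2 ≠ -p.1) ∧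
  ∀ c, (c ∈ F ∧ Le v c) ↔
    (c = v ∨ (∃ d ∈ l, c = v + d) ∨ ∃ p ∈ l.zip l.tail, c = v + p.1 + p.2)

/-- The link of the vertex `v` in `F` is a circle, which runs through the edges at `v` with the
cyclically successive directions `l`. -/
def LinkCycle (F : Finset Cell) (v : Cell) (l : List Cell) : Prop :=
  3 ≤ l.length ∧ l.Nodup ∧ (∀ d ∈ l, IsDir d) ∧ (∀ p ∈ l.zip (l.rotate 1), p.2 ≠ -p.1) ∧
  ∀ c, (c ∈ F ∧ Le v c) ↔
    (c = v ∨ (∃ d ∈ l, c = v + d) ∨ ∃ p ∈ l.zip (l.rotate 1), c = v + p.1 + p.2)

/-- The complex `F` is a compact surface whose boundary is the graph `B`: the link of a vertex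
outside `B` is a circle, and the link of a vertex of `B` is a path from one edge of `B` to
another one, there being no other edges of `B` at this vertex. -/
structure IsSurface (F B : Finset Cell) : Prop where
  cx : IsComplex F
  bcx : IsComplex B
  sub : B ⊆ F
  bdim : ∀ c ∈ B, dim c ≤ 1
  inner : ∀ v ∈ F, dim v = 0 → v ∉ B → ∃ l, LinkCycle F v l
  outer : ∀ v ∈ B, dim v = 0 → ∃ l, LinkPath F v l ∧
    ∀ d, (IsDir d ∧ v + d ∈ B) ↔ (l.head? = some d ∨ l.getLast? = some d)

/-- The complex `F` is connected (and not empty). -/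
def Connected (F : Finset Cell) : Prop :=
  F.Nonempty ∧ ∀ a ∈ F, ∀ b ∈ F,
    Relation.ReflTransGen (fun x y => x ∈ F ∧ y ∈ F ∧ (Le x y ∨ Le y x)) a b

/-- The Euler characteristic. -/
def euler (F : Finset Cell) : ℤ := ∑ c ∈ F, (-1) ^ dim c

/-- A simple closed curve: a connected graph with exactly two edges at every vertex. -/
structure IsCurve (K : Finset Cell) : Prop where
  cx : IsComplex K
  dim_le : ∀ c ∈ K, dim c ≤ 1
  conn : Connected K
  two : ∀ v ∈ K, dim v = 0 → ∃ d e, IsDir d ∧ IsDir e ∧ d ≠ e ∧
    ∀ c, (c ∈ K ∧ Le v c) ↔ (c = v ∨ c = v + d ∨ c = v + e)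

/-- The cells of the closed box `[-n 0, n 0] × ... × [-n 3, n 3]`. -/
noncomputable def Box (n : Fin 4 → ℕ) : Finset Cell :=
  Fintype.piFinset (fun i => Finset.Icc (-(2 * (n i : ℤ))) (2 * (n i : ℤ)))

/-- The cells of the boundary of the box. -/
noncomputable def bd (n : Fin 4 → ℕ) : Finset Cell :=
  (Box n).filter (fun c => ∃ i, c i = 2 * (n i : ℤ) ∨ c i = -(2 * (n i : ℤ)))

/-- The open cell `c` is contained in the `m`-fold dilation `m • t` of the open cell `t`. -/
def Sub (m : ℕ) (t c : Cell) : Prop :=
  ∀ i, (t i % 2 = 0 → c i = m * t i) ∧ (t i % 2 = 1 → m * (t i - 1) < c i ∧ c i < m * (t i + 1))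

/-- The cells of the `m`-fold dilation of `K` (which is subdivided by the standard cubulation). -/
def scale (m : ℕ) (K : Finset Cell) : Set Cell := {c | ∃ t ∈ K, Sub m t c}

/-- The great circle in the boundary of `Box k` which is cut out by the plane `x₂ = x₃ = 0`;
its image in the quotient by `x ↦ -x` is the projective line. -/
noncomputable def circle (k : Fin 4 → ℕ) : Finset Cell :=
  (bd k).filter (fun c => c 2 = 0 ∧ c 3 = 0)

/-- A freely `2`-periodic knot in the boundary of the box: a simple closed curve which is invariant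
under the antipodal map. -/
def IsPeriodicKnot (n : Fin 4 → ℕ) (K : Finset Cell) : Prop :=
  IsCurve K ∧ K ⊆ bd n ∧ ∀ c ∈ K, -c ∈ K

/-- The knot `K` in the boundary of `Box n` is slice: it bounds a disc (a connected
surface with one boundary curve and Euler characteristic one) which is properly
embedded in the box, in the cubulation or in a subdivision of it. -/
def Slice (n : Fin 4 → ℕ) (K : Finset Cell) : Prop :=
  ∃ m : ℕ, 1 ≤ m ∧ ∃ D B : Finset Cell, (B : Set Cell) = scale m K ∧
    IsSurface D B ∧ Connected D ∧ euler D = 1 ∧ D ⊆ Box (fun i => m * n i) ∧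
    D ∩ bd (fun i => m * n i) = B

/-- The knot `K` is standardly equivariantly slice: for some `m`, the `m`-fold dilation of `K` (in the
boundary of `Box (m * n)`) and the great circle in the boundary of a smaller box `Box k` are the two
boundary components of an annulus (a connected surface with these two boundary curves and
Euler characteristic zero) which is invariant under the antipodal map and properly embedded in
the region between the boundaries of the two boxes.
The quotient of this region by the antipodal map is `[0,1] × ℝP³`. -/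
def StdSlice (n : Fin 4 → ℕ) (K : Finset Cell) : Prop :=
  ∃ m : ℕ, 1 ≤ m ∧ ∃ k : Fin 4 → ℕ, (∀ i, 0 < k i ∧ k i < m * n i) ∧
    ∃ A B : Finset Cell, (B : Set Cell) = scale m K ∧
      IsSurface A (B ∪ circle k) ∧ Connected A ∧ euler A = 0 ∧
      (∀ c ∈ A, -c ∈ A) ∧ A ⊆ Box (fun i => m * n i) ∧
      (∀ c ∈ A, c ∈ Box k → c ∈ bd k) ∧
      A ∩ bd (fun i => m * n i) = B ∧ A ∩ bd k = circle k

end Cub
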